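import Pool.Agent.GLI.Exact

set_option autoImplicit false

/-!
Module AllGood (uses `good_exact`, `good_hit`). Write `B0 = y0! y0`.
Level 0: `r B0 ≤ R`, `m ≤ y0`: `GoodAt N m (r n)` (good_exact; `Free κ N (R / r) (r n)`).
Smooth 0: `t` `y0`-smooth, `r t B0 ≤ R`: `GoodAt N t (r n)` (peel off the prime factors of `t`).
Level 1: `r ≤ Y R2`, `r y1 R1 B0 ≤ R`, `m ≤ y1`: good_hit at the point `r n` with the `t` of `h0`.
Smooth 1: `t` `y1`-smooth, `r t ≤ Y R2`, `r t y1 R1 B0 ≤ R`: `GoodAt N t (r n)`.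
Level 2: good_hit with the `t` of `h1`, `GoodAt N t n`, `GoodAt N t (m n)` from Smooth 1 (`r = 1, m`).
-/

open Finset Filter

namespace Pool.Agent.GLI

theorem free_mul {κ : ℤ} {N R R' n r : ℕ} (hF : Free κ N R n) (hr : 1 ≤ r) (h : R' * r ≤ R) :
    Free κ N R' (r * n) := by
  intro s hs1 hs2
  have h1 := hF (s * r) (Nat.mul_pos hs1 hr) (le_trans (Nat.mul_le_mul_right r hs2) h)
  rw [← Nat.mul_assoc]
  exact h1

theorem good_smooth {N n y B R L : ℕ} 
    (hlev : ∀ r : ℕ, 1 ≤ r → r ≤ L → r * B ≤ R → ∀ m : ℕ, 1 ≤ m → m ≤ y → GoodAt N m (r * n)) :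
    ∀ t : ℕ, 1 ≤ t → Sm y t → ∀ r : ℕ, 1 ≤ r → r * t ≤ L → r * t * B ≤ R →
      GoodAt N t (r * n) := by
  intro t
  induction t using Nat.strong_induction_on with
  | _ t ih =>
    intro ht hS r hr h1 h2
    rcases Nat.lt_or_ge t 2 with ht2 | ht2
    · have : t = 1 := by omega
      subst this
      unfold GoodAt
      rw [lam_one, one_mul, one_mul]
    · have hp : (Nat.minFac t).Prime := Nat.minFac_prime (by omega)
      set p := Nat.minFac t with hpdef
      obtain ⟨u, hu⟩ : p ∣ t := Nat.minFac_dvd t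
      have hu0 : 0 < u := by
        rcases Nat.eq_zero_or_pos u with h | h
        · rw [h] at hu; omega
        · exact h
      have hp2 := hp.two_le
      have hut : u < t := by rw [hu]; nlinarith
      have hle : u ≤ t := hut.le
      have g1 : GoodAt N u (r * n) := by
        refine ih u hut hu0 ?_ r hr (le_trans (Nat.mul_le_mul_left r hle) h1)
          (le_trans (Nat.mul_le_mul_right B (Nat.mul_le_mul_left r hle)) h2)
        intro q hq hqu
        exact hS q hq (hqu.trans (by rw [hu]; exact dvd_mul_left _ _))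
      have g2 : GoodAt N p ((r * u) * n) := by
        refine hlev (r * u) (Nat.mul_pos hr hu0) (le_trans (Nat.mul_le_mul_left r hle) h1)
          (le_trans (Nat.mul_le_mul_right B (Nat.mul_le_mul_left r hle)) h2) p hp.one_lt.le ?_
        exact hS p hp (by rw [hu]; exact dvd_mul_right _ _)
      unfold GoodAt at *
      have e1 : t * (r * n) = p * (r * u * n) := by rw [hu]; ring
      have e2 : r * u * n = u * (r * n) := by ring
      rw [e1, g2, e2, g1, hu, lam_mul (by omega) (by omega), mul_assoc]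

theorem good_all {κ : ℤ} (hκ : κ = 1 ∨ κ = -1) {N n y0 y1 Y R1 R2 R : ℕ} (hN : 2 ≤ N)
    (hy0 : 1 ≤ y0) (hy1 : 1 ≤ y1) (hY : 1 ≤ Y) (hR1 : 1 ≤ R1) (hR2 : 1 ≤ R2)
    (hR : Y * R2 * y1 * R1 * (Nat.factorial y0 * y0) ≤ R) (hF : Free κ N R n)
    (h0 : ∀ r : ℕ, 1 ≤ r → r ≤ Y * R2 → ∀ m : ℕ, 1 ≤ m → m ≤ y1 → Hit N y0 R1 m (r * n))
    (h1 : ∀ m : ℕ, 1 ≤ m → m ≤ Y → Hit N y1 R2 m n) :
    ∀ m : ℕ, 1 ≤ m → m ≤ Y → GoodAt N m n := by
  set B0 := Nat.factorial y0 * y0 with hB0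
  have hB0pos : 1 ≤ B0 := Nat.mul_pos (Nat.factorial_pos _) hy0
  -- level zero
  have lev0 : ∀ r : ℕ, 1 ≤ r → r ≤ R → r * B0 ≤ R → ∀ m : ℕ, 1 ≤ m → m ≤ y0 →
      GoodAt N m (r * n) := by
    intro r hr _ hrB m hm hmy
    refine good_exact hκ hN hm (le_refl (Nat.factorial m * m)) (free_mul hF hr ?_)
    calc Nat.factorial m * m * r ≤ B0 * r :=
          Nat.mul_le_mul_right r (Nat.mul_le_mul (Nat.factorial_le hmy) hmy)
      _ = r * B0 := Nat.mul_comm _ _
      _ ≤ R := hrB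
  have sm0 := good_smooth (N := N) (n := n) (y := y0) (B := B0) (R := R) (L := R) lev0
  have sm0' : ∀ t : ℕ, 1 ≤ t → Sm y0 t → ∀ r : ℕ, 1 ≤ r → r * t * B0 ≤ R →
      GoodAt N t (r * n) := by
    intro t ht hS r hr h
    exact sm0 t ht hS r hr (le_trans (Nat.le_mul_of_pos_right _ hB0pos) h) h
  -- level one
  have lev1 : ∀ r : ℕ, 1 ≤ r → r ≤ Y * R2 → r * (y1 * R1 * B0) ≤ R → ∀ m : ℕ, 1 ≤ m → m ≤ y1 →
      GoodAt N m (r * n) := by
    intro r hr hrY hrB m hm hmy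
    obtain ⟨t, ht1, htR, htS, htn⟩ := h0 r hr hrY m hm hmy
    have hmt : m * t * B0 ≤ y1 * R1 * B0 := Nat.mul_le_mul_right B0 (Nat.mul_le_mul hmy htR)
    have hb : r * (m * t * B0) ≤ R := le_trans (Nat.mul_le_mul_left r hmt) hrB
    refine good_hit (R := y1 * R1) hκ hN hm ht1 (Nat.mul_le_mul hmy htR) (free_mul hF hr ?_)
      htn ?_ ?_
    · calc y1 * R1 * r = r * (y1 * R1) := Nat.mul_comm _ _
        _ ≤ r * (y1 * R1 * B0) := Nat.mul_le_mul_left r (Nat.le_mul_of_pos_right _ hB0pos)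
        _ ≤ R := hrB
    · refine sm0' t ht1 htS r hr ?_
      calc r * t * B0 ≤ m * (r * t * B0) := Nat.le_mul_of_pos_left _ hm
        _ = r * (m * t * B0) := by ring
        _ ≤ R := hb
    · rw [← Nat.mul_assoc]
      refine sm0' t ht1 htS (m * r) (Nat.mul_pos hm hr) ?_
      calc m * r * t * B0 = r * (m * t * B0) := by ring
        _ ≤ R := hb
  have sm1 := good_smooth (N := N) (n := n) (y := y1) (B := y1 * R1 * B0) (R := R)
    (L := Y * R2) lev1
  -- level two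
  intro m hm hmY
  obtain ⟨t, ht1, htR, htS, htn⟩ := h1 m hm hmY
  have hB1 : 1 ≤ y1 * R1 * B0 := Nat.mul_pos (Nat.mul_pos hy1 hR1) hB0pos
  have hmt : m * t ≤ Y * R2 := Nat.mul_le_mul hmY htR
  have hR' : Y * R2 * (y1 * R1 * B0) ≤ R := by
    calc Y * R2 * (y1 * R1 * B0) = Y * R2 * y1 * R1 * B0 := by ring
      _ ≤ R := hR
  have hmtB : m * t * (y1 * R1 * B0) ≤ R := le_trans (Nat.mul_le_mul_right _ hmt) hR'
  refine good_hit (R := R) hκ hN hm ht1 (le_trans (Nat.le_mul_of_pos_right _ hB1) hmtB) hF htn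
    ?_ ?_
  · have h2 : 1 * t ≤ Y * R2 := by
      rw [one_mul]
      exact le_trans (Nat.le_mul_of_pos_left t hm) hmt
    have h3 : 1 * t * (y1 * R1 * B0) ≤ R := le_trans (Nat.mul_le_mul_right _ h2) hR'
    have := sm1 t ht1 htS 1 (le_refl 1) h2 h3
    rwa [one_mul] at this
  · exact sm1 t ht1 htS m hm hmt hmtB

end Pool.Agent.GLI
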