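import Pool.Agent.GLI.Defs

set_option autoImplicit false

/-!
Eventual inequalities (proved; use them freely).
-/

open Finset Filter Asymptotics

namespace Pool.Agent.GLI

theorem tendsto_logN : Tendsto (fun N : ℕ => Real.log N) atTop atTop :=
  Real.tendsto_log_atTop.comp tendsto_natCast_atTop_atTop

theorem tendsto_loglogN : Tendsto (fun N : ℕ => Real.log (Real.log N)) atTop atTop :=
  Real.tendsto_log_atTop.comp tendsto_logN

/-- `B ≤ log N`, eventually. -/
theorem ev_log (B : ℝ) : ∀ᶠ N : ℕ in atTop, B ≤ Real.log N :=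
  tendsto_logN.eventually_ge_atTop B

/-- `B ≤ log log N`, eventually. -/
theorem ev_loglog (B : ℝ) : ∀ᶠ N : ℕ in atTop, B ≤ Real.log (Real.log N) :=
  tendsto_loglogN.eventually_ge_atTop B

/-- Powers of `log x` against powers of `x` (real variable). -/
theorem ev_real (b : ℝ) (hb : 0 < b) (C : ℕ) (K : ℝ) : ∀ᶠ x : ℝ in atTop,
    K * Real.log x ^ C ≤ x ^ b := by
  have h1 : (fun x : ℝ => Real.log x ^ (C : ℝ)) =o[atTop] fun x : ℝ => x ^ b :=
    isLittleO_log_rpow_rpow_atTop C hb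
  have h2 := h1.bound (c := 1 / (|K| + 1)) (by positivity)
  filter_upwards [h2, eventually_ge_atTop 1] with x hx hx1
  have hl : 0 ≤ Real.log x := Real.log_nonneg hx1
  have h3 : (0 : ℝ) ≤ x ^ b := Real.rpow_nonneg (by linarith) _
  rw [Real.rpow_natCast, Real.norm_of_nonneg (by positivity), Real.norm_of_nonneg h3] at hx
  have h4 : (|K| + 1) * Real.log x ^ C ≤ x ^ b := by
    have h5 : (|K| + 1) * Real.log x ^ C ≤ (|K| + 1) * (1 / (|K| + 1) * x ^ b) :=
      mul_le_mul_of_nonneg_left hx (by positivity)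
    have h6 : (|K| + 1) * (1 / (|K| + 1) * x ^ b) = x ^ b := by
      field_simp
    linarith
  refine le_trans ?_ h4
  have h7 : K ≤ |K| + 1 := by
    have := le_abs_self K
    linarith
  exact mul_le_mul_of_nonneg_right h7 (by positivity)

/-- `K N^a (log N)^C ≤ N^b` eventually, if `a < b`. -/
theorem ev_pow (a b : ℝ) (hab : a < b) (C : ℕ) (K : ℝ) : ∀ᶠ N : ℕ in atTop,
    K * (N : ℝ) ^ a * Real.log N ^ C ≤ (N : ℝ) ^ b := by
  have h1 := tendsto_natCast_atTop_atTop (R := ℝ) |>.eventually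
    (ev_real (b - a) (by linarith) C K)
  filter_upwards [h1, eventually_ge_atTop 1] with N hN hN1
  have hN0 : (0 : ℝ) < N := by
    have : 0 < N := hN1
    exact_mod_cast this
  have h2 : (N : ℝ) ^ b = (N : ℝ) ^ a * (N : ℝ) ^ (b - a) := by
    rw [← Real.rpow_add hN0]
    congr 1
    ring
  rw [h2]
  have h3 : (0 : ℝ) ≤ (N : ℝ) ^ a := Real.rpow_nonneg hN0.le _
  nlinarith

/-- `K (log log N)^C ≤ (log N)^b` eventually, for `b > 0`. -/
theorem ev_loglog_pow (b : ℝ) (hb : 0 < b) (C : ℕ) (K : ℝ) : ∀ᶠ N : ℕ in atTop,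
    K * Real.log (Real.log N) ^ C ≤ Real.log N ^ b :=
  tendsto_logN.eventually (ev_real b hb C K)

theorem div_log_anti {N : ℕ} (x : ℝ) (hx : 0 ≤ x) (hN : 1 ≤ Real.log N) {a b : ℕ} (hab : a ≤ b) :
    x / Real.log N ^ b ≤ x / Real.log N ^ a := by
  have h0 : (0 : ℝ) < Real.log N := by linarith
  exact div_le_div_of_nonneg_left hx (pow_pos h0 a) (pow_le_pow_right₀ hN hab)

theorem lp_le (N A : ℕ) (h : 0 ≤ Real.log N) : (lp N A : ℝ) ≤ Real.log N ^ A :=
  Nat.floor_le (by positivity)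

theorem lt_lp (N A : ℕ) : Real.log N ^ A < (lp N A : ℝ) + 1 := Nat.lt_floor_add_one _

theorem lam_cases (a : ℕ) : lam a = 1 ∨ lam a = -1 := by
  unfold lam
  exact neg_one_pow_eq_or ℤ _

theorem lam_mul {a b : ℕ} (ha : a ≠ 0) (hb : b ≠ 0) : lam (a * b) = lam a * lam b := by
  unfold lam
  rw [ArithmeticFunction.cardFactors_mul ha hb, pow_add]

theorem lam_prime {p : ℕ} (hp : p.Prime) : lam p = -1 := by
  unfold lam
  rw [ArithmeticFunction.cardFactors_apply_prime hp, pow_one]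

theorem lam_one : lam 1 = 1 := by
  unfold lam
  simp

theorem lam_sq (a : ℕ) : lam a * lam a = 1 := by
  rcases lam_cases a with h | h <;> rw [h] <;> norm_num

end Pool.Agent.GLI
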