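import Pool.Agent.GLI.ClassCount
import Pool.Agent.GLI.Ev

set_option autoImplicit false

/-!
Module BadOne. `M = lp N 12`, `σ = Sp χ N`. For different `k` the sets are disjoint; their union is contained in
the `(t, d)` with `d ∈ dis N χ`, `d < M N/(t p) + 1 =: x`; dis_le: `≤ x σ ≤ 2 M N σ/(t p)` (`M N/(t p) ≥ 1`, `x ≤ N`);
`∑_{t ∈ Tset} 1/t ≤ log N/4`; `N/p ≤ 2 N/P`.
-/

open Finset Filter

namespace Pool.Agent.GLI

namespace BadOne

theorem Sp_mono_b {N : ℕ} (χ : DirichletCharacter ℂ N) {x y : ℕ} (h : x ≤ y) : Sp χ x ≤ Sp χ y := by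
  classical
  unfold Sp
  refine Finset.sum_le_sum_of_subset_of_nonneg ?_ (fun _ _ _ => by positivity)
  unfold split
  intro p hp
  simp only [mem_filter, mem_Icc] at hp ⊢
  exact ⟨⟨hp.1.1, hp.1.2.trans h⟩, hp.2⟩

theorem Sp_nonneg {N : ℕ} (χ : DirichletCharacter ℂ N) (x : ℕ) : 0 ≤ Sp χ x := by
  unfold Sp
  exact Finset.sum_nonneg fun _ _ => by positivity

theorem sum_recip_le (n : ℕ) : ∑ t ∈ Icc 1 n, (1 : ℝ) / t ≤ 1 + Real.log n := by
  have h := harmonic_le_one_add_log n
  rw [harmonic_eq_sum_Icc] at h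
  push_cast at h
  simpa [one_div] using h

end BadOne

open Classical in
theorem bad_one : ∀ᶠ N : ℕ in atTop, ∀ χ : DirichletCharacter ℂ N, RealChar χ → ∀ P : ℕ, 2 ≤ P →
    (P : ℝ) ≤ Real.sqrt N * Real.log N ^ 13 → ∀ p : ℕ, p.Prime → P < 2 * p → p ≤ P →
    lp N 12 ≤ p →
    ∑ k ∈ range (lp N 12), (((Tset N ×ˢ dis N χ).filter fun w => k * N ≤ w.1 * p * w.2 ∧
      w.1 * p * w.2 < (k + 1) * N).card : ℝ) ≤
      Sp χ N * Real.log N ^ 13 * (N / P) := by
  have ev1 : ∀ᶠ N : ℕ in atTop, Real.log N ^ 37 ≤ Real.sqrt N := by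
    filter_upwards [ev_pow 0 (1 / 2) (by norm_num) 37 1] with N hN
    rw [Real.sqrt_eq_rpow]
    simpa using hN
  filter_upwards [ev1, ev_log 3, ev_loglog_pow 1 one_pos 1 200, ev_log 8,
    eventually_ge_atTop 1] with N ev1 hL3 hll hL8 hN1
  intro χ hχ P hP2 hPN p hp hp1 hp2 _
  set L : ℝ := Real.log N with hL
  rw [pow_one, Real.rpow_one] at hll
  have hL0 : (0:ℝ) < L := by linarith
  have hL1 : (1:ℝ) ≤ L := by linarith
  have hN0 : (0:ℝ) < N := by exact_mod_cast hN1
  have hP0 : (0:ℝ) < P := by positivity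
  have hp0 : (0:ℝ) < p := by exact_mod_cast hp.pos
  have hS := BadOne.Sp_nonneg χ N
  set M : ℕ := lp N 12 with hM
  have hM1 : 1 ≤ M := by
    refine Nat.le_floor ?_
    push_cast
    exact one_le_pow₀ hL1
  have hMR : (M : ℝ) ≤ L ^ 12 := lp_le N 12 hL0.le
  have hM1R : (1:ℝ) ≤ M := by exact_mod_cast hM1
  -- step 1: the sum over `k` is the cardinality of one set
  have h1 : ∑ k ∈ range M, (((Tset N ×ˢ dis N χ).filter fun w => k * N ≤ w.1 * p * w.2 ∧
      w.1 * p * w.2 < (k + 1) * N).card : ℝ) ≤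
      (((Tset N ×ˢ dis N χ).filter fun w => w.1 * p * w.2 < M * N).card : ℝ) := by
    have h2 : ∑ k ∈ range M, ((Tset N ×ˢ dis N χ).filter fun w => k * N ≤ w.1 * p * w.2 ∧
      w.1 * p * w.2 < (k + 1) * N).card =
      ((range M).biUnion fun k => (Tset N ×ˢ dis N χ).filter fun w => k * N ≤ w.1 * p * w.2 ∧
      w.1 * p * w.2 < (k + 1) * N).card := by
      symm
      refine Finset.card_biUnion ?_
      intro i hi j hj hij
      rw [Function.onFun, Finset.disjoint_left]
      intro w hw hw'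
      simp only [mem_filter] at hw hw'
      apply hij
      rcases lt_trichotomy i j with h | h | h
      · exfalso
        have : (i + 1) * N ≤ j * N := Nat.mul_le_mul_right _ h
        omega
      · exact h
      · exfalso
        have : (j + 1) * N ≤ i * N := Nat.mul_le_mul_right _ h
        omega
    have h3 : ((range M).biUnion fun k => (Tset N ×ˢ dis N χ).filter fun w =>
        k * N ≤ w.1 * p * w.2 ∧ w.1 * p * w.2 < (k + 1) * N) ⊆
        (Tset N ×ˢ dis N χ).filter fun w => w.1 * p * w.2 < M * N := by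
      intro w hw
      simp only [mem_biUnion, mem_filter, mem_range] at hw ⊢
      obtain ⟨k, hk, hw1, -, hw2⟩ := hw
      refine ⟨hw1, lt_of_lt_of_le hw2 ?_⟩
      exact Nat.mul_le_mul_right _ hk
    exact_mod_cast h2.le.trans (Finset.card_le_card h3)
  refine h1.trans ?_
  -- step 2: fibre over `t`
  have hfib : ((Tset N ×ˢ dis N χ).filter fun w => w.1 * p * w.2 < M * N).card =
      ∑ t ∈ Tset N, ((dis N χ).filter fun d => t * p * d < M * N).card := by
    simp only [Finset.card_filter]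
    rw [Finset.sum_product]
  rw [hfib, Nat.cast_sum]
  have h4 : ∀ t ∈ Tset N, (((dis N χ).filter fun d => t * p * d < M * N).card : ℝ) ≤
      (1 / t) * (2 * (M * N) / p * Sp χ N) := by
    intro t ht
    simp only [Tset, mem_filter, mem_Ioc] at ht
    have ht0 : (0:ℝ) < t := by exact_mod_cast ht.2.pos
    have htp : (0:ℝ) < t * p := by positivity
    have hy1 : (1:ℝ) ≤ M * N / (t * p) := by
      rw [le_div_iff₀ htp, one_mul]
      have ht24 : (t : ℝ) ≤ L ^ 24 :=
        le_trans (by exact_mod_cast ht.1.2) (lp_le N 24 hL0.le)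
      have hpN : (p : ℝ) ≤ Real.sqrt N * L ^ 13 := le_trans (by exact_mod_cast hp2) hPN
      have hs0 : 0 ≤ Real.sqrt N := Real.sqrt_nonneg _
      calc (t : ℝ) * p ≤ L ^ 24 * (Real.sqrt N * L ^ 13) := by gcongr
        _ = Real.sqrt N * L ^ 37 := by ring
        _ ≤ Real.sqrt N * Real.sqrt N := by gcongr
        _ = N := Real.mul_self_sqrt hN0.le
        _ ≤ M * N := by nlinarith
    set x : ℕ := min ⌈(M * N / (t * p) : ℝ)⌉₊ N with hx
    have hxN : x ≤ N := min_le_right _ _
    have hxR : (x : ℝ) ≤ 2 * (M * N / (t * p)) := by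
      have h5 : (x : ℝ) ≤ (⌈(M * N / (t * p) : ℝ)⌉₊ : ℝ) := Nat.cast_le.2 (min_le_left _ _)
      have h6 := Nat.ceil_lt_add_one (show (0:ℝ) ≤ M * N / (t * p) by positivity)
      linarith
    have hsub : ((dis N χ).filter fun d => t * p * d < M * N) ⊆ (dis N χ).filter (· < x) := by
      intro d hd
      simp only [mem_filter] at hd ⊢
      refine ⟨hd.1, lt_min ?_ ?_⟩
      · rw [Nat.lt_ceil, lt_div_iff₀ htp]
        have : d * (t * p) < M * N := by
          calc d * (t * p) = t * p * d := by ring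
            _ < M * N := hd.2
        exact_mod_cast this
      · have := hd.1
        simp only [dis, mem_filter, mem_range] at this
        exact this.1
    calc (((dis N χ).filter fun d => t * p * d < M * N).card : ℝ)
        ≤ (((dis N χ).filter (· < x)).card : ℝ) := by exact_mod_cast Finset.card_le_card hsub
      _ ≤ x * Sp χ x := dis_le N χ hχ x hxN
      _ ≤ (2 * (M * N / (t * p))) * Sp χ N := by
          exact mul_le_mul hxR (BadOne.Sp_mono_b χ hxN) (BadOne.Sp_nonneg χ x) (by positivity)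
      _ = (1 / t) * (2 * (M * N) / p * Sp χ N) := by field_simp
  have h5 : ∑ t ∈ Tset N, (1 : ℝ) / t ≤ L / 4 := by
    calc ∑ t ∈ Tset N, (1 : ℝ) / t ≤ ∑ t ∈ Icc 1 (lp N 24), (1 : ℝ) / t := by
          refine Finset.sum_le_sum_of_subset_of_nonneg ?_ (fun _ _ _ => by positivity)
          intro t ht
          simp only [Tset, mem_filter, mem_Ioc, mem_Icc] at ht ⊢
          exact ⟨ht.2.one_lt.le, ht.1.2⟩
      _ ≤ 1 + Real.log (lp N 24) := BadOne.sum_recip_le _
      _ ≤ 1 + 24 * Real.log L := by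
          have h6 : Real.log (lp N 24) ≤ Real.log (L ^ 24) := by
            refine Real.log_le_log ?_ (lp_le N 24 hL0.le)
            have : 1 ≤ lp N 24 := by
              refine Nat.le_floor ?_
              push_cast
              exact one_le_pow₀ hL1
            exact_mod_cast this
          rw [Real.log_pow] at h6
          push_cast at h6
          linarith
      _ ≤ L / 4 := by linarith
  calc ∑ t ∈ Tset N, (((dis N χ).filter fun d => t * p * d < M * N).card : ℝ)
      ≤ ∑ t ∈ Tset N, (1 / (t : ℝ)) * (2 * (M * N) / p * Sp χ N) := Finset.sum_le_sum h4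
    _ = (∑ t ∈ Tset N, 1 / (t : ℝ)) * (2 * (M * N) / p * Sp χ N) := by rw [Finset.sum_mul]
    _ ≤ (L / 4) * (2 * (L ^ 12 * N) / (P / 2) * Sp χ N) := by
        have h6 : (P : ℝ) / 2 ≤ p := by
          have : (P : ℝ) ≤ 2 * p := by exact_mod_cast hp1.le
          linarith
        gcongr
    _ = Sp χ N * L ^ 13 * (N / P) := by
        field_simp
        ring

end Pool.Agent.GLI
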