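import Pool.Agent.GLI.HitsA

set_option autoImplicit false

/-!
Module HitsB. `ae_good`: all_hit with `α = 1/N`, good_of_allHit, free_count.
`pair_good`: for `p ∈ Q`, `α = p/N ≤ N^(-1/4)`, `d < 1/α` (`p d < N`), all_hit at `d α = p d/N`; free_pairs for the points that
are not free. `2/α ≤ 4 N/P`.
-/

open Finset Filter

namespace Pool.Agent.GLI

open Classical in
theorem ae_good (A D : ℕ) : ∃ C : ℕ, ∀ᶠ N : ℕ in atTop, ∀ κ : ℤ, κ = 1 ∨ κ = -1 →
    ((W κ N).card : ℝ) ≤ N / Real.log N ^ C →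
    (((range N).filter fun n => ¬ ∀ m : ℕ, 1 ≤ m → m ≤ lp N A → GoodAt N m n).card : ℝ) ≤
      N / Real.log N ^ D := by
  obtain ⟨B2, B1, hall⟩ := all_hit A (D + 1)
  obtain ⟨C', hgood⟩ := good_of_allHit A B2 B1
  refine ⟨2 * C' + (D + 1), ?_⟩
  have ev1 : ∀ᶠ N : ℕ in atTop, Real.log N ^ (2 * C' + (D + 1)) ≤ (N : ℝ) := by
    filter_upwards [ev_pow 0 1 (by norm_num) (2 * C' + (D + 1)) 1] with N hN
    simpa using hN
  filter_upwards [hall, hgood, ev1, ev_log 3, eventually_ge_atTop 1] with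
    N hall hgood ev1 hL3 hN1
  intro κ hκ hW
  set L : ℝ := Real.log N with hL
  have hL0 : (0:ℝ) < L := by linarith
  have hL1 : (1:ℝ) ≤ L := by linarith
  have hN0 : (0:ℝ) < N := by exact_mod_cast hN1
  have hN1' : (1:ℝ) ≤ N := by exact_mod_cast hN1
  have hα0 : (0:ℝ) < 1 / N := by positivity
  have hαN : (1 : ℝ) / N ≤ (N : ℝ) ^ (-(1 / 4 : ℝ)) := by
    rw [one_div, ← Real.rpow_neg_one]
    exact Real.rpow_le_rpow_of_exponent_le hN1' (by norm_num)
  have h1 := hall (1 / N) hα0 hαN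
  have h2 := free_count κ N (lp N C') hN1
  have hceil : ⌈1 / (1 / (N : ℝ))⌉₊ = N := by
    rw [one_div_one_div]
    exact Nat.ceil_natCast N
  rw [hceil, one_div_one_div] at h1
  have hsub : ((range N).filter fun n => ¬ ∀ m : ℕ, 1 ≤ m → m ≤ lp N A → GoodAt N m n) ⊆
      ((range N).filter fun d : ℕ => ¬ AllHit N A B2 B1 (d * (1 / N))) ∪
        ((range N).filter fun n => ¬ Free κ N (lp N C') n) := by
    intro n hn
    simp only [mem_union, mem_filter] at hn ⊢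
    by_contra hcon
    push Not at hcon
    have h3 := hcon.1 hn.1
    have h4 := hcon.2 hn.1
    refine hn.2 (hgood κ hκ n ?_ h4)
    rwa [mul_one_div] at h3
  have hR : ((lp N C' : ℕ) : ℝ) ^ 2 ≤ L ^ (2 * C') := by
    calc ((lp N C' : ℕ) : ℝ) ^ 2 ≤ (L ^ C') ^ 2 :=
          pow_le_pow_left₀ (Nat.cast_nonneg _) (lp_le N C' hL0.le) 2
      _ = L ^ (2 * C') := by rw [← pow_mul]; congr 1; ring
  have hW1 : ((W κ N).card : ℝ) + 1 ≤ 2 * (N / L ^ (2 * C' + (D + 1))) := by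
    have : (1:ℝ) ≤ N / L ^ (2 * C' + (D + 1)) := by
      rw [le_div_iff₀ (by positivity), one_mul]
      exact ev1
    linarith
  calc (((range N).filter fun n => ¬ ∀ m : ℕ, 1 ≤ m → m ≤ lp N A → GoodAt N m n).card : ℝ)
      ≤ (((range N).filter fun d : ℕ => ¬ AllHit N A B2 B1 (d * (1 / N))).card : ℝ) +
        (((range N).filter fun n => ¬ Free κ N (lp N C') n).card : ℝ) := by
        exact_mod_cast (Finset.card_le_card hsub).trans (Finset.card_union_le _ _)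
    _ ≤ N / L ^ (D + 1) + (lp N C' : ℝ) ^ 2 * ((W κ N).card + 1) := by
        refine add_le_add h1 ?_
        exact_mod_cast h2
    _ ≤ N / L ^ (D + 1) + L ^ (2 * C') * (2 * (N / L ^ (2 * C' + (D + 1)))) := by
        gcongr
    _ = 3 * (N / L ^ (D + 1)) := by
        rw [pow_add L (2 * C') (D + 1)]
        field_simp
        ring
    _ ≤ L * (N / L ^ (D + 1)) := by gcongr
    _ = N / L ^ D := by
        rw [pow_succ]
        field_simp

open Classical in
theorem pair_good (A D : ℕ) : ∃ C : ℕ, ∀ᶠ N : ℕ in atTop, ∀ κ : ℤ, κ = 1 ∨ κ = -1 →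
    ∀ P : ℕ, 2 ≤ P → (P : ℝ) ≤ (N : ℝ) ^ (3 / 4 : ℝ) → ∀ Q : Finset ℕ,
    (∀ p ∈ Q, p.Prime ∧ P < 2 * p ∧ p ≤ P) →
    (((Q ×ˢ range N).filter fun w => 1 ≤ w.2 ∧ w.1 * w.2 < N ∧
      ¬ ∀ m : ℕ, 1 ≤ m → m ≤ lp N A → GoodAt N m (w.1 * w.2)).card : ℝ) ≤
      Q.card * ((N : ℝ) / P) / Real.log N ^ D + Real.log N ^ C * ((W κ N).card + 1) := by
  obtain ⟨B2, B1, hall⟩ := all_hit A (D + 1)
  obtain ⟨C', hgood⟩ := good_of_allHit A B2 B1
  refine ⟨2 * C' + 2, ?_⟩
  filter_upwards [hall, hgood, ev_log 4, eventually_ge_atTop 1] with N hall hgood hL3 hN1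
  intro κ hκ P hP2 hPN Q hQ
  set L : ℝ := Real.log N with hL
  have hL0 : (0:ℝ) < L := by linarith
  have hL1 : (1:ℝ) ≤ L := by linarith
  have hN0 : (0:ℝ) < N := by exact_mod_cast hN1
  have hN1' : (1:ℝ) ≤ N := by exact_mod_cast hN1
  have hP0 : (0:ℝ) < P := by positivity
  -- the points with a missing hit
  have h1 : ∀ p ∈ Q, (((range N).filter fun d : ℕ => p * d < N ∧
      ¬ AllHit N A B2 B1 (((p * d : ℕ) : ℝ) / N)).card : ℝ) ≤ 2 * (N / P) / L ^ (D + 1) := by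
    intro p hp
    obtain ⟨hpp, hp1, hp2⟩ := hQ p hp
    have hp0 : (0:ℝ) < p := by exact_mod_cast hpp.pos
    have hα0 : (0:ℝ) < p / N := by positivity
    have hαN : (p : ℝ) / N ≤ (N : ℝ) ^ (-(1 / 4 : ℝ)) := by
      rw [div_le_iff₀ hN0]
      calc (p : ℝ) ≤ P := by exact_mod_cast hp2
        _ ≤ (N : ℝ) ^ (3 / 4 : ℝ) := hPN
        _ = (N : ℝ) ^ (-(1 / 4 : ℝ)) * (N : ℝ) ^ (1 : ℝ) := by
            rw [← Real.rpow_add hN0]; norm_num
        _ = (N : ℝ) ^ (-(1 / 4 : ℝ)) * N := by rw [Real.rpow_one]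
    have h2 := hall (p / N) hα0 hαN
    rw [one_div_div] at h2
    have hsub : ((range N).filter fun d : ℕ => p * d < N ∧
        ¬ AllHit N A B2 B1 (((p * d : ℕ) : ℝ) / N)) ⊆
        (range ⌈(N : ℝ) / p⌉₊).filter fun d : ℕ => ¬ AllHit N A B2 B1 (d * (p / N)) := by
      intro d hd
      simp only [mem_filter, mem_range] at hd ⊢
      refine ⟨?_, ?_⟩
      · rw [Nat.lt_ceil, lt_div_iff₀ hp0]
        have : d * p < N := by rw [mul_comm]; exact hd.2.1
        exact_mod_cast this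
      · have h3 := hd.2.2
        have e : (((p * d : ℕ) : ℝ) / N) = d * (p / N) := by
          push_cast
          ring
        rwa [e] at h3
    calc (((range N).filter fun d : ℕ => p * d < N ∧
        ¬ AllHit N A B2 B1 (((p * d : ℕ) : ℝ) / N)).card : ℝ)
        ≤ (((range ⌈(N : ℝ) / p⌉₊).filter fun d : ℕ =>
            ¬ AllHit N A B2 B1 (d * (p / N))).card : ℝ) := by
          exact_mod_cast Finset.card_le_card hsub
      _ ≤ N / p / L ^ (D + 1) := h2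
      _ ≤ 2 * (N / P) / L ^ (D + 1) := by
          refine div_le_div_of_nonneg_right ?_ (by positivity)
          rw [← mul_div_assoc, div_le_div_iff₀ hp0 hP0]
          have : (P : ℝ) ≤ 2 * p := by exact_mod_cast hp1.le
          nlinarith
  have hfree := free_pairs κ N (lp N C') hN1 Q (fun p hp => (hQ p hp).1)
  have hsub : ((Q ×ˢ range N).filter fun w => 1 ≤ w.2 ∧ w.1 * w.2 < N ∧
      ¬ ∀ m : ℕ, 1 ≤ m → m ≤ lp N A → GoodAt N m (w.1 * w.2)) ⊆
      ((Q ×ˢ range N).filter fun w => w.1 * w.2 < N ∧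
        ¬ AllHit N A B2 B1 (((w.1 * w.2 : ℕ) : ℝ) / N)) ∪
      ((Q ×ˢ range N).filter fun w => 1 ≤ w.2 ∧ w.1 * w.2 < N ∧
        ¬ Free κ N (lp N C') (w.1 * w.2)) := by
    intro w hw
    simp only [mem_union, mem_filter] at hw ⊢
    by_contra hcon
    push Not at hcon
    have h3 := hcon.1 hw.1 hw.2.2.1
    have h4 := hcon.2 hw.1 hw.2.1 hw.2.2.1
    exact hw.2.2.2 (hgood κ hκ _ h3 h4)
  have hfib : (((Q ×ˢ range N).filter fun w => w.1 * w.2 < N ∧
        ¬ AllHit N A B2 B1 (((w.1 * w.2 : ℕ) : ℝ) / N)).card : ℝ) ≤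
        Q.card * (2 * (N / P) / L ^ (D + 1)) := by
    have e : ((Q ×ˢ range N).filter fun w => w.1 * w.2 < N ∧
        ¬ AllHit N A B2 B1 (((w.1 * w.2 : ℕ) : ℝ) / N)).card =
        ∑ p ∈ Q, ((range N).filter fun d : ℕ => p * d < N ∧
          ¬ AllHit N A B2 B1 (((p * d : ℕ) : ℝ) / N)).card := by
      simp only [Finset.card_filter]
      rw [Finset.sum_product]
    rw [e, Nat.cast_sum]
    calc ∑ p ∈ Q, (((range N).filter fun d : ℕ => p * d < N ∧
          ¬ AllHit N A B2 B1 (((p * d : ℕ) : ℝ) / N)).card : ℝ)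
        ≤ ∑ p ∈ Q, 2 * (N / P) / L ^ (D + 1) := Finset.sum_le_sum h1
      _ = Q.card * (2 * (N / P) / L ^ (D + 1)) := by simp
  have hlog : ((Nat.log 2 N : ℕ) : ℝ) + 1 ≤ L ^ 2 := by
    have h3 : 2 ^ Nat.log 2 N ≤ N := Nat.pow_log_le_self 2 (by omega)
    have h4 : ((2 : ℝ) ^ Nat.log 2 N) ≤ N := by exact_mod_cast h3
    have h5 := Real.log_le_log (by positivity) h4
    rw [Real.log_pow] at h5
    have h6 : (1/2 : ℝ) < Real.log 2 := by
      have := Real.log_two_gt_d9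
      linarith
    have h7 : (0:ℝ) ≤ (Nat.log 2 N : ℝ) := Nat.cast_nonneg _
    have h8 : (Nat.log 2 N : ℝ) ≤ 2 * L := by nlinarith
    nlinarith
  have hR : ((lp N C' : ℕ) : ℝ) ^ 2 ≤ L ^ (2 * C') := by
    calc ((lp N C' : ℕ) : ℝ) ^ 2 ≤ (L ^ C') ^ 2 :=
          pow_le_pow_left₀ (Nat.cast_nonneg _) (lp_le N C' hL0.le) 2
      _ = L ^ (2 * C') := by rw [← pow_mul]; congr 1; ring
  calc (((Q ×ˢ range N).filter fun w => 1 ≤ w.2 ∧ w.1 * w.2 < N ∧
      ¬ ∀ m : ℕ, 1 ≤ m → m ≤ lp N A → GoodAt N m (w.1 * w.2)).card : ℝ)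
      ≤ (((Q ×ˢ range N).filter fun w => w.1 * w.2 < N ∧
        ¬ AllHit N A B2 B1 (((w.1 * w.2 : ℕ) : ℝ) / N)).card : ℝ) +
        (((Q ×ˢ range N).filter fun w => 1 ≤ w.2 ∧ w.1 * w.2 < N ∧
        ¬ Free κ N (lp N C') (w.1 * w.2)).card : ℝ) := by
        exact_mod_cast (Finset.card_le_card hsub).trans (Finset.card_union_le _ _)
    _ ≤ Q.card * (2 * (N / P) / L ^ (D + 1)) +
        ((Nat.log 2 N : ℕ) + 1) * ((lp N C' : ℝ) ^ 2 * ((W κ N).card + 1)) := by
        refine add_le_add hfib ?_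
        exact_mod_cast hfree
    _ ≤ Q.card * ((N : ℝ) / P) / L ^ D + L ^ (2 * C' + 2) * ((W κ N).card + 1) := by
        refine add_le_add ?_ ?_
        · have : (Q.card : ℝ) * (2 * (N / P) / L ^ (D + 1)) =
              (Q.card * ((N : ℝ) / P) / L ^ D) * (2 / L) := by
            rw [pow_succ]
            field_simp
          rw [this]
          refine mul_le_of_le_one_right (by positivity) ?_
          rw [div_le_one hL0]
          linarith
        · have : L ^ (2 * C' + 2) * (((W κ N).card : ℝ) + 1) =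
              L ^ 2 * (L ^ (2 * C') * ((W κ N).card + 1)) := by
            rw [pow_add]; ring
          rw [this]
          gcongr

end Pool.Agent.GLI
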