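import Pool.Agent.GLI.ClassCount
import Pool.Agent.GLI.Hits
import Pool.Agent.GLI.Ev

set_option autoImplicit false

/-!
Module BadTwo. Sum over `k` and `p`: each bad pair `(p, d)` is counted for every
`t ∈ Tset N` at most once: `≤ |Tset N|` times the count of pair_good (`A = 24`, `D = 30`); with `|W| + 1 ≤ σ N/(log N)^C0` and
`σ P/(log N)^9 ≤ |Q|`: `(log N)^C (|W| + 1) ≤ |Q| (N/P) (log N)^(C + 9 - C0) ≤ |Q| (N/P) (log N)^(-30)` for `C0 = C + 39`.
-/

open Finset Filter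

namespace Pool.Agent.GLI

theorem card_Tset_le (N : ℕ) (h : 0 ≤ Real.log N) : ((Tset N).card : ℝ) ≤ Real.log N ^ 24 := by
  refine le_trans ?_ (lp_le N 24 h)
  have h1 : (Tset N).card ≤ (Ioc (lp N 12) (lp N 24)).card := Finset.card_filter_le _ _
  rw [Nat.card_Ioc] at h1
  exact_mod_cast h1.trans (Nat.sub_le _ _)

open Classical in
theorem bad_two_card (N M : ℕ) (Q : Finset ℕ) (R : ℕ → ℕ → Prop) :
    ∑ p ∈ Q, ∑ k ∈ range M, (((Tset N ×ˢ range N).filter fun w => 1 ≤ w.2 ∧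
      p * w.2 < N ∧ k * N ≤ w.1 * p * w.2 ∧ w.1 * p * w.2 < (k + 1) * N ∧
      ¬ R p w.2).card : ℝ) ≤
    ((Tset N).card : ℝ) * (((Q ×ˢ range N).filter fun w => 1 ≤ w.2 ∧ w.1 * w.2 < N ∧
      ¬ R w.1 w.2).card : ℝ) := by
  have h1 : (((Q ×ˢ range N).filter fun w => 1 ≤ w.2 ∧ w.1 * w.2 < N ∧ ¬ R w.1 w.2).card : ℝ) =
      ∑ p ∈ Q, (((range N).filter fun d => 1 ≤ d ∧ p * d < N ∧ ¬ R p d).card : ℝ) := by
    rw [Finset.card_filter, Finset.sum_product]
    push_cast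
    refine Finset.sum_congr rfl fun p _ => ?_
    rw [Finset.card_filter]
    push_cast
    rfl
  rw [h1, Finset.mul_sum]
  refine Finset.sum_le_sum fun p _ => ?_
  rw [← Nat.cast_sum, ← Nat.cast_mul, ← Finset.card_product]
  refine Nat.cast_le.2 ?_
  rw [← Finset.card_biUnion]
  · refine Finset.card_le_card fun w hw => ?_
    obtain ⟨k, _, hw⟩ := Finset.mem_biUnion.1 hw
    obtain ⟨hw1, hw2, hw3, _, _, hw6⟩ := Finset.mem_filter.1 hw
    obtain ⟨ha, hb⟩ := Finset.mem_product.1 hw1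
    exact Finset.mem_product.2 ⟨ha, Finset.mem_filter.2 ⟨hb, hw2, hw3, hw6⟩⟩
  · intro k _ l _ hkl
    refine Finset.disjoint_left.2 ?_
    intro w hw hw'
    obtain ⟨_, _, _, h4, h5, _⟩ := Finset.mem_filter.1 hw
    obtain ⟨_, _, _, h4', h5', _⟩ := Finset.mem_filter.1 hw'
    apply hkl
    have e1 : k < l + 1 := by
      by_contra hc
      have := Nat.mul_le_mul_right N (not_lt.1 hc)
      omega
    have e2 : l < k + 1 := by
      by_contra hc
      have := Nat.mul_le_mul_right N (not_lt.1 hc)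
      omega
    omega

open Classical in
theorem bad_two : ∃ C0 : ℕ, ∀ᶠ N : ℕ in atTop, ∀ κ : ℤ, κ = 1 ∨ κ = -1 →
    ∀ χ : DirichletCharacter ℂ N, ∀ P : ℕ, 2 ≤ P →
    (P : ℝ) ≤ Real.sqrt N * Real.log N ^ 13 → ∀ Q : Finset ℕ,
    (∀ p ∈ Q, p.Prime ∧ P < 2 * p ∧ p ≤ P) → Sp χ N * P / Real.log N ^ 9 ≤ Q.card →
    ((W κ N).card : ℝ) + 1 ≤ Sp χ N * N / Real.log N ^ C0 →
    ∑ p ∈ Q, ∑ k ∈ range (lp N 12), (((Tset N ×ˢ range N).filter fun w => 1 ≤ w.2 ∧
      p * w.2 < N ∧ k * N ≤ w.1 * p * w.2 ∧ w.1 * p * w.2 < (k + 1) * N ∧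
      ¬ ∀ m : ℕ, 1 ≤ m → m ≤ lp N 24 → GoodAt N m (p * w.2)).card : ℝ) ≤
      Q.card * ((N : ℝ) / P) / Real.log N ^ 5 := by
  obtain ⟨C, hC⟩ := pair_good 24 30
  refine ⟨C + 39, ?_⟩
  filter_upwards [hC, ev_log 2, ev_pow (1 / 2) (3 / 4) (by norm_num) 13 1] with N hN hlog hpow
  intro κ hκ χ P hP hPN Q hQ hQc hW
  have hL0 : (0 : ℝ) < Real.log N := by linarith
  have hP0 : (0 : ℝ) < P := by
    have : 0 < P := by omega
    exact_mod_cast this
  have hN0 : (0 : ℝ) ≤ N := Nat.cast_nonneg N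
  have hP34 : (P : ℝ) ≤ (N : ℝ) ^ (3 / 4 : ℝ) := by
    refine hPN.trans ?_
    rw [Real.sqrt_eq_rpow]
    simpa using hpow
  have hpg := hN κ hκ P hP hP34 Q hQ
  refine le_trans (le_of_eq ?_) ((bad_two_card N (lp N 12) Q
    (fun p d => ∀ m : ℕ, 1 ≤ m → m ≤ lp N 24 → GoodAt N m (p * d))).trans ?_)
  · refine Finset.sum_congr rfl fun p _ => Finset.sum_congr rfl fun k _ => ?_
    congr!
  have hT := card_Tset_le N hL0.le
  have hT0 : (0 : ℝ) ≤ ((Tset N).card : ℝ) := Nat.cast_nonneg _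
  have hQ0 : (0 : ℝ) ≤ (Q.card : ℝ) := Nat.cast_nonneg _
  have hA0 : 0 ≤ (Q.card : ℝ) * ((N : ℝ) / P) := by positivity
  -- the second term
  have h1 : Real.log N ^ C * (((W κ N).card : ℝ) + 1) ≤
      Q.card * ((N : ℝ) / P) / Real.log N ^ 30 := by
    have h2 : Sp χ N * N ≤ Q.card * ((N : ℝ) / P) * Real.log N ^ 9 := by
      rw [div_le_iff₀ (by positivity)] at hQc
      have h3 : Sp χ N * N = Sp χ N * P * (N / P) := by
        field_simp
      rw [h3]
      calc Sp χ N * P * (N / P) ≤ (Q.card * Real.log N ^ 9) * (N / P) :=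
            mul_le_mul_of_nonneg_right hQc (by positivity)
        _ = Q.card * ((N : ℝ) / P) * Real.log N ^ 9 := by ring
    calc Real.log N ^ C * (((W κ N).card : ℝ) + 1)
        ≤ Real.log N ^ C * (Sp χ N * N / Real.log N ^ (C + 39)) :=
          mul_le_mul_of_nonneg_left hW (by positivity)
      _ ≤ Real.log N ^ C * (Q.card * ((N : ℝ) / P) * Real.log N ^ 9 / Real.log N ^ (C + 39)) := by
          refine mul_le_mul_of_nonneg_left ?_ (by positivity)
          exact div_le_div_of_nonneg_right h2 (by positivity)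
      _ = Q.card * ((N : ℝ) / P) / Real.log N ^ 30 := by
          have e : Real.log N ^ (C + 39) = Real.log N ^ C * Real.log N ^ 9 * Real.log N ^ 30 := by
            rw [← pow_add, ← pow_add]
          rw [e]
          field_simp
  have h3 : (((Q ×ˢ range N).filter fun w => 1 ≤ w.2 ∧ w.1 * w.2 < N ∧
      ¬ ∀ m : ℕ, 1 ≤ m → m ≤ lp N 24 → GoodAt N m (w.1 * w.2)).card : ℝ) ≤
      2 * (Q.card * ((N : ℝ) / P) / Real.log N ^ 30) := by
    linarith
  refine le_trans (mul_le_mul hT (le_trans (le_of_eq ?_) h3) (Nat.cast_nonneg _)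
    (by positivity)) ?_
  · congr!
  calc Real.log N ^ 24 * (2 * (Q.card * ((N : ℝ) / P) / Real.log N ^ 30))
      = 2 * (Q.card * ((N : ℝ) / P)) / Real.log N ^ 6 := by
        have e : Real.log N ^ 30 = Real.log N ^ 24 * Real.log N ^ 6 := by rw [← pow_add]
        rw [e]
        field_simp
    _ ≤ Q.card * ((N : ℝ) / P) / Real.log N ^ 5 := by
        rw [div_le_div_iff₀ (by positivity) (by positivity)]
        have e : Real.log N ^ 6 = Real.log N ^ 5 * Real.log N := by rw [← pow_succ]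
        rw [e]
        have h5 : (0 : ℝ) ≤ Q.card * ((N : ℝ) / P) * Real.log N ^ 5 := by positivity
        nlinarith

end Pool.Agent.GLI
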