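import Pool.Agent.GLI.Defs

set_option autoImplicit false

/-!
Module DivB: elementary counting facts. `omega_small`: `2^ω(n) ≤ τ(n) ≤ C_δ n^δ` (the usual product
argument: `n^δ/τ(n) ≥ ∏ p^(δ a)/(a+1)`, bounded below). `cop_count`: `∑_{d ∣ N} μ(d) ⌈x/d⌉`.
`totient_lower`: `N/φ(N) = ∏_{p ∣ N} p/(p-1) ≤ ∏_{j ≤ ω(N)} (1 + 1/j) = ω(N) + 1`.
-/

open Finset Filter

namespace Pool.Agent.GLI

theorem omega_small (δ : ℝ) (hδ : 0 < δ) : ∀ᶠ N : ℕ in atTop,
    (2 : ℝ) ^ (N.primeFactors.card) ≤ (N : ℝ) ^ δ := by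
  -- threshold
  obtain ⟨T, hT⟩ : ∃ T : ℕ, ∀ p : ℕ, T < p → (2 : ℝ) ≤ (p : ℝ) ^ (δ / 2) := by
    have h := (tendsto_rpow_atTop (half_pos hδ)).comp (tendsto_natCast_atTop_atTop (R := ℝ))
    obtain ⟨T, hT⟩ := eventually_atTop.1 (h.eventually_ge_atTop 2)
    exact ⟨T, fun p hp => hT p hp.le⟩
  have h2 := (tendsto_rpow_atTop (half_pos hδ)).comp (tendsto_natCast_atTop_atTop (R := ℝ))
  filter_upwards [h2.eventually_ge_atTop ((2 : ℝ) ^ (T + 1)), eventually_ge_atTop 1] with N hN hN1
  have hN0 : (0 : ℝ) < N := by exact_mod_cast hN1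
  have hc : N.primeFactors.card =
      (N.primeFactors.filter (fun p => T < p)).card + (N.primeFactors.filter (fun p => ¬ T < p)).card :=
    (Finset.card_filter_add_card_filter_not _).symm
  have hsmall : (N.primeFactors.filter (fun p => ¬ T < p)).card ≤ T + 1 := by
    calc _ ≤ (range (T + 1)).card := by
          apply Finset.card_le_card
          intro p hp
          rw [mem_filter] at hp
          rw [mem_range]
          omega
      _ = T + 1 := card_range _
  have hbig : (2 : ℝ) ^ (N.primeFactors.filter (fun p => T < p)).card ≤ (N : ℝ) ^ (δ / 2) := by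
    calc (2 : ℝ) ^ (N.primeFactors.filter (fun p => T < p)).card
        = ∏ p ∈ N.primeFactors.filter (fun p => T < p), (2 : ℝ) := by rw [prod_const]
      _ ≤ ∏ p ∈ N.primeFactors.filter (fun p => T < p), (p : ℝ) ^ (δ / 2) := by
          apply Finset.prod_le_prod
          · intros; norm_num
          · intro p hp
            exact hT p (mem_filter.1 hp).2
      _ = (∏ p ∈ N.primeFactors.filter (fun p => T < p), (p : ℝ)) ^ (δ / 2) := by
          rw [Real.finsetProd_rpow]
          intro p _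
          positivity
      _ ≤ (N : ℝ) ^ (δ / 2) := by
          apply Real.rpow_le_rpow
          · positivity
          · have h3 : ∏ p ∈ N.primeFactors.filter (fun p => T < p), p ≤ ∏ p ∈ N.primeFactors, p := by
              apply Finset.prod_le_prod_of_subset_of_one_le'
              · exact filter_subset _ _
              · intro p hp _
                exact (Nat.prime_of_mem_primeFactors hp).one_lt.le
            have h4 : ∏ p ∈ N.primeFactors, p ≤ N :=
              Nat.le_of_dvd hN1 (Nat.prod_primeFactors_dvd N)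
            have h6 : ((∏ p ∈ N.primeFactors.filter (fun p => T < p), p : ℕ) : ℝ) ≤ N := by
              exact_mod_cast h3.trans h4
            rw [Nat.cast_prod] at h6
            exact h6
          · positivity
  have h5 : (N : ℝ) ^ δ = (N : ℝ) ^ (δ / 2) * (N : ℝ) ^ (δ / 2) := by
    rw [← Real.rpow_add hN0]
    congr 1
    ring
  rw [hc, pow_add, h5]
  apply mul_le_mul hbig _ (by positivity) (by positivity)
  refine le_trans ?_ hN
  exact pow_le_pow_right₀ (by norm_num) hsmall

theorem omega_log (N : ℕ) (hN : 1 ≤ N) : (N.primeFactors.card : ℝ) ≤ 2 * Real.log N := by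
  have h1 : 2 ^ (N.primeFactors.card) ≤ N := by
    calc 2 ^ (N.primeFactors.card) = ∏ p ∈ N.primeFactors, 2 := by rw [prod_const]
      _ ≤ ∏ p ∈ N.primeFactors, p := by
          apply Finset.prod_le_prod'
          intro p hp
          exact (Nat.prime_of_mem_primeFactors hp).two_le
      _ ≤ N := Nat.le_of_dvd hN (Nat.prod_primeFactors_dvd N)
  have h2 : (2 : ℝ) ^ (N.primeFactors.card) ≤ N := by exact_mod_cast h1
  have h3 := Real.log_le_log (by positivity) h2
  rw [Real.log_pow] at h3
  have h4 := Real.log_two_gt_d9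
  have h5 : (0 : ℝ) ≤ N.primeFactors.card := by positivity
  nlinarith

theorem card_dvd_range (x D : ℕ) (hD : 0 < D) :
    |(((range x).filter fun n => D ∣ n).card : ℝ) - x * (1 / D : ℝ)| ≤ 1 := by
  have h1 : ((range x).filter fun n => D ∣ n).card = x / D + if 0 < x % D then 1 else 0 := by
    rw [← Nat.count_eq_card_filter_range]
    have h2 := Nat.count_modEq_card x hD 0
    rw [Nat.zero_mod] at h2
    rw [← h2]
    congr 1
    ext n
    rw [Nat.modEq_zero_iff_dvd]
  rw [h1]
  have h3 : (x : ℝ) = D * ((x / D : ℕ) : ℝ) + ((x % D : ℕ) : ℝ) := by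
    have := Nat.div_add_mod x D
    exact_mod_cast this.symm
  have hD0 : (0 : ℝ) < D := by exact_mod_cast hD
  have h4 : ((x % D : ℕ) : ℝ) < D := by
    have := Nat.mod_lt x hD
    exact_mod_cast this
  have h5 : (x : ℝ) * (1 / D : ℝ) = ((x / D : ℕ) : ℝ) + ((x % D : ℕ) : ℝ) / D := by
    calc (x : ℝ) * (1 / D : ℝ) = (D * ((x / D : ℕ) : ℝ) + ((x % D : ℕ) : ℝ)) * (1 / D : ℝ) := by
          rw [← h3]
      _ = _ := by field_simp
  rw [h5]
  split_ifs with h
  · have h6 : (0 : ℝ) < ((x % D : ℕ) : ℝ) := by exact_mod_cast h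
    have h7 : ((x % D : ℕ) : ℝ) / D ≤ 1 := by
      rw [div_le_one hD0]
      exact h4.le
    have h8 : 0 < ((x % D : ℕ) : ℝ) / D := by positivity
    rw [abs_le]
    push_cast
    constructor <;> linarith
  · have h6 : x % D = 0 := by omega
    rw [h6]
    simp

theorem cop_count_aux (N : ℕ) (hN : 1 ≤ N) (x : ℕ) :
    |(((range x).filter fun n => n.Coprime N).card : ℝ) - x * (N.totient / N)| ≤
      (2 : ℝ) ^ (N.primeFactors.card) := by
  have hN0 : (N : ℝ) ≠ 0 := by
    have : N ≠ 0 := by omega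
    exact_mod_cast this
  -- expansion of the indicator
  have h1 : (((range x).filter fun n => n.Coprime N).card : ℝ) =
      ∑ t ∈ N.primeFactors.powerset,
        (-1 : ℝ) ^ t.card * (((range x).filter fun n => (∏ p ∈ t, p) ∣ n).card : ℝ) := by
    have h2 : ∀ n : ℕ, (if n.Coprime N then (1 : ℝ) else 0) =
        ∑ t ∈ N.primeFactors.powerset,
          (-1 : ℝ) ^ t.card * (if (∏ p ∈ t, p) ∣ n then (1 : ℝ) else 0) := by
      intro n
      have h3 : (if n.Coprime N then (1 : ℝ) else 0) =
          ∏ p ∈ N.primeFactors, (1 + (-(if p ∣ n then (1 : ℝ) else 0))) := by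
        split_ifs with h
        · symm
          apply prod_eq_one
          intro p hp
          have hpp := Nat.prime_of_mem_primeFactors hp
          have hpN := Nat.dvd_of_mem_primeFactors hp
          have : ¬ p ∣ n := by
            intro hpn
            have h4 := Nat.dvd_gcd hpn hpN
            rw [h] at h4
            exact hpp.one_lt.ne' (Nat.dvd_one.1 h4)
          rw [if_neg this]
          ring
        · symm
          obtain ⟨p, hp, hpn, hpN⟩ := Nat.Prime.not_coprime_iff_dvd.1 h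
          apply prod_eq_zero (i := p)
          · rw [Nat.mem_primeFactors]
            exact ⟨hp, hpN, by omega⟩
          · rw [if_pos hpn]
            ring
      rw [h3, Finset.prod_one_add]
      apply sum_congr rfl
      intro t ht
      rw [mem_powerset] at ht
      rw [prod_neg]
      congr 1
      by_cases hd : (∏ p ∈ t, p) ∣ n
      · rw [if_pos hd]
        apply prod_eq_one
        intro p hp
        rw [if_pos ((dvd_prod_of_mem _ hp).trans hd)]
      · rw [if_neg hd]
        by_contra hne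
        apply hd
        have h5 : ∀ p ∈ t, p ∣ n := by
          intro p hp
          by_contra h6
          apply hne
          apply prod_eq_zero hp
          rw [if_neg h6]
        apply Finset.prod_primes_dvd
        · intro p hp
          exact (Nat.prime_of_mem_primeFactors (ht hp)).prime
        · exact h5
    calc (((range x).filter fun n => n.Coprime N).card : ℝ)
        = ∑ n ∈ range x, (if n.Coprime N then (1 : ℝ) else 0) := by
          rw [Finset.sum_boole]
      _ = ∑ n ∈ range x, ∑ t ∈ N.primeFactors.powerset,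
          (-1 : ℝ) ^ t.card * (if (∏ p ∈ t, p) ∣ n then (1 : ℝ) else 0) :=
          sum_congr rfl fun n _ => h2 n
      _ = ∑ t ∈ N.primeFactors.powerset, ∑ n ∈ range x,
          (-1 : ℝ) ^ t.card * (if (∏ p ∈ t, p) ∣ n then (1 : ℝ) else 0) := sum_comm
      _ = _ := by
          apply sum_congr rfl
          intro t _
          rw [← mul_sum, Finset.sum_boole]
  have h3 : (N.totient : ℝ) / N = ∑ t ∈ N.primeFactors.powerset,
      (-1 : ℝ) ^ t.card * (1 / (∏ p ∈ t, p : ℕ) : ℝ) := by
    have h4 := Nat.totient_eq_mul_prod_factors N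
    have h5 : (N.totient : ℝ) = N * ∏ p ∈ N.primeFactors, (1 - (p : ℝ)⁻¹) := by
      have h6 := congrArg (fun q : ℚ => (q : ℝ)) h4
      push_cast at h6
      exact h6
    rw [h5, mul_div_cancel_left₀ _ hN0]
    have h6 : ∏ p ∈ N.primeFactors, (1 - (p : ℝ)⁻¹) = ∏ p ∈ N.primeFactors, (1 + (-(p : ℝ)⁻¹)) :=
      prod_congr rfl fun p _ => by ring
    rw [h6, Finset.prod_one_add]
    apply sum_congr rfl
    intro t _
    rw [prod_neg, prod_inv_distrib]
    push_cast
    rw [one_div]
  rw [h1, h3, mul_sum, ← sum_sub_distrib]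
  refine (abs_sum_le_sum_abs _ _).trans ?_
  have h7 : ∀ t ∈ N.primeFactors.powerset,
      |(-1 : ℝ) ^ t.card * (((range x).filter fun n => (∏ p ∈ t, p) ∣ n).card : ℝ) -
        x * ((-1 : ℝ) ^ t.card * (1 / (∏ p ∈ t, p : ℕ) : ℝ))| ≤ 1 := by
    intro t ht
    rw [mem_powerset] at ht
    have h8 : (-1 : ℝ) ^ t.card * (((range x).filter fun n => (∏ p ∈ t, p) ∣ n).card : ℝ) -
        x * ((-1 : ℝ) ^ t.card * (1 / (∏ p ∈ t, p : ℕ) : ℝ)) =
        (-1 : ℝ) ^ t.card * ((((range x).filter fun n => (∏ p ∈ t, p) ∣ n).card : ℝ) -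
          x * (1 / (∏ p ∈ t, p : ℕ) : ℝ)) := by ring
    rw [h8, abs_mul, abs_pow, abs_neg, abs_one, one_pow, one_mul]
    apply card_dvd_range
    apply Finset.prod_pos
    intro p hp
    exact (Nat.prime_of_mem_primeFactors (ht hp)).pos
  calc _ ≤ ∑ t ∈ N.primeFactors.powerset, (1 : ℝ) := sum_le_sum h7
    _ = (2 : ℝ) ^ (N.primeFactors.card) := by
        rw [sum_const, card_powerset, nsmul_eq_mul, mul_one]
        push_cast
        rfl

theorem cop_count (δ : ℝ) (hδ : 0 < δ) : ∀ᶠ N : ℕ in atTop, ∀ x : ℕ,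
    |(((range x).filter fun n => n.Coprime N).card : ℝ) - x * (N.totient / N)| ≤ (N : ℝ) ^ δ := by
  filter_upwards [omega_small δ hδ, eventually_ge_atTop 1] with N hN hN1 x
  exact (cop_count_aux N hN1 x).trans hN

theorem prod_ratio_le (S : Finset ℕ) : (∀ p ∈ S, 2 ≤ p) →
    1 ≤ ((S.card : ℝ) + 1) * ∏ p ∈ S, (1 - (p : ℝ)⁻¹) := by
  induction S using Finset.induction_on_max with
  | empty => intro _; simp
  | insert a s hmax ih =>
    intro h2
    have hs : ∀ p ∈ s, 2 ≤ p := fun p hp => h2 p (mem_insert_of_mem hp)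
    have ha : a ∉ s := fun h => lt_irrefl _ (hmax a h)
    have h1 := ih hs
    have ha2 : 2 ≤ a := h2 a (mem_insert_self _ _)
    have hc : s.card + 2 ≤ a := by
      have : s ⊆ Ico 2 a := by
        intro p hp
        rw [mem_Ico]
        exact ⟨hs p hp, hmax p hp⟩
      have := card_le_card this
      rw [Nat.card_Ico] at this
      omega
    rw [card_insert_of_notMem ha, prod_insert ha]
    push_cast
    have hprod : 0 < ∏ p ∈ s, (1 - (p : ℝ)⁻¹) := by
      apply prod_pos
      intro p hp
      have h3 : (2 : ℝ) ≤ p := by exact_mod_cast hs p hp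
      have h4 : (p : ℝ)⁻¹ ≤ 2⁻¹ := inv_anti₀ (by norm_num) h3
      linarith
    have hcr : (s.card : ℝ) + 2 ≤ a := by exact_mod_cast hc
    have hapos : (0 : ℝ) < a := by
      have : (0 : ℝ) ≤ s.card := by positivity
      linarith
    have h5 : ((s.card : ℝ) + 1) ≤ (s.card + 1 + 1) * (1 - (a : ℝ)⁻¹) := by
      have h6 : (a : ℝ)⁻¹ ≤ ((s.card : ℝ) + 2)⁻¹ := inv_anti₀ (by positivity) hcr
      have h7 : ((s.card : ℝ) + 2) * (a : ℝ)⁻¹ ≤ 1 := by
        calc ((s.card : ℝ) + 2) * (a : ℝ)⁻¹ ≤ ((s.card : ℝ) + 2) * ((s.card : ℝ) + 2)⁻¹ :=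
              mul_le_mul_of_nonneg_left h6 (by positivity)
          _ = 1 := mul_inv_cancel₀ (by positivity)
      nlinarith
    calc (1 : ℝ) ≤ ((s.card : ℝ) + 1) * ∏ p ∈ s, (1 - (p : ℝ)⁻¹) := h1
      _ ≤ ((s.card + 1 + 1) * (1 - (a : ℝ)⁻¹)) * ∏ p ∈ s, (1 - (p : ℝ)⁻¹) :=
          mul_le_mul_of_nonneg_right h5 hprod.le
      _ = _ := by ring

theorem totient_lower_aux (N : ℕ) (_hN : 1 ≤ N) :
    (N : ℝ) ≤ N.totient * (N.primeFactors.card + 1) := by
  have h1 := prod_ratio_le N.primeFactors fun p hp => (Nat.prime_of_mem_primeFactors hp).two_le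
  have h4 := Nat.totient_eq_mul_prod_factors N
  have h5 : (N.totient : ℝ) = N * ∏ p ∈ N.primeFactors, (1 - (p : ℝ)⁻¹) := by
    have h6 := congrArg (fun q : ℚ => (q : ℝ)) h4
    push_cast at h6
    exact h6
  rw [h5]
  have hN0 : (0 : ℝ) ≤ N := by positivity
  calc (N : ℝ) = N * 1 := by ring
    _ ≤ N * (((N.primeFactors.card : ℝ) + 1) * ∏ p ∈ N.primeFactors, (1 - (p : ℝ)⁻¹)) :=
        mul_le_mul_of_nonneg_left h1 hN0
    _ = _ := by ring

theorem totient_lower : ∀ᶠ N : ℕ in atTop, (N : ℝ) ≤ N.totient * Real.log N := by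
  have hlog : Tendsto (fun N : ℕ => Real.log N) atTop atTop :=
    Real.tendsto_log_atTop.comp tendsto_natCast_atTop_atTop
  filter_upwards [omega_small (1 / 4) (by norm_num), eventually_ge_atTop 1,
    hlog.eventually_ge_atTop 2] with N hN hN1 hl
  have hN0 : (0 : ℝ) < N := by exact_mod_cast hN1
  have h1 := totient_lower_aux N hN1
  have h2 : (N.primeFactors.card : ℝ) + 1 ≤ Real.log N := by
    have h3 := Real.log_le_log (by positivity) hN
    rw [Real.log_pow, Real.log_rpow hN0] at h3
    have h4 := Real.log_two_gt_d9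
    have h5 : (0 : ℝ) ≤ N.primeFactors.card := by positivity
    nlinarith
  exact h1.trans (mul_le_mul_of_nonneg_left h2 (by positivity))

end Pool.Agent.GLI
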