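import Pool.Agent.GLI.Pnt
import Pool.Agent.GLI.DivB
import Pool.Agent.GLI.Ev

set_option autoImplicit false

/-!
Module PntCop. `lam 1_{(·,N)=1} = lam * μ² 1_{· ∣ N}` : `M_N(x) = ∑_{e ∣ N squarefree} M(x/e)`. For `e ≤ √x` use pnt:
`∑ x/e (log √x)^(-A-2) ≤ 2^(A+2) x (log x)^(-A-2) ∏_{p ∣ N} (1+1/p)` and `∏ ≤ N/φ(N) ≤ log N ≤ (log x)/δ`. For `e > √x`:
`∑_{e ∣ N, e > √x} x/e ≤ √x 2^ω(N) ≤ √x N^(δ/8) ≤ x^(3/4)`.
`pnt_cop_log`: `T(x) = ∑_{n ≤ x, (n,N)=1} lam(n)/n`. By pnt_cop for all `t ≥ x` and partial summation `T` converges with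
`|T(x) - T(∞)| ≤ (log x)^(-A)`; `T(∞) = lim_{s→1+} ∑ lam(n) n^{-s} [(n,N)=1] = lim ζ(2s)/ζ(s) ∏_{p ∣ N} (1+p^{-s}) = 0`
(Abel). Alternatively: `∑_{d ≤ x} lam_N(d) #{m ≤ x/d : (m,N)=1} = #{squares ≤ x prime to N} ≤ √x`.
-/

open Finset Filter

namespace Pool.Agent.GLI

/-! ### divisor sums of `lam` -/

theorem lam_eq_liouville {n : ℕ} (hn : n ≠ 0) : lam n = ArithmeticFunction.liouville n := by
  rw [ArithmeticFunction.liouville_apply hn]
  rfl

theorem isSquare_of_even {n : ℕ} (hn : n ≠ 0) (h : ∀ p ∈ n.primeFactors, Even (n.factorization p)) :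
    IsSquare n := by
  rw [← Nat.prod_factorization_pow_eq_self hn]
  unfold Finsupp.prod
  apply Finset.prod_induction _ (fun m => IsSquare m)
  · intro a b ha hb
    exact ha.mul hb
  · exact ⟨1, rfl⟩
  · intro p hp
    exact (h p (by simpa using hp)).isSquare_pow p

theorem lam_sum_divisors {n : ℕ} (hn : n ≠ 0) :
    (∑ d ∈ n.divisors, lam d) = 0 ∨ ((∑ d ∈ n.divisors, lam d) = 1 ∧ IsSquare n) := by
  set f : ArithmeticFunction ℤ := ArithmeticFunction.liouville * (ArithmeticFunction.zeta : ArithmeticFunction ℤ) with hf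
  have hfm : f.IsMultiplicative := ArithmeticFunction.isMultiplicative_liouville.mul
    ArithmeticFunction.isMultiplicative_zeta.natCast
  have hfa : ∀ m : ℕ, m ≠ 0 → f m = ∑ d ∈ m.divisors, lam d := by
    intro m hm
    rw [hf, ArithmeticFunction.coe_mul_zeta_apply]
    apply Finset.sum_congr rfl
    intro d hd
    rw [lam_eq_liouville (Nat.pos_of_mem_divisors hd).ne']
  have hpk : ∀ p k : ℕ, p.Prime → f (p ^ k) = if Even k then 1 else 0 := by
    intro p k hp
    rw [hfa _ (pow_ne_zero _ hp.ne_zero), Nat.sum_divisors_prime_pow hp]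
    have : ∀ i ∈ range (k + 1), lam (p ^ i) = (-1) ^ i := by
      intro i _
      unfold lam
      rw [ArithmeticFunction.cardFactors_apply_prime_pow hp]
    rw [Finset.sum_congr rfl this, neg_one_geom_sum]
    by_cases hk : Even k
    · rw [if_pos hk, if_neg]
      intro h
      rw [Nat.even_add_one] at h
      exact h hk
    · rw [if_neg hk, if_pos]
      rw [Nat.even_add_one]
      exact hk
  rw [← hfa n hn, hfm.multiplicative_factorization f hn]
  by_cases h : ∀ p ∈ n.primeFactors, Even (n.factorization p)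
  · right
    refine ⟨?_, isSquare_of_even hn h⟩
    unfold Finsupp.prod
    apply Finset.prod_eq_one
    intro p hp
    have hp' : p ∈ n.primeFactors := by simpa using hp
    beta_reduce
    rw [hpk p _ (Nat.prime_of_mem_primeFactors hp'), if_pos (h p hp')]
  · left
    push Not at h
    obtain ⟨p, hp, hpe⟩ := h
    unfold Finsupp.prod
    apply Finset.prod_eq_zero (i := p) (by simpa using hp)
    beta_reduce
    rw [hpk p _ (Nat.prime_of_mem_primeFactors hp), if_neg hpe]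

theorem card_squares (D : ℕ) : ((Ioc 0 (D * D)).filter IsSquare).card ≤ D := by
  classical
  have h : (Ioc 0 (D * D)).filter IsSquare ⊆ (Ioc 0 D).image fun k => k * k := by
    intro n hn
    rw [Finset.mem_filter, Finset.mem_Ioc] at hn
    obtain ⟨⟨h1, h2⟩, k, rfl⟩ := hn
    refine Finset.mem_image.2 ⟨k, Finset.mem_Ioc.2 ⟨?_, ?_⟩, rfl⟩
    · rcases Nat.eq_zero_or_pos k with h | h
      · subst h; simp at h1
      · exact h
    · exact Nat.mul_self_le_mul_self_iff.1 h2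
  calc _ ≤ ((Ioc 0 D).image fun k => k * k).card := Finset.card_le_card h
    _ ≤ (Ioc 0 D).card := Finset.card_image_le
    _ = D := by simp

theorem sum_sum_divisors (f : ℕ → ℝ) (X : ℕ) :
    ∑ n ∈ Ioc 0 X, ∑ d ∈ n.divisors, f d = ∑ d ∈ Ioc 0 X, f d * ((X / d : ℕ) : ℝ) := by
  classical
  have h1 : ∀ n ∈ Ioc 0 X, ∑ d ∈ n.divisors, f d = ∑ d ∈ Ioc 0 X, if d ∣ n then f d else 0 := by
    intro n hn
    rw [Finset.mem_Ioc] at hn
    rw [← Finset.sum_filter]
    apply Finset.sum_congr _ fun _ _ => rfl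
    ext d
    rw [Nat.mem_divisors, Finset.mem_filter, Finset.mem_Ioc]
    constructor
    · rintro ⟨h1, h2⟩
      exact ⟨⟨Nat.pos_of_dvd_of_pos h1 hn.1, (Nat.le_of_dvd hn.1 h1).trans hn.2⟩, h1⟩
    · rintro ⟨_, h2⟩
      exact ⟨h2, by omega⟩
  rw [Finset.sum_congr rfl h1, Finset.sum_comm]
  apply Finset.sum_congr rfl
  intro d _
  rw [← Finset.sum_filter, Finset.sum_const, Nat.Ioc_filter_dvd_card_eq_div, nsmul_eq_mul]
  ring

theorem abs_sum_sum_divisors_lam (D : ℕ) :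
    |∑ n ∈ Ioc 0 (D * D), ∑ d ∈ n.divisors, (lam d : ℝ)| ≤ D := by
  classical
  have h1 : ∀ n ∈ Ioc 0 (D * D), |∑ d ∈ n.divisors, (lam d : ℝ)| ≤ if IsSquare n then 1 else 0 := by
    intro n hn
    rw [Finset.mem_Ioc] at hn
    have e : (∑ d ∈ n.divisors, (lam d : ℝ)) = ((∑ d ∈ n.divisors, lam d : ℤ) : ℝ) := by push_cast; rfl
    rw [e]
    rcases lam_sum_divisors (n := n) (by omega) with h | ⟨h, h'⟩
    · rw [h]
      split_ifs <;> simp
    · rw [h, if_pos h']
      simp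
  refine (Finset.abs_sum_le_sum_abs _ _).trans ((Finset.sum_le_sum h1).trans ?_)
  rw [← Finset.sum_filter, Finset.sum_const, nsmul_eq_mul, mul_one]
  exact_mod_cast card_squares D

/-- the tail of the hyperbola sum -/
theorem hyp_tail (f : ℕ → ℝ) (D : ℕ) (hD : 1 ≤ D) :
    ∑ d ∈ Ioc D (D * D), f d * ((D * D / d : ℕ) : ℝ) =
      ∑ m ∈ Ioc 0 D, ∑ d ∈ Ioc D (D * D / m), f d := by
  classical
  have h1 : ∀ d ∈ Ioc D (D * D), f d * ((D * D / d : ℕ) : ℝ) =
      ∑ m ∈ Ioc 0 D, if m * d ≤ D * D then f d else 0 := by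
    intro d hd
    rw [Finset.mem_Ioc] at hd
    rw [← Finset.sum_filter, Finset.sum_const, nsmul_eq_mul, mul_comm]
    congr 2
    have : (Ioc 0 D).filter (fun m => m * d ≤ D * D) = Ioc 0 (D * D / d) := by
      ext m
      rw [Finset.mem_filter, Finset.mem_Ioc, Finset.mem_Ioc, Nat.le_div_iff_mul_le (by omega)]
      constructor
      · rintro ⟨⟨a, b⟩, c⟩
        exact ⟨a, c⟩
      · rintro ⟨a, c⟩
        refine ⟨⟨a, ?_⟩, c⟩
        by_contra hcon
        push Not at hcon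
        nlinarith [hd.1, hcon]
    rw [this]
    simp
  rw [Finset.sum_congr rfl h1, Finset.sum_comm]
  apply Finset.sum_congr rfl
  intro m hm
  rw [Finset.mem_Ioc] at hm
  rw [← Finset.sum_filter]
  apply Finset.sum_congr _ fun _ _ => rfl
  ext d
  rw [Finset.mem_filter, Finset.mem_Ioc, Finset.mem_Ioc, Nat.le_div_iff_mul_le (by omega), mul_comm d m]
  constructor
  · rintro ⟨⟨a, b⟩, c⟩
    exact ⟨a, c⟩
  · rintro ⟨a, c⟩
    refine ⟨⟨a, ?_⟩, c⟩
    exact (Nat.le_mul_of_pos_left d hm.1).trans c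


theorem Icc_one_eq (x : ℕ) : Icc 1 x = Ioc 0 x := by
  ext n
  rw [Finset.mem_Icc, Finset.mem_Ioc]
  omega

theorem sum_inv_le (D : ℕ) : ∑ m ∈ Ioc 0 D, (1 : ℝ) / m ≤ 1 + Real.log D := by
  have h := harmonic_le_one_add_log D
  rw [harmonic_eq_sum_Icc, Icc_one_eq] at h
  refine le_trans (le_of_eq ?_) h
  push_cast
  apply Finset.sum_congr rfl
  intro m _
  rw [one_div]

theorem abs_lam (n : ℕ) : |(lam n : ℝ)| = 1 := by
  rcases lam_cases n with h | h <;> rw [h] <;> norm_num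

theorem T_bound (A : ℕ) : ∃ C : ℝ, 0 < C ∧ ∀ x : ℕ, 2 ≤ x →
    |∑ n ∈ Ioc 0 x, (lam n : ℝ) / n| ≤ C / Real.log x ^ A := by
  obtain ⟨C₁, hC₁, hM⟩ := pnt (A + 1)
  refine ⟨2 * (A.factorial : ℝ) + 5 * C₁, by positivity, ?_⟩
  intro D hD
  have hD0 : (0 : ℝ) < D := by exact_mod_cast (by omega : 0 < D)
  have hD2 : (2 : ℝ) ≤ D := by exact_mod_cast hD
  have hlog2 : (1 / 2 : ℝ) ≤ Real.log D := by
    have h1 := Real.log_le_log (by norm_num) hD2
    have h2 := Real.log_two_gt_d9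
    linarith
  have hlog : 0 < Real.log D := by linarith
  have hM' : ∀ y : ℕ, D ≤ y → |∑ n ∈ Ioc 0 y, (lam n : ℝ)| ≤ C₁ * y / Real.log D ^ (A + 1) := by
    intro y hy
    have h1 := hM y (by omega)
    rw [Icc_one_eq] at h1
    refine h1.trans ?_
    apply div_le_div_of_nonneg_left (by positivity) (by positivity)
    apply pow_le_pow_left₀ hlog.le
    exact Real.log_le_log hD0 (by exact_mod_cast hy)
  set f : ℕ → ℝ := fun n => (lam n : ℝ) with hf
  have hS := abs_sum_sum_divisors_lam D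
  rw [sum_sum_divisors] at hS
  have hsplit : ∑ d ∈ Ioc 0 (D * D), f d * ((D * D / d : ℕ) : ℝ) =
      ∑ d ∈ Ioc 0 D, f d * ((D * D / d : ℕ) : ℝ) + ∑ d ∈ Ioc D (D * D), f d * ((D * D / d : ℕ) : ℝ) := by
    rw [← Finset.sum_union]
    · congr 1
      rw [Finset.Ioc_union_Ioc_eq_Ioc (by omega) (by nlinarith)]
    · rw [Finset.disjoint_left]
      intro n hn hn'
      rw [Finset.mem_Ioc] at hn hn'
      omega
  have hfirst : |∑ d ∈ Ioc 0 D, f d * ((D * D / d : ℕ) : ℝ) - (D : ℝ) ^ 2 * ∑ n ∈ Ioc 0 D, f n / n| ≤ D := by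
    rw [Finset.mul_sum, ← Finset.sum_sub_distrib]
    calc |∑ d ∈ Ioc 0 D, (f d * ((D * D / d : ℕ) : ℝ) - (D : ℝ) ^ 2 * (f d / d))|
        ≤ ∑ d ∈ Ioc 0 D, |f d * ((D * D / d : ℕ) : ℝ) - (D : ℝ) ^ 2 * (f d / d)| :=
          Finset.abs_sum_le_sum_abs _ _
      _ ≤ ∑ d ∈ Ioc 0 D, (1 : ℝ) := by
          apply Finset.sum_le_sum
          intro d hd
          rw [Finset.mem_Ioc] at hd
          have hd0 : (0 : ℝ) < d := by exact_mod_cast hd.1
          have e : f d * ((D * D / d : ℕ) : ℝ) - (D : ℝ) ^ 2 * (f d / d) =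
              f d * (((D * D / d : ℕ) : ℝ) - (D : ℝ) ^ 2 / d) := by ring
          rw [e, abs_mul, hf]
          beta_reduce
          rw [abs_lam, one_mul]
          have h1 : ((D * D / d : ℕ) : ℝ) ≤ (D : ℝ) ^ 2 / d := by
            have := @Nat.cast_div_le ℝ _ _ _ (D * D) d
            rw [sq]
            exact_mod_cast this
          have h2 : (D : ℝ) ^ 2 / d ≤ ((D * D / d : ℕ) : ℝ) + 1 := by
            have h3 : D * D < (D * D / d + 1) * d := by
              exact Nat.lt_mul_of_div_lt (Nat.lt_succ_self _) hd.1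
            rw [div_le_iff₀ hd0]
            have h4 : ((D * D : ℕ) : ℝ) < (((D * D / d + 1) * d : ℕ) : ℝ) := by exact_mod_cast h3
            push_cast at h4
            nlinarith
          rw [abs_le]
          constructor <;> linarith
      _ = D := by simp
  have hsecond : |∑ d ∈ Ioc D (D * D), f d * ((D * D / d : ℕ) : ℝ)| ≤
      C₁ * (D : ℝ) ^ 2 / Real.log D ^ (A + 1) * (2 + Real.log D) := by
    rw [hyp_tail f D (by omega)]
    have h1 : ∀ m ∈ Ioc 0 D, |∑ d ∈ Ioc D (D * D / m), f d| ≤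
        C₁ * (D : ℝ) ^ 2 / Real.log D ^ (A + 1) * (1 / m) + C₁ * D / Real.log D ^ (A + 1) := by
      intro m hm
      rw [Finset.mem_Ioc] at hm
      have hle : D ≤ D * D / m := by
        rw [Nat.le_div_iff_mul_le hm.1]
        exact Nat.mul_le_mul_left D hm.2
      have e : ∑ d ∈ Ioc D (D * D / m), f d = ∑ d ∈ Ioc 0 (D * D / m), f d - ∑ d ∈ Ioc 0 D, f d := by
        rw [eq_sub_iff_add_eq, add_comm, ← Finset.sum_union]
        · congr 1
          rw [Finset.Ioc_union_Ioc_eq_Ioc (by omega) hle]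
        · rw [Finset.disjoint_left]
          intro n hn hn'
          rw [Finset.mem_Ioc] at hn hn'
          omega
      rw [e]
      refine (abs_sub _ _).trans ?_
      apply add_le_add
      · refine (hM' _ hle).trans ?_
        have hm0 : (0 : ℝ) < m := by exact_mod_cast hm.1
        have h2 : ((D * D / m : ℕ) : ℝ) ≤ (D : ℝ) ^ 2 * (1 / m) := by
          have := @Nat.cast_div_le ℝ _ _ _ (D * D) m
          rw [sq, mul_one_div]
          exact_mod_cast this
        have h3 : C₁ * ((D * D / m : ℕ) : ℝ) ≤ C₁ * ((D : ℝ) ^ 2 * (1 / m)) :=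
          mul_le_mul_of_nonneg_left h2 hC₁.le
        calc C₁ * ((D * D / m : ℕ) : ℝ) / Real.log D ^ (A + 1)
            ≤ C₁ * ((D : ℝ) ^ 2 * (1 / m)) / Real.log D ^ (A + 1) :=
              div_le_div_of_nonneg_right h3 (by positivity)
          _ = _ := by ring
      · exact hM' D le_rfl
    refine (Finset.abs_sum_le_sum_abs _ _).trans ((Finset.sum_le_sum h1).trans ?_)
    rw [Finset.sum_add_distrib, ← Finset.mul_sum, Finset.sum_const, Nat.card_Ioc, nsmul_eq_mul]
    have h2 := sum_inv_le D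
    have h3 : 0 ≤ C₁ * (D : ℝ) ^ 2 / Real.log D ^ (A + 1) := by positivity
    have h4 := mul_le_mul_of_nonneg_left h2 h3
    have h5 : ((D - 0 : ℕ) : ℝ) * (C₁ * D / Real.log D ^ (A + 1)) =
        C₁ * (D : ℝ) ^ 2 / Real.log D ^ (A + 1) := by
      rw [Nat.sub_zero]
      ring
    rw [h5]
    linarith
  rw [hsplit] at hS
  have hmain : |(D : ℝ) ^ 2 * ∑ n ∈ Ioc 0 D, f n / n| ≤
      2 * D + C₁ * (D : ℝ) ^ 2 / Real.log D ^ (A + 1) * (2 + Real.log D) := by
    rw [abs_le] at hS hfirst hsecond ⊢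
    constructor <;> linarith [hS.1, hS.2, hfirst.1, hfirst.2, hsecond.1, hsecond.2]
  rw [abs_mul, abs_of_pos (by positivity : (0 : ℝ) < (D : ℝ) ^ 2)] at hmain
  have h6 : Real.log D ^ A ≤ A.factorial * D := by
    have h7 := Real.pow_div_factorial_le_exp (Real.log D) hlog.le A
    rw [Real.exp_log hD0, div_le_iff₀ (by exact_mod_cast A.factorial_pos)] at h7
    linarith
  have h8 : 0 < Real.log D ^ A := by positivity
  rw [le_div_iff₀ h8]
  have h9 : C₁ * (D : ℝ) ^ 2 / Real.log D ^ (A + 1) * (2 + Real.log D) * Real.log D ^ A ≤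
      5 * C₁ * (D : ℝ) ^ 2 := by
    rw [pow_succ, div_mul_eq_mul_div, div_mul_eq_mul_div, div_le_iff₀ (by positivity)]
    have h10 : (2 + Real.log D) ≤ 5 * Real.log D := by linarith
    calc C₁ * (D : ℝ) ^ 2 * (2 + Real.log D) * Real.log D ^ A
        ≤ C₁ * (D : ℝ) ^ 2 * (5 * Real.log D) * Real.log D ^ A := by gcongr
      _ = _ := by ring
  have hD2' : 0 < (D : ℝ) ^ 2 := by positivity
  refine le_of_mul_le_mul_left ?_ hD2'
  calc (D : ℝ) ^ 2 * (|∑ n ∈ Ioc 0 D, (lam n : ℝ) / n| * Real.log D ^ A)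
      = ((D : ℝ) ^ 2 * |∑ n ∈ Ioc 0 D, (lam n : ℝ) / n|) * Real.log D ^ A := by ring
    _ ≤ (2 * D + C₁ * (D : ℝ) ^ 2 / Real.log D ^ (A + 1) * (2 + Real.log D)) * Real.log D ^ A :=
        mul_le_mul_of_nonneg_right hmain h8.le
    _ = 2 * D * Real.log D ^ A + C₁ * (D : ℝ) ^ 2 / Real.log D ^ (A + 1) * (2 + Real.log D) * Real.log D ^ A := by
        ring
    _ ≤ 2 * D * (A.factorial * D) + 5 * C₁ * (D : ℝ) ^ 2 := by
        apply add_le_add _ h9
        exact mul_le_mul_of_nonneg_left h6 (by positivity)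
    _ = (D : ℝ) ^ 2 * (2 * (A.factorial : ℝ) + 5 * C₁) := by ring

/-! ### passing to the integers prime to `N` -/

theorem cop_indicator (n N : ℕ) (hn : n ≠ 0) (hN : N ≠ 0) :
    (∑ e ∈ N.divisors.filter (fun e => e ∣ n), (ArithmeticFunction.moebius e : ℝ)) =
      if n.Coprime N then 1 else 0 := by
  have h1 : N.divisors.filter (fun e => e ∣ n) = (Nat.gcd n N).divisors := by
    ext e
    rw [Finset.mem_filter, Nat.mem_divisors, Nat.mem_divisors, Nat.dvd_gcd_iff]
    have : Nat.gcd n N ≠ 0 := fun h => hn (Nat.eq_zero_of_gcd_eq_zero_left h)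
    tauto
  rw [h1]
  have h2 : (∑ e ∈ (Nat.gcd n N).divisors, (ArithmeticFunction.moebius e : ℝ)) =
      ((∑ e ∈ (Nat.gcd n N).divisors, ArithmeticFunction.moebius e : ℤ) : ℝ) := by push_cast; rfl
  rw [h2, ← ArithmeticFunction.coe_mul_zeta_apply, ArithmeticFunction.moebius_mul_coe_zeta,
    ArithmeticFunction.one_apply]
  simp only [Nat.Coprime]
  split_ifs <;> simp

theorem cop_sum (w : ℕ → ℝ) (hw : ∀ a b, a ≠ 0 → b ≠ 0 → w (a * b) = w a * w b) (N : ℕ) (hN : N ≠ 0) (x : ℕ) :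
    ∑ n ∈ (Ioc 0 x).filter (fun n => n.Coprime N), (lam n : ℝ) * w n =
      ∑ e ∈ N.divisors, (ArithmeticFunction.moebius e : ℝ) * (lam e : ℝ) *
        (w e * ∑ m ∈ Ioc 0 (x / e), (lam m : ℝ) * w m) := by
  classical
  rw [Finset.sum_filter]
  have h1 : ∀ n ∈ Ioc 0 x, (if n.Coprime N then (lam n : ℝ) * w n else 0) =
      ∑ e ∈ N.divisors, if e ∣ n then (ArithmeticFunction.moebius e : ℝ) * ((lam n : ℝ) * w n) else 0 := by
    intro n hn
    rw [Finset.mem_Ioc] at hn
    rw [← Finset.sum_filter, ← Finset.sum_mul, cop_indicator n N (by omega) hN]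
    split_ifs <;> simp
  rw [Finset.sum_congr rfl h1, Finset.sum_comm]
  apply Finset.sum_congr rfl
  intro e he
  have he0 : 0 < e := Nat.pos_of_mem_divisors he
  rw [← Finset.sum_filter, ← Finset.mul_sum]
  have h2 : (Ioc 0 x).filter (fun n => e ∣ n) = (Ioc 0 (x / e)).image (fun m => e * m) := by
    ext n
    rw [Finset.mem_filter, Finset.mem_Ioc, Finset.mem_image]
    constructor
    · rintro ⟨⟨a, b⟩, m, rfl⟩
      refine ⟨m, Finset.mem_Ioc.2 ⟨Nat.pos_of_mul_pos_left a, ?_⟩, rfl⟩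
      rw [Nat.le_div_iff_mul_le he0, mul_comm]
      exact b
    · rintro ⟨m, hm, rfl⟩
      rw [Finset.mem_Ioc, Nat.le_div_iff_mul_le he0] at hm
      refine ⟨⟨Nat.mul_pos he0 hm.1, ?_⟩, Dvd.intro m rfl⟩
      rw [mul_comm]
      exact hm.2
  rw [h2, Finset.sum_image (by
    intro a _ b _ hab
    exact Nat.eq_of_mul_eq_mul_left he0 hab)]
  rw [mul_assoc]
  congr 1
  rw [Finset.mul_sum, Finset.mul_sum]
  apply Finset.sum_congr rfl
  intro m hm
  rw [Finset.mem_Ioc] at hm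
  rw [lam_mul he0.ne' (by omega), hw e m he0.ne' (by omega)]
  push_cast
  ring

theorem card_squarefree_divisors (N : ℕ) (hN : N ≠ 0) :
    (N.divisors.filter Squarefree).card ≤ 2 ^ N.primeFactors.card := by
  classical
  rw [← Finset.card_powerset]
  apply Finset.card_le_card_of_injOn Nat.primeFactors
  · intro e he
    rw [Finset.mem_coe, Finset.mem_filter, Nat.mem_divisors] at he
    rw [Finset.mem_coe, Finset.mem_powerset]
    exact Nat.primeFactors_mono he.1.1 hN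
  · intro a ha b hb hab
    rw [Finset.mem_coe, Finset.mem_filter] at ha hb
    rw [← Nat.prod_primeFactors_of_squarefree ha.2, ← Nat.prod_primeFactors_of_squarefree hb.2, hab]

theorem sum_inv_divisors (N : ℕ) : ∑ e ∈ N.divisors, (1 : ℝ) / e ≤ 1 + Real.log N := by
  refine le_trans ?_ (sum_inv_le N)
  apply Finset.sum_le_sum_of_subset_of_nonneg
  · intro e he
    rw [Finset.mem_Ioc]
    exact ⟨Nat.pos_of_mem_divisors he, Nat.divisor_le he⟩
  · intro e _ _
    positivity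

/-- the general estimate -/
theorem cop_gen (N : ℕ) (hN : N ≠ 0) (x : ℕ) (R : ℕ → ℝ) (Y C L S : ℝ) (hY : 0 ≤ Y) (hC : 0 ≤ C) (hL : 0 < L)
    (hS : 0 ≤ S)
    (h1 : ∀ e : ℕ, 1 ≤ e → e * e ≤ x → |R e| ≤ C * Y / L * (1 / e))
    (h2 : ∀ e : ℕ, 1 ≤ e → x < e * e → |R e| ≤ S) :
    |∑ e ∈ N.divisors, (ArithmeticFunction.moebius e : ℝ) * (lam e : ℝ) * R e| ≤
      C * Y / L * (1 + Real.log N) + (2 : ℝ) ^ N.primeFactors.card * S := by
  classical
  have hterm : ∀ e ∈ N.divisors, |(ArithmeticFunction.moebius e : ℝ) * (lam e : ℝ) * R e| ≤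
      C * Y / L * (1 / e) + if Squarefree e then S else 0 := by
    intro e he
    have he0 : 1 ≤ e := Nat.pos_of_mem_divisors he
    have hpos : 0 ≤ C * Y / L * (1 / (e : ℝ)) := by positivity
    by_cases hsq : Squarefree e
    · rw [if_pos hsq, abs_mul, abs_mul, abs_lam, mul_one]
      have hmu : |(ArithmeticFunction.moebius e : ℝ)| ≤ 1 := by
        have := ArithmeticFunction.abs_moebius_le_one (n := e)
        exact_mod_cast this
      have h3 : |(ArithmeticFunction.moebius e : ℝ)| * |R e| ≤ |R e| := by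
        have := mul_le_mul_of_nonneg_right hmu (abs_nonneg (R e))
        linarith
      refine h3.trans ?_
      by_cases hx : e * e ≤ x
      · have := h1 e he0 hx
        linarith
      · have := h2 e he0 (by omega)
        linarith
    · rw [ArithmeticFunction.moebius_eq_zero_of_not_squarefree hsq, if_neg hsq]
      simpa using hpos
  refine (Finset.abs_sum_le_sum_abs _ _).trans ((Finset.sum_le_sum hterm).trans ?_)
  rw [Finset.sum_add_distrib, ← Finset.mul_sum, ← Finset.sum_filter, Finset.sum_const, nsmul_eq_mul]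
  apply add_le_add
  · exact mul_le_mul_of_nonneg_left (sum_inv_divisors N) (by positivity)
  · apply mul_le_mul_of_nonneg_right _ hS
    exact_mod_cast card_squarefree_divisors N hN


theorem div_facts (x e : ℕ) (he : 1 ≤ e) (hx : 16 ≤ x) (hee : e * e ≤ x) :
    2 ≤ x / e ∧ Real.log x / 4 ≤ Real.log ((x / e : ℕ) : ℝ) := by
  set y := x / e with hy
  have h1 : e ≤ y := by
    rw [hy, Nat.le_div_iff_mul_le he]
    exact hee
  have h2 : x < (y + 1) * e := Nat.lt_mul_of_div_lt (Nat.lt_succ_self _) he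
  have h3 : x < (y + 1) * (y + 1) := by nlinarith
  have h4 : 4 ≤ y := by
    by_contra h
    push Not at h
    have : (y + 1) * (y + 1) ≤ 4 * 4 := Nat.mul_le_mul (by omega) (by omega)
    omega
  refine ⟨by omega, ?_⟩
  have h5 : x ≤ y ^ 4 := by
    have h6 : y + 1 ≤ y * y := by nlinarith
    calc x ≤ (y + 1) * (y + 1) := h3.le
      _ ≤ (y * y) * (y * y) := Nat.mul_le_mul h6 h6
      _ = y ^ 4 := by ring
  have h6 : Real.log x ≤ 4 * Real.log y := by
    have h7 : (x : ℝ) ≤ (y : ℝ) ^ 4 := by exact_mod_cast h5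
    have h8 := Real.log_le_log (by exact_mod_cast (by omega : 0 < x)) h7
    rw [Real.log_pow] at h8
    exact_mod_cast h8
  linarith

theorem cop_num (A : ℕ) (δ : ℝ) (hδ : 0 < δ) (C : ℝ) (hC : 0 ≤ C) : ∀ᶠ N : ℕ in atTop, ∀ x : ℕ,
    (N : ℝ) ^ δ ≤ x → N ≠ 0 ∧ 16 ≤ x ∧ 1 ≤ Real.log x ∧
      C / Real.log x ^ (A + 2) * (1 + Real.log N) +
        (2 : ℝ) ^ N.primeFactors.card * ((1 + Real.log x) / Real.sqrt x) ≤ 1 / Real.log x ^ A := by
  have h1 := (Real.tendsto_log_atTop.eventually_ge_atTop (max 1 (2 * (C * (1 + 1 / δ))))).and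
    ((ev_real (3 / 8) (by norm_num) (A + 1) 4).and (eventually_ge_atTop (16 : ℝ)))
  obtain ⟨Y0, hY0⟩ := eventually_atTop.1 h1
  have h2 : Tendsto (fun N : ℕ => (N : ℝ) ^ δ) atTop atTop :=
    (tendsto_rpow_atTop hδ).comp tendsto_natCast_atTop_atTop
  filter_upwards [h2.eventually_ge_atTop Y0, omega_small (δ / 8) (by positivity), eventually_ge_atTop 1] with
    N hN hom hN1 x hx
  obtain ⟨e1, e2, e3⟩ := hY0 x (hN.trans hx)
  have hN0 : (0 : ℝ) < N := by exact_mod_cast hN1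
  have hx16 : 16 ≤ x := by exact_mod_cast e3
  have hx0 : (0 : ℝ) < x := by linarith
  have hl1 : 1 ≤ Real.log x := (le_max_left _ _).trans e1
  have hl2 : 2 * (C * (1 + 1 / δ)) ≤ Real.log x := (le_max_right _ _).trans e1
  have hl0 : 0 < Real.log x := by linarith
  refine ⟨by omega, hx16, hl1, ?_⟩
  have hlogN : Real.log N ≤ 1 / δ * Real.log x := by
    have := Real.log_le_log (Real.rpow_pos_of_pos hN0 δ) hx
    rw [Real.log_rpow hN0] at this
    rw [one_div, inv_mul_eq_div, le_div_iff₀ hδ]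
    linarith
  have f1 : C / Real.log x ^ (A + 2) * (1 + Real.log N) ≤ 1 / 2 / Real.log x ^ A := by
    have g1 : 1 + Real.log N ≤ (1 + 1 / δ) * Real.log x := by nlinarith
    have g2 : C / Real.log x ^ (A + 2) * (1 + Real.log N) ≤
        C / Real.log x ^ (A + 2) * ((1 + 1 / δ) * Real.log x) :=
      mul_le_mul_of_nonneg_left g1 (by positivity)
    refine g2.trans ?_
    rw [div_mul_eq_mul_div, div_le_div_iff₀ (by positivity) (by positivity)]
    have g3 : C * ((1 + 1 / δ) * Real.log x) * Real.log x ^ A ≤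
        1 / 2 * Real.log x * Real.log x * Real.log x ^ A := by
      apply mul_le_mul_of_nonneg_right _ (by positivity)
      nlinarith
    refine g3.trans (le_of_eq ?_)
    rw [pow_add]
    ring
  have f2 : (2 : ℝ) ^ N.primeFactors.card * ((1 + Real.log x) / Real.sqrt x) ≤ 1 / 2 / Real.log x ^ A := by
    have g1 : (2 : ℝ) ^ N.primeFactors.card ≤ (x : ℝ) ^ (1 / 8 : ℝ) := by
      refine hom.trans ?_
      have : (N : ℝ) ^ (δ / 8) = ((N : ℝ) ^ δ) ^ (1 / 8 : ℝ) := by
        rw [← Real.rpow_mul hN0.le]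
        congr 1
        ring
      rw [this]
      exact Real.rpow_le_rpow (by positivity) hx (by norm_num)
    have g2 : (1 + Real.log x) / Real.sqrt x ≤ 2 * Real.log x / Real.sqrt x :=
      div_le_div_of_nonneg_right (by linarith) (Real.sqrt_nonneg _)
    have g3 : (2 : ℝ) ^ N.primeFactors.card * ((1 + Real.log x) / Real.sqrt x) ≤
        (x : ℝ) ^ (1 / 8 : ℝ) * (2 * Real.log x / Real.sqrt x) :=
      mul_le_mul g1 g2 (by positivity) (by positivity)
    refine g3.trans ?_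
    have hsq : Real.sqrt x = (x : ℝ) ^ (1 / 8 : ℝ) * (x : ℝ) ^ (3 / 8 : ℝ) := by
      rw [← Real.rpow_add hx0, Real.sqrt_eq_rpow]
      norm_num
    rw [hsq, mul_div_assoc']
    rw [mul_div_mul_left _ _ (by positivity)]
    rw [div_div, div_le_div_iff₀ (by positivity) (by positivity)]
    have : 2 * Real.log x * (2 * Real.log x ^ A) = 4 * Real.log x ^ (A + 1) := by
      rw [pow_succ]
      ring
    rw [this]
    linarith
  calc _ ≤ 1 / 2 / Real.log x ^ A + 1 / 2 / Real.log x ^ A := add_le_add f1 f2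
    _ = 1 / Real.log x ^ A := by ring

theorem pnt_cop (A : ℕ) (δ : ℝ) (hδ : 0 < δ) : ∀ᶠ N : ℕ in atTop, ∀ x : ℕ, (N : ℝ) ^ δ ≤ x →
    |∑ n ∈ (Icc 1 x).filter (fun n => n.Coprime N), (lam n : ℝ)| ≤ x / Real.log x ^ A := by
  obtain ⟨C₁, hC₁, hM⟩ := pnt (A + 2)
  filter_upwards [cop_num A δ hδ (C₁ * 4 ^ (A + 2)) (by positivity)] with N hN x hx
  obtain ⟨hN0, hx16, hl1, hnum⟩ := hN x hx
  have hx0 : (0 : ℝ) < x := by
    have : (16 : ℝ) ≤ x := by exact_mod_cast hx16
    linarith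
  have hl0 : 0 < Real.log x := by linarith
  have hid := cop_sum (fun _ => 1) (by intros; norm_num) N hN0 x
  simp only [mul_one, one_mul] at hid
  rw [Icc_one_eq, hid]
  have hS : 0 ≤ (x : ℝ) * ((1 + Real.log x) / Real.sqrt x) := by positivity
  have := cop_gen N hN0 x (fun e => ∑ m ∈ Ioc 0 (x / e), (lam m : ℝ)) x (C₁ * 4 ^ (A + 2))
    (Real.log x ^ (A + 2)) ((x : ℝ) * ((1 + Real.log x) / Real.sqrt x)) hx0.le (by positivity)
    (by positivity) hS ?_ ?_
  · refine this.trans ?_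
    calc _ = x * (C₁ * 4 ^ (A + 2) / Real.log x ^ (A + 2) * (1 + Real.log N) +
        (2 : ℝ) ^ N.primeFactors.card * ((1 + Real.log x) / Real.sqrt x)) := by ring
      _ ≤ x * (1 / Real.log x ^ A) := mul_le_mul_of_nonneg_left hnum hx0.le
      _ = x / Real.log x ^ A := by ring
  · intro e he hee
    obtain ⟨h2, h3⟩ := div_facts x e he hx16 hee
    have h4 := hM _ h2
    rw [Icc_one_eq] at h4
    refine h4.trans ?_
    have he0 : (0 : ℝ) < e := by exact_mod_cast he
    have h5 : ((x / e : ℕ) : ℝ) ≤ x * (1 / e) := by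
      have := @Nat.cast_div_le ℝ _ _ _ x e
      rw [mul_one_div]
      exact this
    have h6 : (Real.log x / 4) ^ (A + 2) ≤ Real.log ((x / e : ℕ) : ℝ) ^ (A + 2) :=
      pow_le_pow_left₀ (by positivity) h3 _
    calc C₁ * ((x / e : ℕ) : ℝ) / Real.log ((x / e : ℕ) : ℝ) ^ (A + 2)
        ≤ C₁ * (x * (1 / e)) / (Real.log x / 4) ^ (A + 2) :=
          div_le_div₀ (by positivity) (mul_le_mul_of_nonneg_left h5 hC₁.le) (by positivity) h6
      _ = _ := by
          rw [div_pow]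
          field_simp
  · intro e he hee
    have he0 : (0 : ℝ) < e := by exact_mod_cast he
    have h1 : |∑ m ∈ Ioc 0 (x / e), (lam m : ℝ)| ≤ ((x / e : ℕ) : ℝ) := by
      refine (Finset.abs_sum_le_sum_abs _ _).trans ?_
      rw [Finset.sum_congr rfl fun m _ => abs_lam m]
      simp
    have h5 : ((x / e : ℕ) : ℝ) ≤ x / e := @Nat.cast_div_le ℝ _ _ _ x e
    have h6 : Real.sqrt x ≤ e := by
      rw [Real.sqrt_le_left he0.le, sq]
      exact_mod_cast hee.le
    have h7 : (x : ℝ) / e ≤ x / Real.sqrt x :=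
      div_le_div_of_nonneg_left hx0.le (Real.sqrt_pos.2 hx0) h6
    have h8 : (x : ℝ) / Real.sqrt x ≤ (x : ℝ) * ((1 + Real.log x) / Real.sqrt x) := by
      rw [mul_div_assoc']
      apply div_le_div_of_nonneg_right _ (Real.sqrt_nonneg _)
      nlinarith
    linarith

theorem pnt_cop_log (A : ℕ) (δ : ℝ) (hδ : 0 < δ) : ∀ᶠ N : ℕ in atTop, ∀ x : ℕ,
    (N : ℝ) ^ δ ≤ x →
    |∑ n ∈ (Icc 1 x).filter (fun n => n.Coprime N), (lam n : ℝ) / n| ≤ 1 / Real.log x ^ A := by
  obtain ⟨C₁, hC₁, hM⟩ := T_bound (A + 2)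
  filter_upwards [cop_num A δ hδ (C₁ * 4 ^ (A + 2)) (by positivity)] with N hN x hx
  obtain ⟨hN0, hx16, hl1, hnum⟩ := hN x hx
  have hx0 : (0 : ℝ) < x := by
    have : (16 : ℝ) ≤ x := by exact_mod_cast hx16
    linarith
  have hl0 : 0 < Real.log x := by linarith
  have hid := cop_sum (fun n => (n : ℝ)⁻¹) (by intro a b _ _; push_cast; rw [mul_inv]) N hN0 x
  simp only [← div_eq_mul_inv] at hid
  rw [Icc_one_eq, hid]
  have hS : 0 ≤ (1 + Real.log x) / Real.sqrt x := by positivity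
  have := cop_gen N hN0 x (fun e => (e : ℝ)⁻¹ * ∑ m ∈ Ioc 0 (x / e), (lam m : ℝ) / m) 1 (C₁ * 4 ^ (A + 2))
    (Real.log x ^ (A + 2)) ((1 + Real.log x) / Real.sqrt x) zero_le_one (by positivity)
    (by positivity) hS ?_ ?_
  · refine this.trans ?_
    rw [mul_one]
    exact hnum
  · intro e he hee
    obtain ⟨h2, h3⟩ := div_facts x e he hx16 hee
    have h4 := hM _ h2
    have he0 : (0 : ℝ) < e := by exact_mod_cast he
    have h6 : (Real.log x / 4) ^ (A + 2) ≤ Real.log ((x / e : ℕ) : ℝ) ^ (A + 2) :=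
      pow_le_pow_left₀ (by positivity) h3 _
    rw [abs_mul, abs_of_pos (inv_pos.2 he0)]
    calc (e : ℝ)⁻¹ * |∑ m ∈ Ioc 0 (x / e), (lam m : ℝ) / m|
        ≤ (e : ℝ)⁻¹ * (C₁ / Real.log ((x / e : ℕ) : ℝ) ^ (A + 2)) :=
          mul_le_mul_of_nonneg_left h4 (by positivity)
      _ ≤ (e : ℝ)⁻¹ * (C₁ / (Real.log x / 4) ^ (A + 2)) := by
          apply mul_le_mul_of_nonneg_left _ (by positivity)
          exact div_le_div_of_nonneg_left hC₁.le (by positivity) h6
      _ = _ := by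
          rw [div_pow]
          field_simp
  · intro e he hee
    have he0 : (0 : ℝ) < e := by exact_mod_cast he
    have h1 : |∑ m ∈ Ioc 0 (x / e), (lam m : ℝ) / m| ≤ 1 + Real.log x := by
      refine (Finset.abs_sum_le_sum_abs _ _).trans ?_
      have h2 : ∀ m ∈ Ioc 0 (x / e), |(lam m : ℝ) / m| = 1 / m := by
        intro m _
        rw [abs_div, abs_lam, Nat.abs_cast]
      rw [Finset.sum_congr rfl h2]
      refine (sum_inv_le _).trans ?_
      have h3 : Real.log ((x / e : ℕ) : ℝ) ≤ Real.log x := by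
        rcases Nat.eq_zero_or_pos (x / e) with h | h
        · rw [h]
          simpa using hl0.le
        · apply Real.log_le_log (by exact_mod_cast h)
          exact_mod_cast Nat.div_le_self x e
      linarith
    have h6 : Real.sqrt x ≤ e := by
      rw [Real.sqrt_le_left he0.le, sq]
      exact_mod_cast hee.le
    rw [abs_mul, abs_of_pos (inv_pos.2 he0), div_eq_inv_mul]
    apply mul_le_mul _ h1 (abs_nonneg _) (by positivity)
    exact inv_anti₀ (Real.sqrt_pos.2 hx0) h6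

end Pool.Agent.GLI
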