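import Pool.Agent.GLI.Hp
import Pool.Agent.GLI.PntCop

set_option autoImplicit false

/-!
Module Balance: `|∑_{a<N} lam a| ≤ Sp χ N * N / (log N)^A + N^0.999`.
-/

open Finset Filter

namespace Pool.Agent.GLI

/-- `M_N(y)`. -/
noncomputable def balM (N y : ℕ) : ℝ :=
  ∑ n ∈ (Icc 1 y).filter (fun n => n.Coprime N), (lam n : ℝ)

/-- `T_N(y)`. -/
noncomputable def balT (N y : ℕ) : ℝ :=
  ∑ n ∈ (Icc 1 y).filter (fun n => n.Coprime N), (lam n : ℝ) / n

/-- `H(t)`. -/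
noncomputable def balH {N : ℕ} (χ : DirichletCharacter ℂ N) (t : ℕ) : ℝ :=
  ∑ n ∈ Icc 1 t, hp χ n

theorem bal_dirichlet (f : ℕ → ℕ → ℝ) (y : ℕ) :
    ∑ n ∈ Icc 1 y, ∑ e ∈ n.divisors, f e (n / e) =
      ∑ e ∈ Icc 1 y, ∑ m ∈ Icc 1 (y / e), f e m := by
  rw [Finset.sum_sigma', Finset.sum_sigma']
  refine Finset.sum_bij' (fun x _ => (⟨x.2, x.1 / x.2⟩ : (_ : ℕ) × ℕ))
    (fun x _ => (⟨x.1 * x.2, x.1⟩ : (_ : ℕ) × ℕ)) ?_ ?_ ?_ ?_ ?_
  · rintro ⟨n, e⟩ h
    simp only [mem_sigma, mem_Icc, Nat.mem_divisors] at h ⊢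
    obtain ⟨⟨h1, h2⟩, h3, h4⟩ := h
    have he : 0 < e := Nat.pos_of_dvd_of_pos h3 h1
    have hen : e ≤ n := Nat.le_of_dvd h1 h3
    refine ⟨⟨he, hen.trans h2⟩, Nat.div_pos hen he, Nat.div_le_div_right h2⟩
  · rintro ⟨e, m⟩ h
    simp only [mem_sigma, mem_Icc, Nat.mem_divisors] at h ⊢
    obtain ⟨⟨h1, h2⟩, h3, h4⟩ := h
    have h5 : m * e ≤ y := (Nat.le_div_iff_mul_le h1).1 h4
    refine ⟨⟨Nat.mul_pos h1 h3, by rw [mul_comm]; exact h5⟩, Dvd.intro _ rfl, ?_⟩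
    exact (Nat.mul_pos h1 h3).ne'
  · rintro ⟨n, e⟩ h
    simp only [mem_sigma, mem_Icc, Nat.mem_divisors] at h ⊢
    obtain ⟨⟨h1, h2⟩, h3, h4⟩ := h
    rw [Nat.mul_div_cancel' h3]
  · rintro ⟨e, m⟩ h
    simp only [mem_sigma, mem_Icc] at h ⊢
    obtain ⟨⟨h1, h2⟩, h3, h4⟩ := h
    rw [Nat.mul_div_cancel_left m h1]
  · rintro ⟨n, e⟩ h
    rfl

theorem bal_conv {N : ℕ} [NeZero N] (χ : DirichletCharacter ℂ N) (h : RealChar χ) (y : ℕ) :
    ∑ n ∈ Icc 1 y, (χ (n : ZMod N)).re = ∑ e ∈ Icc 1 y, hp χ e * balM N (y / e) := by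
  classical
  obtain ⟨f, hf⟩ : ∃ f : ℕ → ℕ → ℝ, f = fun e m : ℕ =>
    if m.Coprime N then hp χ e * (lam m : ℝ) else 0 := ⟨_, rfl⟩
  have h1 : ∑ n ∈ Icc 1 y, (χ (n : ZMod N)).re = ∑ n ∈ Icc 1 y, ∑ e ∈ n.divisors, f e (n / e) := by
    apply Finset.sum_congr rfl
    intro n hn
    rw [hp_conv χ h n (mem_Icc.1 hn).1]
    apply Finset.sum_congr rfl
    intro e _
    rw [hf]
  rw [h1, bal_dirichlet f y]
  apply Finset.sum_congr rfl
  intro e _
  rw [hf]
  unfold balM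
  rw [Finset.mul_sum, Finset.sum_filter]

theorem bal_swap {N : ℕ} (χ : DirichletCharacter ℂ N) (y E : ℕ) :
    ∑ e ∈ Ioc E y, hp χ e * balM N (y / e) =
      ∑ n ∈ (Icc 1 (y / (E + 1))).filter (fun n => n.Coprime N),
        (lam n : ℝ) * (balH χ (y / n) - balH χ E) := by
  have h1 : ∀ n ∈ (Icc 1 (y / (E + 1))).filter (fun n => n.Coprime N),
      (lam n : ℝ) * (balH χ (y / n) - balH χ E) = ∑ e ∈ Ioc E (y / n), (lam n : ℝ) * hp χ e := by
    intro n hn
    rw [mem_filter, mem_Icc] at hn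
    obtain ⟨⟨h1, h2⟩, h3⟩ := hn
    have h4 : n * (E + 1) ≤ y := (Nat.le_div_iff_mul_le (Nat.succ_pos E)).1 h2
    have h5 : E + 1 ≤ y / n := by
      rw [Nat.le_div_iff_mul_le h1, mul_comm]
      exact h4
    rw [← Finset.mul_sum]
    congr 1
    unfold balH
    have h6 : Icc 1 (y / n) = Icc 1 E ∪ Ioc E (y / n) := by
      ext x
      simp only [mem_Icc, mem_union, mem_Ioc]
      omega
    rw [h6, Finset.sum_union]
    · ring
    · rw [Finset.disjoint_left]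
      intro x hx hx'
      simp only [mem_Icc, mem_Ioc] at hx hx'
      omega
  rw [Finset.sum_congr rfl h1]
  have h2 : ∀ e ∈ Ioc E y, hp χ e * balM N (y / e) =
      ∑ n ∈ (Icc 1 (y / e)).filter (fun n => n.Coprime N), (lam n : ℝ) * hp χ e := by
    intro e _
    unfold balM
    rw [Finset.mul_sum]
    apply Finset.sum_congr rfl
    intro n _
    ring
  rw [Finset.sum_congr rfl h2]
  apply Finset.sum_comm'
  intro e n
  simp only [mem_Ioc, mem_filter, mem_Icc]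
  constructor
  · rintro ⟨⟨h3, h4⟩, ⟨h5, h6⟩, h7⟩
    have he : 0 < e := by omega
    have h8 : n * e ≤ y := (Nat.le_div_iff_mul_le he).1 h6
    refine ⟨⟨h3, ?_⟩, ⟨h5, ?_⟩, h7⟩
    · rw [Nat.le_div_iff_mul_le h5, mul_comm]
      exact h8
    · rw [Nat.le_div_iff_mul_le (Nat.succ_pos E)]
      exact (Nat.mul_le_mul_left n h3).trans h8
  · rintro ⟨⟨h3, h4⟩, ⟨h5, h6⟩, h7⟩
    have he : 0 < e := by omega
    have h8 : e * n ≤ y := (Nat.le_div_iff_mul_le h5).1 h4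
    refine ⟨⟨h3, ?_⟩, ⟨h5, ?_⟩, h7⟩
    · exact (Nat.le_mul_of_pos_right e h5).trans h8
    · rw [Nat.le_div_iff_mul_le he, mul_comm]
      exact h8

theorem hp_nonneg' {N : ℕ} (χ : DirichletCharacter ℂ N) (n : ℕ) : 0 ≤ hp χ n := by
  unfold hp
  split_ifs
  · positivity
  · exact le_rfl

theorem hp_one' {N : ℕ} (χ : DirichletCharacter ℂ N) : hp χ 1 = 1 := by
  unfold hp
  rw [if_pos]
  · simp
  · refine ⟨one_ne_zero, ?_⟩
    intro p hp1 hp2
    exact absurd (Nat.dvd_one.1 hp2) hp1.ne_one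

theorem abs_lam_cast (n : ℕ) : |(lam n : ℝ)| = 1 := by
  rcases lam_cases n with h | h <;> rw [h] <;> norm_num

theorem bal_core {N : ℕ} [NeZero N] (χ : DirichletCharacter ℂ N) (hχ : RealChar χ)
    (y E K0 : ℕ) (Λ b R X0 s : ℝ) (hb : 0 ≤ b) (hΛ : 0 ≤ Λ) (hE : 1 ≤ E) (hyN : y ≤ N)
    (hK1 : 1 ≤ K0) (hK : K0 ≤ y / (E + 1))
    (hX : |∑ n ∈ Icc 1 y, (χ (n : ZMod N)).re| ≤ X0)
    (hM : ∀ m : ℕ, K0 ≤ m → |balM N m| ≤ b * m)
    (hT : ∀ m : ℕ, K0 ≤ m → |balT N m| ≤ b)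
    (hs : ∑ e ∈ Icc 2 E, hp χ e / e ≤ s)
    (hH : ∀ t : ℕ, 1 ≤ t → t ≤ N → |balH χ t - Λ * t| ≤ R) :
    |balM N y| ≤ X0 + s * b * y + 2 * Λ * b * y + (y / (E + 1) : ℕ) * (Λ + 2 * R) := by
  classical
  have hZ1 : 1 ≤ y / (E + 1) := hK1.trans hK
  have hEy : E + 1 ≤ y := by
    have := (Nat.le_div_iff_mul_le (Nat.succ_pos E)).1 hZ1
    omega
  have hy1 : 1 ≤ y := by omega
  have hR0 : 0 ≤ R := (abs_nonneg _).trans (hH 1 le_rfl (hy1.trans hyN))
  have h1 := bal_conv χ hχ y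
  have h2 : Icc 1 y = insert 1 (Icc 2 E ∪ Ioc E y) := by
    ext x
    simp only [mem_Icc, mem_insert, mem_union, mem_Ioc]
    omega
  have h3 : ∑ e ∈ Icc 1 y, hp χ e * balM N (y / e) = balM N y +
      (∑ e ∈ Icc 2 E, hp χ e * balM N (y / e) + ∑ e ∈ Ioc E y, hp χ e * balM N (y / e)) := by
    rw [h2, Finset.sum_insert, Finset.sum_union, hp_one', Nat.div_one, one_mul]
    · rw [Finset.disjoint_left]
      intro x hx hx'
      simp only [mem_Icc, mem_Ioc] at hx hx'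
      omega
    · simp only [mem_union, mem_Icc, mem_Ioc]
      omega
  rw [h3] at h1
  -- first range
  have h4 : |∑ e ∈ Icc 2 E, hp χ e * balM N (y / e)| ≤ s * b * y := by
    refine (Finset.abs_sum_le_sum_abs _ _).trans ?_
    have h5 : ∀ e ∈ Icc 2 E, |hp χ e * balM N (y / e)| ≤ b * y * (hp χ e / e) := by
      intro e he
      rw [mem_Icc] at he
      have he0 : (0 : ℝ) < e := by
        have : 0 < e := by omega
        exact_mod_cast this
      rw [abs_mul, abs_of_nonneg (hp_nonneg' χ e)]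
      have h6 : K0 ≤ y / e := hK.trans (Nat.div_le_div_left (by omega) (by omega))
      have h7 := hM _ h6
      have h8 : ((y / e : ℕ) : ℝ) ≤ (y : ℝ) / e := Nat.cast_div_le
      have h9 : |balM N (y / e)| ≤ b * ((y : ℝ) / e) :=
        h7.trans (mul_le_mul_of_nonneg_left h8 hb)
      calc hp χ e * |balM N (y / e)| ≤ hp χ e * (b * ((y : ℝ) / e)) :=
            mul_le_mul_of_nonneg_left h9 (hp_nonneg' χ e)
        _ = b * y * (hp χ e / e) := by ring
    refine (Finset.sum_le_sum h5).trans ?_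
    rw [← Finset.mul_sum]
    have h10 : 0 ≤ b * y := by positivity
    calc b * y * ∑ e ∈ Icc 2 E, hp χ e / e ≤ b * y * s := mul_le_mul_of_nonneg_left hs h10
      _ = s * b * y := by ring
  -- second range
  have h5 : |∑ e ∈ Ioc E y, hp χ e * balM N (y / e)| ≤
      2 * Λ * b * y + (y / (E + 1) : ℕ) * (Λ + 2 * R) := by
    rw [bal_swap]
    set Z := y / (E + 1) with hZ
    set S := (Icc 1 Z).filter (fun n => n.Coprime N) with hS
    have h6 : ∑ n ∈ S, (lam n : ℝ) * (balH χ (y / n) - balH χ E) =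
        Λ * y * balT N Z - Λ * E * balM N Z +
        ∑ n ∈ S, (lam n : ℝ) * ((balH χ (y / n) - Λ * (y / n : ℝ)) - (balH χ E - Λ * E)) := by
      unfold balT balM
      rw [← hS, Finset.mul_sum, Finset.mul_sum, ← Finset.sum_sub_distrib, ← Finset.sum_add_distrib]
      apply Finset.sum_congr rfl
      intro n _
      ring
    rw [h6]
    have h7 : |Λ * y * balT N Z| ≤ Λ * b * y := by
      rw [abs_mul, abs_of_nonneg (by positivity)]
      calc Λ * y * |balT N Z| ≤ Λ * y * b := mul_le_mul_of_nonneg_left (hT Z hK) (by positivity)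
        _ = Λ * b * y := by ring
    have h8 : |Λ * E * balM N Z| ≤ Λ * b * y := by
      rw [abs_mul, abs_of_nonneg (by positivity)]
      have h9 : (E : ℝ) * Z ≤ y := by
        have h10 : Z * (E + 1) ≤ y := Nat.div_mul_le_self y (E + 1)
        have h11 : E * Z ≤ y := by nlinarith
        exact_mod_cast h11
      calc Λ * E * |balM N Z| ≤ Λ * E * (b * Z) :=
            mul_le_mul_of_nonneg_left (hM Z hK) (by positivity)
        _ = Λ * b * (E * Z) := by ring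
        _ ≤ Λ * b * y := mul_le_mul_of_nonneg_left h9 (by positivity)
    have h9 : |∑ n ∈ S, (lam n : ℝ) * ((balH χ (y / n) - Λ * (y / n : ℝ)) - (balH χ E - Λ * E))| ≤
        Z * (Λ + 2 * R) := by
      refine (Finset.abs_sum_le_sum_abs _ _).trans ?_
      have h10 : ∀ n ∈ S, |(lam n : ℝ) * ((balH χ (y / n) - Λ * (y / n : ℝ)) -
          (balH χ E - Λ * E))| ≤ Λ + 2 * R := by
        intro n hn
        rw [hS, mem_filter, mem_Icc] at hn
        obtain ⟨⟨hn1, hn2⟩, hn3⟩ := hn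
        rw [abs_mul, abs_lam_cast, one_mul]
        have hn0 : (0 : ℝ) < n := by exact_mod_cast hn1
        have h11 : 1 ≤ y / n := by
          have h12 : n * (E + 1) ≤ y := (Nat.le_div_iff_mul_le (Nat.succ_pos E)).1 hn2
          rw [Nat.le_div_iff_mul_le hn1]
          nlinarith
        have h13 := hH (y / n) h11 ((Nat.div_le_self _ _).trans hyN)
        have h14 := hH E hE (by omega)
        have h15 : ((y / n : ℕ) : ℝ) ≤ (y : ℝ) / n := Nat.cast_div_le
        have h16 : (y : ℝ) / n ≤ ((y / n : ℕ) : ℝ) + 1 := by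
          rw [div_le_iff₀ hn0]
          have h17 : y < (y / n + 1) * n := by
            have := Nat.lt_div_mul_add (a := y) hn1
            nlinarith
          have h18 : y ≤ (y / n + 1) * n := h17.le
          exact_mod_cast h18
        have h19 : |balH χ (y / n) - Λ * (y / n : ℝ)| ≤ Λ + R := by
          rw [abs_le] at h13 ⊢
          constructor <;> nlinarith
        calc |(balH χ (y / n) - Λ * (y / n : ℝ)) - (balH χ E - Λ * E)|
            ≤ |balH χ (y / n) - Λ * (y / n : ℝ)| + |balH χ E - Λ * E| := abs_sub _ _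
          _ ≤ (Λ + R) + R := add_le_add h19 h14
          _ = Λ + 2 * R := by ring
      refine (Finset.sum_le_sum h10).trans ?_
      rw [Finset.sum_const, nsmul_eq_mul]
      have h12 : (S.card : ℝ) ≤ Z := by
        have h13 : S.card ≤ (Icc 1 Z).card := Finset.card_filter_le _ _
        rw [Nat.card_Icc] at h13
        have h14 : S.card ≤ Z := by omega
        exact_mod_cast h14
      exact mul_le_mul_of_nonneg_right h12 (by positivity)
    calc |Λ * y * balT N Z - Λ * E * balM N Z +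
          ∑ n ∈ S, (lam n : ℝ) * ((balH χ (y / n) - Λ * (y / n : ℝ)) - (balH χ E - Λ * E))|
        ≤ |Λ * y * balT N Z - Λ * E * balM N Z| +
          |∑ n ∈ S, (lam n : ℝ) * ((balH χ (y / n) - Λ * (y / n : ℝ)) - (balH χ E - Λ * E))| :=
          abs_add_le _ _
      _ ≤ (|Λ * y * balT N Z| + |Λ * E * balM N Z|) + Z * (Λ + 2 * R) :=
          add_le_add (abs_sub _ _) h9
      _ ≤ (Λ * b * y + Λ * b * y) + Z * (Λ + 2 * R) := by linarith
      _ = 2 * Λ * b * y + Z * (Λ + 2 * R) := by ring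
  have h6 : balM N y = ∑ n ∈ Icc 1 y, (χ (n : ZMod N)).re -
      ∑ e ∈ Icc 2 E, hp χ e * balM N (y / e) - ∑ e ∈ Ioc E y, hp χ e * balM N (y / e) := by
    linarith
  rw [h6]
  calc _ ≤ |∑ n ∈ Icc 1 y, (χ (n : ZMod N)).re - ∑ e ∈ Icc 2 E, hp χ e * balM N (y / e)| +
        |∑ e ∈ Ioc E y, hp χ e * balM N (y / e)| := abs_sub _ _
    _ ≤ (|∑ n ∈ Icc 1 y, (χ (n : ZMod N)).re| + |∑ e ∈ Icc 2 E, hp χ e * balM N (y / e)|) +
        |∑ e ∈ Ioc E y, hp χ e * balM N (y / e)| := by gcongr; exact abs_sub _ _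
    _ ≤ X0 + s * b * y + 2 * Λ * b * y + (y / (E + 1) : ℕ) * (Λ + 2 * R) := by linarith

/-- All primes dividing `u` divide `N`. -/
def BFac (N u : ℕ) : Prop := ∀ p : ℕ, p.Prime → p ∣ u → p ∣ N

theorem bfac_exists (N a : ℕ) (ha : 1 ≤ a) : ∃ u m : ℕ, a = u * m ∧ BFac N u ∧ m.Coprime N := by
  induction a using Nat.strong_induction_on with
  | _ a ih =>
    by_cases hc : a.Coprime N
    · refine ⟨1, a, (one_mul a).symm, ?_, hc⟩
      intro p hp h1
      exact absurd (Nat.dvd_one.1 h1) hp.ne_one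
    · obtain ⟨p, hp, h1, h2⟩ := Nat.Prime.not_coprime_iff_dvd.1 hc
      obtain ⟨b, rfl⟩ := h1
      have hb : 1 ≤ b := by
        rcases Nat.eq_zero_or_pos b with h | h
        · subst h
          omega
        · exact h
      have hlt : b < p * b := by
        have := hp.two_le
        nlinarith
      obtain ⟨u, m, h3, h4, h5⟩ := ih b hlt hb
      refine ⟨p * u, m, by rw [h3]; ring, ?_, h5⟩
      intro r hr h6
      rcases (Nat.Prime.dvd_mul hr).1 h6 with h7 | h7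
      · have : r = p := (Nat.prime_dvd_prime_iff_eq hr hp).1 h7
        rw [this]
        exact h2
      · exact h4 r hr h7

theorem bfac_coprime {N u m : ℕ} (hu : BFac N u) (hm : m.Coprime N) : u.Coprime m := by
  apply Nat.coprime_of_dvd
  intro p hp h1 h2
  have h3 : p ∣ Nat.gcd m N := Nat.dvd_gcd h2 (hu p hp h1)
  rw [hm] at h3
  exact absurd (Nat.dvd_one.1 h3) hp.ne_one

open Classical in
theorem bal_split (N K : ℕ) :
    ∑ a ∈ Icc 1 K, (lam a : ℝ) =
      ∑ u ∈ (Icc 1 K).filter (fun u => BFac N u), (lam u : ℝ) * balM N (K / u) := by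
  have h1 : ∑ u ∈ (Icc 1 K).filter (fun u => BFac N u), (lam u : ℝ) * balM N (K / u) =
      ∑ u ∈ (Icc 1 K).filter (fun u => BFac N u),
        ∑ m ∈ (Icc 1 (K / u)).filter (fun n => n.Coprime N), (lam (u * m) : ℝ) := by
    apply Finset.sum_congr rfl
    intro u hu
    rw [mem_filter, mem_Icc] at hu
    unfold balM
    rw [Finset.mul_sum]
    apply Finset.sum_congr rfl
    intro m hm
    rw [mem_filter, mem_Icc] at hm
    rw [lam_mul (by omega) (by omega)]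
    push_cast
    ring
  rw [h1, Finset.sum_sigma']
  symm
  refine Finset.sum_bij (fun x _ => x.1 * x.2) ?_ ?_ ?_ ?_
  · rintro ⟨u, m⟩ h
    simp only [mem_sigma, mem_filter, mem_Icc] at h ⊢
    obtain ⟨⟨⟨h1, h2⟩, h3⟩, ⟨h4, h5⟩, h6⟩ := h
    refine ⟨Nat.mul_pos h1 h4, ?_⟩
    rw [mul_comm]
    exact (Nat.le_div_iff_mul_le h1).1 h5
  · rintro ⟨u, m⟩ h ⟨u', m'⟩ h' heq
    simp only [mem_sigma, mem_filter, mem_Icc] at h h' heq
    obtain ⟨⟨⟨h1, h2⟩, h3⟩, ⟨h4, h5⟩, h6⟩ := h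
    obtain ⟨⟨⟨h1', h2'⟩, h3'⟩, ⟨h4', h5'⟩, h6'⟩ := h'
    have e1 : u ∣ u' := (bfac_coprime h3 h6').dvd_of_dvd_mul_right (Dvd.intro _ heq)
    have e2 : u' ∣ u := (bfac_coprime h3' h6).dvd_of_dvd_mul_right (Dvd.intro _ heq.symm)
    have e3 : u = u' := Nat.dvd_antisymm e1 e2
    subst e3
    have e4 : m = m' := Nat.eq_of_mul_eq_mul_left h1 heq
    subst e4
    rfl
  · intro a ha
    rw [mem_Icc] at ha
    obtain ⟨u, m, h1, h2, h3⟩ := bfac_exists N a ha.1
    have hu : 1 ≤ u := by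
      rcases Nat.eq_zero_or_pos u with h | h
      · subst h
        omega
      · exact h
    have hm : 1 ≤ m := by
      rcases Nat.eq_zero_or_pos m with h | h
      · subst h
        omega
      · exact h
    refine ⟨⟨u, m⟩, ?_, h1.symm⟩
    simp only [mem_sigma, mem_filter, mem_Icc]
    have h5 : u * m ≤ K := h1 ▸ ha.2
    refine ⟨⟨⟨hu, (Nat.le_mul_of_pos_right u hm).trans h5⟩, h2⟩, ⟨hm, ?_⟩, h3⟩
    rw [Nat.le_div_iff_mul_le hu, mul_comm]
    exact h5
  · rintro ⟨u, m⟩ _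
    rfl

/-- `1/√n` as a monoid homomorphism. -/
noncomputable def bsq : ℕ →* ℝ where
  toFun n := 1 / Real.sqrt n
  map_one' := by simp
  map_mul' a b := by
    rw [Nat.cast_mul, Real.sqrt_mul (Nat.cast_nonneg a)]
    rw [one_div, one_div, one_div, mul_inv]

theorem bsq_prime {p : ℕ} (hp : p.Prime) : 0 ≤ bsq p ∧ bsq p ≤ 3 / 4 := by
  have h2 : (2 : ℝ) ≤ p := by exact_mod_cast hp.two_le
  have h3 : (4 / 3 : ℝ) ≤ Real.sqrt p := by
    apply Real.le_sqrt_of_sq_le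
    nlinarith
  constructor
  · show 0 ≤ 1 / Real.sqrt p
    positivity
  · show 1 / Real.sqrt p ≤ 3 / 4
    rw [div_le_div_iff₀ (by linarith) (by norm_num)]
    linarith

theorem bfac_sum (N : ℕ) (hN : N ≠ 0) (F : Finset ℕ) (hF : ∀ u ∈ F, u ≠ 0 ∧ BFac N u) :
    ∑ u ∈ F, (1 : ℝ) / Real.sqrt u ≤ 4 ^ (N.primeFactors.card) := by
  have h0 : ∀ {p : ℕ}, p.Prime → ‖bsq p‖ < 1 := by
    intro p hp
    have := bsq_prime hp
    rw [Real.norm_of_nonneg this.1]
    linarith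
  obtain ⟨h1, h2⟩ :=
    EulerProduct.summable_and_hasSum_factoredNumbers_prod_filter_prime_geometric h0 N.primeFactors
  have hF' : ∀ u ∈ F, u ∈ Nat.factoredNumbers N.primeFactors := by
    intro u hu
    rw [Nat.mem_factoredNumbers_iff_primeFactors_subset]
    refine ⟨(hF u hu).1, ?_⟩
    intro p hp
    rw [Nat.mem_primeFactors] at hp ⊢
    exact ⟨hp.1, (hF u hu).2 p hp.1 hp.2.1, hN⟩
  have h3 : ∑ u ∈ F, (1 : ℝ) / Real.sqrt u ≤
      ∏ p ∈ N.primeFactors with p.Prime, (1 - bsq p)⁻¹ := by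
    rw [← h2.tsum_eq]
    have h4 : ∑ u ∈ F, (1 : ℝ) / Real.sqrt u =
        ∑ u ∈ F.subtype (fun u => u ∈ Nat.factoredNumbers N.primeFactors),
          bsq (u : ℕ) := by
      rw [Finset.sum_subtype_of_mem (fun u => bsq u) hF']
      rfl
    rw [h4]
    apply h2.summable.sum_le_tsum
    intro u _
    show 0 ≤ 1 / Real.sqrt _
    positivity
  refine h3.trans ?_
  have h5 : N.primeFactors.filter (fun p => p.Prime) = N.primeFactors := by
    apply Finset.filter_true_of_mem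
    intro p hp
    exact Nat.prime_of_mem_primeFactors hp
  rw [h5]
  calc ∏ p ∈ N.primeFactors, (1 - bsq p)⁻¹ ≤ ∏ p ∈ N.primeFactors, (4 : ℝ) := by
        apply Finset.prod_le_prod
        · intro p hp
          have := bsq_prime (Nat.prime_of_mem_primeFactors hp)
          exact inv_nonneg.2 (by linarith)
        · intro p hp
          have := bsq_prime (Nat.prime_of_mem_primeFactors hp)
          rw [inv_le_comm₀ (by linarith) (by norm_num)]
          linarith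
    _ = 4 ^ (N.primeFactors.card) := by
        rw [Finset.prod_const]

open Classical in
/-- The tail over large `u`. -/
theorem bal_tail (N K U : ℕ) (hN : N ≠ 0) (hU : 1 ≤ U) :
    ∑ u ∈ ((Icc 1 K).filter (fun u => BFac N u)).filter (fun u => U < u), ((K / u : ℕ) : ℝ) ≤
      K / Real.sqrt U * 4 ^ (N.primeFactors.card) := by
  have hU0 : (0 : ℝ) < U := by exact_mod_cast hU
  have h1 : ∀ u ∈ ((Icc 1 K).filter (fun u => BFac N u)).filter (fun u => U < u),
      ((K / u : ℕ) : ℝ) ≤ K / Real.sqrt U * (1 / Real.sqrt u) := by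
    intro u hu
    rw [mem_filter, mem_filter, mem_Icc] at hu
    obtain ⟨⟨⟨h2, h3⟩, h4⟩, h5⟩ := hu
    have hu0 : (0 : ℝ) < u := by exact_mod_cast h2
    have hUu : (U : ℝ) ≤ u := by exact_mod_cast h5.le
    have h6 : ((K / u : ℕ) : ℝ) ≤ (K : ℝ) / u := Nat.cast_div_le
    refine h6.trans ?_
    have h7 : Real.sqrt U * Real.sqrt u ≤ u := by
      calc Real.sqrt U * Real.sqrt u ≤ Real.sqrt u * Real.sqrt u :=
            mul_le_mul_of_nonneg_right (Real.sqrt_le_sqrt hUu) (Real.sqrt_nonneg _)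
        _ = u := Real.mul_self_sqrt hu0.le
    rw [div_mul_div_comm, mul_one]
    apply div_le_div_of_nonneg_left (by positivity) _ h7
    exact mul_pos (Real.sqrt_pos.2 hU0) (Real.sqrt_pos.2 hu0)
  refine (Finset.sum_le_sum h1).trans ?_
  rw [← Finset.mul_sum]
  apply mul_le_mul_of_nonneg_left _ (by positivity)
  apply bfac_sum N hN
  intro u hu
  rw [mem_filter, mem_filter, mem_Icc] at hu
  exact ⟨by omega, hu.1.2⟩

theorem abs_balM_le (N y : ℕ) : |balM N y| ≤ y := by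
  unfold balM
  refine (Finset.abs_sum_le_sum_abs _ _).trans ?_
  have h1 : ∀ n ∈ (Icc 1 y).filter (fun n => n.Coprime N), |(lam n : ℝ)| ≤ 1 := by
    intro n _
    rcases lam_cases n with h | h <;> rw [h] <;> norm_num
  refine (Finset.sum_le_sum h1).trans ?_
  rw [Finset.sum_const, nsmul_eq_mul, mul_one]
  have h13 : ((Icc 1 y).filter (fun n => n.Coprime N)).card ≤ (Icc 1 y).card :=
    Finset.card_filter_le _ _
  rw [Nat.card_Icc] at h13
  have h14 : ((Icc 1 y).filter (fun n => n.Coprime N)).card ≤ y := by omega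
  exact_mod_cast h14

/-- Final summation, abstract version. -/
theorem bal_final (N U : ℕ) (hN : 1 ≤ N) (hU : 1 ≤ U) (B E : ℝ) (hB : 0 ≤ B) (hE : 0 ≤ E)
    (h : ∀ u : ℕ, 1 ≤ u → u ≤ U → |balM N ((N - 1) / u)| ≤ B * ((N - 1) / u : ℕ) + E) :
    |∑ a ∈ Ioo 0 N, (lam a : ℝ)| ≤
      B * N * (1 + Real.log U) + U * E + N / Real.sqrt U * 4 ^ (N.primeFactors.card) := by
  classical
  have h0 : Ioo 0 N = Icc 1 (N - 1) := by
    ext x
    simp only [mem_Ioo, mem_Icc]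
    omega
  set K := N - 1 with hK
  have hKN : (K : ℝ) ≤ N := by
    have : K ≤ N := by omega
    exact_mod_cast this
  rw [h0, bal_split N K]
  rw [← Finset.sum_filter_add_sum_filter_not _ (fun u => U < u)]
  refine (abs_add_le _ _).trans ?_
  have h1 : |∑ u ∈ ((Icc 1 K).filter (fun u => BFac N u)).filter (fun u => U < u),
      (lam u : ℝ) * balM N (K / u)| ≤ N / Real.sqrt U * 4 ^ (N.primeFactors.card) := by
    refine (Finset.abs_sum_le_sum_abs _ _).trans ?_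
    have h2 : ∀ u ∈ ((Icc 1 K).filter (fun u => BFac N u)).filter (fun u => U < u),
        |(lam u : ℝ) * balM N (K / u)| ≤ ((K / u : ℕ) : ℝ) := by
      intro u _
      rw [abs_mul]
      have h3 : |(lam u : ℝ)| = 1 := by
        rcases lam_cases u with h | h <;> rw [h] <;> norm_num
      rw [h3, one_mul]
      exact abs_balM_le N _
    refine (Finset.sum_le_sum h2).trans ?_
    refine (bal_tail N K U (by omega) hU).trans ?_
    have h4 : (K : ℝ) / Real.sqrt U ≤ N / Real.sqrt U :=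
      div_le_div_of_nonneg_right hKN (Real.sqrt_nonneg _)
    exact mul_le_mul_of_nonneg_right h4 (by positivity)
  have h2 : |∑ u ∈ ((Icc 1 K).filter (fun u => BFac N u)).filter (fun u => ¬ U < u),
      (lam u : ℝ) * balM N (K / u)| ≤ B * N * (1 + Real.log U) + U * E := by
    refine (Finset.abs_sum_le_sum_abs _ _).trans ?_
    have h3 : ∀ u ∈ ((Icc 1 K).filter (fun u => BFac N u)).filter (fun u => ¬ U < u),
        |(lam u : ℝ) * balM N (K / u)| ≤ B * N * (1 / (u : ℝ)) + E := by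
      intro u hu
      rw [mem_filter, mem_filter, mem_Icc] at hu
      obtain ⟨⟨⟨h4, h5⟩, h6⟩, h7⟩ := hu
      rw [abs_mul]
      have h3 : |(lam u : ℝ)| = 1 := by
        rcases lam_cases u with h | h <;> rw [h] <;> norm_num
      rw [h3, one_mul]
      refine (h u h4 (by omega)).trans ?_
      have h8 : ((K / u : ℕ) : ℝ) ≤ (K : ℝ) / u := Nat.cast_div_le
      have hu0 : (0 : ℝ) < u := by exact_mod_cast h4
      have h9 : (K : ℝ) / u ≤ N * (1 / (u : ℝ)) := by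
        rw [mul_one_div]
        exact div_le_div_of_nonneg_right hKN hu0.le
      have h10 := mul_le_mul_of_nonneg_left (h8.trans h9) hB
      linarith
    refine (Finset.sum_le_sum h3).trans ?_
    have h4 : ((Icc 1 K).filter (fun u => BFac N u)).filter (fun u => ¬ U < u) ⊆ Icc 1 U := by
      intro u hu
      rw [mem_filter, mem_filter, mem_Icc] at hu
      rw [mem_Icc]
      omega
    refine (Finset.sum_le_sum_of_subset_of_nonneg h4 (fun u _ _ => by positivity)).trans ?_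
    rw [Finset.sum_add_distrib, ← Finset.mul_sum, Finset.sum_const, Nat.card_Icc, nsmul_eq_mul]
    have h5 : ∑ u ∈ Icc 1 U, 1 / (u : ℝ) ≤ 1 + Real.log U := by
      have h6 := harmonic_le_one_add_log U
      rw [harmonic_eq_sum_Icc] at h6
      push_cast at h6
      simpa using h6
    have h7 : B * N * ∑ u ∈ Icc 1 U, 1 / (u : ℝ) ≤ B * N * (1 + Real.log U) :=
      mul_le_mul_of_nonneg_left h5 (by positivity)
    have h8 : ((U + 1 - 1 : ℕ) : ℝ) = U := by
      rw [Nat.add_sub_cancel]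
    rw [h8]
    linarith
  linarith

theorem Sp_mono' {N : ℕ} (χ : DirichletCharacter ℂ N) {a b : ℕ} (h : a ≤ b) :
    Sp χ a ≤ Sp χ b := by
  classical
  unfold Sp
  apply Finset.sum_le_sum_of_subset_of_nonneg
  · intro p hp
    unfold split at hp ⊢
    rw [mem_filter, mem_Icc] at hp ⊢
    exact ⟨⟨hp.1.1, hp.1.2.trans h⟩, hp.2⟩
  · intro p _ _
    positivity

theorem Sp_nonneg' {N : ℕ} (χ : DirichletCharacter ℂ N) (a : ℕ) : 0 ≤ Sp χ a := by
  unfold Sp
  exact Finset.sum_nonneg (fun p _ => by positivity)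

theorem bal_H_le {N : ℕ} [NeZero N] (χ : DirichletCharacter ℂ N) (h : Sp χ N ≤ 1 / 8) :
    balH χ N ≤ 1 + 8 * Sp χ N * N := by
  have hN1 : 1 ≤ N := Nat.one_le_iff_ne_zero.2 (NeZero.ne N)
  unfold balH
  have h1 : Icc 1 N = insert 1 (Icc 2 N) := by
    ext x
    simp only [mem_Icc, mem_insert]
    omega
  rw [h1, Finset.sum_insert (by simp), hp_one']
  have h2 : ∑ n ∈ Icc 2 N, hp χ n ≤ ∑ n ∈ Icc 2 N, N * (hp χ n / n) := by
    apply Finset.sum_le_sum
    intro n hn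
    rw [mem_Icc] at hn
    have hn0 : (0 : ℝ) < n := by
      have : 0 < n := by omega
      exact_mod_cast this
    have hnN : (n : ℝ) ≤ N := by exact_mod_cast hn.2
    rw [← mul_div_assoc, le_div_iff₀ hn0, mul_comm]
    exact mul_le_mul_of_nonneg_right hnN (hp_nonneg' χ n)
  rw [← Finset.mul_sum] at h2
  have h3 := mul_le_mul_of_nonneg_left (hp_sum χ N h) (Nat.cast_nonneg N : (0 : ℝ) ≤ N)
  linarith

theorem bal_num (x L σ Λ b R y Z : ℝ) (hx1 : 1 ≤ x) (hL : 10 ≤ L) (_hσ0 : 0 ≤ σ)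
    (hσ1 : σ ≤ 1 / 100) (hΛ0 : 0 ≤ Λ) (hΛ1 : Λ ≤ 8 * σ + (1 + R) / x) (hb0 : 0 ≤ b) (hb1 : b ≤ 1)
    (hRge : 1 ≤ R) (hRle : R ≤ 2 * L * x ^ (755 / 1000 : ℝ)) (hy0 : 0 ≤ y) (hyx : y ≤ x)
    (_hZ0 : 0 ≤ Z) (hZ : Z ≤ x ^ (1 / 5 : ℝ))
    (h7 : 20 * x ^ (955 / 1000 : ℝ) * L ≤ x ^ (98 / 100 : ℝ)) :
    x ^ (51 / 100 : ℝ) + 1 + 8 * σ * b * y + 2 * Λ * b * y + Z * (Λ + 2 * R) ≤
      24 * σ * y * b + x ^ (98 / 100 : ℝ) := by
  have hx0 : 0 < x := by linarith
  have hp1 : ∀ c : ℝ, 0 ≤ c → 1 ≤ x ^ c := fun c hc => Real.one_le_rpow hx1 hc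
  have h10 : 2 * Λ * b * y ≤ 16 * σ * b * y + 2 * (1 + R) := by
    have h11 : Λ * y ≤ 8 * σ * y + (1 + R) := by
      have h12 : Λ * y ≤ (8 * σ + (1 + R) / x) * y := mul_le_mul_of_nonneg_right hΛ1 hy0
      have h13 : (1 + R) / x * y ≤ 1 + R := by
        rw [div_mul_eq_mul_div, div_le_iff₀ hx0]
        exact mul_le_mul_of_nonneg_left hyx (by linarith)
      linarith
    have h12 : b * (Λ * y) ≤ b * (8 * σ * y + (1 + R)) := mul_le_mul_of_nonneg_left h11 hb0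
    have h13 : b * (1 + R) ≤ 1 * (1 + R) := mul_le_mul_of_nonneg_right hb1 (by linarith)
    linarith
  have hΛ2 : Λ ≤ 1 + (1 + R) := by
    have h11 : (1 + R) / x ≤ 1 + R := div_le_self (by linarith) hx1
    linarith
  have h11 : Z * (Λ + 2 * R) ≤ x ^ (1 / 5 : ℝ) * (5 * R) :=
    mul_le_mul hZ (by linarith) (by linarith) (by positivity)
  have hx15 := hp1 (1 / 5) (by norm_num)
  have h12 : 2 * (1 + R) ≤ x ^ (1 / 5 : ℝ) * (4 * R) := by
    have h13 : 4 * R ≤ x ^ (1 / 5 : ℝ) * (4 * R) :=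
      le_mul_of_one_le_left (by linarith) hx15
    linarith
  have h13 : x ^ (51 / 100 : ℝ) + 1 ≤ 2 * x ^ (955 / 1000 : ℝ) := by
    have h14 : x ^ (51 / 100 : ℝ) ≤ x ^ (955 / 1000 : ℝ) :=
      Real.rpow_le_rpow_of_exponent_le hx1 (by norm_num)
    have h15 := hp1 (955 / 1000) (by norm_num)
    linarith
  have h14 : x ^ (1 / 5 : ℝ) * (9 * R) ≤ 18 * L * x ^ (955 / 1000 : ℝ) := by
    have h15 : x ^ (955 / 1000 : ℝ) = x ^ (1 / 5 : ℝ) * x ^ (755 / 1000 : ℝ) := by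
      rw [← Real.rpow_add hx0]
      norm_num
    rw [h15]
    have h16 := mul_le_mul_of_nonneg_left hRle (by positivity : 0 ≤ 9 * x ^ (1 / 5 : ℝ))
    linarith
  have h15 : 2 * x ^ (955 / 1000 : ℝ) ≤ 2 * L * x ^ (955 / 1000 : ℝ) := by
    apply mul_le_mul_of_nonneg_right _ (by positivity)
    linarith
  have h16 : x ^ (1 / 5 : ℝ) * (9 * R) = x ^ (1 / 5 : ℝ) * (4 * R) + x ^ (1 / 5 : ℝ) * (5 * R) := by
    ring
  generalize x ^ (1 / 5 : ℝ) = a1 at *
  generalize x ^ (955 / 1000 : ℝ) = a2 at *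
  generalize x ^ (51 / 100 : ℝ) = a3 at *
  generalize x ^ (98 / 100 : ℝ) = a4 at *
  linarith

theorem bal_main (A : ℕ) : ∀ᶠ N : ℕ in atTop, ∀ _ : NeZero N,
    ∀ χ : DirichletCharacter ℂ N, χ ≠ 1 → RealChar χ → Sp χ N ≤ 1 / 100 →
    ∀ y : ℕ, (N : ℝ) ^ (99 / 100 : ℝ) ≤ y → y ≤ N →
    |balM N y| ≤ 24 * Sp χ N * y * (1 / (Real.log N / 10) ^ A) + (N : ℝ) ^ (98 / 100 : ℝ) := by
  filter_upwards [pnt_cop A (1 / 10) (by norm_num), pnt_cop_log A (1 / 10) (by norm_num),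
    pv (1 / 100) (by norm_num), h_asymp (1 / 200) (by norm_num), ev_log 10,
    ev_pow (9 / 10) (99 / 100) (by norm_num) 0 4,
    ev_pow (955 / 1000) (98 / 100) (by norm_num) 1 20, eventually_ge_atTop 2]
    with N h1 h2 h3 h4 h5 h6 h7 h8
  intro hNZ χ hχ1 hχ hSp y hy hyN
  obtain ⟨Λ, hΛ0, hΛ⟩ := h4 hNZ χ hχ1 hχ
  have hx1 : (1 : ℝ) ≤ N := by
    have : 1 ≤ N := by omega
    exact_mod_cast this
  have hx0 : (0 : ℝ) < N := by linarith
  set x : ℝ := (N : ℝ) with hx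
  set L := Real.log x with hL
  have hSp0 := Sp_nonneg' χ N
  set σ := Sp χ N with hσ
  have hp1 : ∀ c : ℝ, 0 ≤ c → 1 ≤ x ^ c := fun c hc => Real.one_le_rpow hx1 hc
  -- parameters
  have hE1 : (⌊x ^ (4 / 5 : ℝ)⌋₊ : ℝ) ≤ x ^ (4 / 5 : ℝ) := Nat.floor_le (by positivity)
  have hE2 : x ^ (4 / 5 : ℝ) < (⌊x ^ (4 / 5 : ℝ)⌋₊ : ℝ) + 1 := Nat.lt_floor_add_one _
  have hE3 : 1 ≤ ⌊x ^ (4 / 5 : ℝ)⌋₊ := Nat.le_floor (by simpa using hp1 (4 / 5) (by norm_num))
  set E := ⌊x ^ (4 / 5 : ℝ)⌋₊ with hE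
  have hK1 : x ^ (1 / 10 : ℝ) ≤ (⌈x ^ (1 / 10 : ℝ)⌉₊ : ℝ) := Nat.le_ceil _
  have hK2 : (⌈x ^ (1 / 10 : ℝ)⌉₊ : ℝ) < x ^ (1 / 10 : ℝ) + 1 := Nat.ceil_lt_add_one (by positivity)
  have hK3 : 1 ≤ ⌈x ^ (1 / 10 : ℝ)⌉₊ := Nat.one_le_ceil_iff.2 (by positivity)
  set K0 := ⌈x ^ (1 / 10 : ℝ)⌉₊ with hK0
  have hK4 : K0 ≤ y / (E + 1) := by
    rw [Nat.le_div_iff_mul_le (Nat.succ_pos E)]
    have h10 : ((K0 * (E + 1) : ℕ) : ℝ) ≤ y := by
      push_cast
      have ha := hp1 (1 / 10) (by norm_num)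
      have hb := hp1 (4 / 5) (by norm_num)
      have h11 : (K0 : ℝ) ≤ 2 * x ^ (1 / 10 : ℝ) := by linarith
      have h12 : (E : ℝ) + 1 ≤ 2 * x ^ (4 / 5 : ℝ) := by linarith
      have h13 : (K0 : ℝ) * (E + 1) ≤ (2 * x ^ (1 / 10 : ℝ)) * (2 * x ^ (4 / 5 : ℝ)) :=
        mul_le_mul h11 h12 (by positivity) (by positivity)
      have h14 : (2 * x ^ (1 / 10 : ℝ)) * (2 * x ^ (4 / 5 : ℝ)) = 4 * x ^ (9 / 10 : ℝ) := by
        have : x ^ (9 / 10 : ℝ) = x ^ (1 / 10 : ℝ) * x ^ (4 / 5 : ℝ) := by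
          rw [← Real.rpow_add hx0]
          norm_num
        rw [this]
        ring
      rw [pow_zero, mul_one] at h6
      linarith
    exact_mod_cast h10
  have hL10 : 1 ≤ (L / 10) := by linarith
  have hpow : 1 ≤ (L / 10) ^ A := one_le_pow₀ hL10
  have hlogm : ∀ m : ℕ, K0 ≤ m → x ^ (1 / 10 : ℝ) ≤ m ∧ L / 10 ≤ Real.log m := by
    intro m hm
    have h10 : (K0 : ℝ) ≤ m := by exact_mod_cast hm
    have h11 : x ^ (1 / 10 : ℝ) ≤ m := hK1.trans h10
    refine ⟨h11, ?_⟩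
    have h12 := Real.log_le_log (by positivity) h11
    rw [Real.log_rpow hx0] at h12
    linarith
  have hR1 : ∀ t : ℕ, 1 ≤ t → t ≤ N →
      |balH χ t - Λ * t| ≤ Real.sqrt x * (1 + L) * x ^ (1 / 4 + 1 / 200 : ℝ) := by
    intro t ht1 htN
    refine (hΛ t ht1).trans ?_
    have ht0 : (0 : ℝ) < t := by exact_mod_cast ht1
    have htx : (t : ℝ) ≤ x := Nat.cast_le.2 htN
    have h10 : Real.sqrt t ≤ Real.sqrt x := Real.sqrt_le_sqrt htx
    have h11 : Real.log t ≤ L := Real.log_le_log ht0 htx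
    have h12 : 0 ≤ Real.log t := Real.log_natCast_nonneg t
    have h13 : Real.sqrt t * (1 + Real.log t) ≤ Real.sqrt x * (1 + L) :=
      mul_le_mul h10 (by linarith) (by linarith) (Real.sqrt_nonneg _)
    exact mul_le_mul_of_nonneg_right h13 (by positivity)
  have hReq : Real.sqrt x * (1 + L) * x ^ (1 / 4 + 1 / 200 : ℝ) =
      (1 + L) * x ^ (755 / 1000 : ℝ) := by
    have : x ^ (755 / 1000 : ℝ) = x ^ (1 / 2 : ℝ) * x ^ (1 / 4 + 1 / 200 : ℝ) := by
      rw [← Real.rpow_add hx0]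
      norm_num
    rw [this, Real.sqrt_eq_rpow]
    ring
  rw [hReq] at hR1
  obtain ⟨R, hR⟩ : ∃ R : ℝ, R = (1 + L) * x ^ (755 / 1000 : ℝ) := ⟨_, rfl⟩
  rw [← hR] at hR1
  have hx755 := hp1 (755 / 1000) (by norm_num)
  have hRge : 1 ≤ R := by
    rw [hR]
    nlinarith
  have hRle : R ≤ 2 * L * x ^ (755 / 1000 : ℝ) := by
    rw [hR]
    apply mul_le_mul_of_nonneg_right _ (by positivity)
    linarith
  have hX : |∑ n ∈ Icc 1 y, (χ (n : ZMod N)).re| ≤ x ^ (51 / 100 : ℝ) + 1 := by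
    have h10 := h3 χ hχ1 (y + 1)
    have h11 : ∑ n ∈ range (y + 1), χ (n : ZMod N) =
        χ ((0 : ℕ) : ZMod N) + ∑ n ∈ Icc 1 y, χ (n : ZMod N) := by
      have h12 : range (y + 1) = insert 0 (Icc 1 y) := by
        ext z
        simp only [mem_range, mem_insert, mem_Icc]
        omega
      rw [h12, Finset.sum_insert (by simp)]
    have h12 : ∑ n ∈ Icc 1 y, (χ (n : ZMod N)).re = (∑ n ∈ Icc 1 y, χ (n : ZMod N)).re := by
      rw [Complex.re_sum]
    rw [h12]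
    refine (Complex.abs_re_le_norm _).trans ?_
    have h13 : ∑ n ∈ Icc 1 y, χ (n : ZMod N) =
        ∑ n ∈ range (y + 1), χ (n : ZMod N) - χ ((0 : ℕ) : ZMod N) := by
      rw [h11]
      ring
    rw [h13]
    refine (norm_sub_le _ _).trans ?_
    have h14 : ‖χ ((0 : ℕ) : ZMod N)‖ ≤ 1 := DirichletCharacter.norm_le_one χ _
    have h15 : (1 / 2 + 1 / 100 : ℝ) = 51 / 100 := by norm_num
    rw [h15] at h10
    exact add_le_add h10 h14
  have hcore := bal_core χ hχ y E K0 Λ (1 / (L / 10) ^ A) R (x ^ (51 / 100 : ℝ) + 1) (8 * σ)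
    (by positivity) hΛ0 hE3 hyN hK3 hK4 hX ?_ ?_ ?_ hR1
  · refine hcore.trans ?_
    have hb1 : 1 / (L / 10) ^ A ≤ 1 := by
      rw [div_le_one (by linarith)]
      exact hpow
    have hΛ1 : Λ ≤ 8 * σ + (1 + R) / x := by
      have h10 := hR1 N (by omega) le_rfl
      have h11 := bal_H_le χ (by linarith : Sp χ N ≤ 1 / 8)
      rw [abs_le] at h10
      have h12 : Λ * x ≤ (8 * σ + (1 + R) / x) * x := by
        have h13 : (8 * σ + (1 + R) / x) * x = 8 * σ * x + (1 + R) := by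
          field_simp
        rw [h13]
        linarith
      exact le_of_mul_le_mul_right h12 hx0
    have hyx : (y : ℝ) ≤ x := Nat.cast_le.2 hyN
    have hZ : ((y / (E + 1) : ℕ) : ℝ) ≤ x ^ (1 / 5 : ℝ) := by
      have h11 : ((y / (E + 1) : ℕ) : ℝ) ≤ (y : ℝ) / ((E + 1 : ℕ) : ℝ) := Nat.cast_div_le
      refine h11.trans ?_
      rw [div_le_iff₀ (by positivity)]
      push_cast
      have h12 : x = x ^ (1 / 5 : ℝ) * x ^ (4 / 5 : ℝ) := by
        rw [← Real.rpow_add hx0]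
        norm_num
      calc (y : ℝ) ≤ x := hyx
        _ = x ^ (1 / 5 : ℝ) * x ^ (4 / 5 : ℝ) := h12
        _ ≤ x ^ (1 / 5 : ℝ) * (E + 1) := mul_le_mul_of_nonneg_left hE2.le (by positivity)
    rw [pow_one] at h7
    exact bal_num x L σ Λ _ R y _ hx1 h5 hSp0 hSp hΛ0 hΛ1 (by positivity) hb1 hRge hRle
      (Nat.cast_nonneg y) hyx (Nat.cast_nonneg _) hZ h7
  · intro m hm
    obtain ⟨h10, h11⟩ := hlogm m hm
    have h12 := h1 m h10
    unfold balM
    refine h12.trans ?_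
    have h13 : (L / 10) ^ A ≤ Real.log m ^ A := pow_le_pow_left₀ (by linarith) h11 A
    rw [one_div, inv_mul_eq_div]
    exact div_le_div_of_nonneg_left (Nat.cast_nonneg m) (by linarith) h13
  · intro m hm
    obtain ⟨h10, h11⟩ := hlogm m hm
    have h12 := h2 m h10
    unfold balT
    refine h12.trans ?_
    have h13 : (L / 10) ^ A ≤ Real.log m ^ A := pow_le_pow_left₀ (by linarith) h11 A
    exact div_le_div_of_nonneg_left zero_le_one (by linarith) h13
  · have h10 : E ≤ N := by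
      have h11 : (E : ℝ) ≤ N := by
        refine hE1.trans ?_
        calc x ^ (4 / 5 : ℝ) ≤ x ^ (1 : ℝ) := Real.rpow_le_rpow_of_exponent_le hx1 (by norm_num)
          _ = N := by rw [Real.rpow_one]
      exact_mod_cast h11
    have h11 : Sp χ E ≤ σ := Sp_mono' χ h10
    exact (hp_sum χ E (by linarith)).trans (by linarith)

theorem balance (A : ℕ) : ∀ᶠ N : ℕ in atTop, ∀ _ : NeZero N,
    ∀ χ : DirichletCharacter ℂ N, χ ≠ 1 → RealChar χ → Sp χ N ≤ 1 / 100 →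
    |∑ a ∈ Ioo 0 N, (lam a : ℝ)| ≤ Sp χ N * N / Real.log N ^ A + (N : ℝ) ^ (999 / 1000 : ℝ) := by
  filter_upwards [bal_main (A + 2), omega_small (1 / 4000) (by norm_num),
    ev_log (48 * 10 ^ (A + 2) + 10),
    ev_pow (995 / 1000) 1 (by norm_num) 0 3,
    ev_pow (998 / 1000) (999 / 1000) (by norm_num) 0 3, eventually_ge_atTop 2]
    with N h1 h2 h3 h4 h5 h6
  intro hNZ χ hχ1 hχ hSp
  have h7 := h1 hNZ χ hχ1 hχ hSp
  have hx1 : (1 : ℝ) ≤ N := by
    have : 1 ≤ N := by omega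
    exact_mod_cast this
  have hx0 : (0 : ℝ) < N := by linarith
  have hSp0 := Sp_nonneg' χ N
  set x : ℝ := (N : ℝ) with hx
  set L := Real.log x with hL
  set σ := Sp χ N with hσ
  have hp1 : ∀ c : ℝ, 0 ≤ c → 1 ≤ x ^ c := fun c hc => Real.one_le_rpow hx1 hc
  have hU1 : (⌊x ^ (1 / 200 : ℝ)⌋₊ : ℝ) ≤ x ^ (1 / 200 : ℝ) := Nat.floor_le (by positivity)
  have hU2 : x ^ (1 / 200 : ℝ) < (⌊x ^ (1 / 200 : ℝ)⌋₊ : ℝ) + 1 := Nat.lt_floor_add_one _
  have hU3 : 1 ≤ ⌊x ^ (1 / 200 : ℝ)⌋₊ :=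
    Nat.le_floor (by simpa using hp1 (1 / 200) (by norm_num))
  set U := ⌊x ^ (1 / 200 : ℝ)⌋₊ with hU
  have hL10 : 10 ≤ L := by
    have : (0 : ℝ) ≤ 48 * 10 ^ (A + 2) := by positivity
    linarith
  rw [pow_zero, mul_one] at h4 h5
  rw [Real.rpow_one] at h4
  have hfin := bal_final N U (by omega) hU3 (24 * σ * (1 / (L / 10) ^ (A + 2)))
    (x ^ (98 / 100 : ℝ)) (by positivity) (by positivity) ?_
  · refine hfin.trans ?_
    have h8 : 24 * σ * (1 / (L / 10) ^ (A + 2)) * x * (1 + Real.log U) ≤ σ * x / L ^ A := by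
      have h9 : Real.log U ≤ L := by
        have h10 : (U : ℝ) ≤ x := by
          refine hU1.trans ?_
          calc x ^ (1 / 200 : ℝ) ≤ x ^ (1 : ℝ) :=
                Real.rpow_le_rpow_of_exponent_le hx1 (by norm_num)
            _ = x := Real.rpow_one x
        apply Real.log_le_log _ h10
        exact_mod_cast hU3
      have h10 : 24 * 10 ^ (A + 2) * (1 + Real.log U) ≤ L ^ 2 := by
        have h11 : (0 : ℝ) ≤ 24 * 10 ^ (A + 2) := by positivity
        have h12 : 24 * 10 ^ (A + 2) * (1 + Real.log U) ≤ 24 * 10 ^ (A + 2) * (2 * L) :=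
          mul_le_mul_of_nonneg_left (by linarith) h11
        nlinarith
      have hL0 : 0 < L := by linarith
      have h11 : 24 * σ * (1 / (L / 10) ^ (A + 2)) * x * (1 + Real.log U) =
          σ * x / L ^ A * ((24 * 10 ^ (A + 2) * (1 + Real.log U)) / L ^ 2) := by
        rw [div_pow, pow_add L]
        field_simp
      rw [h11]
      have h12 : (24 * 10 ^ (A + 2) * (1 + Real.log U)) / L ^ 2 ≤ 1 := by
        rw [div_le_one (by positivity)]
        exact h10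
      calc σ * x / L ^ A * ((24 * 10 ^ (A + 2) * (1 + Real.log U)) / L ^ 2) ≤
          σ * x / L ^ A * 1 := mul_le_mul_of_nonneg_left h12 (by positivity)
        _ = σ * x / L ^ A := mul_one _
    have h9 : (U : ℝ) * x ^ (98 / 100 : ℝ) ≤ x ^ (998 / 1000 : ℝ) := by
      calc (U : ℝ) * x ^ (98 / 100 : ℝ) ≤ x ^ (1 / 200 : ℝ) * x ^ (98 / 100 : ℝ) :=
            mul_le_mul_of_nonneg_right hU1 (by positivity)
        _ = x ^ (1 / 200 + 98 / 100 : ℝ) := by rw [← Real.rpow_add hx0]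
        _ ≤ x ^ (998 / 1000 : ℝ) := Real.rpow_le_rpow_of_exponent_le hx1 (by norm_num)
    have h10 : x / Real.sqrt U * 4 ^ (N.primeFactors.card) ≤ 2 * x ^ (998 / 1000 : ℝ) := by
      have hU4 : x ^ (1 / 200 : ℝ) / 4 ≤ U := by
        have : (1 : ℝ) ≤ U := by exact_mod_cast hU3
        linarith
      have h11 : x ^ (1 / 400 : ℝ) / 2 ≤ Real.sqrt U := by
        apply Real.le_sqrt_of_sq_le
        have h12 : (x ^ (1 / 400 : ℝ) / 2) ^ 2 = x ^ (1 / 200 : ℝ) / 4 := by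
          rw [div_pow, ← Real.rpow_natCast, ← Real.rpow_mul hx0.le]
          norm_num
        rw [h12]
        exact hU4
      have h12 : x / Real.sqrt U ≤ 2 * x ^ (399 / 400 : ℝ) := by
        rw [div_le_iff₀ (by
          have : 0 < x ^ (1 / 400 : ℝ) / 2 := by positivity
          linarith)]
        have h13 : x = x ^ (399 / 400 : ℝ) * x ^ (1 / 400 : ℝ) := by
          rw [← Real.rpow_add hx0]
          norm_num
        calc x = x ^ (399 / 400 : ℝ) * x ^ (1 / 400 : ℝ) := h13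
          _ = 2 * x ^ (399 / 400 : ℝ) * (x ^ (1 / 400 : ℝ) / 2) := by ring
          _ ≤ 2 * x ^ (399 / 400 : ℝ) * Real.sqrt U :=
              mul_le_mul_of_nonneg_left h11 (by positivity)
      have h13 : (4 : ℝ) ^ (N.primeFactors.card) ≤ x ^ (1 / 2000 : ℝ) := by
        have h14 : (4 : ℝ) ^ (N.primeFactors.card) = ((2 : ℝ) ^ (N.primeFactors.card)) ^ 2 := by
          rw [← pow_mul, mul_comm, pow_mul]
          norm_num
        rw [h14]
        calc ((2 : ℝ) ^ (N.primeFactors.card)) ^ 2 ≤ (x ^ (1 / 4000 : ℝ)) ^ 2 :=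
              pow_le_pow_left₀ (by positivity) h2 2
          _ = x ^ (1 / 2000 : ℝ) := by
              rw [← Real.rpow_natCast, ← Real.rpow_mul hx0.le]
              norm_num
      calc x / Real.sqrt U * 4 ^ (N.primeFactors.card) ≤
          (2 * x ^ (399 / 400 : ℝ)) * x ^ (1 / 2000 : ℝ) :=
            mul_le_mul h12 h13 (by positivity) (by positivity)
        _ = 2 * x ^ (399 / 400 + 1 / 2000 : ℝ) := by
            rw [Real.rpow_add hx0]
            ring
        _ ≤ 2 * x ^ (998 / 1000 : ℝ) := by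
            apply mul_le_mul_of_nonneg_left _ (by norm_num)
            exact Real.rpow_le_rpow_of_exponent_le hx1 (by norm_num)
    linarith
  · intro u hu1 huU
    have hu0 : (0 : ℝ) < u := by exact_mod_cast hu1
    have h8 : x ^ (99 / 100 : ℝ) ≤ ((N - 1) / u : ℕ) := by
      have h9 : (⌈x ^ (99 / 100 : ℝ)⌉₊ : ℝ) < x ^ (99 / 100 : ℝ) + 1 :=
        Nat.ceil_lt_add_one (by positivity)
      refine (Nat.le_ceil _).trans ?_
      have h10 : ⌈x ^ (99 / 100 : ℝ)⌉₊ ≤ (N - 1) / u := by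
        rw [Nat.le_div_iff_mul_le hu1]
        have h11 : ((⌈x ^ (99 / 100 : ℝ)⌉₊ * u + 1 : ℕ) : ℝ) ≤ (N : ℝ) := by
          push_cast
          have h12 := hp1 (99 / 100) (by norm_num)
          have h13 : (u : ℝ) ≤ x ^ (1 / 200 : ℝ) := by
            have : (u : ℝ) ≤ U := by exact_mod_cast huU
            linarith
          have h14 : (⌈x ^ (99 / 100 : ℝ)⌉₊ : ℝ) * u ≤
              (2 * x ^ (99 / 100 : ℝ)) * x ^ (1 / 200 : ℝ) :=
            mul_le_mul (by linarith) h13 hu0.le (by positivity)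
          have h15 : (2 * x ^ (99 / 100 : ℝ)) * x ^ (1 / 200 : ℝ) = 2 * x ^ (995 / 1000 : ℝ) := by
            rw [mul_assoc, ← Real.rpow_add hx0]
            norm_num
          have h16 := hp1 (995 / 1000) (by norm_num)
          linarith
        have h12 : ⌈x ^ (99 / 100 : ℝ)⌉₊ * u + 1 ≤ N := by exact_mod_cast h11
        omega
      exact_mod_cast h10
    have h9 : (N - 1) / u ≤ N := (Nat.div_le_self _ _).trans (Nat.sub_le _ _)
    have h10 := h7 ((N - 1) / u) h8 h9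
    refine h10.trans (le_of_eq ?_)
    ring

end Pool.Agent.GLI
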