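import Pool.Agent.GLI.Defs

set_option autoImplicit false

/-!
Module Block (digits in base `q`). Let `F` be the set of `v < q` such that some `β` in
`[v/q, (v+1)/q)` has `1 ≤ nr (t β) m` for all `t ∈ T`. On such a cell every `β'` has
`nr (t β') ≥ 1/m - H/q ≥ 1/(2m)`, so `|F| ≤ q ν`. If the `d`-th point `β = r d α` fails for all
`q^j T`, `j < K`, then all `K` base-`q` digits of `⌊q^K (fractional part of β)⌋` lie in `F`:
at most `|F|^K ≤ (q ν)^K` cells of length `q^{-K}`. For each cell and each integer part `i < r`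
(`r d α < r`) the number of `d` is at most `1/(r α q^K) + 1 ≤ 2/(r α q^K)`. Total `(2/α) ν^K`.
-/

open Finset Filter MeasureTheory

namespace Pool.Agent.GLI

theorem nr_sub_le (x y : ℝ) : nr x ≤ nr y + |x - y| := by
  unfold nr
  calc |x - round x| ≤ |x - round y| := round_le x (round y)
    _ = |(y - round y) + (x - y)| := by congr 1; ring
    _ ≤ |y - round y| + |x - y| := abs_add_le _ _

theorem nr_sub_int (x : ℝ) (n : ℤ) : nr (x - n) = nr x := by
  unfold nr
  rw [round_sub_intCast]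
  push_cast
  congr 1
  ring

/-- Naturals below `r q^K` whose `K` lowest base `q` digits lie in `F`. -/
theorem digits_card (q r : ℕ) (hq : 1 ≤ q) (F : Finset ℕ) (K : ℕ) :
    ((range (r * q ^ K)).filter fun n => ∀ i < K, (n / q ^ i) % q ∈ F).card ≤
      r * F.card ^ K := by
  induction K with
  | zero =>
    refine le_trans (Finset.card_filter_le _ _) ?_
    simp
  | succ K ih =>
    have h1 : ((range (r * q ^ (K + 1))).filter fun n => ∀ i < K + 1, (n / q ^ i) % q ∈ F).card ≤
        (((range (r * q ^ K)).filter fun n => ∀ i < K, (n / q ^ i) % q ∈ F) ×ˢ F).card := by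
      apply Finset.card_le_card_of_injOn (fun n => (n / q, n % q))
      · intro n hn
        rw [Finset.mem_coe, Finset.mem_filter, Finset.mem_range] at hn
        rw [Finset.mem_coe, Finset.mem_product, Finset.mem_filter, Finset.mem_range]
        refine ⟨⟨?_, ?_⟩, ?_⟩
        · apply Nat.div_lt_of_lt_mul
          calc n < r * q ^ (K + 1) := hn.1
            _ = q * (r * q ^ K) := by ring
        · intro i hi
          have h2 := hn.2 (i + 1) (by omega)
          rw [Nat.div_div_eq_div_mul]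
          rwa [pow_succ, Nat.mul_comm] at h2
        · have h2 := hn.2 0 (by omega)
          simpa using h2
      · intro a _ b _ hab
        simp only [Prod.mk.injEq] at hab
        rw [← Nat.div_add_mod a q, ← Nat.div_add_mod b q, hab.1, hab.2]
    refine le_trans h1 ?_
    rw [Finset.card_product, pow_succ, ← mul_assoc]
    exact Nat.mul_le_mul_right _ ih

/-- Number of `d` with a given value of `⌊c d⌋`, `0 < c ≤ 1`. -/
theorem floor_fibre (c : ℝ) (hc : 0 < c) (hc1 : c ≤ 1) (M n : ℕ) :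
    (((range M).filter fun d : ℕ => ⌊c * d⌋₊ = n).card : ℝ) ≤ 2 / c := by
  have hsub : ((range M).filter fun d : ℕ => ⌊c * d⌋₊ = n) ⊆ Ico ⌈(n : ℝ) / c⌉₊ ⌈((n : ℝ) + 1) / c⌉₊ := by
    intro d hd
    rw [Finset.mem_filter] at hd
    have h1 : (n : ℝ) ≤ c * d := by
      rw [← hd.2]
      exact Nat.floor_le (by positivity)
    have h2 : c * d < (n : ℝ) + 1 := by
      rw [← hd.2]
      exact Nat.lt_floor_add_one _
    rw [Finset.mem_Ico]
    refine ⟨Nat.ceil_le.mpr ?_, Nat.lt_ceil.mpr ?_⟩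
    · rw [div_le_iff₀ hc]; linarith
    · rw [lt_div_iff₀ hc]; linarith
  have h1 := Finset.card_le_card hsub
  rw [Nat.card_Ico] at h1
  have h2 : ((⌈((n : ℝ) + 1) / c⌉₊ - ⌈(n : ℝ) / c⌉₊ : ℕ) : ℝ) ≤ 1 / c + 1 := by
    have h3 : ⌈(n : ℝ) / c⌉₊ ≤ ⌈((n : ℝ) + 1) / c⌉₊ := by
      apply Nat.ceil_mono
      apply div_le_div_of_nonneg_right _ hc.le
      linarith
    rw [Nat.cast_sub h3]
    have h4 : (⌈((n : ℝ) + 1) / c⌉₊ : ℝ) < ((n : ℝ) + 1) / c + 1 :=
      Nat.ceil_lt_add_one (by positivity)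
    have h5 : (n : ℝ) / c ≤ (⌈(n : ℝ) / c⌉₊ : ℝ) := Nat.le_ceil _
    have h6 : ((n : ℝ) + 1) / c = n / c + 1 / c := by ring
    linarith
  have h7 : (1 : ℝ) ≤ 1 / c := by
    rw [le_div_iff₀ hc]; linarith
  have h8 : (2 : ℝ) / c = 1 / c + 1 / c := by ring
  calc (((range M).filter fun d : ℕ => ⌊c * d⌋₊ = n).card : ℝ)
      ≤ ((⌈((n : ℝ) + 1) / c⌉₊ - ⌈(n : ℝ) / c⌉₊ : ℕ) : ℝ) := by exact_mod_cast h1
    _ ≤ 2 / c := by linarith

open Classical in
/-- The bad digits. -/
noncomputable def badDig (T : Finset ℕ) (m q : ℕ) : Finset ℕ :=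
  (range q).filter fun v => ∃ β : ℝ, (v : ℝ) ≤ q * β ∧ q * β < v + 1 ∧
    ∀ t ∈ T, 1 ≤ nr (t * β) * m

theorem badDig_card (T : Finset ℕ) (H m q : ℕ) (ν : ℝ) (hT : ∀ t ∈ T, 1 ≤ t ∧ t ≤ H)
    (hm : 1 ≤ m) (hq : 2 * m * H ≤ q) (hq1 : 1 ≤ q)
    (hν : (volume {β : ℝ | β ∈ Set.Ico (0 : ℝ) 1 ∧ ∀ t ∈ T, 1 / (2 * m) ≤ nr (t * β)}).toReal ≤ ν) :
    ((badDig T m q).card : ℝ) / q ≤ ν := by
  classical
  have hq0 : (0 : ℝ) < q := by exact_mod_cast hq1
  have hm0 : (0 : ℝ) < m := by exact_mod_cast hm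
  set A := {β : ℝ | β ∈ Set.Ico (0 : ℝ) 1 ∧ ∀ t ∈ T, 1 / (2 * m) ≤ nr (t * β)} with hA
  have hsub : (⋃ v ∈ badDig T m q, Set.Ico ((v : ℝ) / q) (((v : ℝ) + 1) / q)) ⊆ A := by
    intro β hβ
    simp only [Set.mem_iUnion, Set.mem_Ico] at hβ
    obtain ⟨v, hv, hβ1, hβ2⟩ := hβ
    simp only [badDig, Finset.mem_filter, Finset.mem_range] at hv
    obtain ⟨hvq, β', h1, h2, h3⟩ := hv
    have hvq' : (v : ℝ) + 1 ≤ q := by exact_mod_cast hvq
    rw [div_le_iff₀ hq0] at hβ1
    rw [lt_div_iff₀ hq0] at hβ2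
    refine ⟨⟨?_, ?_⟩, ?_⟩
    · have : (0 : ℝ) ≤ v := Nat.cast_nonneg v
      by_contra hneg
      push Not at hneg
      nlinarith
    · nlinarith
    · intro t ht
      have h4 := h3 t ht
      have h5 := nr_sub_le (t * β') (t * β)
      have h6 : |(t : ℝ) * β' - t * β| ≤ 1 / (2 * m) := by
        rw [← mul_sub, abs_mul, Nat.abs_cast]
        have h7 : |β' - β| ≤ 1 / q := by
          rw [abs_le]
          have ha : (β' - β) * q ≤ 1 := by nlinarith
          have hb : -1 ≤ (β' - β) * q := by nlinarith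
          constructor
          · rw [neg_le_iff_add_nonneg, ← mul_le_mul_iff_left₀ hq0, zero_mul, add_mul,
              one_div_mul_cancel hq0.ne']
            linarith
          · rw [le_div_iff₀ hq0]
            exact ha
        have h8 : (t : ℝ) ≤ H := by exact_mod_cast (hT t ht).2
        have h9 : 2 * (m : ℝ) * H ≤ q := by exact_mod_cast hq
        calc (t : ℝ) * |β' - β| ≤ H * (1 / q) := by
              apply mul_le_mul h8 h7 (abs_nonneg _) (Nat.cast_nonneg _)
          _ ≤ 1 / (2 * m) := by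
              rw [mul_one_div, div_le_div_iff₀ hq0 (by positivity)]
              linarith
      have h10 : 1 / (m : ℝ) ≤ nr (t * β') := by
        rw [div_le_iff₀ hm0]
        exact h4
      have h11 : 1 / (m : ℝ) = 1 / (2 * m) + 1 / (2 * m) := by
        field_simp
        norm_num
      linarith
  have hfin : volume A ≠ ⊤ := by
    have h1 : A ⊆ Set.Ico (0 : ℝ) 1 := fun β hβ => hβ.1
    have h2 := measure_mono (μ := volume) h1
    rw [Real.volume_Ico] at h2
    exact ne_top_of_le_ne_top ENNReal.ofReal_ne_top h2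
  have hmeas : volume (⋃ v ∈ badDig T m q, Set.Ico ((v : ℝ) / q) (((v : ℝ) + 1) / q)) =
      ENNReal.ofReal ((badDig T m q).card / q) := by
    rw [measure_biUnion_finset]
    · have h1 : ∀ v ∈ badDig T m q,
          volume (Set.Ico ((v : ℝ) / q) (((v : ℝ) + 1) / q)) = ENNReal.ofReal (1 / q) := by
        intro v _
        rw [Real.volume_Ico]
        congr 1
        ring
      rw [Finset.sum_congr rfl h1, Finset.sum_const, nsmul_eq_mul,
        div_eq_mul_one_div ((badDig T m q).card : ℝ) (q : ℝ),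
        ENNReal.ofReal_mul (Nat.cast_nonneg _), ENNReal.ofReal_natCast]
    · intro v _ w _ hvw
      rw [Function.onFun, Set.disjoint_left]
      intro β h1 h2
      rw [Set.mem_Ico, div_le_iff₀ hq0, lt_div_iff₀ hq0] at h1 h2
      apply hvw
      have h3 : (v : ℝ) < w + 1 := by linarith
      have h4 : (w : ℝ) < v + 1 := by linarith
      have h5 : v < w + 1 := by exact_mod_cast h3
      have h6 : w < v + 1 := by exact_mod_cast h4
      omega
    · intro v _
      exact measurableSet_Ico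
  have h1 := measure_mono (μ := volume) hsub
  rw [hmeas] at h1
  have h2 := ENNReal.toReal_mono hfin h1
  rw [ENNReal.toReal_ofReal (by positivity)] at h2
  linarith

open Classical in
theorem block (T : Finset ℕ) (H m q K r : ℕ) (α ν : ℝ) (hT : ∀ t ∈ T, 1 ≤ t ∧ t ≤ H)
    (hm : 1 ≤ m) (hq : 2 * m * H ≤ q) (hq1 : 1 ≤ q) (hK : 1 ≤ K) (hr : 1 ≤ r) (hα : 0 < α)
    (hrα : r * α * (q : ℝ) ^ K ≤ 1)
    (hν : (volume {β : ℝ | β ∈ Set.Ico (0 : ℝ) 1 ∧ ∀ t ∈ T, 1 / (2 * m) ≤ nr (t * β)}).toReal ≤ ν) :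
    (((range ⌈1 / α⌉₊).filter fun d : ℕ => ∀ j < K, ∀ t ∈ T,
      1 ≤ nr ((q : ℝ) ^ j * t * (r * (d * α))) * m).card : ℝ) ≤ 2 / α * ν ^ K := by
  have hq0 : (0 : ℝ) < q := by exact_mod_cast hq1
  have hr0 : (0 : ℝ) < r := by exact_mod_cast hr
  have hF := badDig_card T H m q ν hT hm hq hq1 hν
  set F := badDig T m q with hFdef
  set c : ℝ := q ^ K * (r * α) with hc
  have hc0 : 0 < c := by positivity
  have hc1 : c ≤ 1 := by rw [hc]; linarith
  set D := (range ⌈1 / α⌉₊).filter fun d : ℕ => ∀ j < K, ∀ t ∈ T,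
      1 ≤ nr ((q : ℝ) ^ j * t * (r * (d * α))) * m with hD
  set G := (range (r * q ^ K)).filter fun n => ∀ i < K, (n / q ^ i) % q ∈ F with hG
  have hmaps : ∀ d ∈ D, ⌊c * d⌋₊ ∈ G := by
    intro d hd
    rw [hD, Finset.mem_filter, Finset.mem_range] at hd
    obtain ⟨hd1, hd2⟩ := hd
    have hdα : (d : ℝ) * α < 1 := by
      have := Nat.lt_ceil.mp hd1
      rwa [lt_div_iff₀ hα] at this
    have hcd : c * d = (q : ℝ) ^ K * (r * (d * α)) := by rw [hc]; ring
    rw [hG, Finset.mem_filter, Finset.mem_range]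
    constructor
    · rw [Nat.floor_lt (by positivity), hcd]
      push_cast
      have : (r : ℝ) * (d * α) < r := by nlinarith
      have h2 : (0 : ℝ) < (q : ℝ) ^ K := by positivity
      nlinarith
    · intro i hi
      -- j = K - 1 - i
      obtain ⟨j, hj⟩ : ∃ j, K = j + 1 + i := ⟨K - 1 - i, by omega⟩
      set β : ℝ := r * (d * α) with hβ
      have hβ0 : 0 ≤ β := by positivity
      have e1 : ⌊c * d⌋₊ / q ^ i = ⌊(q : ℝ) ^ (j + 1) * β⌋₊ := by
        rw [← Nat.cast_pow, ← Nat.floor_div_natCast] 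
        congr 1
        rw [hcd, hj]
        push_cast
        field_simp
        ring
      rw [e1]
      set x : ℝ := (q : ℝ) ^ j * β with hx
      have hx0 : 0 ≤ x := by positivity
      have e2 : (q : ℝ) ^ (j + 1) * β = q * x := by rw [hx]; ring
      rw [e2]
      -- fractional part
      set k := ⌊x⌋₊ with hk
      have hk1 : (k : ℝ) ≤ x := Nat.floor_le hx0
      have hk2 : x < k + 1 := Nat.lt_floor_add_one x
      set n := ⌊(q : ℝ) * x⌋₊ with hn
      have hn1 : (n : ℝ) ≤ q * x := Nat.floor_le (by positivity)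
      have hn2 : (q : ℝ) * x < n + 1 := Nat.lt_floor_add_one _
      have h1 : q * k ≤ n := by
        apply Nat.le_floor
        push_cast
        nlinarith
      have h2 : n < q * k + q := by
        rw [hn, Nat.floor_lt (by positivity)]
        push_cast
        nlinarith
      have h3 : n % q = n - q * k := by
        have h4 : n = q * k + (n - q * k) := by omega
        conv_lhs => rw [h4]
        rw [Nat.mul_add_mod]
        exact Nat.mod_eq_of_lt (by omega)
      rw [h3, hFdef, badDig, Finset.mem_filter, Finset.mem_range]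
      refine ⟨by omega, x - k, ?_, ?_, ?_⟩
      · rw [Nat.cast_sub h1]
        push_cast
        nlinarith
      · rw [Nat.cast_sub h1]
        push_cast
        nlinarith
      · intro t ht
        have h5 := hd2 j (by omega) t ht
        have h6 : (q : ℝ) ^ j * t * (r * (d * α)) = t * x := by rw [hx, hβ]; ring
        rw [h6] at h5
        have h7 : (t : ℝ) * (x - k) = t * x - ((t * k : ℕ) : ℤ) := by
          push_cast
          ring
        rw [h7, nr_sub_int]
        exact h5
  have hcardG : (G.card : ℝ) ≤ r * (F.card : ℝ) ^ K := by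
    have := digits_card q r hq1 F K
    exact_mod_cast this
  have hcardD : (D.card : ℝ) ≤ G.card * (2 / c) := by
    rw [Finset.card_eq_sum_card_fiberwise hmaps]
    push_cast
    rw [← nsmul_eq_mul, ← Finset.sum_const]
    apply Finset.sum_le_sum
    intro n _
    refine le_trans ?_ (floor_fibre c hc0 hc1 ⌈1 / α⌉₊ n)
    have : (D.filter fun d : ℕ => ⌊c * d⌋₊ = n).card ≤
        ((range ⌈1 / α⌉₊).filter fun d : ℕ => ⌊c * d⌋₊ = n).card := by
      apply Finset.card_le_card
      intro d hd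
      rw [Finset.mem_filter] at hd ⊢
      exact ⟨(Finset.mem_filter.mp hd.1).1, hd.2⟩
    exact_mod_cast this
  calc (D.card : ℝ) ≤ G.card * (2 / c) := hcardD
    _ ≤ (r * (F.card : ℝ) ^ K) * (2 / c) := mul_le_mul_of_nonneg_right hcardG (by positivity)
    _ = 2 / α * ((F.card : ℝ) / q) ^ K := by
        rw [hc, div_pow]
        field_simp
    _ ≤ 2 / α * ν ^ K := by
        apply mul_le_mul_of_nonneg_left _ (by positivity)
        exact pow_le_pow_left₀ (by positivity) hF K

end Pool.Agent.GLI
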