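import Pool.Agent.GLI.Defs

set_option autoImplicit false

/-!
Module CSCount. `f(z) = #{(p, k) ∈ D : p ∣ z + k N}`. `|D| τ ≤ ∑_{z ∈ Z} f(z)`, Cauchy-Schwarz, and
`∑_{z < N} f(z)² = ∑_{(p,k),(p',k') ∈ D} #{z < N : p ∣ z + k N, p' ∣ z + k' N}`: equal pairs `≤ N/p + 1 ≤ 2N/P + 1`; `p = p'`, `k ≠ k'`:
`p ∣ (k - k') N`, impossible (`p ∤ N`, `|k - k'| < M ≤ p`); `p ≠ p'`: one class mod `p p'`: `≤ N/(p p') + 1 ≤ 4N/P² + 1`.
-/

open Finset Filter

namespace Pool.Agent.GLI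

theorem csc_class (N m : ℕ) (_hm : 0 < m) (S : Finset ℕ) (hS : S ⊆ range N)
    (h : ∀ x ∈ S, ∀ y ∈ S, x ≡ y [MOD m]) : (S.card : ℝ) ≤ N / m + 1 := by
  have h1 : S.card ≤ (range (N / m + 1)).card := by
    apply Finset.card_le_card_of_injOn (fun z => z / m)
    · intro z hz
      have hz' : z < N := Finset.mem_range.mp (hS hz)
      simp only [Finset.coe_range, Set.mem_Iio]
      exact Nat.lt_succ_of_le (Nat.div_le_div_right hz'.le)
    · intro x hx y hy hxy
      have h2 : x % m = y % m := h x hx y hy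
      simp only at hxy
      rw [← Nat.div_add_mod x m, ← Nat.div_add_mod y m, hxy, h2]
  rw [Finset.card_range] at h1
  have h3 : ((N / m : ℕ) : ℝ) ≤ (N : ℝ) / m := Nat.cast_div_le
  have h4 : (S.card : ℝ) ≤ ((N / m + 1 : ℕ) : ℝ) := by exact_mod_cast h1
  push_cast at h4
  linarith

theorem csc_modEq {p x y c : ℕ} (hx : p ∣ x + c) (hy : p ∣ y + c) : x ≡ y [MOD p] := by
  have h1 : x + c ≡ y + c [MOD p] :=
    ((Nat.modEq_zero_iff_dvd.mpr hx).trans (Nat.modEq_zero_iff_dvd.mpr hy).symm)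
  exact Nat.ModEq.add_right_cancel' c h1

open Classical in
theorem cs_count (N P M : ℕ) (hP : 1 ≤ P) (Z : Finset ℕ) (hZ : Z ⊆ range N)
    (D : Finset (ℕ × ℕ)) (hD : ∀ w ∈ D, w.1.Prime ∧ ¬ w.1 ∣ N ∧ P < 2 * w.1 ∧ w.1 ≤ P ∧
      M ≤ w.1 ∧ w.2 < M) (τ : ℝ) (hτ : 0 ≤ τ)
    (h : ∀ w ∈ D, τ ≤ ((Z.filter fun z => w.1 ∣ z + w.2 * N).card : ℝ)) :
    (D.card * τ) ^ 2 ≤ Z.card * (D.card * (2 * N / P + 1) +
      (D.card : ℝ) ^ 2 * (4 * N / (P : ℝ) ^ 2 + 1)) := by
  have hP0 : (0 : ℝ) < P := by exact_mod_cast hP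
  set f : ℕ → ℝ := fun z => ∑ w ∈ D, (if w.1 ∣ z + w.2 * N then (1 : ℝ) else 0) with hf
  have hf0 : ∀ z, 0 ≤ f z := fun z => Finset.sum_nonneg fun w _ => by split_ifs <;> norm_num
  -- the first moment
  have h1 : D.card * τ ≤ ∑ z ∈ Z, f z := by
    rw [hf, Finset.sum_comm]
    calc (D.card : ℝ) * τ = ∑ _w ∈ D, τ := by rw [Finset.sum_const, nsmul_eq_mul]
      _ ≤ _ := by
        apply Finset.sum_le_sum
        intro w hw
        refine (h w hw).trans (le_of_eq ?_)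
        rw [Finset.card_filter]
        push_cast
        rfl
  -- Cauchy-Schwarz
  have h2 : (∑ z ∈ Z, f z) ^ 2 ≤ Z.card * ∑ z ∈ Z, f z ^ 2 := sq_sum_le_card_mul_sum_sq
  have h3 : ∑ z ∈ Z, f z ^ 2 ≤ ∑ z ∈ range N, f z ^ 2 :=
    Finset.sum_le_sum_of_subset_of_nonneg hZ fun z _ _ => sq_nonneg _
  -- the second moment
  have h4 : ∑ z ∈ range N, f z ^ 2 = ∑ w ∈ D, ∑ w' ∈ D,
      (((range N).filter fun z => w.1 ∣ z + w.2 * N ∧ w'.1 ∣ z + w'.2 * N).card : ℝ) := by
    have e1 : ∀ z ∈ range N, f z ^ 2 = ∑ w ∈ D, ∑ w' ∈ D,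
        (if w.1 ∣ z + w.2 * N ∧ w'.1 ∣ z + w'.2 * N then (1 : ℝ) else 0) := by
      intro z _
      rw [sq, hf, Finset.sum_mul_sum]
      refine Finset.sum_congr rfl fun w _ => Finset.sum_congr rfl fun w' _ => ?_
      by_cases ha : w.1 ∣ z + w.2 * N <;> by_cases hb : w'.1 ∣ z + w'.2 * N <;> simp [ha, hb]
    rw [Finset.sum_congr rfl e1, Finset.sum_comm]
    refine Finset.sum_congr rfl fun w _ => ?_
    rw [Finset.sum_comm]
    refine Finset.sum_congr rfl fun w' _ => ?_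
    rw [Finset.card_filter]
    push_cast
    rfl
  have h5 : ∀ w ∈ D, ∀ w' ∈ D,
      (((range N).filter fun z => w.1 ∣ z + w.2 * N ∧ w'.1 ∣ z + w'.2 * N).card : ℝ) ≤
      (if w = w' then (2 * N / P + 1 : ℝ) else 0) + (4 * N / (P : ℝ) ^ 2 + 1) := by
    intro w hw w' hw'
    obtain ⟨hp, hpN, hpP, _, hpM, hkM⟩ := hD w hw
    obtain ⟨hp', hpN', hpP', _, hpM', hkM'⟩ := hD w' hw'
    have hpos : (0 : ℝ) ≤ 4 * N / (P : ℝ) ^ 2 + 1 := by positivity
    have hpr : (0 : ℝ) < w.1 := by exact_mod_cast hp.pos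
    have hpr' : (0 : ℝ) < w'.1 := by exact_mod_cast hp'.pos
    have hPr : (P : ℝ) < 2 * w.1 := by exact_mod_cast hpP
    have hPr' : (P : ℝ) < 2 * w'.1 := by exact_mod_cast hpP'
    by_cases hww : w = w'
    · subst hww
      rw [if_pos rfl]
      have h6 := csc_class N w.1 hp.pos
        ((range N).filter fun z => w.1 ∣ z + w.2 * N ∧ w.1 ∣ z + w.2 * N) (Finset.filter_subset _ _)
        (fun x hx y hy => csc_modEq (Finset.mem_filter.mp hx).2.1 (Finset.mem_filter.mp hy).2.1)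
      have h7 : (N : ℝ) / w.1 ≤ 2 * N / P := by
        rw [div_le_div_iff₀ hpr hP0]
        have : (0 : ℝ) ≤ N := by positivity
        nlinarith
      linarith
    · rw [if_neg hww, zero_add]
      by_cases hpp : w.1 = w'.1
      · -- same prime: empty
        have h6 : ((range N).filter fun z => w.1 ∣ z + w.2 * N ∧ w'.1 ∣ z + w'.2 * N) = ∅ := by
          apply Finset.filter_eq_empty_iff.mpr
          rintro z _ ⟨ha, hb⟩
          rw [← hpp] at hb
          have hk : w.2 ≠ w'.2 := fun hk => hww (Prod.ext hpp hk)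
          have hd : (w.1 : ℤ) ∣ ((w.2 : ℤ) - w'.2) * N := by
            have e1 : (w.1 : ℤ) ∣ (z : ℤ) + w.2 * N := by exact_mod_cast ha
            have e2 : (w.1 : ℤ) ∣ (z : ℤ) + w'.2 * N := by exact_mod_cast hb
            have e3 := dvd_sub e1 e2
            have e4 : ((w.2 : ℤ) - w'.2) * N = (z : ℤ) + w.2 * N - (z + w'.2 * N) := by ring
            rw [e4]
            exact e3
          have hpi : Prime (w.1 : ℤ) := Nat.prime_iff_prime_int.mp hp
          rcases hpi.dvd_or_dvd hd with hd1 | hd1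
          · have h8 : ((w.2 : ℤ) - w'.2) = 0 := by
              apply Int.eq_zero_of_abs_lt_dvd hd1
              rw [abs_lt]
              constructor <;> omega
            exact hk (by omega)
          · exact hpN (by exact_mod_cast hd1)
        rw [h6]
        simpa using hpos
      · have hcop : Nat.Coprime w.1 w'.1 := (Nat.coprime_primes hp hp').mpr hpp
        have h6 := csc_class N (w.1 * w'.1) (Nat.mul_pos hp.pos hp'.pos)
          ((range N).filter fun z => w.1 ∣ z + w.2 * N ∧ w'.1 ∣ z + w'.2 * N)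
          (Finset.filter_subset _ _) (fun x hx y hy => by
            have hx' := (Finset.mem_filter.mp hx).2
            have hy' := (Finset.mem_filter.mp hy).2
            exact (Nat.modEq_and_modEq_iff_modEq_mul hcop).mp
              ⟨csc_modEq hx'.1 hy'.1, csc_modEq hx'.2 hy'.2⟩)
        refine h6.trans ?_
        have h7 : (N : ℝ) / ((w.1 * w'.1 : ℕ) : ℝ) ≤ 4 * N / (P : ℝ) ^ 2 := by
          push_cast
          rw [div_le_div_iff₀ (by positivity) (by positivity)]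
          have h8 : (P : ℝ) ^ 2 ≤ 4 * (w.1 * w'.1) := by nlinarith
          have : (0 : ℝ) ≤ N := by positivity
          nlinarith
        linarith
  have h6 : ∑ z ∈ range N, f z ^ 2 ≤ D.card * (2 * N / P + 1) +
      (D.card : ℝ) ^ 2 * (4 * N / (P : ℝ) ^ 2 + 1) := by
    rw [h4]
    refine (Finset.sum_le_sum fun w hw => Finset.sum_le_sum fun w' hw' => h5 w hw w' hw').trans ?_
    refine le_of_eq ?_
    simp only [Finset.sum_add_distrib, Finset.sum_ite_eq, Finset.sum_const, nsmul_eq_mul]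
    rw [Finset.sum_congr rfl (fun w hw => if_pos hw), Finset.sum_const, nsmul_eq_mul]
    ring
  have h7 : (0 : ℝ) ≤ Z.card := by positivity
  calc (D.card * τ) ^ 2 ≤ (∑ z ∈ Z, f z) ^ 2 := by
        apply pow_le_pow_left₀ (by positivity) h1
    _ ≤ Z.card * ∑ z ∈ Z, f z ^ 2 := h2
    _ ≤ Z.card * (D.card * (2 * N / P + 1) +
      (D.card : ℝ) ^ 2 * (4 * N / (P : ℝ) ^ 2 + 1)) :=
        mul_le_mul_of_nonneg_left (h3.trans h6) h7

end Pool.Agent.GLI
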