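import Pool.Agent.GLI.Spec

set_option autoImplicit false

/-!
Module CardLarge. `∑_χ |∑_{p ∈ Q} χ p|^(2k) = φ(N) #{(u, v) ∈ Q^k × Q^k : ∏ u ≡ ∏ v mod N}` (orthogonality) and the
products are `< N`, so equal, so `v` is a permutation of `u`: at most `k! |Q|^k` pairs.
-/

open Finset Filter

namespace Pool.Agent.GLI

/-- Fibres of the product map on tuples of primes with small products. -/
theorem card_prod_fibre (N : ℕ) [NeZero N] (Q : Finset ℕ) (P k : ℕ)
    (hQ : ∀ p ∈ Q, p.Prime ∧ ¬ p ∣ N ∧ p ≤ P) (hP : P ^ k < N) (x : ZMod N) :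
    ((Fintype.piFinset fun _ : Fin k => Q).filter
      fun u => ((∏ i, u i : ℕ) : ZMod N) = x).card ≤ k.factorial := by
  classical
  rcases Finset.eq_empty_or_nonempty ((Fintype.piFinset fun _ : Fin k => Q).filter
      fun u => ((∏ i, u i : ℕ) : ZMod N) = x) with h | ⟨u0, hu0⟩
  · rw [h]
    simp
  · rw [Finset.mem_filter, Fintype.mem_piFinset] at hu0
    have hprod : ∀ u : Fin k → ℕ, (∀ i, u i ∈ Q) → ∏ i, u i < N := by
      intro u hu
      calc ∏ i, u i ≤ ∏ _i : Fin k, P :=
            Finset.prod_le_prod' fun i _ => (hQ (u i) (hu i)).2.2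
        _ = P ^ k := by rw [Finset.prod_const, Finset.card_univ, Fintype.card_fin]
        _ < N := hP
    have hlen : (List.ofFn u0).permutations.length = k.factorial := by
      rw [List.length_permutations, List.length_ofFn]
    rw [← hlen]
    refine le_trans ?_ (List.toFinset_card_le _)
    apply Finset.card_le_card_of_injOn (fun u => List.ofFn u)
    · intro u hu
      rw [Finset.mem_coe, Finset.mem_filter, Fintype.mem_piFinset] at hu
      rw [Finset.mem_coe, List.mem_toFinset, List.mem_permutations]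
      have he : ∏ i, u i = ∏ i, u0 i := by
        have h1 := hu.2.trans hu0.2.symm
        have h2 := congrArg ZMod.val h1
        rwa [ZMod.val_cast_of_lt (hprod u hu.1), ZMod.val_cast_of_lt (hprod u0 hu0.1)] at h2
      have p1 : (List.ofFn u).Perm (Nat.primeFactorsList (∏ i, u0 i)) := by
        apply Nat.primeFactorsList_unique
        · rw [List.prod_ofFn, he]
        · intro p hp
          rw [List.mem_ofFn] at hp
          obtain ⟨i, rfl⟩ := hp
          exact (hQ _ (hu.1 i)).1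
      have p2 : (List.ofFn u0).Perm (Nat.primeFactorsList (∏ i, u0 i)) := by
        apply Nat.primeFactorsList_unique
        · rw [List.prod_ofFn]
        · intro p hp
          rw [List.mem_ofFn] at hp
          obtain ⟨i, rfl⟩ := hp
          exact (hQ _ (hu0.1 i)).1
      exact p1.trans p2.symm
    · intro u _ v _ huv
      exact List.ofFn_injective huv

open Classical in
theorem card_large (N : ℕ) [NeZero N] (Q : Finset ℕ) (P k : ℕ)
    (hQ : ∀ p ∈ Q, p.Prime ∧ ¬ p ∣ N ∧ p ≤ P) (hP : P ^ k < N) :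
    (((univ : Finset (DirichletCharacter ℂ N)).filter fun χ =>
      (Q.card : ℝ) / 2 ≤ ‖∑ p ∈ Q, χ (p : ZMod N)‖).card : ℝ) * ((Q.card : ℝ) / 2) ^ (2 * k) ≤
      N.totient * (k.factorial * (Q.card : ℝ) ^ k) := by
  set T := Fintype.piFinset fun _ : Fin k => Q with hT
  set c : ZMod N → ℕ := fun x => (T.filter fun u => ((∏ i, u i : ℕ) : ZMod N) = x).card with hc
  have hcle : ∀ x, c x ≤ k.factorial := fun x => card_prod_fibre N Q P k hQ hP x
  have hcsum : ∑ x : ZMod N, c x = Q.card ^ k := by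
    have h1 : T.card = Q.card ^ k := by
      rw [hT, Fintype.card_piFinset_const]
    rw [← h1]
    exact (Finset.card_eq_sum_card_fiberwise fun _ _ => Finset.mem_univ _).symm
  have h1 := parseval_zmod N (fun x => (c x : ℂ))
  have h2 : ∀ χ : DirichletCharacter ℂ N,
      ‖∑ x : ZMod N, (starRingEnd ℂ) (χ x) * (c x : ℂ)‖ = ‖∑ p ∈ Q, χ (p : ZMod N)‖ ^ k := by
    intro χ
    have h3 : ∑ x : ZMod N, (starRingEnd ℂ) (χ x) * (c x : ℂ) =
        (starRingEnd ℂ) ((∑ p ∈ Q, χ (p : ZMod N)) ^ k) := by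
      rw [Finset.sum_pow', map_sum]
      have h4 : ∀ u ∈ T, (starRingEnd ℂ) (∏ i, χ ((u i : ℕ) : ZMod N)) =
          (starRingEnd ℂ) (χ ((∏ i, u i : ℕ) : ZMod N)) := by
        intro u _
        rw [Nat.cast_prod]
        have h7 : χ (∏ i, ((u i : ℕ) : ZMod N)) = ∏ i, χ ((u i : ℕ) : ZMod N) := map_prod χ _ _
        rw [h7]
      rw [Finset.sum_congr rfl h4,
        ← Finset.sum_fiberwise_of_maps_to (t := univ) (g := fun u : Fin k → ℕ => ((∏ i, u i : ℕ) : ZMod N))
          (fun _ _ => Finset.mem_univ _)]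
      apply Finset.sum_congr rfl
      intro x _
      rw [Finset.sum_congr rfl fun u hu => by rw [(Finset.mem_filter.mp hu).2], Finset.sum_const,
        nsmul_eq_mul]
      ring
    rw [h3, RCLike.norm_conj, norm_pow]
  have h5 : ∑ χ : DirichletCharacter ℂ N, ‖∑ p ∈ Q, χ (p : ZMod N)‖ ^ (2 * k) ≤
      N.totient * (k.factorial * (Q.card : ℝ) ^ k) := by
    have h6 : ∑ χ : DirichletCharacter ℂ N, ‖∑ p ∈ Q, χ (p : ZMod N)‖ ^ (2 * k) =
        N.totient * ∑ x ∈ (univ : Finset (ZMod N)).filter (fun x => IsUnit x),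
          ‖(c x : ℂ)‖ ^ 2 := by
      rw [← h1]
      apply Finset.sum_congr rfl
      intro χ _
      rw [h2, ← pow_mul, Nat.mul_comm]
    rw [h6]
    apply mul_le_mul_of_nonneg_left _ (Nat.cast_nonneg _)
    calc ∑ x ∈ (univ : Finset (ZMod N)).filter (fun x => IsUnit x), ‖(c x : ℂ)‖ ^ 2
        ≤ ∑ x : ZMod N, ‖(c x : ℂ)‖ ^ 2 :=
          Finset.sum_le_sum_of_subset_of_nonneg (Finset.filter_subset _ _)
            fun _ _ _ => by positivity
      _ ≤ ∑ x : ZMod N, (k.factorial : ℝ) * (c x : ℝ) := by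
          apply Finset.sum_le_sum
          intro x _
          rw [Complex.norm_natCast, sq]
          exact mul_le_mul_of_nonneg_right (by exact_mod_cast hcle x) (Nat.cast_nonneg _)
      _ = k.factorial * (Q.card : ℝ) ^ k := by
          rw [← Finset.mul_sum]
          congr 1
          exact_mod_cast hcsum
  refine le_trans ?_ h5
  calc (((univ : Finset (DirichletCharacter ℂ N)).filter fun χ =>
        (Q.card : ℝ) / 2 ≤ ‖∑ p ∈ Q, χ (p : ZMod N)‖).card : ℝ) * ((Q.card : ℝ) / 2) ^ (2 * k)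
      = ∑ _χ ∈ (univ : Finset (DirichletCharacter ℂ N)).filter fun χ =>
        (Q.card : ℝ) / 2 ≤ ‖∑ p ∈ Q, χ (p : ZMod N)‖, ((Q.card : ℝ) / 2) ^ (2 * k) := by
        rw [Finset.sum_const, nsmul_eq_mul]
    _ ≤ ∑ χ ∈ (univ : Finset (DirichletCharacter ℂ N)).filter fun χ =>
        (Q.card : ℝ) / 2 ≤ ‖∑ p ∈ Q, χ (p : ZMod N)‖, ‖∑ p ∈ Q, χ (p : ZMod N)‖ ^ (2 * k) := by
        apply Finset.sum_le_sum
        intro χ hχ
        rw [Finset.mem_filter] at hχ
        exact pow_le_pow_left₀ (by positivity) hχ.2 _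
    _ ≤ ∑ χ : DirichletCharacter ℂ N, ‖∑ p ∈ Q, χ (p : ZMod N)‖ ^ (2 * k) :=
        Finset.sum_le_sum_of_subset_of_nonneg (Finset.filter_subset _ _)
          fun _ _ _ => by positivity

end Pool.Agent.GLI
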