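import Pool.Agent.GLI.Defs

set_option autoImplicit false

/-!
Module Cheb. From `Chebyshev.pi_ge` (`π(x) ≥ (0.69 - o(1)) x/log x`) and
`Chebyshev.eventually_primeCounting_le` (`π(x) ≤ (1.39 + o(1)) x/log x`):
`π(x) - π(x/4) ≥ (0.69 - 0.35 - o(1)) x/log x`. `win` versions: at most `log N/log 2` primes divide `N`,
which is `≤ P/(100 log P)` for `P ≥ (log N)^2`, `N` large.
-/

open Finset Filter

namespace Pool.Agent.GLI

theorem cheb_card_Icc (P : ℕ) : ((Icc 1 P).filter Nat.Prime).card = Nat.primeCounting P := by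
  rw [Nat.primeCounting, Nat.primeCounting', Nat.count_eq_card_filter_range]
  congr 1
  ext p
  simp only [mem_filter, mem_Icc, mem_range]
  constructor
  · rintro ⟨⟨h1, h2⟩, h3⟩
    exact ⟨by omega, h3⟩
  · rintro ⟨h1, h3⟩
    exact ⟨⟨h3.one_lt.le, by omega⟩, h3⟩

theorem cheb_split (P : ℕ) : ((Icc 1 P).filter Nat.Prime).card =
    ((Icc 1 (P / 4)).filter Nat.Prime).card + ((Ioc (P / 4) P).filter Nat.Prime).card := by
  rw [← card_union_of_disjoint]
  · congr 1
    ext p
    simp only [mem_filter, mem_Icc, mem_union, mem_Ioc]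
    constructor
    · rintro ⟨⟨h1, h2⟩, h3⟩
      by_cases h : p ≤ P / 4
      · exact Or.inl ⟨⟨h1, h⟩, h3⟩
      · exact Or.inr ⟨⟨by omega, h2⟩, h3⟩
    · rintro (⟨⟨h1, h2⟩, h3⟩ | ⟨⟨h1, h2⟩, h3⟩)
      · exact ⟨⟨h1, by omega⟩, h3⟩
      · exact ⟨⟨h3.one_lt.le, h2⟩, h3⟩
  · rw [Finset.disjoint_left]
    intro p hp hq
    simp only [mem_filter, mem_Icc, mem_Ioc] at hp hq
    omega

theorem cheb : ∃ P0 : ℕ, 2 ≤ P0 ∧ ∀ P : ℕ, P0 ≤ P →
    (P : ℝ) / (4 * Real.log P) ≤ ((Ioc (P / 4) P).filter Nat.Prime).card ∧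
    ((((Icc 1 P).filter Nat.Prime).card : ℝ) ≤ 2 * P / Real.log P) := by
  have hcast := tendsto_natCast_atTop_atTop (R := ℝ)
  have hlog : Tendsto (fun N : ℕ => Real.log N) atTop atTop :=
    Real.tendsto_log_atTop.comp hcast
  have hup := hcast.eventually (Chebyshev.eventually_primeCounting_le (ε := 1 / 100) (by norm_num))
  have hdiv : Tendsto (fun P : ℕ => P / 4) atTop atTop := Nat.tendsto_div_const_atTop (by norm_num)
  have hup4 := hdiv.eventually hup
  have hlogsmall : ∀ᶠ P : ℕ in atTop, Real.log ((P : ℝ) + 1) ≤ P / 100 := by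
    have h1 := Real.isLittleO_log_id_atTop.bound (c := 1 / 200) (by norm_num)
    have h2 : Tendsto (fun P : ℕ => (P : ℝ) + 1) atTop atTop :=
      tendsto_atTop_add_const_right _ _ hcast
    filter_upwards [h2.eventually h1, eventually_ge_atTop 1] with P hP hP1
    have hP2 : (1 : ℝ) ≤ P := by exact_mod_cast hP1
    rw [Real.norm_of_nonneg (Real.log_nonneg (by linarith)), id, Real.norm_of_nonneg (by linarith)] at hP
    linarith
  have hall := (hup.and (hup4.and (hlogsmall.and ((hlog.eventually_ge_atTop 400).and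
    (eventually_ge_atTop 100)))))
  obtain ⟨P0, hP0⟩ := eventually_atTop.1 hall
  refine ⟨max P0 2, le_max_right _ _, fun P hP => ?_⟩
  obtain ⟨h1, h2, h3, h4, h5⟩ := hP0 P ((le_max_left _ _).trans hP)
  rw [Nat.floor_natCast] at h1 h2
  have hPr : (100 : ℝ) ≤ P := by exact_mod_cast h5
  have hl0 : 0 < Real.log P := by linarith
  have hl2 := Real.log_two_gt_d9
  have hl2' := Real.log_two_lt_d9
  have hl4 : Real.log 4 = 2 * Real.log 2 := by
    rw [show (4 : ℝ) = 2 ^ 2 by norm_num, Real.log_pow]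
    push_cast
    ring
  constructor
  · have hge := Chebyshev.pi_ge P
    have hs := cheb_split P
    rw [cheb_card_Icc, cheb_card_Icc] at hs
    have hs' : (Nat.primeCounting P : ℝ) = Nat.primeCounting (P / 4) +
        ((Ioc (P / 4) P).filter Nat.Prime).card := by exact_mod_cast hs
    -- log (P/4) ≥ 0.99 log P
    have hq : (P : ℝ) / 5 ≤ ((P / 4 : ℕ) : ℝ) := by
      have h6 : P ≤ 4 * (P / 4) + 3 := by omega
      have h7 : (P : ℝ) ≤ 4 * ((P / 4 : ℕ) : ℝ) + 3 := by exact_mod_cast h6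
      linarith
    have hq' : ((P / 4 : ℕ) : ℝ) ≤ P / 4 := by
      have h6 : 4 * (P / 4) ≤ P := by omega
      have h7 : 4 * ((P / 4 : ℕ) : ℝ) ≤ P := by exact_mod_cast h6
      linarith
    have hlogq : 0.99 * Real.log P ≤ Real.log ((P / 4 : ℕ) : ℝ) := by
      have h6 : Real.log ((P : ℝ) / 5) ≤ Real.log ((P / 4 : ℕ) : ℝ) :=
        Real.log_le_log (by linarith) hq
      rw [Real.log_div (by linarith) (by norm_num)] at h6
      have h7 : Real.log 5 ≤ 4 := by
        have := Real.log_le_sub_one_of_pos (show (0 : ℝ) < 5 by norm_num)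
        linarith
      linarith
    have hlq0 : 0 < Real.log ((P / 4 : ℕ) : ℝ) := by nlinarith
    have hupper : (Nat.primeCounting (P / 4) : ℝ) ≤ 0.36 * P / Real.log P := by
      refine h2.trans ?_
      rw [div_le_div_iff₀ hlq0 hl0]
      have h8 : (Real.log 4 + 1 / 100) * ((P / 4 : ℕ) : ℝ) ≤ 1.4 * (P / 4) := by
        rw [hl4]
        apply mul_le_mul _ hq' (by positivity) (by norm_num)
        linarith
      calc (Real.log 4 + 1 / 100) * ((P / 4 : ℕ) : ℝ) * Real.log P
          ≤ 1.4 * (P / 4) * Real.log P := mul_le_mul_of_nonneg_right h8 hl0.le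
        _ ≤ 0.36 * P * (0.99 * Real.log P) := by nlinarith [mul_pos (by linarith : (0 : ℝ) < P) hl0]
        _ ≤ 0.36 * P * Real.log ((P / 4 : ℕ) : ℝ) :=
            mul_le_mul_of_nonneg_left hlogq (by linarith)
    have hlower : 0.62 * P / Real.log P ≤ (Nat.primeCounting P : ℝ) := by
      refine le_trans ?_ hge
      rw [div_le_div_iff_of_pos_right hl0]
      nlinarith
    have h9 : (P : ℝ) / (4 * Real.log P) = 0.25 * P / Real.log P := by
      field_simp
      norm_num
    rw [h9]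
    have h10 : 0.62 * P / Real.log P - 0.36 * P / Real.log P = 0.26 * P / Real.log P := by ring
    have h11 : 0.25 * P / Real.log P ≤ 0.26 * P / Real.log P := by
      rw [div_le_div_iff_of_pos_right hl0]
      linarith
    linarith
  · rw [cheb_card_Icc]
    refine h1.trans ?_
    rw [div_le_div_iff_of_pos_right hl0, hl4]
    nlinarith

theorem cheb_omega_log (N : ℕ) (hN : 1 ≤ N) : (N.primeFactors.card : ℝ) ≤ 2 * Real.log N := by
  have h1 : 2 ^ (N.primeFactors.card) ≤ N := by
    calc 2 ^ (N.primeFactors.card) = ∏ p ∈ N.primeFactors, 2 := by rw [prod_const]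
      _ ≤ ∏ p ∈ N.primeFactors, p := by
          apply Finset.prod_le_prod'
          intro p hp
          exact (Nat.prime_of_mem_primeFactors hp).two_le
      _ ≤ N := Nat.le_of_dvd hN (Nat.prod_primeFactors_dvd N)
  have h2 : (2 : ℝ) ^ (N.primeFactors.card) ≤ N := by exact_mod_cast h1
  have h3 := Real.log_le_log (by positivity) h2
  rw [Real.log_pow] at h3
  have h4 := Real.log_two_gt_d9
  have h5 : (0 : ℝ) ≤ N.primeFactors.card := by positivity
  nlinarith

/-- primes in `(U/2, U]` not dividing `N` -/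
theorem primes_cop : ∀ᶠ N : ℕ in atTop, ∀ U : ℕ, Real.log N ^ 2 ≤ (U : ℝ) →
    (U : ℝ) / (8 * Real.log U) ≤ ((Ioc (U / 4) U).filter fun p => p.Prime ∧ ¬ p ∣ N).card := by
  obtain ⟨P0, hP02, hP0⟩ := cheb
  have hcast := tendsto_natCast_atTop_atTop (R := ℝ)
  have hlog : Tendsto (fun N : ℕ => Real.log N) atTop atTop :=
    Real.tendsto_log_atTop.comp hcast
  -- for large U: 16 log U ≤ sqrt U
  obtain ⟨X0, hX0⟩ : ∃ X0 : ℝ, ∀ x : ℝ, X0 ≤ x → 16 * Real.log x ≤ Real.sqrt x := by
    have h1 := (isLittleO_log_rpow_atTop (r := 1 / 2) (by norm_num)).bound (c := 1 / 16) (by norm_num)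
    obtain ⟨X0, hX0⟩ := eventually_atTop.1 (h1.and (eventually_ge_atTop 1))
    refine ⟨X0, fun x hx => ?_⟩
    obtain ⟨h2, h3⟩ := hX0 x hx
    rw [Real.norm_of_nonneg (Real.log_nonneg h3), Real.norm_of_nonneg (by positivity),
      ← Real.sqrt_eq_rpow] at h2
    linarith
  filter_upwards [hlog.eventually_ge_atTop (max (P0 : ℝ) (max X0 2)), eventually_ge_atTop 1]
    with N hN hN1 U hU
  have hN0 : (P0 : ℝ) ≤ Real.log N := (le_max_left _ _).trans hN
  have hN2 : X0 ≤ Real.log N := ((le_max_left _ _).trans (le_max_right _ _)).trans hN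
  have hN3 : 2 ≤ Real.log N := ((le_max_right _ _).trans (le_max_right _ _)).trans hN
  have hself : Real.log N ≤ (U : ℝ) := by nlinarith
  have hU0 : P0 ≤ U := by
    have : (P0 : ℝ) ≤ U := hN0.trans hself
    exact_mod_cast this
  obtain ⟨h1, -⟩ := hP0 U hU0
  have h2 := hX0 U (hN2.trans hself)
  have hsq : Real.log N ≤ Real.sqrt U := Real.le_sqrt_of_sq_le hU
  have hU1 : (2 : ℝ) ≤ U := hN3.trans hself
  have hlU : 0 < Real.log U := Real.log_pos (by linarith)
  have hom := cheb_omega_log N hN1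
  -- omega ≤ U/(8 log U)
  have h3 : (N.primeFactors.card : ℝ) ≤ U / (8 * Real.log U) := by
    rw [le_div_iff₀ (by positivity)]
    have h4 : Real.sqrt U * Real.sqrt U = U := Real.mul_self_sqrt (by linarith)
    calc (N.primeFactors.card : ℝ) * (8 * Real.log U) ≤ (2 * Real.log N) * (8 * Real.log U) :=
          mul_le_mul_of_nonneg_right hom (by positivity)
      _ = Real.log N * (16 * Real.log U) := by ring
      _ ≤ Real.sqrt U * Real.sqrt U := mul_le_mul hsq h2 (by positivity) (by positivity)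
      _ = U := h4
  have h5 : ((Ioc (U / 4) U).filter Nat.Prime).card ≤
      ((Ioc (U / 4) U).filter fun p => p.Prime ∧ ¬ p ∣ N).card + N.primeFactors.card := by
    rw [← Nat.sub_le_iff_le_add]
    calc _ ≤ (((Ioc (U / 4) U).filter Nat.Prime) \ N.primeFactors).card :=
          le_card_sdiff _ _
      _ ≤ _ := by
          apply card_le_card
          intro p hp
          simp only [Finset.mem_sdiff, mem_filter, mem_Ioc, Nat.mem_primeFactors] at hp ⊢
          refine ⟨hp.1.1, hp.1.2, fun h => hp.2 ⟨hp.1.2, h, by omega⟩⟩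
  have h6 : (((Ioc (U / 4) U).filter Nat.Prime).card : ℝ) ≤
      (((Ioc (U / 4) U).filter fun p => p.Prime ∧ ¬ p ∣ N).card : ℝ) + N.primeFactors.card := by
    exact_mod_cast h5
  have h7 : (U : ℝ) / (4 * Real.log U) = U / (8 * Real.log U) + U / (8 * Real.log U) := by
    field_simp
    norm_num
  linarith

theorem win_facts : ∀ᶠ N : ℕ in atTop, ∀ P : ℕ, Real.log N ^ 2 ≤ (P : ℝ) →
    (P : ℝ) / (8 * Real.log P) ≤ (win N P).card ∧
    (P : ℝ) / (8 * Real.log P) ≤ (win N P ∩ win N (2 * P)).card ∧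
    ((win N P).card : ℝ) ≤ 2 * P / Real.log P := by
  obtain ⟨P0, hP02, hP0⟩ := cheb
  have hcast := tendsto_natCast_atTop_atTop (R := ℝ)
  have hlog : Tendsto (fun N : ℕ => Real.log N) atTop atTop :=
    Real.tendsto_log_atTop.comp hcast
  filter_upwards [primes_cop, hlog.eventually_ge_atTop (max (P0 : ℝ) 2)] with N hN hl P hP
  have hN0 : (P0 : ℝ) ≤ Real.log N := (le_max_left _ _).trans hl
  have hN3 : 2 ≤ Real.log N := (le_max_right _ _).trans hl
  have hself : Real.log N ≤ (P : ℝ) := by nlinarith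
  have hU0 : P0 ≤ P := by
    have : (P0 : ℝ) ≤ P := hN0.trans hself
    exact_mod_cast this
  obtain ⟨-, h1⟩ := hP0 P hU0
  have h2 := hN P hP
  have hsub : ((Ioc (P / 4) P).filter fun p => p.Prime ∧ ¬ p ∣ N) ⊆ win N P ∩ win N (2 * P) := by
    intro p hp
    simp only [mem_filter, mem_Ioc, win, mem_inter] at hp ⊢
    refine ⟨⟨⟨by omega, hp.1.2⟩, hp.2⟩, ⟨⟨by omega, by omega⟩, hp.2⟩⟩
  have h3 := card_le_card hsub
  have h4 : (win N P ∩ win N (2 * P)).card ≤ (win N P).card := card_le_card inter_subset_left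
  have h3' : ((((Ioc (P / 4) P).filter fun p => p.Prime ∧ ¬ p ∣ N)).card : ℝ) ≤
      (win N P ∩ win N (2 * P)).card := by exact_mod_cast h3
  have h4' : ((win N P ∩ win N (2 * P)).card : ℝ) ≤ (win N P).card := by exact_mod_cast h4
  refine ⟨by linarith, by linarith, le_trans ?_ h1⟩
  have h5 : (win N P).card ≤ ((Icc 1 P).filter Nat.Prime).card := by
    apply card_le_card
    intro p hp
    simp only [mem_filter, mem_Ioc, win, mem_Icc] at hp ⊢
    exact ⟨⟨by omega, hp.1.2⟩, hp.2.1⟩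
  exact_mod_cast h5

end Pool.Agent.GLI
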