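import Pool.Agent.GLI.CardLarge
import Pool.Agent.GLI.Cheb
import Pool.Agent.GLI.Ev

set_option autoImplicit false

/-!
Module CardS. `P = lp N A`, `k = ⌊log (N-1)/log P⌋` (so `P^k < N ≤ 2 P^(k+1)`), `Q = win N P`, `|Q| ≥ P/(8 log P)` (win_facts).
card_large: `|S| ≤ N k! 4^k/|Q|^k ≤ 2 P k! (32 log P)^k ≤ 2 P (32 k log P)^k ≤ 2 P (64 log N)^k`, and `k ≤ log N/log P`,
`log P = A log log N + o(1)`: `(log N)^k ≤ N^(1/A + o(1))`, `64^k = N^(o(1))`, `P = N^(o(1))`. So `≤ N^(3/A)`.
-/

open Finset Filter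

namespace Pool.Agent.GLI

theorem card_char_le (N : ℕ) [NeZero N] :
    ((univ : Finset (DirichletCharacter ℂ N)).card : ℝ) ≤ N := by
  have h1 := DirichletCharacter.card_eq_totient_of_hasEnoughRootsOfUnity ℂ N
  rw [Nat.card_eq_fintype_card] at h1
  rw [Finset.card_univ, h1]
  exact_mod_cast Nat.totient_le N

open Classical in
/-- The numerical core. -/
theorem card_S_core (N : ℕ) [NeZero N] (P : ℕ) (hN : 3 ≤ N) (hP : 2 ≤ P)
    (hQ : (P : ℝ) / (8 * Real.log P) ≤ (win N P).card) :
    ∃ k : ℕ, k * Real.log P ≤ Real.log N ∧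
    (((univ : Finset (DirichletCharacter ℂ N)).filter fun χ =>
      1 / 2 ≤ ‖mean (win N P) χ‖).card : ℝ) ≤ P * (32 * Real.log N) ^ k := by
  set k := Nat.log P (N - 1) with hk
  have hPk : P ^ k ≤ N - 1 := Nat.pow_log_le_self P (by omega)
  have hPk' : P ^ k < N := by omega
  have hNk : N ≤ P ^ (k + 1) := by
    have := Nat.lt_pow_succ_log_self (b := P) (by omega) (N - 1)
    rw [← hk] at this
    have h2 : P ^ k.succ = P ^ (k + 1) := rfl
    omega
  have hP0 : (0 : ℝ) < P := by
    have : 0 < P := by omega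
    exact_mod_cast this
  have hP1 : (1 : ℝ) < P := by
    have : 1 < P := by omega
    exact_mod_cast this
  have hlP : 0 < Real.log P := Real.log_pos hP1
  have hklog : k * Real.log P ≤ Real.log N := by
    rw [← Real.log_pow]
    apply Real.log_le_log (by positivity)
    exact_mod_cast hPk'.le
  refine ⟨k, hklog, ?_⟩
  set q : ℝ := ((win N P).card : ℝ) with hq
  set w : ℝ := (P : ℝ) / (8 * Real.log P) with hw
  have hw0 : 0 < w := by positivity
  have hq0 : 0 < q := lt_of_lt_of_le hw0 hQ
  have h1 := card_large N (win N P) P k (fun p hp => by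
    simp only [win, Finset.mem_filter, Finset.mem_Ioc] at hp
    exact ⟨hp.2.1, hp.2.2, hp.1.2⟩) hPk'
  rw [← hq] at h1
  set S := (univ : Finset (DirichletCharacter ℂ N)).filter fun χ =>
      1 / 2 ≤ ‖mean (win N P) χ‖ with hS
  have h2 : S.card ≤ ((univ : Finset (DirichletCharacter ℂ N)).filter fun χ =>
      q / 2 ≤ ‖∑ p ∈ win N P, χ (p : ZMod N)‖).card := by
    apply Finset.card_le_card
    intro χ hχ
    rw [hS, Finset.mem_filter] at hχ
    rw [Finset.mem_filter]
    refine ⟨hχ.1, ?_⟩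
    have h3 := hχ.2
    rw [mean, norm_div, Complex.norm_natCast, ← hq, le_div_iff₀ hq0] at h3
    linarith
  have h3 : (S.card : ℝ) * (q / 2) ^ (2 * k) ≤ N.totient * (k.factorial * q ^ k) := by
    refine le_trans ?_ h1
    apply mul_le_mul_of_nonneg_right _ (by positivity)
    exact_mod_cast h2
  have h4 : (S.card : ℝ) * q ^ k ≤ N.totient * (k.factorial * 4 ^ k) := by
    have h5 : (q / 2) ^ (2 * k) = q ^ k * q ^ k / 4 ^ k := by
      rw [pow_mul, div_pow, div_pow]
      norm_num
      rw [sq, mul_pow]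
    rw [h5] at h3
    have h6 : 0 < q ^ k / 4 ^ k := by positivity
    have h7 : (S.card : ℝ) * q ^ k * (q ^ k / 4 ^ k) ≤
        N.totient * (k.factorial * 4 ^ k) * (q ^ k / 4 ^ k) := by
      have h8 : (S.card : ℝ) * q ^ k * (q ^ k / 4 ^ k) = S.card * (q ^ k * q ^ k / 4 ^ k) := by
        ring
      have h9 : (N.totient : ℝ) * (k.factorial * 4 ^ k) * (q ^ k / 4 ^ k) =
          N.totient * (k.factorial * q ^ k) := by
        field_simp
      rw [h8, h9]
      exact h3
    exact le_of_mul_le_mul_right h7 h6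
  have h5 : (S.card : ℝ) * w ^ k ≤ (P : ℝ) ^ (k + 1) * ((k : ℝ) ^ k * 4 ^ k) := by
    calc (S.card : ℝ) * w ^ k ≤ S.card * q ^ k :=
          mul_le_mul_of_nonneg_left (pow_le_pow_left₀ hw0.le hQ k) (Nat.cast_nonneg _)
      _ ≤ N.totient * (k.factorial * 4 ^ k) := h4
      _ ≤ (P : ℝ) ^ (k + 1) * ((k : ℝ) ^ k * 4 ^ k) := by
          apply mul_le_mul
          · have : N.totient ≤ P ^ (k + 1) := le_trans (Nat.totient_le N) hNk
            exact_mod_cast this
          · apply mul_le_mul_of_nonneg_right _ (by positivity)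
            exact_mod_cast Nat.factorial_le_pow k
          · positivity
          · positivity
  have h6 : (S.card : ℝ) ≤ P * (32 * (k * Real.log P)) ^ k := by
    have h7 : (P : ℝ) * (32 * (k * Real.log P)) ^ k * w ^ k =
        (P : ℝ) ^ (k + 1) * ((k : ℝ) ^ k * 4 ^ k) := by
      have h8 : 32 * (k * Real.log P) * w = P * (k * 4) := by
        rw [hw]
        field_simp
        ring
      rw [mul_assoc, ← mul_pow, h8, mul_pow, mul_pow (k : ℝ) 4 k, pow_succ]
      ring
    rw [← h7] at h5
    exact le_of_mul_le_mul_right h5 (by positivity)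
  refine le_trans h6 (mul_le_mul_of_nonneg_left ?_ hP0.le)
  apply pow_le_pow_left₀ (by positivity)
  linarith

open Classical in
theorem card_S (A : ℕ) (hA : 2 ≤ A) : ∀ᶠ N : ℕ in atTop, ∀ _ : NeZero N,
    (((univ : Finset (DirichletCharacter ℂ N)).filter fun χ =>
      1 / 2 ≤ ‖mean (win N (lp N A)) χ‖).card : ℝ) ≤ (N : ℝ) ^ (3 / A : ℝ) := by
  have hA0 : (0 : ℝ) < A := by
    have : 0 < A := by omega
    exact_mod_cast this
  have hA2 : (2 : ℝ) ≤ A := by exact_mod_cast hA
  rcases Nat.lt_or_ge A 4 with hA4 | hA4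
  · -- trivial range
    filter_upwards [eventually_ge_atTop 1] with N hN _
    have hN1 : (1 : ℝ) ≤ N := by exact_mod_cast hN
    have h1 : (((univ : Finset (DirichletCharacter ℂ N)).filter fun χ =>
        1 / 2 ≤ ‖mean (win N (lp N A)) χ‖).card : ℝ) ≤ N := by
      refine le_trans ?_ (card_char_le N)
      exact_mod_cast Finset.card_filter_le _ _
    have h2 : (1 : ℝ) ≤ 3 / A := by
      rw [le_div_iff₀ hA0]
      have : A ≤ 3 := by omega
      have : (A : ℝ) ≤ 3 := by exact_mod_cast this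
      linarith
    calc _ ≤ (N : ℝ) := h1
      _ = (N : ℝ) ^ (1 : ℝ) := (Real.rpow_one _).symm
      _ ≤ _ := Real.rpow_le_rpow_of_exponent_le hN1 h2
  · filter_upwards [win_facts, ev_log 64, ev_pow 0 (1 / A) (by positivity) A 1,
      eventually_ge_atTop 3] with N h1 h2 h3 hN3 _
    have hN0 : (0 : ℝ) < N := by
      have : 0 < N := by omega
      exact_mod_cast this
    set L := Real.log N with hL
    set P := lp N A with hP
    have hL0 : 0 < L := by linarith
    have hPle : (P : ℝ) ≤ L ^ A := lp_le N A hL0.le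
    have hPge : L ^ A < (P : ℝ) + 1 := lt_lp N A
    have hLA : L ^ 3 ≤ L ^ A := pow_le_pow_right₀ (by linarith) (by omega)
    have hL3 : 64 * L ^ 2 ≤ L ^ 3 := by
      have : L ^ 3 = L * L ^ 2 := by ring
      rw [this]
      exact mul_le_mul_of_nonneg_right h2 (by positivity)
    have hLL : 64 ^ 2 ≤ L ^ 2 := pow_le_pow_left₀ (by norm_num) h2 2
    have hPL2 : L ^ 2 ≤ (P : ℝ) := by linarith
    have hP2 : (2 : ℝ) ≤ P := by linarith
    have hP2' : 2 ≤ P := by exact_mod_cast hP2
    have hPhalf : L ^ A / 2 ≤ (P : ℝ) := by linarith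
    obtain ⟨k, hk1, hk2⟩ := card_S_core N P hN3 hP2' (h1 P hPL2).1
    refine le_trans hk2 ?_
    -- `(32 L)^k ≤ N^(2/A)`
    have hlogL : Real.log 64 ≤ Real.log L := Real.log_le_log (by norm_num) h2
    have hlogP : A * Real.log L - Real.log 2 ≤ Real.log P := by
      rw [← Real.log_pow, ← Real.log_div (by positivity) (by norm_num)]
      exact Real.log_le_log (by positivity) hPhalf
    have hlog64 : Real.log 64 = Real.log 32 + Real.log 2 := by
      rw [← Real.log_mul (by norm_num) (by norm_num)]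
      norm_num
    have hlog2 : 0 < Real.log 2 := Real.log_pos (by norm_num)
    have hstep : Real.log (32 * L) ≤ 2 / A * Real.log P := by
      rw [Real.log_mul (by norm_num) hL0.ne']
      have h4 : 2 / A * (A * Real.log L - Real.log 2) ≤ 2 / A * Real.log P :=
        mul_le_mul_of_nonneg_left hlogP (by positivity)
      have h5 : 2 / A * (A * Real.log L - Real.log 2) =
          2 * Real.log L - 2 / A * Real.log 2 := by
        field_simp
      have h6 : 2 / (A : ℝ) * Real.log 2 ≤ 1 * Real.log 2 := by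
        apply mul_le_mul_of_nonneg_right _ hlog2.le
        rw [div_le_one hA0]
        exact hA2
      linarith
    have hpow : (32 * L) ^ k ≤ (N : ℝ) ^ (2 / A : ℝ) := by
      rw [Real.rpow_def_of_pos hN0, ← Real.exp_log (show 0 < 32 * L by positivity),
        ← Real.exp_nat_mul]
      apply Real.exp_le_exp.mpr
      calc (k : ℝ) * Real.log (32 * L) ≤ k * (2 / A * Real.log P) :=
            mul_le_mul_of_nonneg_left hstep (Nat.cast_nonneg k)
        _ = (k * Real.log P) * (2 / A) := by ring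
        _ ≤ Real.log N * (2 / A) := mul_le_mul_of_nonneg_right hk1 (by positivity)
    have hPN : (P : ℝ) ≤ (N : ℝ) ^ (1 / A : ℝ) := by
      rw [Real.rpow_zero, one_mul, one_mul] at h3
      linarith
    calc (P : ℝ) * (32 * L) ^ k ≤ (N : ℝ) ^ (1 / A : ℝ) * (N : ℝ) ^ (2 / A : ℝ) :=
          mul_le_mul hPN hpow (by positivity) (by positivity)
      _ = (N : ℝ) ^ (3 / A : ℝ) := by
          rw [← Real.rpow_add hN0]
          congr 1
          ring

end Pool.Agent.GLI
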