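import Pool.Agent.GLI.Cheb
import Pool.Agent.GLI.Ev

set_option autoImplicit false

/-!
Module Chain. On a window, `∑_{p} |χ(p) - m|² = |win| (1 - |m|²)` (`|χ(p)| = 1` for `p ∤ N`). On the overlap
`I = win N P ∩ win N (2P)`: `|I| |m - m'|² ≤ 2 θ (|win N P| + |win N (2P)|) ≤ 200 θ |I|` (win_facts). So from `P1` to
`2^J P1 ≤ N`: `|m_j + 1| ≤ √θ + 20 J √θ ≤ 40 log N √θ`; `∑_{p ∈ win} |1+χ(p)|² = |win|(2 + 2 Re m_j)`, Cauchy-Schwarz,
`1/p ≤ 8/P_j`, `|win| ≤ P_j`: each window contributes `≤ 8 √(80 log N √θ)`; sum over `j ≤ 2 log N`; the primes `≤ P1`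
contribute `≤ √θ (1 + log P1)`. Every prime in `(P1, 2^J P1]` lies in some window.
-/

open Finset Filter

namespace Pool.Agent.GLI

namespace CH

theorem variance (Q : Finset ℕ) (hQ : 0 < Q.card) (z : ℕ → ℂ) (hz : ∀ p ∈ Q, ‖z p‖ = 1) (m : ℂ)
    (hm : m = (∑ p ∈ Q, z p) / (Q.card : ℂ)) :
    ∑ p ∈ Q, ‖z p - m‖ ^ 2 = Q.card * (1 - ‖m‖ ^ 2) := by
  have hc : (Q.card : ℂ) ≠ 0 := by exact_mod_cast hQ.ne'
  have hs : ∑ p ∈ Q, z p = (Q.card : ℂ) * m := by rw [hm]; field_simp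
  have h1 : ∀ p ∈ Q, ‖z p - m‖ ^ 2 = 1 + ‖m‖ ^ 2 - 2 * (z p * (starRingEnd ℂ) m).re := by
    intro p hp
    rw [Complex.sq_norm, Complex.normSq_sub, ← Complex.sq_norm, ← Complex.sq_norm, hz p hp]
    ring
  rw [Finset.sum_congr rfl h1, Finset.sum_sub_distrib, ← Finset.mul_sum, ← Complex.re_sum,
    ← Finset.sum_mul, hs]
  have h2 : ((Q.card : ℂ) * m * (starRingEnd ℂ) m).re = Q.card * ‖m‖ ^ 2 := by
    rw [mul_assoc, Complex.mul_conj, Complex.sq_norm]
    simp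
  rw [h2]
  simp
  ring

theorem norm_chi {N : ℕ} (χ : DirichletCharacter ℂ N) {p : ℕ} (hp : p.Prime) (hpN : ¬ p ∣ N) :
    ‖χ (p : ZMod N)‖ = 1 := by
  have h : IsUnit (p : ZMod N) := by
    rw [ZMod.isUnit_iff_coprime]
    exact (Nat.Prime.coprime_iff_not_dvd hp).mpr hpN
  obtain ⟨u, hu⟩ := h
  rw [← hu]
  exact DirichletCharacter.unit_norm_eq_one χ u

theorem mem_win {N P p : ℕ} : p ∈ win N P ↔ (P / 8 < p ∧ p ≤ P) ∧ p.Prime ∧ ¬ p ∣ N := by
  unfold win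
  rw [Finset.mem_filter, Finset.mem_Ioc]

/-- the sum of `|1 + χ(p)|` over a window -/
theorem win_sum {N : ℕ} (χ : DirichletCharacter ℂ N) (P : ℕ) (θ a : ℝ) (hθ : 0 ≤ θ)
    (hpos : 0 < (win N P).card) (hm : 1 - θ ≤ ‖mean (win N P) χ‖ ^ 2)
    (ha : ‖1 + mean (win N P) χ‖ ≤ a) :
    ∑ p ∈ win N P, ‖1 + χ (p : ZMod N)‖ / p ≤ 8 * (a + Real.sqrt θ) := by
  set Q := win N P with hQ
  set m := mean Q χ with hmdef
  have hv := variance Q hpos (fun p => χ (p : ZMod N))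
    (fun p hp => norm_chi χ (mem_win.mp hp).2.1 (mem_win.mp hp).2.2) m rfl
  have hv2 : ∑ p ∈ Q, ‖χ (p : ZMod N) - m‖ ^ 2 ≤ Q.card * θ := by
    rw [hv]
    have : (0 : ℝ) ≤ Q.card := by positivity
    nlinarith
  have hcs : ∑ p ∈ Q, ‖χ (p : ZMod N) - m‖ ≤ Q.card * Real.sqrt θ := by
    have h1 : (∑ p ∈ Q, ‖χ (p : ZMod N) - m‖) ^ 2 ≤ Q.card * ∑ p ∈ Q, ‖χ (p : ZMod N) - m‖ ^ 2 :=
      sq_sum_le_card_mul_sum_sq
    have h2 : (∑ p ∈ Q, ‖χ (p : ZMod N) - m‖) ^ 2 ≤ (Q.card * Real.sqrt θ) ^ 2 := by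
      refine h1.trans ?_
      rw [mul_pow, Real.sq_sqrt hθ]
      have : (0 : ℝ) ≤ Q.card := by positivity
      nlinarith
    exact (sq_le_sq₀ (Finset.sum_nonneg fun _ _ => norm_nonneg _) (by positivity)).mp h2
  have hP0 : 0 < P := by
    by_contra h
    have : P = 0 := by omega
    rw [hQ, this] at hpos
    simp [win] at hpos
  have hP0' : (0 : ℝ) < P := by exact_mod_cast hP0
  have hcard : (Q.card : ℝ) ≤ P := by
    have : Q.card ≤ (Finset.Ioc 0 P).card := by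
      apply Finset.card_le_card
      intro p hp
      rw [mem_win] at hp
      rw [Finset.mem_Ioc]
      exact ⟨hp.2.1.pos, hp.1.2⟩
    rw [Nat.card_Ioc] at this
    exact_mod_cast this
  have ha0 : 0 ≤ a := (norm_nonneg _).trans ha
  calc ∑ p ∈ Q, ‖1 + χ (p : ZMod N)‖ / p
      ≤ ∑ p ∈ Q, (8 / P) * (a + ‖χ (p : ZMod N) - m‖) := by
        refine Finset.sum_le_sum fun p hp => ?_
        rw [mem_win] at hp
        have hp0 : (0 : ℝ) < p := by exact_mod_cast hp.2.1.pos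
        have h1 : (P : ℝ) ≤ 8 * p := by
          have : P ≤ 8 * p := by omega
          exact_mod_cast this
        have h2 : ‖1 + χ (p : ZMod N)‖ ≤ a + ‖χ (p : ZMod N) - m‖ := by
          have : 1 + χ (p : ZMod N) = (1 + m) + (χ (p : ZMod N) - m) := by ring
          rw [this]
          exact (norm_add_le _ _).trans (by linarith)
        have h3 : 1 / (p : ℝ) ≤ 8 / P := by
          rw [div_le_div_iff₀ hp0 hP0']
          linarith
        calc ‖1 + χ (p : ZMod N)‖ / p = 1 / (p : ℝ) * ‖1 + χ (p : ZMod N)‖ := by ring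
          _ ≤ _ := mul_le_mul h3 h2 (norm_nonneg _) (by positivity)
    _ = (8 / P) * (Q.card * a + ∑ p ∈ Q, ‖χ (p : ZMod N) - m‖) := by
        rw [← Finset.mul_sum, Finset.sum_add_distrib]
        simp
    _ ≤ (8 / P) * (Q.card * a + Q.card * Real.sqrt θ) := by gcongr
    _ = (8 / P * Q.card) * (a + Real.sqrt θ) := by ring
    _ ≤ 8 * (a + Real.sqrt θ) := by
        have h4 : 8 / (P : ℝ) * Q.card ≤ 8 := by
          rw [div_mul_eq_mul_div, div_le_iff₀ hP0']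
          linarith
        have : 0 ≤ a + Real.sqrt θ := by positivity
        gcongr

theorem mean_step {N : ℕ} (χ : DirichletCharacter ℂ N) (P : ℕ) (θ L : ℝ) (hθ : 0 ≤ θ) (hL : 0 < L)
    (hp1 : 0 < (win N P).card) (hp2 : 0 < (win N (2 * P)).card)
    (h1 : ((win N P).card : ℝ) ≤ 16 * L) (h2 : ((win N (2 * P)).card : ℝ) ≤ 32 * L)
    (h3 : L ≤ ((win N P ∩ win N (2 * P)).card : ℝ))
    (hm1 : 1 - θ ≤ ‖mean (win N P) χ‖ ^ 2) (hm2 : 1 - θ ≤ ‖mean (win N (2 * P)) χ‖ ^ 2) :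
    ‖mean (win N (2 * P)) χ - mean (win N P) χ‖ ≤ 10 * Real.sqrt θ := by
  set Q := win N P with hQ
  set Q' := win N (2 * P) with hQ'
  set m := mean Q χ with hmdef
  set m' := mean Q' χ with hmdef'
  set I := Q ∩ Q' with hI
  have hv := variance Q hp1 (fun p => χ (p : ZMod N))
    (fun p hp => norm_chi χ (mem_win.mp hp).2.1 (mem_win.mp hp).2.2) m rfl
  have hv' := variance Q' hp2 (fun p => χ (p : ZMod N))
    (fun p hp => norm_chi χ (mem_win.mp hp).2.1 (mem_win.mp hp).2.2) m' rfl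
  have hb : ∑ p ∈ I, ‖χ (p : ZMod N) - m‖ ^ 2 ≤ Q.card * θ := by
    calc ∑ p ∈ I, ‖χ (p : ZMod N) - m‖ ^ 2 ≤ ∑ p ∈ Q, ‖χ (p : ZMod N) - m‖ ^ 2 :=
          Finset.sum_le_sum_of_subset_of_nonneg Finset.inter_subset_left (fun _ _ _ => by positivity)
      _ = Q.card * (1 - ‖m‖ ^ 2) := hv
      _ ≤ _ := by gcongr; linarith
  have hb' : ∑ p ∈ I, ‖χ (p : ZMod N) - m'‖ ^ 2 ≤ Q'.card * θ := by
    calc ∑ p ∈ I, ‖χ (p : ZMod N) - m'‖ ^ 2 ≤ ∑ p ∈ Q', ‖χ (p : ZMod N) - m'‖ ^ 2 :=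
          Finset.sum_le_sum_of_subset_of_nonneg Finset.inter_subset_right (fun _ _ _ => by positivity)
      _ = Q'.card * (1 - ‖m'‖ ^ 2) := hv'
      _ ≤ _ := by gcongr; linarith
  have hmain : (I.card : ℝ) * ‖m' - m‖ ^ 2 ≤ 2 * (Q.card * θ) + 2 * (Q'.card * θ) := by
    calc (I.card : ℝ) * ‖m' - m‖ ^ 2 = ∑ p ∈ I, ‖m' - m‖ ^ 2 := by simp
      _ ≤ ∑ p ∈ I, (2 * ‖χ (p : ZMod N) - m‖ ^ 2 + 2 * ‖χ (p : ZMod N) - m'‖ ^ 2) := by
          refine Finset.sum_le_sum fun p _ => ?_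
          have h : ‖m' - m‖ ≤ ‖χ (p : ZMod N) - m‖ + ‖χ (p : ZMod N) - m'‖ := by
            have : m' - m = (χ (p : ZMod N) - m) - (χ (p : ZMod N) - m') := by ring
            rw [this]
            exact norm_sub_le _ _
          have h0 := norm_nonneg (m' - m)
          nlinarith [sq_nonneg (‖χ (p : ZMod N) - m‖ - ‖χ (p : ZMod N) - m'‖),
            norm_nonneg (χ (p : ZMod N) - m), norm_nonneg (χ (p : ZMod N) - m')]
      _ = 2 * ∑ p ∈ I, ‖χ (p : ZMod N) - m‖ ^ 2 + 2 * ∑ p ∈ I, ‖χ (p : ZMod N) - m'‖ ^ 2 := by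
          rw [Finset.sum_add_distrib, Finset.mul_sum, Finset.mul_sum]
      _ ≤ _ := by linarith
  have h4 : L * ‖m' - m‖ ^ 2 ≤ L * (96 * θ) := by
    calc L * ‖m' - m‖ ^ 2 ≤ (I.card : ℝ) * ‖m' - m‖ ^ 2 := by gcongr
      _ ≤ 2 * (Q.card * θ) + 2 * (Q'.card * θ) := hmain
      _ ≤ 2 * (16 * L * θ) + 2 * (32 * L * θ) := by gcongr
      _ = L * (96 * θ) := by ring
  have h5 : ‖m' - m‖ ^ 2 ≤ 96 * θ := le_of_mul_le_mul_left h4 hL
  have h6 : ‖m' - m‖ ^ 2 ≤ (10 * Real.sqrt θ) ^ 2 := by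
    rw [mul_pow, Real.sq_sqrt hθ]
    linarith
  exact (sq_le_sq₀ (norm_nonneg _) (by positivity)).mp h6

end CH

theorem chain : ∀ᶠ N : ℕ in atTop, ∀ χ : DirichletCharacter ℂ N, ∀ P1 J : ℕ, ∀ θ : ℝ,
    Real.log N ^ 2 ≤ (P1 : ℝ) → 2 ^ J * P1 ≤ N → 0 ≤ θ → θ ≤ 1 →
    (∀ p : ℕ, p.Prime → p ≤ P1 → ¬ p ∣ N → ‖1 + χ (p : ZMod N)‖ ^ 2 ≤ θ) →
    (∀ j ≤ J, 1 - θ ≤ ‖mean (win N (2 ^ j * P1)) χ‖ ^ 2) →
    ∑ p ∈ (Icc 1 (2 ^ J * P1)).filter (fun p => p.Prime ∧ ¬ p ∣ N),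
      ‖1 + χ (p : ZMod N)‖ / p ≤ Real.log N ^ 3 * θ ^ (1 / 4 : ℝ) := by
  filter_upwards [win_facts, ev_log 1000, eventually_ge_atTop 3] with N hwin hlog hN3
  intro χ P1 J θ hP1 hJ hθ hθ1 hsmall hmean
  have hlog0 : (0 : ℝ) < Real.log N := by linarith
  set s := Real.sqrt θ with hs
  have hs0 : 0 ≤ s := Real.sqrt_nonneg _
  have hPj : ∀ j : ℕ, Real.log N ^ 2 ≤ ((2 ^ j * P1 : ℕ) : ℝ) := by
    intro j
    refine hP1.trans ?_
    have : P1 ≤ 2 ^ j * P1 := Nat.le_mul_of_pos_left _ (by positivity)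
    exact_mod_cast this
  have hP1big : (1000000 : ℝ) ≤ P1 := by nlinarith
  have hPjbig : ∀ j : ℕ, (1000000 : ℝ) ≤ ((2 ^ j * P1 : ℕ) : ℝ) := by
    intro j
    have := hPj j
    nlinarith
  have hlogP : ∀ j : ℕ, 0 < Real.log ((2 ^ j * P1 : ℕ) : ℝ) := by
    intro j
    apply Real.log_pos
    have := hPjbig j
    linarith
  have hcardpos : ∀ j : ℕ, 0 < (win N (2 ^ j * P1)).card := by
    intro j
    have h := (hwin _ (hPj j)).1
    have h2 : (0 : ℝ) < ((2 ^ j * P1 : ℕ) : ℝ) / (8 * Real.log ((2 ^ j * P1 : ℕ) : ℝ)) := by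
      have := hlogP j
      have := hPjbig j
      positivity
    have : (0 : ℝ) < (win N (2 ^ j * P1)).card := lt_of_lt_of_le h2 h
    exact_mod_cast this
  -- the means
  have hm : ∀ j : ℕ, j ≤ J → ‖1 + mean (win N (2 ^ j * P1)) χ‖ ≤ (1 + 10 * j) * s := by
    intro j
    induction j with
    | zero =>
      intro _
      have hc := hcardpos 0
      have hc' : ((win N (2 ^ 0 * P1)).card : ℂ) ≠ 0 := by exact_mod_cast hc.ne'
      have h1 : 1 + mean (win N (2 ^ 0 * P1)) χ =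
          (∑ p ∈ win N (2 ^ 0 * P1), (1 + χ (p : ZMod N))) / ((win N (2 ^ 0 * P1)).card : ℂ) := by
        unfold mean
        rw [Finset.sum_add_distrib]
        simp only [Finset.sum_const, nsmul_eq_mul, mul_one]
        field_simp
      rw [h1, norm_div, Complex.norm_natCast]
      have hc0 : (0 : ℝ) < (win N (2 ^ 0 * P1)).card := by exact_mod_cast hc
      rw [div_le_iff₀ hc0]
      calc ‖∑ p ∈ win N (2 ^ 0 * P1), (1 + χ (p : ZMod N))‖
          ≤ ∑ p ∈ win N (2 ^ 0 * P1), ‖1 + χ (p : ZMod N)‖ := norm_sum_le _ _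
        _ ≤ ∑ p ∈ win N (2 ^ 0 * P1), s := by
            refine Finset.sum_le_sum fun p hp => ?_
            rw [CH.mem_win] at hp
            have := hsmall p hp.2.1 (by simpa using hp.1.2) hp.2.2
            rw [hs]
            exact Real.le_sqrt_of_sq_le this
        _ = _ := by simp; ring
    | succ j ih =>
      intro hj
      have ih' := ih (by omega)
      have hL : 0 < ((2 ^ j * P1 : ℕ) : ℝ) / (8 * Real.log ((2 ^ j * P1 : ℕ) : ℝ)) := by
        have := hlogP j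
        have := hPjbig j
        positivity
      have he : 2 ^ (j + 1) * P1 = 2 * (2 ^ j * P1) := by ring
      have hw := hwin _ (hPj j)
      have hw' := hwin _ (hPj (j + 1))
      have hlt : Real.log ((2 ^ j * P1 : ℕ) : ℝ) ≤ Real.log ((2 ^ (j + 1) * P1 : ℕ) : ℝ) := by
        apply Real.log_le_log
        · have := hPjbig j; linarith
        · have : 2 ^ j * P1 ≤ 2 ^ (j + 1) * P1 := by rw [he]; omega
          exact_mod_cast this
      have hstep := CH.mean_step χ (2 ^ j * P1) θ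
        (((2 ^ j * P1 : ℕ) : ℝ) / (8 * Real.log ((2 ^ j * P1 : ℕ) : ℝ))) hθ hL (hcardpos j)
        (by rw [← he]; exact hcardpos (j + 1))
        (by
          refine hw.2.2.trans (le_of_eq ?_)
          have := (hlogP j).ne'
          field_simp
          norm_num)
        (by
          rw [← he]
          refine hw'.2.2.trans ?_
          have h0 := hlogP j
          have h1 : ((2 ^ (j + 1) * P1 : ℕ) : ℝ) = 2 * ((2 ^ j * P1 : ℕ) : ℝ) := by
            rw [he]; push_cast; ring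
          calc 2 * ((2 ^ (j + 1) * P1 : ℕ) : ℝ) / Real.log ((2 ^ (j + 1) * P1 : ℕ) : ℝ)
              ≤ 2 * ((2 ^ (j + 1) * P1 : ℕ) : ℝ) / Real.log ((2 ^ j * P1 : ℕ) : ℝ) := by
                gcongr
            _ = 32 * (((2 ^ j * P1 : ℕ) : ℝ) / (8 * Real.log ((2 ^ j * P1 : ℕ) : ℝ))) := by
                rw [h1]
                field_simp
                norm_num)
        hw.2.1 (hmean j (by omega)) (by rw [← he]; exact hmean (j + 1) hj)
      rw [← he] at hstep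
      have : 1 + mean (win N (2 ^ (j + 1) * P1)) χ = (1 + mean (win N (2 ^ j * P1)) χ) +
          (mean (win N (2 ^ (j + 1) * P1)) χ - mean (win N (2 ^ j * P1)) χ) := by ring
      rw [this]
      refine (norm_add_le _ _).trans ?_
      push_cast
      rw [← hs] at hstep
      nlinarith
  have hwsum : ∀ j : ℕ, j ≤ J → ∑ p ∈ win N (2 ^ j * P1), ‖1 + χ (p : ZMod N)‖ / p ≤
      8 * ((1 + 10 * j) * s + s) := fun j hj =>
    CH.win_sum χ (2 ^ j * P1) θ _ hθ (hcardpos j) (hmean j hj) (hm j hj)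
  have hJlog : (J : ℝ) ≤ 2 * Real.log N := by
    have h1 : (2 : ℝ) ^ J ≤ N := by
      have h2 : 2 ^ J ≤ N := by
        refine le_trans ?_ hJ
        apply Nat.le_mul_of_pos_right
        have : (0 : ℝ) < P1 := by linarith
        exact_mod_cast this
      exact_mod_cast h2
    have h2 := Real.log_le_log (by positivity) h1
    rw [Real.log_pow] at h2
    have h3 := Real.log_two_gt_d9
    nlinarith
  have hbase : ∑ p ∈ (Icc 1 P1).filter (fun p => p.Prime ∧ ¬ p ∣ N),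
      ‖1 + χ (p : ZMod N)‖ / p ≤ s * (1 + Real.log N) := by
    have hP1N : P1 ≤ N := le_trans (Nat.le_mul_of_pos_left _ (by positivity)) hJ
    calc ∑ p ∈ (Icc 1 P1).filter (fun p => p.Prime ∧ ¬ p ∣ N), ‖1 + χ (p : ZMod N)‖ / p
        ≤ ∑ p ∈ (Icc 1 P1).filter (fun p => p.Prime ∧ ¬ p ∣ N), s * (1 / (p : ℝ)) := by
          refine Finset.sum_le_sum fun p hp => ?_
          rw [Finset.mem_filter, Finset.mem_Icc] at hp
          have h1 := hsmall p hp.2.1 hp.1.2 hp.2.2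
          have h2 : ‖1 + χ (p : ZMod N)‖ ≤ s := Real.le_sqrt_of_sq_le h1
          rw [mul_one_div]
          gcongr
      _ ≤ ∑ p ∈ Icc 1 N, s * (1 / (p : ℝ)) := by
          apply Finset.sum_le_sum_of_subset_of_nonneg
          · intro p hp
            rw [Finset.mem_filter, Finset.mem_Icc] at hp
            rw [Finset.mem_Icc]
            omega
          · intro _ _ _; positivity
      _ = s * (harmonic N : ℝ) := by
          rw [← Finset.mul_sum, harmonic_eq_sum_Icc]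
          push_cast
          simp only [one_div]
      _ ≤ s * (1 + Real.log N) := by
          have := harmonic_le_one_add_log N
          gcongr
  have hind : ∀ j : ℕ, j ≤ J → ∑ p ∈ (Icc 1 (2 ^ j * P1)).filter (fun p => p.Prime ∧ ¬ p ∣ N),
      ‖1 + χ (p : ZMod N)‖ / p ≤ s * (1 + Real.log N) + j * (8 * ((1 + 10 * J) * s + s)) := by
    intro j
    induction j with
    | zero =>
      intro _
      simpa using hbase
    | succ j ih =>
      intro hj
      have ih' := ih (by omega)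
      have hsub : (Icc 1 (2 ^ (j + 1) * P1)).filter (fun p => p.Prime ∧ ¬ p ∣ N) ⊆
          (Icc 1 (2 ^ j * P1)).filter (fun p => p.Prime ∧ ¬ p ∣ N) ∪ win N (2 ^ (j + 1) * P1) := by
        intro p hp
        rw [Finset.mem_filter, Finset.mem_Icc] at hp
        rw [Finset.mem_union, Finset.mem_filter, Finset.mem_Icc, CH.mem_win]
        by_cases h : p ≤ 2 ^ j * P1
        · left
          exact ⟨⟨hp.1.1, h⟩, hp.2⟩
        · right
          refine ⟨⟨?_, hp.1.2⟩, hp.2⟩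
          have he : 2 ^ (j + 1) * P1 = 2 * (2 ^ j * P1) := by ring
          rw [he]
          omega
      have h1 := Finset.sum_union_inter
        (s₁ := (Icc 1 (2 ^ j * P1)).filter (fun p => p.Prime ∧ ¬ p ∣ N))
        (s₂ := win N (2 ^ (j + 1) * P1)) (f := fun p : ℕ => ‖1 + χ (p : ZMod N)‖ / (p : ℝ))
      have h2 : 0 ≤ ∑ p ∈ (Icc 1 (2 ^ j * P1)).filter (fun p => p.Prime ∧ ¬ p ∣ N) ∩
          win N (2 ^ (j + 1) * P1), ‖1 + χ (p : ZMod N)‖ / (p : ℝ) :=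
        Finset.sum_nonneg fun _ _ => by positivity
      have h3 := Finset.sum_le_sum_of_subset_of_nonneg (f := fun p : ℕ =>
        ‖1 + χ (p : ZMod N)‖ / (p : ℝ)) hsub (fun _ _ _ => by positivity)
      have h4 := hwsum (j + 1) hj
      have h5 : (8 : ℝ) * ((1 + 10 * ((j + 1 : ℕ) : ℝ)) * s + s) ≤ 8 * ((1 + 10 * J) * s + s) := by
        have : ((j + 1 : ℕ) : ℝ) ≤ J := by exact_mod_cast hj
        gcongr
      push_cast at h4 h5 ⊢
      linarith
  refine (hind J le_rfl).trans ?_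
  have hsθ : s ≤ θ ^ (1 / 4 : ℝ) := by
    rw [hs, Real.sqrt_eq_rpow]
    rcases hθ.eq_or_lt with h | h
    · rw [← h]
      rw [Real.zero_rpow (by norm_num), Real.zero_rpow (by norm_num)]
    · exact Real.rpow_le_rpow_of_exponent_ge h hθ1 (by norm_num)
  have hfin : s * (1 + Real.log N) + J * (8 * ((1 + 10 * J) * s + s)) ≤ Real.log N ^ 3 * s := by
    have hJ0 : (0 : ℝ) ≤ J := by positivity
    have h1 : s * (1 + Real.log N) + J * (8 * ((1 + 10 * J) * s + s)) =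
        s * (1 + Real.log N + 16 * J + 80 * J ^ 2) := by ring
    rw [h1, mul_comm]
    apply mul_le_mul_of_nonneg_right _ hs0
    have h2 : (J : ℝ) ^ 2 ≤ 4 * Real.log N ^ 2 := by nlinarith
    have h3 : Real.log N ^ 3 = Real.log N ^ 2 * Real.log N := by ring
    nlinarith [mul_le_mul_of_nonneg_left hlog (sq_nonneg (Real.log N))]
  refine hfin.trans ?_
  gcongr

end Pool.Agent.GLI
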