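import Pool.Agent.GLI.Dense
import Pool.Agent.GLI.Ev

set_option autoImplicit false

/-!
Module ClassCount. `dis_le`: `a ∈ dis N χ` has a prime factor `p ∤ N` with `χ(p) = 1` (otherwise `χ(p) = -1` for all
`p ∣ a` and `χ a = lam a`); at most `x/p` multiples of `p` in `[1, x)`.
`class_count`: for `m` in the left set choose `t ∈ Tset N`, `t ∣ m`, `d = m/t` (`m ≥ 1`, `(d, N) = 1`, `t ∤ N`,
`p d < N` since `t p d < (k+1) N ≤ lp N 12 N < t N`). If `d ∈ dis`: `(t, d)` is in the second set. If the point `p d`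
is bad: third set. Otherwise `z = p m - k N = (t (p d)) % N` has `lam z = lam t lam (p d) = lam d = χ d`
(`GoodAt N t (p d)`, `lam p = lam t = -1`), `χ z = χ t χ p χ d = -χ d`, `z` is prime to `N`: `z ∈ dis N χ`, `p ∣ z + k N`.
The maps `m ↦ (t, d)` and `m ↦ z` are injective.
-/

open Finset Filter

namespace Pool.Agent.GLI

theorem chi_ne_zero {N a : ℕ} (χ : DirichletCharacter ℂ N) (h : a.Coprime N) :
    χ (a : ZMod N) ≠ 0 := by
  have h1 : IsUnit (a : ZMod N) := (ZMod.isUnit_iff_coprime a N).2 h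
  exact (h1.map χ).ne_zero

theorem coprime_of_chi_ne_zero {N a : ℕ} (χ : DirichletCharacter ℂ N)
    (h : χ (a : ZMod N) ≠ 0) : a.Coprime N := by
  by_contra hc
  apply h
  apply χ.map_nonunit
  rw [ZMod.isUnit_iff_coprime]
  exact hc

theorem chi_eq_lam {N : ℕ} (χ : DirichletCharacter ℂ N) (a : ℕ) : a ≠ 0 →
    (∀ p : ℕ, p.Prime → p ∣ a → χ (p : ZMod N) = -1) → χ (a : ZMod N) = (lam a : ℂ) := by
  induction a using Nat.recOnMul with
  | zero => intro h; exact absurd rfl h
  | one => intro _ _; simp [lam_one]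
  | prime p hp =>
    intro _ h
    rw [h p hp dvd_rfl, lam_prime hp]
    simp
  | mul a b iha ihb =>
    intro hab h
    have ha : a ≠ 0 := left_ne_zero_of_mul hab
    have hb : b ≠ 0 := right_ne_zero_of_mul hab
    rw [Nat.cast_mul, map_mul, lam_mul ha hb, Int.cast_mul,
      iha ha fun p hp hd => h p hp (hd.mul_right b), ihb hb fun p hp hd => h p hp (hd.mul_left a)]

theorem exists_split {N a : ℕ} (χ : DirichletCharacter ℂ N) (h : RealChar χ) (ha : a ≠ 0)
    (hc : a.Coprime N) (hne : (lam a : ℂ) ≠ χ (a : ZMod N)) :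
    ∃ p : ℕ, p.Prime ∧ p ∣ a ∧ χ (p : ZMod N) = 1 := by
  by_contra hcon
  push Not at hcon
  apply hne
  symm
  apply chi_eq_lam χ a ha
  intro p hp hd
  rcases h (p : ZMod N) with h0 | h0 | h0
  · exact absurd h0 (chi_ne_zero χ (Nat.Coprime.coprime_dvd_left hd hc))
  · exact absurd h0 (hcon p hp hd)
  · exact h0

theorem dis_le (N : ℕ) (χ : DirichletCharacter ℂ N) (h : RealChar χ) (x : ℕ) (hx : x ≤ N) :
    (((dis N χ).filter (· < x)).card : ℝ) ≤ x * Sp χ x := by
  classical
  have hsub : (dis N χ).filter (· < x) ⊆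
      (split χ x).biUnion fun p => (Ioo 0 x).filter fun a => p ∣ a := by
    intro a ha
    rw [mem_filter, dis, mem_filter, mem_range] at ha
    obtain ⟨⟨haN, hc, hne⟩, hax⟩ := ha
    have ha0 : a ≠ 0 := by
      rintro rfl
      rw [Nat.coprime_zero_left] at hc
      subst hc
      apply hne
      have : ((0 : ℕ) : ZMod 1) = 1 := Subsingleton.elim _ _
      rw [this, map_one]
      simp [lam]
    obtain ⟨p, hp, hd, h1⟩ := exists_split χ h ha0 hc hne
    rw [mem_biUnion]
    refine ⟨p, ?_, ?_⟩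
    · rw [split, mem_filter, mem_Icc]
      exact ⟨⟨hp.one_le, (Nat.le_of_dvd (Nat.pos_of_ne_zero ha0) hd).trans hax.le⟩, hp, h1⟩
    · rw [mem_filter, mem_Ioo]
      exact ⟨⟨Nat.pos_of_ne_zero ha0, hax⟩, hd⟩
  have h1 : (((dis N χ).filter (· < x)).card : ℝ) ≤
      ∑ p ∈ split χ x, (((Ioo 0 x).filter fun a => p ∣ a).card : ℝ) := by
    have h2 := (card_le_card hsub).trans card_biUnion_le
    exact_mod_cast h2
  refine h1.trans ?_
  unfold Sp
  rw [mul_sum]
  apply sum_le_sum
  intro p hp
  rw [split, mem_filter, mem_Icc] at hp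
  have hp0 : 0 < p := hp.1.1
  have h3 : ((Ioo 0 x).filter fun a => p ∣ a).card ≤ x / p := by
    have h4 : ((Ioo 0 x).filter fun a => p ∣ a) ⊆ (Ioc 0 x).filter fun a => p ∣ a := by
      apply filter_subset_filter
      intro a ha
      rw [mem_Ioo] at ha
      rw [mem_Ioc]
      omega
    refine (card_le_card h4).trans ?_
    rw [Nat.Ioc_filter_dvd_card_eq_div]
  calc (((Ioo 0 x).filter fun a => p ∣ a).card : ℝ) ≤ ((x / p : ℕ) : ℝ) := by exact_mod_cast h3
    _ ≤ (x : ℝ) / p := Nat.cast_div_le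
    _ = x * (1 / p) := by ring

theorem mod_eq_sub {N k a : ℕ} (h1 : k * N ≤ a) (h2 : a < (k + 1) * N) : a % N = a - k * N := by
  have h3 : a = (a - k * N) + N * k := by
    rw [mul_comm N k]
    omega
  have h4 : a - k * N < N := by
    rw [add_mul, one_mul] at h2
    omega
  conv_lhs => rw [h3]
  rw [Nat.add_mul_mod_self_left, Nat.mod_eq_of_lt h4]

open Classical in
theorem class_count (N : ℕ) (hN : 2 ≤ N) (χ : DirichletCharacter ℂ N) (h : RealChar χ)
    (hT : ∀ t ∈ Tset N, ¬ t ∣ N → χ (t : ZMod N) = -1) (p k : ℕ) (hp : p.Prime)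
    (hχ : χ (p : ZMod N) = 1) (hk : k < lp N 12) :
    ((range ((k + 1) * N)).filter fun m => k * N ≤ p * m ∧ p * m < (k + 1) * N ∧
      m.Coprime N ∧ ∃ t ∈ Tset N, t ∣ m).card ≤
    ((dis N χ).filter fun z => p ∣ z + k * N).card +
    ((Tset N ×ˢ dis N χ).filter fun w => k * N ≤ w.1 * p * w.2 ∧
      w.1 * p * w.2 < (k + 1) * N).card +
    ((Tset N ×ˢ range N).filter fun w => 1 ≤ w.2 ∧ p * w.2 < N ∧ k * N ≤ w.1 * p * w.2 ∧
      w.1 * p * w.2 < (k + 1) * N ∧ ¬ ∀ m : ℕ, 1 ≤ m → m ≤ lp N 24 → GoodAt N m (p * w.2)).card := by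
  set S := (range ((k + 1) * N)).filter fun m => k * N ≤ p * m ∧ p * m < (k + 1) * N ∧
      m.Coprime N ∧ ∃ t ∈ Tset N, t ∣ m with hS
  set D1 := (dis N χ).filter fun z => p ∣ z + k * N with hD1
  set D2 := (Tset N ×ˢ dis N χ).filter fun w => k * N ≤ w.1 * p * w.2 ∧
      w.1 * p * w.2 < (k + 1) * N with hD2
  set D3 := (Tset N ×ˢ range N).filter fun w => 1 ≤ w.2 ∧ p * w.2 < N ∧ k * N ≤ w.1 * p * w.2 ∧
      w.1 * p * w.2 < (k + 1) * N ∧ ¬ ∀ m : ℕ, 1 ≤ m → m ≤ lp N 24 → GoodAt N m (p * w.2) with hD3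
  clear_value S D1 D2 D3
  have hch : ∀ m : ℕ, ∃ t : ℕ, m ∈ S → t ∈ Tset N ∧ t ∣ m := by
    intro m
    by_cases hm : m ∈ S
    · rw [hS, mem_filter] at hm
      obtain ⟨t, ht, htm⟩ := hm.2.2.2.2
      exact ⟨t, fun _ => ⟨ht, htm⟩⟩
    · exact ⟨0, fun h => absurd h hm⟩
  choose T hTm using hch
  have hsub : S ⊆ (S.filter fun m => p * m - k * N ∈ D1) ∪
      (S.filter fun m => (T m, m / T m) ∈ D2) ∪ (S.filter fun m => (T m, m / T m) ∈ D3) := by
    intro m hm
    obtain ⟨ht, d, hd⟩ := hTm m hm
    have hm' := hm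
    rw [hS, mem_filter] at hm'
    obtain ⟨hmr, hk1, hk2, hmN, -⟩ := hm'
    have htp : (T m).Prime := by
      rw [Tset, mem_filter] at ht
      exact ht.2
    have htI : lp N 12 < T m ∧ T m ≤ lp N 24 := by
      rw [Tset, mem_filter, mem_Ioc] at ht
      exact ht.1
    set t := T m with htdef
    have hdv : m / t = d := by
      rw [hd, Nat.mul_div_cancel_left _ htp.pos]
    have htpd : t * p * d = p * m := by
      rw [hd]; ring
    have htN : t.Coprime N := Nat.Coprime.coprime_dvd_left ⟨d, hd⟩ hmN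
    have hdN : d.Coprime N := Nat.Coprime.coprime_dvd_left ⟨t, by rw [hd]; ring⟩ hmN
    have hpN : p.Coprime N := coprime_of_chi_ne_zero χ (by rw [hχ]; exact one_ne_zero)
    have hd0 : 1 ≤ d := by
      rcases Nat.eq_zero_or_pos d with h0 | h0
      · rw [h0, Nat.coprime_zero_left] at hdN
        omega
      · exact h0
    have hpdN : p * d < N := by
      have h1 : t * (p * d) < t * N := by
        calc t * (p * d) = p * m := by rw [hd]; ring
          _ < (k + 1) * N := hk2
          _ ≤ t * N := Nat.mul_le_mul_right N (by omega)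
      exact lt_of_mul_lt_mul_left h1 (Nat.zero_le t)
    have hdN' : d < N := lt_of_le_of_lt (Nat.le_mul_of_pos_left d hp.pos) hpdN
    rw [mem_union, mem_union, mem_filter (p := fun m => p * m - k * N ∈ D1),
      mem_filter (p := fun m => (T m, m / T m) ∈ D2),
      mem_filter (p := fun m => (T m, m / T m) ∈ D3), ← htdef, hdv]
    by_cases hdd : d ∈ dis N χ
    · left; right
      refine ⟨hm, ?_⟩
      rw [hD2, mem_filter, mem_product]
      refine ⟨⟨ht, hdd⟩, ?_, ?_⟩
      · show k * N ≤ t * p * d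
        rw [htpd]; exact hk1
      · show t * p * d < (k + 1) * N
        rw [htpd]; exact hk2
    · by_cases hg : ∀ m : ℕ, 1 ≤ m → m ≤ lp N 24 → GoodAt N m (p * d)
      · left; left
        refine ⟨hm, ?_⟩
        have hlamd : (lam d : ℂ) = χ (d : ZMod N) := by
          by_contra hne
          apply hdd
          rw [dis, mem_filter, mem_range]
          exact ⟨hdN', hdN, hne⟩
        have hgt := hg t htp.one_le htI.2
        unfold GoodAt at hgt
        rw [Nat.mod_eq_of_lt hpdN] at hgt
        have hz : (t * (p * d)) % N = p * m - k * N := by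
          have h1 : t * (p * d) = p * m := by rw [hd]; ring
          rw [h1]
          exact mod_eq_sub hk1 hk2
        have hpd0 : p * d ≠ 0 := Nat.mul_ne_zero hp.ne_zero (by omega)
        have hlz : lam (p * m - k * N) = lam d := by
          rw [← hz, hgt, lam_mul hp.ne_zero (by omega), lam_prime hp, lam_prime htp]
          ring
        have hzt : ((p * m - k * N : ℕ) : ZMod N) = (t : ZMod N) * (p : ZMod N) * (d : ZMod N) := by
          rw [← hz, ZMod.natCast_mod]
          push_cast
          ring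
        have htχ : χ (t : ZMod N) = -1 := by
          apply hT t ht
          intro hdvd
          have := Nat.eq_one_of_dvd_coprimes htN dvd_rfl hdvd
          exact htp.one_lt.ne' this
        have hzχ : χ ((p * m - k * N : ℕ) : ZMod N) = - χ (d : ZMod N) := by
          rw [hzt, map_mul, map_mul, htχ, hχ]
          ring
        have hz0 : χ ((p * m - k * N : ℕ) : ZMod N) ≠ 0 := by
          rw [hzχ]
          exact neg_ne_zero.2 (chi_ne_zero χ hdN)
        rw [hD1, mem_filter, dis, mem_filter, mem_range]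
        refine ⟨⟨?_, coprime_of_chi_ne_zero χ hz0, ?_⟩, ?_⟩
        · rw [← hz]
          exact Nat.mod_lt _ (by omega)
        · rw [hlz, hzχ, hlamd]
          intro he
          have h0 : χ (d : ZMod N) ≠ 0 := chi_ne_zero χ hdN
          apply h0
          have h2 : (2 : ℂ) * χ (d : ZMod N) = 0 := by
            linear_combination he
          rcases mul_eq_zero.1 h2 with h3 | h3
          · norm_num at h3
          · exact h3
        · rw [Nat.sub_add_cancel hk1]
          exact dvd_mul_right p m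
      · right
        refine ⟨hm, ?_⟩
        rw [hD3, mem_filter, mem_product, mem_range]
        refine ⟨⟨ht, hdN'⟩, hd0, hpdN, ?_, ?_, hg⟩
        · show k * N ≤ t * p * d
          rw [htpd]; exact hk1
        · show t * p * d < (k + 1) * N
          rw [htpd]; exact hk2
  have hc1 : (S.filter fun m => p * m - k * N ∈ D1).card ≤ D1.card := by
    apply card_le_card_of_injOn (fun m => p * m - k * N)
    · intro m hm
      have hm2 := mem_coe.1 hm
      rw [mem_filter] at hm2
      exact mem_coe.2 hm2.2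
    · intro m hm m' hm' he
      have hm1 := mem_coe.1 hm
      have hm1' := mem_coe.1 hm'
      rw [mem_filter, hS, mem_filter] at hm1 hm1'
      have e1 := hm1.1.2.1
      have e2 := hm1'.1.2.1
      have he' : p * m - k * N = p * m' - k * N := he
      have h3 : p * m = p * m' := by omega
      exact Nat.eq_of_mul_eq_mul_left hp.pos h3
  have hinj : ∀ D : Finset (ℕ × ℕ), (S.filter fun m => (T m, m / T m) ∈ D).card ≤ D.card := by
    intro D
    apply card_le_card_of_injOn (fun m => (T m, m / T m))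
    · intro m hm
      have hm2 := mem_coe.1 hm
      rw [mem_filter] at hm2
      exact mem_coe.2 hm2.2
    · intro m hm m' hm' he
      have hm1 := mem_coe.1 hm
      have hm1' := mem_coe.1 hm'
      rw [mem_filter] at hm1 hm1'
      have he1 : T m = T m' := (Prod.mk.inj he).1
      have he2 : m / T m = m' / T m' := (Prod.mk.inj he).2
      have e1 := Nat.div_mul_cancel (hTm m hm1.1).2
      have e2 := Nat.div_mul_cancel (hTm m' hm1'.1).2
      rw [← e1, ← e2, he2, he1]
  calc S.card ≤ _ := card_le_card hsub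
    _ ≤ _ := card_union_le _ _
    _ ≤ _ := by
      gcongr
      · refine (card_union_le _ _).trans ?_
        exact Nat.add_le_add hc1 (hinj D2)
      · exact hinj D3

end Pool.Agent.GLI
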