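import Pool.Agent.GLI.CmpBasic

set_option autoImplicit false

/-!
Module CmpA (`q = χ.conductor ≤ N^0.9`). `y = ⌊√N⌋`, `L = L1 χ*`, `L ≥ c N^(-ε/2)` (siegel), wlog `ε ≤ 1/100`. r_prim (`δ = 1/1000`):
`R(y) ≥ y L - C √y q^(1/4+δ) ≥ y L/2` as `√y q^(1/4+δ) ≤ N^0.476`, `y L ≥ N^0.49`. r_low_Sp: `y L/2 ≤ N^δ √y + 8 y log N Sp χ y`, so
`Sp χ y ≥ L/(32 log N)`. Sp_tail with `B = 2 L + C N^(-0.02) ≤ 3 L` (r_prim at `2Y`): `Sp χ N ≤ Sp χ y + 3 log N · 3 L
≤ (log N)^3 Sp χ y`.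
-/

open Finset Filter

namespace Pool.Agent.GLI

theorem cmp_a (ε : ℝ) (hε : 0 < ε) : ∀ᶠ N : ℕ in atTop, ∀ _ : NeZero N,
    ∀ χ : DirichletCharacter ℂ N, RealChar χ → χ ≠ 1 →
    (χ.conductor : ℝ) ≤ (N : ℝ) ^ (9 / 10 : ℝ) →
    ∃ y : ℕ, 1 ≤ y ∧ (y : ℝ) ≤ Real.sqrt N * Real.log N ^ 12 ∧
      (N : ℝ) ^ (-ε) ≤ Sp χ y ∧ Sp χ N ≤ Real.log N ^ 6 * Sp χ y := by
  obtain ⟨κ, hκ0, hκε, hκ1⟩ : ∃ κ : ℝ, 0 < κ ∧ 2 * κ ≤ ε ∧ κ ≤ 1 / 200 :=
    ⟨min (ε / 2) (1 / 200), by positivity, by linarith [min_le_left (ε / 2) (1 / 200)],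
      min_le_right _ _⟩
  obtain ⟨c, hc, hsieg⟩ := siegel κ hκ0
  obtain ⟨C, hC, hr⟩ := r_prim (1 / 1000) (by norm_num)
  filter_upwards [r_low_Sp (1 / 1000) (by norm_num), ev_log 200, eventually_ge_atTop 4,
    ev_pow (476 / 1000) (495 / 1000) (by norm_num) 0 (4 * C / c),
    ev_pow (251 / 1000) (495 / 1000) (by norm_num) 0 (8 / c),
    ev_pow (-(2 * κ)) (-κ) (by linarith) 1 (32 / c),
    ev_pow (-(24 / 1000)) (-(5 / 1000)) (by norm_num) 0 (2 * C / c)]
    with N hlow hl200 hN4 hp1 hp2 hp3 hp4 inst χ hreal hχ hq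
  simp only [pow_zero, mul_one, pow_one] at hp1 hp2 hp3 hp4
  obtain ⟨hreal', hχ', hqN, hq0, -⟩ := prim_real N χ hreal hχ
  haveI : NeZero χ.conductor := ⟨hq0⟩
  have hN0 : (0 : ℝ) < N := by positivity
  have hN1 : (1 : ℝ) ≤ N := by exact_mod_cast (by omega : 1 ≤ N)
  have hlN : 0 < Real.log N := by linarith
  have hqpos : (0 : ℝ) < χ.conductor := by
    have : 0 < χ.conductor := Nat.pos_of_ne_zero hq0
    exact_mod_cast this
  have hqN' : (χ.conductor : ℝ) ≤ N := by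
    exact_mod_cast Nat.le_of_dvd (by omega) hqN
  -- lower bound for `L(1)`
  have hL : c * (N : ℝ) ^ (-κ) ≤ L1 χ.primitiveCharacter := by
    refine le_trans ?_ (hsieg _ inferInstance _ (DirichletCharacter.primitiveCharacter_isPrimitive χ)
      hχ' hreal')
    refine mul_le_mul_of_nonneg_left ?_ hc.le
    exact Real.rpow_le_rpow_of_nonpos hqpos hqN' (by linarith)
  set L : ℝ := L1 χ.primitiveCharacter with hLdef
  have hL5 : c * (N : ℝ) ^ (-(5 / 1000) : ℝ) ≤ L := by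
    refine le_trans ?_ hL
    refine mul_le_mul_of_nonneg_left ?_ hc.le
    exact Real.rpow_le_rpow_of_exponent_le hN1 (by linarith)
  have hL0 : 0 < L := lt_of_lt_of_le (by positivity) hL5
  -- power of the conductor
  have hqp : (χ.conductor : ℝ) ^ (1 / 4 + 1 / 1000 : ℝ) ≤ (N : ℝ) ^ (2259 / 10000 : ℝ) := by
    have h1 : (χ.conductor : ℝ) ^ (1 / 4 + 1 / 1000 : ℝ) ≤
        ((N : ℝ) ^ (9 / 10 : ℝ)) ^ (1 / 4 + 1 / 1000 : ℝ) :=
      Real.rpow_le_rpow hqpos.le hq (by norm_num)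
    rw [← Real.rpow_mul hN0.le] at h1
    refine h1.trans (le_of_eq ?_)
    norm_num
  -- y
  set y : ℕ := Nat.sqrt N with hy
  have hy2 : 2 ≤ y := by
    rw [hy, Nat.le_sqrt]
    omega
  have hy0 : (0 : ℝ) < y := by positivity
  have hyN : (y : ℝ) ≤ Real.sqrt N := Real.nat_sqrt_le_real_sqrt
  have hyN' : y ≤ N := Nat.sqrt_le_self N
  have hyl : Real.sqrt N / 2 ≤ y := by
    have h1 : Real.sqrt N < y + 1 := Real.real_sqrt_lt_nat_sqrt_succ
    have h2 : (2 : ℝ) ≤ y := by exact_mod_cast hy2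
    linarith
  have hsq : Real.sqrt N = (N : ℝ) ^ (1 / 2 : ℝ) := Real.sqrt_eq_rpow _
  -- the square root of `y`
  have hsy : Real.sqrt y ≤ (N : ℝ) ^ (1 / 4 : ℝ) := by
    refine (Real.sqrt_le_sqrt hyN).trans (le_of_eq ?_)
    rw [hsq, Real.sqrt_eq_rpow, ← Real.rpow_mul hN0.le]
    norm_num
  have hyL : c / 2 * (N : ℝ) ^ (495 / 1000 : ℝ) ≤ y * L := by
    have h1 : Real.sqrt N / 2 * (c * (N : ℝ) ^ (-(5 / 1000) : ℝ)) ≤ y * L :=
      mul_le_mul hyl hL5 (by positivity) hy0.le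
    refine le_trans (le_of_eq ?_) h1
    rw [hsq]
    have h2 : (N : ℝ) ^ (495 / 1000 : ℝ) = (N : ℝ) ^ (1 / 2 : ℝ) * (N : ℝ) ^ (-(5 / 1000) : ℝ) := by
      rw [← Real.rpow_add hN0]
      norm_num
    rw [h2]
    ring
  have hRy : y * L / 2 ≤ ∑ n ∈ Icc 1 y, rr χ.primitiveCharacter n := by
    have h1 := (abs_le.1 (hr _ inferInstance _ (DirichletCharacter.primitiveCharacter_isPrimitive χ)
      hχ' hreal' y (by omega))).1
    have h2 : C * Real.sqrt y * (χ.conductor : ℝ) ^ (1 / 4 + 1 / 1000 : ℝ) ≤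
        C * (N : ℝ) ^ (476 / 1000 : ℝ) := by
      rw [mul_assoc]
      refine mul_le_mul_of_nonneg_left ?_ hC.le
      have h3 : Real.sqrt y * (χ.conductor : ℝ) ^ (1 / 4 + 1 / 1000 : ℝ) ≤
          (N : ℝ) ^ (1 / 4 : ℝ) * (N : ℝ) ^ (2259 / 10000 : ℝ) :=
        mul_le_mul hsy hqp (by positivity) (by positivity)
      refine h3.trans ?_
      rw [← Real.rpow_add hN0]
      exact Real.rpow_le_rpow_of_exponent_le hN1 (by norm_num)
    have h4 : C * (N : ℝ) ^ (476 / 1000 : ℝ) ≤ c / 4 * (N : ℝ) ^ (495 / 1000 : ℝ) := by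
      have h5 := mul_le_mul_of_nonneg_left hp1 (show 0 ≤ c / 4 by positivity)
      have h6 : c / 4 * (4 * C / c * (N : ℝ) ^ (476 / 1000 : ℝ)) = C * (N : ℝ) ^ (476 / 1000 : ℝ) := by
        field_simp
      linarith
    linarith
  have hSpy : L ≤ 32 * Real.log N * Sp χ y := by
    have h1 := hlow inst χ hreal hχ y (by omega) hyN'
    have h2 : (N : ℝ) ^ (1 / 1000 : ℝ) * Real.sqrt y ≤ (N : ℝ) ^ (251 / 1000 : ℝ) := by
      refine (mul_le_mul_of_nonneg_left hsy (by positivity)).trans ?_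
      rw [← Real.rpow_add hN0]
      exact Real.rpow_le_rpow_of_exponent_le hN1 (by norm_num)
    have h4 : (N : ℝ) ^ (251 / 1000 : ℝ) ≤ c / 8 * (N : ℝ) ^ (495 / 1000 : ℝ) := by
      have h5 := mul_le_mul_of_nonneg_left hp2 (show 0 ≤ c / 8 by positivity)
      have h6 : c / 8 * (8 / c * (N : ℝ) ^ (251 / 1000 : ℝ)) = (N : ℝ) ^ (251 / 1000 : ℝ) := by
        field_simp
      linarith
    have h7 : y * L / 4 ≤ 8 * y * Real.log N * Sp χ y := by linarith
    have h8 : y * L ≤ y * (32 * Real.log N * Sp χ y) := by linarith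
    exact le_of_mul_le_mul_left h8 hy0
  have hSp0 : 0 < Sp χ y := by
    have : 0 < 32 * Real.log N * Sp χ y := lt_of_lt_of_le hL0 hSpy
    exact pos_of_mul_pos_right this (by positivity)
  refine ⟨y, by omega, ?_, ?_, ?_⟩
  · refine hyN.trans ?_
    have h1 : (1 : ℝ) ≤ Real.log N ^ 12 := one_le_pow₀ (by linarith)
    exact le_mul_of_one_le_right (Real.sqrt_nonneg _) h1
  · have h1 : (N : ℝ) ^ (-ε) ≤ (N : ℝ) ^ (-(2 * κ)) :=
      Real.rpow_le_rpow_of_exponent_le hN1 (by linarith)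
    refine h1.trans ?_
    have h2 := mul_le_mul_of_nonneg_left hp3 hc.le
    have h3 : c * (32 / c * (N : ℝ) ^ (-(2 * κ)) * Real.log N) =
        32 * Real.log N * (N : ℝ) ^ (-(2 * κ)) := by
      field_simp
    have h4 : 32 * Real.log N * (N : ℝ) ^ (-(2 * κ)) ≤ 32 * Real.log N * Sp χ y := by linarith
    exact le_of_mul_le_mul_left h4 (by positivity)
  · have htail : ∀ Y : ℕ, y ≤ Y → Y < N → ∑ n ∈ Icc 1 (2 * Y), rr χ.primitiveCharacter n ≤
        3 * L * Y := by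
      intro Y hyY hYN
      have h1 := (abs_le.1 (hr _ inferInstance _
        (DirichletCharacter.primitiveCharacter_isPrimitive χ) hχ' hreal' (2 * Y) (by omega))).2
      have hY0 : (0 : ℝ) < Y := lt_of_lt_of_le hy0 (by exact_mod_cast hyY)
      have hyY' : (y : ℝ) ≤ Y := by exact_mod_cast hyY
      -- `√(2Y) ≤ 2 Y N^(-1/4)`
      have h2 : Real.sqrt ((2 * Y : ℕ) : ℝ) ≤ 2 * Y * (N : ℝ) ^ (-(1 / 4) : ℝ) := by
        rw [Real.sqrt_le_left (by positivity)]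
        push_cast
        have h3 : (2 * Y * (N : ℝ) ^ (-(1 / 4) : ℝ)) ^ 2 = 4 * Y * (Y * (N : ℝ) ^ (-(1 / 2) : ℝ)) := by
          have h4 : (N : ℝ) ^ (-(1 / 2) : ℝ) = (N : ℝ) ^ (-(1 / 4) : ℝ) * (N : ℝ) ^ (-(1 / 4) : ℝ) := by
            rw [← Real.rpow_add hN0]
            norm_num
          rw [h4]
          ring
        rw [h3]
        have h5 : 1 / 2 ≤ Y * (N : ℝ) ^ (-(1 / 2) : ℝ) := by
          have h6 : Real.sqrt N / 2 ≤ Y := hyl.trans hyY'
          have h7 : Real.sqrt N * (N : ℝ) ^ (-(1 / 2) : ℝ) = 1 := by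
            rw [hsq, ← Real.rpow_add hN0]
            norm_num
          have h8 : Real.sqrt N / 2 * (N : ℝ) ^ (-(1 / 2) : ℝ) ≤ Y * (N : ℝ) ^ (-(1 / 2) : ℝ) :=
            mul_le_mul_of_nonneg_right h6 (by positivity)
          linarith
        have h9 : 4 * (Y : ℝ) * (1 / 2) ≤ 4 * Y * (Y * (N : ℝ) ^ (-(1 / 2) : ℝ)) :=
          mul_le_mul_of_nonneg_left h5 (by positivity)
        linarith
      have h3 : C * Real.sqrt ((2 * Y : ℕ) : ℝ) * (χ.conductor : ℝ) ^ (1 / 4 + 1 / 1000 : ℝ) ≤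
          Y * L := by
        calc C * Real.sqrt ((2 * Y : ℕ) : ℝ) * (χ.conductor : ℝ) ^ (1 / 4 + 1 / 1000 : ℝ)
            ≤ C * (2 * Y * (N : ℝ) ^ (-(1 / 4) : ℝ)) * (N : ℝ) ^ (2259 / 10000 : ℝ) :=
              mul_le_mul (mul_le_mul_of_nonneg_left h2 hC.le) hqp (by positivity) (by positivity)
          _ = Y * (2 * C * (N : ℝ) ^ (-(241 / 10000) : ℝ)) := by
              have h4 : (N : ℝ) ^ (-(241 / 10000) : ℝ) =
                  (N : ℝ) ^ (-(1 / 4) : ℝ) * (N : ℝ) ^ (2259 / 10000 : ℝ) := by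
                rw [← Real.rpow_add hN0]
                norm_num
              rw [h4]
              ring
          _ ≤ Y * L := by
              refine mul_le_mul_of_nonneg_left ?_ hY0.le
              refine le_trans ?_ hL5
              have h5 := mul_le_mul_of_nonneg_left hp4 hc.le
              have h6 : c * (2 * C / c * (N : ℝ) ^ (-(24 / 1000) : ℝ)) =
                  2 * C * (N : ℝ) ^ (-(24 / 1000) : ℝ) := by
                field_simp
              have h7 : (N : ℝ) ^ (-(241 / 10000) : ℝ) ≤ (N : ℝ) ^ (-(24 / 1000) : ℝ) :=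
                Real.rpow_le_rpow_of_exponent_le hN1 (by norm_num)
              have h8 : 2 * C * (N : ℝ) ^ (-(241 / 10000) : ℝ) ≤
                  2 * C * (N : ℝ) ^ (-(24 / 1000) : ℝ) :=
                mul_le_mul_of_nonneg_left h7 (by positivity)
              linarith
      push_cast at h1 h3 ⊢
      linarith
    have h1 := Sp_tail N χ hreal hχ y (by omega) (3 * L) (by positivity) htail
    have h2 : ((Nat.log 2 N : ℕ) : ℝ) + 1 ≤ 2 * Real.log N := by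
      have h3 : 2 ^ (Nat.log 2 N) ≤ N := Nat.pow_log_le_self 2 (by omega)
      have h4 : ((2 : ℝ)) ^ (Nat.log 2 N) ≤ N := by exact_mod_cast h3
      have h5 := Real.log_le_log (by positivity) h4
      rw [Real.log_pow] at h5
      have h6 := Real.log_two_gt_d9
      have h7 : ((Nat.log 2 N : ℕ) : ℝ) * (69 / 100) ≤ (Nat.log 2 N : ℕ) * Real.log 2 :=
        mul_le_mul_of_nonneg_left (by linarith) (Nat.cast_nonneg _)
      linarith
    have h8 : (((Nat.log 2 N : ℕ) : ℝ) + 1) * (3 * L) ≤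
        2 * Real.log N * (3 * (32 * Real.log N * Sp χ y)) :=
      mul_le_mul h2 (by linarith) (by positivity) (by positivity)
    have h9 : 1 + 192 * Real.log N ^ 2 ≤ Real.log N ^ 6 := by
      have h10 : (200 : ℝ) * Real.log N ^ 2 ≤ Real.log N * Real.log N ^ 2 :=
        mul_le_mul_of_nonneg_right hl200 (by positivity)
      have h11 : Real.log N ^ 3 ≤ Real.log N ^ 6 :=
        pow_le_pow_right₀ (by linarith) (by norm_num)
      have h12 : (1 : ℝ) ≤ Real.log N ^ 2 := one_le_pow₀ (by linarith)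
      have h13 : Real.log N * Real.log N ^ 2 = Real.log N ^ 3 := by ring
      linarith
    have h14 : (1 + 192 * Real.log N ^ 2) * Sp χ y ≤ Real.log N ^ 6 * Sp χ y :=
      mul_le_mul_of_nonneg_right h9 hSp0.le
    have h15 : 2 * Real.log N * (3 * (32 * Real.log N * Sp χ y)) = 192 * Real.log N ^ 2 * Sp χ y := by
      ring
    linarith

end Pool.Agent.GLI
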