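import Pool.Agent.GLI.ThDefs

set_option autoImplicit false

/-!
Module ThKer. The Bessel kernel.
-/

open Finset Filter MeasureTheory

namespace Pool.Agent.GLI

/-- the integrand of `KE` with a general constant -/
theorem ker_aux_exp (w : ℝ) (hw : 0 < w) : Real.exp (-w) ≤ 1 / w := by
  rw [Real.exp_neg, ← one_div]
  exact one_div_le_one_div_of_le hw (by linarith [Real.add_one_le_exp w])

theorem ker_cont (b x : ℝ) : ContinuousOn
    (fun v : ℝ => Real.exp (-b * (v ^ 2 + x ^ 2 / v ^ 2)) / v) (Set.Ioi 0) := by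
  apply ContinuousOn.div
  · apply Real.continuous_exp.comp_continuousOn
    apply ContinuousOn.mul continuousOn_const
    apply ContinuousOn.add (by fun_prop)
    apply ContinuousOn.div continuousOn_const (by fun_prop)
    intro v hv
    have : (0 : ℝ) < v := hv
    positivity
  · fun_prop
  · intro v hv
    exact (ne_of_gt hv)

theorem ker_le1 (b x v : ℝ) (hb : 0 < b) (hx : 0 < x) (hv : 0 < v) :
    Real.exp (-b * (v ^ 2 + x ^ 2 / v ^ 2)) / v ≤ 1 / (b * x ^ 2) * (v * Real.exp (-b * v ^ 2)) := by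
  have h1 : Real.exp (-b * (v ^ 2 + x ^ 2 / v ^ 2)) =
      Real.exp (-b * v ^ 2) * Real.exp (-(b * (x ^ 2 / v ^ 2))) := by
    rw [← Real.exp_add]; congr 1; ring
  have h2 : Real.exp (-(b * (x ^ 2 / v ^ 2))) ≤ 1 / (b * (x ^ 2 / v ^ 2)) :=
    ker_aux_exp _ (by positivity)
  rw [h1, div_le_iff₀ hv]
  calc Real.exp (-b * v ^ 2) * Real.exp (-(b * (x ^ 2 / v ^ 2)))
      ≤ Real.exp (-b * v ^ 2) * (1 / (b * (x ^ 2 / v ^ 2))) := by gcongr
    _ = 1 / (b * x ^ 2) * (v * Real.exp (-b * v ^ 2)) * v := by field_simp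

theorem ker_integrable (b x : ℝ) (hb : 0 < b) (hx : 0 < x) :
    IntegrableOn (fun v : ℝ => Real.exp (-b * (v ^ 2 + x ^ 2 / v ^ 2)) / v) (Set.Ioi 0) := by
  have h0 : IntegrableOn (fun v : ℝ => 1 / (b * x ^ 2) * (v * Real.exp (-b * v ^ 2))) (Set.Ioi 0) :=
    ((integrable_mul_exp_neg_mul_sq hb).const_mul _).integrableOn
  refine Integrable.mono' h0 ((ker_cont b x).aestronglyMeasurable measurableSet_Ioi) ?_
  filter_upwards [ae_restrict_mem measurableSet_Ioi] with v hv
  have hv' : (0 : ℝ) < v := hv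
  rw [Real.norm_of_nonneg (by positivity)]
  exact ker_le1 b x v hb hx hv'

theorem KE_integrable (x : ℝ) (hx : 0 < x) :
    IntegrableOn (fun v : ℝ => Real.exp (-Real.pi * (v ^ 2 + x ^ 2 / v ^ 2)) / v) (Set.Ioi 0) :=
  ker_integrable Real.pi x Real.pi_pos hx

theorem KE_nonneg (x : ℝ) : 0 ≤ KE x := by
  apply setIntegral_nonneg measurableSet_Ioi
  intro v hv
  have hv' : (0 : ℝ) < v := hv
  positivity

theorem KE_anti (x y : ℝ) (hx : 0 < x) (hxy : x ≤ y) : KE y ≤ KE x := by
  apply setIntegral_mono_on (KE_integrable y (lt_of_lt_of_le hx hxy)) (KE_integrable x hx)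
    measurableSet_Ioi
  intro v hv
  have hv' : (0 : ℝ) < v := hv
  apply div_le_div_of_nonneg_right _ hv'.le
  apply Real.exp_le_exp.mpr
  have h1 : x ^ 2 / v ^ 2 ≤ y ^ 2 / v ^ 2 := by gcongr
  have h2 := Real.pi_pos
  nlinarith

theorem KE_pos (x : ℝ) (hx : 0 < x) : 0 < KE x := by
  unfold KE
  rw [setIntegral_pos_iff_support_of_nonneg_ae]
  · have : (Function.support fun v : ℝ => Real.exp (-Real.pi * (v ^ 2 + x ^ 2 / v ^ 2)) / v) ∩
        Set.Ioi 0 = Set.Ioi 0 := by
      apply Set.inter_eq_right.mpr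
      intro v hv
      have hv' : (0 : ℝ) < v := hv
      rw [Function.mem_support]
      positivity
    rw [this]
    simp
  · filter_upwards [ae_restrict_mem measurableSet_Ioi] with v hv
    have hv' : (0 : ℝ) < v := hv
    show (0 : ℝ) ≤ _
    positivity
  · exact KE_integrable x hx

theorem KE_one : 0 < KE 1 := KE_pos 1 one_pos

theorem ker_tail (b : ℝ) (hb : 0 < b) (m : ℝ) (hm : 0 ≤ m) :
    ∫ v in Set.Ioi m, v * Real.exp (-b * v ^ 2) ≤ 1 / (2 * b) := by
  have hd : ∀ v ∈ Set.Ici m, HasDerivAt (fun v : ℝ => -(1 / (2 * b)) * Real.exp (-b * v ^ 2))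
      (v * Real.exp (-b * v ^ 2)) v := by
    intro v _
    have h1 : HasDerivAt (fun v : ℝ => -b * v ^ 2) (-b * (2 * v)) v := by
      have := (hasDerivAt_pow 2 v).const_mul (-b)
      simpa using this
    have h2 := (h1.exp).const_mul (-(1 / (2 * b)))
    have h3 : -(1 / (2 * b)) * (Real.exp (-b * v ^ 2) * (-b * (2 * v))) =
        v * Real.exp (-b * v ^ 2) := by
      field_simp
    rw [h3] at h2
    exact h2
  have hlim : Tendsto (fun v : ℝ => -(1 / (2 * b)) * Real.exp (-b * v ^ 2)) atTop (nhds 0) := by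
    have h1 : Tendsto (fun v : ℝ => -b * v ^ 2) atTop atBot := by
      apply Tendsto.const_mul_atTop_of_neg (by linarith)
      exact tendsto_pow_atTop (by norm_num)
    have h2 := (Real.tendsto_exp_atBot.comp h1).const_mul (-(1 / (2 * b)))
    simpa using h2
  have hint : IntegrableOn (fun v : ℝ => v * Real.exp (-b * v ^ 2)) (Set.Ioi m) :=
    (integrable_mul_exp_neg_mul_sq hb).integrableOn
  rw [integral_Ioi_of_hasDerivAt_of_tendsto' hd hint hlim]
  have h3 : Real.exp (-b * m ^ 2) ≤ 1 := Real.exp_le_one_iff.mpr (by nlinarith [sq_nonneg m])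
  have h4 : 0 < 1 / (2 * b) := by positivity
  nlinarith

theorem ker_int_le (x : ℝ) (hx : 0 < x) :
    ∫ v in Set.Ioi (0 : ℝ), Real.exp (-(Real.pi / 2) * (v ^ 2 + x ^ 2 / v ^ 2)) / v ≤
      2 + |Real.log x| := by
  have hpi := Real.pi_pos
  have hpi3 := Real.pi_gt_three
  have hb : 0 < Real.pi / 2 := by positivity
  set m : ℝ := max x 1 with hm
  have hxm : x ≤ m := le_max_left _ _
  have h1m : 1 ≤ m := le_max_right _ _
  have hint := ker_integrable (Real.pi / 2) x hb hx
  have e1 : Set.Ioi (0 : ℝ) = Set.Ioc 0 x ∪ Set.Ioi x := (Set.Ioc_union_Ioi_eq_Ioi hx.le).symm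
  have e2 : Set.Ioi x = Set.Ioc x m ∪ Set.Ioi m := (Set.Ioc_union_Ioi_eq_Ioi hxm).symm
  have hi1 : IntegrableOn (fun v : ℝ => Real.exp (-(Real.pi / 2) * (v ^ 2 + x ^ 2 / v ^ 2)) / v)
      (Set.Ioc 0 x) := hint.mono_set (by rw [e1]; exact Set.subset_union_left)
  have hi2 : IntegrableOn (fun v : ℝ => Real.exp (-(Real.pi / 2) * (v ^ 2 + x ^ 2 / v ^ 2)) / v)
      (Set.Ioi x) := hint.mono_set (by rw [e1]; exact Set.subset_union_right)
  have hi3 : IntegrableOn (fun v : ℝ => Real.exp (-(Real.pi / 2) * (v ^ 2 + x ^ 2 / v ^ 2)) / v)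
      (Set.Ioc x m) := hi2.mono_set (by rw [e2]; exact Set.subset_union_left)
  have hi4 : IntegrableOn (fun v : ℝ => Real.exp (-(Real.pi / 2) * (v ^ 2 + x ^ 2 / v ^ 2)) / v)
      (Set.Ioi m) := hi2.mono_set (by rw [e2]; exact Set.subset_union_right)
  rw [e1, setIntegral_union (Set.Ioc_disjoint_Ioi le_rfl) measurableSet_Ioi hi1 hi2, e2,
    setIntegral_union (Set.Ioc_disjoint_Ioi le_rfl) measurableSet_Ioi hi3 hi4]
  have b1 : ∫ v in Set.Ioc 0 x, Real.exp (-(Real.pi / 2) * (v ^ 2 + x ^ 2 / v ^ 2)) / v ≤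
      1 / Real.pi := by
    have hh : ∫ v in Set.Ioc 0 x, Real.exp (-(Real.pi / 2) * (v ^ 2 + x ^ 2 / v ^ 2)) / v ≤
        ∫ v in Set.Ioc 0 x, 2 / (Real.pi * x ^ 2) * v := by
      apply setIntegral_mono_on hi1 _ measurableSet_Ioc
      · intro v hv
        have hv' : (0 : ℝ) < v := hv.1
        refine (ker_le1 _ x v hb hx hv').trans ?_
        have h3 : Real.exp (-(Real.pi / 2) * v ^ 2) ≤ 1 :=
          Real.exp_le_one_iff.mpr (by nlinarith [sq_nonneg v])
        calc 1 / (Real.pi / 2 * x ^ 2) * (v * Real.exp (-(Real.pi / 2) * v ^ 2))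
            ≤ 1 / (Real.pi / 2 * x ^ 2) * (v * 1) := by gcongr
          _ = 2 / (Real.pi * x ^ 2) * v := by field_simp
      · have : IntegrableOn (fun v : ℝ => 2 / (Real.pi * x ^ 2) * v) (Set.Icc 0 x) :=
          (Continuous.continuousOn (by fun_prop)).integrableOn_Icc
        exact this.mono_set Set.Ioc_subset_Icc_self
    refine hh.trans (le_of_eq ?_)
    rw [← intervalIntegral.integral_of_le hx.le, intervalIntegral.integral_const_mul, integral_id]
    field_simp
    ring
  have b2 : ∫ v in Set.Ioc x m, Real.exp (-(Real.pi / 2) * (v ^ 2 + x ^ 2 / v ^ 2)) / v ≤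
      |Real.log x| := by
    have hm0 : 0 < m := lt_of_lt_of_le one_pos h1m
    have hh : ∫ v in Set.Ioc x m, Real.exp (-(Real.pi / 2) * (v ^ 2 + x ^ 2 / v ^ 2)) / v ≤
        ∫ v in Set.Ioc x m, 1 / v := by
      apply setIntegral_mono_on hi3 _ measurableSet_Ioc
      · intro v hv
        have hv' : (0 : ℝ) < v := hx.trans hv.1
        apply div_le_div_of_nonneg_right _ hv'.le
        apply Real.exp_le_one_iff.mpr
        have : 0 ≤ v ^ 2 + x ^ 2 / v ^ 2 := by positivity
        nlinarith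
      · have : IntegrableOn (fun v : ℝ => 1 / v) (Set.Icc x m) := by
          apply ContinuousOn.integrableOn_Icc
          apply ContinuousOn.div continuousOn_const continuousOn_id
          intro v hv
          exact ne_of_gt (lt_of_lt_of_le hx hv.1)
        exact this.mono_set Set.Ioc_subset_Icc_self
    refine hh.trans ?_
    rw [← intervalIntegral.integral_of_le hxm, integral_one_div_of_pos hx hm0]
    rcases le_total x 1 with h | h
    · have : m = 1 := max_eq_right h
      rw [this, one_div, Real.log_inv]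
      exact neg_le_abs _
    · have : m = x := max_eq_left h
      rw [this, div_self hx.ne', Real.log_one]
      exact abs_nonneg _
  have b3 : ∫ v in Set.Ioi m, Real.exp (-(Real.pi / 2) * (v ^ 2 + x ^ 2 / v ^ 2)) / v ≤
      1 / Real.pi := by
    have hh : ∫ v in Set.Ioi m, Real.exp (-(Real.pi / 2) * (v ^ 2 + x ^ 2 / v ^ 2)) / v ≤
        ∫ v in Set.Ioi m, v * Real.exp (-(Real.pi / 2) * v ^ 2) := by
      apply setIntegral_mono_on hi4 _ measurableSet_Ioi
      · intro v hv
        have hv1 : (1 : ℝ) < v := lt_of_le_of_lt h1m hv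
        have hv' : (0 : ℝ) < v := one_pos.trans hv1
        rw [div_le_iff₀ hv']
        have h5 : Real.exp (-(Real.pi / 2) * (v ^ 2 + x ^ 2 / v ^ 2)) ≤
            Real.exp (-(Real.pi / 2) * v ^ 2) := by
          apply Real.exp_le_exp.mpr
          have : 0 ≤ x ^ 2 / v ^ 2 := by positivity
          nlinarith
        have h6 : 1 ≤ v * v := by nlinarith
        calc Real.exp (-(Real.pi / 2) * (v ^ 2 + x ^ 2 / v ^ 2))
            ≤ Real.exp (-(Real.pi / 2) * v ^ 2) := h5
          _ ≤ (v * v) * Real.exp (-(Real.pi / 2) * v ^ 2) :=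
              le_mul_of_one_le_left (Real.exp_nonneg _) h6
          _ = v * Real.exp (-(Real.pi / 2) * v ^ 2) * v := by ring
      · exact (integrable_mul_exp_neg_mul_sq hb).integrableOn
    refine hh.trans ((ker_tail _ hb m (by linarith)).trans (le_of_eq ?_))
    field_simp
  have b4 : 1 / Real.pi ≤ 1 := by
    rw [div_le_one hpi]; linarith
  linarith

theorem KE_le (x : ℝ) (hx : 0 < x) : KE x ≤ Real.exp (-Real.pi * x) * (2 + |Real.log x|) := by
  have hpi := Real.pi_pos
  have hb : 0 < Real.pi / 2 := by positivity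
  have h1 : KE x ≤ ∫ v in Set.Ioi (0 : ℝ), Real.exp (-Real.pi * x) *
      (Real.exp (-(Real.pi / 2) * (v ^ 2 + x ^ 2 / v ^ 2)) / v) := by
    apply setIntegral_mono_on (KE_integrable x hx)
      ((ker_integrable (Real.pi / 2) x hb hx).const_mul _) measurableSet_Ioi
    intro v hv
    have hv' : (0 : ℝ) < v := hv
    rw [mul_div_assoc', ← Real.exp_add]
    apply div_le_div_of_nonneg_right _ hv'.le
    apply Real.exp_le_exp.mpr
    have h2 : 2 * x ≤ v ^ 2 + x ^ 2 / v ^ 2 := by
      have h3 : 0 ≤ (v - x / v) ^ 2 := sq_nonneg _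
      have h4 : (v - x / v) ^ 2 = v ^ 2 + x ^ 2 / v ^ 2 - 2 * x := by
        field_simp
        ring
      linarith
    nlinarith
  rw [integral_const_mul] at h1
  exact h1.trans (mul_le_mul_of_nonneg_left (ker_int_le x hx) (Real.exp_nonneg _))

theorem KE_scale (m a : ℝ) (hm : 0 < m) (ha : 0 < a) :
    KE (m * a) = ∫ v in Set.Ioi (0 : ℝ),
      Real.exp (-Real.pi * m ^ 2 * v ^ 2) * Real.exp (-Real.pi * a ^ 2 / v ^ 2) / v := by
  have h := integral_comp_mul_left_Ioi
    (fun v : ℝ => Real.exp (-Real.pi * (v ^ 2 + (m * a) ^ 2 / v ^ 2)) / v) 0 hm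
  rw [mul_zero] at h
  unfold KE
  have h2 : ∫ v in Set.Ioi (0 : ℝ), Real.exp (-Real.pi * (v ^ 2 + (m * a) ^ 2 / v ^ 2)) / v =
      m * ∫ v in Set.Ioi (0 : ℝ),
        Real.exp (-Real.pi * ((m * v) ^ 2 + (m * a) ^ 2 / (m * v) ^ 2)) / (m * v) := by
    rw [h, smul_eq_mul, ← mul_assoc, mul_inv_cancel₀ hm.ne', one_mul]
  rw [h2, ← integral_const_mul]
  apply setIntegral_congr_fun measurableSet_Ioi
  intro v hv
  have hv' : (0 : ℝ) < v := hv
  simp only
  rw [← Real.exp_add]
  have h3 : -Real.pi * ((m * v) ^ 2 + (m * a) ^ 2 / (m * v) ^ 2) =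
      -Real.pi * m ^ 2 * v ^ 2 + -Real.pi * a ^ 2 / v ^ 2 := by
    field_simp
    ring
  rw [h3]
  field_simp

/-- the Gaussian factor -/
noncomputable def kg (m a v : ℝ) : ℝ :=
  Real.exp (-Real.pi * m ^ 2 * v ^ 2) * Real.exp (-Real.pi * a ^ 2 / v ^ 2)

theorem kg_pos (m a v : ℝ) : 0 < kg m a v := by
  unfold kg; positivity

theorem kg_cont (m a : ℝ) : ContinuousOn (kg m a) (Set.Ioi 0) := by
  unfold kg
  apply ContinuousOn.mul
  · fun_prop
  · apply Real.continuous_exp.comp_continuousOn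
    apply ContinuousOn.div continuousOn_const (by fun_prop)
    intro v hv
    have : (0 : ℝ) < v := hv
    positivity

theorem kg_integrable (m a : ℝ) (hm : 0 < m) (_ha : 0 < a) :
    IntegrableOn (kg m a) (Set.Ioi 0) := by
  have hb : 0 < Real.pi * m ^ 2 := by have := Real.pi_pos; positivity
  have h0 : IntegrableOn (fun v : ℝ => Real.exp (-(Real.pi * m ^ 2) * v ^ 2)) (Set.Ioi 0) :=
    (integrable_exp_neg_mul_sq hb).integrableOn
  refine Integrable.mono' h0 ((kg_cont m a).aestronglyMeasurable measurableSet_Ioi) ?_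
  filter_upwards [ae_restrict_mem measurableSet_Ioi] with v hv
  have hv' : (0 : ℝ) < v := hv
  rw [Real.norm_of_nonneg (kg_pos _ _ _).le]
  unfold kg
  have h1 : Real.exp (-Real.pi * a ^ 2 / v ^ 2) ≤ 1 := by
    apply Real.exp_le_one_iff.mpr
    have : 0 ≤ Real.pi * a ^ 2 / v ^ 2 := by have := Real.pi_pos; positivity
    have e : -Real.pi * a ^ 2 / v ^ 2 = -(Real.pi * a ^ 2 / v ^ 2) := by ring
    rw [e]; linarith
  have e2 : -Real.pi * m ^ 2 * v ^ 2 = -(Real.pi * m ^ 2) * v ^ 2 := by ring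
  rw [e2]
  exact mul_le_of_le_one_right (Real.exp_nonneg _) h1

theorem kg_integrable2 (m a : ℝ) (hm : 0 < m) (ha : 0 < a) :
    IntegrableOn (fun v => kg m a v / v ^ 2) (Set.Ioi 0) := by
  have hb : 0 < Real.pi * m ^ 2 := by have := Real.pi_pos; positivity
  have h0 : IntegrableOn (fun v : ℝ => 1 / (Real.pi * a ^ 2) *
      Real.exp (-(Real.pi * m ^ 2) * v ^ 2)) (Set.Ioi 0) :=
    ((integrable_exp_neg_mul_sq hb).const_mul _).integrableOn
  have hc : ContinuousOn (fun v => kg m a v / v ^ 2) (Set.Ioi 0) := by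
    apply ContinuousOn.div (kg_cont m a) (by fun_prop)
    intro v hv
    have : (0 : ℝ) < v := hv
    positivity
  refine Integrable.mono' h0 (hc.aestronglyMeasurable measurableSet_Ioi) ?_
  filter_upwards [ae_restrict_mem measurableSet_Ioi] with v hv
  have hv' : (0 : ℝ) < v := hv
  rw [Real.norm_of_nonneg (div_nonneg (kg_pos _ _ _).le (by positivity))]
  unfold kg
  have hpa : 0 < Real.pi * a ^ 2 / v ^ 2 := by have := Real.pi_pos; positivity
  have h1 : Real.exp (-Real.pi * a ^ 2 / v ^ 2) ≤ 1 / (Real.pi * a ^ 2 / v ^ 2) := by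
    have e : -Real.pi * a ^ 2 / v ^ 2 = -(Real.pi * a ^ 2 / v ^ 2) := by ring
    rw [e]
    exact ker_aux_exp _ hpa
  have e2 : -Real.pi * m ^ 2 * v ^ 2 = -(Real.pi * m ^ 2) * v ^ 2 := by ring
  rw [e2, div_le_iff₀ (by positivity)]
  calc Real.exp (-(Real.pi * m ^ 2) * v ^ 2) * Real.exp (-Real.pi * a ^ 2 / v ^ 2)
      ≤ Real.exp (-(Real.pi * m ^ 2) * v ^ 2) * (1 / (Real.pi * a ^ 2 / v ^ 2)) := by gcongr
    _ = 1 / (Real.pi * a ^ 2) * Real.exp (-(Real.pi * m ^ 2) * v ^ 2) * v ^ 2 := by field_simp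

theorem kg_inv (m a v : ℝ) (hm : 0 < m) (ha : 0 < a) (hv : 0 < v) :
    kg m a (a / m / v) = kg m a v := by
  unfold kg
  rw [mul_comm]
  congr 2
  · field_simp
  · field_simp

theorem kg_swap (m a : ℝ) (hm : 0 < m) (ha : 0 < a) :
    ∫ v in Set.Ioi (0 : ℝ), kg m a v = (a / m) * ∫ v in Set.Ioi (0 : ℝ), kg m a v / v ^ 2 := by
  have hc : 0 < a / m := by positivity
  have himg : (fun v : ℝ => a / m / v) '' Set.Ioi 0 = Set.Ioi 0 := by
    ext z
    constructor
    · rintro ⟨v, hv, rfl⟩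
      have : (0 : ℝ) < v := hv
      show (0 : ℝ) < a / m / v
      positivity
    · intro hz
      have hz' : (0 : ℝ) < z := hz
      refine ⟨a / m / z, ?_, ?_⟩
      · show (0 : ℝ) < a / m / z
        positivity
      · show a / m / (a / m / z) = z
        field_simp
  have h := integral_image_eq_integral_abs_deriv_smul (s := Set.Ioi (0 : ℝ))
    (f := fun v : ℝ => a / m / v) (f' := fun v => -(a / m) / v ^ 2) measurableSet_Ioi
    (by
      intro v hv
      have hv' : v ≠ 0 := ne_of_gt hv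
      have h1 := ((hasDerivAt_inv hv').const_mul (a / m)).hasDerivWithinAt (s := Set.Ioi 0)
      have e1 : a / m * -(v ^ 2)⁻¹ = -(a / m) / v ^ 2 := by ring
      rw [e1] at h1
      exact h1)
    (by
      intro v hv w hw hvw
      have hv' : v ≠ 0 := ne_of_gt hv
      have hw' : w ≠ 0 := ne_of_gt hw
      simp only at hvw
      have := hc.ne'
      field_simp at hvw
      exact hvw.symm) (kg m a)
  rw [himg] at h
  rw [h, ← integral_const_mul]
  apply setIntegral_congr_fun measurableSet_Ioi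
  intro v hv
  have hv' : (0 : ℝ) < v := hv
  simp only
  rw [kg_inv m a v hm ha hv', smul_eq_mul, neg_div, abs_neg, abs_of_pos (by positivity)]
  ring

theorem kg_total (m a : ℝ) (hm : 0 < m) (ha : 0 < a) :
    ∫ v in Set.Ioi (0 : ℝ), (m + a / v ^ 2) * kg m a v = Real.exp (-2 * Real.pi * (m * a)) := by
  have himg : (fun v : ℝ => m * v - a / v) '' Set.Ioi 0 = Set.univ := by
    apply Set.eq_univ_of_forall
    intro z
    have hD : 0 < z ^ 2 + 4 * (m * a) := by positivity
    set D := Real.sqrt (z ^ 2 + 4 * (m * a)) with hDdef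
    have hD2 : D ^ 2 = z ^ 2 + 4 * (m * a) := Real.sq_sqrt hD.le
    have hDpos : 0 < D := Real.sqrt_pos.mpr hD
    have hzD : 0 < z + D := by
      have : |z| < D := by
        apply abs_lt_of_sq_lt_sq _ hDpos.le
        rw [hD2]; nlinarith [mul_pos hm ha]
      have := (abs_lt.mp this).1
      linarith
    refine ⟨(z + D) / (2 * m), ?_, ?_⟩
    · show (0 : ℝ) < _
      positivity
    · show m * ((z + D) / (2 * m)) - a / ((z + D) / (2 * m)) = z
      field_simp
      nlinarith [hD2]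
  have h := integral_image_eq_integral_abs_deriv_smul (s := Set.Ioi (0 : ℝ))
    (f := fun v : ℝ => m * v - a / v) (f' := fun v => m + a / v ^ 2) measurableSet_Ioi
    (by
      intro v hv
      have hv' : v ≠ 0 := ne_of_gt hv
      have h1 := (((hasDerivAt_id v).const_mul m).sub
        ((hasDerivAt_inv hv').const_mul a)).hasDerivWithinAt (s := Set.Ioi 0)
      have e1 : m * 1 - a * -(v ^ 2)⁻¹ = m + a / v ^ 2 := by ring
      rw [e1] at h1
      exact h1)
    (by
      intro v hv w hw hvw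
      have hv' : (0 : ℝ) < v := hv
      have hw' : (0 : ℝ) < w := hw
      simp only at hvw
      have h2 : (v - w) * (m * (v * w) + a) = 0 := by
        field_simp at hvw
        nlinarith
      rcases mul_eq_zero.mp h2 with h3 | h3
      · linarith
      · have : 0 < m * (v * w) + a := by positivity
        linarith) (fun z => Real.exp (-Real.pi * z ^ 2))
  rw [himg, Measure.restrict_univ, integral_gaussian] at h
  rw [div_self Real.pi_pos.ne', Real.sqrt_one] at h
  have h3 : ∫ v in Set.Ioi (0 : ℝ), (m + a / v ^ 2) * kg m a v =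
      Real.exp (-2 * Real.pi * (m * a)) * ∫ v in Set.Ioi (0 : ℝ), |m + a / v ^ 2| •
        Real.exp (-Real.pi * (m * v - a / v) ^ 2) := by
    rw [← integral_const_mul]
    apply setIntegral_congr_fun measurableSet_Ioi
    intro v hv
    have hv' : (0 : ℝ) < v := hv
    simp only
    rw [abs_of_pos (by positivity), smul_eq_mul, mul_left_comm, ← Real.exp_add]
    unfold kg
    rw [← Real.exp_add]
    congr 2
    field_simp
    ring
  rw [h3, ← h, mul_one]

theorem KO_scale (m a : ℝ) (hm : 0 < m) (ha : 0 < a) :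
    IntegrableOn (fun v : ℝ => Real.exp (-Real.pi * m ^ 2 * v ^ 2) *
      Real.exp (-Real.pi * a ^ 2 / v ^ 2) / v ^ 2) (Set.Ioi 0) ∧
    Real.exp (-2 * Real.pi * (m * a)) = 2 * a * ∫ v in Set.Ioi (0 : ℝ),
      Real.exp (-Real.pi * m ^ 2 * v ^ 2) * Real.exp (-Real.pi * a ^ 2 / v ^ 2) / v ^ 2 := by
  refine ⟨kg_integrable2 m a hm ha, ?_⟩
  have h1 := kg_total m a hm ha
  have h2 := kg_swap m a hm ha
  have h3 : ∫ v in Set.Ioi (0 : ℝ), (m + a / v ^ 2) * kg m a v =
      m * (∫ v in Set.Ioi (0 : ℝ), kg m a v) + a * ∫ v in Set.Ioi (0 : ℝ), kg m a v / v ^ 2 := by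
    rw [← integral_const_mul, ← integral_const_mul,
      ← integral_add ((kg_integrable m a hm ha).const_mul m)
        ((kg_integrable2 m a hm ha).const_mul a)]
    apply setIntegral_congr_fun measurableSet_Ioi
    intro v hv
    simp only
    ring
  rw [h2] at h3
  rw [← h1, h3]
  show m * (a / m * _) + a * _ = 2 * a * _
  unfold kg
  field_simp
  ring

end Pool.Agent.GLI
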