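import Pool.Agent.GLI.ThInt
import Pool.Agent.GLI.ThKer

set_option autoImplicit false

/-!
Module ThO. `EO χ u = ∑_{m,d} χ(d) exp(-2π m d u/√q) = (2u/√q) ∫_0^∞ om(v²) thO χ (u²/v²) dv/v²` (KO_scale with
`a = d u/√q`; Fubini: `∑_{m,d} exp(-2π m d u/√q) < ∞`). With thO_fe `thO χ (1/(uv)²) = w (uv)³ thO χ ((uv)²)`:
`EO χ (1/u) = (2/(u√q)) ∫ om(v²) thO χ (1/(uv)²) dv/v² = (2 w u²/√q) ∫ om(v²) v thO χ (u²v²) dv
= [v → 1/v] (2 w u²/√q) ∫ om(1/v²) thO χ (u²/v²) dv/v³`, om_fe: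
`= w u EO χ u + (w u²/√q) ∫ (v - 1) thO χ (u²/v²) dv/v³`; `s = u/v`: `∫ thO χ (u²/v²) dv/v² = (1/u) ∫ thO χ (s²) ds = w q L1/(2π u)`,
`∫ thO χ (u²/v²) dv/v³ = (1/u²) ∫ thO χ (s²) s ds = q L1/(2π u²)`. So `EO χ (1/u) = w u EO χ u + (√q L1/(2π))(u - w)`.
-/

open Finset Filter MeasureTheory

namespace Pool.Agent.GLI

namespace ThOAux

theorem integrable_tsum {ι α : Type*} [Countable ι] [MeasurableSpace α] {μ : Measure α} {F : ι → α → ℝ}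
    (hf : ∀ n, Integrable (F n) μ) (hs : Summable fun n => ∫ x, ‖F n x‖ ∂μ) :
    Integrable (fun x => ∑' n, F n x) μ := by
  have h1 : ∑' n, ∫⁻ x, ‖F n x‖ₑ ∂μ ≠ ⊤ := by
    have (i : ι) : ∫⁻ a, ‖F i a‖ₑ ∂μ = ENNReal.ofReal (∫ a, ‖F i a‖ ∂μ) := by
      rw [ofReal_integral_norm_eq_lintegral_enorm (hf i)]
    simp_rw [this]
    rw [← ENNReal.ofReal_tsum_of_nonneg (fun n => integral_nonneg fun x => norm_nonneg _) hs]
    exact ENNReal.ofReal_ne_top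
  have h2 : ∫⁻ x, ∑' n, ‖F n x‖ₑ ∂μ ≠ ⊤ := by
    rw [lintegral_tsum fun n => (hf n).1.enorm]
    exact h1
  have h3 : ∀ᵐ x ∂μ, ∑' n, ‖F n x‖ₑ < ⊤ :=
    ae_lt_top' (AEMeasurable.tsum fun n => (hf n).1.enorm) h2
  have h4 : ∀ᵐ x ∂μ, Summable (fun n => F n x) := by
    filter_upwards [h3] with x hx
    exact (tsum_enorm_ne_top_iff_summable_norm.1 hx.ne).of_norm
  refine ⟨?_, ?_⟩
  · apply aestronglyMeasurable_of_tendsto_ae (u := (atTop : Filter (Finset ι)))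
      (f := fun (s : Finset ι) x => ∑ n ∈ s, F n x)
    · intro s
      exact Finset.aestronglyMeasurable_fun_sum _ fun n _ => (hf n).1
    · filter_upwards [h4] with x hx
      exact hx.hasSum
  · refine lt_of_le_of_lt ?_ h2.lt_top
    apply lintegral_mono
    intro x
    exact enorm_tsum_le_tsum_enorm

theorem tsum_pnat_zero (f : ℕ → ℝ) (h0 : f 0 = 0) : ∑' n : ℕ, f n = ∑' n : ℕ+, f n := by
  symm
  apply Function.Injective.tsum_eq PNat.coe_injective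
  intro n hn
  rw [Function.mem_support] at hn
  have : n ≠ 0 := fun h => hn (by rw [h, h0])
  exact ⟨⟨n, Nat.pos_of_ne_zero this⟩, rfl⟩

theorem geo_lt {c : ℝ} (hc : 0 < c) : Real.exp (-c) < 1 := by
  rw [Real.exp_lt_one_iff]
  linarith

theorem gauss_le {c : ℝ} (hc : 0 ≤ c) (m : ℕ) : Real.exp (-(c * m ^ 2)) ≤ Real.exp (-c) ^ m := by
  rw [← Real.exp_nat_mul]
  apply Real.exp_le_exp.2
  have h1 : (m : ℝ) ≤ (m : ℝ) ^ 2 := by
    have : m ≤ m ^ 2 := Nat.le_self_pow (by norm_num) m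
    exact_mod_cast this
  nlinarith

theorem om_eq (v : ℝ) : om (v ^ 2) = ∑' m : ℕ+, Real.exp (-Real.pi * (m : ℝ) ^ 2 * v ^ 2) := by
  unfold om
  have := tsum_pnat_eq_tsum_succ (f := fun m : ℕ => Real.exp (-Real.pi * (m : ℝ) ^ 2 * v ^ 2))
  rw [this]
  apply tsum_congr
  intro m
  push_cast
  rfl

theorem om_summable_o (v : ℝ) (hv : 0 < v) :
    Summable fun m : ℕ+ => ‖Real.exp (-Real.pi * (m : ℝ) ^ 2 * v ^ 2)‖ := by
  have hc : 0 < Real.pi * v ^ 2 := by positivity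
  have h1 : Summable fun m : ℕ => Real.exp (-(Real.pi * v ^ 2)) ^ m :=
    summable_geometric_of_lt_one (Real.exp_pos _).le (geo_lt hc)
  have h2 : Summable fun m : ℕ => ‖Real.exp (-Real.pi * (m : ℝ) ^ 2 * v ^ 2)‖ := by
    refine Summable.of_nonneg_of_le (fun m => norm_nonneg _) (fun m => ?_) h1
    rw [Real.norm_of_nonneg (Real.exp_pos _).le]
    refine le_trans (le_of_eq ?_) (gauss_le hc.le m)
    congr 1
    ring
  exact h2.comp_injective PNat.coe_injective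

variable {q : ℕ} (χ : DirichletCharacter ℂ q)

theorem abs_re_le (d : ℕ) : |(χ (d : ZMod q)).re| ≤ 1 :=
  (Complex.abs_re_le_norm _).trans (χ.norm_le_one _)

theorem thO_eq (t : ℝ) : thO χ t =
    ∑' d : ℕ+, ((d : ℕ) : ℝ) * (χ ((d : ℕ) : ZMod q)).re * Real.exp (-Real.pi * ((d : ℕ) : ℝ) ^ 2 * t / q) := by
  unfold thO
  apply tsum_pnat_zero (fun d : ℕ => (d : ℝ) * (χ (d : ZMod q)).re * Real.exp (-Real.pi * d ^ 2 * t / q))
  simp

theorem thO_summable (hq : 0 < q) (t : ℝ) (ht : 0 < t) : Summable fun d : ℕ+ =>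
    ‖((d : ℕ) : ℝ) * (χ ((d : ℕ) : ZMod q)).re * Real.exp (-Real.pi * ((d : ℕ) : ℝ) ^ 2 * t / q)‖ := by
  have hq' : (0 : ℝ) < q := by exact_mod_cast hq
  have hc : 0 < Real.pi * t / q := by positivity
  have h1 : Summable fun m : ℕ => ((m : ℝ) ^ 1 * Real.exp (-(Real.pi * t / q)) ^ m) := by
    apply summable_pow_mul_geometric_of_norm_lt_one
    rw [Real.norm_of_nonneg (Real.exp_pos _).le]
    exact geo_lt hc
  have h2 : Summable fun d : ℕ =>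
      ‖(d : ℝ) * (χ (d : ZMod q)).re * Real.exp (-Real.pi * (d : ℝ) ^ 2 * t / q)‖ := by
    refine Summable.of_nonneg_of_le (fun m => norm_nonneg _) (fun m => ?_) h1
    rw [norm_mul, norm_mul, Real.norm_of_nonneg (Real.exp_pos _).le, Real.norm_of_nonneg (Nat.cast_nonneg m),
      Real.norm_eq_abs, pow_one]
    have h3 := abs_re_le χ m
    have h4 : Real.exp (-Real.pi * (m : ℝ) ^ 2 * t / q) ≤ Real.exp (-(Real.pi * t / q)) ^ m := by
      refine le_trans (le_of_eq ?_) (gauss_le hc.le m)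
      congr 1
      ring
    calc (m : ℝ) * |(χ (m : ZMod q)).re| * Real.exp (-Real.pi * (m : ℝ) ^ 2 * t / q)
        ≤ (m : ℝ) * 1 * Real.exp (-(Real.pi * t / q)) ^ m := by gcongr
      _ = (m : ℝ) * Real.exp (-(Real.pi * t / q)) ^ m := by ring
  exact h2.comp_injective PNat.coe_injective

theorem rr_eq (n : ℕ) : rr χ n = ∑ x ∈ n.divisorsAntidiagonal, (χ ((x.2 : ℕ) : ZMod q)).re := by
  unfold rr
  rw [Nat.sum_divisorsAntidiagonal' (fun _ y => (χ ((y : ℕ) : ZMod q)).re)]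

theorem pair_summable (r : ℝ) (hr0 : 0 < r) (hr : r < 1) :
    Summable fun c : ℕ+ × ℕ+ => (χ (((c.2 : ℕ+) : ℕ) : ZMod q)).re * r ^ ((c.1 : ℕ) * (c.2 : ℕ)) := by
  have h1 := summable_prod_mul_pow (𝕜 := ℝ) 0 (r := r) (by rw [Real.norm_of_nonneg hr0.le]; exact hr)
  refine Summable.of_norm_bounded h1 (fun c => ?_)
  rw [norm_mul, Real.norm_eq_abs, Real.norm_of_nonneg (by positivity)]
  rw [pow_zero, one_mul]
  have := abs_re_le χ (c.2 : ℕ)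
  calc |(χ (((c.2 : ℕ+) : ℕ) : ZMod q)).re| * r ^ ((c.1 : ℕ) * (c.2 : ℕ))
      ≤ 1 * r ^ ((c.1 : ℕ) * (c.2 : ℕ)) := by gcongr
    _ = _ := one_mul _

theorem EO_pair (u : ℝ) (hq : 0 < q) (hu : 0 < u) : EO χ u =
    ∑' c : ℕ+ × ℕ+, (χ (((c.2 : ℕ+) : ℕ) : ZMod q)).re *
      Real.exp (-(2 * Real.pi * u / Real.sqrt q)) ^ ((c.1 : ℕ) * (c.2 : ℕ)) := by
  have hq' : (0 : ℝ) < q := by exact_mod_cast hq
  have hc : 0 < 2 * Real.pi * u / Real.sqrt q := by positivity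
  set r := Real.exp (-(2 * Real.pi * u / Real.sqrt q)) with hr
  have hs := pair_summable χ r (Real.exp_pos _) (geo_lt hc)
  have hs' := (sigmaAntidiagonalEquivProd.summable_iff.2 hs)
  rw [← sigmaAntidiagonalEquivProd.tsum_eq]
  have h1 := Summable.tsum_sigma hs'
  simp only [Function.comp_def] at h1
  rw [h1]
  unfold EO
  rw [tsum_pnat_zero]
  swap
  · simp [rr]
  apply tsum_congr
  intro n
  rw [tsum_fintype, Finset.univ_eq_attach, rr_eq, Finset.sum_mul]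
  rw [← Finset.sum_attach]
  apply Finset.sum_congr rfl
  intro x _
  have h2 : ((x.1.1 : ℕ)) * (x.1.2) = (n : ℕ) := (Nat.mem_divisorsAntidiagonal.1 x.2).1
  have h3 : (sigmaAntidiagonalEquivProd ⟨n, x⟩).1 * ((sigmaAntidiagonalEquivProd ⟨n, x⟩).2 : ℕ) = (n : ℕ) := h2
  have h4 : ((sigmaAntidiagonalEquivProd ⟨n, x⟩).2 : ℕ) = x.1.2 := rfl
  rw [h3, h4, hr, ← Real.exp_nat_mul]
  congr 2
  ring

/-- The terms of the double series. -/
noncomputable def F (u : ℝ) (c : ℕ+ × ℕ+) (v : ℝ) : ℝ :=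
  Real.exp (-Real.pi * (((c.1 : ℕ+) : ℕ) : ℝ) ^ 2 * v ^ 2) *
    ((((c.2 : ℕ+) : ℕ) : ℝ) * (χ (((c.2 : ℕ+) : ℕ) : ZMod q)).re *
      Real.exp (-Real.pi * (((c.2 : ℕ+) : ℕ) : ℝ) ^ 2 * (u ^ 2 / v ^ 2) / q)) / v ^ 2

theorem F_tsum (hq : 0 < q) (u v : ℝ) (hu : 0 < u) (hv : 0 < v) :
    om (v ^ 2) * thO χ (u ^ 2 / v ^ 2) / v ^ 2 = ∑' c : ℕ+ × ℕ+, F χ u c v := by
  unfold F
  rw [tsum_div_const, om_eq, thO_eq, tsum_mul_tsum_of_summable_norm (om_summable_o v hv)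
    (thO_summable χ hq (u ^ 2 / v ^ 2) (by positivity))]

theorem F_form (hq : 0 < q) (u v : ℝ) (c : ℕ+ × ℕ+) : F χ u c v =
    ((((c.2 : ℕ+) : ℕ) : ℝ) * (χ (((c.2 : ℕ+) : ℕ) : ZMod q)).re) *
    (Real.exp (-Real.pi * (((c.1 : ℕ+) : ℕ) : ℝ) ^ 2 * v ^ 2) *
      Real.exp (-Real.pi * ((((c.2 : ℕ+) : ℕ) : ℝ) * u / Real.sqrt q) ^ 2 / v ^ 2) / v ^ 2) := by
  have hq' : (0 : ℝ) < q := by exact_mod_cast hq
  unfold F
  have h1 : -Real.pi * (((c.2 : ℕ+) : ℕ) : ℝ) ^ 2 * (u ^ 2 / v ^ 2) / q =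
      -Real.pi * ((((c.2 : ℕ+) : ℕ) : ℝ) * u / Real.sqrt q) ^ 2 / v ^ 2 := by
    rw [div_pow, Real.sq_sqrt hq'.le]
    ring
  rw [h1]
  ring

theorem F_int (hq : 0 < q) (u : ℝ) (hu : 0 < u) (c : ℕ+ × ℕ+) :
    Integrable (F χ u c) (volume.restrict (Set.Ioi 0)) ∧
    ∫ v in Set.Ioi (0 : ℝ), F χ u c v = Real.sqrt q / (2 * u) * ((χ (((c.2 : ℕ+) : ℕ) : ZMod q)).re *
      Real.exp (-(2 * Real.pi * u / Real.sqrt q)) ^ ((c.1 : ℕ) * (c.2 : ℕ))) ∧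
    ∫ v in Set.Ioi (0 : ℝ), ‖F χ u c v‖ = Real.sqrt q / (2 * u) * ‖(χ (((c.2 : ℕ+) : ℕ) : ZMod q)).re *
      Real.exp (-(2 * Real.pi * u / Real.sqrt q)) ^ ((c.1 : ℕ) * (c.2 : ℕ))‖ := by
  have hq' : (0 : ℝ) < q := by exact_mod_cast hq
  have hs : 0 < Real.sqrt q := Real.sqrt_pos.2 hq'
  have hm : (0 : ℝ) < (((c.1 : ℕ+) : ℕ) : ℝ) := by exact_mod_cast c.1.pos
  have hd : (0 : ℝ) < (((c.2 : ℕ+) : ℕ) : ℝ) := by exact_mod_cast c.2.pos
  obtain ⟨h1, h2⟩ := KO_scale (((c.1 : ℕ+) : ℕ) : ℝ) ((((c.2 : ℕ+) : ℕ) : ℝ) * u / Real.sqrt q) hm (by positivity)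
  have he : F χ u c = fun v => ((((c.2 : ℕ+) : ℕ) : ℝ) * (χ (((c.2 : ℕ+) : ℕ) : ZMod q)).re) *
    (Real.exp (-Real.pi * (((c.1 : ℕ+) : ℕ) : ℝ) ^ 2 * v ^ 2) *
      Real.exp (-Real.pi * ((((c.2 : ℕ+) : ℕ) : ℝ) * u / Real.sqrt q) ^ 2 / v ^ 2) / v ^ 2) := by
    funext v
    exact F_form χ hq u v c
  have h3 : Real.exp (-(2 * Real.pi * u / Real.sqrt q)) ^ ((c.1 : ℕ) * (c.2 : ℕ)) =
      Real.exp (-2 * Real.pi * ((((c.1 : ℕ+) : ℕ) : ℝ) * ((((c.2 : ℕ+) : ℕ) : ℝ) * u / Real.sqrt q))) := by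
    rw [← Real.exp_nat_mul]
    congr 1
    push_cast
    ring
  have h4 : (∫ v in Set.Ioi (0 : ℝ), (Real.exp (-Real.pi * (((c.1 : ℕ+) : ℕ) : ℝ) ^ 2 * v ^ 2) *
      Real.exp (-Real.pi * ((((c.2 : ℕ+) : ℕ) : ℝ) * u / Real.sqrt q) ^ 2 / v ^ 2) / v ^ 2)) =
      Real.sqrt q / (2 * u * (((c.2 : ℕ+) : ℕ) : ℝ)) *
        Real.exp (-(2 * Real.pi * u / Real.sqrt q)) ^ ((c.1 : ℕ) * (c.2 : ℕ)) := by
    set I := (∫ v in Set.Ioi (0 : ℝ), (Real.exp (-Real.pi * (((c.1 : ℕ+) : ℕ) : ℝ) ^ 2 * v ^ 2) *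
      Real.exp (-Real.pi * ((((c.2 : ℕ+) : ℕ) : ℝ) * u / Real.sqrt q) ^ 2 / v ^ 2) / v ^ 2)) with hI
    clear_value I
    rw [h3, h2]
    field_simp
  refine ⟨?_, ?_, ?_⟩
  · rw [he]
    exact h1.const_mul _
  · rw [he, integral_const_mul, h4]
    field_simp
  · have h5 : ∀ v : ℝ, ‖F χ u c v‖ = |((((c.2 : ℕ+) : ℕ) : ℝ) * (χ (((c.2 : ℕ+) : ℕ) : ZMod q)).re)| *
        (Real.exp (-Real.pi * (((c.1 : ℕ+) : ℕ) : ℝ) ^ 2 * v ^ 2) *
        Real.exp (-Real.pi * ((((c.2 : ℕ+) : ℕ) : ℝ) * u / Real.sqrt q) ^ 2 / v ^ 2) / v ^ 2) := by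
      intro v
      rw [he]
      simp only
      rw [norm_mul, Real.norm_eq_abs, Real.norm_of_nonneg (r := _ / v ^ 2) (by positivity)]
    simp_rw [h5]
    rw [integral_const_mul, h4, abs_mul, abs_of_pos hd, norm_mul, Real.norm_eq_abs,
      Real.norm_of_nonneg (by positivity)]
    field_simp

theorem EO_int (hq : 0 < q) (u : ℝ) (hu : 0 < u) :
    IntegrableOn (fun v => om (v ^ 2) * thO χ (u ^ 2 / v ^ 2) / v ^ 2) (Set.Ioi 0) ∧
    ∫ v in Set.Ioi (0 : ℝ), om (v ^ 2) * thO χ (u ^ 2 / v ^ 2) / v ^ 2 = Real.sqrt q / (2 * u) * EO χ u := by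
  have hq' : (0 : ℝ) < q := by exact_mod_cast hq
  have hs : 0 < Real.sqrt q := Real.sqrt_pos.2 hq'
  have hc : 0 < 2 * Real.pi * u / Real.sqrt q := by positivity
  have hsum := pair_summable χ _ (Real.exp_pos _) (geo_lt hc)
  have hn : Summable fun c => ∫ v in Set.Ioi (0 : ℝ), ‖F χ u c v‖ := by
    simp_rw [fun c => (F_int χ hq u hu c).2.2]
    exact hsum.norm.mul_left _
  have hi := integrable_tsum (fun c => (F_int χ hq u hu c).1) hn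
  have hv := hasSum_integral_of_summable_integral_norm (fun c => (F_int χ hq u hu c).1) hn
  have heq : Set.EqOn (fun v => om (v ^ 2) * thO χ (u ^ 2 / v ^ 2) / v ^ 2) (fun v => ∑' c : ℕ+ × ℕ+, F χ u c v)
      (Set.Ioi 0) := fun v hv => F_tsum χ hq u v hu hv
  constructor
  · exact (integrableOn_congr_fun heq measurableSet_Ioi).2 hi
  · rw [setIntegral_congr_fun measurableSet_Ioi heq, ← hv.tsum_eq]
    simp_rw [fun c => (F_int χ hq u hu c).2.1]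
    rw [tsum_mul_left, EO_pair χ u hq hu]

/-- Substitution `x = 1/v`. -/
theorem int_inv (g : ℝ → ℝ) :
    ∫ x in Set.Ioi (0 : ℝ), g (1 / x) / x ^ 2 = ∫ x in Set.Ioi (0 : ℝ), g x := by
  rw [← integral_comp_rpow_Ioi g (p := -1) (by norm_num)]
  apply setIntegral_congr_fun measurableSet_Ioi
  intro x hx
  have hx : (0 : ℝ) < x := hx
  simp only [smul_eq_mul, abs_neg, abs_one, one_mul]
  rw [Real.rpow_neg_one, one_div, show (-1 - 1 : ℝ) = -(2 : ℕ) by norm_num, Real.rpow_neg hx.le,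
    Real.rpow_natCast]
  rw [div_eq_mul_inv, mul_comm]

theorem intble_inv (g : ℝ → ℝ) :
    IntegrableOn (fun x => g (1 / x) / x ^ 2) (Set.Ioi 0) ↔ IntegrableOn g (Set.Ioi 0) := by
  rw [← integrableOn_Ioi_comp_rpow_iff g (p := -1) (by norm_num)]
  apply integrableOn_congr_fun _ measurableSet_Ioi
  intro x hx
  have hx : (0 : ℝ) < x := hx
  simp only [smul_eq_mul, abs_neg, abs_one, one_mul]
  rw [Real.rpow_neg_one, one_div, show (-1 - 1 : ℝ) = -(2 : ℕ) by norm_num, Real.rpow_neg hx.le,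
    Real.rpow_natCast]
  rw [div_eq_mul_inv, mul_comm]

theorem H1 (u : ℝ) (hu : 0 < u) (hi : IntegrableOn (fun s : ℝ => thO χ (s ^ 2)) (Set.Ioi 0)) :
    IntegrableOn (fun v => thO χ (u ^ 2 / v ^ 2) / v ^ 2) (Set.Ioi 0) ∧
    ∫ v in Set.Ioi (0 : ℝ), thO χ (u ^ 2 / v ^ 2) / v ^ 2 = 1 / u * ∫ s in Set.Ioi (0 : ℝ), thO χ (s ^ 2) := by
  have he : (fun v : ℝ => thO χ (u ^ 2 / v ^ 2) / v ^ 2) =
      fun v => (fun x => thO χ ((u * x) ^ 2)) (1 / v) / v ^ 2 := by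
    funext v
    simp only
    congr 2
    ring
  rw [he, intble_inv (fun x => thO χ ((u * x) ^ 2)), int_inv (fun x => thO χ ((u * x) ^ 2))]
  constructor
  · have := integrableOn_Ioi_comp_mul_left_iff (fun s : ℝ => thO χ (s ^ 2)) 0 hu
    rw [mul_zero] at this
    exact this.2 hi
  · have := integral_comp_mul_left_Ioi (fun s : ℝ => thO χ (s ^ 2)) 0 hu
    rw [mul_zero] at this
    rw [this, smul_eq_mul, one_div]

theorem H2 (u : ℝ) (hu : 0 < u) (hi : IntegrableOn (fun s : ℝ => thO χ (s ^ 2) * s) (Set.Ioi 0)) :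
    IntegrableOn (fun v => thO χ (u ^ 2 / v ^ 2) / v ^ 3) (Set.Ioi 0) ∧
    ∫ v in Set.Ioi (0 : ℝ), thO χ (u ^ 2 / v ^ 2) / v ^ 3 =
      1 / u ^ 2 * ∫ s in Set.Ioi (0 : ℝ), thO χ (s ^ 2) * s := by
  have he : (fun v : ℝ => thO χ (u ^ 2 / v ^ 2) / v ^ 3) =
      fun v => (fun x => (fun s => 1 / u * (thO χ (s ^ 2) * s)) (u * x)) (1 / v) / v ^ 2 := by
    funext v
    simp only
    rw [show (u * (1 / v)) ^ 2 = u ^ 2 / v ^ 2 by ring]
    field_simp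
  rw [he, intble_inv (fun x => (fun s => 1 / u * (thO χ (s ^ 2) * s)) (u * x)),
    int_inv (fun x => (fun s => 1 / u * (thO χ (s ^ 2) * s)) (u * x))]
  have hi' : IntegrableOn (fun s : ℝ => 1 / u * (thO χ (s ^ 2) * s)) (Set.Ioi 0) := hi.const_mul _
  constructor
  · have := integrableOn_Ioi_comp_mul_left_iff (fun s : ℝ => 1 / u * (thO χ (s ^ 2) * s)) 0 hu
    rw [mul_zero] at this
    exact this.2 hi'
  · have := integral_comp_mul_left_Ioi (fun s : ℝ => 1 / u * (thO χ (s ^ 2) * s)) 0 hu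
    rw [mul_zero] at this
    rw [this, smul_eq_mul, integral_const_mul]
    field_simp

end ThOAux

open ThOAux in
theorem EO_fe (q : ℕ) [NeZero q] (χ : DirichletCharacter ℂ q) (hp : χ.IsPrimitive) (hχ : χ ≠ 1)
    (h : RealChar χ) (he : χ (-1) = -1) : ∃ w : ℝ, (w = 1 ∨ w = -1) ∧ ∀ u : ℝ, 0 < u →
    EO χ u = w / u * EO χ (1 / u) + Real.sqrt q * L1 χ / (2 * Real.pi) * (1 / u - w) := by
  have hq : 0 < q := Nat.pos_of_ne_zero (NeZero.ne q)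
  have hq' : (0 : ℝ) < q := by exact_mod_cast hq
  have hs : 0 < Real.sqrt q := Real.sqrt_pos.2 hq'
  obtain ⟨w, hw, hfe⟩ := thO_fe q χ hp hχ h he
  obtain ⟨i1, i2, i3, i4⟩ := thO_int q χ hχ h w hw hfe
  refine ⟨w, hw, ?_⟩
  have hw2 : w * w = 1 := by rcases hw with h | h <;> rw [h] <;> norm_num
  have key : ∀ u : ℝ, 0 < u → EO χ (1 / u) = w * u * EO χ u +
      Real.sqrt q * L1 χ / (2 * Real.pi) * (u - w) := by
    intro u hu
    obtain ⟨a1, a2⟩ := EO_int χ hq u hu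
    obtain ⟨b1, b2⟩ := EO_int χ hq (1 / u) (by positivity)
    obtain ⟨c1, c2⟩ := H1 χ u hu i1
    obtain ⟨d1, d2⟩ := H2 χ u hu i2
    rw [i4] at c2
    rw [i3] at d2
    have h1 : ∫ v in Set.Ioi (0 : ℝ), om (v ^ 2) * thO χ ((1 / u) ^ 2 / v ^ 2) / v ^ 2 =
        ∫ v in Set.Ioi (0 : ℝ), w * u ^ 3 * (om (v ^ 2) * thO χ (u ^ 2 / v ^ 2) / v ^ 2 +
          1 / 2 * (thO χ (u ^ 2 / v ^ 2) / v ^ 2 - thO χ (u ^ 2 / v ^ 2) / v ^ 3)) := by
      rw [← int_inv]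
      apply setIntegral_congr_fun measurableSet_Ioi
      intro x hx
      have hx : (0 : ℝ) < x := hx
      simp only
      have e1 : (1 / u) ^ 2 / (1 / x) ^ 2 = 1 / (u / x) ^ 2 := by
        field_simp
      have e2 : (u / x) ^ 2 = u ^ 2 / x ^ 2 := by ring
      have e3 : Real.sqrt ((u / x) ^ 2) = u / x := Real.sqrt_sq (by positivity)
      have e4 : Real.sqrt (x ^ 2) = x := Real.sqrt_sq hx.le
      have e5 : (1 / x) ^ 2 = 1 / x ^ 2 := by ring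
      rw [e1, hfe _ (by positivity), e3, e5, om_fe _ (by positivity), e4, e2]
      field_simp
    have h3 : ∫ v in Set.Ioi (0 : ℝ), (om (v ^ 2) * thO χ (u ^ 2 / v ^ 2) / v ^ 2 +
          1 / 2 * (thO χ (u ^ 2 / v ^ 2) / v ^ 2 - thO χ (u ^ 2 / v ^ 2) / v ^ 3)) =
        (∫ v in Set.Ioi (0 : ℝ), om (v ^ 2) * thO χ (u ^ 2 / v ^ 2) / v ^ 2) +
        ∫ v in Set.Ioi (0 : ℝ), 1 / 2 * (thO χ (u ^ 2 / v ^ 2) / v ^ 2 - thO χ (u ^ 2 / v ^ 2) / v ^ 3) :=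
      integral_add a1 ((c1.sub d1).const_mul (1 / 2))
    rw [h1, integral_const_mul, h3, integral_const_mul,
      integral_sub c1 d1, a2, c2, d2] at b2
    have hne : Real.sqrt q / (2 * (1 / u)) ≠ 0 := by positivity
    have h2 : (q : ℝ) = Real.sqrt q * Real.sqrt q := (Real.mul_self_sqrt hq'.le).symm
    apply mul_left_cancel₀ hne
    rw [← b2]
    rw [h2]
    have hpi : Real.pi ≠ 0 := Real.pi_ne_zero
    have hs' := hs.ne'
    rw [Real.sqrt_mul_self hs.le]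
    field_simp
    linear_combination (Real.sqrt q * L1 χ * u) * hw2
  intro u hu
  have := key (1 / u) (by positivity)
  rw [one_div_one_div] at this
  rw [this]
  ring

end Pool.Agent.GLI
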