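import Pool.Agent.GLI.ThE
import Pool.Agent.GLI.ThO

set_option autoImplicit false

/-!
Module ThBd. Unify: `K` (= KE or `exp(-2π ·)`) is `≥ 0`, antitone, `K 1 > 0`, `K x ≤ exp(-π x)(2 + |log x|)`; `E(u) = ∑ r(n) K(n u/√q)`,
`E(u) = (w/u) E(1/u) + a0 (1/u - w)`, `a0 = c √q L1` (`c = 1/4` or `1/(2π)`), `q ≥ 3` (`χ ≠ 1`), `0 ≤ r(n) ≤ τ(n) ≤ n`.
-/

open Finset Filter

namespace Pool.Agent.GLI

/-- What is used about the kernel. -/
def KerOK (K : ℝ → ℝ) : Prop :=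
  (∀ x, 0 ≤ K x) ∧ (∀ x y, 0 < x → x ≤ y → K y ≤ K x) ∧ 0 < K 1 ∧
    ∀ x, 0 < x → K x ≤ Real.exp (-Real.pi * x) * (2 + |Real.log x|)

theorem kerOK_KE : KerOK KE :=
  ⟨KE_nonneg, KE_anti, KE_one, KE_le⟩

theorem kerOK_exp : KerOK (fun x => Real.exp (-2 * Real.pi * x)) := by
  have hpi := Real.pi_pos
  refine ⟨fun x => (Real.exp_pos _).le, fun x y hx hxy => ?_, Real.exp_pos _, fun x hx => ?_⟩
  · apply Real.exp_le_exp.mpr
    nlinarith
  · have h1 : Real.exp (-2 * Real.pi * x) ≤ Real.exp (-Real.pi * x) := by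
      apply Real.exp_le_exp.mpr
      nlinarith [mul_pos hpi hx]
    have h2 : (1 : ℝ) ≤ 2 + |Real.log x| := by
      have := abs_nonneg (Real.log x)
      linarith
    calc Real.exp (-2 * Real.pi * x) ≤ Real.exp (-Real.pi * x) * 1 := by linarith
      _ ≤ Real.exp (-Real.pi * x) * (2 + |Real.log x|) :=
        mul_le_mul_of_nonneg_left h2 (Real.exp_pos _).le

theorem abs_log_le_half {x : ℝ} (hx : 1 / 2 ≤ x) : |Real.log x| ≤ x + 1 / 2 := by
  have hx0 : 0 < x := by linarith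
  rw [abs_le]
  constructor
  · have h1 : Real.log x⁻¹ ≤ x⁻¹ - 1 := Real.log_le_sub_one_of_pos (by positivity)
    rw [Real.log_inv] at h1
    have h2 : x⁻¹ - 1 ≤ x + 1 / 2 := by
      have h3 : x⁻¹ ≤ x + 3 / 2 := by
        rw [inv_le_iff_one_le_mul₀ hx0]
        nlinarith
      linarith
    linarith
  · have h1 : Real.log x ≤ x - 1 := Real.log_le_sub_one_of_pos hx0
    linarith

theorem ker_term {K : ℝ → ℝ} (hK : KerOK K) {x : ℝ} (hx : 1 / 2 ≤ x) :
    x * K x ≤ 5 / 2 * Real.exp (-2 * x) := by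
  have hx0 : 0 < x := by linarith
  have h1 := hK.2.2.2 x hx0
  have h2 := abs_log_le_half hx
  have h3 : 1 + x + x ^ 2 / 2 ≤ Real.exp x := Real.quadratic_le_exp_of_nonneg hx0.le
  have h4 : x * (2 + |Real.log x|) ≤ 5 / 2 * Real.exp x := by
    nlinarith
  have h5 : Real.exp (-Real.pi * x) * Real.exp x ≤ Real.exp (-2 * x) := by
    rw [← Real.exp_add]
    apply Real.exp_le_exp.mpr
    have := Real.pi_gt_three
    nlinarith
  have h6 : 0 < Real.exp (-Real.pi * x) := Real.exp_pos _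
  calc x * K x ≤ x * (Real.exp (-Real.pi * x) * (2 + |Real.log x|)) :=
        mul_le_mul_of_nonneg_left h1 hx0.le
    _ = Real.exp (-Real.pi * x) * (x * (2 + |Real.log x|)) := by ring
    _ ≤ Real.exp (-Real.pi * x) * (5 / 2 * Real.exp x) := mul_le_mul_of_nonneg_left h4 h6.le
    _ = 5 / 2 * (Real.exp (-Real.pi * x) * Real.exp x) := by ring
    _ ≤ 5 / 2 * Real.exp (-2 * x) := by linarith

/-- The geometric tail. -/
theorem geo_tail {s : ℝ} (hs : 0 < s) (k : ℕ) :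
    Summable (fun n : ℕ => Real.exp (-2 * ((n + k : ℕ) * s))) ∧
    ∑' n : ℕ, Real.exp (-2 * ((n + k : ℕ) * s)) ≤ Real.exp (-2 * (k * s)) * (1 + 1 / (2 * s)) := by
  have h1 : (fun n : ℕ => Real.exp (-2 * ((n + k : ℕ) * s))) =
      fun n : ℕ => Real.exp (-2 * (k * s)) * Real.exp (-2 * s) ^ n := by
    funext n
    rw [← Real.exp_nat_mul, ← Real.exp_add]
    congr 1
    push_cast
    ring
  have h2 : Real.exp (-2 * s) < 1 := by
    rw [Real.exp_lt_one_iff]
    linarith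
  have h3 : Summable fun n : ℕ => Real.exp (-2 * s) ^ n :=
    summable_geometric_of_lt_one (Real.exp_pos _).le h2
  rw [h1]
  refine ⟨h3.mul_left _, ?_⟩
  rw [tsum_mul_left, tsum_geometric_of_lt_one (Real.exp_pos _).le h2]
  apply mul_le_mul_of_nonneg_left _ (Real.exp_pos _).le
  have h4 : 1 + 2 * s ≤ Real.exp (2 * s) := by
    have := Real.add_one_le_exp (2 * s)
    linarith
  have h5 : Real.exp (-2 * s) * Real.exp (2 * s) = 1 := by
    rw [← Real.exp_add]
    simp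
  have h6 : Real.exp (-2 * s) * (1 + 2 * s) ≤ 1 := by
    have := mul_le_mul_of_nonneg_left h4 (Real.exp_pos (-2 * s)).le
    linarith
  rw [inv_le_iff_one_le_mul₀ (by linarith)]
  have h7 : (1 + 1 / (2 * s)) = (1 + 2 * s) / (2 * s) := by
    field_simp
    ring
  rw [h7, div_mul_eq_mul_div, le_div_iff₀ (by linarith)]
  nlinarith

theorem ker_sum {K : ℝ → ℝ} (hK : KerOK K) {a : ℕ → ℝ} (ha0 : ∀ n, 0 ≤ a n) (ha1 : ∀ n, a n ≤ n)
    {s M : ℝ} (hs : 0 < s) (hM : 1 / 2 ≤ M * s) :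
    Summable (fun n : ℕ => a n * K (n * s)) ∧
    ∑' n : ℕ, a n * K (n * s) ≤ K s * ∑ n ∈ Icc 1 ⌊M⌋₊, a n +
      5 / 2 / s * (1 + 1 / (2 * s)) * Real.exp (-2 * (M * s)) := by
  set k : ℕ := ⌊M⌋₊ + 1 with hk
  have hM0 : 0 < M := by
    by_contra h
    have : M * s ≤ 0 := mul_nonpos_of_nonpos_of_nonneg (by linarith) hs.le
    linarith
  have hkM : M ≤ k := by
    have := Nat.lt_floor_add_one M
    rw [hk]
    push_cast
    linarith
  have ha00 : a 0 = 0 := le_antisymm (by simpa using ha1 0) (ha0 0)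
  have hterm : ∀ n : ℕ, a (n + k) * K ((n + k : ℕ) * s) ≤
      5 / 2 / s * Real.exp (-2 * ((n + k : ℕ) * s)) := by
    intro n
    have h1 : M ≤ ((n + k : ℕ) : ℝ) := by
      push_cast
      have : (0 : ℝ) ≤ n := Nat.cast_nonneg n
      linarith
    have h2 : 1 / 2 ≤ ((n + k : ℕ) : ℝ) * s := by
      have := mul_le_mul_of_nonneg_right h1 hs.le
      linarith
    have h3 := ker_term hK h2
    have h4 : a (n + k) * K ((n + k : ℕ) * s) ≤ ((n + k : ℕ) : ℝ) * K ((n + k : ℕ) * s) :=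
      mul_le_mul_of_nonneg_right (ha1 _) (hK.1 _)
    have h5 : ((n + k : ℕ) : ℝ) * K ((n + k : ℕ) * s) =
        1 / s * (((n + k : ℕ) : ℝ) * s * K ((n + k : ℕ) * s)) := by
      field_simp
    have h6 : 1 / s * (((n + k : ℕ) : ℝ) * s * K ((n + k : ℕ) * s)) ≤
        1 / s * (5 / 2 * Real.exp (-2 * ((n + k : ℕ) * s))) :=
      mul_le_mul_of_nonneg_left h3 (by positivity)
    calc a (n + k) * K ((n + k : ℕ) * s) ≤ 1 / s * (5 / 2 * Real.exp (-2 * ((n + k : ℕ) * s))) := by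
          linarith
      _ = 5 / 2 / s * Real.exp (-2 * ((n + k : ℕ) * s)) := by ring
  obtain ⟨g1, g2⟩ := geo_tail hs k
  have hsum2 : Summable (fun n : ℕ => a (n + k) * K ((n + k : ℕ) * s)) :=
    Summable.of_nonneg_of_le (fun n => mul_nonneg (ha0 _) (hK.1 _)) hterm (g1.mul_left _)
  have hsum : Summable (fun n : ℕ => a n * K (n * s)) :=
    (summable_nat_add_iff (f := fun n : ℕ => a n * K (n * s)) k).mp hsum2
  refine ⟨hsum, ?_⟩
  rw [← hsum.sum_add_tsum_nat_add k]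
  apply add_le_add
  · have h1 : ∑ n ∈ range k, a n * K (n * s) ≤ ∑ n ∈ range k, K s * a n := by
      apply sum_le_sum
      intro n _
      rcases Nat.eq_zero_or_pos n with h | h
      · subst h
        simp [ha00]
      · have h2 : s ≤ n * s := by
          have : (1 : ℝ) ≤ n := by exact_mod_cast h
          nlinarith
        have h3 := hK.2.1 s (n * s) hs h2
        rw [mul_comm (K s)]
        exact mul_le_mul_of_nonneg_left h3 (ha0 n)
    have h2 : ∑ n ∈ range k, K s * a n = K s * ∑ n ∈ Icc 1 ⌊M⌋₊, a n := by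
      rw [← mul_sum, hk, Finset.range_eq_Ico, Finset.sum_eq_sum_Ico_succ_bot (by omega), ha00,
        zero_add]
      congr 1
    linarith
  · calc ∑' n : ℕ, a (n + k) * K ((n + k : ℕ) * s)
        ≤ ∑' n : ℕ, 5 / 2 / s * Real.exp (-2 * ((n + k : ℕ) * s)) :=
          hsum2.tsum_le_tsum hterm (g1.mul_left _)
      _ = 5 / 2 / s * ∑' n : ℕ, Real.exp (-2 * ((n + k : ℕ) * s)) := tsum_mul_left
      _ ≤ 5 / 2 / s * (Real.exp (-2 * (k * s)) * (1 + 1 / (2 * s))) :=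
          mul_le_mul_of_nonneg_left g2 (by positivity)
      _ ≤ 5 / 2 / s * (Real.exp (-2 * (M * s)) * (1 + 1 / (2 * s))) := by
          apply mul_le_mul_of_nonneg_left _ (by positivity)
          apply mul_le_mul_of_nonneg_right _ (by positivity)
          apply Real.exp_le_exp.mpr
          nlinarith
      _ = 5 / 2 / s * (1 + 1 / (2 * s)) * Real.exp (-2 * (M * s)) := by ring

theorem sum_nonneg_Icc {a : ℕ → ℝ} (ha0 : ∀ n, 0 ≤ a n) (k : ℕ) : 0 ≤ ∑ n ∈ Icc 1 k, a n :=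
  sum_nonneg fun n _ => ha0 n

/-- `K(1/(2√q))` and `K(1/√q)` are `≤ 3 log q`. -/
theorem ker_small {K : ℝ → ℝ} (hK : KerOK K) {q : ℝ} (hq : 3 ≤ q) (hL : 1 ≤ Real.log q)
    {s : ℝ} (hs : 1 / (2 * Real.sqrt q) ≤ s) : K s ≤ 3 * Real.log q := by
  have hq0 : 0 < q := by linarith
  have hsq : 0 < Real.sqrt q := Real.sqrt_pos.mpr hq0
  have h0 : 0 < 1 / (2 * Real.sqrt q) := by positivity
  have h1 := hK.2.1 _ s h0 hs
  have h2 := hK.2.2.2 _ h0
  have h3 : Real.exp (-Real.pi * (1 / (2 * Real.sqrt q))) ≤ 1 := by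
    apply Real.exp_le_one_iff.mpr
    have := mul_pos Real.pi_pos h0
    linarith
  have h4 : Real.log (1 / (2 * Real.sqrt q)) = -(Real.log 2 + Real.log q / 2) := by
    rw [one_div, Real.log_inv, Real.log_mul (by norm_num) hsq.ne', Real.log_sqrt hq0.le]
  have h5 : |Real.log (1 / (2 * Real.sqrt q))| = Real.log 2 + Real.log q / 2 := by
    rw [h4, abs_neg, abs_of_nonneg]
    have := Real.log_nonneg (show (1 : ℝ) ≤ 2 by norm_num)
    linarith
  have h6 : Real.log 3 ≤ Real.log q := Real.log_le_log (by norm_num) hq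
  have h7 : (1.08 : ℝ) < Real.log 3 := by
    have h9 : Real.exp 1.08 < 3 := by
      have h10 : Real.exp 1.08 = Real.exp 1 * Real.exp 0.08 := by
        rw [← Real.exp_add]
        norm_num
      have h11 : Real.exp 1 < 2.7182818286 := Real.exp_one_lt_d9
      have h12 : Real.exp 0.08 ≤ 1 + 0.08 + 0.08 ^ 2 / 2 + 0.08 ^ 3 / 6 +
          0.08 ^ 4 := by
        have := Real.exp_bound' (x := 0.08) (by norm_num) (by norm_num) (n := 4) (by norm_num)
        refine this.trans ?_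
        norm_num [Finset.sum_range_succ, Nat.factorial]
      rw [h10]
      calc Real.exp 1 * Real.exp 0.08 ≤ 2.7182818286 *
            (1 + 0.08 + 0.08 ^ 2 / 2 + 0.08 ^ 3 / 6 + 0.08 ^ 4) := by
            apply mul_le_mul h11.le h12 (Real.exp_pos _).le (by norm_num)
        _ < 3 := by norm_num
    rw [Real.lt_log_iff_exp_lt (by norm_num)]
    exact h9
  have h8 : Real.log 2 < 0.6931471808 := Real.log_two_lt_d9
  rw [h5] at h2
  have h9 : Real.exp (-Real.pi * (1 / (2 * Real.sqrt q))) * (2 + (Real.log 2 + Real.log q / 2)) ≤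
      1 * (2 + (Real.log 2 + Real.log q / 2)) := by
    apply mul_le_mul_of_nonneg_right h3
    have := Real.log_nonneg (show (1 : ℝ) ≤ 2 by norm_num)
    linarith
  linarith

theorem low_core {K : ℝ → ℝ} (hK : KerOK K) {a : ℕ → ℝ} (ha0 : ∀ n, 0 ≤ a n)
    (ha1 : ∀ n, a n ≤ n) {q : ℝ} (hq : 3 ≤ q) (hL : 1 ≤ Real.log q) {w A0 : ℝ}
    (hw : w = 1 ∨ w = -1)
    (fe : ∀ u : ℝ, 0 < u → ∑' n : ℕ, a n * K (n * u / Real.sqrt q) =
      w / u * ∑' n : ℕ, a n * K (n * (1 / u) / Real.sqrt q) + A0 * (1 / u - w)) :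
    A0 ≤ 3 * Real.log q * ∑ n ∈ Icc 1 ⌊Real.sqrt q * Real.log q ^ 2⌋₊, a n + 10 := by
  have hq0 : 0 < q := by linarith
  have hsq : 0 < Real.sqrt q := Real.sqrt_pos.mpr hq0
  have hsq1 : 1 ≤ Real.sqrt q := by
    rw [Real.one_le_sqrt]
    linarith
  have hsqq : Real.sqrt q * Real.sqrt q = q := Real.mul_self_sqrt hq0.le
  have hL2 : 1 ≤ Real.log q ^ 2 := one_le_pow₀ hL
  set s : ℝ := 1 / (2 * Real.sqrt q) with hs
  have hs0 : 0 < s := by positivity
  set M : ℝ := Real.sqrt q * Real.log q ^ 2 with hMdef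
  have hMs : M * s = Real.log q ^ 2 / 2 := by
    rw [hMdef, hs]
    field_simp
  obtain ⟨c1, c2⟩ := ker_sum hK ha0 ha1 hs0 (M := M) (by rw [hMs]; linarith)
  have e1 : ∑' n : ℕ, a n * K (n * (1 / 2 : ℝ) / Real.sqrt q) = ∑' n : ℕ, a n * K (n * s) := by
    congr 1
    funext n
    congr 2
    rw [hs]
    field_simp
  have hA : A0 ≤ ∑' n : ℕ, a n * K (n * s) := by
    rcases hw with h | h
    · have f := fe (1 / 2) (by norm_num)
      rw [e1, h] at f
      have g : 0 ≤ ∑' n : ℕ, a n * K (n * (1 / (1 / 2 : ℝ)) / Real.sqrt q) :=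
        tsum_nonneg fun n => mul_nonneg (ha0 n) (hK.1 _)
      rw [f]
      norm_num at g ⊢
      linarith
    · have f := fe 1 (by norm_num)
      rw [h] at f
      norm_num at f
      have f2 : ∑' n : ℕ, a n * K (n / Real.sqrt q) = A0 := by linarith
      rw [← f2]
      apply Summable.tsum_le_tsum _ _ c1
      · intro n
        apply mul_le_mul_of_nonneg_left _ (ha0 n)
        rcases Nat.eq_zero_or_pos n with h0 | h0
        · subst h0
          simp
        · have hn : (0 : ℝ) < n := by exact_mod_cast h0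
          apply hK.2.1 _ _ (mul_pos hn hs0)
          rw [hs, mul_one_div]
          exact div_le_div_of_nonneg_left hn.le hsq (by linarith)
      · have h1s : 0 < 1 / Real.sqrt q := by positivity
        have := (ker_sum hK ha0 ha1 h1s (M := M) (by
          rw [hMdef]
          field_simp
          linarith)).1
        refine this.congr fun n => ?_
        rw [mul_one_div]
  have hK3 : K s ≤ 3 * Real.log q := ker_small hK hq hL (le_of_eq hs.symm)
  have hR := sum_nonneg_Icc ha0 ⌊M⌋₊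
  have h1 : K s * ∑ n ∈ Icc 1 ⌊M⌋₊, a n ≤ 3 * Real.log q * ∑ n ∈ Icc 1 ⌊M⌋₊, a n :=
    mul_le_mul_of_nonneg_right hK3 hR
  have h2 : 5 / 2 / s * (1 + 1 / (2 * s)) * Real.exp (-2 * (M * s)) ≤ 10 := by
    have e2 : 5 / 2 / s = 5 * Real.sqrt q := by
      rw [hs]
      field_simp
    have e3 : 1 + 1 / (2 * s) = 1 + Real.sqrt q := by
      rw [hs]
      field_simp
    have e4 : Real.exp (-2 * (M * s)) * q ≤ 1 := by
      rw [hMs]
      nth_rewrite 2 [← Real.exp_log hq0]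
      rw [← Real.exp_add]
      apply Real.exp_le_one_iff.mpr
      nlinarith
    rw [e2, e3]
    have e5 : 5 * Real.sqrt q * (1 + Real.sqrt q) ≤ 10 * q := by nlinarith
    have e6 : 0 < Real.exp (-2 * (M * s)) := Real.exp_pos _
    calc 5 * Real.sqrt q * (1 + Real.sqrt q) * Real.exp (-2 * (M * s))
        ≤ 10 * q * Real.exp (-2 * (M * s)) := mul_le_mul_of_nonneg_right e5 e6.le
      _ = 10 * (Real.exp (-2 * (M * s)) * q) := by ring
      _ ≤ 10 := by linarith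
  linarith

theorem up_core {K : ℝ → ℝ} (hK : KerOK K) {a : ℕ → ℝ} (ha0 : ∀ n, 0 ≤ a n)
    (ha1 : ∀ n, a n ≤ n) {q : ℝ} (hq : 3 ≤ q) (hL : 1 ≤ Real.log q) {w A0 : ℝ}
    (hw : w = 1 ∨ w = -1) (hA0 : 0 ≤ A0)
    (fe : ∀ u : ℝ, 0 < u → ∑' n : ℕ, a n * K (n * u / Real.sqrt q) =
      w / u * ∑' n : ℕ, a n * K (n * (1 / u) / Real.sqrt q) + A0 * (1 / u - w))
    {y : ℕ} (hy : Real.sqrt q ≤ y) :
    K 1 * ∑ n ∈ Icc 1 y, a n ≤
      3 * (y / Real.sqrt q * Real.log q * ∑ n ∈ Icc 1 ⌊q / y * Real.log q ^ 2⌋₊, a n) + 4 +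
        2 * (A0 / Real.sqrt q * y) := by
  have hq0 : 0 < q := by linarith
  have hsq : 0 < Real.sqrt q := Real.sqrt_pos.mpr hq0
  have hsq1 : 1 ≤ Real.sqrt q := by
    rw [Real.one_le_sqrt]
    linarith
  have hsqq : Real.sqrt q * Real.sqrt q = q := Real.mul_self_sqrt hq0.le
  have hL2 : 1 ≤ Real.log q ^ 2 := one_le_pow₀ hL
  have hy0 : (0 : ℝ) < y := by linarith
  set s : ℝ := y / q with hs
  have hs0 : 0 < s := by positivity
  set M : ℝ := q / y * Real.log q ^ 2 with hMdef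
  have hMs : M * s = Real.log q ^ 2 := by
    rw [hMdef, hs]
    field_simp
  obtain ⟨c1, c2⟩ := ker_sum hK ha0 ha1 hs0 (M := M) (by rw [hMs]; linarith)
  set u : ℝ := Real.sqrt q / y with hu
  have hu0 : 0 < u := by positivity
  have hu1 : u ≤ 1 := by
    rw [hu, div_le_one hy0]
    exact hy
  have f := fe u hu0
  have e1 : ∑' n : ℕ, a n * K (n * (1 / u) / Real.sqrt q) = ∑' n : ℕ, a n * K (n * s) := by
    congr 1
    funext n
    congr 2
    rw [hs, hu]
    field_simp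
    rw [Real.sq_sqrt hq0.le]
  have e2 : ∑' n : ℕ, a n * K (n * u / Real.sqrt q) = ∑' n : ℕ, a n * K (n * (1 / y : ℝ)) := by
    congr 1
    funext n
    congr 2
    rw [hu]
    field_simp
  rw [e1, e2] at f
  -- lower bound
  have h1y : (0 : ℝ) < 1 / y := by positivity
  have hsumy : Summable (fun n : ℕ => a n * K (n * (1 / y : ℝ))) :=
    (ker_sum hK ha0 ha1 h1y (M := y) (by
      have : (y : ℝ) * (1 / y) = 1 := by field_simp
      rw [this]
      norm_num)).1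
  have low : K 1 * ∑ n ∈ Icc 1 y, a n ≤ ∑' n : ℕ, a n * K (n * (1 / y : ℝ)) := by
    calc K 1 * ∑ n ∈ Icc 1 y, a n = ∑ n ∈ Icc 1 y, a n * K 1 := by
          rw [mul_sum]
          exact sum_congr rfl fun n _ => mul_comm _ _
      _ ≤ ∑ n ∈ Icc 1 y, a n * K (n * (1 / y : ℝ)) := by
          apply sum_le_sum
          intro n hn
          rw [mem_Icc] at hn
          apply mul_le_mul_of_nonneg_left _ (ha0 n)
          have hn0 : (0 : ℝ) < n := by exact_mod_cast hn.1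
          apply hK.2.1 _ _ (mul_pos hn0 h1y)
          rw [mul_one_div, div_le_one hy0]
          exact_mod_cast hn.2
      _ ≤ ∑' n : ℕ, a n * K (n * (1 / y : ℝ)) :=
          hsumy.sum_le_tsum _ fun n _ => mul_nonneg (ha0 n) (hK.1 _)
  -- upper bound
  set E1 : ℝ := ∑' n : ℕ, a n * K (n * s) with hE1
  have hE10 : 0 ≤ E1 := tsum_nonneg fun n => mul_nonneg (ha0 n) (hK.1 _)
  have hup : w / u * E1 + A0 * (1 / u - w) ≤ 1 / u * E1 + 2 * (A0 * (1 / u)) := by
    have h1u : 1 ≤ 1 / u := by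
      rw [le_div_iff₀ hu0]
      linarith
    have hA1 : 0 ≤ A0 * (1 / u - 1) := mul_nonneg hA0 (by linarith)
    rcases hw with h | h
    · rw [h]
      have e : A0 * (1 / u - 1) = A0 * (1 / u) - A0 := by ring
      linarith
    · rw [h]
      have h2 : -1 / u * E1 ≤ 1 / u * E1 := by
        apply mul_le_mul_of_nonneg_right _ hE10
        rw [neg_div]
        linarith
      have e : A0 * (1 / u - 1) = A0 * (1 / u) - A0 := by ring
      have e2 : A0 * (1 / u - -1) = A0 * (1 / u) + A0 := by ring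
      linarith
  have hinv : 1 / u = y / Real.sqrt q := by
    rw [hu]
    field_simp
  have hK3 : K s ≤ 3 * Real.log q := by
    apply ker_small hK hq hL
    rw [hs, div_le_div_iff₀ (by positivity) hq0]
    nlinarith
  have hR := sum_nonneg_Icc ha0 ⌊M⌋₊
  have h1 : K s * ∑ n ∈ Icc 1 ⌊M⌋₊, a n ≤ 3 * Real.log q * ∑ n ∈ Icc 1 ⌊M⌋₊, a n :=
    mul_le_mul_of_nonneg_right hK3 hR
  have h2 : 1 / u * (5 / 2 / s * (1 + 1 / (2 * s)) * Real.exp (-2 * (M * s))) ≤ 4 := by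
    have e3 : 1 / u * (5 / 2 / s) = 5 / 2 * Real.sqrt q := by
      rw [hs, hu]
      field_simp
      rw [Real.sq_sqrt hq0.le]
    have e4 : 1 + 1 / (2 * s) ≤ 3 / 2 * Real.sqrt q := by
      have e5 : 1 / (2 * s) ≤ Real.sqrt q / 2 := by
        rw [hs, div_le_div_iff₀ (by positivity) (by norm_num)]
        have : q ≤ Real.sqrt q * y := by nlinarith
        have h6 : Real.sqrt q * (2 * (y / q)) = 2 * (Real.sqrt q * y) / q := by
          field_simp
        rw [h6, le_div_iff₀ hq0]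
        linarith
      linarith
    have e6 : Real.exp (-2 * (M * s)) * q ≤ 1 := by
      rw [hMs]
      nth_rewrite 2 [← Real.exp_log hq0]
      rw [← Real.exp_add]
      apply Real.exp_le_one_iff.mpr
      nlinarith
    have e7 : 0 < Real.exp (-2 * (M * s)) := Real.exp_pos _
    calc 1 / u * (5 / 2 / s * (1 + 1 / (2 * s)) * Real.exp (-2 * (M * s)))
        = 1 / u * (5 / 2 / s) * (1 + 1 / (2 * s)) * Real.exp (-2 * (M * s)) := by ring
      _ = 5 / 2 * Real.sqrt q * (1 + 1 / (2 * s)) * Real.exp (-2 * (M * s)) := by rw [e3]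
      _ ≤ 5 / 2 * Real.sqrt q * (3 / 2 * Real.sqrt q) * Real.exp (-2 * (M * s)) := by
          apply mul_le_mul_of_nonneg_right _ e7.le
          exact mul_le_mul_of_nonneg_left e4 (by positivity)
      _ = 15 / 4 * (Real.exp (-2 * (M * s)) * (Real.sqrt q * Real.sqrt q)) := by ring
      _ = 15 / 4 * (Real.exp (-2 * (M * s)) * q) := by rw [hsqq]
      _ ≤ 4 := by linarith
  have h3 : 1 / u * E1 ≤ 1 / u * (3 * Real.log q * ∑ n ∈ Icc 1 ⌊M⌋₊, a n) + 4 := by
    have h1u0 : 0 ≤ 1 / u := by positivity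
    have h4 : 1 / u * E1 ≤ 1 / u * (3 * Real.log q * ∑ n ∈ Icc 1 ⌊M⌋₊, a n +
        5 / 2 / s * (1 + 1 / (2 * s)) * Real.exp (-2 * (M * s))) :=
      mul_le_mul_of_nonneg_left (by linarith) h1u0
    rw [mul_add] at h4
    linarith
  have h5 : 1 / u * (3 * Real.log q * ∑ n ∈ Icc 1 ⌊M⌋₊, a n) =
      3 * (y / Real.sqrt q * Real.log q * ∑ n ∈ Icc 1 ⌊M⌋₊, a n) := by
    rw [hinv]
    ring
  have h6 : A0 * (1 / u) = A0 / Real.sqrt q * y := by
    rw [hinv]
    ring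
  rw [f] at low
  rw [h6] at hup
  linarith

theorem q_ge_three {q : ℕ} (hq : NeZero q) (χ : DirichletCharacter ℂ q) (hχ : χ ≠ 1) : 3 ≤ q := by
  by_contra h
  have h1 : q ≠ 0 := hq.out
  have h2 : q = 1 ∨ q = 2 := by omega
  apply hχ
  apply MulChar.ext
  intro a
  have h3 : a = 1 := by
    rcases h2 with h2 | h2
    · subst h2
      exact Subsingleton.elim _ _
    · subst h2
      revert a
      decide
  rw [h3]
  simp

theorem rr_le {q : ℕ} (χ : DirichletCharacter ℂ q) (h : RealChar χ) (n : ℕ) : rr χ n ≤ n := by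
  have h1 := (rr_nonneg χ h n).2
  have h2 : (n.divisors.card : ℝ) ≤ n := by
    exact_mod_cast Nat.card_divisors_le_self n
  linarith

theorem th_fe {q : ℕ} [NeZero q] (χ : DirichletCharacter ℂ q) (hp : χ.IsPrimitive) (hχ : χ ≠ 1)
    (h : RealChar χ) : ∃ K : ℝ → ℝ, (K = KE ∨ K = fun x => Real.exp (-2 * Real.pi * x)) ∧
    ∃ w c : ℝ, (w = 1 ∨ w = -1) ∧ 1 / 8 ≤ c ∧ c ≤ 1 ∧ ∀ u : ℝ, 0 < u →
      ∑' n : ℕ, rr χ n * K (n * u / Real.sqrt q) =
      w / u * ∑' n : ℕ, rr χ n * K (n * (1 / u) / Real.sqrt q) +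
        c * Real.sqrt q * L1 χ * (1 / u - w) := by
  rcases χ.even_or_odd with he | ho
  · obtain ⟨w, hw, fe⟩ := EE_fe q χ hp hχ h he
    refine ⟨KE, Or.inl rfl, w, 1 / 4, hw, by norm_num, by norm_num, fun u hu => ?_⟩
    have := fe u hu
    unfold EE at this
    rw [this]
    ring
  · obtain ⟨w, hw, fe⟩ := EO_fe q χ hp hχ h ho
    have hpi := Real.pi_pos
    refine ⟨_, Or.inr rfl, w, 1 / (2 * Real.pi), hw, ?_, ?_, fun u hu => ?_⟩
    · apply one_div_le_one_div_of_le (by positivity)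
      have := Real.pi_le_four
      linarith
    · rw [div_le_one (by positivity)]
      have := Real.pi_gt_three
      linarith
    have := fe u hu
    unfold EO at this
    simp only [mul_div_assoc] at this ⊢
    rw [this]
    ring

theorem log_q_ge {q : ℝ} (hq : 3 ≤ q) : 1 ≤ Real.log q := by
  rw [Real.le_log_iff_exp_le (by linarith)]
  have := Real.exp_one_lt_d9
  linarith

theorem th_low : ∃ c : ℝ, 0 < c ∧ ∀ q : ℕ, ∀ _ : NeZero q, ∀ χ : DirichletCharacter ℂ q,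
    χ.IsPrimitive → χ ≠ 1 → RealChar χ →
    c * Real.sqrt q * L1 χ / Real.log q - 1 ≤
      ∑ n ∈ Icc 1 ⌊Real.sqrt q * Real.log q ^ 2⌋₊, rr χ n := by
  refine ⟨1 / 96, by norm_num, fun q hq χ hp hχ hr => ?_⟩
  have h3 : (3 : ℝ) ≤ q := by exact_mod_cast q_ge_three hq χ hχ
  have hL := log_q_ge h3
  obtain ⟨K, hK, w, c, hw, hc, -, fe⟩ := th_fe χ hp hχ hr
  have hK' : KerOK K := by
    rcases hK with h | h
    · rw [h]
      exact kerOK_KE
    · rw [h]
      exact kerOK_exp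
  have main := low_core hK' (fun n => (rr_nonneg χ hr n).1) (rr_le χ hr) h3 hL hw fe
  set R := ∑ n ∈ Icc 1 ⌊Real.sqrt q * Real.log q ^ 2⌋₊, rr χ n with hR
  have hR0 : 0 ≤ R := sum_nonneg_Icc (fun n => (rr_nonneg χ hr n).1) _
  have hL1 := L_pos q χ hχ hr
  have hX : 0 ≤ Real.sqrt q * L1 χ := mul_nonneg (Real.sqrt_nonneg _) hL1.le
  have h1 : 1 / 8 * (Real.sqrt q * L1 χ) ≤ c * (Real.sqrt q * L1 χ) :=
    mul_le_mul_of_nonneg_right hc hX
  rw [sub_le_iff_le_add, div_le_iff₀ (by linarith)]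
  nlinarith

theorem th_up : ∃ C : ℝ, 0 < C ∧ ∀ q : ℕ, ∀ _ : NeZero q, ∀ χ : DirichletCharacter ℂ q,
    χ.IsPrimitive → χ ≠ 1 → RealChar χ → ∀ y : ℕ, Real.sqrt q ≤ y → (y : ℝ) ≤ (q : ℝ) ^ 2 →
    ∑ n ∈ Icc 1 y, rr χ n ≤
      C * (y / Real.sqrt q * Real.log q *
        ∑ n ∈ Icc 1 ⌊(q : ℝ) / y * Real.log q ^ 2⌋₊, rr χ n + y * L1 χ + 1) := by
  set k : ℝ := min (KE 1) (Real.exp (-2 * Real.pi * 1)) with hk
  have hk0 : 0 < k := lt_min KE_one (Real.exp_pos _)
  refine ⟨4 / k, by positivity, fun q hq χ hp hχ hr y hy _ => ?_⟩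
  have h3 : (3 : ℝ) ≤ q := by exact_mod_cast q_ge_three hq χ hχ
  have hL := log_q_ge h3
  obtain ⟨K, hK, w, c, hw, hc, hc1, fe⟩ := th_fe χ hp hχ hr
  have hK' : KerOK K ∧ k ≤ K 1 := by
    rcases hK with h | h
    · rw [h]
      exact ⟨kerOK_KE, min_le_left _ _⟩
    · rw [h]
      exact ⟨kerOK_exp, min_le_right _ _⟩
  have hL1 := L_pos q χ hχ hr
  have hsq : 0 < Real.sqrt q := Real.sqrt_pos.mpr (by linarith)
  have hX : 0 ≤ c * Real.sqrt q * L1 χ :=
    mul_nonneg (mul_nonneg (by linarith) (Real.sqrt_nonneg _)) hL1.le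
  have main := up_core hK'.1 (fun n => (rr_nonneg χ hr n).1) (rr_le χ hr) h3 hL hw hX fe hy
  set R := ∑ n ∈ Icc 1 y, rr χ n with hR
  set R2 := ∑ n ∈ Icc 1 ⌊(q : ℝ) / y * Real.log q ^ 2⌋₊, rr χ n with hR2
  have hR0 : 0 ≤ R := sum_nonneg_Icc (fun n => (rr_nonneg χ hr n).1) _
  have hR20 : 0 ≤ R2 := sum_nonneg_Icc (fun n => (rr_nonneg χ hr n).1) _
  have hy0 : (0 : ℝ) ≤ y := Nat.cast_nonneg y
  have h1 : c * Real.sqrt q * L1 χ / Real.sqrt q * y = c * (y * L1 χ) := by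
    field_simp
  rw [h1] at main
  have h2 : c * (y * L1 χ) ≤ 1 * (y * L1 χ) :=
    mul_le_mul_of_nonneg_right hc1 (mul_nonneg hy0 hL1.le)
  have h4 : 0 ≤ y / Real.sqrt q * Real.log q * R2 := by positivity
  have h5 : k * R ≤ K 1 * R := mul_le_mul_of_nonneg_right hK'.2 hR0
  rw [div_mul_eq_mul_div, le_div_iff₀ hk0]
  have h6 : 0 ≤ (y : ℝ) * L1 χ := mul_nonneg hy0 hL1.le
  nlinarith

end Pool.Agent.GLI
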