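import Pool.Agent.GLI.CmpBasic
import Pool.Agent.GLI.ThBd

set_option autoImplicit false

/-!
Module CmpB (`q = χ.conductor > N^0.9`). `y = ⌊√N (log N)^12⌋`, `L = L1 χ* ≥ c N^(-ε/2)` (siegel). th_low at
`x0 = ⌊√q (log q)²⌋ ≤ y` with r_low_Sp: `c √q L/log q - 1 ≤ N^δ √x0 + 8 x0 log N Sp χ x0`, the left side is `≥ N^0.44`, so
`Sp χ y ≥ Sp χ x0 ≥ c' L/(log N)^4`. For `y ≤ Y < N`, th_up at `2Y`, `z = ⌊(q/(2Y)) (log q)²⌋ ≤ √N/(log N)^9`:
`R(2Y) ≤ C (2Y/√q · log q · R(z) + 2 Y L + 1)`, r_low_Sp: `R(z) ≤ N^δ √z + 8 z log N Sp χ y` (`z = 0`: `R = 0`):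
`R(2Y)/Y ≤ 2C (log q/√q)(N^δ √z + 8 z log N Sp χ y) + 2 C L + C/Y ≤ N^(-0.2) + (log N)^(-5) Sp χ y + 2 C L + C/Y`
(`z/√q ≤ (√q/Y)(log q)² ≤ (log N)^(-9)`). Sp_tail; `N^(-0.2)`, `L`, `1/Y` are all `≤ (log N)^4.5 Sp χ y`.
-/

open Finset Filter

namespace Pool.Agent.GLI

theorem cmpb_Sp_mono {N : ℕ} (χ : DirichletCharacter ℂ N) {x y : ℕ} (h : x ≤ y) :
    Sp χ x ≤ Sp χ y := by
  classical
  unfold Sp
  refine Finset.sum_le_sum_of_subset_of_nonneg ?_ ?_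
  · intro p hp
    unfold split at hp ⊢
    rw [Finset.mem_filter, Finset.mem_Icc] at hp ⊢
    exact ⟨⟨hp.1.1, le_trans hp.1.2 h⟩, hp.2⟩
  · intro p _ _
    positivity

theorem cmpb_Sp_nonneg {N : ℕ} (χ : DirichletCharacter ℂ N) (x : ℕ) : 0 ≤ Sp χ x := by
  unfold Sp
  exact Finset.sum_nonneg fun p _ => by positivity

/-- first real inequality: `s ≥ (c2/16) L/ℓ^4`. -/
theorem cmpb_step1 (c1 c2 Q L s l x0 Nd N8 e0 : ℝ) (hc1 : 0 < c1) (hc2 : 0 < c2) (hl : 1 ≤ l)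
    (hQ : 1 ≤ Q) (hx0 : x0 ≤ Q * l ^ 2) (hNd : 1 ≤ Nd)
    (hs : 0 ≤ s)
    (hL : c1 * e0 ≤ L)
    (hQe : N8 ≤ Real.sqrt Q * e0)
    (hbig : 4 / (c1 * c2) * Nd * l ^ 2 ≤ N8)
    (h : c2 * Q * L / l - 1 ≤ Nd * Real.sqrt x0 + 8 * x0 * l * s) :
    L ≤ 16 / c2 * l ^ 4 * s := by
  have hl0 : 0 < l := by linarith
  have hQ0 : 0 < Q := by linarith
  have hsQ : 1 ≤ Real.sqrt Q := by
    rw [show (1 : ℝ) = Real.sqrt 1 by simp]
    exact Real.sqrt_le_sqrt hQ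
  have hsQ2 : Real.sqrt Q * Real.sqrt Q = Q := Real.mul_self_sqrt hQ0.le
  have hsx : Real.sqrt x0 ≤ Real.sqrt Q * l := by
    calc Real.sqrt x0 ≤ Real.sqrt (Q * l ^ 2) := Real.sqrt_le_sqrt hx0
      _ = Real.sqrt Q * l := by
        rw [Real.sqrt_mul hQ0.le, Real.sqrt_sq hl0.le]
  -- main bound
  have h1 : 1 + Nd * Real.sqrt x0 ≤ 2 * Nd * l * Real.sqrt Q := by
    have a1 : Nd * Real.sqrt x0 ≤ Nd * (Real.sqrt Q * l) :=
      mul_le_mul_of_nonneg_left hsx (by linarith)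
    have a2 : (1 : ℝ) ≤ Nd * l * Real.sqrt Q := by
      have b1 : (1 : ℝ) ≤ Nd * l := by nlinarith
      nlinarith
    nlinarith
  have h2 : 2 * Nd * l * Real.sqrt Q ≤ c2 / 2 * (Q * L / l) := by
    have a1 : c1 * N8 ≤ Real.sqrt Q * L := by
      calc c1 * N8 ≤ c1 * (Real.sqrt Q * e0) := mul_le_mul_of_nonneg_left hQe hc1.le
        _ = Real.sqrt Q * (c1 * e0) := by ring
        _ ≤ Real.sqrt Q * L := mul_le_mul_of_nonneg_left hL (by positivity)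
    have a2 : 4 * Nd * l ^ 2 ≤ c2 * (c1 * N8) := by
      have b1 := mul_le_mul_of_nonneg_left hbig (show 0 ≤ c1 * c2 by positivity)
      have b2 : c1 * c2 * (4 / (c1 * c2) * Nd * l ^ 2) = 4 * Nd * l ^ 2 := by
        field_simp
      linarith
    have a3 : 4 * Nd * l ^ 2 ≤ c2 * (Real.sqrt Q * L) :=
      le_trans a2 (mul_le_mul_of_nonneg_left a1 hc2.le)
    have a4 : c2 / 2 * (Q * L / l) = (c2 * (Real.sqrt Q * L)) * Real.sqrt Q / (2 * l) := by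
      have b1 : (c2 * (Real.sqrt Q * L)) * Real.sqrt Q / (2 * l)
          = c2 * L * (Real.sqrt Q * Real.sqrt Q) / (2 * l) := by ring
      rw [b1, hsQ2]
      field_simp
    rw [a4, le_div_iff₀ (by positivity)]
    calc 2 * Nd * l * Real.sqrt Q * (2 * l) = (4 * Nd * l ^ 2) * Real.sqrt Q := by ring
      _ ≤ (c2 * (Real.sqrt Q * L)) * Real.sqrt Q :=
        mul_le_mul_of_nonneg_right a3 (by positivity)
  have h3 : 8 * x0 * l * s ≤ 8 * (Q * l ^ 2) * l * s := by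
    have := mul_le_mul_of_nonneg_right hx0 (show 0 ≤ 8 * l * s by positivity)
    nlinarith
  have h4 : c2 / 2 * (Q * L / l) ≤ 8 * (Q * l ^ 2) * l * s := by
    have e1 : c2 * Q * L / l = c2 * (Q * L / l) := by ring
    rw [e1] at h
    linarith
  have h5 : c2 / 2 * L ≤ 8 * l ^ 4 * s := by
    have e1 : c2 / 2 * (Q * L / l) = (c2 / 2 * L) * (Q / l) := by ring
    have e2 : 8 * (Q * l ^ 2) * l * s = (8 * l ^ 4 * s) * (Q / l) := by
      field_simp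
    rw [e1, e2] at h4
    exact le_of_mul_le_mul_right h4 (by positivity)
  have h6 : 16 / c2 * l ^ 4 * s = (8 * l ^ 4 * s) * (2 / c2) := by ring
  rw [h6]
  calc L = (c2 / 2 * L) * (2 / c2) := by field_simp
    _ ≤ (8 * l ^ 4 * s) * (2 / c2) := mul_le_mul_of_nonneg_right h5 (by positivity)

/-- second real inequality. -/
theorem cmpb_step2 (C c2 Q L s l z Nd Y R Rz lq : ℝ) (hC : 0 < C) (hl : 1 ≤ l)
    (hlq : lq ≤ l) (hRz0 : 0 ≤ Rz)
    (hQ : 1 ≤ Q) (hz0 : 0 ≤ z) (hz : z * l ^ 10 ≤ Q) (hNd : 1 ≤ Nd)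
    (hs : 0 ≤ s) (hY : 0 < Y) (hYQ : Real.sqrt Q ≤ Y)
    (hL : L ≤ 16 / c2 * l ^ 4 * s)
    (hbig : 2 * l * Nd ≤ s * Real.sqrt Q)
    (hRz : Rz ≤ Nd * Real.sqrt z + 8 * z * l * s)
    (h : R ≤ C * ((2 * Y) / Q * lq * Rz + (2 * Y) * L + 1)) :
    R ≤ C * (18 + 32 / c2 * l ^ 4) * s * Y := by
  have hl0 : 0 < l := by linarith
  have hQ0 : 0 < Q := by linarith
  have hsQ : 1 ≤ Real.sqrt Q := by
    rw [show (1 : ℝ) = Real.sqrt 1 by simp]
    exact Real.sqrt_le_sqrt hQ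
  have hsQ2 : Real.sqrt Q * Real.sqrt Q = Q := Real.mul_self_sqrt hQ0.le
  have hl10 : (1 : ℝ) ≤ l ^ 10 := one_le_pow₀ hl
  have hzQ : z ≤ Q := le_trans (by nlinarith) hz
  have hsz : Real.sqrt z ≤ Real.sqrt Q := Real.sqrt_le_sqrt hzQ
  -- first term
  have h1 : (2 * Y) / Q * lq * Rz ≤ (2 * Y) / Q * l * (Nd * Real.sqrt Q + 8 * z * l * s) := by
    have a1 : Rz ≤ Nd * Real.sqrt Q + 8 * z * l * s := by
      have := mul_le_mul_of_nonneg_left hsz (show 0 ≤ Nd by linarith)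
      linarith
    have a2 : (2 * Y) / Q * lq ≤ (2 * Y) / Q * l :=
      mul_le_mul_of_nonneg_left hlq (by positivity)
    exact mul_le_mul a2 a1 hRz0 (by positivity)
  have h2 : (2 * Y) / Q * l * (Nd * Real.sqrt Q) ≤ Y * s := by
    have e1 : (2 * Y) / Q * l * (Nd * Real.sqrt Q) = Y * ((2 * l * Nd) / Real.sqrt Q) := by
      have : (2 * Y) / Q * l * (Nd * Real.sqrt Q)
          = (2 * Y) / (Real.sqrt Q * Real.sqrt Q) * l * (Nd * Real.sqrt Q) := by rw [hsQ2]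
      rw [this]
      field_simp
    rw [e1]
    refine mul_le_mul_of_nonneg_left ?_ hY.le
    rw [div_le_iff₀ (by linarith)]
    exact hbig
  have h3 : (2 * Y) / Q * l * (8 * z * l * s) ≤ 16 * (Y * s) := by
    have e1 : (2 * Y) / Q * l * (8 * z * l * s) = 16 * (Y * s) * ((z * l ^ 2) / Q) := by
      ring
    rw [e1]
    have a1 : (z * l ^ 2) / Q ≤ 1 := by
      rw [div_le_one hQ0]
      refine le_trans ?_ hz
      exact mul_le_mul_of_nonneg_left (pow_le_pow_right₀ hl (by norm_num)) hz0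
    have a2 : 0 ≤ 16 * (Y * s) := by positivity
    nlinarith
  have h4 : (1 : ℝ) ≤ Y * s := by
    have a1 : (1 : ℝ) ≤ 2 * l * Nd := by nlinarith
    have a2 : s * Real.sqrt Q ≤ s * Y := mul_le_mul_of_nonneg_left hYQ hs
    linarith
  have h5 : (2 * Y) * L ≤ (2 * Y) * (16 / c2 * l ^ 4 * s) :=
    mul_le_mul_of_nonneg_left hL (by positivity)
  have h6 : (2 * Y) / Q * l * (Nd * Real.sqrt Q + 8 * z * l * s)
      = (2 * Y) / Q * l * (Nd * Real.sqrt Q) + (2 * Y) / Q * l * (8 * z * l * s) := by ring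
  have h7 : (2 * Y) / Q * lq * Rz + (2 * Y) * L + 1 ≤ (18 + 32 / c2 * l ^ 4) * s * Y := by
    have e1 : (18 + 32 / c2 * l ^ 4) * s * Y = Y * s + 16 * (Y * s)
        + (2 * Y) * (16 / c2 * l ^ 4 * s) + Y * s := by ring
    rw [e1]
    linarith
  calc R ≤ C * ((2 * Y) / Q * lq * Rz + (2 * Y) * L + 1) := h
    _ ≤ C * ((18 + 32 / c2 * l ^ 4) * s * Y) := mul_le_mul_of_nonneg_left h7 hC.le
    _ = C * (18 + 32 / c2 * l ^ 4) * s * Y := by ring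

set_option maxHeartbeats 4000000 in
theorem cmp_b (ε : ℝ) (hε : 0 < ε) : ∀ᶠ N : ℕ in atTop, ∀ _ : NeZero N,
    ∀ χ : DirichletCharacter ℂ N, RealChar χ → χ ≠ 1 →
    (N : ℝ) ^ (9 / 10 : ℝ) < χ.conductor →
    ∃ y : ℕ, 1 ≤ y ∧ (y : ℝ) ≤ Real.sqrt N * Real.log N ^ 12 ∧
      (N : ℝ) ^ (-ε) ≤ Sp χ y ∧ Sp χ N ≤ Real.log N ^ 6 * Sp χ y := by
  classical
  set e0 : ℝ := min (ε / 2) (1 / 10) with he0
  have he0p : 0 < e0 := lt_min (by linarith) (by norm_num)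
  have he0a : e0 < ε := lt_of_le_of_lt (min_le_left _ _) (by linarith)
  have he0b : e0 ≤ 1 / 10 := min_le_right _ _
  obtain ⟨c1, hc1, hsieg⟩ := siegel e0 he0p
  obtain ⟨c2, hc2, hlow⟩ := th_low
  obtain ⟨C, hC, hup⟩ := th_up
  have hr := r_low_Sp (1 / 100) (by norm_num)
  filter_upwards [hr, ev_log (1 + 3 * C * (18 + 32 / c2)), ev_log 100,
    ev_pow (1 / 100) (1 / 8) (by norm_num) 2 (4 / (c1 * c2)),
    ev_pow (1 / 100) (1 / 8) (by norm_num) 5 (32 / (c1 * c2)),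
    ev_pow (-ε) (-e0) (by linarith) 4 (16 / (c1 * c2)),
    ev_pow (1 / 2) 1 (by norm_num) 12 1,
    ev_pow 0 (1 / 8) (by norm_num) 0 2,
    eventually_ge_atTop 3] with N hr hK hl100 hb2 hb5 hbe hyN' h8 hN3
  intro hNZ χ hreal hχ hcond
  have hN0 : (0 : ℝ) < N := by
    have : 0 < N := by omega
    exact_mod_cast this
  have hN1 : (1 : ℝ) ≤ N := by
    have : 1 ≤ N := by omega
    exact_mod_cast this
  obtain ⟨hreal', hχ', hdvd, hne, hval⟩ := prim_real N χ hreal hχ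
  set q : ℕ := χ.conductor with hq
  have : NeZero q := ⟨hne⟩
  have hprim : χ.primitiveCharacter.IsPrimitive := DirichletCharacter.primitiveCharacter_isPrimitive χ
  have hqN : q ≤ N := Nat.le_of_dvd (by omega) hdvd
  have hqN' : (q : ℝ) ≤ N := by exact_mod_cast hqN
  have hq0 : (0 : ℝ) < q := by
    have : 0 < q := Nat.pos_of_ne_zero hne
    exact_mod_cast this
  set l : ℝ := Real.log N with hl
  have hl1 : 1 ≤ l := by linarith
  have hl0 : 0 < l := by linarith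
  set L : ℝ := L1 χ.primitiveCharacter with hLdef
  set Q : ℝ := Real.sqrt q with hQdef
  set s2 : ℝ := Real.sqrt N with hs2
  have hQ2 : Q * Q = q := Real.mul_self_sqrt hq0.le
  have hs22 : s2 * s2 = N := Real.mul_self_sqrt hN0.le
  have hs2p : 0 < s2 := Real.sqrt_pos.mpr hN0
  have hQs : Q ≤ s2 := Real.sqrt_le_sqrt hqN'
  -- powers
  have hN9 : (1 : ℝ) ≤ (N : ℝ) ^ (9 / 10 : ℝ) := Real.one_le_rpow hN1 (by norm_num)
  have hQlow : (N : ℝ) ^ (9 / 20 : ℝ) ≤ Q := by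
    rw [hQdef, show (N : ℝ) ^ (9 / 20 : ℝ) = Real.sqrt ((N : ℝ) ^ (9 / 10 : ℝ)) by
      rw [Real.sqrt_eq_rpow, ← Real.rpow_mul hN0.le]; norm_num]
    exact Real.sqrt_le_sqrt hcond.le
  have hsQlow : (N : ℝ) ^ (9 / 40 : ℝ) ≤ Real.sqrt Q := by
    rw [show (N : ℝ) ^ (9 / 40 : ℝ) = Real.sqrt ((N : ℝ) ^ (9 / 20 : ℝ)) by
      rw [Real.sqrt_eq_rpow, ← Real.rpow_mul hN0.le]; norm_num]
    exact Real.sqrt_le_sqrt hQlow
  have hQ1 : 1 ≤ Q := le_trans (Real.one_le_rpow hN1 (by norm_num)) hQlow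
  have hNd1 : (1 : ℝ) ≤ (N : ℝ) ^ (1 / 100 : ℝ) := Real.one_le_rpow hN1 (by norm_num)
  have hq1 : (1 : ℝ) < q := lt_of_le_of_lt hN9 hcond
  have hlq0 : 0 < Real.log q := Real.log_pos hq1
  have hlq : Real.log q ≤ l := Real.log_le_log hq0 hqN'
  have hlqlow : 9 / 10 * l ≤ Real.log q := by
    have : Real.log ((N : ℝ) ^ (9 / 10 : ℝ)) ≤ Real.log q := Real.log_le_log (by positivity) hcond.le
    rwa [Real.log_rpow hN0] at this
  -- lower bound for L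
  have hL : c1 * (N : ℝ) ^ (-e0) ≤ L := by
    refine le_trans ?_ (hsieg q ‹_› χ.primitiveCharacter hprim hχ' hreal')
    refine mul_le_mul_of_nonneg_left ?_ hc1.le
    exact Real.rpow_le_rpow_of_nonpos hq0 hqN' (by linarith)
  have hLe0 : c1 * (N : ℝ) ^ (-(1 / 10) : ℝ) ≤ L := by
    refine le_trans (mul_le_mul_of_nonneg_left ?_ hc1.le) hL
    exact Real.rpow_le_rpow_of_exponent_le hN1 (by linarith)
  -- y
  set y : ℕ := ⌊s2 * l ^ 12⌋₊ with hy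
  have hyle : (y : ℝ) ≤ s2 * l ^ 12 := Nat.floor_le (by positivity)
  have hylt : s2 * l ^ 12 < (y : ℝ) + 1 := Nat.lt_floor_add_one _
  have hs21 : 1 ≤ s2 := by
    rw [hs2, show (1 : ℝ) = Real.sqrt 1 by simp]
    exact Real.sqrt_le_sqrt hN1
  have hl12 : (2 : ℝ) ≤ l ^ 12 := by
    calc (2 : ℝ) ≤ l := by linarith
      _ = l ^ 1 := (pow_one l).symm
      _ ≤ l ^ 12 := pow_le_pow_right₀ hl1 (by norm_num)
  have hM2 : 2 * s2 ≤ s2 * l ^ 12 := by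
    rw [mul_comm 2 s2]
    exact mul_le_mul_of_nonneg_left hl12 hs2p.le
  have hys2 : s2 ≤ y := by linarith
  have hy2 : s2 * l ^ 12 ≤ 2 * y := by linarith
  have hy1 : 1 ≤ y := by
    have : (1 : ℝ) ≤ y := le_trans hs21 hys2
    exact_mod_cast this
  have hyN : y ≤ N := by
    have h1 : (y : ℝ) ≤ N := by
      have h2 : 1 * (N : ℝ) ^ (1 / 2 : ℝ) * l ^ 12 ≤ N := by
        have := hyN'
        rwa [Real.rpow_one] at this
      have h3 : (N : ℝ) ^ (1 / 2 : ℝ) = s2 := (Real.sqrt_eq_rpow _).symm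
      rw [h3] at h2
      linarith
    exact_mod_cast h1
  set s : ℝ := Sp χ y with hs
  have hs0 : 0 ≤ s := cmpb_Sp_nonneg χ y
  -- step 1
  set x0 : ℕ := ⌊Q * Real.log q ^ 2⌋₊ with hx0
  have hx0le : (x0 : ℝ) ≤ Q * Real.log q ^ 2 := Nat.floor_le (by positivity)
  have hx0le' : (x0 : ℝ) ≤ Q * l ^ 2 := by
    refine le_trans hx0le ?_
    exact mul_le_mul_of_nonneg_left (pow_le_pow_left₀ hlq0.le hlq 2) (by linarith)
  have hx01 : 1 ≤ x0 := by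
    rw [hx0]
    apply Nat.le_floor
    have h1 : (1 : ℝ) ≤ Real.log q := by linarith
    have h2 : (1 : ℝ) ≤ Real.log q ^ 2 := one_le_pow₀ h1
    rw [Nat.cast_one]
    exact one_le_mul_of_one_le_of_one_le hQ1 h2
  have hx0y : x0 ≤ y := by
    rw [hx0, hy]
    apply Nat.floor_le_floor
    have h1 : Real.log q ^ 2 ≤ l ^ 12 := by
      calc Real.log q ^ 2 ≤ l ^ 2 := pow_le_pow_left₀ hlq0.le hlq 2
        _ ≤ l ^ 12 := pow_le_pow_right₀ hl1 (by norm_num)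
    exact mul_le_mul hQs h1 (by positivity) (by linarith)
  have hlow1 := hlow q ‹_› χ.primitiveCharacter hprim hχ' hreal'
  have hrx0 := hr hNZ χ hreal hχ x0 hx01 (le_trans hx0y hyN)
  have hSx0 : Sp χ x0 ≤ s := cmpb_Sp_mono χ hx0y
  have hmain : c2 * Q * L / l - 1 ≤ (N : ℝ) ^ (1 / 100 : ℝ) * Real.sqrt x0 + 8 * x0 * l * s := by
    have h1 : c2 * Q * L / l ≤ c2 * Q * L / Real.log q := by
      have hL0 : 0 ≤ L := le_trans (by positivity) hL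
      exact div_le_div_of_nonneg_left (by positivity) hlq0 hlq
    have h2 : 8 * (x0 : ℝ) * l * Sp χ x0 ≤ 8 * x0 * l * s :=
      mul_le_mul_of_nonneg_left hSx0 (by positivity)
    linarith
  have hN225 : (N : ℝ) ^ (1 / 8 : ℝ) ≤ Real.sqrt Q * (N : ℝ) ^ (-(1 / 10) : ℝ) := by
    have h1 : (N : ℝ) ^ (1 / 8 : ℝ) = (N : ℝ) ^ (9 / 40 : ℝ) * (N : ℝ) ^ (-(1 / 10) : ℝ) := by
      rw [← Real.rpow_add hN0]; norm_num
    rw [h1]
    exact mul_le_mul_of_nonneg_right hsQlow (by positivity)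
  have hstep1 : L ≤ 16 / c2 * l ^ 4 * s :=
    cmpb_step1 c1 c2 Q L s l x0 ((N : ℝ) ^ (1 / 100 : ℝ)) ((N : ℝ) ^ (1 / 8 : ℝ))
      ((N : ℝ) ^ (-(1 / 10) : ℝ)) hc1 hc2 hl1 hQ1 hx0le' hNd1 hs0 hLe0 hN225 hb2
      hmain
  -- lower bounds for s
  have hslow : ∀ t : ℝ, c1 * t ≤ L → c1 * c2 / 16 * t ≤ l ^ 4 * s := by
    intro t ht
    have h1 : c1 * t ≤ 16 / c2 * (l ^ 4 * s) := by
      calc c1 * t ≤ L := ht
        _ ≤ 16 / c2 * l ^ 4 * s := hstep1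
        _ = 16 / c2 * (l ^ 4 * s) := by ring
    have h2 := mul_le_mul_of_nonneg_left h1 (show 0 ≤ c2 / 16 by positivity)
    have h3 : c2 / 16 * (16 / c2 * (l ^ 4 * s)) = l ^ 4 * s := by field_simp
    rw [h3] at h2
    linarith
  have hsε : (N : ℝ) ^ (-ε) ≤ s := by
    have h1 := hslow _ hL
    have h2 : 16 / (c1 * c2) * (N : ℝ) ^ (-ε) * l ^ 4 ≤ (N : ℝ) ^ (-e0) := hbe
    have h3 := mul_le_mul_of_nonneg_left h2 (show 0 ≤ c1 * c2 / 16 by positivity)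
    have h4 : c1 * c2 / 16 * (16 / (c1 * c2) * (N : ℝ) ^ (-ε) * l ^ 4)
        = l ^ 4 * (N : ℝ) ^ (-ε) := by field_simp
    rw [h4] at h3
    exact le_of_mul_le_mul_left (le_trans h3 h1) (by positivity)
  have hbig2 : 2 * l * (N : ℝ) ^ (1 / 100 : ℝ) ≤ s * Real.sqrt Q := by
    have h1 := hslow _ hLe0
    have h2 : 32 / (c1 * c2) * (N : ℝ) ^ (1 / 100 : ℝ) * l ^ 5 ≤ (N : ℝ) ^ (1 / 8 : ℝ) := hb5
    have h3 : c1 * c2 / 16 * (32 / (c1 * c2) * (N : ℝ) ^ (1 / 100 : ℝ) * l ^ 5) ≤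
        c1 * c2 / 16 * (Real.sqrt Q * (N : ℝ) ^ (-(1 / 10) : ℝ)) :=
      mul_le_mul_of_nonneg_left (le_trans h2 hN225) (by positivity)
    have h4 : c1 * c2 / 16 * (32 / (c1 * c2) * (N : ℝ) ^ (1 / 100 : ℝ) * l ^ 5)
        = l ^ 4 * (2 * l * (N : ℝ) ^ (1 / 100 : ℝ)) := by field_simp; ring
    have h5 : c1 * c2 / 16 * (Real.sqrt Q * (N : ℝ) ^ (-(1 / 10) : ℝ)) ≤
        l ^ 4 * (s * Real.sqrt Q) := by
      have := mul_le_mul_of_nonneg_left h1 (show 0 ≤ Real.sqrt Q by positivity)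
      linarith
    rw [h4] at h3
    exact le_of_mul_le_mul_left (le_trans h3 h5) (by positivity)
  refine ⟨y, hy1, hyle, hsε, ?_⟩
  -- step 2
  have hB : ∀ Y : ℕ, y ≤ Y → Y < N → ∑ n ∈ Icc 1 (2 * Y), rr χ.primitiveCharacter n ≤
      C * (18 + 32 / c2 * l ^ 4) * s * Y := by
    intro Y hyY hYN
    have hyY' : (y : ℝ) ≤ Y := by exact_mod_cast hyY
    have hYN' : (Y : ℝ) < N := by exact_mod_cast hYN
    have hY0 : (0 : ℝ) < Y := by linarith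
    have h2Y : ((2 * Y : ℕ) : ℝ) = 2 * Y := by push_cast; ring
    have hu1 : Real.sqrt q ≤ ((2 * Y : ℕ) : ℝ) := by
      rw [h2Y]; linarith
    have hu2 : ((2 * Y : ℕ) : ℝ) ≤ (q : ℝ) ^ 2 := by
      rw [h2Y]
      have h1 : (N : ℝ) ^ (1 / 8 : ℝ) * N ≤ (q : ℝ) ^ 2 := by
        have h2 : (N : ℝ) ^ (9 / 5 : ℝ) ≤ (q : ℝ) ^ 2 := by
          have h3 : (N : ℝ) ^ (9 / 5 : ℝ) = ((N : ℝ) ^ (9 / 10 : ℝ)) ^ 2 := by
            rw [← Real.rpow_natCast, ← Real.rpow_mul hN0.le]; norm_num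
          rw [h3]
          exact pow_le_pow_left₀ (by positivity) hcond.le 2
        have h4 : (N : ℝ) ^ (1 / 8 : ℝ) * N ≤ (N : ℝ) ^ (9 / 5 : ℝ) := by
          calc (N : ℝ) ^ (1 / 8 : ℝ) * N = (N : ℝ) ^ (1 / 8 : ℝ) * (N : ℝ) ^ (1 : ℝ) := by
                rw [Real.rpow_one]
            _ = (N : ℝ) ^ (1 / 8 + 1 : ℝ) := (Real.rpow_add hN0 _ _).symm
            _ ≤ (N : ℝ) ^ (9 / 5 : ℝ) := Real.rpow_le_rpow_of_exponent_le hN1 (by norm_num)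
        linarith
      have h8' : (2 : ℝ) ≤ (N : ℝ) ^ (1 / 8 : ℝ) := by
        have := h8
        rwa [Real.rpow_zero, pow_zero, mul_one, mul_one] at this
      calc 2 * (Y : ℝ) ≤ 2 * N := mul_le_mul_of_nonneg_left hYN'.le (by norm_num)
        _ ≤ (N : ℝ) ^ (1 / 8 : ℝ) * N := mul_le_mul_of_nonneg_right h8' hN0.le
        _ ≤ (q : ℝ) ^ 2 := h1
    have hup1 := hup q ‹_› χ.primitiveCharacter hprim hχ' hreal' (2 * Y) hu1 hu2
    rw [h2Y] at hup1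
    set z : ℕ := ⌊(q : ℝ) / (2 * Y) * Real.log q ^ 2⌋₊ with hz
    have hzle : (z : ℝ) ≤ (q : ℝ) / (2 * Y) * Real.log q ^ 2 := Nat.floor_le (by positivity)
    have hzQ : (z : ℝ) * l ^ 10 ≤ Q := by
      have h1 : (z : ℝ) ≤ Q * Q / (2 * Y) * l ^ 2 := by
        refine le_trans hzle ?_
        rw [hQ2]
        exact mul_le_mul_of_nonneg_left (pow_le_pow_left₀ hlq0.le hlq 2) (by positivity)
      have h2 : (z : ℝ) * l ^ 10 ≤ Q * Q / (2 * Y) * l ^ 12 := by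
        calc (z : ℝ) * l ^ 10 ≤ (Q * Q / (2 * Y) * l ^ 2) * l ^ 10 :=
              mul_le_mul_of_nonneg_right h1 (by positivity)
          _ = Q * Q / (2 * Y) * l ^ 12 := by ring
      refine le_trans h2 ?_
      rw [div_mul_eq_mul_div, div_le_iff₀ (by positivity)]
      have h3 : Q * l ^ 12 ≤ 2 * Y := by
        calc Q * l ^ 12 ≤ s2 * l ^ 12 := mul_le_mul_of_nonneg_right hQs (by positivity)
          _ ≤ 2 * y := hy2
          _ ≤ 2 * Y := by linarith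
      calc Q * Q * l ^ 12 = Q * (Q * l ^ 12) := by ring
        _ ≤ Q * (2 * Y) := mul_le_mul_of_nonneg_left h3 (by linarith)
    have hzy : z ≤ y := by
      have h1 : (z : ℝ) ≤ y := by
        have h2 : (1 : ℝ) ≤ l ^ 10 := one_le_pow₀ hl1
        have h3 : (z : ℝ) ≤ z * l ^ 10 := le_mul_of_one_le_right (Nat.cast_nonneg z) h2
        linarith
      exact_mod_cast h1
    have hRz0 : 0 ≤ ∑ n ∈ Icc 1 z, rr χ.primitiveCharacter n :=
      Finset.sum_nonneg fun n _ => (rr_nonneg χ.primitiveCharacter hreal' n).1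
    have hRz : ∑ n ∈ Icc 1 z, rr χ.primitiveCharacter n ≤
        (N : ℝ) ^ (1 / 100 : ℝ) * Real.sqrt z + 8 * z * l * s := by
      rcases Nat.eq_zero_or_pos z with hz0 | hz0
      · rw [hz0]
        simp
      · refine le_trans (hr hNZ χ hreal hχ z hz0 (le_trans hzy hyN)) ?_
        have h1 : Sp χ z ≤ s := cmpb_Sp_mono χ hzy
        have h2 : 8 * (z : ℝ) * l * Sp χ z ≤ 8 * z * l * s :=
          mul_le_mul_of_nonneg_left h1 (by positivity)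
        linarith
    have hYQ : Real.sqrt Q ≤ Y := by
      have h1 : Real.sqrt Q ≤ Q := by
        rw [Real.sqrt_le_left (by linarith), sq]
        exact le_mul_of_one_le_right (by linarith) hQ1
      linarith
    exact cmpb_step2 C c2 Q L s l z ((N : ℝ) ^ (1 / 100 : ℝ)) Y _ _ (Real.log q) hC hl1 hlq
      hRz0 hQ1 (by positivity) hzQ hNd1 hs0 hY0 hYQ hstep1 hbig2 hRz hup1
  have hB0 : 0 ≤ C * (18 + 32 / c2 * l ^ 4) * s := by positivity
  have htail := Sp_tail N χ hreal hχ y hy1 _ hB0 hB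
  have hlog2 : ((Nat.log 2 N : ℕ) : ℝ) ≤ 2 * l := by
    have h1 : ((Nat.log 2 N : ℕ) : ℝ) ≤ Real.logb 2 N := by
      have := Real.natLog_le_logb N 2
      simpa using this
    have h2 : Real.logb 2 N = l / Real.log 2 := by
      rw [Real.logb, hl]
    have h3 : (1 / 2 : ℝ) < Real.log 2 := by
      have := Real.log_two_gt_d9
      linarith
    rw [h2] at h1
    refine le_trans h1 ?_
    rw [div_le_iff₀ (by linarith)]
    calc l = 2 * l * (1 / 2) := by ring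
      _ ≤ 2 * l * Real.log 2 := mul_le_mul_of_nonneg_left h3.le (by positivity)
  have hfin : ((Nat.log 2 N : ℕ) : ℝ) + 1 ≤ 3 * l := by linarith
  set D : ℝ := 18 + 32 / c2 with hD
  have hD0 : 0 < D := by positivity
  have hDl : 18 + 32 / c2 * l ^ 4 ≤ D * l ^ 4 := by
    have : (1 : ℝ) ≤ l ^ 4 := one_le_pow₀ hl1
    rw [hD, add_mul]
    linarith
  have h1 : (((Nat.log 2 N : ℕ) : ℝ) + 1) * (C * (18 + 32 / c2 * l ^ 4) * s) ≤
      (3 * l) * (C * (D * l ^ 4) * s) := by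
    have a1 : C * (18 + 32 / c2 * l ^ 4) * s ≤ C * (D * l ^ 4) * s :=
      mul_le_mul_of_nonneg_right (mul_le_mul_of_nonneg_left hDl hC.le) hs0
    exact mul_le_mul hfin a1 (by positivity) (by positivity)
  calc Sp χ N ≤ s + (((Nat.log 2 N : ℕ) : ℝ) + 1) * (C * (18 + 32 / c2 * l ^ 4) * s) := htail
    _ ≤ s + (3 * l) * (C * (D * l ^ 4) * s) := by linarith
    _ = (1 + 3 * C * D * l ^ 5) * s := by ring
    _ ≤ l ^ 6 * s := by
      refine mul_le_mul_of_nonneg_right ?_ hs0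
      have a1 : (1 : ℝ) ≤ l ^ 5 := one_le_pow₀ hl1
      calc 1 + 3 * C * D * l ^ 5 ≤ (1 + 3 * C * D) * l ^ 5 := by
            rw [add_mul]
            linarith
        _ ≤ l * l ^ 5 := mul_le_mul_of_nonneg_right hK (by positivity)
        _ = l ^ 6 := by ring

end Pool.Agent.GLI
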