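import Pool.Agent.GLI.CmpPrim
import Pool.Agent.GLI.Ev

set_option autoImplicit false

/-!
Module CmpTail. `Sp_tail`: `rr χ* p = 2` for the split primes; dyadic blocks `(2^j y, 2^(j+1) y]`, `2^j y < N` (at most
`Nat.log 2 N + 1` of them): in each block `∑ 1/p ≤ (2^j y)^{-1} (1/2) ∑_{n ≤ 2^(j+1) y} rr χ* n ≤ B/2`.
`pigeon`: the windows `(2^i, 2^(i+1)]`, `2^i < y`, contain all primes `≤ y`; take the one with
the largest `∑ 1/p`, `P = 2^(i+1) ≤ 2 y`; there `1/p ≤ 2/P`.
-/

open Finset Filter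

namespace Pool.Agent.GLI

theorem mem_split {N : ℕ} {χ : DirichletCharacter ℂ N} {x p : ℕ} :
    p ∈ split χ x ↔ 1 ≤ p ∧ p ≤ x ∧ p.Prime ∧ χ (p : ZMod N) = 1 := by
  unfold split
  rw [mem_filter, mem_Icc]
  tauto

theorem split_mono {N : ℕ} (χ : DirichletCharacter ℂ N) {x y : ℕ} (h : x ≤ y) :
    split χ x ⊆ split χ y := by
  intro p hp
  rw [mem_split] at hp ⊢
  exact ⟨hp.1, hp.2.1.trans h, hp.2.2⟩

theorem Sp_mono {N : ℕ} (χ : DirichletCharacter ℂ N) {x y : ℕ} (h : x ≤ y) : Sp χ x ≤ Sp χ y := by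
  unfold Sp
  exact sum_le_sum_of_subset_of_nonneg (split_mono χ h) fun i _ _ => by positivity

theorem rr_split {q : ℕ} (χ : DirichletCharacter ℂ q) {p : ℕ} (hp : p.Prime)
    (h : χ (p : ZMod q) = 1) : rr χ p = 2 := by
  unfold rr
  rw [Nat.Prime.sum_divisors hp, h]
  simp
  norm_num

/-- One doubling step. -/
theorem Sp_double (N : ℕ) [NeZero N] (χ : DirichletCharacter ℂ N) (h : RealChar χ) (hχ : χ ≠ 1)
    (Y : ℕ) (hY : 1 ≤ Y) (B : ℝ)
    (hB : ∑ n ∈ Icc 1 (2 * Y), rr χ.primitiveCharacter n ≤ B * Y) :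
    Sp χ (2 * Y) ≤ Sp χ Y + B := by
  classical
  obtain ⟨h1, _, h3, _, h5⟩ := prim_real N χ h hχ
  have hY0 : (0 : ℝ) < Y := by exact_mod_cast hY
  have hsub : split χ Y ⊆ split χ (2 * Y) := split_mono χ (by omega)
  have hsplit : Sp χ (2 * Y) = Sp χ Y + ∑ p ∈ split χ (2 * Y) \ split χ Y, (1 : ℝ) / p := by
    unfold Sp
    rw [add_comm, sum_sdiff hsub]
  rw [hsplit]
  have hbd : ∑ p ∈ split χ (2 * Y) \ split χ Y, (1 : ℝ) / p ≤
      ∑ p ∈ split χ (2 * Y) \ split χ Y, rr χ.primitiveCharacter p / Y := by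
    refine sum_le_sum fun p hp => ?_
    rw [Finset.mem_sdiff, mem_split, mem_split] at hp
    obtain ⟨⟨ha, hb, hc, hd⟩, he⟩ := hp
    have hYp : Y < p := by
      by_contra hcon
      exact he ⟨ha, by omega, hc, hd⟩
    have hcop : p.Coprime N := by
      rw [Nat.Prime.coprime_iff_not_dvd hc]
      intro hdvd
      have hz : ¬ IsUnit ((p : ℕ) : ZMod N) := by
        rw [ZMod.isUnit_iff_coprime]
        intro hco
        have := (Nat.Prime.coprime_iff_not_dvd hc).mp hco
        exact this hdvd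
      have := MulChar.map_nonunit χ hz
      rw [this] at hd
      exact zero_ne_one hd
    rw [h5 p hcop] at hd
    rw [rr_split _ hc hd]
    have hp0 : (0 : ℝ) < p := by
      have : 0 < p := by omega
      exact_mod_cast this
    have hYp' : (Y : ℝ) ≤ p := by exact_mod_cast hYp.le
    calc (1 : ℝ) / p ≤ 1 / Y := one_div_le_one_div_of_le hY0 hYp'
      _ ≤ 2 / Y := by
        apply div_le_div_of_nonneg_right _ hY0.le
        norm_num
  have hbd2 : ∑ p ∈ split χ (2 * Y) \ split χ Y, rr χ.primitiveCharacter p / Y ≤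
      ∑ n ∈ Icc 1 (2 * Y), rr χ.primitiveCharacter n / Y := by
    apply sum_le_sum_of_subset_of_nonneg
    · intro p hp
      rw [Finset.mem_sdiff, mem_split] at hp
      rw [mem_Icc]
      exact ⟨hp.1.1, hp.1.2.1⟩
    · intro n _ _
      exact div_nonneg (rr_nonneg _ h1 n).1 hY0.le
  have hbd3 : ∑ n ∈ Icc 1 (2 * Y), rr χ.primitiveCharacter n / Y ≤ B := by
    rw [← sum_div, div_le_iff₀ hY0]
    exact hB
  linarith

/-- `Sp χ N ≤ Sp χ y + ∑_j R(2^(j+1) y)/(2^j y)`, all `j` with `2^j y < N`. -/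
theorem Sp_tail (N : ℕ) [NeZero N] (χ : DirichletCharacter ℂ N) (h : RealChar χ) (hχ : χ ≠ 1)
    (y : ℕ) (hy : 1 ≤ y) (B : ℝ) (hB0 : 0 ≤ B)
    (hB : ∀ Y : ℕ, y ≤ Y → Y < N → ∑ n ∈ Icc 1 (2 * Y), rr χ.primitiveCharacter n ≤ B * Y) :
    Sp χ N ≤ Sp χ y + (Nat.log 2 N + 1) * B := by
  have key : ∀ j : ℕ, Sp χ N ≤ Sp χ y + j * B ∨ Sp χ (2 ^ j * y) ≤ Sp χ y + j * B := by
    intro j
    induction j with
    | zero => right; simp
    | succ j ih =>
      rcases ih with ih | ih
      · left
        push_cast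
        nlinarith
      · by_cases hlt : 2 ^ j * y < N
        · right
          have h1 : y ≤ 2 ^ j * y := Nat.le_mul_of_pos_left y (by positivity)
          have h2 := Sp_double N χ h hχ (2 ^ j * y) (by omega) B (hB _ h1 hlt)
          have h3 : 2 * (2 ^ j * y) = 2 ^ (j + 1) * y := by ring
          rw [h3] at h2
          push_cast
          linarith
        · left
          have h2 := Sp_mono χ (not_lt.mp hlt)
          push_cast
          nlinarith
  have hfin := key (Nat.log 2 N + 1)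
  have hlog : N < 2 ^ (Nat.log 2 N + 1) := Nat.lt_pow_succ_log_self (by norm_num) N
  rcases hfin with h1 | h1
  · push_cast at h1
    exact h1
  · refine (Sp_mono χ ?_).trans (by push_cast at h1; exact h1)
    exact hlog.le.trans (Nat.le_mul_of_pos_right _ hy)

open Classical in
theorem pigeon (N : ℕ) (hN : 2 ≤ N) (χ : DirichletCharacter ℂ N) (y : ℕ) (hy : 1 ≤ y)
    (hyN : y ≤ N) : ∃ P : ℕ, 2 ≤ P ∧ P ≤ 2 * y ∧
    Sp χ y * P / (2 * (Nat.log 2 N + 1)) ≤ ((split χ P).filter fun p => P < 2 * p).card := by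
  by_contra! H
  have hL : (0 : ℝ) < (Nat.log 2 N : ℝ) + 1 := by positivity
  have hS : 0 < Sp χ y := by
    have h2 := H 2 le_rfl (by omega)
    have h3 : (0 : ℝ) ≤ ((split χ 2).filter fun p => 2 < 2 * p).card := Nat.cast_nonneg _
    have h4 := lt_of_le_of_lt h3 h2
    by_contra hcon
    have h5 : Sp χ y ≤ 0 := not_lt.mp hcon
    have h6 : Sp χ y * (2 : ℕ) / (2 * ((Nat.log 2 N : ℝ) + 1)) ≤ 0 := by
      apply div_nonpos_of_nonpos_of_nonneg
      · push_cast
        linarith
      · positivity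
    linarith
  have hmaps : ∀ p ∈ split χ y, Nat.log 2 (p - 1) ∈ range (Nat.log 2 N + 1) := by
    intro p hp
    rw [mem_split] at hp
    rw [mem_range]
    have : Nat.log 2 (p - 1) ≤ Nat.log 2 N := Nat.log_mono_right (by omega)
    omega
  have hfib : Sp χ y = ∑ i ∈ range (Nat.log 2 N + 1),
      ∑ p ∈ (split χ y).filter (fun p => Nat.log 2 (p - 1) = i), (1 : ℝ) / p := by
    unfold Sp
    exact (sum_fiberwise_of_maps_to hmaps _).symm
  have hlt : ∑ i ∈ range (Nat.log 2 N + 1),
      ∑ p ∈ (split χ y).filter (fun p => Nat.log 2 (p - 1) = i), (1 : ℝ) / p <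
      ∑ _i ∈ range (Nat.log 2 N + 1), Sp χ y / ((Nat.log 2 N : ℝ) + 1) := by
    apply sum_lt_sum_of_nonempty
    · exact ⟨0, by simp⟩
    · intro i _
      rcases ((split χ y).filter (fun p => Nat.log 2 (p - 1) = i)).eq_empty_or_nonempty with he | he
      · rw [he, sum_empty]
        positivity
      · obtain ⟨p0, hp0⟩ := he
        rw [mem_filter, mem_split] at hp0
        have hwin : ∀ p : ℕ, p.Prime → Nat.log 2 (p - 1) = i → 2 ^ i < p ∧ p ≤ 2 ^ (i + 1) := by
          intro p hp hi
          have h2 := hp.two_le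
          have ha : 2 ^ i ≤ p - 1 := by
            rw [← hi]
            exact Nat.pow_log_le_self 2 (by omega)
          have hb : p - 1 < 2 ^ (i + 1) := by
            rw [← hi]
            exact Nat.lt_pow_succ_log_self (by norm_num) _
          omega
        have hw0 := hwin p0 hp0.1.2.2.1 hp0.2
        have hP2 : 2 ^ (i + 1) = 2 * 2 ^ i := by ring
        have hPy : 2 ^ (i + 1) ≤ 2 * y := by
          rw [hP2]
          have := hp0.1.2.1
          omega
        have hP1 : 2 ≤ 2 ^ (i + 1) := by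
          rw [hP2]
          have : 1 ≤ 2 ^ i := Nat.one_le_two_pow
          omega
        have hH := H (2 ^ (i + 1)) hP1 hPy
        have hP0 : (0 : ℝ) < ((2 ^ (i + 1) : ℕ) : ℝ) := by positivity
        have hsub : (split χ y).filter (fun p => Nat.log 2 (p - 1) = i) ⊆
            (split χ (2 ^ (i + 1))).filter fun p => 2 ^ (i + 1) < 2 * p := by
          intro p hp
          rw [mem_filter, mem_split] at hp
          obtain ⟨hw1, hw2⟩ := hwin p hp.1.2.2.1 hp.2
          rw [mem_filter, mem_split]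
          refine ⟨⟨hp.1.1, hw2, hp.1.2.2⟩, ?_⟩
          rw [hP2]
          omega
        have hbound : ∑ p ∈ (split χ y).filter (fun p => Nat.log 2 (p - 1) = i), (1 : ℝ) / p ≤
            ((split χ (2 ^ (i + 1))).filter fun p => 2 ^ (i + 1) < 2 * p).card *
              (2 / ((2 ^ (i + 1) : ℕ) : ℝ)) := by
          calc ∑ p ∈ (split χ y).filter (fun p => Nat.log 2 (p - 1) = i), (1 : ℝ) / p
              ≤ ∑ _p ∈ (split χ y).filter (fun p => Nat.log 2 (p - 1) = i),
                (2 / ((2 ^ (i + 1) : ℕ) : ℝ)) := by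
                refine sum_le_sum fun p hp => ?_
                have hm := hsub hp
                rw [mem_filter, mem_split] at hm
                have hp00 : (0 : ℝ) < p := by
                  have : 0 < p := by omega
                  exact_mod_cast this
                rw [div_le_div_iff₀ hp00 hP0]
                have : 2 ^ (i + 1) ≤ 2 * p := hm.2.le
                have h' : ((2 ^ (i + 1) : ℕ) : ℝ) ≤ ((2 * p : ℕ) : ℝ) := by exact_mod_cast this
                push_cast at h' ⊢
                linarith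
            _ = ((split χ y).filter (fun p => Nat.log 2 (p - 1) = i)).card *
                (2 / ((2 ^ (i + 1) : ℕ) : ℝ)) := by rw [sum_const, nsmul_eq_mul]
            _ ≤ _ := by
                apply mul_le_mul_of_nonneg_right _ (by positivity)
                exact_mod_cast card_le_card hsub
        refine lt_of_le_of_lt hbound ?_
        have hmul := mul_lt_mul_of_pos_right hH (show (0 : ℝ) < 2 / ((2 ^ (i + 1) : ℕ) : ℝ) by positivity)
        refine lt_of_lt_of_eq hmul ?_
        field_simp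
  rw [← hfib, sum_const, card_range, nsmul_eq_mul] at hlt
  push_cast at hlt
  rw [mul_div_cancel₀ _ hL.ne'] at hlt
  exact lt_irrefl _ hlt


end Pool.Agent.GLI
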