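import Pool.Agent.GLI.LOne
import Pool.Agent.GLI.Ev

set_option autoImplicit false

/-!
Module RAsymp (hyperbola method). `∑_{n ≤ y} ∑_{d ∣ n} χ(d) = ∑_{d ≤ E} χ(d) #{m ≤ y/d} + ∑_{m ≤ y/E} ∑_{E < d ≤ y/m} χ(d)`,
`E = √y q^(1/4)` if `y ≥ √q` (otherwise both terms are trivially `≤ y (1 + log y)`, `≤ √y q^(1/4) (..)`).
`r_prim`: `χ` primitive mod `q`, uniform (pv_prim). `r_cop`: `χ` mod `N`, `n` prime to `N`, `#{m ≤ z, (m,N)=1}` by cop_count, pv.
-/

open Finset Filter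

namespace Pool.Agent.GLI

/-- Double counting of the pairs `d * m ≤ y`. -/
theorem ra_double (F : ℕ → ℕ → ℝ) (y : ℕ) :
    ∑ n ∈ Icc 1 y, ∑ d ∈ n.divisors, F d (n / d) = ∑ d ∈ Icc 1 y, ∑ m ∈ Icc 1 (y / d), F d m := by
  rw [Finset.sum_sigma', Finset.sum_sigma']
  refine Finset.sum_bij' (fun p _ => (⟨p.2, p.1 / p.2⟩ : (_ : ℕ) × ℕ))
    (fun p _ => (⟨p.1 * p.2, p.1⟩ : (_ : ℕ) × ℕ)) ?_ ?_ ?_ ?_ ?_
  · rintro ⟨n, d⟩ h
    simp only [Finset.mem_sigma, Finset.mem_Icc, Nat.mem_divisors] at h ⊢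
    obtain ⟨⟨h1, h2⟩, hd, hn⟩ := h
    have hd0 : 0 < d := Nat.pos_of_dvd_of_pos hd (by omega)
    have hdn : d ≤ n := Nat.le_of_dvd (by omega) hd
    refine ⟨⟨hd0, by omega⟩, ?_, Nat.div_le_div_right h2⟩
    exact (Nat.one_le_div_iff hd0).mpr hdn
  · rintro ⟨d, m⟩ h
    simp only [Finset.mem_sigma, Finset.mem_Icc, Nat.mem_divisors] at h ⊢
    obtain ⟨⟨h1, h2⟩, h3, h4⟩ := h
    have h5 : d * m ≤ y := by
      have := (Nat.le_div_iff_mul_le (by omega : 0 < d)).mp h4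
      rw [mul_comm]
      exact this
    have h6 : 0 < d * m := Nat.mul_pos (by omega) (by omega)
    exact ⟨⟨h6, h5⟩, dvd_mul_right d m, by omega⟩
  · rintro ⟨n, d⟩ h
    simp only [Finset.mem_sigma, Finset.mem_Icc, Nat.mem_divisors] at h
    obtain ⟨⟨h1, h2⟩, hd, hn⟩ := h
    simp only [Nat.mul_div_cancel' hd]
  · rintro ⟨d, m⟩ h
    simp only [Finset.mem_sigma, Finset.mem_Icc] at h
    obtain ⟨⟨h1, h2⟩, h3, h4⟩ := h
    simp only [Nat.mul_div_cancel_left m (by omega : 0 < d)]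
  · rintro ⟨n, d⟩ h
    rfl

theorem ra_core (a w : ℕ → ℝ) (ha : ∀ n, |a n| ≤ 1) (hw : ∀ n, 0 ≤ w n ∧ w n ≤ 1) (B E ρ L : ℝ)
    (hB : ∀ x : ℕ, |∑ d ∈ Icc 1 x, a d| ≤ B) (hE : ∀ z : ℕ, |∑ m ∈ Icc 1 z, w m - ρ * z| ≤ E)
    (hρ0 : 0 ≤ ρ) (hρ1 : ρ ≤ 1) (y D : ℕ)
    (hL : |∑ d ∈ Icc 1 D, a d / d - L| ≤ 2 * B / (D + 1))
    (hD : 1 ≤ D) (hDy : D ≤ y) :
    |∑ d ∈ Icc 1 y, ∑ m ∈ Icc 1 (y / d), a d * w m - ρ * y * L| ≤ 4 * B * y / D + D * (E + 1) := by
  have hB0 : 0 ≤ B := le_trans (abs_nonneg _) (hB 0)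
  have hD0 : (0 : ℝ) < D := by
    have : 0 < D := hD
    exact_mod_cast this
  have hy0 : (0 : ℝ) ≤ y := Nat.cast_nonneg _
  have hsplit : ∑ d ∈ Icc 1 y, ∑ m ∈ Icc 1 (y / d), a d * w m =
      ∑ d ∈ Icc 1 D, ∑ m ∈ Icc 1 (y / d), a d * w m +
      ∑ d ∈ Ioc D y, ∑ m ∈ Icc 1 (y / d), a d * w m := by
    have hu : Icc 1 y = Icc 1 D ∪ Ioc D y := by
      ext n
      simp only [Finset.mem_union, Finset.mem_Icc, Finset.mem_Ioc]
      omega
    rw [hu, Finset.sum_union]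
    rw [Finset.disjoint_left]
    intro n h1 h2
    simp only [Finset.mem_Icc, Finset.mem_Ioc] at h1 h2
    omega
  -- first part
  have h1 : |∑ d ∈ Icc 1 D, ∑ m ∈ Icc 1 (y / d), a d * w m - ρ * y * ∑ d ∈ Icc 1 D, a d / d| ≤
      D * (E + 1) := by
    rw [Finset.mul_sum, ← Finset.sum_sub_distrib]
    refine le_trans (Finset.abs_sum_le_sum_abs _ _) ?_
    have : ∀ d ∈ Icc 1 D, |∑ m ∈ Icc 1 (y / d), a d * w m - ρ * y * (a d / d)| ≤ E + 1 := by
      intro d hd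
      rw [Finset.mem_Icc] at hd
      have hd0 : (0 : ℝ) < d := by
        have : 0 < d := hd.1
        exact_mod_cast this
      rw [← Finset.mul_sum]
      have e1 : a d * ∑ m ∈ Icc 1 (y / d), w m - ρ * y * (a d / d) =
          a d * ((∑ m ∈ Icc 1 (y / d), w m - ρ * ((y / d : ℕ) : ℝ)) + ρ * (((y / d : ℕ) : ℝ) - y / d)) := by
        field_simp
        ring
      rw [e1, abs_mul]
      have e2 : |((y / d : ℕ) : ℝ) - y / d| ≤ 1 := by
        have u1 : ((y / d : ℕ) : ℝ) ≤ (y : ℝ) / d := Nat.cast_div_le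
        have u2 : (y : ℝ) / d < ((y / d : ℕ) : ℝ) + 1 := by
          rw [div_lt_iff₀ hd0]
          have : y < (y / d + 1) * d := by
            have := Nat.lt_mul_div_succ y (show 0 < d from hd.1)
            nlinarith [this]
          exact_mod_cast this
        rw [abs_le]
        constructor <;> linarith
      have e3 : |(∑ m ∈ Icc 1 (y / d), w m - ρ * ((y / d : ℕ) : ℝ)) + ρ * (((y / d : ℕ) : ℝ) - y / d)| ≤ E + 1 := by
        refine le_trans (abs_add_le _ _) ?_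
        refine add_le_add (hE _) ?_
        rw [abs_mul, abs_of_nonneg hρ0]
        nlinarith [abs_nonneg (((y / d : ℕ) : ℝ) - y / d)]
      calc |a d| * _ ≤ 1 * (E + 1) := mul_le_mul (ha d) e3 (abs_nonneg _) zero_le_one
        _ = E + 1 := one_mul _
    refine le_trans (Finset.sum_le_sum this) ?_
    rw [Finset.sum_const, Nat.card_Icc, nsmul_eq_mul]
    simp
  -- tail of L
  have h2 : |ρ * y * ∑ d ∈ Icc 1 D, a d / d - ρ * y * L| ≤ 2 * B * y / D := by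
    rw [← mul_sub, abs_mul, abs_of_nonneg (mul_nonneg hρ0 hy0)]
    have e1 : 2 * B / ((D : ℝ) + 1) ≤ 2 * B / D :=
      div_le_div_of_nonneg_left (by linarith) hD0 (by linarith)
    have e2 : ρ * y ≤ 1 * y := mul_le_mul_of_nonneg_right hρ1 hy0
    calc ρ * y * |∑ d ∈ Icc 1 D, a d / d - L| ≤ (1 * y) * (2 * B / D) :=
          mul_le_mul e2 (le_trans hL e1) (abs_nonneg _) (by linarith)
      _ = 2 * B * y / D := by ring
  -- second part
  have h3 : |∑ d ∈ Ioc D y, ∑ m ∈ Icc 1 (y / d), a d * w m| ≤ 2 * B * y / D := by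
    have hsw : ∑ d ∈ Ioc D y, ∑ m ∈ Icc 1 (y / d), a d * w m =
        ∑ m ∈ Icc 1 (y / D), ∑ d ∈ Ioc D (y / m), a d * w m := by
      apply Finset.sum_comm'
      intro d m
      simp only [Finset.mem_Icc, Finset.mem_Ioc]
      constructor
      · rintro ⟨⟨u1, u2⟩, u3, u4⟩
        have u5 := (Nat.le_div_iff_mul_le (by omega : 0 < d)).mp u4
        refine ⟨⟨u1, ?_⟩, u3, ?_⟩
        · rw [Nat.le_div_iff_mul_le (by omega), mul_comm]
          exact u5
        · exact le_trans u4 (Nat.div_le_div_left (by omega) hD)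
      · rintro ⟨⟨u1, u2⟩, u3, u4⟩
        have u5 := (Nat.le_div_iff_mul_le (by omega : 0 < m)).mp u2
        refine ⟨⟨u1, ?_⟩, u3, ?_⟩
        · nlinarith
        · rw [Nat.le_div_iff_mul_le (by omega), mul_comm]
          exact u5
    rw [hsw]
    refine le_trans (Finset.abs_sum_le_sum_abs _ _) ?_
    have : ∀ m ∈ Icc 1 (y / D), |∑ d ∈ Ioc D (y / m), a d * w m| ≤ 2 * B := by
      intro m _
      rw [← Finset.sum_mul, abs_mul, abs_of_nonneg (hw m).1]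
      have e1 : |∑ d ∈ Ioc D (y / m), a d| ≤ 2 * B := by
        by_cases hc : D ≤ y / m
        · have e2 : ∑ d ∈ Ioc D (y / m), a d = ∑ d ∈ Icc 1 (y / m), a d - ∑ d ∈ Icc 1 D, a d := by
            have hu : Icc 1 (y / m) = Icc 1 D ∪ Ioc D (y / m) := by
              ext n
              simp only [Finset.mem_union, Finset.mem_Icc, Finset.mem_Ioc]
              omega
            rw [hu, Finset.sum_union, add_sub_cancel_left]
            rw [Finset.disjoint_left]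
            intro n h1 h2
            simp only [Finset.mem_Icc, Finset.mem_Ioc] at h1 h2
            omega
          rw [e2]
          have e3 := hB (y / m)
          have e4 := hB D
          rw [abs_le] at e3 e4 ⊢
          constructor <;> linarith [e3.1, e3.2, e4.1, e4.2]
        · rw [Finset.Ioc_eq_empty (by omega)]
          simp
          linarith
      have e5 := (hw m).2
      have e6 := (hw m).1
      have e7 := abs_nonneg (∑ d ∈ Ioc D (y / m), a d)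
      nlinarith
    refine le_trans (Finset.sum_le_sum this) ?_
    rw [Finset.sum_const, Nat.card_Icc, nsmul_eq_mul]
    have e1 : ((y / D : ℕ) : ℝ) ≤ (y : ℝ) / D := Nat.cast_div_le
    have e2 : ((y / D + 1 - 1 : ℕ) : ℝ) = ((y / D : ℕ) : ℝ) := by
      congr 1
    rw [e2]
    calc ((y / D : ℕ) : ℝ) * (2 * B) ≤ (y : ℝ) / D * (2 * B) :=
          mul_le_mul_of_nonneg_right e1 (by linarith)
      _ = 2 * B * y / D := by ring
  rw [hsplit]
  have e0 : ∑ d ∈ Icc 1 D, ∑ m ∈ Icc 1 (y / d), a d * w m +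
      ∑ d ∈ Ioc D y, ∑ m ∈ Icc 1 (y / d), a d * w m - ρ * y * L =
      (∑ d ∈ Icc 1 D, ∑ m ∈ Icc 1 (y / d), a d * w m - ρ * y * ∑ d ∈ Icc 1 D, a d / d) +
      (ρ * y * ∑ d ∈ Icc 1 D, a d / d - ρ * y * L) +
      ∑ d ∈ Ioc D y, ∑ m ∈ Icc 1 (y / d), a d * w m := by ring
  rw [e0]
  refine le_trans (abs_add_three _ _ _) ?_
  have e1 : 4 * B * y / D = 2 * B * y / D + 2 * B * y / D := by ring
  rw [e1]
  linarith

/-- Divisor sums, trivially. -/
theorem ra_tau (y : ℕ) :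
    ∑ n ∈ Icc 1 y, (n.divisors.card : ℝ) ≤ y * (1 + Real.log y) := by
  have h1 : ∑ n ∈ Icc 1 y, (n.divisors.card : ℝ) =
      ∑ n ∈ Icc 1 y, ∑ d ∈ n.divisors, (fun _ _ : ℕ => (1 : ℝ)) d (n / d) := by
    refine Finset.sum_congr rfl fun n _ => ?_
    simp
  rw [h1, ra_double (fun _ _ : ℕ => (1 : ℝ))]
  have h2 : ∀ d ∈ Icc 1 y, ∑ m ∈ Icc 1 (y / d), (fun _ _ : ℕ => (1 : ℝ)) d m ≤ y * (1 / (d : ℝ)) := by
    intro d _
    simp only [Finset.sum_const, Nat.card_Icc, nsmul_eq_mul, mul_one]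
    have e2 : ((y / d + 1 - 1 : ℕ) : ℝ) = ((y / d : ℕ) : ℝ) := by
      congr 1
    rw [e2, mul_one_div]
    exact Nat.cast_div_le
  refine le_trans (Finset.sum_le_sum h2) ?_
  rw [← Finset.mul_sum]
  refine mul_le_mul_of_nonneg_left ?_ (Nat.cast_nonneg _)
  have h3 := harmonic_le_one_add_log y
  have h4 : ((harmonic y : ℚ) : ℝ) = ∑ d ∈ Icc 1 y, 1 / (d : ℝ) := by
    rw [harmonic_eq_sum_Icc]
    push_cast
    refine Finset.sum_congr rfl fun d _ => ?_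
    rw [one_div]
  rw [← h4]
  exact h3

theorem ra_q {q : ℕ} [NeZero q] {χ : DirichletCharacter ℂ q} (hχ : χ ≠ 1) : 2 ≤ q := by
  by_contra h
  have hq : q = 1 := by
    have := NeZero.ne q
    omega
  subst hq
  exact hχ (DirichletCharacter.level_one χ)

theorem ra_zero {q : ℕ} [NeZero q] {χ : DirichletCharacter ℂ q} (hχ : χ ≠ 1) :
    χ (0 : ZMod q) = 0 := by
  have h2 := ra_q hχ
  have : Fact (1 < q) := ⟨by omega⟩
  exact MulChar.map_nonunit χ not_isUnit_zero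

theorem ra_part {q : ℕ} [NeZero q] {χ : DirichletCharacter ℂ q} (hχ : χ ≠ 1) (B : ℝ)
    (hB : ∀ x : ℕ, ‖∑ n ∈ range x, χ (n : ZMod q)‖ ≤ B) (x : ℕ) :
    |∑ d ∈ Icc 1 x, (χ (d : ZMod q)).re| ≤ B := by
  have h1 : ∑ d ∈ range (x + 1), χ (d : ZMod q) = ∑ d ∈ Icc 1 x, χ (d : ZMod q) := by
    have hu : range (x + 1) = insert 0 (Icc 1 x) := by
      ext n
      simp only [Finset.mem_range, Finset.mem_insert, Finset.mem_Icc]
      omega
    rw [hu, Finset.sum_insert (by simp)]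
    have : χ ((0 : ℕ) : ZMod q) = 0 := by
      rw [Nat.cast_zero]
      exact ra_zero hχ
    rw [this, zero_add]
  have h2 := hB (x + 1)
  rw [h1] at h2
  rw [← Complex.re_sum]
  exact le_trans (Complex.abs_re_le_norm _) h2

theorem ra_one {q : ℕ} [NeZero q] (χ : DirichletCharacter ℂ q) (n : ℕ) :
    |(χ (n : ZMod q)).re| ≤ 1 :=
  le_trans (Complex.abs_re_le_norm _) (DirichletCharacter.norm_le_one χ _)

/-- The trivial case `y < √q`. -/
theorem ra_small {q : ℕ} [NeZero q] {χ : DirichletCharacter ℂ q} (hχ : χ ≠ 1) (y : ℕ)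
    (hy : 1 ≤ y) (hyq : (y : ℝ) < Real.sqrt q) (S ρ : ℝ) (hS0 : 0 ≤ S)
    (hS : S ≤ ∑ n ∈ Icc 1 y, (n.divisors.card : ℝ)) (hρ0 : 0 ≤ ρ) (hρ1 : ρ ≤ 1) :
    |S - ρ * y * L1 χ| ≤ Real.sqrt y * (q : ℝ) ^ (1 / 4 : ℝ) * (5 + 2 * Real.log q) := by
  have hq2 := ra_q hχ
  have hq1 : (1 : ℝ) ≤ q := by
    have : 1 ≤ q := by omega
    exact_mod_cast this
  have hy1 : (1 : ℝ) ≤ y := by exact_mod_cast hy
  have hlog : Real.log y ≤ Real.log q := by
    refine Real.log_le_log (by linarith) ?_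
    have : Real.sqrt q ≤ q := by
      rw [Real.sqrt_le_left (by linarith)]
      nlinarith
    linarith
  have hlq : 0 ≤ Real.log q := Real.log_nonneg hq1
  have h1 := ra_tau y
  have h2 := L1_le q χ hχ
  have h3 : |ρ * y * L1 χ| ≤ y * (4 + Real.log q) := by
    rw [abs_mul, abs_of_nonneg (by positivity)]
    have : ρ * y ≤ 1 * y := mul_le_mul_of_nonneg_right hρ1 (by linarith)
    calc ρ * y * |L1 χ| ≤ (1 * y) * (4 + Real.log q) :=
          mul_le_mul this h2 (abs_nonneg _) (by linarith)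
      _ = y * (4 + Real.log q) := by ring
  have h4 : |S - ρ * y * L1 χ| ≤ y * (5 + 2 * Real.log q) := by
    have h5 : |S - ρ * y * L1 χ| ≤ |S| + |ρ * y * L1 χ| := abs_sub _ _
    rw [abs_of_nonneg hS0] at h5
    have h6 : (y : ℝ) * (1 + Real.log y) ≤ y * (1 + Real.log q) :=
      mul_le_mul_of_nonneg_left (by linarith) (by linarith)
    nlinarith
  refine le_trans h4 ?_
  refine mul_le_mul_of_nonneg_right ?_ (by linarith)
  have h7 : Real.sqrt y ≤ (q : ℝ) ^ (1 / 4 : ℝ) := by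
    have h8 : (q : ℝ) ^ (1 / 4 : ℝ) = Real.sqrt (Real.sqrt q) := by
      rw [Real.sqrt_eq_rpow, Real.sqrt_eq_rpow, ← Real.rpow_mul (by linarith)]
      norm_num
    rw [h8]
    exact Real.sqrt_le_sqrt hyq.le
  have h9 : Real.sqrt y * Real.sqrt y = y := Real.mul_self_sqrt (by linarith)
  calc (y : ℝ) = Real.sqrt y * Real.sqrt y := h9.symm
    _ ≤ Real.sqrt y * (q : ℝ) ^ (1 / 4 : ℝ) := mul_le_mul_of_nonneg_left h7 (Real.sqrt_nonneg _)

/-- The choice of the cut. -/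
theorem ra_cut (q y : ℕ) (hq : 1 ≤ q) (hy : 1 ≤ y) (hyq : Real.sqrt q ≤ y) (B E : ℝ)
    (hB : 0 ≤ B) (hE : 0 ≤ E + 1) :
    ∃ D : ℕ, 1 ≤ D ∧ D ≤ y ∧ 4 * B * y / D + D * (E + 1) ≤
      Real.sqrt y * (q : ℝ) ^ (1 / 4 : ℝ) * (8 * (B / Real.sqrt q) + (E + 1)) := by
  have hq1 : (1 : ℝ) ≤ q := by exact_mod_cast hq
  have hy1 : (1 : ℝ) ≤ y := by exact_mod_cast hy
  have h8 : (q : ℝ) ^ (1 / 4 : ℝ) = Real.sqrt (Real.sqrt q) := by
    rw [Real.sqrt_eq_rpow, Real.sqrt_eq_rpow, ← Real.rpow_mul (by linarith)]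
    norm_num
  have hsy : 1 ≤ Real.sqrt y := Real.one_le_sqrt.mpr hy1
  have hsq : 1 ≤ Real.sqrt q := Real.one_le_sqrt.mpr hq1
  have hqq : 1 ≤ (q : ℝ) ^ (1 / 4 : ℝ) := by
    rw [h8]
    exact Real.one_le_sqrt.mpr hsq
  have hqy : (q : ℝ) ^ (1 / 4 : ℝ) ≤ Real.sqrt y := by
    rw [h8]
    exact Real.sqrt_le_sqrt hyq
  have h9 : Real.sqrt y * Real.sqrt y = y := Real.mul_self_sqrt (by linarith)
  have h10 : (q : ℝ) ^ (1 / 4 : ℝ) * (q : ℝ) ^ (1 / 4 : ℝ) = Real.sqrt q := by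
    rw [h8]
    exact Real.mul_self_sqrt (Real.sqrt_nonneg _)
  set s : ℝ := Real.sqrt y * (q : ℝ) ^ (1 / 4 : ℝ) with hs
  have hs1 : 1 ≤ s := by nlinarith
  have hsy' : s ≤ y := by nlinarith
  refine ⟨⌊s⌋₊, ?_, ?_, ?_⟩
  · exact Nat.one_le_floor_iff s |>.mpr hs1
  · exact Nat.floor_le_of_le hsy'
  · have hD1 : 1 ≤ ⌊s⌋₊ := (Nat.one_le_floor_iff s).mpr hs1
    have hD1' : (1 : ℝ) ≤ (⌊s⌋₊ : ℝ) := by exact_mod_cast hD1
    have hDs : (⌊s⌋₊ : ℝ) ≤ s := Nat.floor_le (by linarith)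
    have hDs' : s < (⌊s⌋₊ : ℝ) + 1 := Nat.lt_floor_add_one s
    have e1 : 4 * B * y / (⌊s⌋₊ : ℝ) ≤ 8 * B * y / s := by
      rw [div_le_div_iff₀ (by linarith) (by linarith)]
      have : 0 ≤ B * y := by positivity
      nlinarith
    have e2 : 8 * B * y / s = s * (8 * (B / Real.sqrt q)) := by
      rw [div_eq_iff (by linarith)]
      have hsq0 : Real.sqrt q ≠ 0 := by linarith
      have : s * s = y * Real.sqrt q := by
        rw [hs]
        calc Real.sqrt y * (q : ℝ) ^ (1 / 4 : ℝ) * (Real.sqrt y * (q : ℝ) ^ (1 / 4 : ℝ))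
            = (Real.sqrt y * Real.sqrt y) * ((q : ℝ) ^ (1 / 4 : ℝ) * (q : ℝ) ^ (1 / 4 : ℝ)) := by ring
          _ = _ := by rw [h9, h10]
      calc 8 * B * y = 8 * (B / Real.sqrt q) * (y * Real.sqrt q) := by
            field_simp
        _ = 8 * (B / Real.sqrt q) * (s * s) := by rw [this]
        _ = s * (8 * (B / Real.sqrt q)) * s := by ring
    have e3 : (⌊s⌋₊ : ℝ) * (E + 1) ≤ s * (E + 1) := mul_le_mul_of_nonneg_right hDs hE
    calc 4 * B * y / (⌊s⌋₊ : ℝ) + (⌊s⌋₊ : ℝ) * (E + 1) ≤ s * (8 * (B / Real.sqrt q)) + s * (E + 1) := by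
          rw [← e2]
          linarith
      _ = s * (8 * (B / Real.sqrt q) + (E + 1)) := by ring

theorem r_prim (δ : ℝ) (hδ : 0 < δ) : ∃ C : ℝ, 0 < C ∧ ∀ q : ℕ, ∀ _ : NeZero q,
    ∀ χ : DirichletCharacter ℂ q, χ.IsPrimitive → χ ≠ 1 → RealChar χ → ∀ y : ℕ, 1 ≤ y →
    |∑ n ∈ Icc 1 y, rr χ n - y * L1 χ| ≤ C * Real.sqrt y * (q : ℝ) ^ (1 / 4 + δ) := by
  obtain ⟨C₀, hC₀, hpv⟩ := pv_prim
  refine ⟨8 * C₀ * (1 + 1 / δ) + 1 + (5 + 2 / δ), by positivity, ?_⟩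
  intro q hne χ hprim hχ hreal y hy
  have hq2 := ra_q hχ
  have hq1 : (1 : ℝ) ≤ q := by
    have : 1 ≤ q := by omega
    exact_mod_cast this
  have hlq : 0 ≤ Real.log q := Real.log_nonneg hq1
  have hqδ : 1 ≤ (q : ℝ) ^ δ := Real.one_le_rpow hq1 hδ.le
  have hlogδ : Real.log q ≤ (q : ℝ) ^ δ / δ := Real.log_le_rpow_div (by linarith) hδ
  have hadd : (q : ℝ) ^ (1 / 4 + δ) = (q : ℝ) ^ (1 / 4 : ℝ) * (q : ℝ) ^ δ :=
    Real.rpow_add (by linarith) _ _
  have hq4 : 0 ≤ (q : ℝ) ^ (1 / 4 : ℝ) := Real.rpow_nonneg (by linarith) _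
  have hsy : 0 ≤ Real.sqrt y := Real.sqrt_nonneg _
  by_cases hc : Real.sqrt q ≤ y
  · have hB0 : 0 ≤ C₀ * Real.sqrt q * (1 + Real.log q) := by positivity
    obtain ⟨D, hD1, hDy, hD⟩ := ra_cut q y (by omega) hy hc (C₀ * Real.sqrt q * (1 + Real.log q)) 0
      hB0 (by norm_num)
    have hcore := ra_core (fun d => (χ (d : ZMod q)).re) (fun _ => 1) (ra_one χ)
      (fun _ => ⟨zero_le_one, le_refl _⟩) (C₀ * Real.sqrt q * (1 + Real.log q)) 0 1 (L1 χ)
      (ra_part hχ _ (hpv q hne χ hprim hχ)) (fun z => by simp) zero_le_one (le_refl _) y D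
      (L1_tail q χ hχ _ (hpv q hne χ hprim hχ) D) hD1 hDy
    have hS : ∑ n ∈ Icc 1 y, rr χ n =
        ∑ d ∈ Icc 1 y, ∑ m ∈ Icc 1 (y / d), (fun d : ℕ => (χ (d : ZMod q)).re) d * (fun _ : ℕ => (1 : ℝ)) m := by
      rw [← ra_double (fun d m => (fun d : ℕ => (χ (d : ZMod q)).re) d * (fun _ : ℕ => (1 : ℝ)) m)]
      refine Finset.sum_congr rfl fun n _ => ?_
      unfold rr
      simp
    rw [hS]
    rw [one_mul] at hcore
    refine le_trans (le_trans hcore hD) ?_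
    have hsq0 : Real.sqrt q ≠ 0 := by
      have := Real.one_le_sqrt.mpr hq1
      linarith
    have e1 : C₀ * Real.sqrt q * (1 + Real.log q) / Real.sqrt q = C₀ * (1 + Real.log q) := by
      field_simp
    rw [e1, hadd]
    have e2 : 8 * (C₀ * (1 + Real.log q)) + (0 + 1) ≤
        (8 * C₀ * (1 + 1 / δ) + 1 + (5 + 2 / δ)) * (q : ℝ) ^ δ := by
      have e3 : 1 + Real.log q ≤ (1 + 1 / δ) * (q : ℝ) ^ δ := by
        have : (1 + 1 / δ) * (q : ℝ) ^ δ = (q : ℝ) ^ δ + (q : ℝ) ^ δ / δ := by ring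
        rw [this]
        linarith
      have e4 : 8 * (C₀ * (1 + Real.log q)) ≤ 8 * C₀ * ((1 + 1 / δ) * (q : ℝ) ^ δ) := by
        have := mul_le_mul_of_nonneg_left e3 (by linarith : 0 ≤ 8 * C₀)
        linarith
      have e5 : 0 ≤ (5 + 2 / δ) * (q : ℝ) ^ δ := by positivity
      nlinarith
    calc Real.sqrt y * (q : ℝ) ^ (1 / 4 : ℝ) * (8 * (C₀ * (1 + Real.log q)) + (0 + 1))
        ≤ Real.sqrt y * (q : ℝ) ^ (1 / 4 : ℝ) * ((8 * C₀ * (1 + 1 / δ) + 1 + (5 + 2 / δ)) * (q : ℝ) ^ δ) :=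
          mul_le_mul_of_nonneg_left e2 (mul_nonneg hsy hq4)
      _ = _ := by ring
  · push Not at hc
    have hS0 : 0 ≤ ∑ n ∈ Icc 1 y, rr χ n := Finset.sum_nonneg fun n _ => (rr_nonneg χ hreal n).1
    have hS1 : ∑ n ∈ Icc 1 y, rr χ n ≤ ∑ n ∈ Icc 1 y, (n.divisors.card : ℝ) :=
      Finset.sum_le_sum fun n _ => (rr_nonneg χ hreal n).2
    have h := ra_small hχ y hy hc _ 1 hS0 hS1 zero_le_one (le_refl _)
    rw [one_mul] at h
    refine le_trans h ?_
    rw [hadd]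
    have e2 : 5 + 2 * Real.log q ≤
        (8 * C₀ * (1 + 1 / δ) + 1 + (5 + 2 / δ)) * (q : ℝ) ^ δ := by
      have e3 : 2 * Real.log q ≤ 2 / δ * (q : ℝ) ^ δ := by
        have : 2 / δ * (q : ℝ) ^ δ = 2 * ((q : ℝ) ^ δ / δ) := by ring
        rw [this]
        linarith
      have e5 : 0 ≤ (8 * C₀ * (1 + 1 / δ) + 1) * (q : ℝ) ^ δ := by positivity
      nlinarith
    calc Real.sqrt y * (q : ℝ) ^ (1 / 4 : ℝ) * (5 + 2 * Real.log q)
        ≤ Real.sqrt y * (q : ℝ) ^ (1 / 4 : ℝ) * ((8 * C₀ * (1 + 1 / δ) + 1 + (5 + 2 / δ)) * (q : ℝ) ^ δ) :=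
          mul_le_mul_of_nonneg_left e2 (mul_nonneg hsy hq4)
      _ = _ := by ring

theorem r_cop (δ : ℝ) (hδ : 0 < δ) : ∀ᶠ N : ℕ in atTop, ∀ _ : NeZero N,
    ∀ χ : DirichletCharacter ℂ N, χ ≠ 1 → RealChar χ → ∀ y : ℕ, 1 ≤ y →
    |∑ n ∈ (Icc 1 y).filter (fun n => n.Coprime N), rr χ n - y * (N.totient / N * L1 χ)| ≤
      Real.sqrt y * (N : ℝ) ^ (1 / 4 + δ) := by
  have hδ2 : 0 < δ / 2 := by linarith
  filter_upwards [pv (δ / 2) hδ2, cop_count (δ / 2) hδ2, ev_pow 0 (δ / 2) hδ2 0 11,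
    ev_pow 0 δ hδ 1 7, ev_log 1, eventually_ge_atTop 2] with N hpv hcop h11 h7 hlog hN2
  intro hne χ hχ hreal y hy
  have hN1 : (1 : ℝ) ≤ N := by
    have : 1 ≤ N := by omega
    exact_mod_cast this
  have hy1 : (1 : ℝ) ≤ y := by exact_mod_cast hy
  have hN4 : 0 ≤ (N : ℝ) ^ (1 / 4 : ℝ) := Real.rpow_nonneg (by linarith) _
  have hsy : 0 ≤ Real.sqrt y := Real.sqrt_nonneg _
  have hadd : (N : ℝ) ^ (1 / 4 + δ) = (N : ℝ) ^ (1 / 4 : ℝ) * (N : ℝ) ^ δ :=
    Real.rpow_add (by linarith) _ _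
  have hφ0 : (0 : ℝ) ≤ (N.totient : ℝ) / N := by positivity
  have hφ1 : (N.totient : ℝ) / N ≤ 1 := by
    rw [div_le_one (by linarith)]
    exact_mod_cast Nat.totient_le N
  by_cases hc : Real.sqrt N ≤ y
  · have hB0 : (0 : ℝ) ≤ (N : ℝ) ^ (1 / 2 + δ / 2) := Real.rpow_nonneg (by linarith) _
    have hE0 : (0 : ℝ) ≤ (N : ℝ) ^ (δ / 2) := Real.rpow_nonneg (by linarith) _
    have hE1 : (1 : ℝ) ≤ (N : ℝ) ^ (δ / 2) := Real.one_le_rpow hN1 hδ2.le
    have hE2 : (0 : ℝ) ≤ (N : ℝ) ^ (δ / 2) + 1 + 1 := by positivity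
    obtain ⟨D, hD1, hDy, hD⟩ := ra_cut N y (by omega) hy hc ((N : ℝ) ^ (1 / 2 + δ / 2))
      ((N : ℝ) ^ (δ / 2) + 1) hB0 hE2
    have hw : ∀ z : ℕ, |∑ m ∈ Icc 1 z, (if m.Coprime N then (1 : ℝ) else 0) -
        (N.totient : ℝ) / N * z| ≤ (N : ℝ) ^ (δ / 2) + 1 := by
      intro z
      have h1 := hcop (z + 1)
      have h2 : (((range (z + 1)).filter fun n => n.Coprime N).card : ℝ) =
          ∑ m ∈ Icc 1 z, (if m.Coprime N then (1 : ℝ) else 0) := by
        rw [Finset.card_filter]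
        push_cast
        have hu : range (z + 1) = insert 0 (Icc 1 z) := by
          ext n
          simp only [Finset.mem_range, Finset.mem_insert, Finset.mem_Icc]
          omega
        rw [hu, Finset.sum_insert (by simp)]
        have h0 : ¬ Nat.Coprime 0 N := by
          rw [Nat.coprime_zero_left]
          omega
        rw [if_neg h0, zero_add]
      rw [h2] at h1
      push_cast at h1
      have h3 : ∑ m ∈ Icc 1 z, (if m.Coprime N then (1 : ℝ) else 0) - (N.totient : ℝ) / N * z =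
          (∑ m ∈ Icc 1 z, (if m.Coprime N then (1 : ℝ) else 0) - ((z : ℝ) + 1) * (N.totient / N)) +
            (N.totient : ℝ) / N := by ring
      rw [h3]
      refine le_trans (abs_add_le _ _) ?_
      rw [abs_of_nonneg hφ0]
      linarith
    have hcore := ra_core (fun d => (χ (d : ZMod N)).re) (fun m => if m.Coprime N then (1 : ℝ) else 0)
      (ra_one χ) (fun m => by
        split_ifs
        · exact ⟨zero_le_one, le_refl _⟩
        · exact ⟨le_refl _, zero_le_one⟩)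
      ((N : ℝ) ^ (1 / 2 + δ / 2)) ((N : ℝ) ^ (δ / 2) + 1) ((N.totient : ℝ) / N) (L1 χ)
      (ra_part hχ _ (hpv χ hχ)) hw hφ0 hφ1 y D
      (L1_tail N χ hχ _ (hpv χ hχ) D) hD1 hDy
    have hS : ∑ n ∈ (Icc 1 y).filter (fun n => n.Coprime N), rr χ n =
        ∑ d ∈ Icc 1 y, ∑ m ∈ Icc 1 (y / d), (fun d : ℕ => (χ (d : ZMod N)).re) d *
          (fun m : ℕ => if m.Coprime N then (1 : ℝ) else 0) m := by
      rw [← ra_double (fun d m => (fun d : ℕ => (χ (d : ZMod N)).re) d *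
          (fun m : ℕ => if m.Coprime N then (1 : ℝ) else 0) m), Finset.sum_filter]
      refine Finset.sum_congr rfl fun n hn => ?_
      have hn0 : n ≠ 0 := by
        rw [Finset.mem_Icc] at hn
        omega
      by_cases hnN : n.Coprime N
      · rw [if_pos hnN]
        unfold rr
        refine Finset.sum_congr rfl fun d hd => ?_
        have hdn := Nat.dvd_of_mem_divisors hd
        have h4 : (n / d).Coprime N := Nat.Coprime.coprime_dvd_left (Nat.div_dvd_of_dvd hdn) hnN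
        beta_reduce
        rw [if_pos h4, mul_one]
      · rw [if_neg hnN]
        symm
        refine Finset.sum_eq_zero fun d hd => ?_
        have hdn := Nat.dvd_of_mem_divisors hd
        beta_reduce
        by_cases h4 : (n / d).Coprime N
        · have h5 : ¬ d.Coprime N := by
            intro h5
            apply hnN
            rw [← Nat.mul_div_cancel' hdn]
            exact Nat.Coprime.mul_left h5 h4
          have h6 : χ (d : ZMod N) = 0 := by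
            apply MulChar.map_nonunit
            rw [ZMod.isUnit_iff_coprime]
            exact h5
          rw [h6, Complex.zero_re, zero_mul]
        · rw [if_neg h4, mul_zero]
    rw [hS]
    have e0 : (y : ℝ) * ((N.totient : ℝ) / N * L1 χ) = (N.totient : ℝ) / N * y * L1 χ := by ring
    rw [e0]
    refine le_trans (le_trans hcore hD) ?_
    have hsq : (N : ℝ) ^ (1 / 2 + δ / 2) / Real.sqrt N = (N : ℝ) ^ (δ / 2) := by
      rw [Real.sqrt_eq_rpow, ← Real.rpow_sub (by linarith)]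
      congr 1
      ring
    rw [hsq, hadd, mul_assoc]
    refine mul_le_mul_of_nonneg_left ?_ hsy
    refine mul_le_mul_of_nonneg_left ?_ hN4
    rw [Real.rpow_zero, pow_zero] at h11
    have h12 : (N : ℝ) ^ δ = (N : ℝ) ^ (δ / 2) * (N : ℝ) ^ (δ / 2) := by
      rw [← Real.rpow_add (by linarith)]
      congr 1
      ring
    rw [h12]
    nlinarith
  · push Not at hc
    have hS0 : 0 ≤ ∑ n ∈ (Icc 1 y).filter (fun n => n.Coprime N), rr χ n :=
      Finset.sum_nonneg fun n _ => (rr_nonneg χ hreal n).1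
    have hS1 : ∑ n ∈ (Icc 1 y).filter (fun n => n.Coprime N), rr χ n ≤
        ∑ n ∈ Icc 1 y, (n.divisors.card : ℝ) :=
      le_trans (Finset.sum_le_sum fun n _ => (rr_nonneg χ hreal n).2)
        (Finset.sum_le_sum_of_subset_of_nonneg (Finset.filter_subset _ _)
          fun n _ _ => Nat.cast_nonneg _)
    have h := ra_small hχ y hy hc _ ((N.totient : ℝ) / N) hS0 hS1 hφ0 hφ1
    have e0 : (y : ℝ) * ((N.totient : ℝ) / N * L1 χ) = (N.totient : ℝ) / N * y * L1 χ := by ring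
    rw [e0]
    refine le_trans h ?_
    rw [hadd, mul_assoc]
    refine mul_le_mul_of_nonneg_left ?_ hsy
    refine mul_le_mul_of_nonneg_left ?_ hN4
    rw [Real.rpow_zero, pow_one] at h7
    linarith

end Pool.Agent.GLI
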