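import Pool.Agent.GLI.SgEst

set_option autoImplicit false

/-!
Module Siegel (Siegel's theorem). `η = min (ε/16) (1/8)`, and small enough that `Re ζ(s) < 0` on `[1-η, 1)`
(`(s-1) ζ(s) → 1`).
Case 1: some real `χ1 ≠ 1` mod some `q1` has a real zero `β ∈ [1-η, 1)`. Case 2: none; then take any `χ1` and `β = 1 - η`:
all `L(β, ·) > 0` (L_real, L_pos, intermediate value theorem; also for
`prodChar χ1 χ2`), so `F(β) < 0`. In both cases `F(β) ≤ 0` for every real `χ2 ≠ 1` mod `q2` with `prodChar χ1 χ2 ≠ 1`, and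
sg_est gives `1/2 ≤ C L1 χ1 L1 χ2 L1 (prodChar) (q1 q2)^(8 η)/(1-β)`; with `L1 ≤ 4 + log` (L1_le) `L1 χ2 ≥ c q2^(-ε)`.
If `χ2` is primitive and `q2 > q1` then `prodChar χ1 χ2 ≠ 1` (otherwise `χ2` and `χ1` have the same conductor `≤ q1`).
For the finitely many `χ2` with `q2 ≤ q1` use L_pos.
-/

open Finset Filter

namespace Pool.Agent.GLI

theorem prodChar_real {q1 q2 : ℕ} [NeZero q1] [NeZero q2] (χ1 : DirichletCharacter ℂ q1)
    (χ2 : DirichletCharacter ℂ q2) (h1 : RealChar χ1) (h2 : RealChar χ2) :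
    RealChar (prodChar χ1 χ2) := by
  intro a
  have : NeZero (q1 * q2) := ⟨mul_ne_zero (NeZero.ne q1) (NeZero.ne q2)⟩
  have h3 : a = ((a.val : ℕ) : ZMod (q1 * q2)) := (ZMod.natCast_zmod_val a).symm
  rw [h3, prodChar_apply]
  rcases h1 (a.val : ZMod q1) with h | h | h <;> rcases h2 (a.val : ZMod q2) with h' | h' | h' <;>
    rw [h, h'] <;> simp

theorem prodChar_ne_one {q1 q2 : ℕ} [NeZero q1] [NeZero q2] (χ1 : DirichletCharacter ℂ q1)
    (χ2 : DirichletCharacter ℂ q2) (h2 : χ2.IsPrimitive) (h : q1 < q2) : prodChar χ1 χ2 ≠ 1 := by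
  have : NeZero (q1 * q2) := ⟨mul_ne_zero (NeZero.ne q1) (NeZero.ne q2)⟩
  intro h0
  unfold prodChar at h0
  have h3 := eq_inv_of_mul_eq_one_right h0
  have h4 := congrArg DirichletCharacter.conductor h3
  rw [DirichletCharacter.conductor_inv, DirichletCharacter.conductor_changeLevel,
    DirichletCharacter.conductor_changeLevel] at h4
  have h5 : χ2.conductor = q2 := h2
  have h6 : χ1.conductor ≤ q1 :=
    Nat.le_of_dvd (NeZero.pos q1) (DirichletCharacter.conductor_dvd_level χ1)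
  omega

/-- The finitely many small moduli. -/
theorem small_q (Q : ℕ) : ∃ c : ℝ, 0 < c ∧ ∀ q : ℕ, q ≤ Q → ∀ _ : NeZero q,
    ∀ χ : DirichletCharacter ℂ q, χ ≠ 1 → RealChar χ → c ≤ L1 χ := by
  induction Q with
  | zero =>
    refine ⟨1, one_pos, fun q hq hq0 => ?_⟩
    exact absurd (Nat.le_zero.mp hq) hq0.ne
  | succ Q ih =>
    obtain ⟨c, hc, hc'⟩ := ih
    have : NeZero (Q + 1) := ⟨Nat.succ_ne_zero Q⟩
    have h1 : ∃ c1 : ℝ, 0 < c1 ∧ ∀ χ : DirichletCharacter ℂ (Q + 1), χ ≠ 1 → RealChar χ →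
        c1 ≤ L1 χ := by
      classical
      have hfin : Finite (DirichletCharacter ℂ (Q + 1)) := inferInstance
      have := Fintype.ofFinite (DirichletCharacter ℂ (Q + 1))
      obtain ⟨χ0, -, hχ0⟩ := Finset.exists_min_image
        (Finset.univ : Finset (DirichletCharacter ℂ (Q + 1)))
        (fun χ => if χ ≠ 1 ∧ RealChar χ then L1 χ else 1) ⟨1, Finset.mem_univ _⟩
      refine ⟨if χ0 ≠ 1 ∧ RealChar χ0 then L1 χ0 else 1, ?_, fun χ hχ hr => ?_⟩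
      · split_ifs with h
        · exact L_pos _ χ0 h.1 h.2
        · exact one_pos
      · have := hχ0 χ (Finset.mem_univ _)
        rw [if_pos (⟨hχ, hr⟩ : χ ≠ 1 ∧ RealChar χ)] at this
        exact this
    obtain ⟨c1, hc1, hc1'⟩ := h1
    refine ⟨min c c1, lt_min hc hc1, fun q hq hq0 χ hχ hr => ?_⟩
    rcases Nat.lt_or_ge Q q with hlt | hge
    · have hqe : q = Q + 1 := by omega
      subst hqe
      exact (min_le_right _ _).trans (hc1' χ hχ hr)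
    · exact (min_le_left _ _).trans (hc' q hge hq0 χ hχ hr)

theorem zeta_neg : ∃ δ : ℝ, 0 < δ ∧ ∀ s : ℝ, 1 - δ < s → s < 1 → (riemannZeta (s : ℂ)).re ≤ 0 := by
  have h1 := riemannZeta_residue_one
  have h2 : ∀ᶠ z in nhdsWithin (1 : ℂ) {1}ᶜ, 0 < ((z - 1) * riemannZeta z).re := by
    have h3 : Tendsto (fun z : ℂ => ((z - 1) * riemannZeta z).re) (nhdsWithin (1 : ℂ) {1}ᶜ)
        (nhds (1 : ℂ).re) := (Complex.continuous_re.tendsto _).comp h1
    refine h3.eventually (lt_mem_nhds ?_)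
    simp
  rw [eventually_nhdsWithin_iff, Metric.eventually_nhds_iff] at h2
  obtain ⟨δ, hδ, h⟩ := h2
  refine ⟨δ, hδ, fun s hs1 hs2 => ?_⟩
  have h4 : dist (s : ℂ) 1 < δ := by
    rw [dist_eq_norm]
    have h5 : (s : ℂ) - 1 = ((s - 1 : ℝ) : ℂ) := by
      push_cast
      ring
    rw [h5, Complex.norm_real, Real.norm_eq_abs, abs_lt]
    constructor <;> linarith
  have h6 : (s : ℂ) ∈ ({1}ᶜ : Set ℂ) := by
    rw [Set.mem_compl_iff, Set.mem_singleton_iff]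
    intro h7
    have h8 : s = 1 := by exact_mod_cast h7
    linarith
  have h9 := h h4 h6
  have h10 : ((s : ℂ) - 1) * riemannZeta s = ((s - 1 : ℝ) : ℂ) * riemannZeta s := by
    push_cast
    ring
  rw [h10, Complex.re_ofReal_mul] at h9
  by_contra hcon
  push Not at hcon
  nlinarith

theorem ofReal_of_im {z : ℂ} (h : z.im = 0) : z = ((z.re : ℝ) : ℂ) := by
  apply Complex.ext <;> simp [h]

theorem four_re (z a b c : ℂ) (ha : a.im = 0) (hb : b.im = 0) (hc : c.im = 0) :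
    (z * a * b * c).re = z.re * (a.re * b.re * c.re) := by
  rw [ofReal_of_im ha, ofReal_of_im hb, ofReal_of_im hc]
  have h : z * (a.re : ℂ) * (b.re : ℂ) * (c.re : ℂ) =
      z * ((a.re * b.re * c.re : ℝ) : ℂ) := by
    push_cast
    ring
  rw [h, Complex.re_mul_ofReal]
  simp

/-- No zero in `[β, 1)`: positive at `β`. -/
theorem pos_of_no_zero (q : ℕ) [NeZero q] (χ : DirichletCharacter ℂ q) (hχ : χ ≠ 1)
    (h : RealChar χ) (β : ℝ) (hβ0 : 0 < β) (hβ1 : β < 1)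
    (hz : ∀ s : ℝ, β ≤ s → s < 1 → DirichletCharacter.LFunction χ (s : ℂ) ≠ 0) :
    0 < (DirichletCharacter.LFunction χ (β : ℂ)).re := by
  by_contra hneg
  push Not at hneg
  have hc : Continuous fun s : ℝ => (DirichletCharacter.LFunction χ (s : ℂ)).re :=
    Complex.continuous_re.comp ((DirichletCharacter.differentiable_LFunction hχ).continuous.comp
      Complex.continuous_ofReal)
  have h1 : 0 < (DirichletCharacter.LFunction χ ((1 : ℝ) : ℂ)).re := by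
    have := L_pos q χ hχ h
    unfold L1 at this
    push_cast
    exact this
  obtain ⟨s, hs, hs0⟩ := intermediate_value_Icc hβ1.le hc.continuousOn ⟨hneg, h1.le⟩
  have him := L_real q χ hχ h s (by linarith [hs.1])
  have hz0 : DirichletCharacter.LFunction χ (s : ℂ) = 0 := Complex.ext hs0 him
  rcases lt_or_eq_of_le hs.2 with h2 | h2
  · exact hz s hs.1 h2 hz0
  · subst h2
    rw [hz0] at h1
    simp at h1

/-- The exceptional (or not) point: `F(β) ≤ 0`. -/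
theorem exists_beta (η : ℝ) (hη : 0 < η) (hη8 : η ≤ 1 / 8) (q0 : ℕ) (hq0 : NeZero q0)
    (χ0 : DirichletCharacter ℂ q0) (hχ0 : χ0 ≠ 1) (h0 : RealChar χ0) :
    ∃ β : ℝ, 7 / 8 ≤ β ∧ β < 1 ∧ 1 - η ≤ β ∧ ∃ q1 : ℕ, ∃ _ : NeZero q1,
      ∃ χ1 : DirichletCharacter ℂ q1, χ1 ≠ 1 ∧ RealChar χ1 ∧
      ∀ q2 : ℕ, ∀ _ : NeZero q2, ∀ χ2 : DirichletCharacter ℂ q2, RealChar χ2 → χ2 ≠ 1 →
      prodChar χ1 χ2 ≠ 1 →
      (riemannZeta β * DirichletCharacter.LFunction χ1 β * DirichletCharacter.LFunction χ2 β *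
        DirichletCharacter.LFunction (prodChar χ1 χ2) β).re ≤ 0 := by
  obtain ⟨δ, hδ, hz⟩ := zeta_neg
  set η' := min η (δ / 2) with hη'
  have hη'0 : 0 < η' := lt_min hη (by linarith)
  have hη'1 : η' ≤ η := min_le_left _ _
  have hη'2 : η' ≤ δ / 2 := min_le_right _ _
  by_cases hex : ∃ β : ℝ, 1 - η' ≤ β ∧ β < 1 ∧ ∃ q1 : ℕ, ∃ _ : NeZero q1,
      ∃ χ1 : DirichletCharacter ℂ q1, χ1 ≠ 1 ∧ RealChar χ1 ∧
        DirichletCharacter.LFunction χ1 (β : ℂ) = 0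
  · obtain ⟨β, hβ1, hβ2, q1, hq1, χ1, hχ1, hr1, hzero⟩ := hex
    refine ⟨β, by linarith, hβ2, by linarith, q1, hq1, χ1, hχ1, hr1, fun q2 _ χ2 _ _ _ => ?_⟩
    rw [hzero]
    simp
  · push Not at hex
    refine ⟨1 - η', by linarith, by linarith, by linarith, q0, hq0, χ0, hχ0, h0,
      fun q2 hq2 χ2 hr2 hχ2 hp => ?_⟩
    have hnz : NeZero (q0 * q2) := ⟨mul_ne_zero (NeZero.ne q0) (NeZero.ne q2)⟩
    have hb0 : 0 < 1 - η' := by linarith
    have hb1 : 1 - η' < 1 := by linarith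
    have hr3 := prodChar_real χ0 χ2 h0 hr2
    have p1 := pos_of_no_zero q0 χ0 hχ0 h0 (1 - η') hb0 hb1
      (fun s hs1 hs2 => hex s hs1 hs2 q0 hq0 χ0 hχ0 h0)
    have p2 := pos_of_no_zero q2 χ2 hχ2 hr2 (1 - η') hb0 hb1
      (fun s hs1 hs2 => hex s hs1 hs2 q2 hq2 χ2 hχ2 hr2)
    have p3 := pos_of_no_zero (q0 * q2) (prodChar χ0 χ2) hp hr3 (1 - η') hb0 hb1
      (fun s hs1 hs2 => hex s hs1 hs2 (q0 * q2) hnz (prodChar χ0 χ2) hp hr3)
    rw [four_re _ _ _ _ (L_real q0 χ0 hχ0 h0 (1 - η') hb0) (L_real q2 χ2 hχ2 hr2 (1 - η') hb0)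
      (L_real (q0 * q2) (prodChar χ0 χ2) hp hr3 (1 - η') hb0)]
    have hz1 := hz (1 - η') (by linarith) hb1
    exact mul_nonpos_of_nonpos_of_nonneg hz1 (by positivity)

theorem siegel (ε : ℝ) (hε : 0 < ε) : ∃ c : ℝ, 0 < c ∧ ∀ q : ℕ, ∀ _ : NeZero q,
    ∀ χ : DirichletCharacter ℂ q, χ.IsPrimitive → χ ≠ 1 → RealChar χ →
    c * (q : ℝ) ^ (-ε) ≤ L1 χ := by
  by_cases hex : ∃ q0 : ℕ, ∃ _ : NeZero q0, ∃ χ0 : DirichletCharacter ℂ q0, χ0 ≠ 1 ∧ RealChar χ0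
  swap
  · push Not at hex
    exact ⟨1, one_pos, fun q hq χ _ hχ hr => absurd hr (hex q hq χ hχ)⟩
  obtain ⟨q0, hq0, χ0, hχ0, hr0⟩ := hex
  have hη : 0 < min (ε / 16) (1 / 8 : ℝ) := lt_min (by linarith) (by norm_num)
  obtain ⟨β, hβ8, hβ1, hβη, q1, hq1, χ1, hχ1, hr1, hF⟩ := exists_beta (min (ε / 16) (1 / 8))
    hη (min_le_right _ _) q0 hq0 χ0 hχ0 hr0
  obtain ⟨C, hC, hest⟩ := sg_est
  obtain ⟨cs, hcs, hsmall⟩ := small_q q1
  have hβε : 8 * (1 - β) ≤ ε / 2 := by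
    have : min (ε / 16) (1 / 8 : ℝ) ≤ ε / 16 := min_le_left _ _
    linarith
  have hL1 : 0 < L1 χ1 := L_pos q1 χ1 hχ1 hr1
  set K : ℝ := 4 + 2 / ε with hK
  have hK0 : 0 < K := by positivity
  set D : ℝ := 2 * C * L1 χ1 * K / (1 - β) with hD
  have h1β : 0 < 1 - β := by linarith
  have hD0 : 0 < D := by positivity
  have hq1R : (1 : ℝ) ≤ q1 := by exact_mod_cast NeZero.pos q1
  set c0 : ℝ := 1 / D * (q1 : ℝ) ^ (-ε) with hc0
  have hc00 : 0 < c0 := by positivity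
  refine ⟨min cs c0, lt_min hcs hc00, fun q2 hq2 χ2 hprim hχ2 hr2 => ?_⟩
  have hq2R : (1 : ℝ) ≤ q2 := by exact_mod_cast NeZero.pos q2
  have hq2e : (0 : ℝ) ≤ (q2 : ℝ) ^ (-ε) := by positivity
  rcases Nat.lt_or_ge q1 q2 with hlt | hge
  · have hp := prodChar_ne_one χ1 χ2 hprim hlt
    have hr3 := prodChar_real χ1 χ2 hr1 hr2
    have hnz : NeZero (q1 * q2) := ⟨mul_ne_zero (NeZero.ne q1) (NeZero.ne q2)⟩
    have h2 := hest q1 q2 hq1 hq2 χ1 χ2 hr1 hr2 hχ1 hχ2 hp β hβ8 hβ1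
    have h3 := hF q2 hq2 χ2 hr2 hχ2 hp
    have h4 : 1 / 2 ≤ C * (L1 χ1 * L1 χ2 * L1 (prodChar χ1 χ2)) / (1 - β) *
        ((q1 : ℝ) * q2) ^ (8 * (1 - β)) := by linarith
    have hL2 : 0 < L1 χ2 := L_pos q2 χ2 hχ2 hr2
    have hL3 : 0 < L1 (prodChar χ1 χ2) := L_pos (q1 * q2) _ hp hr3
    set x : ℝ := (q1 : ℝ) * q2 with hx
    have hx1 : 1 ≤ x := by nlinarith
    have hx0 : 0 < x := by linarith
    have h5 : L1 (prodChar χ1 χ2) ≤ K * x ^ (ε / 2) := by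
      have h6 := (le_abs_self _).trans (L1_le (q1 * q2) (prodChar χ1 χ2) hp)
      have h7 : Real.log ((q1 * q2 : ℕ) : ℝ) ≤ x ^ (ε / 2) / (ε / 2) := by
        push_cast
        exact Real.log_le_rpow_div hx0.le (by linarith)
      have h8 : (1 : ℝ) ≤ x ^ (ε / 2) := Real.one_le_rpow hx1 (by linarith)
      have h9 : x ^ (ε / 2) / (ε / 2) = 2 / ε * x ^ (ε / 2) := by
        field_simp
      rw [hK, add_mul]
      linarith
    have h10 : x ^ (8 * (1 - β)) ≤ x ^ (ε / 2) := Real.rpow_le_rpow_of_exponent_le hx1 hβε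
    have h11 : x ^ (ε / 2) * x ^ (ε / 2) = x ^ ε := by
      rw [← Real.rpow_add hx0]
      congr 1
      ring
    have hxe : 0 < x ^ (ε / 2) := Real.rpow_pos_of_pos hx0 _
    have h12 : 1 / 2 ≤ C * (L1 χ1 * L1 χ2 * (K * x ^ (ε / 2))) / (1 - β) * x ^ (ε / 2) := by
      refine h4.trans ?_
      have h13 : C * (L1 χ1 * L1 χ2 * L1 (prodChar χ1 χ2)) / (1 - β) ≤
          C * (L1 χ1 * L1 χ2 * (K * x ^ (ε / 2))) / (1 - β) := by
        refine div_le_div_of_nonneg_right ?_ h1β.le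
        refine mul_le_mul_of_nonneg_left ?_ hC.le
        exact mul_le_mul_of_nonneg_left h5 (by positivity)
      refine mul_le_mul h13 h10 (by positivity) (by positivity)
    have h14 : C * (L1 χ1 * L1 χ2 * (K * x ^ (ε / 2))) / (1 - β) * x ^ (ε / 2) =
        D / 2 * L1 χ2 * x ^ ε := by
      rw [← h11, hD]
      field_simp
    rw [h14] at h12
    have h15 : 1 / D * x ^ (-ε) ≤ L1 χ2 := by
      rw [Real.rpow_neg hx0.le, one_div, ← mul_inv, inv_le_iff_one_le_mul₀ (by positivity)]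
      nlinarith
    have h16 : x ^ (-ε) = (q1 : ℝ) ^ (-ε) * (q2 : ℝ) ^ (-ε) := by
      rw [hx, Real.mul_rpow (by linarith) (by linarith)]
    have h17 : c0 * (q2 : ℝ) ^ (-ε) ≤ L1 χ2 := by
      rw [hc0, mul_assoc, ← h16]
      exact h15
    exact (mul_le_mul_of_nonneg_right (min_le_right _ _) hq2e).trans h17
  · have h2 := hsmall q2 hge hq2 χ2 hχ2 hr2
    have h3 : (q2 : ℝ) ^ (-ε) ≤ 1 := Real.rpow_le_one_of_one_le_of_nonpos hq2R (by linarith)
    calc min cs c0 * (q2 : ℝ) ^ (-ε) ≤ cs * 1 :=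
          mul_le_mul (min_le_left _ _) h3 hq2e hcs.le
      _ ≤ L1 χ2 := by linarith

end Pool.Agent.GLI
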