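import Pool.Agent.GLI.TB
import Pool.Agent.GLI.RAsymp
import Pool.Agent.GLI.Siegel
import Pool.Agent.GLI.Ev

set_option autoImplicit false

/-!
Module CmpPrim. `prim_real`: the primitive character `χ* = χ.primitiveCharacter` modulo `q = χ.conductor ∣ N`:
`χ(p) = χ*(p)` for `p ∤ N`, `χ*` is real (every unit mod `q` lifts to a unit mod `N`), `χ* ≠ 1`.
`r_low_Sp`: r_noSplit for `χ*` with `∑ 1/p ≤ Sp χ x` (for `p ∤ N`: `χ p = χ* p`), `1 + log x ≤ 2 log N`.
-/

open Finset Filter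

namespace Pool.Agent.GLI

theorem prim_real (N : ℕ) [NeZero N] (χ : DirichletCharacter ℂ N) (h : RealChar χ) (hχ : χ ≠ 1) :
    RealChar χ.primitiveCharacter ∧ χ.primitiveCharacter ≠ 1 ∧ χ.conductor ∣ N ∧
      χ.conductor ≠ 0 ∧ ∀ p : ℕ, p.Coprime N →
        χ (p : ZMod N) = χ.primitiveCharacter (p : ZMod χ.conductor) := by
  have hd : χ.conductor ∣ N := DirichletCharacter.conductor_dvd_level χ
  have hq0 : χ.conductor ≠ 0 := fun h0 => NeZero.ne N (Nat.eq_zero_of_zero_dvd (h0 ▸ hd))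
  refine ⟨?_, ?_, hd, hq0, ?_⟩
  · intro a
    by_cases ha : IsUnit a
    · obtain ⟨u, rfl⟩ := ha
      obtain ⟨v, rfl⟩ := ZMod.unitsMap_surjective hd u
      have h1 := DirichletCharacter.changeLevel_eq_cast_of_dvd χ.primitiveCharacter hd v
      rw [DirichletCharacter.changeLevel_primitiveCharacter] at h1
      have h2 : ((ZMod.unitsMap hd v : (ZMod χ.conductor)ˣ) : ZMod χ.conductor) =
          ZMod.cast (v : ZMod N) := ZMod.unitsMap_val hd v
      rw [h2, ← h1]
      exact h _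
    · left
      exact MulChar.map_nonunit _ ha
  · intro h1
    apply hχ
    rw [← DirichletCharacter.changeLevel_primitiveCharacter χ, h1]
    exact DirichletCharacter.changeLevel_one _
  · intro p hp
    have hc : IsCoprime (p : ℤ) (N : ℤ) := Nat.isCoprime_iff_coprime.mpr hp
    have h1 := DirichletCharacter.primitiveCharacter_apply_of_isCoprime χ hc
    simpa using h1.symm

theorem r_low_Sp (δ : ℝ) (hδ : 0 < δ) : ∀ᶠ N : ℕ in atTop, ∀ _ : NeZero N,
    ∀ χ : DirichletCharacter ℂ N, RealChar χ → χ ≠ 1 → ∀ x : ℕ, 1 ≤ x → x ≤ N →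
    ∑ n ∈ Icc 1 x, rr χ.primitiveCharacter n ≤
      (N : ℝ) ^ δ * Real.sqrt x + 8 * x * Real.log N * Sp χ x := by
  classical
  filter_upwards [r_noSplit δ hδ, ev_log 1] with N hN hlog
  intro hN0 χ hr hχ x hx hxN
  obtain ⟨h1, h2, h3, h4, h5⟩ := prim_real N χ hr hχ
  have hne : NeZero χ.conductor := ⟨h4⟩
  have h6 := hN χ.conductor hne h3 χ.primitiveCharacter h1 x hx
  refine h6.trans ?_
  have hsub : ((Icc 1 x).filter (fun p => p.Prime ∧ ¬ p ∣ N ∧
      χ.primitiveCharacter (p : ZMod χ.conductor) = 1)) ⊆ split χ x := by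
    intro p hp
    rw [mem_filter] at hp
    unfold split
    rw [mem_filter]
    refine ⟨hp.1, hp.2.1, ?_⟩
    rw [h5 p ((Nat.Prime.coprime_iff_not_dvd hp.2.1).mpr hp.2.2.1)]
    exact hp.2.2.2
  have hsum : ∑ p ∈ (Icc 1 x).filter (fun p => p.Prime ∧ ¬ p ∣ N ∧
      χ.primitiveCharacter (p : ZMod χ.conductor) = 1), (1 : ℝ) / p ≤ Sp χ x := by
    unfold Sp
    exact sum_le_sum_of_subset_of_nonneg hsub fun i _ _ => by positivity
  have hSp0 : 0 ≤ Sp χ x := sum_nonneg fun i _ => by positivity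
  have hx0 : (1 : ℝ) ≤ x := by exact_mod_cast hx
  have hlx0 : 0 ≤ Real.log x := Real.log_nonneg hx0
  have hlx : Real.log x ≤ Real.log N := Real.log_le_log (by linarith) (by exact_mod_cast hxN)
  have h7 : 4 * (x : ℝ) * (1 + Real.log x) ≤ 8 * x * Real.log N := by
    nlinarith
  have h8 : 4 * (x : ℝ) * (1 + Real.log x) * ∑ p ∈ (Icc 1 x).filter (fun p => p.Prime ∧ ¬ p ∣ N ∧
      χ.primitiveCharacter (p : ZMod χ.conductor) = 1), (1 : ℝ) / p ≤
      8 * x * Real.log N * Sp χ x := by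
    refine mul_le_mul h7 hsum (sum_nonneg fun i _ => by positivity) ?_
    positivity
  refine add_le_add le_rfl ?_
  convert h8 using 4


end Pool.Agent.GLI
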