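import Pool.Agent.GLI.Ev
import Pool.Agent.CoprimeSieve.Mertens

set_option autoImplicit false

/-!
Module TotB. For `z ≥ N^δ`, `∑_{m ≤ z, (m,N)=1} 1/m ≤ ∏_{p ≤ z, p ∤ N} (1-1/p)^{-1} ≤ C log z ∏_{p ∣ N, p ≤ z} (1-1/p)
≤ 2 C log z φ(N)/N`, since `∏_{p ∣ N, p > z} (1-1/p) ≥ 1 - ω(N)/z ≥ 1/2`. Mertens: `Pool.Agent.CoprimeSieve.Mertens`;
`∏_{p ≤ z} (1-1/p)^{-1} ≤ exp(∑ 1/p + ∑ 1/(p(p-1)))`.
-/

open Finset Filter

namespace Pool.Agent.GLI

/-- The reciprocals of integers composed of the primes of `S`. -/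
theorem totb_euler (S : Finset ℕ) (hS : ∀ p ∈ S, p.Prime) (T : Finset ℕ)
    (hT : ∀ m ∈ T, m ≠ 0 ∧ m.primeFactors ⊆ S) :
    ∑ m ∈ T, (1 : ℝ) / m ≤ ∏ p ∈ S, (1 - (1 : ℝ) / p)⁻¹ := by
  let f : ℕ →* ℝ :=
    { toFun := fun m => (1 : ℝ) / m
      map_one' := by simp
      map_mul' := by
        intro a b
        push_cast
        rw [one_div_mul_one_div] }
  have hfdef : ∀ m : ℕ, f m = (1 : ℝ) / m := fun m => rfl
  have hf : ∀ {p : ℕ}, p.Prime → ‖f p‖ < 1 := by
    intro p hp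
    have h2 : (2 : ℝ) ≤ p := by exact_mod_cast hp.two_le
    rw [hfdef, Real.norm_of_nonneg (by positivity), div_lt_one (by linarith)]
    linarith
  have h := (EulerProduct.summable_and_hasSum_factoredNumbers_prod_filter_prime_geometric
    (f := f) hf S).2
  rw [Finset.filter_true_of_mem hS] at h
  have h3 := sum_le_hasSum (T.subtype (fun m => m ∈ Nat.factoredNumbers S))
    (fun i _ => by rw [hfdef]; positivity) h
  refine le_trans (le_of_eq ?_) h3
  have h4 := Finset.sum_subtype_eq_sum_filter (s := T) (p := fun m => m ∈ Nat.factoredNumbers S)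
    (fun m : ℕ => f m)
  rw [h4]
  have h5 : T.filter (fun m => m ∈ Nat.factoredNumbers S) = T := by
    apply Finset.filter_true_of_mem
    intro m hm
    exact Nat.mem_factoredNumbers_of_primeFactors_subset (hT m hm).1 (hT m hm).2
  rw [h5]
  rfl

theorem totb_sum_aux (z : ℕ) : ∑ p ∈ (Icc 1 z).filter Nat.Prime, (1 : ℝ) / (p * (p - 1)) ≤ 1 := by
  have h1 : ∑ p ∈ (Icc 1 z).filter Nat.Prime, (1 : ℝ) / (p * (p - 1)) ≤
      ∑ p ∈ Icc 2 z, ((1 : ℝ) / ((p : ℝ) - 1) - 1 / p) := by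
    have h2 : (Icc 1 z).filter Nat.Prime ⊆ Icc 2 z := by
      intro p hp
      rw [mem_filter, mem_Icc] at hp
      exact mem_Icc.mpr ⟨hp.2.two_le, hp.1.2⟩
    have h3 : ∀ p ∈ Icc 2 z, (1 : ℝ) / (p * (p - 1)) = (1 : ℝ) / ((p : ℝ) - 1) - 1 / p := by
      intro p hp
      have h2 : (2 : ℝ) ≤ p := by exact_mod_cast (mem_Icc.mp hp).1
      have h4 : (p : ℝ) - 1 ≠ 0 := by linarith
      have h5 : (p : ℝ) ≠ 0 := by linarith
      field_simp
      ring
    rw [← Finset.sum_congr rfl h3]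
    apply Finset.sum_le_sum_of_subset_of_nonneg h2
    intro p hp _
    have h2 : (2 : ℝ) ≤ p := by exact_mod_cast (mem_Icc.mp hp).1
    have h4 : (0 : ℝ) < (p : ℝ) - 1 := by linarith
    positivity
  refine h1.trans ?_
  have key : ∀ n : ℕ, ∑ p ∈ Icc 2 n, ((1 : ℝ) / ((p : ℝ) - 1) - 1 / p) ≤ 1 - 1 / (max n 1 : ℕ) := by
    intro n
    induction n with
    | zero => simp
    | succ k ih =>
      rcases Nat.lt_or_ge k 1 with hk | hk
      · have : k = 0 := by omega
        subst this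
        simp
      · rw [← Finset.insert_Icc_right_eq_Icc_add_one (by omega), Finset.sum_insert (by simp)]
        rw [max_eq_left (by omega)] at ih ⊢
        push_cast
        have : (k : ℝ) + 1 - 1 = k := by ring
        rw [this]
        linarith
  have := key z
  have h6 : (0 : ℝ) ≤ 1 / (max z 1 : ℕ) := by positivity
  linarith

/-- Mertens, in product form. -/
theorem totb_mertens : ∃ C : ℝ, 0 < C ∧ ∀ z : ℕ, 2 ≤ z →
    ∏ p ∈ (Icc 1 z).filter Nat.Prime, (1 - (1 : ℝ) / p)⁻¹ ≤ C * Real.log z := by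
  obtain ⟨C, hC, hM⟩ := CoprimeSieve.mertens_second_upper
  have hl2 : 0 < Real.log 2 := Real.log_pos (by norm_num)
  refine ⟨Real.exp (3 / 2 + C / Real.log 2) / Real.log 2, by positivity, fun z hz => ?_⟩
  have hz2 : (2 : ℝ) ≤ z := by exact_mod_cast hz
  have hlz : 0 < Real.log z := Real.log_pos (by linarith)
  have h1 := hM 2 z le_rfl hz2
  have h2 : ∏ p ∈ (Icc 1 z).filter Nat.Prime, (1 - (1 : ℝ) / p)⁻¹ ≤
      Real.exp (∑ p ∈ (Icc 1 z).filter Nat.Prime, ((1 : ℝ) / p + 1 / (p * (p - 1)))) := by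
    rw [Real.exp_sum]
    apply Finset.prod_le_prod
    · intro p hp
      have h2 : (2 : ℝ) ≤ p := by exact_mod_cast (mem_filter.mp hp).2.two_le
      have : (1 : ℝ) / p ≤ 1 := by rw [div_le_one (by linarith)]; linarith
      exact inv_nonneg.mpr (by linarith)
    · intro p hp
      have h2 : (2 : ℝ) ≤ p := by exact_mod_cast (mem_filter.mp hp).2.two_le
      have h4 : (p : ℝ) - 1 ≠ 0 := by linarith
      have h5 : (p : ℝ) ≠ 0 := by linarith
      have e : (1 - (1 : ℝ) / p)⁻¹ = ((1 : ℝ) / p + 1 / (p * (p - 1))) + 1 := by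
        have h6 : (1 - (1 : ℝ) / p) = (p - 1) / p := by field_simp
        rw [h6, inv_div]
        field_simp
        ring
      rw [e]
      exact Real.add_one_le_exp _
  refine h2.trans ?_
  have h3 : (Icc 1 z).filter Nat.Prime = CoprimeSieve.pr (z : ℝ) := by
    ext p
    rw [CoprimeSieve.mem_pr, mem_filter, mem_Icc]
    constructor
    · rintro ⟨h1, h2⟩
      exact ⟨h2, by exact_mod_cast h1.2⟩
    · rintro ⟨h1, h2⟩
      exact ⟨⟨h1.one_lt.le, by exact_mod_cast h2⟩, h1⟩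
  have h4 : ∑ p ∈ (Icc 1 z).filter Nat.Prime, (1 : ℝ) / p ≤
      1 / 2 + (Real.log (Real.log z / Real.log 2) + C / Real.log 2) := by
    rw [h3, ← Finset.sum_filter_add_sum_filter_not (CoprimeSieve.pr (z : ℝ))
      (fun p : ℕ => (2 : ℝ) < (p : ℝ)), add_comm]
    have : ((CoprimeSieve.pr (z : ℝ)).filter (fun p : ℕ => ¬ (2 : ℝ) < (p : ℝ))) ⊆ {2} := by
      intro p hp
      rw [mem_filter, CoprimeSieve.mem_pr] at hp
      rw [mem_singleton]
      have h3 : (p : ℝ) ≤ 2 := not_lt.mp hp.2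
      have h4 : p ≤ 2 := by exact_mod_cast h3
      have := hp.1.1.two_le
      omega
    have h5 := Finset.sum_le_sum_of_subset_of_nonneg (f := fun p : ℕ => (1 : ℝ) / p) this
      (fun i _ _ => by positivity)
    rw [Finset.sum_singleton] at h5
    push_cast at h5
    linarith
  rw [Finset.sum_add_distrib]
  have h5 := totb_sum_aux z
  calc Real.exp (∑ p ∈ (Icc 1 z).filter Nat.Prime, (1 : ℝ) / p +
        ∑ p ∈ (Icc 1 z).filter Nat.Prime, (1 : ℝ) / (p * (p - 1)))
      ≤ Real.exp ((3 / 2 + C / Real.log 2) + Real.log (Real.log z / Real.log 2)) := by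
        apply Real.exp_le_exp.mpr
        linarith
    _ = Real.exp (3 / 2 + C / Real.log 2) * (Real.log z / Real.log 2) := by
        rw [Real.exp_add, Real.exp_log (by positivity)]
    _ = _ := by ring

theorem totb_one_sub (S : Finset ℕ) (a : ℕ → ℝ) (h0 : ∀ p ∈ S, 0 ≤ a p) (h1 : ∀ p ∈ S, a p ≤ 1) :
    1 - ∑ p ∈ S, a p ≤ ∏ p ∈ S, (1 - a p) := by
  classical
  induction S using Finset.induction_on with
  | empty => simp
  | insert q S hq ih =>
    rw [Finset.sum_insert hq, Finset.prod_insert hq]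
    have ih' := ih (fun p hp => h0 p (Finset.mem_insert_of_mem hp))
      (fun p hp => h1 p (Finset.mem_insert_of_mem hp))
    have hq0 := h0 q (Finset.mem_insert_self q S)
    have hq1 := h1 q (Finset.mem_insert_self q S)
    have hs : 0 ≤ ∑ p ∈ S, a p :=
      Finset.sum_nonneg fun p hp => h0 p (Finset.mem_insert_of_mem hp)
    have h2 : (1 - a q) * (1 - ∑ p ∈ S, a p) ≤ (1 - a q) * ∏ p ∈ S, (1 - a p) :=
      mul_le_mul_of_nonneg_left ih' (by linarith)
    nlinarith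

theorem totb_omega (N : ℕ) (hN : 1 ≤ N) : (N.primeFactors.card : ℝ) ≤ 2 * Real.log N := by
  have h1 : 2 ^ N.primeFactors.card ≤ N := by
    calc 2 ^ N.primeFactors.card = ∏ _p ∈ N.primeFactors, 2 := by rw [Finset.prod_const]
      _ ≤ ∏ p ∈ N.primeFactors, p := Finset.prod_le_prod' fun p hp =>
          (Nat.prime_of_mem_primeFactors hp).two_le
      _ ≤ N := Nat.le_of_dvd hN (Nat.prod_primeFactors_dvd N)
  have h2 : ((2 : ℝ) ^ N.primeFactors.card) ≤ N := by exact_mod_cast h1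
  have h3 := Real.log_le_log (by positivity) h2
  rw [Real.log_pow] at h3
  have h4 := Real.log_two_gt_d9
  have h5 : (0 : ℝ) ≤ N.primeFactors.card := by positivity
  nlinarith

theorem recip_cop : ∃ C : ℝ, 0 < C ∧ ∀ δ : ℝ, 0 < δ → ∀ᶠ N : ℕ in atTop, ∀ z : ℕ,
    (N : ℝ) ^ δ ≤ z →
    ∑ m ∈ (Icc 1 z).filter (fun m => m.Coprime N), (1 : ℝ) / m ≤
      C * Real.log z * (N.totient / N) := by
  obtain ⟨C, hC, hM⟩ := totb_mertens
  refine ⟨2 * C, by positivity, fun δ hδ => ?_⟩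
  filter_upwards [tendsto_natCast_atTop_atTop (R := ℝ) |>.eventually (ev_real δ hδ 1 4),
    eventually_ge_atTop 3] with N hN hN3 z hz
  have hN3' : (3 : ℝ) ≤ N := by exact_mod_cast hN3
  have hlN : 1 ≤ Real.log N := by
    rw [Real.le_log_iff_exp_le (by linarith)]
    have := Real.exp_one_lt_d9
    linarith
  rw [pow_one] at hN
  have hz4 : 4 * Real.log N ≤ z := hN.trans hz
  have hz2' : (2 : ℝ) ≤ z := by linarith
  have hz2 : 2 ≤ z := by exact_mod_cast hz2'
  have hom := totb_omega N (by omega)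
  have hM' := hM z hz2
  set P : Finset ℕ := (Icc 1 z).filter Nat.Prime with hP
  have hone : ∀ p : ℕ, p.Prime → (0 : ℝ) < 1 - 1 / p := by
    intro p hp
    have h2 : (2 : ℝ) ≤ p := by exact_mod_cast hp.two_le
    have : (1 : ℝ) / p < 1 := by rw [div_lt_one (by linarith)]; linarith
    linarith
  -- the Euler product
  have h1 : ∑ m ∈ (Icc 1 z).filter (fun m => m.Coprime N), (1 : ℝ) / m ≤
      ∏ p ∈ P.filter (fun p => ¬ p ∣ N), (1 - (1 : ℝ) / p)⁻¹ := by
    apply totb_euler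
    · intro p hp
      exact (mem_filter.mp (mem_filter.mp hp).1).2
    · intro m hm
      rw [mem_filter, mem_Icc] at hm
      refine ⟨by omega, fun p hp => ?_⟩
      have hpp := Nat.prime_of_mem_primeFactors hp
      have hpm := Nat.dvd_of_mem_primeFactors hp
      rw [mem_filter, hP, mem_filter, mem_Icc]
      refine ⟨⟨⟨hpp.one_lt.le, (Nat.le_of_dvd (by omega) hpm).trans hm.1.2⟩, hpp⟩, fun hd => ?_⟩
      have := Nat.dvd_gcd hpm hd
      rw [hm.2] at this
      exact hpp.one_lt.ne' (Nat.dvd_one.mp this)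
  have h2 : ∏ p ∈ P.filter (fun p => ¬ p ∣ N), (1 - (1 : ℝ) / p)⁻¹ =
      (∏ p ∈ P, (1 - (1 : ℝ) / p)⁻¹) * ∏ p ∈ P.filter (fun p => p ∣ N), (1 - (1 : ℝ) / p) := by
    rw [← Finset.prod_filter_mul_prod_filter_not P (fun p => p ∣ N)]
    have h3 : ∏ p ∈ P.filter (fun p => p ∣ N), (1 - (1 : ℝ) / p) ≠ 0 := by
      apply ne_of_gt
      apply Finset.prod_pos
      intro p hp
      exact hone p (mem_filter.mp (mem_filter.mp hp).1).2
    rw [Finset.prod_inv_distrib (f := fun p : ℕ => 1 - (1 : ℝ) / p) (s := P.filter (fun p => p ∣ N))]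
    rw [mul_comm (∏ p ∈ P.filter (fun p => p ∣ N), (1 - (1 : ℝ) / p))⁻¹, mul_assoc,
      inv_mul_cancel₀ h3, mul_one]
  -- the totient
  have h3 : (N.totient : ℝ) / N = ∏ p ∈ N.primeFactors, (1 - (1 : ℝ) / p) := by
    have h4 := Nat.totient_eq_mul_prod_factors N
    have h5 : (N.totient : ℝ) = N * ∏ p ∈ N.primeFactors, (1 - (1 : ℝ) / p) := by
      have h6 : ((N.totient : ℚ) : ℝ) = ((N * ∏ p ∈ N.primeFactors, (1 - (p : ℚ)⁻¹) : ℚ) : ℝ) := by
        rw [h4]
      push_cast at h6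
      simpa [one_div] using h6
    rw [h5]
    have : (N : ℝ) ≠ 0 := by linarith
    field_simp
  have h4 : ∏ p ∈ N.primeFactors, (1 - (1 : ℝ) / p) =
      (∏ p ∈ P.filter (fun p => p ∣ N), (1 - (1 : ℝ) / p)) *
      ∏ p ∈ N.primeFactors.filter (fun p => ¬ p ≤ z), (1 - (1 : ℝ) / p) := by
    rw [← Finset.prod_filter_mul_prod_filter_not N.primeFactors (fun p => p ≤ z)]
    congr 1
    apply Finset.prod_congr _ (fun _ _ => rfl)
    ext p
    rw [mem_filter, mem_filter, hP, mem_filter, mem_Icc, Nat.mem_primeFactors]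
    constructor
    · rintro ⟨⟨h1, h2, _⟩, h4⟩
      exact ⟨⟨⟨h1.one_lt.le, h4⟩, h1⟩, h2⟩
    · rintro ⟨⟨⟨_, h2⟩, h3⟩, h4⟩
      exact ⟨⟨h3, h4, by omega⟩, h2⟩
  have h5 : (1 : ℝ) / 2 ≤ ∏ p ∈ N.primeFactors.filter (fun p => ¬ p ≤ z), (1 - (1 : ℝ) / p) := by
    refine le_trans ?_ (totb_one_sub _ (fun p => (1 : ℝ) / p) (fun p _ => by positivity) ?_)
    · have h6 : ∑ p ∈ N.primeFactors.filter (fun p => ¬ p ≤ z), (1 : ℝ) / p ≤
          ∑ _p ∈ N.primeFactors.filter (fun p => ¬ p ≤ z), (1 : ℝ) / z := by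
        apply Finset.sum_le_sum
        intro p hp
        have h7 : z ≤ p := (not_le.mp (mem_filter.mp hp).2).le
        have h8 : (z : ℝ) ≤ p := by exact_mod_cast h7
        exact one_div_le_one_div_of_le (by linarith) h8
      rw [Finset.sum_const, nsmul_eq_mul] at h6
      have h7 : ((N.primeFactors.filter (fun p => ¬ p ≤ z)).card : ℝ) ≤ N.primeFactors.card := by
        exact_mod_cast Finset.card_filter_le _ _
      have h8 : ((N.primeFactors.filter (fun p => ¬ p ≤ z)).card : ℝ) * (1 / z) ≤ 1 / 2 := by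
        rw [mul_one_div, div_le_iff₀ (by linarith)]
        linarith
      linarith
    · intro p hp
      have h2 : (2 : ℝ) ≤ p := by
        exact_mod_cast (Nat.prime_of_mem_primeFactors (mem_filter.mp hp).1).two_le
      rw [div_le_one (by linarith)]
      linarith
  -- conclusion
  have h6 : 0 ≤ ∏ p ∈ P.filter (fun p => p ∣ N), (1 - (1 : ℝ) / p) := by
    apply Finset.prod_nonneg
    intro p hp
    exact (hone p (mem_filter.mp (mem_filter.mp hp).1).2).le
  have h7 : ∏ p ∈ P.filter (fun p => p ∣ N), (1 - (1 : ℝ) / p) ≤ 2 * (N.totient / N) := by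
    rw [h3, h4]
    nlinarith
  have hlz : 0 ≤ Real.log z := Real.log_nonneg (by linarith)
  rw [h2] at h1
  refine h1.trans ?_
  calc (∏ p ∈ P, (1 - (1 : ℝ) / p)⁻¹) * ∏ p ∈ P.filter (fun p => p ∣ N), (1 - (1 : ℝ) / p)
      ≤ (C * Real.log z) * (2 * (N.totient / N)) :=
        mul_le_mul hM' h7 h6 (by positivity)
    _ = 2 * C * Real.log z * (N.totient / N) := by ring

end Pool.Agent.GLI
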