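import Pool.Agent.GLI.PV
import Pool.Agent.GLI.TotB
import Pool.Agent.GLI.Cheb

set_option autoImplicit false

/-!
Module Vino (Vinogradov's trick). Suppose `ψ ≠ 1`. `x = ⌊N^(1/2+δ)⌋`, `Y = N^(1/2-δ)`.
`∑_{n<x,(n,N)=1} (1 - Re ψ(n)) ≤ ∑_{p ≤ Y, p ∤ N} |1-ψ(p)| ∑_{k≥1} #{n < x : p^k ∣ n, (n,N)=1} + 2 #{n < x, (n,N)=1, ∃ p > Y, p ∣ n}`
(telescoping: `|1 - ψ(∏ p_i)| ≤ ∑ |1 - ψ(p_i)|`).
First sum: `k = 1`: `#{m < x/p, (m,N)=1} ≤ 2 (x/p) φ(N)/N` (cop_count, `x/p ≥ N^(2δ)`); `k ≥ 2`: `p ≤ Y` with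
`x/p^k ≥ N^δ` the same bound `2 (x/p^k) φ(N)/N`, otherwise `≤ x/p^k + 1`... altogether `≤ C c0 x φ(N)/N + x N^(-δ/2)`.
Second: `n = p m`, `m ≤ N^(2δ)`, `∑_m π(x/m) ≤ ∑_m 8 (x/m)/log N ≤ C δ x φ(N)/N` (recip_cop, cheb).
So `Re ∑_{n<x} ψ(n) ≥ (1/2) x φ(N)/N ≥ N^(1/2 + 3δ/4)`, against pv with `δ/2`. `δ` and `c0` are small constants.
-/

open Finset Filter

namespace Pool.Agent.GLI

namespace Vino

theorem one_sub_prod (f : ℕ → ℂ) (l : List ℕ) (hf : ∀ a, ‖f a‖ ≤ 1) :
    ‖1 - (l.map f).prod‖ ≤ (l.map fun a => ‖1 - f a‖).sum := by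
  induction l with
  | nil => simp
  | cons a l ih =>
    rw [List.map_cons, List.prod_cons, List.map_cons, List.sum_cons]
    have e : 1 - f a * (l.map f).prod = (1 - f a) + f a * (1 - (l.map f).prod) := by ring
    rw [e]
    refine (norm_add_le _ _).trans ?_
    rw [norm_mul]
    have h1 : ‖f a‖ * ‖1 - (l.map f).prod‖ ≤ 1 * ‖1 - (l.map f).prod‖ :=
      mul_le_mul_of_nonneg_right (hf a) (norm_nonneg _)
    linarith

theorem char_prod {N : ℕ} (ψ : DirichletCharacter ℂ N) (l : List ℕ) :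
    ψ ((l.prod : ℕ) : ZMod N) = (l.map fun a : ℕ => ψ (a : ZMod N)).prod := by
  induction l with
  | nil => simp
  | cons a l ih =>
    rw [List.prod_cons, List.map_cons, List.prod_cons, ← ih]
    push_cast
    rw [map_mul]

theorem one_sub_char {N : ℕ} (ψ : DirichletCharacter ℂ N) {n : ℕ} (hn : n ≠ 0) :
    ‖1 - ψ (n : ZMod N)‖ ≤ ∑ p ∈ n.primeFactors, (n.factorization p : ℝ) * ‖1 - ψ (p : ZMod N)‖ := by
  have h1 := one_sub_prod (fun a : ℕ => ψ (a : ZMod N)) n.primeFactorsList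
    (fun a => DirichletCharacter.norm_le_one ψ _)
  rw [← char_prod, Nat.prod_primeFactorsList hn] at h1
  refine h1.trans (le_of_eq ?_)
  rw [Finset.sum_list_map_count]
  refine Finset.sum_congr rfl fun p _ => ?_
  rw [Nat.primeFactorsList_count_eq, nsmul_eq_mul]

theorem fact_le {p n K x : ℕ} (hp : p.Prime) (hn : n ≠ 0) (hx : n < x) (hK : x ≤ 2 ^ K) :
    n.factorization p ≤ ((range K).filter fun k => p ^ (k + 1) ∣ n).card := by
  have h : range (n.factorization p) ⊆ (range K).filter fun k => p ^ (k + 1) ∣ n := by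
    intro k hk
    rw [mem_range] at hk
    have hd : p ^ (k + 1) ∣ n := (pow_dvd_pow p hk).trans (Nat.ordProj_dvd n p)
    rw [mem_filter, mem_range]
    refine ⟨?_, hd⟩
    have h1 := Nat.le_of_dvd (Nat.pos_of_ne_zero hn) hd
    have h2 : 2 ^ (k + 1) ≤ p ^ (k + 1) := Nat.pow_le_pow_left hp.two_le _
    have h3 : 2 ^ (k + 1) < 2 ^ K := by omega
    have h4 := (Nat.pow_lt_pow_iff_right (by norm_num : 1 < 2)).1 h3
    omega
  have := card_le_card h
  rwa [card_range] at this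

theorem geom {p K : ℕ} (hp : 2 ≤ p) : ∑ k ∈ range K, (1 : ℝ) / (p : ℝ) ^ (k + 1) ≤ 2 / p := by
  have hp0 : (0 : ℝ) < p := by positivity
  have hp2 : (2 : ℝ) ≤ p := by exact_mod_cast hp
  have h1 : ∀ k ∈ range K, (1 : ℝ) / (p : ℝ) ^ (k + 1) ≤ (1 / p) * (1 / 2) ^ k := by
    intro k _
    rw [pow_succ, one_div_pow, ← one_div_mul_one_div, mul_comm]
    refine mul_le_mul_of_nonneg_left ?_ (by positivity)
    exact one_div_le_one_div_of_le (by positivity) (pow_le_pow_left₀ (by norm_num) hp2 k)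
  refine (sum_le_sum h1).trans ?_
  rw [← mul_sum]
  have := sum_geometric_two_le K
  calc (1 / (p : ℝ)) * ∑ k ∈ range K, (1 / 2 : ℝ) ^ k ≤ (1 / p) * 2 :=
        mul_le_mul_of_nonneg_left this (by positivity)
    _ = 2 / p := by ring

/-- multiples of `d` -/
theorem mult_count {N x d : ℕ} :
    (((range x).filter fun n => n.Coprime N).filter fun n => d ∣ n).card ≤
      ((range (x / d + 1)).filter fun n => n.Coprime N).card := by
  refine card_le_card_of_injOn (fun n => n / d) ?_ ?_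
  · intro n hn
    simp only [coe_filter, mem_filter, mem_range, Set.mem_ofPred_eq] at hn ⊢
    obtain ⟨⟨h1, h2⟩, h3⟩ := hn
    refine ⟨Nat.lt_succ_of_le (Nat.div_le_div_right h1.le), ?_⟩
    exact Nat.Coprime.coprime_dvd_left (Nat.div_dvd_of_dvd h3) h2
  · intro n hn m hm h
    simp only [coe_filter, mem_filter, mem_range, Set.mem_ofPred_eq] at hn hm
    exact (Nat.div_left_inj hn.2 hm.2).1 h

theorem first {N x K p : ℕ} (hN : 1 < N) {ρ e : ℝ} (hρ0 : 0 ≤ ρ) (hρ1 : ρ ≤ 1)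
    (hcop : ∀ y : ℕ, (((range y).filter fun n => n.Coprime N).card : ℝ) ≤ y * ρ + e)
    (hp : p.Prime) (hK : x ≤ 2 ^ K) :
    ∑ n ∈ (range x).filter (fun n => n.Coprime N), (n.factorization p : ℝ) ≤
      2 * x * ρ / p + K * (1 + e) := by
  have hp0 : (0 : ℝ) < p := by exact_mod_cast hp.pos
  have h1 : ∀ n ∈ (range x).filter (fun n => n.Coprime N), (n.factorization p : ℝ) ≤
      ∑ k ∈ range K, if p ^ (k + 1) ∣ n then (1 : ℝ) else 0 := by
    intro n hn
    rw [mem_filter, mem_range] at hn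
    have hn0 : n ≠ 0 := by
      rintro rfl
      rw [Nat.coprime_zero_left] at hn
      omega
    have := fact_le hp hn0 hn.1 hK
    rw [Finset.sum_boole]
    exact_mod_cast this
  refine (sum_le_sum h1).trans ?_
  rw [sum_comm]
  have h2 : ∀ k ∈ range K, (∑ n ∈ (range x).filter (fun n => n.Coprime N),
      if p ^ (k + 1) ∣ n then (1 : ℝ) else 0) ≤ x * ρ * (1 / (p : ℝ) ^ (k + 1)) + (1 + e) := by
    intro k _
    rw [Finset.sum_boole]
    have h3 := mult_count (N := N) (x := x) (d := p ^ (k + 1))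
    have h4 := hcop (x / p ^ (k + 1) + 1)
    have h5 : ((x / p ^ (k + 1) : ℕ) : ℝ) ≤ x / (p : ℝ) ^ (k + 1) := by
      have := Nat.cast_div_le (α := ℝ) (m := x) (n := p ^ (k + 1))
      push_cast at this
      exact this
    have h6 : ((((range x).filter (fun n : ℕ => n.Coprime N)).filter fun n : ℕ => p ^ (k + 1) ∣ n).card : ℝ) ≤
        ((range (x / p ^ (k + 1) + 1)).filter fun n : ℕ => n.Coprime N).card := by
      exact_mod_cast h3
    refine h6.trans (h4.trans ?_)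
    push_cast
    have h7 : ((x / p ^ (k + 1) : ℕ) : ℝ) * ρ ≤ x / (p : ℝ) ^ (k + 1) * ρ :=
      mul_le_mul_of_nonneg_right h5 hρ0
    have h8 : (x : ℝ) / (p : ℝ) ^ (k + 1) * ρ = x * ρ * (1 / (p : ℝ) ^ (k + 1)) := by ring
    linarith
  refine (sum_le_sum h2).trans ?_
  rw [sum_add_distrib, ← mul_sum, sum_const, card_range, nsmul_eq_mul]
  have h9 := geom (p := p) (K := K) hp.two_le
  have h10 : (x : ℝ) * ρ * ∑ k ∈ range K, 1 / (p : ℝ) ^ (k + 1) ≤ x * ρ * (2 / p) :=
    mul_le_mul_of_nonneg_left h9 (by positivity)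
  have h11 : (x : ℝ) * ρ * (2 / p) = 2 * x * ρ / p := by ring
  linarith

open Classical in
theorem second {N x Y : ℕ} (hN : 1 < N) (hY : 0 < Y) :
    (((range x).filter fun n : ℕ => n.Coprime N).filter
      fun n : ℕ => ∃ p : ℕ, p.Prime ∧ Y < p ∧ p ∣ n).card ≤
      ∑ m ∈ (Icc 1 (x / Y)).filter (fun m => m.Coprime N),
        ((Icc 1 (x / m)).filter Nat.Prime).card := by
  classical
  rw [← card_sigma]
  refine (card_le_card ?_).trans (card_image_le (f := fun q : (_ : ℕ) × ℕ => q.1 * q.2))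
  intro n hn
  simp only [mem_filter, mem_range] at hn
  obtain ⟨⟨h1, h2⟩, p, hp, hYp, m, rfl⟩ := hn
  have hm0 : 0 < m := by
    rcases Nat.eq_zero_or_pos m with rfl | h
    · rw [mul_zero, Nat.coprime_zero_left] at h2
      omega
    · exact h
  rw [mem_image]
  refine ⟨⟨m, p⟩, ?_, mul_comm _ _⟩
  simp only [mem_sigma, mem_filter, mem_Icc]
  refine ⟨⟨⟨hm0, ?_⟩, Nat.Coprime.coprime_dvd_left (Dvd.intro_left p rfl) h2⟩, ⟨hp.one_lt.le, ?_⟩, hp⟩
  · rw [Nat.le_div_iff_mul_le hY]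
    have : m * Y ≤ m * p := Nat.mul_le_mul_left m hYp.le
    nlinarith
  · rw [Nat.le_div_iff_mul_le hm0]
    exact h1.le

open Classical in
theorem dist_sum {N x Y : ℕ} (hN : 1 < N) (ψ : DirichletCharacter ℂ N) :
    ∑ n ∈ (range x).filter (fun n => n.Coprime N), ‖1 - ψ (n : ZMod N)‖ ≤
      2 * ((((range x).filter fun n : ℕ => n.Coprime N).filter
        fun n : ℕ => ∃ p : ℕ, p.Prime ∧ Y < p ∧ p ∣ n).card : ℝ) +
      ∑ p ∈ (Icc 1 Y).filter (fun p => p.Prime ∧ ¬ p ∣ N), ‖1 - ψ (p : ZMod N)‖ *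
        ∑ n ∈ (range x).filter (fun n => n.Coprime N), (n.factorization p : ℝ) := by
  classical
  have h1 : ∀ n ∈ (range x).filter (fun n => n.Coprime N), ‖1 - ψ (n : ZMod N)‖ ≤
      2 * (if ∃ p : ℕ, p.Prime ∧ Y < p ∧ p ∣ n then (1 : ℝ) else 0) +
      ∑ p ∈ (Icc 1 Y).filter (fun p => p.Prime ∧ ¬ p ∣ N), ‖1 - ψ (p : ZMod N)‖ *
        (n.factorization p : ℝ) := by
    intro n hn
    rw [mem_filter, mem_range] at hn
    have hn0 : n ≠ 0 := by
      rintro rfl
      rw [Nat.coprime_zero_left] at hn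
      omega
    have hnn : ∀ p ∈ (Icc 1 Y).filter (fun p => p.Prime ∧ ¬ p ∣ N),
        0 ≤ ‖1 - ψ (p : ZMod N)‖ * (n.factorization p : ℝ) := fun p _ => by positivity
    by_cases hb : ∃ p : ℕ, p.Prime ∧ Y < p ∧ p ∣ n
    · rw [if_pos hb]
      have h2 : ‖1 - ψ (n : ZMod N)‖ ≤ 2 := by
        refine (norm_sub_le _ _).trans ?_
        have := DirichletCharacter.norm_le_one ψ (n : ZMod N)
        rw [norm_one]
        linarith
      have h3 := sum_nonneg hnn
      linarith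
    · rw [if_neg hb, mul_zero, zero_add]
      refine (one_sub_char ψ hn0).trans ?_
      have h4 : n.primeFactors ⊆ (Icc 1 Y).filter (fun p => p.Prime ∧ ¬ p ∣ N) := by
        intro p hp
        have hpp := Nat.prime_of_mem_primeFactors hp
        have hpd := Nat.dvd_of_mem_primeFactors hp
        rw [mem_filter, mem_Icc]
        refine ⟨⟨hpp.one_lt.le, ?_⟩, hpp, ?_⟩
        · by_contra hcon
          exact hb ⟨p, hpp, by omega, hpd⟩
        · intro hpN
          have := Nat.eq_one_of_dvd_coprimes hn.2 hpd hpN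
          exact hpp.one_lt.ne' this
      refine le_trans (le_of_eq ?_) (sum_le_sum_of_subset_of_nonneg h4 fun p hp _ => hnn p hp)
      exact sum_congr rfl fun p _ => mul_comm _ _
  refine (sum_le_sum h1).trans ?_
  rw [sum_add_distrib, ← mul_sum, Finset.sum_boole, sum_comm]
  refine add_le_add le_rfl (le_of_eq ?_)
  exact sum_congr rfl fun p _ => (mul_sum _ _ _).symm

theorem re_sum {N x : ℕ} (ψ : DirichletCharacter ℂ N) {s : ℝ}
    (hs : ∑ n ∈ (range x).filter (fun n => n.Coprime N), ‖1 - ψ (n : ZMod N)‖ ≤ s) :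
    (((range x).filter fun n => n.Coprime N).card : ℝ) - s ≤
      ‖∑ n ∈ range x, ψ (n : ZMod N)‖ := by
  have h1 : ∑ n ∈ range x, ψ (n : ZMod N) = ∑ n ∈ (range x).filter (fun n => n.Coprime N),
      ψ (n : ZMod N) := by
    symm
    apply sum_filter_of_ne
    intro n _ hne
    by_contra hcon
    apply hne
    apply MulChar.map_nonunit
    rwa [ZMod.isUnit_iff_coprime]
  rw [h1]
  refine le_trans ?_ (Complex.re_le_norm _)
  rw [Complex.re_sum]
  have h2 : ∀ n ∈ (range x).filter (fun n => n.Coprime N), 1 - ‖1 - ψ (n : ZMod N)‖ ≤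
      (ψ (n : ZMod N)).re := by
    intro n _
    have := Complex.re_le_norm (1 - ψ (n : ZMod N))
    rw [Complex.sub_re, Complex.one_re] at this
    linarith
  have h3 := sum_le_sum h2
  rw [sum_sub_distrib, sum_const, nsmul_eq_mul, mul_one] at h3
  linarith

end Vino

open Vino in
theorem vino : ∃ δ c0 : ℝ, 0 < δ ∧ δ ≤ 1 / 100 ∧ 0 < c0 ∧ ∀ᶠ N : ℕ in atTop,
    ∀ ψ : DirichletCharacter ℂ N, ∀ Y : ℕ, (N : ℝ) ^ (1 / 2 - δ) ≤ 4 * Y → 
    ∑ p ∈ (Icc 1 Y).filter (fun p => p.Prime ∧ ¬ p ∣ N), ‖1 - ψ (p : ZMod N)‖ / p ≤ c0 →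
    ψ = 1 := by
  classical
  obtain ⟨C, hC, hrecip⟩ := recip_cop
  obtain ⟨P0, hP0, hcheb⟩ := cheb
  obtain ⟨δ, hδ, hδ1, hδC⟩ : ∃ δ : ℝ, 0 < δ ∧ δ ≤ 1 / 100 ∧ 192 * C * δ ≤ 1 := by
    refine ⟨min (1 / 100) (1 / (192 * C)), by positivity, min_le_left _ _, ?_⟩
    calc 192 * C * min (1 / 100) (1 / (192 * C)) ≤ 192 * C * (1 / (192 * C)) :=
          mul_le_mul_of_nonneg_left (min_le_right _ _) (by positivity)
      _ = 1 := by field_simp
  refine ⟨δ, 1 / 8, hδ, hδ1, by norm_num, ?_⟩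
  filter_upwards [pv (δ / 2) (by positivity), cop_count (δ / 2) (by positivity), totient_lower,
    hrecip δ hδ, ev_log 100, ev_log (2 / δ), ev_pow (1 / 2 - δ / 2) (1 / 2) (by linarith) 1 2,
    ev_pow (1 / 2 + δ / 2) (1 / 2 + δ) (by linarith) 1 13, ev_pow 0 (1 / 2 - δ) (by linarith) 0 (4 * P0),
    ev_pow 0 δ hδ 0 2, eventually_ge_atTop 2]
    with N hpv hcc htot hrc hl100 hlδ hp1 hp2 hp3 hp4 hN2
  intro ψ Y hY hsum
  by_contra hψ
  have hN0 : (0 : ℝ) < N := by positivity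
  have hN1 : (1 : ℝ) ≤ N := by exact_mod_cast (by omega : 1 ≤ N)
  have hLN : 0 < Real.log N := by linarith
  simp only [pow_one, pow_zero, mul_one, Real.rpow_zero] at hp1 hp2 hp3 hp4
  -- the quantities
  set X : ℝ := (N : ℝ) ^ (1 / 2 + δ) with hX
  set U : ℝ := (N : ℝ) ^ (1 / 2 - δ) with hU
  set Y0 : ℕ := ⌈U / 4⌉₊ with hY0
  set x : ℕ := ⌊X⌋₊ with hx
  set e : ℝ := (N : ℝ) ^ (δ / 2) with he
  set ρ : ℝ := (N.totient / N : ℝ) with hρ
  have hP0' : (2 : ℝ) ≤ P0 := by exact_mod_cast hP0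
  have hU4 : 4 ≤ U := by linarith
  have hX0 : 0 < X := Real.rpow_pos_of_pos hN0 _
  have hX2 : 2 ≤ X := by
    have : U ≤ X := Real.rpow_le_rpow_of_exponent_le hN1 (by linarith)
    linarith
  have hY0a : U / 4 ≤ Y0 := Nat.le_ceil _
  have hY0b : (Y0 : ℝ) ≤ U / 2 := by
    have := Nat.ceil_lt_add_one (show 0 ≤ U / 4 by positivity)
    rw [← hY0] at this
    linarith
  have hY0p : 0 < Y0 := by
    have : (0 : ℝ) < Y0 := by linarith
    exact_mod_cast this
  have hY0Y : Y0 ≤ Y := by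
    rw [hY0, Nat.ceil_le]
    linarith
  have hxa : (x : ℝ) ≤ X := Nat.floor_le hX0.le
  have hxb : X / 2 ≤ x := by
    have := Nat.lt_floor_add_one X
    rw [← hx] at this
    linarith
  have hx0 : (0 : ℝ) < x := by linarith
  have hρ0 : 0 ≤ ρ := by positivity
  have hρ1 : ρ ≤ 1 := by
    rw [hρ, div_le_one hN0]
    exact_mod_cast Nat.totient_le N
  have he1 : 1 ≤ e := Real.one_le_rpow hN1 (by positivity)
  -- z
  set z : ℕ := x / Y0 with hz
  have hXU : X / U = (N : ℝ) ^ (2 * δ) := by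
    rw [hX, hU, ← Real.rpow_sub hN0]
    congr 1
    ring
  have hU0 : 0 < U := by linarith
  have hX' : X = (N : ℝ) ^ (2 * δ) * U := by
    rw [← hXU]
    field_simp
  have hz1 : (z : ℝ) ≤ 4 * (N : ℝ) ^ (2 * δ) := by
    have h1 : (z : ℝ) ≤ x / Y0 := Nat.cast_div_le
    have h2 : (x : ℝ) / Y0 ≤ X / (U / 4) := div_le_div₀ hX0.le hxa (by positivity) hY0a
    have h3 : X / (U / 4) = 4 * (X / U) := by field_simp
    rw [hXU] at h3
    linarith
  have hz2 : (N : ℝ) ^ δ ≤ z := by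
    have h1 : (x : ℝ) < (z + 1) * Y0 := by
      have h2 := Nat.lt_div_mul_add (a := x) hY0p
      have h3 : x < (z + 1) * Y0 := by
        rw [← hz] at h2
        nlinarith
      exact_mod_cast h3
    have h4 : (N : ℝ) ^ (2 * δ) = (N : ℝ) ^ δ * (N : ℝ) ^ δ := by
      rw [← Real.rpow_add hN0]
      congr 1
      ring
    have h5 : (N : ℝ) ^ (2 * δ) * U < (z + 1) * U := by
      have h6 : ((z : ℝ) + 1) * Y0 ≤ (z + 1) * (U / 2) :=
        mul_le_mul_of_nonneg_left hY0b (by positivity)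
      rw [← hX']
      linarith
    have h7 : (N : ℝ) ^ (2 * δ) < z + 1 := lt_of_mul_lt_mul_right h5 hU0.le
    have h8 : 2 * (N : ℝ) ^ δ ≤ (N : ℝ) ^ δ * (N : ℝ) ^ δ :=
      mul_le_mul_of_nonneg_right hp4 (by linarith)
    linarith
  have hz0 : (0 : ℝ) < z := lt_of_lt_of_le (by positivity) hz2
  have hlogz : Real.log z ≤ 3 * δ * Real.log N := by
    have h1 : Real.log z ≤ Real.log (4 * (N : ℝ) ^ (2 * δ)) := Real.log_le_log hz0 hz1
    rw [Real.log_mul (by norm_num) (by positivity), Real.log_rpow hN0] at h1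
    have h2 : Real.log 4 ≤ 2 := by
      have : Real.log 4 = 2 * Real.log 2 := by
        rw [show (4 : ℝ) = 2 ^ 2 by norm_num, Real.log_pow]
        norm_num
      have h3 := Real.log_two_lt_d9
      linarith
    have h4 : 2 ≤ δ * Real.log N := by
      rw [div_le_iff₀ hδ] at hlδ
      linarith
    linarith
  -- the number of exponents
  set K : ℕ := Nat.log 2 x + 1 with hK
  have hK1 : x ≤ 2 ^ K := (Nat.lt_pow_succ_log_self (by norm_num) x).le
  have hK2 : (K : ℝ) ≤ Real.log N := by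
    have h1 : 2 ^ (Nat.log 2 x) ≤ x := Nat.pow_log_le_self 2 (by
      intro h
      rw [h] at hx0
      simp at hx0)
    have h2 : ((2 : ℝ)) ^ (Nat.log 2 x) ≤ x := by exact_mod_cast h1
    have h3 := Real.log_le_log (by positivity) (h2.trans hxa)
    rw [Real.log_pow, hX, Real.log_rpow hN0] at h3
    have h4 := Real.log_two_gt_d9
    have h5 : (0 : ℝ) ≤ (Nat.log 2 x : ℕ) := Nat.cast_nonneg _
    have h6 : ((Nat.log 2 x : ℕ) : ℝ) * (69 / 100) ≤ (Nat.log 2 x : ℕ) * Real.log 2 :=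
      mul_le_mul_of_nonneg_left (by linarith) h5
    have h7 : (1 / 2 + δ) * Real.log N ≤ (51 / 100) * Real.log N :=
      mul_le_mul_of_nonneg_right (by linarith) hLN.le
    rw [hK]
    push_cast
    linarith
  -- the counting function of the integers prime to `N`
  have hcop : ∀ y : ℕ, (((range y).filter fun n => n.Coprime N).card : ℝ) ≤ y * ρ + e := by
    intro y
    have := abs_le.1 (hcc y)
    linarith [this.2]
  have hN1' : 1 < N := by omega
  -- integers with a large prime factor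
  have hB : ((((range x).filter fun n : ℕ => n.Coprime N).filter
        fun n : ℕ => ∃ p : ℕ, p.Prime ∧ Y0 < p ∧ p ∣ n).card : ℝ) ≤ x * ρ / 8 := by
    have h1 := second (N := N) (x := x) (Y := Y0) hN1' hY0p
    have h2 : ((((range x).filter fun n : ℕ => n.Coprime N).filter
        fun n : ℕ => ∃ p : ℕ, p.Prime ∧ Y0 < p ∧ p ∣ n).card : ℝ) ≤
        ∑ m ∈ (Icc 1 z).filter (fun m => m.Coprime N),
          (((Icc 1 (x / m)).filter Nat.Prime).card : ℝ) := by
      exact_mod_cast h1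
    refine h2.trans ?_
    have h3 : ∀ m ∈ (Icc 1 z).filter (fun m => m.Coprime N),
        (((Icc 1 (x / m)).filter Nat.Prime).card : ℝ) ≤ (8 * x / Real.log N) * ((1 : ℝ) / m) := by
      intro m hm
      rw [mem_filter, mem_Icc] at hm
      obtain ⟨⟨hm1, hm2⟩, -⟩ := hm
      have hm0 : (0 : ℝ) < m := by exact_mod_cast hm1
      have h4 : Y0 ≤ x / m := by
        rw [Nat.le_div_iff_mul_le hm1]
        rw [hz, Nat.le_div_iff_mul_le hY0p] at hm2
        rwa [mul_comm]
      have h5 : (Y0 : ℝ) ≤ (x / m : ℕ) := by exact_mod_cast h4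
      have h6 : P0 ≤ x / m := by
        have : (P0 : ℝ) ≤ (x / m : ℕ) := by linarith
        exact_mod_cast this
      have h7 := (hcheb _ h6).2
      refine h7.trans ?_
      have h8 : Real.log N / 4 ≤ Real.log (x / m : ℕ) := by
        have h9 : Real.log (U / 4) ≤ Real.log (x / m : ℕ) :=
          Real.log_le_log (by positivity) (by linarith)
        rw [Real.log_div (by positivity) (by norm_num), hU, Real.log_rpow hN0] at h9
        have h2 : Real.log 4 ≤ 2 := by
          have : Real.log 4 = 2 * Real.log 2 := by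
            rw [show (4 : ℝ) = 2 ^ 2 by norm_num, Real.log_pow]
            norm_num
          have h3 := Real.log_two_lt_d9
          linarith
        have h11 : (49 / 100) * Real.log N ≤ (1 / 2 - δ) * Real.log N :=
          mul_le_mul_of_nonneg_right (by linarith) hLN.le
        linarith
      have h10 : (((x / m : ℕ) : ℝ)) ≤ x / m := Nat.cast_div_le
      calc 2 * ((x / m : ℕ) : ℝ) / Real.log (x / m : ℕ) ≤ 2 * (x / m) / (Real.log N / 4) :=
            div_le_div₀ (by positivity) (by linarith) (by positivity) h8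
        _ = (8 * x / Real.log N) * ((1 : ℝ) / m) := by
            field_simp
            ring
    refine (sum_le_sum h3).trans ?_
    rw [← mul_sum]
    have h11 := hrc z hz2
    calc 8 * x / Real.log N * ∑ m ∈ (Icc 1 z).filter (fun m => m.Coprime N), (1 : ℝ) / m
        ≤ 8 * x / Real.log N * (C * Real.log z * ρ) :=
          mul_le_mul_of_nonneg_left h11 (by positivity)
      _ ≤ 8 * x / Real.log N * (C * (3 * δ * Real.log N) * ρ) := by
          refine mul_le_mul_of_nonneg_left ?_ (by positivity)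
          refine mul_le_mul_of_nonneg_right ?_ hρ0
          exact mul_le_mul_of_nonneg_left hlogz hC.le
      _ = (192 * C * δ) * (x * ρ / 8) := by
          field_simp
          ring
      _ ≤ 1 * (x * ρ / 8) := mul_le_mul_of_nonneg_right hδC (by positivity)
      _ = x * ρ / 8 := one_mul _
  -- the main sum
  have hmain : ∑ n ∈ (range x).filter (fun n => n.Coprime N), ‖1 - ψ (n : ZMod N)‖ ≤
      x * ρ / 2 + (N : ℝ) ^ (1 / 2 : ℝ) := by
    refine (dist_sum (N := N) (x := x) (Y := Y0) hN1' ψ).trans ?_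
    have h1 : ∀ p ∈ (Icc 1 Y0).filter (fun p => p.Prime ∧ ¬ p ∣ N), ‖1 - ψ (p : ZMod N)‖ *
        ∑ n ∈ (range x).filter (fun n => n.Coprime N), (n.factorization p : ℝ) ≤
        2 * x * ρ * (‖1 - ψ (p : ZMod N)‖ / p) + 2 * (K * (1 + e)) := by
      intro p hp
      rw [mem_filter, mem_Icc] at hp
      have h2 := first (N := N) (x := x) hN1' hρ0 hρ1 hcop hp.2.1 hK1
      have h3 : ‖1 - ψ (p : ZMod N)‖ ≤ 2 := by
        refine (norm_sub_le _ _).trans ?_
        have := DirichletCharacter.norm_le_one ψ (p : ZMod N)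
        rw [norm_one]
        linarith
      calc ‖1 - ψ (p : ZMod N)‖ *
            ∑ n ∈ (range x).filter (fun n => n.Coprime N), (n.factorization p : ℝ)
          ≤ ‖1 - ψ (p : ZMod N)‖ * (2 * x * ρ / p + K * (1 + e)) :=
            mul_le_mul_of_nonneg_left h2 (norm_nonneg _)
        _ = 2 * x * ρ * (‖1 - ψ (p : ZMod N)‖ / p) + ‖1 - ψ (p : ZMod N)‖ * (K * (1 + e)) := by
            ring
        _ ≤ _ := by
            have : ‖1 - ψ (p : ZMod N)‖ * (K * (1 + e)) ≤ 2 * (K * (1 + e)) :=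
              mul_le_mul_of_nonneg_right h3 (by positivity)
            linarith
    have h4 := sum_le_sum h1
    rw [sum_add_distrib, ← mul_sum, sum_const, nsmul_eq_mul] at h4
    have h5 : ∑ p ∈ (Icc 1 Y0).filter (fun p => p.Prime ∧ ¬ p ∣ N), ‖1 - ψ (p : ZMod N)‖ / p ≤
        1 / 8 := by
      refine le_trans (sum_le_sum_of_subset_of_nonneg ?_ fun p _ _ => by positivity) hsum
      exact filter_subset_filter _ (Icc_subset_Icc_right hY0Y)
    have h6 : (((Icc 1 Y0).filter (fun p => p.Prime ∧ ¬ p ∣ N)).card : ℝ) ≤ U / 2 := by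
      refine le_trans ?_ hY0b
      have := card_filter_le (Icc 1 Y0) (fun p => p.Prime ∧ ¬ p ∣ N)
      rw [Nat.card_Icc] at this
      exact_mod_cast this
    have h7 : (((Icc 1 Y0).filter (fun p => p.Prime ∧ ¬ p ∣ N)).card : ℝ) * (2 * (K * (1 + e))) ≤
        (N : ℝ) ^ (1 / 2 : ℝ) := by
      have h8 : (K : ℝ) * (1 + e) ≤ Real.log N * (2 * e) :=
        mul_le_mul hK2 (by linarith) (by positivity) hLN.le
      calc (((Icc 1 Y0).filter (fun p => p.Prime ∧ ¬ p ∣ N)).card : ℝ) * (2 * (K * (1 + e)))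
          ≤ (U / 2) * (2 * (Real.log N * (2 * e))) :=
            mul_le_mul h6 (by linarith) (by positivity) (by positivity)
        _ = 2 * (U * e) * Real.log N := by ring
        _ = 2 * (N : ℝ) ^ (1 / 2 - δ / 2) * Real.log N := by
            rw [hU, he, ← Real.rpow_add hN0]
            congr 3
            ring
        _ ≤ _ := hp1
    have h9 : 2 * x * ρ * ∑ p ∈ (Icc 1 Y0).filter (fun p => p.Prime ∧ ¬ p ∣ N),
        ‖1 - ψ (p : ZMod N)‖ / p ≤ 2 * x * ρ * (1 / 8) :=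
      mul_le_mul_of_nonneg_left h5 (by positivity)
    linarith
  have h1 := re_sum ψ hmain
  have h2 := (hpv ψ hψ x)
  have h3 := (abs_le.1 (hcc x)).1
  -- contradiction
  have hρlow : 1 ≤ ρ * Real.log N := by
    rw [hρ, div_mul_eq_mul_div, one_le_div hN0]
    exact htot
  have h4 : (N : ℝ) ^ (1 / 2 : ℝ) ≤ (N : ℝ) ^ (1 / 2 + δ / 2) :=
    Real.rpow_le_rpow_of_exponent_le hN1 (by linarith)
  have h5 : e ≤ (N : ℝ) ^ (1 / 2 + δ / 2) :=
    Real.rpow_le_rpow_of_exponent_le hN1 (by linarith)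
  have h6 : x * ρ / 2 ≤ 3 * (N : ℝ) ^ (1 / 2 + δ / 2) := by linarith
  have h7 : X / 4 ≤ 3 * (N : ℝ) ^ (1 / 2 + δ / 2) * Real.log N := by
    have h8 : (x * ρ / 2) * Real.log N ≤ 3 * (N : ℝ) ^ (1 / 2 + δ / 2) * Real.log N :=
      mul_le_mul_of_nonneg_right h6 hLN.le
    have h9 : (x : ℝ) / 2 * 1 ≤ x / 2 * (ρ * Real.log N) :=
      mul_le_mul_of_nonneg_left hρlow (by positivity)
    have h10 : (x * ρ / 2) * Real.log N = x / 2 * (ρ * Real.log N) := by ring
    linarith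
  have h11 : 0 < (N : ℝ) ^ (1 / 2 + δ / 2) * Real.log N := by positivity
  linarith

end Pool.Agent.GLI
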