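import Pool.Agent.GLI.Ev

set_option autoImplicit false

/-!
Module Spec. Orthogonality of Dirichlet characters (`DirichletCharacter.sum_char_inv_mul_char_eq`,
`DirichletCharacter.sum_characters_eq`). `parseval` for a general function; `cf_parseval` for `lam`;
`cf_shift`: the function `a ↦ g ((p a) % N) + g a` on the units has coefficients
`c_χ (χ p + 1)` (substitute `a ↦ p a`), it is `0` or of absolute value `2` (bad `a`).
`cf_expand`: `lam a = ∑ cf χ · χ a` for `a` prime to `N`.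
-/

open Finset Filter

namespace Pool.Agent.GLI

/-- Sums over `range N` as sums over `ZMod N`. -/
theorem sum_range_zmod (N : ℕ) [NeZero N] (F : ℕ → ℂ) :
    ∑ a ∈ range N, F a = ∑ x : ZMod N, F x.val := by
  refine Finset.sum_nbij' (fun a : ℕ => (a : ZMod N)) (fun x : ZMod N => x.val) ?_ ?_ ?_ ?_ ?_
  · intro a _
    exact Finset.mem_univ _
  · intro x _
    rw [Finset.mem_range]
    exact ZMod.val_lt x
  · intro a ha
    rw [Finset.mem_range] at ha
    exact ZMod.val_cast_of_lt ha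
  · intro x _
    exact ZMod.natCast_zmod_val x
  · intro a ha
    rw [Finset.mem_range] at ha
    rw [ZMod.val_cast_of_lt ha]

theorem conj_char {N : ℕ} [NeZero N] (χ : DirichletCharacter ℂ N) (x : ZMod N) :
    (starRingEnd ℂ) (χ x) = χ⁻¹ x := by
  rw [starRingEnd_apply]
  exact MulChar.star_apply' χ x

theorem char_mul_conj {N : ℕ} [NeZero N] (χ : DirichletCharacter ℂ N) {x : ZMod N}
    (hx : IsUnit x) : χ x * (starRingEnd ℂ) (χ x) = 1 := by
  rw [conj_char, ← MulChar.mul_apply, mul_inv_cancel, MulChar.one_apply hx]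

theorem char_norm {N : ℕ} [NeZero N] (χ : DirichletCharacter ℂ N) {x : ZMod N}
    (hx : IsUnit x) : ‖χ x‖ = 1 := by
  have h := char_mul_conj χ hx
  rw [Complex.mul_conj, Complex.normSq_eq_norm_sq] at h
  have h1 : ‖χ x‖ ^ 2 = 1 := by exact_mod_cast h
  nlinarith [norm_nonneg (χ x)]

open Classical in
/-- Orthogonality: sum over the characters. -/
theorem orth_char {N : ℕ} [NeZero N] (x y : ZMod N) :
    ∑ χ : DirichletCharacter ℂ N, (starRingEnd ℂ) (χ x) * χ y =
      if IsUnit x ∧ x = y then (N.totient : ℂ) else 0 := by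
  by_cases hx : IsUnit x
  · have h1 := DirichletCharacter.sum_char_inv_mul_char_eq ℂ hx y
    have h2 : ∀ χ : DirichletCharacter ℂ N, (starRingEnd ℂ) (χ x) * χ y = χ x⁻¹ * χ y := by
      intro χ
      congr 1
      have h3 : χ x * χ x⁻¹ = 1 := by
        rw [← map_mul, ZMod.mul_inv_of_unit x hx, map_one]
      have h4 := char_mul_conj χ hx
      have h5 : χ x ≠ 0 := by
        intro h0
        rw [h0, zero_mul] at h4
        exact zero_ne_one h4
      exact mul_left_cancel₀ h5 (h4.trans h3.symm)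
    rw [Finset.sum_congr rfl fun χ _ => h2 χ, h1]
    by_cases hxy : x = y
    · rw [if_pos hxy, if_pos ⟨hx, hxy⟩]
    · rw [if_neg hxy, if_neg fun h => hxy h.2]
  · have h2 : ∀ χ : DirichletCharacter ℂ N, (starRingEnd ℂ) (χ x) * χ y = 0 := by
      intro χ
      rw [MulChar.map_nonunit χ hx, map_zero, zero_mul]
    rw [Finset.sum_congr rfl fun χ _ => h2 χ, Finset.sum_const_zero, if_neg]
    rintro ⟨h, -⟩
    exact hx h

/-- Orthogonality: sum over the residues. -/
theorem orth_res {N : ℕ} [NeZero N] (χ ψ : DirichletCharacter ℂ N) :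
    ∑ x : ZMod N, (starRingEnd ℂ) (χ x) * ψ x =
      if χ = ψ then (N.totient : ℂ) else 0 := by
  have h1 : ∀ x : ZMod N, (starRingEnd ℂ) (χ x) * ψ x = (χ⁻¹ * ψ) x := by
    intro x
    rw [conj_char, MulChar.mul_apply]
  rw [Finset.sum_congr rfl fun x _ => h1 x]
  by_cases h : χ = ψ
  · rw [if_pos h, h, inv_mul_cancel]
    rw [MulChar.sum_one_eq_card_units, ZMod.card_units_eq_totient]
  · rw [if_neg h]
    apply MulChar.sum_eq_zero_of_ne_one
    intro h2
    apply h
    rwa [inv_mul_eq_one] at h2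

open Classical in
theorem sum_coprime_zmod (N : ℕ) [NeZero N] (F : ℕ → ℝ) :
    ∑ a ∈ (range N).filter (fun a => a.Coprime N), F a =
      ∑ x ∈ (univ : Finset (ZMod N)).filter (fun x => IsUnit x), F x.val := by
  refine Finset.sum_nbij' (fun a : ℕ => (a : ZMod N)) (fun x : ZMod N => x.val) ?_ ?_ ?_ ?_ ?_
  · intro a ha
    rw [Finset.mem_filter] at ha ⊢
    exact ⟨Finset.mem_univ _, (ZMod.isUnit_iff_coprime a N).mpr ha.2⟩
  · intro x hx
    rw [Finset.mem_filter] at hx ⊢
    refine ⟨Finset.mem_range.mpr (ZMod.val_lt x), ?_⟩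
    rw [← ZMod.isUnit_iff_coprime, ZMod.natCast_zmod_val]
    exact hx.2
  · intro a ha
    rw [Finset.mem_filter, Finset.mem_range] at ha
    exact ZMod.val_cast_of_lt ha.1
  · intro x _
    exact ZMod.natCast_zmod_val x
  · intro a ha
    rw [Finset.mem_filter, Finset.mem_range] at ha
    rw [ZMod.val_cast_of_lt ha.1]

open Classical in
theorem parseval_zmod (N : ℕ) [NeZero N] (G : ZMod N → ℂ) :
    ∑ χ : DirichletCharacter ℂ N, ‖∑ x : ZMod N, (starRingEnd ℂ) (χ x) * G x‖ ^ 2 =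
      N.totient * ∑ x ∈ (univ : Finset (ZMod N)).filter (fun x => IsUnit x), ‖G x‖ ^ 2 := by
  have h1 : ∀ χ : DirichletCharacter ℂ N,
      ((‖∑ x : ZMod N, (starRingEnd ℂ) (χ x) * G x‖ ^ 2 : ℝ) : ℂ) =
      ∑ x : ZMod N, ∑ y : ZMod N,
        ((starRingEnd ℂ) (χ x) * χ y) * (G x * (starRingEnd ℂ) (G y)) := by
    intro χ
    rw [← Complex.normSq_eq_norm_sq, ← Complex.mul_conj, map_sum, Finset.sum_mul_sum]
    apply Finset.sum_congr rfl
    intro x _
    apply Finset.sum_congr rfl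
    intro y _
    rw [map_mul, Complex.conj_conj]
    ring
  have h2 : ((∑ χ : DirichletCharacter ℂ N,
      ‖∑ x : ZMod N, (starRingEnd ℂ) (χ x) * G x‖ ^ 2 : ℝ) : ℂ) =
      ((N.totient * ∑ x ∈ (univ : Finset (ZMod N)).filter (fun x => IsUnit x), ‖G x‖ ^ 2 : ℝ) :
        ℂ) := by
    push_cast
    have h3 : ∀ χ : DirichletCharacter ℂ N,
        (‖∑ x : ZMod N, (starRingEnd ℂ) (χ x) * G x‖ : ℂ) ^ 2 =
        ∑ x : ZMod N, ∑ y : ZMod N,
          ((starRingEnd ℂ) (χ x) * χ y) * (G x * (starRingEnd ℂ) (G y)) := by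
      intro χ
      have := h1 χ
      push_cast at this
      exact this
    rw [Finset.sum_congr rfl fun χ _ => h3 χ, Finset.sum_comm, Finset.mul_sum,
      Finset.sum_filter]
    apply Finset.sum_congr rfl
    intro x _
    rw [Finset.sum_comm]
    have h4 : ∀ y : ZMod N, ∑ χ : DirichletCharacter ℂ N,
        ((starRingEnd ℂ) (χ x) * χ y) * (G x * (starRingEnd ℂ) (G y)) =
        (if IsUnit x ∧ x = y then (N.totient : ℂ) else 0) * (G x * (starRingEnd ℂ) (G y)) := by
      intro y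
      rw [← Finset.sum_mul, orth_char]
    rw [Finset.sum_congr rfl fun y _ => h4 y]
    by_cases hx : IsUnit x
    · rw [if_pos hx]
      rw [Finset.sum_eq_single x]
      · rw [if_pos ⟨hx, rfl⟩, Complex.mul_conj, Complex.normSq_eq_norm_sq]
        push_cast
        ring
      · intro y _ hy
        rw [if_neg, zero_mul]
        rintro ⟨-, h⟩
        exact hy h.symm
      · intro h
        exact absurd (Finset.mem_univ _) h
    · rw [if_neg hx]
      apply Finset.sum_eq_zero
      intro y _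
      rw [if_neg, zero_mul]
      rintro ⟨h, -⟩
      exact hx h
  exact_mod_cast h2

open Classical in
theorem parseval (N : ℕ) [NeZero N] (g : ℕ → ℂ) :
    ∑ χ : DirichletCharacter ℂ N,
      ‖∑ a ∈ range N, (starRingEnd ℂ) (χ (a : ZMod N)) * g a‖ ^ 2 =
      N.totient * ∑ a ∈ (range N).filter (fun a => a.Coprime N), ‖g a‖ ^ 2 := by
  have h1 := parseval_zmod N (fun x => g x.val)
  rw [sum_coprime_zmod N (fun a => ‖g a‖ ^ 2), ← h1]
  apply Finset.sum_congr rfl
  intro χ _
  rw [sum_range_zmod]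
  congr 2
  apply Finset.sum_congr rfl
  intro x _
  rw [ZMod.natCast_zmod_val]

theorem totient_pos' (N : ℕ) [NeZero N] : (0 : ℝ) < N.totient := by
  exact_mod_cast Nat.totient_pos.mpr (Nat.pos_of_ne_zero (NeZero.ne N))

theorem totient_ne' (N : ℕ) [NeZero N] : (N.totient : ℂ) ≠ 0 := by
  exact_mod_cast (Nat.totient_pos.mpr (Nat.pos_of_ne_zero (NeZero.ne N))).ne'

open Classical in
theorem card_coprime (N : ℕ) :
    (((range N).filter (fun a => a.Coprime N)).card : ℝ) = N.totient := by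
  rw [Nat.totient_eq_card_coprime]
  congr 2
  ext a
  simp only [Finset.mem_filter, Nat.coprime_comm]

theorem lam_norm (a : ℕ) : ‖(lam a : ℂ)‖ = 1 := by
  rcases lam_cases a with h | h <;> rw [h] <;> simp

theorem cf_mul (N : ℕ) [NeZero N] (χ : DirichletCharacter ℂ N) :
    ∑ a ∈ range N, (starRingEnd ℂ) (χ (a : ZMod N)) * (lam a : ℂ) = N.totient * cf N χ := by
  unfold cf
  field_simp [totient_ne' N]

open Classical in
theorem cf_parseval (N : ℕ) [NeZero N] (hN : 2 ≤ N) :
    ∑ χ : DirichletCharacter ℂ N, ‖cf N χ‖ ^ 2 = 1 := by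
  have h1 := parseval N (fun a => (lam a : ℂ))
  have h0 := totient_pos' N
  have h2 : ∑ a ∈ (range N).filter (fun a => a.Coprime N), ‖(lam a : ℂ)‖ ^ 2 = N.totient := by
    rw [Finset.sum_congr rfl fun a _ => by rw [lam_norm, one_pow], Finset.sum_const,
      nsmul_eq_mul, mul_one, card_coprime]
  rw [h2] at h1
  have h3 : ∑ χ : DirichletCharacter ℂ N, (N.totient : ℝ) ^ 2 * ‖cf N χ‖ ^ 2 =
      N.totient * N.totient := by
    rw [← h1]
    apply Finset.sum_congr rfl
    intro χ _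
    rw [cf_mul, norm_mul, mul_pow]
    congr 2
    rw [Complex.norm_natCast]
  rw [← Finset.mul_sum] at h3
  have h4 : (N.totient : ℝ) ^ 2 ≠ 0 := by positivity
  have h5 : (N.totient : ℝ) ^ 2 * ∑ χ : DirichletCharacter ℂ N, ‖cf N χ‖ ^ 2 =
      (N.totient : ℝ) ^ 2 * 1 := by rw [h3]; ring
  exact mul_left_cancel₀ h4 h5

open Classical in
theorem cf_expand (N : ℕ) [NeZero N] (a : ℕ) (ha : a < N) (hc : a.Coprime N) :
    (lam a : ℂ) = ∑ χ : DirichletCharacter ℂ N, cf N χ * χ (a : ZMod N) := by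
  have hu : IsUnit (a : ZMod N) := (ZMod.isUnit_iff_coprime a N).mpr hc
  have h1 : (N.totient : ℂ) * ∑ χ : DirichletCharacter ℂ N, cf N χ * χ (a : ZMod N) =
      N.totient * (lam a : ℂ) := by
    rw [Finset.mul_sum]
    have h2 : ∀ χ : DirichletCharacter ℂ N, (N.totient : ℂ) * (cf N χ * χ (a : ZMod N)) =
        ∑ x : ZMod N, (lam x.val : ℂ) * ((starRingEnd ℂ) (χ x) * χ (a : ZMod N)) := by
      intro χ
      rw [← mul_assoc, ← cf_mul, sum_range_zmod, Finset.sum_mul]
      apply Finset.sum_congr rfl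
      intro x _
      rw [ZMod.natCast_zmod_val]
      ring
    rw [Finset.sum_congr rfl fun χ _ => h2 χ, Finset.sum_comm]
    rw [Finset.sum_eq_single (a : ZMod N)]
    · rw [← Finset.mul_sum, orth_char, if_pos ⟨hu, rfl⟩, ZMod.val_cast_of_lt ha]
      ring
    · intro x _ hx
      rw [← Finset.mul_sum, orth_char, if_neg, mul_zero]
      rintro ⟨-, h⟩
      exact hx h
    · intro h
      exact absurd (Finset.mem_univ _) h
  exact (mul_left_cancel₀ (totient_ne' N) h1).symm

open Classical in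
theorem cf_shift (N : ℕ) [NeZero N] (hN : 2 ≤ N) (p : ℕ) (hp : p.Coprime N) :
    ∑ χ : DirichletCharacter ℂ N, ‖cf N χ‖ ^ 2 * ‖1 + χ (p : ZMod N)‖ ^ 2 ≤
      4 * (((range N).filter fun a => a.Coprime N ∧ lam ((p * a) % N) ≠ -lam a).card : ℝ) /
        N.totient := by
  have h0 := totient_pos' N
  have hu : IsUnit (p : ZMod N) := (ZMod.isUnit_iff_coprime p N).mpr hp
  have h1 := parseval N (fun a => (lam ((p * a) % N) : ℂ) + (lam a : ℂ))
  -- coefficients
  have h2 : ∀ χ : DirichletCharacter ℂ N,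
      ∑ a ∈ range N, (starRingEnd ℂ) (χ (a : ZMod N)) * ((lam ((p * a) % N) : ℂ) + (lam a : ℂ)) =
      N.totient * (cf N χ * (1 + χ (p : ZMod N))) := by
    intro χ
    have h3 : ∑ a ∈ range N, (starRingEnd ℂ) (χ (a : ZMod N)) * (lam ((p * a) % N) : ℂ) =
        χ (p : ZMod N) * ∑ a ∈ range N, (starRingEnd ℂ) (χ (a : ZMod N)) * (lam a : ℂ) := by
      rw [sum_range_zmod N (fun a => (starRingEnd ℂ) (χ (a : ZMod N)) * (lam ((p * a) % N) : ℂ)),
        sum_range_zmod N (fun a => (starRingEnd ℂ) (χ (a : ZMod N)) * (lam a : ℂ)),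
        Finset.mul_sum]
      have h4 : Function.Bijective (fun x : ZMod N => (p : ZMod N) * x) := by
        obtain ⟨u, hu'⟩ := hu
        rw [← hu']
        exact (Units.mulLeft u).bijective
      refine Fintype.sum_bijective _ h4 _ _ ?_
      intro x
      rw [ZMod.natCast_zmod_val, ZMod.natCast_zmod_val]
      have h5 : ((p : ZMod N) * x).val = (p * x.val) % N := by
        rw [ZMod.val_mul, ZMod.val_natCast, Nat.mod_mul_mod]
      rw [h5, map_mul, map_mul]
      have h6 := char_mul_conj χ hu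
      calc (starRingEnd ℂ) (χ x) * (lam ((p * x.val) % N) : ℂ)
          = (χ (p : ZMod N) * (starRingEnd ℂ) (χ (p : ZMod N))) *
              ((starRingEnd ℂ) (χ x) * (lam ((p * x.val) % N) : ℂ)) := by rw [h6, one_mul]
        _ = _ := by ring
    have h7 : ∑ a ∈ range N,
        (starRingEnd ℂ) (χ (a : ZMod N)) * ((lam ((p * a) % N) : ℂ) + (lam a : ℂ)) =
        ∑ a ∈ range N, (starRingEnd ℂ) (χ (a : ZMod N)) * (lam ((p * a) % N) : ℂ) +
        ∑ a ∈ range N, (starRingEnd ℂ) (χ (a : ZMod N)) * (lam a : ℂ) := by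
      rw [← Finset.sum_add_distrib]
      apply Finset.sum_congr rfl
      intro a _
      ring
    rw [h7, h3, cf_mul]
    ring
  have h8 : ∑ χ : DirichletCharacter ℂ N,
      (N.totient : ℝ) ^ 2 * (‖cf N χ‖ ^ 2 * ‖1 + χ (p : ZMod N)‖ ^ 2) =
      N.totient * ∑ a ∈ (range N).filter (fun a => a.Coprime N),
        ‖(lam ((p * a) % N) : ℂ) + (lam a : ℂ)‖ ^ 2 := by
    rw [← h1]
    apply Finset.sum_congr rfl
    intro χ _
    rw [h2, norm_mul, norm_mul, mul_pow, mul_pow, Complex.norm_natCast]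
  have h9 : ∑ a ∈ (range N).filter (fun a => a.Coprime N),
        ‖(lam ((p * a) % N) : ℂ) + (lam a : ℂ)‖ ^ 2 ≤
      4 * (((range N).filter fun a => a.Coprime N ∧ lam ((p * a) % N) ≠ -lam a).card : ℝ) := by
    have h10 : ∀ a : ℕ, ‖(lam ((p * a) % N) : ℂ) + (lam a : ℂ)‖ ^ 2 ≤
        if lam ((p * a) % N) ≠ -lam a then (4 : ℝ) else 0 := by
      intro a
      rcases lam_cases a with h | h <;> rcases lam_cases ((p * a) % N) with h' | h' <;>
        rw [h, h'] <;> norm_num
    calc ∑ a ∈ (range N).filter (fun a => a.Coprime N),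
          ‖(lam ((p * a) % N) : ℂ) + (lam a : ℂ)‖ ^ 2
        ≤ ∑ a ∈ (range N).filter (fun a => a.Coprime N),
            (if lam ((p * a) % N) ≠ -lam a then (4 : ℝ) else 0) :=
          Finset.sum_le_sum fun a _ => h10 a
      _ = 4 * (((range N).filter fun a => a.Coprime N ∧ lam ((p * a) % N) ≠ -lam a).card : ℝ) := by
          rw [← Finset.sum_filter, Finset.filter_filter, Finset.sum_const, nsmul_eq_mul]
          ring
  rw [← Finset.mul_sum] at h8
  rw [le_div_iff₀ h0]
  have h11 : (N.totient : ℝ) * (∑ χ : DirichletCharacter ℂ N,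
      ‖cf N χ‖ ^ 2 * ‖1 + χ (p : ZMod N)‖ ^ 2) =
      ∑ a ∈ (range N).filter (fun a => a.Coprime N),
        ‖(lam ((p * a) % N) : ℂ) + (lam a : ℂ)‖ ^ 2 := by
    apply mul_left_cancel₀ h0.ne'
    rw [← h8]
    ring
  rw [mul_comm, h11]
  exact h9

open Classical in
/-- `F_S(a)` = the part of the expansion over `S`; mean square error. -/
theorem cf_tail (N : ℕ) [NeZero N] (hN : 2 ≤ N) (S : Finset (DirichletCharacter ℂ N)) :
    ∑ a ∈ (range N).filter (fun a => a.Coprime N),
      ‖(lam a : ℂ) - ∑ χ ∈ S, cf N χ * χ (a : ZMod N)‖ ^ 2 =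
      N.totient * ∑ χ ∈ Sᶜ, ‖cf N χ‖ ^ 2 := by
  have h0 := totient_pos' N
  have h1 := parseval N (fun a => (lam a : ℂ) - ∑ χ ∈ S, cf N χ * χ (a : ZMod N))
  have h2 : ∀ ψ : DirichletCharacter ℂ N,
      ∑ a ∈ range N, (starRingEnd ℂ) (ψ (a : ZMod N)) *
        ((lam a : ℂ) - ∑ χ ∈ S, cf N χ * χ (a : ZMod N)) =
      if ψ ∈ S then 0 else N.totient * cf N ψ := by
    intro ψ
    have h3 : ∑ a ∈ range N, (starRingEnd ℂ) (ψ (a : ZMod N)) *
        ((lam a : ℂ) - ∑ χ ∈ S, cf N χ * χ (a : ZMod N)) =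
        ∑ a ∈ range N, (starRingEnd ℂ) (ψ (a : ZMod N)) * (lam a : ℂ) -
        ∑ χ ∈ S, cf N χ * ∑ a ∈ range N, (starRingEnd ℂ) (ψ (a : ZMod N)) * χ (a : ZMod N) := by
      have h4 : ∑ χ ∈ S, cf N χ * ∑ a ∈ range N,
          (starRingEnd ℂ) (ψ (a : ZMod N)) * χ (a : ZMod N) =
          ∑ a ∈ range N, (starRingEnd ℂ) (ψ (a : ZMod N)) *
            ∑ χ ∈ S, cf N χ * χ (a : ZMod N) := by
        simp only [Finset.mul_sum]
        rw [Finset.sum_comm]
        apply Finset.sum_congr rfl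
        intro a _
        apply Finset.sum_congr rfl
        intro χ _
        ring
      rw [h4, ← Finset.sum_sub_distrib]
      apply Finset.sum_congr rfl
      intro a _
      ring
    have h5 : ∀ χ : DirichletCharacter ℂ N,
        ∑ a ∈ range N, (starRingEnd ℂ) (ψ (a : ZMod N)) * χ (a : ZMod N) =
        if ψ = χ then (N.totient : ℂ) else 0 := by
      intro χ
      rw [← orth_res ψ χ,
        sum_range_zmod N (fun a => (starRingEnd ℂ) (ψ (a : ZMod N)) * χ (a : ZMod N))]
      apply Finset.sum_congr rfl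
      intro x _
      rw [ZMod.natCast_zmod_val]
    rw [h3, cf_mul, Finset.sum_congr rfl fun χ _ => by rw [h5 χ]]
    by_cases hψ : ψ ∈ S
    · rw [if_pos hψ, Finset.sum_eq_single ψ]
      · rw [if_pos rfl]
        ring
      · intro χ _ hχ
        rw [if_neg (Ne.symm hχ), mul_zero]
      · intro h
        exact absurd hψ h
    · rw [if_neg hψ, Finset.sum_eq_zero, sub_zero]
      intro χ hχ
      rw [if_neg, mul_zero]
      rintro rfl
      exact hψ hχ
  have h6 : ∑ ψ : DirichletCharacter ℂ N, ‖∑ a ∈ range N, (starRingEnd ℂ) (ψ (a : ZMod N)) *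
        ((lam a : ℂ) - ∑ χ ∈ S, cf N χ * χ (a : ZMod N))‖ ^ 2 =
      (N.totient : ℝ) ^ 2 * ∑ χ ∈ Sᶜ, ‖cf N χ‖ ^ 2 := by
    rw [Finset.mul_sum, ← Finset.sum_subset (Finset.subset_univ Sᶜ)]
    · apply Finset.sum_congr rfl
      intro ψ hψ
      rw [Finset.mem_compl] at hψ
      rw [h2, if_neg hψ, norm_mul, mul_pow, Complex.norm_natCast]
    · intro ψ _ hψ
      rw [Finset.mem_compl, not_not] at hψ
      rw [h2, if_pos hψ, norm_zero]
      norm_num
  rw [h6] at h1
  apply mul_left_cancel₀ h0.ne'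
  rw [← h1]
  ring

end Pool.Agent.GLI
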