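import Pool.Agent.GLI.PV
import Pool.Agent.GLI.Spec

set_option autoImplicit false

/-!
Module Quasi. Expand the square; off-diagonal terms `|b_χ b_χ'| |∑_{x<X} χ χ̄'(x)| ≤ |b_χ b_χ'| N^(1/2+δ/8)`
(`χ χ'^{-1} ≠ 1`, pv with `δ/8`), `∑_{χ,χ'} |b b'| ≤ |S| ∑ |b|²`; `Φ ≥ X φ(N)/(2N) ≥ N^(1/2 + 7δ/8)`.
-/

open Finset Filter

namespace Pool.Agent.GLI

open Classical in
theorem quasi_expand (N : ℕ) [NeZero N] (S : Finset (DirichletCharacter ℂ N))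
    (b : DirichletCharacter ℂ N → ℂ) (X : ℕ) (E : ℝ) (hE0 : 0 ≤ E)
    (hE : ∀ χ : DirichletCharacter ℂ N, χ ≠ 1 → ‖∑ n ∈ range X, χ (n : ZMod N)‖ ≤ E) :
    ∑ x ∈ (range X).filter (fun x => x.Coprime N), ‖∑ χ ∈ S, b χ * χ (x : ZMod N)‖ ^ 2 ≤
      (((range X).filter (fun x => x.Coprime N)).card : ℝ) * ∑ χ ∈ S, ‖b χ‖ ^ 2 +
        E * (S.card * ∑ χ ∈ S, ‖b χ‖ ^ 2) := by
  set R := (range X).filter (fun x => x.Coprime N) with hR
  -- complex identity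
  have h1 : ((∑ x ∈ R, ‖∑ χ ∈ S, b χ * χ (x : ZMod N)‖ ^ 2 : ℝ) : ℂ) =
      ∑ χ ∈ S, ∑ ψ ∈ S, b χ * (starRingEnd ℂ) (b ψ) *
        ∑ x ∈ R, χ (x : ZMod N) * (starRingEnd ℂ) (ψ (x : ZMod N)) := by
    have h2 : ∀ x ∈ R, ((‖∑ χ ∈ S, b χ * χ (x : ZMod N)‖ ^ 2 : ℝ) : ℂ) =
        ∑ χ ∈ S, ∑ ψ ∈ S, b χ * (starRingEnd ℂ) (b ψ) *
          (χ (x : ZMod N) * (starRingEnd ℂ) (ψ (x : ZMod N))) := by
      intro x _
      rw [← Complex.normSq_eq_norm_sq, ← Complex.mul_conj, map_sum, Finset.sum_mul_sum]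
      apply Finset.sum_congr rfl
      intro χ _
      apply Finset.sum_congr rfl
      intro ψ _
      rw [map_mul]
      ring
    rw [Complex.ofReal_sum, Finset.sum_congr rfl h2, Finset.sum_comm]
    apply Finset.sum_congr rfl
    intro χ _
    rw [Finset.sum_comm]
    apply Finset.sum_congr rfl
    intro ψ _
    rw [Finset.mul_sum]
  -- inner sums
  have hdiag : ∀ χ : DirichletCharacter ℂ N,
      ∑ x ∈ R, χ (x : ZMod N) * (starRingEnd ℂ) (χ (x : ZMod N)) = (R.card : ℂ) := by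
    intro χ
    have h3 : ∀ x ∈ R, χ (x : ZMod N) * (starRingEnd ℂ) (χ (x : ZMod N)) = 1 := by
      intro x hx
      rw [hR, Finset.mem_filter] at hx
      exact char_mul_conj χ ((ZMod.isUnit_iff_coprime x N).mpr hx.2)
    rw [Finset.sum_congr rfl h3, Finset.sum_const, nsmul_eq_mul, mul_one]
  have hoff : ∀ χ ψ : DirichletCharacter ℂ N, χ ≠ ψ →
      ‖∑ x ∈ R, χ (x : ZMod N) * (starRingEnd ℂ) (ψ (x : ZMod N))‖ ≤ E := by
    intro χ ψ hne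
    have h3 : ∑ x ∈ R, χ (x : ZMod N) * (starRingEnd ℂ) (ψ (x : ZMod N)) =
        ∑ n ∈ range X, (χ * ψ⁻¹) (n : ZMod N) := by
      rw [hR, Finset.sum_filter]
      apply Finset.sum_congr rfl
      intro x _
      rw [conj_char, ← MulChar.mul_apply]
      split_ifs with hc
      · rfl
      · rw [MulChar.map_nonunit]
        rw [ZMod.isUnit_iff_coprime]
        exact hc
    rw [h3]
    apply hE
    intro h4
    apply hne
    rwa [mul_inv_eq_one] at h4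
  -- bound the norm
  have hre : (∑ x ∈ R, ‖∑ χ ∈ S, b χ * χ (x : ZMod N)‖ ^ 2 : ℝ) =
      ‖((∑ x ∈ R, ‖∑ χ ∈ S, b χ * χ (x : ZMod N)‖ ^ 2 : ℝ) : ℂ)‖ := by
    rw [Complex.norm_real, Real.norm_of_nonneg]
    exact Finset.sum_nonneg fun _ _ => by positivity
  rw [hre, h1]
  have hterm : ∀ χ ∈ S, ∀ ψ ∈ S, ‖b χ * (starRingEnd ℂ) (b ψ) *
        ∑ x ∈ R, χ (x : ZMod N) * (starRingEnd ℂ) (ψ (x : ZMod N))‖ ≤
      (if χ = ψ then (R.card : ℝ) * ‖b χ‖ ^ 2 else 0) + E * (‖b χ‖ * ‖b ψ‖) := by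
    intro χ _ ψ _
    rw [norm_mul, norm_mul, RCLike.norm_conj]
    by_cases hχψ : χ = ψ
    · subst hχψ
      rw [if_pos rfl, hdiag, Complex.norm_natCast]
      have : 0 ≤ E * (‖b χ‖ * ‖b χ‖) := by positivity
      nlinarith
    · rw [if_neg hχψ, zero_add, mul_comm]
      exact mul_le_mul_of_nonneg_right (hoff χ ψ hχψ) (by positivity)
  calc ‖∑ χ ∈ S, ∑ ψ ∈ S, b χ * (starRingEnd ℂ) (b ψ) *
        ∑ x ∈ R, χ (x : ZMod N) * (starRingEnd ℂ) (ψ (x : ZMod N))‖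
      ≤ ∑ χ ∈ S, ∑ ψ ∈ S, ‖b χ * (starRingEnd ℂ) (b ψ) *
        ∑ x ∈ R, χ (x : ZMod N) * (starRingEnd ℂ) (ψ (x : ZMod N))‖ :=
        (norm_sum_le _ _).trans (Finset.sum_le_sum fun χ _ => norm_sum_le _ _)
    _ ≤ ∑ χ ∈ S, ∑ ψ ∈ S, ((if χ = ψ then (R.card : ℝ) * ‖b χ‖ ^ 2 else 0) +
          E * (‖b χ‖ * ‖b ψ‖)) :=
        Finset.sum_le_sum fun χ hχ => Finset.sum_le_sum fun ψ hψ => hterm χ hχ ψ hψ
    _ = (R.card : ℝ) * ∑ χ ∈ S, ‖b χ‖ ^ 2 + E * (∑ χ ∈ S, ‖b χ‖) ^ 2 := by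
        rw [sq (∑ χ ∈ S, ‖b χ‖), Finset.sum_mul_sum, Finset.mul_sum, Finset.mul_sum,
          ← Finset.sum_add_distrib]
        apply Finset.sum_congr rfl
        intro χ hχ
        rw [Finset.sum_add_distrib, Finset.sum_ite_eq, if_pos hχ, Finset.mul_sum]
    _ ≤ (R.card : ℝ) * ∑ χ ∈ S, ‖b χ‖ ^ 2 + E * (S.card * ∑ χ ∈ S, ‖b χ‖ ^ 2) := by
        have h5 : (∑ χ ∈ S, ‖b χ‖) ^ 2 ≤ S.card * ∑ χ ∈ S, ‖b χ‖ ^ 2 := sq_sum_le_card_mul_sum_sq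
        have := mul_le_mul_of_nonneg_left h5 hE0
        linarith

open Classical in
theorem quasi (δ : ℝ) (hδ : 0 < δ) (hδ1 : δ ≤ 1 / 2) : ∀ᶠ N : ℕ in atTop,
    ∀ S : Finset (DirichletCharacter ℂ N), (S.card : ℝ) ≤ (N : ℝ) ^ (δ / 4) →
    ∀ b : DirichletCharacter ℂ N → ℂ, ∀ X : ℕ, (N : ℝ) ^ (1 / 2 + δ) ≤ X →
    ∑ x ∈ (range X).filter (fun x => x.Coprime N), ‖∑ χ ∈ S, b χ * χ (x : ZMod N)‖ ^ 2 ≤
      (1 + (N : ℝ) ^ (-(δ / 4))) * ((range X).filter (fun x => x.Coprime N)).card *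
        ∑ χ ∈ S, ‖b χ‖ ^ 2 := by
  filter_upwards [pv (δ / 8) (by linarith), cop_count (1 / 8) (by norm_num), totient_lower,
    ev_pow (1 / 2 + 5 * δ / 8) (1 / 2 + δ) (by linarith) 1 2, ev_log 1,
    eventually_ge_atTop 2] with N h1 h2 h3 h4 h5 hN2
  intro S hS b X hX
  haveI : NeZero N := ⟨by omega⟩
  have hN0 : (0 : ℝ) < N := by
    have : 0 < N := by omega
    exact_mod_cast this
  have hN1 : (1 : ℝ) ≤ N := by
    have : 1 ≤ N := by omega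
    exact_mod_cast this
  have hlog : 0 < Real.log N := by linarith
  set E : ℝ := (N : ℝ) ^ (1 / 2 + δ / 8) with hE
  have hE0 : 0 ≤ E := Real.rpow_nonneg hN0.le _
  have h6 := quasi_expand N S b X E hE0 (fun χ hχ => h1 χ hχ X)
  set R := (range X).filter (fun x => x.Coprime N) with hR
  set B := ∑ χ ∈ S, ‖b χ‖ ^ 2 with hB
  have hB0 : 0 ≤ B := Finset.sum_nonneg fun _ _ => by positivity
  -- lower bound for Φ
  have hΦ : (N : ℝ) ^ (1 / 2 + 5 * δ / 8) ≤ (R.card : ℝ) := by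
    have h7 := h2 X
    rw [abs_le] at h7
    have h8 : (1 : ℝ) / Real.log N ≤ (N.totient : ℝ) / N := by
      rw [div_le_div_iff₀ hlog hN0]
      linarith
    have h9 : (X : ℝ) * (1 / Real.log N) ≤ X * ((N.totient : ℝ) / N) :=
      mul_le_mul_of_nonneg_left h8 (Nat.cast_nonneg X)
    have h10 : 2 * (N : ℝ) ^ (1 / 2 + 5 * δ / 8) ≤ X * (1 / Real.log N) := by
      rw [mul_one_div, le_div_iff₀ hlog]
      rw [pow_one] at h4
      linarith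
    have h11 : (N : ℝ) ^ (1 / 8 : ℝ) ≤ (N : ℝ) ^ (1 / 2 + 5 * δ / 8) :=
      Real.rpow_le_rpow_of_exponent_le hN1 (by linarith)
    linarith [h7.1]
  have h12 : E * (S.card * B) ≤ (N : ℝ) ^ (-(δ / 4)) * R.card * B := by
    have h13 : E * (S.card : ℝ) ≤ (N : ℝ) ^ (-(δ / 4)) * R.card := by
      calc E * (S.card : ℝ) ≤ (N : ℝ) ^ (1 / 2 + δ / 8) * (N : ℝ) ^ (δ / 4) :=
            mul_le_mul_of_nonneg_left hS hE0
        _ = (N : ℝ) ^ (-(δ / 4)) * (N : ℝ) ^ (1 / 2 + 5 * δ / 8) := by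
            rw [← Real.rpow_add hN0, ← Real.rpow_add hN0]
            congr 1
            ring
        _ ≤ (N : ℝ) ^ (-(δ / 4)) * R.card :=
            mul_le_mul_of_nonneg_left hΦ (Real.rpow_nonneg hN0.le _)
    calc E * (S.card * B) = E * S.card * B := by ring
      _ ≤ _ := mul_le_mul_of_nonneg_right h13 hB0
  calc _ ≤ (R.card : ℝ) * B + E * (S.card * B) := h6
    _ ≤ (R.card : ℝ) * B + (N : ℝ) ^ (-(δ / 4)) * R.card * B := by linarith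
    _ = _ := by ring

end Pool.Agent.GLI
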