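import Pool.Agent.GLI.Spec
import Pool.Agent.GLI.Quasi
import Pool.Agent.GLI.Cheb
import Pool.Agent.GLI.Ev
import Pool.Agent.GLI.DivB

set_option autoImplicit false

/-!
Module Window (proved). See the blueprint: `window`.
-/

open Finset Filter

namespace Pool.Agent.GLI

theorem win_omega (a : ℕ) (ha : a ≠ 0) : (a.primeFactors.card : ℝ) * Real.log 2 ≤ Real.log a := by
  have h1 : 2 ^ a.primeFactors.card ≤ ∏ p ∈ a.primeFactors, p :=
    Finset.pow_card_le_prod a.primeFactors (fun p => p) 2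
      (fun p hp => (Nat.prime_of_mem_primeFactors hp).two_le)
  have h2 : ∏ p ∈ a.primeFactors, p ≤ a :=
    Nat.le_of_dvd (Nat.pos_of_ne_zero ha) (Nat.prod_primeFactors_dvd a)
  have h3 : (2 : ℝ) ^ a.primeFactors.card ≤ a := by
    exact_mod_cast h1.trans h2
  have h4 := Real.log_le_log (by positivity) h3
  rwa [Real.log_pow] at h4

open Classical in
theorem win_count (N P X : ℕ) (hN : 2 ≤ N) (hX : ∀ x < X, P * x < N) (h : ℕ → ℝ)
    (h0 : ∀ a, 0 ≤ h a) :
    ∑ x ∈ (range X).filter (fun x => x.Coprime N), ∑ p ∈ win N P, h (p * x) ≤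
      Real.log N / Real.log 2 * ∑ a ∈ (range N).filter (fun a => a.Coprime N), h a := by
  have hl2 : 0 < Real.log 2 := Real.log_pos (by norm_num)
  rw [← Finset.sum_product']
  have hmaps : ∀ y ∈ ((range X).filter fun x => x.Coprime N) ×ˢ win N P,
      y.2 * y.1 ∈ (range N).filter fun a => a.Coprime N := by
    intro y hy
    rw [mem_product, mem_filter, mem_range] at hy
    obtain ⟨⟨hx, hxc⟩, hp⟩ := hy
    unfold win at hp
    rw [mem_filter, mem_Ioc] at hp
    rw [mem_filter, mem_range]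
    refine ⟨lt_of_le_of_lt (Nat.mul_le_mul_right _ hp.1.2) (hX _ hx), ?_⟩
    exact Nat.Coprime.mul_left ((Nat.Prime.coprime_iff_not_dvd hp.2.1).2 hp.2.2) hxc
  rw [← Finset.sum_fiberwise_of_maps_to hmaps, Finset.mul_sum]
  refine Finset.sum_le_sum fun a ha => ?_
  rw [mem_filter, mem_range] at ha
  have ha0 : a ≠ 0 := by
    rintro rfl
    have := ha.2
    rw [Nat.coprime_zero_left] at this
    omega
  have h1 : ∑ y ∈ (((range X).filter fun x => x.Coprime N) ×ˢ win N P).filter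
      (fun y => y.2 * y.1 = a), h (y.2 * y.1) =
      ((((range X).filter fun x => x.Coprime N) ×ˢ win N P).filter
      (fun y => y.2 * y.1 = a)).card * h a := by
    rw [← nsmul_eq_mul, ← Finset.sum_const]
    refine Finset.sum_congr rfl fun y hy => ?_
    rw [(mem_filter.1 hy).2]
  rw [h1]
  refine mul_le_mul_of_nonneg_right ?_ (h0 a)
  have h2 : ((((range X).filter fun x => x.Coprime N) ×ˢ win N P).filter
      (fun y => y.2 * y.1 = a)).card ≤ a.primeFactors.card := by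
    refine Finset.card_le_card_of_injOn (fun y => y.2) ?_ ?_
    · intro y hy
      rw [mem_coe, mem_filter, mem_product] at hy
      have hp := hy.1.2
      unfold win at hp
      rw [mem_filter] at hp
      rw [mem_coe, Nat.mem_primeFactors]
      exact ⟨hp.2.1, ⟨y.1, hy.2.symm⟩, ha0⟩
    · intro y hy z hz hyz
      rw [mem_coe, mem_filter, mem_product] at hy hz
      have hp := hy.1.2
      unfold win at hp
      rw [mem_filter] at hp
      have hyz' : y.2 = z.2 := hyz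
      have h3 : y.2 * y.1 = y.2 * z.1 := by
        rw [hy.2, hyz', hz.2]
      have h4 := Nat.eq_of_mul_eq_mul_left hp.2.1.pos h3
      exact Prod.ext h4 hyz'
  have h3 := win_omega a ha0
  have h4 : Real.log a ≤ Real.log N :=
    Real.log_le_log (by exact_mod_cast Nat.pos_of_ne_zero ha0) (by exact_mod_cast ha.1.le)
  rw [le_div_iff₀ hl2]
  have h5 : ((((((range X).filter fun x => x.Coprime N) ×ˢ win N P).filter
      (fun y => y.2 * y.1 = a)).card : ℕ) : ℝ) ≤ (a.primeFactors.card : ℝ) := by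
    exact_mod_cast h2
  calc _ ≤ (a.primeFactors.card : ℝ) * Real.log 2 := mul_le_mul_of_nonneg_right h5 hl2.le
    _ ≤ _ := h3.trans h4

open Classical in
theorem win_jensen (N : ℕ) [NeZero N] (Q : Finset ℕ) (hQ : ∀ p ∈ Q, p.Prime) (hQ0 : 0 < Q.card)
    (S : Finset (DirichletCharacter ℂ N)) (x : ℕ) (hx : x ≠ 0) :
    (Q.card : ℝ) * ‖(lam x : ℂ) + ∑ χ ∈ S, cf N χ * mean Q χ * χ (x : ZMod N)‖ ^ 2 ≤
      ∑ p ∈ Q, ‖(lam (p * x) : ℂ) - ∑ χ ∈ S, cf N χ * χ ((p * x : ℕ) : ZMod N)‖ ^ 2 := by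
  set v : ℕ → ℂ := fun p => (lam (p * x) : ℂ) - ∑ χ ∈ S, cf N χ * χ ((p * x : ℕ) : ZMod N) with hv
  have hq : (0 : ℝ) < Q.card := by exact_mod_cast hQ0
  have hqc : (Q.card : ℂ) ≠ 0 := by exact_mod_cast hQ0.ne'
  have h1 : ∑ p ∈ Q, v p =
      -((Q.card : ℂ) * ((lam x : ℂ) + ∑ χ ∈ S, cf N χ * mean Q χ * χ (x : ZMod N))) := by
    have h2 : ∀ p ∈ Q, v p = -(lam x : ℂ) - ∑ χ ∈ S, cf N χ * (χ (p : ZMod N) * χ (x : ZMod N)) := by
      intro p hp
      rw [hv]
      simp only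
      rw [lam_mul (hQ p hp).ne_zero hx, lam_prime (hQ p hp)]
      push_cast
      congr 1
      · ring
      · refine Finset.sum_congr rfl fun χ _ => ?_
        rw [map_mul]
    rw [Finset.sum_congr rfl h2, Finset.sum_sub_distrib, Finset.sum_const, nsmul_eq_mul,
      Finset.sum_comm]
    have h3 : ∀ χ ∈ S, ∑ p ∈ Q, cf N χ * (χ (p : ZMod N) * χ (x : ZMod N)) =
        (Q.card : ℂ) * (cf N χ * mean Q χ * χ (x : ZMod N)) := by
      intro χ _
      unfold mean
      rw [← Finset.mul_sum, ← Finset.sum_mul]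
      field_simp
    rw [Finset.sum_congr rfl h3, ← Finset.mul_sum]
    ring
  have h4 : ‖∑ p ∈ Q, v p‖ ^ 2 ≤ (Q.card : ℝ) * ∑ p ∈ Q, ‖v p‖ ^ 2 := by
    refine le_trans (pow_le_pow_left₀ (norm_nonneg _) (norm_sum_le _ _) 2) ?_
    exact sq_sum_le_card_mul_sum_sq
  rw [h1, norm_neg, norm_mul, mul_pow, Complex.norm_natCast] at h4
  have h5 : (Q.card : ℝ) * ((Q.card : ℝ) *
      ‖(lam x : ℂ) + ∑ χ ∈ S, cf N χ * mean Q χ * χ (x : ZMod N)‖ ^ 2) ≤
      (Q.card : ℝ) * ∑ p ∈ Q, ‖v p‖ ^ 2 := by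
    linarith [h4]
  exact le_of_mul_le_mul_left h5 hq

open Classical in
theorem win_core (N : ℕ) [NeZero N] (hN : 2 ≤ N) (P X : ℕ) (hX : ∀ x < X, P * x < N)
    (hQ0 : 0 < (win N P).card) (S : Finset (DirichletCharacter ℂ N)) :
    ((win N P).card : ℝ) * ∑ x ∈ (range X).filter (fun x => x.Coprime N),
      ‖(lam x : ℂ) + ∑ χ ∈ S, cf N χ * mean (win N P) χ * χ (x : ZMod N)‖ ^ 2 ≤
      Real.log N / Real.log 2 * (N.totient * ∑ χ ∈ Sᶜ, ‖cf N χ‖ ^ 2) := by
  rw [← cf_tail N hN S]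
  refine le_trans ?_ (win_count N P X hN hX
    (fun a => ‖(lam a : ℂ) - ∑ χ ∈ S, cf N χ * χ (a : ZMod N)‖ ^ 2) (fun a => by positivity))
  rw [Finset.mul_sum]
  refine Finset.sum_le_sum fun x hx => ?_
  have hx0 : x ≠ 0 := by
    rintro rfl
    have := (mem_filter.1 hx).2
    rw [Nat.coprime_zero_left] at this
    omega
  refine win_jensen N (win N P) ?_ hQ0 S x hx0
  intro p hp
  unfold win at hp
  exact (mem_filter.1 hp).2.1


theorem win_cs (F : Finset ℕ) (G l : ℕ → ℂ) (hl : ∀ x, ‖l x‖ = 1) (A : ℝ) (hA : 0 ≤ A)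
    (hE : ∑ x ∈ F, ‖l x + G x‖ ^ 2 ≤ A ^ 2 * F.card) :
    (F.card : ℝ) * (1 - 2 * A) ≤ ∑ x ∈ F, ‖G x‖ ^ 2 := by
  have h1 : (∑ x ∈ F, ‖l x + G x‖) ^ 2 ≤ (A * F.card) ^ 2 := by
    refine le_trans sq_sum_le_card_mul_sum_sq ?_
    have h2 : (F.card : ℝ) * ∑ x ∈ F, ‖l x + G x‖ ^ 2 ≤ (F.card : ℝ) * (A ^ 2 * F.card) :=
      mul_le_mul_of_nonneg_left hE (by positivity)
    nlinarith [h2]
  have h3 : ∑ x ∈ F, ‖l x + G x‖ ≤ A * F.card :=
    le_of_abs_le (abs_le_of_sq_le_sq h1 (by positivity))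
  have h4 : ∀ x ∈ F, 1 - 2 * ‖l x + G x‖ ≤ ‖G x‖ ^ 2 := by
    intro x _
    have h5 : ‖l x‖ ≤ ‖l x + G x‖ + ‖G x‖ := by
      have := norm_sub_le (l x + G x) (G x)
      simpa using this
    rw [hl x] at h5
    have h6 : 0 ≤ ‖G x‖ := norm_nonneg _
    have h7 : 0 ≤ ‖l x + G x‖ := norm_nonneg _
    by_cases h8 : ‖l x + G x‖ ≤ 1
    · nlinarith
    · push Not at h8
      nlinarith [sq_nonneg ‖G x‖]
  have h5 := Finset.sum_le_sum h4
  rw [Finset.sum_sub_distrib, ← Finset.mul_sum, Finset.sum_const, nsmul_eq_mul, mul_one] at h5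
  nlinarith [h5, h3]

theorem win_mean_le {N : ℕ} (Q : Finset ℕ) (χ : DirichletCharacter ℂ N) : ‖mean Q χ‖ ≤ 1 := by
  unfold mean
  rw [norm_div, Complex.norm_natCast]
  refine div_le_one_of_le₀ ?_ (by positivity)
  refine le_trans (norm_sum_le _ _) ?_
  have h1 : ∑ p ∈ Q, ‖χ (p : ZMod N)‖ ≤ ∑ p ∈ Q, (1 : ℝ) :=
    Finset.sum_le_sum fun p _ => DirichletCharacter.norm_le_one χ _
  simpa using h1

theorem win_lam_norm (x : ℕ) : ‖(lam x : ℂ)‖ = 1 := by
  rcases lam_cases x with h | h <;> rw [h] <;> simp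

open Classical in
theorem window (δ : ℝ) (hδ : 0 < δ) (hδ1 : δ ≤ 1 / 8) : ∀ᶠ N : ℕ in atTop, ∀ _ : NeZero N,
    ∀ S : Finset (DirichletCharacter ℂ N), (S.card : ℝ) ≤ (N : ℝ) ^ (δ / 8) →
    ∀ η : ℝ, ∑ χ ∈ Sᶜ, ‖cf N χ‖ ^ 2 ≤ η →
    ∀ P : ℕ, Real.log N ^ 2 ≤ (P : ℝ) → (P : ℝ) ≤ (N : ℝ) ^ (1 / 2 - δ) →
    ∑ χ ∈ S, ‖cf N χ‖ ^ 2 * (1 - ‖mean (win N P) χ‖ ^ 2) ≤
      Real.log N ^ 2 * Real.sqrt η + (N : ℝ) ^ (-(δ / 16)) := by
  filter_upwards [win_facts, quasi δ hδ (by linarith), cop_count (1 / 4) (by norm_num),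
    totient_lower, ev_log 7, eventually_ge_atTop 3, ev_pow (1 / 4) (1 / 2) (by norm_num) 1 2]
    with N hwin hquasi hcop htot hL hN3 hpow
  intro hNZ S hS η hη P hP1 hP2
  have hNr : (0 : ℝ) < N := by
    have : 0 < N := by omega
    exact_mod_cast this
  have hN1 : (1 : ℝ) ≤ N := by
    have : 1 ≤ N := by omega
    exact_mod_cast this
  set L := Real.log N with hLdef
  have hL0 : 0 < L := by linarith
  have hPr : (0 : ℝ) < P := lt_of_lt_of_le (by positivity) hP1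
  have hP0 : 0 < P := by exact_mod_cast hPr
  have hη0 : 0 ≤ η := le_trans (Finset.sum_nonneg fun χ _ => by positivity) hη
  have hphi : (0 : ℝ) < N.totient := by
    have : 0 < N.totient := Nat.totient_pos.2 (by omega)
    exact_mod_cast this
  -- the length
  set X : ℕ := (N - 1) / P + 1 with hXdef
  have hX : ∀ x < X, P * x < N := by
    intro x hx
    have h1 : x ≤ (N - 1) / P := by omega
    have h2 : P * x ≤ P * ((N - 1) / P) := Nat.mul_le_mul_left _ h1
    have h3 : P * ((N - 1) / P) ≤ N - 1 := Nat.mul_div_le _ _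
    omega
  have hXP : (N : ℝ) ≤ X * P := by
    have h1 : N - 1 < P * ((N - 1) / P) + P := by
      have h2 := Nat.div_add_mod (N - 1) P
      have h3 := Nat.mod_lt (N - 1) hP0
      omega
    have h2 : N ≤ X * P := by
      rw [hXdef, Nat.add_mul, one_mul, Nat.mul_comm]
      omega
    exact_mod_cast h2
  have hX2 : (N : ℝ) ^ (1 / 2 + δ) ≤ X := by
    have h1 : (N : ℝ) ^ (1 / 2 + δ) * (N : ℝ) ^ (1 / 2 - δ) = N := by
      rw [← Real.rpow_add hNr]
      have : (1 / 2 + δ + (1 / 2 - δ) : ℝ) = 1 := by ring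
      rw [this, Real.rpow_one]
    have h2 : (N : ℝ) ^ (1 / 2 + δ) * P ≤ X * P := by
      refine le_trans ?_ hXP
      calc (N : ℝ) ^ (1 / 2 + δ) * P ≤ (N : ℝ) ^ (1 / 2 + δ) * (N : ℝ) ^ (1 / 2 - δ) :=
            mul_le_mul_of_nonneg_left hP2 (by positivity)
        _ = N := h1
    exact le_of_mul_le_mul_right h2 hPr
  set F := (range X).filter (fun x => x.Coprime N) with hF
  -- size of F
  have hX3 : (N : ℝ) ^ (1 / 2 : ℝ) ≤ X :=
    le_trans (Real.rpow_le_rpow_of_exponent_le hN1 (by linarith)) hX2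
  have hXr : (0 : ℝ) < X := lt_of_lt_of_le (by positivity) hX3
  have hFlow : (X : ℝ) * (N.totient / N) / 2 ≤ F.card := by
    have h1 := (abs_le.1 (hcop X)).1
    have h2 : (N : ℝ) ^ (1 / 4 : ℝ) ≤ (X : ℝ) * (N.totient / N) / 2 := by
      have h3 : 1 / L ≤ (N.totient : ℝ) / N := by
        rw [div_le_div_iff₀ hL0 hNr]
        linarith
      have h4 : (X : ℝ) * (1 / L) ≤ (X : ℝ) * (N.totient / N) :=
        mul_le_mul_of_nonneg_left h3 hXr.le
      have h5 : (N : ℝ) ^ (1 / 2 : ℝ) * (1 / L) ≤ (X : ℝ) * (1 / L) :=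
        mul_le_mul_of_nonneg_right hX3 (by positivity)
      have h6 : 2 * (N : ℝ) ^ (1 / 4 : ℝ) ≤ (N : ℝ) ^ (1 / 2 : ℝ) * (1 / L) := by
        rw [mul_one_div, le_div_iff₀ hL0]
        rw [pow_one] at hpow
        exact hpow
      linarith
    linarith
  have hFlow2 : (N.totient : ℝ) / (2 * P) ≤ F.card := by
    refine le_trans ?_ hFlow
    rw [div_le_iff₀ (by positivity)]
    have h1 : (X : ℝ) * (N.totient / N) / 2 * (2 * P) = (X * P) * N.totient / N := by
      field_simp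
    rw [h1, le_div_iff₀ hNr]
    nlinarith [hXP, hphi]
  have hFpos : (0 : ℝ) < F.card := lt_of_lt_of_le (by positivity) hFlow2
  -- size of win
  have hlogP : 0 < Real.log P := by
    refine Real.log_pos ?_
    nlinarith
  have hlogP2 : Real.log P ≤ L / 2 := by
    have h1 := Real.log_le_log hPr hP2
    rw [Real.log_rpow hNr] at h1
    nlinarith
  have hq : (P : ℝ) / (4 * L) ≤ (win N P).card := by
    refine le_trans ?_ (hwin P hP1).1
    rw [div_le_div_iff₀ (by positivity) (by positivity)]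
    nlinarith
  have hqpos : (0 : ℝ) < (win N P).card := lt_of_lt_of_le (by positivity) hq
  have hq0 : 0 < (win N P).card := by exact_mod_cast hqpos
  have hcore := win_core N (by omega) P X hX hq0 S
  rw [← hF, ← hLdef] at hcore
  set E := ∑ x ∈ F, ‖(lam x : ℂ) + ∑ χ ∈ S, cf N χ * mean (win N P) χ * χ (x : ZMod N)‖ ^ 2
    with hEdef
  have hprod : (N.totient : ℝ) / (8 * L) ≤ (win N P).card * F.card := by
    have h1 : (P : ℝ) / (4 * L) * (N.totient / (2 * P)) ≤ (win N P).card * F.card :=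
      mul_le_mul hq hFlow2 (by positivity) hqpos.le
    have h2 : (P : ℝ) / (4 * L) * (N.totient / (2 * P)) = (N.totient : ℝ) / (8 * L) := by
      field_simp
      norm_num
    rwa [h2] at h1
  have hE : E ≤ (7 / 2 * L * Real.sqrt η) ^ 2 * F.card := by
    have hl2 : 0.6931471803 < Real.log 2 := Real.log_two_gt_d9
    have hl2p : 0 < Real.log 2 := by linarith
    have h1 : ((win N P).card : ℝ) * E ≤ L / Real.log 2 * (N.totient * η) := by
      refine le_trans hcore ?_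
      refine mul_le_mul_of_nonneg_left ?_ (by positivity)
      exact mul_le_mul_of_nonneg_left hη hphi.le
    have h2 : (N.totient : ℝ) ≤ 8 * L * ((win N P).card * F.card) := by
      rw [div_le_iff₀ (by positivity)] at hprod
      linarith
    have h3 : L / Real.log 2 ≤ 49 / 32 * L := by
      rw [div_le_iff₀ hl2p]
      nlinarith
    have h4 : ((win N P).card : ℝ) * E ≤
        ((win N P).card : ℝ) * ((7 / 2 * L * Real.sqrt η) ^ 2 * F.card) := by
      have h5 : (7 / 2 * L * Real.sqrt η) ^ 2 = 49 / 4 * L ^ 2 * η := by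
        rw [mul_pow, Real.sq_sqrt hη0]
        ring
      rw [h5]
      calc ((win N P).card : ℝ) * E ≤ L / Real.log 2 * (N.totient * η) := h1
        _ ≤ 49 / 32 * L * (N.totient * η) := mul_le_mul_of_nonneg_right h3 (by positivity)
        _ ≤ 49 / 32 * L * (8 * L * ((win N P).card * F.card) * η) := by
            refine mul_le_mul_of_nonneg_left ?_ (by positivity)
            exact mul_le_mul_of_nonneg_right h2 hη0
        _ = _ := by ring
    exact le_of_mul_le_mul_left h4 hqpos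
  have hcs := win_cs F (fun x => ∑ χ ∈ S, cf N χ * mean (win N P) χ * χ (x : ZMod N))
    (fun x => (lam x : ℂ)) win_lam_norm (7 / 2 * L * Real.sqrt η) (by positivity) hE
  have hquas := hquasi S (le_trans hS (Real.rpow_le_rpow_of_exponent_le hN1 (by linarith)))
    (fun χ => cf N χ * mean (win N P) χ) X hX2
  rw [← hF] at hquas
  have hcomb := le_trans hcs hquas
  set M := ∑ χ ∈ S, ‖cf N χ * mean (win N P) χ‖ ^ 2 with hM
  have hM2 : M = ∑ χ ∈ S, ‖cf N χ‖ ^ 2 * ‖mean (win N P) χ‖ ^ 2 := by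
    rw [hM]
    refine Finset.sum_congr rfl fun χ _ => ?_
    rw [norm_mul, mul_pow]
  have hC1 : ∑ χ ∈ S, ‖cf N χ‖ ^ 2 ≤ 1 := by
    rw [← cf_parseval N (by omega)]
    exact Finset.sum_le_sum_of_subset_of_nonneg (Finset.subset_univ _) fun _ _ _ => by positivity
  have hM1 : M ≤ 1 := by
    refine le_trans ?_ hC1
    rw [hM2]
    refine Finset.sum_le_sum fun χ _ => ?_
    have h1 := win_mean_le (win N P) χ
    have h2 : ‖mean (win N P) χ‖ ^ 2 ≤ 1 := pow_le_one₀ (norm_nonneg _) h1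
    exact mul_le_of_le_one_right (by positivity) h2
  have hlow : 1 - 2 * (7 / 2 * L * Real.sqrt η) ≤ (1 + (N : ℝ) ^ (-(δ / 4))) * M := by
    have h1 : (F.card : ℝ) * (1 - 2 * (7 / 2 * L * Real.sqrt η)) ≤
        (F.card : ℝ) * ((1 + (N : ℝ) ^ (-(δ / 4))) * M) := by
      linarith [hcomb]
    exact le_of_mul_le_mul_left h1 hFpos
  have hsum : ∑ χ ∈ S, ‖cf N χ‖ ^ 2 * (1 - ‖mean (win N P) χ‖ ^ 2) =
      ∑ χ ∈ S, ‖cf N χ‖ ^ 2 - M := by
    rw [hM2, ← Finset.sum_sub_distrib]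
    refine Finset.sum_congr rfl fun χ _ => ?_
    ring
  rw [hsum]
  have hε : (N : ℝ) ^ (-(δ / 4)) ≤ (N : ℝ) ^ (-(δ / 16)) :=
    Real.rpow_le_rpow_of_exponent_le hN1 (by linarith)
  have hε0 : (0 : ℝ) ≤ (N : ℝ) ^ (-(δ / 4)) := by positivity
  have hεM : (N : ℝ) ^ (-(δ / 4)) * M ≤ (N : ℝ) ^ (-(δ / 4)) := mul_le_of_le_one_right hε0 hM1
  have hLs : 7 * L * Real.sqrt η ≤ L ^ 2 * Real.sqrt η := by
    refine mul_le_mul_of_nonneg_right ?_ (Real.sqrt_nonneg _)
    nlinarith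
  linarith [hlow, hC1, hε, hεM, hLs]

end Pool.Agent.GLI
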