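import Pool.Agent.GLI.Hits
import Pool.Agent.GLI.CharCount
import Pool.Agent.GLI.Window
import Pool.Agent.GLI.Chain
import Pool.Agent.GLI.Vino

set_option autoImplicit false

/-!
Module Core. The inverse theorem: one real character carries the mass.
-/

open Finset Filter

namespace Pool.Agent.GLI

namespace Core

theorem norm_char {N : ℕ} (χ : DirichletCharacter ℂ N) {p : ℕ} (hp : p.Coprime N) :
    ‖χ (p : ZMod N)‖ = 1 := by
  have h : IsUnit (p : ZMod N) := (ZMod.isUnit_iff_coprime p N).2 hp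
  obtain ⟨u, hu⟩ := h
  rw [← hu]
  exact DirichletCharacter.unit_norm_eq_one χ u

theorem win_coprime {N P p : ℕ} (hp : p ∈ win N P) : p.Coprime N := by
  simp only [win, mem_filter, mem_Ioc] at hp
  exact (Nat.Prime.coprime_iff_not_dvd hp.2.1).2 hp.2.2

theorem norm_mean_le {N : ℕ} (Q : Finset ℕ) (χ : DirichletCharacter ℂ N) : ‖mean Q χ‖ ≤ 1 := by
  unfold mean
  rcases Q.eq_empty_or_nonempty with h | h
  · subst h; simp
  · rw [norm_div, Complex.norm_natCast]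
    have hc : (0:ℝ) < Q.card := by exact_mod_cast h.card_pos
    rw [div_le_one hc]
    calc ‖∑ p ∈ Q, χ (p : ZMod N)‖ ≤ ∑ p ∈ Q, ‖χ (p : ZMod N)‖ := norm_sum_le _ _
      _ ≤ ∑ p ∈ Q, (1:ℝ) := Finset.sum_le_sum fun p _ => DirichletCharacter.norm_le_one χ _
      _ = Q.card := by simp

theorem sum_sq {N : ℕ} (Q : Finset ℕ) (hQ : ∀ p ∈ Q, p.Coprime N) (χ : DirichletCharacter ℂ N) :
    ∑ p ∈ Q, ‖1 + χ (p : ZMod N)‖ ^ 2 = Q.card * (2 + 2 * (mean Q χ).re) := by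
  have h1 : ∀ p ∈ Q, ‖1 + χ (p : ZMod N)‖ ^ 2 = 2 + 2 * (χ (p : ZMod N)).re := by
    intro p hp
    have h := norm_char χ (hQ p hp)
    rw [← Complex.normSq_eq_norm_sq, Complex.normSq_add, Complex.normSq_one,
      Complex.normSq_eq_norm_sq, h]
    simp
    ring
  rw [Finset.sum_congr rfl h1, Finset.sum_add_distrib, ← Finset.mul_sum]
  rcases Q.eq_empty_or_nonempty with h | h
  · subst h; simp
  · have hc : (0:ℝ) < Q.card := by exact_mod_cast h.card_pos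
    unfold mean
    rw [Complex.div_natCast_re, Complex.re_sum]
    simp only [sum_const, nsmul_eq_mul]
    field_simp

open Classical in
/-- the mass outside `S` -/
theorem tail_S (N : ℕ) [NeZero N] (P1 : ℕ) (η : ℝ)
    (hη : ∀ p : ℕ, p.Prime → p ≤ P1 → ¬ p ∣ N →
      ∑ χ : DirichletCharacter ℂ N, ‖cf N χ‖ ^ 2 * ‖1 + χ (p : ZMod N)‖ ^ 2 ≤ η)
    (hne : (win N P1).Nonempty) :
    ∑ χ ∈ ((univ : Finset (DirichletCharacter ℂ N)).filter fun χ =>
      1 / 2 ≤ ‖mean (win N P1) χ‖)ᶜ, ‖cf N χ‖ ^ 2 ≤ η := by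
  have hc : (0:ℝ) < (win N P1).card := by exact_mod_cast hne.card_pos
  have h1 : ∀ χ ∈ ((univ : Finset (DirichletCharacter ℂ N)).filter fun χ =>
      1 / 2 ≤ ‖mean (win N P1) χ‖)ᶜ, (win N P1).card * ‖cf N χ‖ ^ 2 ≤
        ∑ p ∈ win N P1, ‖cf N χ‖ ^ 2 * ‖1 + χ (p : ZMod N)‖ ^ 2 := by
    intro χ hχ
    simp only [mem_compl, mem_filter, mem_univ, true_and, not_le] at hχ
    rw [← Finset.mul_sum, sum_sq _ (fun p hp => win_coprime hp)]
    have h2 : -(1/2) ≤ (mean (win N P1) χ).re := by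
      have := Complex.abs_re_le_norm (mean (win N P1) χ)
      have := (abs_le.1 this).1
      linarith
    have h3 : (0:ℝ) ≤ ‖cf N χ‖ ^ 2 := by positivity
    have h4 : ((win N P1).card : ℝ) ≤ (win N P1).card * (2 + 2 * (mean (win N P1) χ).re) := by
      nlinarith
    nlinarith [mul_le_mul_of_nonneg_left h4 h3]
  have h2 : (win N P1).card * ∑ χ ∈ ((univ : Finset (DirichletCharacter ℂ N)).filter fun χ =>
      1 / 2 ≤ ‖mean (win N P1) χ‖)ᶜ, ‖cf N χ‖ ^ 2 ≤ (win N P1).card * η := by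
    calc _ = ∑ χ ∈ ((univ : Finset (DirichletCharacter ℂ N)).filter fun χ =>
          1 / 2 ≤ ‖mean (win N P1) χ‖)ᶜ, (win N P1).card * ‖cf N χ‖ ^ 2 := Finset.mul_sum _ _ _
      _ ≤ ∑ χ ∈ ((univ : Finset (DirichletCharacter ℂ N)).filter fun χ =>
          1 / 2 ≤ ‖mean (win N P1) χ‖)ᶜ,
            ∑ p ∈ win N P1, ‖cf N χ‖ ^ 2 * ‖1 + χ (p : ZMod N)‖ ^ 2 := Finset.sum_le_sum h1
      _ ≤ ∑ χ : DirichletCharacter ℂ N,
            ∑ p ∈ win N P1, ‖cf N χ‖ ^ 2 * ‖1 + χ (p : ZMod N)‖ ^ 2 :=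
          Finset.sum_le_sum_of_subset_of_nonneg (Finset.subset_univ _)
            (fun _ _ _ => by positivity)
      _ = ∑ p ∈ win N P1, ∑ χ : DirichletCharacter ℂ N,
            ‖cf N χ‖ ^ 2 * ‖1 + χ (p : ZMod N)‖ ^ 2 := Finset.sum_comm
      _ ≤ ∑ p ∈ win N P1, η := by
          refine Finset.sum_le_sum fun p hp => ?_
          simp only [win, mem_filter, mem_Ioc] at hp
          exact hη p hp.2.1 hp.1.2 hp.2.2
      _ = (win N P1).card * η := by simp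
  exact le_of_mul_le_mul_left h2 hc

/-- the good characters -/
def IsG (N P1 J : ℕ) (θ : ℝ) (χ : DirichletCharacter ℂ N) : Prop :=
  1 / 2 ≤ ‖mean (win N P1) χ‖ ∧
  (∀ p : ℕ, p.Prime → p ≤ P1 → ¬ p ∣ N → ‖1 + χ (p : ZMod N)‖ ^ 2 ≤ θ) ∧
  (∀ j ≤ J, 1 - θ ≤ ‖mean (win N (2 ^ j * P1)) χ‖ ^ 2)

open Classical in
theorem tail_G (N : ℕ) [NeZero N] (P1 J : ℕ) (θ η ω : ℝ) (hθ : 0 < θ)
    (hη : ∀ p : ℕ, p.Prime → p ≤ P1 → ¬ p ∣ N →
      ∑ χ : DirichletCharacter ℂ N, ‖cf N χ‖ ^ 2 * ‖1 + χ (p : ZMod N)‖ ^ 2 ≤ η)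
    (hη0 : 0 ≤ η)
    (hne : (win N P1).Nonempty)
    (hω : ∀ j ≤ J, ∑ χ ∈ (univ : Finset (DirichletCharacter ℂ N)).filter fun χ =>
      1 / 2 ≤ ‖mean (win N P1) χ‖,
      ‖cf N χ‖ ^ 2 * (1 - ‖mean (win N (2 ^ j * P1)) χ‖ ^ 2) ≤ ω) :
    ∑ χ ∈ (univ : Finset (DirichletCharacter ℂ N)).filter fun χ => ¬ IsG N P1 J θ χ,
      ‖cf N χ‖ ^ 2 ≤ η + (P1 * η + (J + 1) * ω) / θ := by
  set S := (univ : Finset (DirichletCharacter ℂ N)).filter fun χ =>
      1 / 2 ≤ ‖mean (win N P1) χ‖ with hS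
  set PP := (Icc 1 P1).filter fun p => p.Prime ∧ ¬ p ∣ N with hPP
  have hS' := tail_S N P1 η hη hne
  have hm : ∀ (j : ℕ) (χ : DirichletCharacter ℂ N),
      0 ≤ 1 - ‖mean (win N (2 ^ j * P1)) χ‖ ^ 2 := by
    intro j χ
    have h1 := norm_mean_le (win N (2 ^ j * P1)) χ
    have h2 := norm_nonneg (mean (win N (2 ^ j * P1)) χ)
    nlinarith
  -- pointwise
  have key : ∀ χ : DirichletCharacter ℂ N, ¬ IsG N P1 J θ χ →
      ‖cf N χ‖ ^ 2 ≤ (if χ ∈ Sᶜ then ‖cf N χ‖ ^ 2 else 0) +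
        (∑ p ∈ PP, ‖cf N χ‖ ^ 2 * ‖1 + χ (p : ZMod N)‖ ^ 2) / θ +
        (∑ j ∈ range (J + 1), if χ ∈ S then
          ‖cf N χ‖ ^ 2 * (1 - ‖mean (win N (2 ^ j * P1)) χ‖ ^ 2) else 0) / θ := by
    intro χ hχ
    have hF : (0:ℝ) ≤ ‖cf N χ‖ ^ 2 := by positivity
    have t1 : (0:ℝ) ≤ (if χ ∈ Sᶜ then ‖cf N χ‖ ^ 2 else 0) := by split_ifs <;> positivity
    have t2 : (0:ℝ) ≤ (∑ p ∈ PP, ‖cf N χ‖ ^ 2 * ‖1 + χ (p : ZMod N)‖ ^ 2) / θ := by positivity
    have t3 : (0:ℝ) ≤ (∑ j ∈ range (J + 1), if χ ∈ S then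
          ‖cf N χ‖ ^ 2 * (1 - ‖mean (win N (2 ^ j * P1)) χ‖ ^ 2) else 0) / θ := by
      refine div_nonneg (Finset.sum_nonneg fun j _ => ?_) hθ.le
      split_ifs
      · exact mul_nonneg hF (hm j χ)
      · exact le_rfl
    by_cases h1 : χ ∈ S
    · by_cases h2 : ∀ p : ℕ, p.Prime → p ≤ P1 → ¬ p ∣ N → ‖1 + χ (p : ZMod N)‖ ^ 2 ≤ θ
      · have h3 : ∃ j ≤ J, ‖mean (win N (2 ^ j * P1)) χ‖ ^ 2 < 1 - θ := by
          by_contra hcon
          push Not at hcon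
          exact hχ ⟨by simpa [hS] using h1, h2, hcon⟩
        obtain ⟨j, hj, h4⟩ := h3
        have h5 : ‖cf N χ‖ ^ 2 ≤ (∑ j ∈ range (J + 1), if χ ∈ S then
          ‖cf N χ‖ ^ 2 * (1 - ‖mean (win N (2 ^ j * P1)) χ‖ ^ 2) else 0) / θ := by
          rw [le_div_iff₀ hθ]
          have h6 : (if χ ∈ S then
            ‖cf N χ‖ ^ 2 * (1 - ‖mean (win N (2 ^ j * P1)) χ‖ ^ 2) else 0) ≤
            ∑ j ∈ range (J + 1), if χ ∈ S then
            ‖cf N χ‖ ^ 2 * (1 - ‖mean (win N (2 ^ j * P1)) χ‖ ^ 2) else 0 := by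
            refine Finset.single_le_sum (f := fun j => if χ ∈ S then
              ‖cf N χ‖ ^ 2 * (1 - ‖mean (win N (2 ^ j * P1)) χ‖ ^ 2) else 0) (fun i _ => ?_)
              (Finset.mem_range.2 (by omega))
            show 0 ≤ (if χ ∈ S then
              ‖cf N χ‖ ^ 2 * (1 - ‖mean (win N (2 ^ i * P1)) χ‖ ^ 2) else 0)
            rw [if_pos h1]
            exact mul_nonneg hF (hm i χ)
          refine le_trans ?_ h6
          rw [if_pos h1]
          exact mul_le_mul_of_nonneg_left (by linarith) hF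
        linarith
      · push Not at h2
        obtain ⟨p, hp, hp1, hp2, h3⟩ := h2
        have h5 : ‖cf N χ‖ ^ 2 ≤
            (∑ p ∈ PP, ‖cf N χ‖ ^ 2 * ‖1 + χ (p : ZMod N)‖ ^ 2) / θ := by
          rw [le_div_iff₀ hθ]
          have h6 : ‖cf N χ‖ ^ 2 * ‖1 + χ (p : ZMod N)‖ ^ 2 ≤
              ∑ p ∈ PP, ‖cf N χ‖ ^ 2 * ‖1 + χ (p : ZMod N)‖ ^ 2 := by
            refine Finset.single_le_sum (f := fun p : ℕ =>
              ‖cf N χ‖ ^ 2 * ‖1 + χ (p : ZMod N)‖ ^ 2) (fun i _ => by positivity) ?_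
            simp only [hPP, mem_filter, mem_Icc]
            exact ⟨⟨hp.one_lt.le, hp1⟩, hp, hp2⟩
          refine le_trans ?_ h6
          exact mul_le_mul_of_nonneg_left h3.le hF
        linarith
    · rw [if_pos (by simpa using h1)]
      linarith
  have hcard : (PP.card : ℝ) ≤ P1 := by
    have h1 : PP.card ≤ (Icc 1 P1).card := Finset.card_filter_le _ _
    rw [Nat.card_Icc] at h1
    exact_mod_cast (by simpa using h1)
  calc ∑ χ ∈ (univ : Finset (DirichletCharacter ℂ N)).filter fun χ => ¬ IsG N P1 J θ χ,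
      ‖cf N χ‖ ^ 2 ≤ ∑ χ ∈ (univ : Finset (DirichletCharacter ℂ N)).filter
        fun χ => ¬ IsG N P1 J θ χ, ((if χ ∈ Sᶜ then ‖cf N χ‖ ^ 2 else 0) +
        (∑ p ∈ PP, ‖cf N χ‖ ^ 2 * ‖1 + χ (p : ZMod N)‖ ^ 2) / θ +
        (∑ j ∈ range (J + 1), if χ ∈ S then
          ‖cf N χ‖ ^ 2 * (1 - ‖mean (win N (2 ^ j * P1)) χ‖ ^ 2) else 0) / θ) := by
        refine Finset.sum_le_sum fun χ hχ => key χ ?_
        simpa using hχ
    _ ≤ ∑ χ : DirichletCharacter ℂ N, ((if χ ∈ Sᶜ then ‖cf N χ‖ ^ 2 else 0) +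
        (∑ p ∈ PP, ‖cf N χ‖ ^ 2 * ‖1 + χ (p : ZMod N)‖ ^ 2) / θ +
        (∑ j ∈ range (J + 1), if χ ∈ S then
          ‖cf N χ‖ ^ 2 * (1 - ‖mean (win N (2 ^ j * P1)) χ‖ ^ 2) else 0) / θ) := by
        refine Finset.sum_le_sum_of_subset_of_nonneg (Finset.subset_univ _) fun χ _ _ => ?_
        have hF : (0:ℝ) ≤ ‖cf N χ‖ ^ 2 := by positivity
        have t1 : (0:ℝ) ≤ (if χ ∈ Sᶜ then ‖cf N χ‖ ^ 2 else 0) := by
          split_ifs <;> positivity
        have t2 : (0:ℝ) ≤ (∑ p ∈ PP, ‖cf N χ‖ ^ 2 * ‖1 + χ (p : ZMod N)‖ ^ 2) / θ := by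
          positivity
        have t3 : (0:ℝ) ≤ (∑ j ∈ range (J + 1), if χ ∈ S then
              ‖cf N χ‖ ^ 2 * (1 - ‖mean (win N (2 ^ j * P1)) χ‖ ^ 2) else 0) / θ := by
          refine div_nonneg (Finset.sum_nonneg fun j _ => ?_) hθ.le
          split_ifs
          · exact mul_nonneg hF (hm j χ)
          · exact le_rfl
        linarith
    _ = ∑ χ ∈ Sᶜ, ‖cf N χ‖ ^ 2 +
        (∑ p ∈ PP, ∑ χ : DirichletCharacter ℂ N,
          ‖cf N χ‖ ^ 2 * ‖1 + χ (p : ZMod N)‖ ^ 2) / θ +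
        (∑ j ∈ range (J + 1), ∑ χ ∈ S,
          ‖cf N χ‖ ^ 2 * (1 - ‖mean (win N (2 ^ j * P1)) χ‖ ^ 2)) / θ := by
        rw [Finset.sum_add_distrib, Finset.sum_add_distrib, ← Finset.sum_div, ← Finset.sum_div,
          Finset.sum_comm (s := univ) (t := PP), Finset.sum_comm (s := univ) (t := range (J + 1))]
        congr 1
        · congr 1
          rw [← Finset.sum_filter]
          congr 1
          ext χ
          simp
        · congr 1
          refine Finset.sum_congr rfl fun j _ => ?_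
          rw [← Finset.sum_filter]
          congr 1
          ext χ
          simp
    _ ≤ η + (∑ p ∈ PP, η) / θ + (∑ j ∈ range (J + 1), ω) / θ := by
        refine add_le_add (add_le_add hS' ?_) ?_
        · refine div_le_div_of_nonneg_right (Finset.sum_le_sum fun p hp => ?_) hθ.le
          simp only [hPP, mem_filter, mem_Icc] at hp
          exact hη p hp.2.1 hp.1.2 hp.2.2
        · refine div_le_div_of_nonneg_right (Finset.sum_le_sum fun j hj => ?_) hθ.le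
          exact hω j (by have := Finset.mem_range.1 hj; omega)
    _ ≤ η + (P1 * η + (J + 1) * ω) / θ := by
        simp only [sum_const, nsmul_eq_mul, card_range]
        rw [add_assoc, ← add_div]
        push_cast
        gcongr

theorem inv_apply {N : ℕ} [NeZero N] (χ : DirichletCharacter ℂ N) (a : ZMod N) :
    χ⁻¹ a = (starRingEnd ℂ) (χ a) := by
  rw [← MulChar.star_apply' χ a]
  rfl

theorem mean_inv {N : ℕ} [NeZero N] (Q : Finset ℕ) (χ : DirichletCharacter ℂ N) :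
    ‖mean Q χ⁻¹‖ = ‖mean Q χ‖ := by
  have h : mean Q χ⁻¹ = (starRingEnd ℂ) (mean Q χ) := by
    unfold mean
    rw [map_div₀, map_sum, map_natCast]
    congr 1
    exact Finset.sum_congr rfl fun p _ => inv_apply χ _
  rw [h, RCLike.norm_conj]

theorem norm_one_add_inv {N : ℕ} [NeZero N] (χ : DirichletCharacter ℂ N) (a : ZMod N) :
    ‖1 + χ⁻¹ a‖ = ‖1 + χ a‖ := by
  rw [inv_apply, ← RCLike.norm_conj (1 + χ a)]
  simp

theorem IsG.inv {N P1 J : ℕ} [NeZero N] {θ : ℝ} {χ : DirichletCharacter ℂ N}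
    (h : IsG N P1 J θ χ) : IsG N P1 J θ χ⁻¹ := by
  obtain ⟨h1, h2, h3⟩ := h
  refine ⟨by rwa [mean_inv], fun p hp hp1 hp2 => ?_, fun j hj => ?_⟩
  · rw [norm_one_add_inv]
    exact h2 p hp hp1 hp2
  · rw [mean_inv]
    exact h3 j hj

theorem dist_le {N : ℕ} [NeZero N] (χ ψ : DirichletCharacter ℂ N) {p : ℕ} (hp : p.Coprime N) :
    ‖1 - (χ * ψ⁻¹) (p : ZMod N)‖ ≤ ‖1 + χ (p : ZMod N)‖ + ‖1 + ψ (p : ZMod N)‖ := by
  have h1 : (χ * ψ⁻¹) (p : ZMod N) = χ (p : ZMod N) * (starRingEnd ℂ) (ψ (p : ZMod N)) := by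
    rw [MulChar.mul_apply, inv_apply]
  have h2 := norm_char ψ hp
  have h3 : ψ (p : ZMod N) * (starRingEnd ℂ) (ψ (p : ZMod N)) = 1 := by
    rw [Complex.mul_conj, Complex.normSq_eq_norm_sq, h2]
    simp
  have h4 : 1 - (χ * ψ⁻¹) (p : ZMod N) =
      (ψ (p : ZMod N) - χ (p : ZMod N)) * (starRingEnd ℂ) (ψ (p : ZMod N)) := by
    rw [h1, sub_mul, h3]
  rw [h4, norm_mul, RCLike.norm_conj, h2, mul_one]
  calc ‖ψ (p : ZMod N) - χ (p : ZMod N)‖ = ‖(1 + ψ (p : ZMod N)) - (1 + χ (p : ZMod N))‖ := by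
        congr 1; ring
    _ ≤ ‖1 + ψ (p : ZMod N)‖ + ‖1 + χ (p : ZMod N)‖ := norm_sub_le _ _
    _ = _ := add_comm _ _

theorem exists_J {P1 M : ℕ} (hP : 1 ≤ P1) (hM : P1 ≤ M) :
    ∃ J : ℕ, 2 ^ J * P1 ≤ M ∧ M < 2 ^ (J + 1) * P1 := by
  refine ⟨Nat.log 2 (M / P1), ?_, ?_⟩
  · have h1 : 2 ^ Nat.log 2 (M / P1) ≤ M / P1 := by
      refine Nat.pow_log_le_self 2 ?_
      have := Nat.div_pos hM (by omega)
      omega
    calc 2 ^ Nat.log 2 (M / P1) * P1 ≤ M / P1 * P1 := Nat.mul_le_mul_right _ h1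
      _ ≤ M := Nat.div_mul_le_self _ _
  · have h1 : M / P1 < 2 ^ (Nat.log 2 (M / P1) + 1) := Nat.lt_pow_succ_log_self (by norm_num) _
    exact (Nat.div_lt_iff_lt_mul (by omega)).1 h1

end Core

theorem core (D : ℕ) : ∃ C : ℕ, ∀ᶠ N : ℕ in atTop, ∀ _ : NeZero N, ∀ κ : ℤ, κ = 1 ∨ κ = -1 →
    ((W κ N).card : ℝ) ≤ N / Real.log N ^ C →
    ∃ χ : DirichletCharacter ℂ N, RealChar χ ∧
      (∀ p : ℕ, p.Prime → p ≤ lp N 3 → ¬ p ∣ N → χ (p : ZMod N) = -1) ∧
      1 - 1 / Real.log N ^ D ≤ ‖cf N χ‖ ^ 2 := by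
  classical
  obtain ⟨δ, c0, hδ0, hδ1, hc0, hvino⟩ := vino
  obtain ⟨A0, hA0⟩ := exists_nat_gt (24 / δ)
  set A : ℕ := max A0 3 with hA
  have hA3 : 3 ≤ A := le_max_right _ _
  have hAδ : (3 : ℝ) / A ≤ δ / 8 := by
    have h1 : (24 / δ : ℝ) < A := lt_of_lt_of_le hA0 (by exact_mod_cast le_max_left _ _)
    have hA' : (0:ℝ) < A := by positivity
    rw [div_lt_iff₀ hδ0] at h1
    rw [div_le_div_iff₀ hA' (by norm_num)]
    nlinarith
  set E : ℕ := D + A + 30 with hE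
  obtain ⟨C, hgood⟩ := ae_good A (2 * E + 1)
  refine ⟨C, ?_⟩
  have ev1 : ∀ᶠ N : ℕ in atTop, Real.log N ^ A ≤ (N : ℝ) ^ (1 / 4 : ℝ) := by
    filter_upwards [ev_pow 0 (1/4) (by norm_num) A 1] with N hN
    simpa using hN
  have ev2 : ∀ᶠ N : ℕ in atTop, Real.log N ^ E * (N : ℝ) ^ (-(δ / 16)) ≤ 1 := by
    filter_upwards [ev_pow (-(δ / 16)) 0 (by linarith) E 1] with N hN
    simpa [mul_comm] using hN
  filter_upwards [hgood, hvino, card_S A (by omega), window δ hδ0 (by linarith), chain, win_facts,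
    totient_lower, ev1, ev2, ev_log 100, ev_log (2 / c0), eventually_ge_atTop 3] with
    N hgood hvino hcard hwin hchain hwf htot ev1 ev2 hL hLc hN3
  intro hNZ κ hκ hW
  set L : ℝ := Real.log N with hLdef
  have hL0 : (0:ℝ) < L := by linarith
  have hL1 : (1:ℝ) ≤ L := by linarith
  have hN0 : (0:ℝ) < N := by positivity
  have hN1 : (1:ℝ) ≤ N := by exact_mod_cast (by omega : 1 ≤ N)
  have hφ : (0:ℝ) < N.totient := by exact_mod_cast Nat.totient_pos.2 (by omega)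
  -- `P1`
  set P1 : ℕ := lp N A with hP1
  have hP1a : L ^ 2 ≤ (P1 : ℝ) := by
    have h1 : L ^ A < (P1 : ℝ) + 1 := lt_lp N A
    have h2 : L ^ 3 ≤ L ^ A := pow_le_pow_right₀ hL1 hA3
    have h3 : L ^ 3 = L ^ 2 * L := by ring
    have h4 : (1:ℝ) ≤ L ^ 2 := one_le_pow₀ hL1
    nlinarith
  have hP1b : (P1 : ℝ) ≤ L ^ A := lp_le N A hL0.le
  have hP1c : 1 ≤ P1 := by
    have h4 : (1:ℝ) ≤ L ^ 2 := one_le_pow₀ hL1
    exact_mod_cast h4.trans hP1a
  have hlp3 : lp N 3 ≤ P1 := by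
    refine Nat.floor_mono ?_
    exact pow_le_pow_right₀ hL1 hA3
  -- `J`
  set M : ℕ := ⌊(N : ℝ) ^ (1 / 2 - δ)⌋₊ with hM
  have hMa : (M : ℝ) ≤ (N : ℝ) ^ (1 / 2 - δ) := Nat.floor_le (by positivity)
  have hMb : (N : ℝ) ^ (1 / 2 - δ) < M + 1 := Nat.lt_floor_add_one _
  have hP1M : P1 ≤ M := by
    refine Nat.le_floor ?_
    refine (hP1b.trans ev1).trans ?_
    exact Real.rpow_le_rpow_of_exponent_le hN1 (by linarith)
  obtain ⟨J, hJ1, hJ2⟩ := Core.exists_J hP1c hP1M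
  have hMN : (N : ℝ) ^ (1 / 2 - δ) ≤ N := by
    calc (N : ℝ) ^ (1 / 2 - δ) ≤ (N : ℝ) ^ (1 : ℝ) :=
          Real.rpow_le_rpow_of_exponent_le hN1 (by linarith)
      _ = N := Real.rpow_one _
  have hMN' : M ≤ N := by exact_mod_cast hMa.trans hMN
  have hJN : 2 ^ J * P1 ≤ N := hJ1.trans hMN'
  have hJL : (J : ℝ) + 1 ≤ 3 * L := by
    have h1 : 2 ^ J ≤ N := by nlinarith [Nat.one_le_two_pow (n := J)]
    have h2 : ((2 : ℝ) ^ J) ≤ N := by exact_mod_cast h1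
    have h3 : (J : ℝ) * Real.log 2 ≤ L := by
      have := Real.log_le_log (by positivity) h2
      rwa [Real.log_pow] at this
    have h4 : (1/2 : ℝ) < Real.log 2 := by
      have := Real.log_two_gt_d9
      linarith
    nlinarith [Nat.cast_nonneg (α := ℝ) J]
  -- windows
  have hwinP : ∀ j ≤ J, L ^ 2 ≤ ((2 ^ j * P1 : ℕ) : ℝ) ∧
      ((2 ^ j * P1 : ℕ) : ℝ) ≤ (N : ℝ) ^ (1 / 2 - δ) := by
    intro j hj
    constructor
    · refine hP1a.trans ?_
      have : P1 ≤ 2 ^ j * P1 := Nat.le_mul_of_pos_left _ (by positivity)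
      exact_mod_cast this
    · refine le_trans ?_ hMa
      have : 2 ^ j * P1 ≤ 2 ^ J * P1 :=
        Nat.mul_le_mul_right _ (Nat.pow_le_pow_right (by norm_num) hj)
      exact_mod_cast this.trans hJ1
  have hne : (win N P1).Nonempty := by
    obtain ⟨h6, -, -⟩ := hwf P1 hP1a
    have h7 : (1 : ℝ) < P1 := by nlinarith
    have h8 : (0 : ℝ) < (win N P1).card := by
      refine lt_of_lt_of_le ?_ h6
      have := Real.log_pos h7
      positivity
    rw [← Finset.card_pos]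
    exact_mod_cast h8
  -- `η`
  set η : ℝ := 4 / L ^ (2 * E) with hη
  have hη0 : 0 ≤ η := by positivity
  have hηp : ∀ p : ℕ, p.Prime → p ≤ P1 → ¬ p ∣ N →
      ∑ χ : DirichletCharacter ℂ N, ‖cf N χ‖ ^ 2 * ‖1 + χ (p : ZMod N)‖ ^ 2 ≤ η := by
    intro p hp hp1 hp2
    refine (cf_shift N (by omega) p ((Nat.Prime.coprime_iff_not_dvd hp).2 hp2)).trans ?_
    have h1 : (((range N).filter fun a => a.Coprime N ∧ lam ((p * a) % N) ≠ -lam a).card : ℝ) ≤
        N / L ^ (2 * E + 1) := by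
      refine le_trans ?_ (hgood κ hκ hW)
      have h2 : ((range N).filter fun a => a.Coprime N ∧ lam ((p * a) % N) ≠ -lam a) ⊆
          (range N).filter fun n => ¬ ∀ m : ℕ, 1 ≤ m → m ≤ lp N A → GoodAt N m n := by
        intro a ha
        simp only [mem_filter, mem_range] at ha ⊢
        refine ⟨ha.1, fun hcon => ha.2.2 ?_⟩
        have h3 := hcon p hp.one_lt.le hp1
        unfold GoodAt at h3
        rw [h3, lam_prime hp, Nat.mod_eq_of_lt ha.1]
        ring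
      exact_mod_cast Finset.card_le_card h2
    rw [div_le_iff₀ hφ, hη]
    calc 4 * (((range N).filter fun a => a.Coprime N ∧
          lam ((p * a) % N) ≠ -lam a).card : ℝ) ≤ 4 * (N / L ^ (2 * E + 1)) := by linarith
      _ ≤ 4 * (N.totient * L / L ^ (2 * E + 1)) := by gcongr
      _ = 4 / L ^ (2 * E) * N.totient := by
          rw [pow_succ]
          field_simp
  -- `ω`
  have hcardS : (((univ : Finset (DirichletCharacter ℂ N)).filter fun χ =>
      1 / 2 ≤ ‖mean (win N P1) χ‖).card : ℝ) ≤ (N : ℝ) ^ (δ / 8) :=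
    (hcard hNZ).trans (Real.rpow_le_rpow_of_exponent_le hN1 hAδ)
  have hω : ∀ j ≤ J, ∑ χ ∈ (univ : Finset (DirichletCharacter ℂ N)).filter fun χ =>
      1 / 2 ≤ ‖mean (win N P1) χ‖,
      ‖cf N χ‖ ^ 2 * (1 - ‖mean (win N (2 ^ j * P1)) χ‖ ^ 2) ≤ 3 * L ^ 2 / L ^ E := by
    intro j hj
    refine (hwin hNZ _ hcardS η (Core.tail_S N P1 η hηp hne) (2 ^ j * P1)
      (hwinP j hj).1 (hwinP j hj).2).trans ?_
    have h1 : Real.sqrt η = 2 / L ^ E := by
      rw [hη, show (4 : ℝ) / L ^ (2 * E) = (2 / L ^ E) ^ 2 by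
        rw [div_pow, ← pow_mul, mul_comm E 2]; norm_num]
      exact Real.sqrt_sq (by positivity)
    have h2 : (N : ℝ) ^ (-(δ / 16)) ≤ L ^ 2 / L ^ E := by
      rw [le_div_iff₀ (by positivity), mul_comm]
      exact ev2.trans (one_le_pow₀ hL1)
    rw [h1]
    calc L ^ 2 * (2 / L ^ E) + (N : ℝ) ^ (-(δ / 16)) ≤ L ^ 2 * (2 / L ^ E) + L ^ 2 / L ^ E := by
          linarith
      _ = 3 * L ^ 2 / L ^ E := by ring
  set θ : ℝ := 1 / L ^ 20 with hθ
  have hθ0 : 0 < θ := by positivity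
  have hθ1 : θ < 1 := by
    rw [hθ, div_lt_one (by positivity)]
    exact one_lt_pow₀ (by linarith) (by norm_num)
  have htail := Core.tail_G N P1 J θ η (3 * L ^ 2 / L ^ E) hθ0 hηp hη0 hne hω
  have hnum : η + (P1 * η + (J + 1) * (3 * L ^ 2 / L ^ E)) / θ ≤ 1 / 2 / L ^ D := by
    have e1 : L ^ (2 * E) = L ^ D * L ^ (D + 2 * A + 60) := by
      rw [← pow_add]; congr 1; omega
    have e2 : L ^ E = L ^ D * L ^ (A + 30) := by
      rw [← pow_add]; congr 1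
    have b1 : η ≤ 4 / (L ^ D * L) := by
      rw [hη, e1]
      gcongr
      calc L = L ^ 1 := (pow_one _).symm
        _ ≤ L ^ (D + 2 * A + 60) := pow_le_pow_right₀ hL1 (by omega)
    have b2 : P1 * η / θ ≤ 4 / (L ^ D * L) := by
      rw [hθ, hη, e1]
      have : (P1 : ℝ) * (4 / (L ^ D * L ^ (D + 2 * A + 60))) / (1 / L ^ 20) =
          P1 * L ^ 20 * 4 / (L ^ D * L ^ (D + 2 * A + 60)) := by
        field_simp
      rw [this]
      rw [div_le_div_iff₀ (by positivity) (by positivity)]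
      have h5 : (P1 : ℝ) * L ^ 20 * L ≤ L ^ (D + 2 * A + 60) := by
        calc (P1 : ℝ) * L ^ 20 * L ≤ L ^ A * L ^ 20 * L := by gcongr
          _ = L ^ (A + 21) := by rw [pow_add, pow_succ L 20]; ring
          _ ≤ L ^ (D + 2 * A + 60) := pow_le_pow_right₀ hL1 (by omega)
      have h6 : (0:ℝ) < L ^ D := by positivity
      nlinarith
    have b3 : (J + 1) * (3 * L ^ 2 / L ^ E) / θ ≤ 9 / (L ^ D * L) := by
      rw [hθ, e2]
      have : ((J : ℝ) + 1) * (3 * L ^ 2 / (L ^ D * L ^ (A + 30))) / (1 / L ^ 20) =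
          (J + 1) * L ^ 22 * 3 / (L ^ D * L ^ (A + 30)) := by
        field_simp
      rw [this]
      rw [div_le_div_iff₀ (by positivity) (by positivity)]
      have h5 : ((J : ℝ) + 1) * L ^ 22 * L ≤ 3 * L ^ (A + 30) := by
        calc ((J : ℝ) + 1) * L ^ 22 * L ≤ 3 * L * L ^ 22 * L := by gcongr
          _ = 3 * L ^ 24 := by ring
          _ ≤ 3 * L ^ (A + 30) := by
            have := pow_le_pow_right₀ hL1 (show 24 ≤ A + 30 by omega)
            linarith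
      have h6 : (0:ℝ) < L ^ D := by positivity
      nlinarith
    calc η + (P1 * η + (J + 1) * (3 * L ^ 2 / L ^ E)) / θ =
        η + P1 * η / θ + (J + 1) * (3 * L ^ 2 / L ^ E) / θ := by ring
      _ ≤ 4 / (L ^ D * L) + 4 / (L ^ D * L) + 9 / (L ^ D * L) := by linarith
      _ = 17 / L / L ^ D := by field_simp; ring
      _ ≤ 1 / 2 / L ^ D := by
        refine div_le_div_of_nonneg_right ?_ (by positivity)
        rw [div_le_div_iff₀ hL0 (by norm_num)]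
        linarith
  have hLD : (1:ℝ) ≤ L ^ D := one_le_pow₀ hL1
  -- total mass
  have hmass := cf_parseval N (by omega)
  rw [← Finset.sum_filter_add_sum_filter_not univ (fun χ => Core.IsG N P1 J θ χ)] at hmass
  -- nonempty
  have hex : ∃ χ : DirichletCharacter ℂ N, Core.IsG N P1 J θ χ := by
    by_contra hcon
    push Not at hcon
    rw [Finset.filter_false_of_mem (fun χ _ => hcon χ), Finset.sum_empty, zero_add] at hmass
    have : 1 / 2 / L ^ D ≤ 1 / 2 := by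
      rw [div_le_iff₀ (by positivity)]
      linarith
    linarith
  obtain ⟨χ, hχ⟩ := hex
  -- uniqueness
  have hsum : ∀ ψ : DirichletCharacter ℂ N, Core.IsG N P1 J θ ψ →
      ∑ p ∈ (Icc 1 (2 ^ J * P1)).filter (fun p => p.Prime ∧ ¬ p ∣ N),
        ‖1 + ψ (p : ZMod N)‖ / p ≤ c0 / 2 := by
    intro ψ hψ
    refine (hchain ψ P1 J θ hP1a hJN hθ0.le hθ1.le hψ.2.1 hψ.2.2).trans ?_
    have h1 : θ ^ (1 / 4 : ℝ) = 1 / L ^ 5 := by
      rw [hθ, show (1 : ℝ) / L ^ 20 = (1 / L ^ 5) ^ 4 by rw [div_pow, ← pow_mul]; norm_num]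
      rw [← Real.rpow_natCast, ← Real.rpow_mul (by positivity)]
      norm_num
    rw [h1]
    have h2 : L ^ 3 * (1 / L ^ 5) = 1 / L / L := by field_simp
    rw [h2]
    have h3 : 1 / L ≤ c0 / 2 := by
      rw [div_le_iff₀ hL0]
      rw [div_le_iff₀ hc0] at hLc
      nlinarith
    calc 1 / L / L ≤ 1 / L / 1 := by gcongr
      _ ≤ c0 / 2 := by simpa using h3
  have huniq : ∀ ψ : DirichletCharacter ℂ N, Core.IsG N P1 J θ ψ → ψ = χ := by
    intro ψ hψ
    have h1 : ψ * χ⁻¹ = 1 := by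
      refine hvino (ψ * χ⁻¹) (2 ^ J * P1) ?_ ?_
      · have h2 : ((M : ℝ) + 1) ≤ 2 * (2 ^ J * P1 : ℕ) := by
          have : M + 1 ≤ 2 * (2 ^ J * P1) := by
            have : 2 ^ (J + 1) * P1 = 2 * (2 ^ J * P1) := by ring
            omega
          exact_mod_cast this
        have h3 : (0 : ℝ) ≤ (2 ^ J * P1 : ℕ) := Nat.cast_nonneg _
        linarith
      · calc ∑ p ∈ (Icc 1 (2 ^ J * P1)).filter (fun p => p.Prime ∧ ¬ p ∣ N),
            ‖1 - (ψ * χ⁻¹) (p : ZMod N)‖ / p ≤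
            ∑ p ∈ (Icc 1 (2 ^ J * P1)).filter (fun p => p.Prime ∧ ¬ p ∣ N),
              (‖1 + ψ (p : ZMod N)‖ / p + ‖1 + χ (p : ZMod N)‖ / p) := by
              refine Finset.sum_le_sum fun p hp => ?_
              simp only [mem_filter] at hp
              rw [← add_div]
              exact div_le_div_of_nonneg_right
                (Core.dist_le ψ χ ((Nat.Prime.coprime_iff_not_dvd hp.2.1).2 hp.2.2))
                (Nat.cast_nonneg _)
          _ ≤ c0 := by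
              rw [Finset.sum_add_distrib]
              linarith [hsum ψ hψ, hsum χ hχ]
    exact mul_inv_eq_one.1 h1
  have hinv : χ⁻¹ = χ := huniq _ hχ.inv
  have hreal : RealChar χ := by
    intro a
    by_cases ha : IsUnit a
    · right
      have h1 : χ a * χ a = 1 := by
        have h2 : (χ * χ⁻¹) a = 1 := by
          rw [mul_inv_cancel, MulChar.one_apply ha]
        rw [hinv, MulChar.mul_apply] at h2
        exact h2
      exact mul_self_eq_one_iff.1 h1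
    · left
      exact MulChar.map_nonunit χ ha
  refine ⟨χ, hreal, ?_, ?_⟩
  · intro p hp hp1 hp2
    have h1 := hχ.2.1 p hp (hp1.trans hlp3) hp2
    have h2 : IsUnit (p : ZMod N) :=
      (ZMod.isUnit_iff_coprime p N).2 ((Nat.Prime.coprime_iff_not_dvd hp).2 hp2)
    rcases hreal (p : ZMod N) with h3 | h3 | h3
    · exfalso
      have := Core.norm_char χ ((Nat.Prime.coprime_iff_not_dvd hp).2 hp2)
      rw [h3] at this
      simp at this
    · exfalso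
      rw [h3] at h1
      norm_num at h1
      linarith
    · exact h3
  · have hG : (univ : Finset (DirichletCharacter ℂ N)).filter (fun χ => Core.IsG N P1 J θ χ) =
        {χ} := by
      ext ψ
      simp only [mem_filter, mem_univ, true_and, mem_singleton]
      exact ⟨huniq ψ, fun h => h ▸ hχ⟩
    rw [hG, Finset.sum_singleton] at hmass
    have h1 : 1 / 2 / L ^ D ≤ 1 / L ^ D := by
      gcongr
      norm_num
    linarith

end Pool.Agent.GLI
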