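import Mathlib

set_option autoImplicit false

/-!
# Squad GLI: definitions
-/

open Finset Filter

namespace Pool.Agent.GLI

/-- Liouville's function `(-1)^Ω(n)`. -/
def lam (n : ℕ) : ℤ := (-1) ^ (ArithmeticFunction.cardFactors n)

/-- The `a < N` at which `lam (N - a) = κ * lam a` fails. -/
def W (κ : ℤ) (N : ℕ) : Finset ℕ := (Ioo 0 N).filter fun a => lam (N - a) ≠ κ * lam a

/-- The multiples `r n`, `r ≤ R`, are nonzero modulo `N` and avoid `W`. -/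
def Free (κ : ℤ) (N R n : ℕ) : Prop :=
  ∀ r : ℕ, 1 ≤ r → r ≤ R → ¬ N ∣ r * n ∧ (r * n) % N ∉ W κ N

/-- `y`-smooth. -/
def Sm (y t : ℕ) : Prop := ∀ p : ℕ, p.Prime → p ∣ t → p ≤ y

/-- `‖s/N‖ < 1/m`. -/
def near (N m s : ℕ) : Prop := (s % N) * m < N ∨ (N - s % N) * m < N

/-- Some `y`-smooth `t ≤ R` has `‖t n/N‖ < 1/m`. -/
def Hit (N y R m n : ℕ) : Prop := ∃ t : ℕ, 1 ≤ t ∧ t ≤ R ∧ Sm y t ∧ near N m (t * n)

/-- Multiplicativity of the residue function `n ↦ lam (n % N)`. -/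
def GoodAt (N m n : ℕ) : Prop := lam ((m * n) % N) = lam m * lam (n % N)

/-- Distance to the nearest integer. -/
noncomputable def nr (β : ℝ) : ℝ := |β - round β|

/-- Some `y`-smooth `t ≤ R` has `‖t β‖ < 1/m`. -/
def RHit (y R m : ℕ) (β : ℝ) : Prop :=
  ∃ t : ℕ, 1 ≤ t ∧ t ≤ R ∧ Sm y t ∧ nr (t * β) * m < 1

/-- `⌊(log N)^A⌋`. -/
noncomputable def lp (N A : ℕ) : ℕ := ⌊Real.log N ^ A⌋₊

/-- `⌊√(log log N)⌋`. -/
noncomputable def yz (N : ℕ) : ℕ := ⌊Real.sqrt (Real.log (Real.log N))⌋₊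

/-- `⌊(log log N)^10⌋`. -/
noncomputable def yo (N : ℕ) : ℕ := ⌊Real.log (Real.log N) ^ 10⌋₊

/-- All the hits needed at the point `β`: level one at all `r β`, `r ≤ (log N)^A (log N)^B2`, and
level two at `β`. -/
def AllHit (N A B2 B1 : ℕ) (β : ℝ) : Prop :=
  (∀ r : ℕ, 1 ≤ r → r ≤ lp N A * lp N B2 → ∀ m : ℕ, 1 ≤ m → m ≤ yo N →
    RHit (yz N) (lp N B1) m (r * β)) ∧
  (∀ m : ℕ, 1 ≤ m → m ≤ lp N A → RHit (yo N) (lp N B2) m β)

open Classical in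
/-- Fourier coefficient of `lam` at a Dirichlet character modulo `N`. -/
noncomputable def cf (N : ℕ) (χ : DirichletCharacter ℂ N) : ℂ :=
  (∑ a ∈ range N, (starRingEnd ℂ) (χ (a : ZMod N)) * (lam a : ℂ)) / (Nat.totient N : ℂ)

/-- Primes in `(P/8, P]` not dividing `N`. -/
def win (N P : ℕ) : Finset ℕ := (Ioc (P / 8) P).filter fun p => p.Prime ∧ ¬ p ∣ N

/-- Mean of a character over a finite set of integers. -/
noncomputable def mean {N : ℕ} (Q : Finset ℕ) (χ : DirichletCharacter ℂ N) : ℂ :=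
  (∑ p ∈ Q, χ (p : ZMod N)) / (Q.card : ℂ)

/-- Real character: values `0, 1, -1`. -/
def RealChar {N : ℕ} (χ : DirichletCharacter ℂ N) : Prop :=
  ∀ a : ZMod N, χ a = 0 ∨ χ a = 1 ∨ χ a = -1

open Classical in
/-- The primes `p ≤ x` with `χ(p) = 1`. -/
noncomputable def split {N : ℕ} (χ : DirichletCharacter ℂ N) (x : ℕ) : Finset ℕ :=
  (Icc 1 x).filter fun p => p.Prime ∧ χ (p : ZMod N) = 1

/-- `∑ 1/p` over the primes `p ≤ x` with `χ(p) = 1`. -/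
noncomputable def Sp {N : ℕ} (χ : DirichletCharacter ℂ N) (x : ℕ) : ℝ :=
  ∑ p ∈ split χ x, (1 : ℝ) / p

open Classical in
/-- The `a < N` prime to `N` with `lam a ≠ χ a`. -/
noncomputable def dis (N : ℕ) (χ : DirichletCharacter ℂ N) : Finset ℕ :=
  (range N).filter fun a => a.Coprime N ∧ (lam a : ℂ) ≠ χ (a : ZMod N)

end Pool.Agent.GLI
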