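import Pool.Agent.GLI.DivB
import Pool.Agent.GLI.Cheb
import Pool.Agent.GLI.Ev

set_option autoImplicit false

/-!
Module Dense. `Tset N` = primes in `(M, M']`, `M = lp N 12`, `M' = lp N 24`. `S = ∑_{t ∈ Tset N, t ∤ N} 1/t ≥ 1/18`:
cheb on the blocks `(x/4, x]`, minus `∑_{t ∣ N, t > M} 1/t ≤ ω(N)/M`. For `m ∈ [a, a+H)` prime to `N` let
`f(m) = #{t ∈ Tset N : t ∤ N, t ∣ m}`. With `φ = φ(N)/N`, cop_count (`δ = 1/10`): `∑ f ≥ H φ S - E`,
`∑ f² ≤ H φ (S + S²) + E`; and `1_{f > 0} ≥ 2 λ f - λ² f²` with `λ = 1/(1+S)` gives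
`#{f > 0} ≥ H φ S/(1+S) - 3 E ≥ H φ/20`.
-/

open Finset Filter

namespace Pool.Agent.GLI

/-- The primes in `((log N)^12, (log N)^24]`. -/
noncomputable def Tset (N : ℕ) : Finset ℕ := (Ioc (lp N 12) (lp N 24)).filter Nat.Prime

/-- Number of integers below `y` prime to `N` and divisible by `q`. -/
theorem dense_card_range (N q y : ℕ) (hq : 1 ≤ q) (hqN : q.Coprime N) :
    ((range y).filter fun m => m.Coprime N ∧ q ∣ m).card =
      ((range ((y + q - 1) / q)).filter fun n => n.Coprime N).card := by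
  classical
  symm
  refine Finset.card_bij (fun d _ => q * d) ?_ ?_ ?_
  · intro d hd
    simp only [mem_filter, mem_range] at hd ⊢
    obtain ⟨h1, h2⟩ := hd
    refine ⟨?_, Nat.Coprime.mul_left hqN h2, Dvd.intro d rfl⟩
    have h3 : d + 1 ≤ (y + q - 1) / q := h1
    rw [Nat.le_div_iff_mul_le (by omega)] at h3
    have h4 : (d + 1) * q = q * d + q := by ring
    omega
  · intro d1 _ d2 _ h
    exact Nat.eq_of_mul_eq_mul_left (by omega) h
  · intro m hm
    simp only [mem_filter, mem_range] at hm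
    obtain ⟨h1, h2, ⟨d, rfl⟩⟩ := hm
    refine ⟨d, ?_, rfl⟩
    simp only [mem_filter, mem_range]
    refine ⟨?_, Nat.Coprime.coprime_mul_left h2⟩
    show d + 1 ≤ (y + q - 1) / q
    rw [Nat.le_div_iff_mul_le (by omega)]
    have h4 : (d + 1) * q = q * d + q := by ring
    omega

/-- Real bounds for the ceiling quotient. -/
theorem dense_ceil (q y : ℕ) (hq : 1 ≤ q) :
    (y : ℝ) / q ≤ (((y + q - 1) / q : ℕ) : ℝ) ∧ (((y + q - 1) / q : ℕ) : ℝ) ≤ (y : ℝ) / q + 1 := by
  have hq0 : (0 : ℝ) < q := by exact_mod_cast (by omega : 0 < q)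
  have h1 : (y + q - 1) / q * q ≤ y + q - 1 := Nat.div_mul_le_self _ _
  have h2 : y + q - 1 < ((y + q - 1) / q + 1) * q := by
    have h3 := Nat.div_add_mod (y + q - 1) q
    have h4 := Nat.mod_lt (y + q - 1) (show q > 0 by omega)
    nlinarith
  constructor
  · rw [div_le_iff₀ hq0]
    have h3 : y ≤ (y + q - 1) / q * q := by
      have : ((y + q - 1) / q + 1) * q = (y + q - 1) / q * q + q := by ring
      omega
    exact_mod_cast h3
  · have h3 : (y + q - 1) / q * q ≤ y + q := by omega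
    have h4 : (((y + q - 1) / q : ℕ) : ℝ) * q ≤ y + q := by exact_mod_cast h3
    rw [← sub_nonneg]
    have h5 : (y : ℝ) / q + 1 - (((y + q - 1) / q : ℕ) : ℝ) =
        ((y : ℝ) + q - (((y + q - 1) / q : ℕ) : ℝ) * q) / q := by
      field_simp
    rw [h5]
    exact div_nonneg (by linarith) hq0.le

/-- Count in an interval. -/
theorem dense_count (N : ℕ) (hN : 1 ≤ N) (D : ℝ) (hD : 1 ≤ D)
    (hcop : ∀ x : ℕ,
      |(((range x).filter fun n => n.Coprime N).card : ℝ) - x * (N.totient / N)| ≤ D)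
    (q : ℕ) (hq : 1 ≤ q) (hqN : q.Coprime N) (a H : ℕ) :
    |(((Ico a (a + H)).filter fun m => m.Coprime N ∧ q ∣ m).card : ℝ) -
      H * (N.totient / N) / q| ≤ 4 * D := by
  classical
  have hφ0 : (0 : ℝ) ≤ (N.totient : ℝ) / N := by positivity
  have hN0 : (0 : ℝ) < N := by exact_mod_cast (by omega : 0 < N)
  have hφ1 : (N.totient : ℝ) / N ≤ 1 := by
    rw [div_le_one hN0]
    exact_mod_cast Nat.totient_le N
  have key : ∀ y : ℕ, |(((range y).filter fun m => m.Coprime N ∧ q ∣ m).card : ℝ) -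
      y * (N.totient / N) / q| ≤ 2 * D := by
    intro y
    rw [dense_card_range N q y hq hqN]
    have h1 := hcop ((y + q - 1) / q)
    have h2 := dense_ceil q y hq
    obtain ⟨h3, h4⟩ := h2
    rw [abs_le] at h1 ⊢
    have h5 : (y : ℝ) * ((N.totient : ℝ) / N) / q = (y : ℝ) / q * ((N.totient : ℝ) / N) := by ring
    rw [h5]
    have h6 : (y : ℝ) / q * ((N.totient : ℝ) / N) ≤
        (((y + q - 1) / q : ℕ) : ℝ) * ((N.totient : ℝ) / N) :=
      mul_le_mul_of_nonneg_right h3 hφ0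
    have h7 : (((y + q - 1) / q : ℕ) : ℝ) * ((N.totient : ℝ) / N) ≤
        ((y : ℝ) / q + 1) * ((N.totient : ℝ) / N) :=
      mul_le_mul_of_nonneg_right h4 hφ0
    constructor <;> nlinarith
  have hsplit : (((range (a + H)).filter fun m => m.Coprime N ∧ q ∣ m).card : ℝ) =
      ((range a).filter fun m => m.Coprime N ∧ q ∣ m).card +
      ((Ico a (a + H)).filter fun m => m.Coprime N ∧ q ∣ m).card := by
    have hu : range (a + H) = range a ∪ Ico a (a + H) := by
      ext x
      simp only [mem_range, mem_union, mem_Ico]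
      omega
    have hd : Disjoint ((range a).filter fun m => m.Coprime N ∧ q ∣ m)
        ((Ico a (a + H)).filter fun m => m.Coprime N ∧ q ∣ m) := by
      apply disjoint_filter_filter
      rw [Finset.disjoint_left]
      intro x hx hx'
      simp only [mem_range, mem_Ico] at hx hx'
      omega
    rw [hu, filter_union, Finset.card_union_of_disjoint hd, Nat.cast_add]
  have k1 := key a
  have k2 := key (a + H)
  rw [abs_le] at k1 k2 ⊢
  push_cast at k2
  have h8 : ((a : ℝ) + H) * ((N.totient : ℝ) / N) / q =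
      (a : ℝ) * ((N.totient : ℝ) / N) / q + H * ((N.totient : ℝ) / N) / q := by ring
  rw [h8] at k2
  constructor <;> linarith [k1.1, k1.2, k2.1, k2.2]

/-- Sum of `1/p` over the primes of `(x, 4^J x]`. -/
theorem dense_block (P0 : ℕ) (hP0 : 2 ≤ P0)
    (hch : ∀ P : ℕ, P0 ≤ P →
      (P : ℝ) / (4 * Real.log P) ≤ ((Ioc (P / 4) P).filter Nat.Prime).card)
    (x : ℕ) (hx : P0 ≤ x) (L : ℝ) (J : ℕ) :
    Real.log ((4 ^ J * x : ℕ) : ℝ) ≤ L →
    (J : ℝ) / (4 * L) ≤ ∑ p ∈ (Ioc x (4 ^ J * x)).filter Nat.Prime, (1 : ℝ) / p := by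
  induction J with
  | zero =>
    intro _
    simp
  | succ J ih =>
    intro hlog
    have hx2 : 2 ≤ x := le_trans hP0 hx
    have hle : 4 ^ J * x ≤ 4 ^ (J + 1) * x := by
      apply Nat.mul_le_mul_right
      exact Nat.pow_le_pow_right (by norm_num) (by omega)
    have h4J : 1 ≤ 4 ^ J := Nat.one_le_pow _ _ (by norm_num)
    have hxJ : x ≤ 4 ^ J * x := Nat.le_mul_of_pos_left x (by omega)
    have hpos : (0 : ℝ) < ((4 ^ J * x : ℕ) : ℝ) := by
      exact_mod_cast (by omega : 0 < 4 ^ J * x)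
    have hlogJ : Real.log ((4 ^ J * x : ℕ) : ℝ) ≤ L := by
      refine le_trans ?_ hlog
      apply Real.log_le_log hpos
      exact_mod_cast hle
    have h1 := ih hlogJ
    have h2 := hch (4 ^ (J + 1) * x) (by omega)
    have h3 : 4 ^ (J + 1) * x / 4 = 4 ^ J * x := by
      have : 4 ^ (J + 1) * x = 4 * (4 ^ J * x) := by ring
      rw [this, Nat.mul_div_cancel_left _ (by norm_num)]
    rw [h3] at h2
    have hPpos : (0 : ℝ) < ((4 ^ (J + 1) * x : ℕ) : ℝ) := by
      exact_mod_cast (by omega : 0 < 4 ^ (J + 1) * x)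
    have hsplit : (Ioc x (4 ^ (J + 1) * x)).filter Nat.Prime =
        (Ioc x (4 ^ J * x)).filter Nat.Prime ∪
          (Ioc (4 ^ J * x) (4 ^ (J + 1) * x)).filter Nat.Prime := by
      rw [← filter_union]
      congr 1
      ext y
      simp only [mem_union, mem_Ioc]
      omega
    have hdisj : Disjoint ((Ioc x (4 ^ J * x)).filter Nat.Prime)
        ((Ioc (4 ^ J * x) (4 ^ (J + 1) * x)).filter Nat.Prime) := by
      apply disjoint_filter_filter
      rw [Finset.disjoint_left]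
      intro y hy hy'
      simp only [mem_Ioc] at hy hy'
      omega
    rw [hsplit, sum_union hdisj]
    have h5 : (1 : ℝ) / (4 * L) ≤
        ∑ p ∈ (Ioc (4 ^ J * x) (4 ^ (J + 1) * x)).filter Nat.Prime, (1 : ℝ) / p := by
      have h6 : ∀ p ∈ (Ioc (4 ^ J * x) (4 ^ (J + 1) * x)).filter Nat.Prime,
          (1 : ℝ) / ((4 ^ (J + 1) * x : ℕ) : ℝ) ≤ 1 / p := by
        intro p hp
        simp only [mem_filter, mem_Ioc] at hp
        have hp0 : (0 : ℝ) < p := by exact_mod_cast hp.2.pos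
        apply one_div_le_one_div_of_le hp0
        exact_mod_cast hp.1.2
      have h7 := Finset.card_nsmul_le_sum _ _ _ h6
      refine le_trans ?_ h7
      rw [nsmul_eq_mul]
      have hlogpos : 0 < Real.log ((4 ^ (J + 1) * x : ℕ) : ℝ) := by
        apply Real.log_pos
        exact_mod_cast (by omega : 1 < 4 ^ (J + 1) * x)
      have h8 : (1 : ℝ) / (4 * L) ≤ 1 / (4 * Real.log ((4 ^ (J + 1) * x : ℕ) : ℝ)) := by
        apply one_div_le_one_div_of_le (by positivity)
        linarith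
      refine le_trans h8 ?_
      have h9 := mul_le_mul_of_nonneg_right h2
        (show (0 : ℝ) ≤ 1 / ((4 ^ (J + 1) * x : ℕ) : ℝ) by positivity)
      refine le_trans (le_of_eq ?_) h9
      field_simp
    have h10 : (((J + 1 : ℕ) : ℝ)) / (4 * L) = (J : ℝ) / (4 * L) + 1 / (4 * L) := by
      push_cast
      ring
    rw [h10]
    linarith

open Classical in
/-- The primes of `Tset N` not dividing `N`. -/
noncomputable def Tcop (N : ℕ) : Finset ℕ := (Tset N).filter fun t => ¬ t ∣ N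

theorem dense_S : ∀ᶠ N : ℕ in atTop, (1 : ℝ) / 18 ≤ ∑ t ∈ Tcop N, (1 : ℝ) / t := by
  classical
  obtain ⟨P0, hP0, hch⟩ := cheb
  filter_upwards [ev_loglog 100, ev_log (P0 + 1), ev_log 2, omega_small (1 / 2) (by norm_num),
    eventually_ge_atTop 3] with N hLL hlog hlog2 homega hN3
  have hN0 : (0 : ℝ) < N := by exact_mod_cast (by omega : 0 < N)
  have hl0 : 0 < Real.log N := by linarith
  have hl1 : 1 ≤ Real.log N := by linarith
  have hll0 : 0 < Real.log (Real.log N) := by linarith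
  set LL := Real.log (Real.log N) with hLLdef
  set K := ⌊LL⌋₊ with hK
  have hK1 : (K : ℝ) ≤ LL := Nat.floor_le hll0.le
  have hK2 : LL < K + 1 := Nat.lt_floor_add_one _
  have hexp : Real.exp LL = Real.log N := Real.exp_log hl0
  have hM1 : (lp N 12 : ℝ) ≤ Real.log N ^ 12 := lp_le N 12 hl0.le
  have hM2 : Real.log N ^ 12 < (lp N 12 : ℝ) + 1 := lt_lp N 12
  have hM3 : Real.log N ^ 24 < (lp N 24 : ℝ) + 1 := lt_lp N 24
  have hMP : P0 ≤ lp N 12 := by
    have h1 : Real.log N ≤ Real.log N ^ 12 := by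
      calc Real.log N = Real.log N ^ 1 := by ring
        _ ≤ Real.log N ^ 12 := pow_le_pow_right₀ hl1 (by norm_num)
    have h2 : (P0 : ℝ) < (lp N 12 : ℝ) := by linarith
    exact_mod_cast h2.le
  -- the end point
  have h4K : ((4 ^ (6 * K) * lp N 12 : ℕ) : ℝ) ≤ Real.log N ^ 21 := by
    push_cast
    have h1 : (4 : ℝ) ^ (6 * K) ≤ Real.log N ^ 9 := by
      have h2 : (4 : ℝ) ^ (6 * K) ≤ Real.exp (9 * K) := by
        rw [pow_mul]
        have h3 : Real.exp (9 * (K : ℝ)) = (Real.exp 9) ^ K := by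
          rw [← Real.exp_nat_mul]
          congr 1
          ring
        rw [h3]
        apply pow_le_pow_left₀ (by norm_num)
        have h4 : Real.exp 9 = (Real.exp 1) ^ 9 := by
          rw [← Real.exp_nat_mul]
          norm_num
        rw [h4]
        have h5 : (2.7 : ℝ) ≤ Real.exp 1 := by
          have := Real.exp_one_gt_d9
          linarith
        calc (4 : ℝ) ^ 6 ≤ 2.7 ^ 9 := by norm_num
          _ ≤ (Real.exp 1) ^ 9 := pow_le_pow_left₀ (by norm_num) h5 9
      refine le_trans h2 ?_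
      rw [← hexp, ← Real.exp_nat_mul]
      apply Real.exp_le_exp.mpr
      push_cast
      nlinarith
    calc (4 : ℝ) ^ (6 * K) * (lp N 12 : ℝ) ≤ Real.log N ^ 9 * Real.log N ^ 12 := by
          apply mul_le_mul h1 hM1 (by positivity) (by positivity)
      _ = Real.log N ^ 21 := by ring
  have hend : 4 ^ (6 * K) * lp N 12 ≤ lp N 24 := by
    have h1 : Real.log N ^ 21 ≤ Real.log N ^ 24 - 1 := by
      have h2 : Real.log N ^ 24 = Real.log N ^ 21 * Real.log N ^ 3 := by ring
      have h3 : (1 : ℝ) ≤ Real.log N ^ 21 := one_le_pow₀ hl1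
      have h4 : (2 : ℝ) ≤ Real.log N ^ 3 := by
        calc (2 : ℝ) ≤ Real.log N ^ 1 := by linarith
          _ ≤ Real.log N ^ 3 := pow_le_pow_right₀ hl1 (by norm_num)
      nlinarith
    have h5 : ((4 ^ (6 * K) * lp N 12 : ℕ) : ℝ) < (lp N 24 : ℝ) := by linarith
    exact_mod_cast h5.le
  have hlogend : Real.log ((4 ^ (6 * K) * lp N 12 : ℕ) : ℝ) ≤ 24 * LL := by
    have hpos : (0 : ℝ) < ((4 ^ (6 * K) * lp N 12 : ℕ) : ℝ) := by
      have : 0 < 4 ^ (6 * K) * lp N 12 := by
        apply Nat.mul_pos (by positivity) (by omega)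
      exact_mod_cast this
    have h1 : Real.log ((4 ^ (6 * K) * lp N 12 : ℕ) : ℝ) ≤ Real.log (Real.log N ^ 21) :=
      Real.log_le_log hpos h4K
    rw [Real.log_pow] at h1
    push_cast at h1 ⊢
    nlinarith
  have hblock := dense_block P0 hP0 (fun P hP => (hch P hP).1) (lp N 12) hMP (24 * LL)
    (6 * K) hlogend
  -- all primes of Tset
  have hall : ∑ p ∈ (Ioc (lp N 12) (4 ^ (6 * K) * lp N 12)).filter Nat.Prime, (1 : ℝ) / p ≤
      ∑ t ∈ Tset N, (1 : ℝ) / t := by
    apply sum_le_sum_of_subset_of_nonneg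
    · intro p hp
      simp only [Tset, mem_filter, mem_Ioc] at hp ⊢
      exact ⟨⟨hp.1.1, le_trans hp.1.2 hend⟩, hp.2⟩
    · intro i _ _
      positivity
  have hdiv : ∑ t ∈ (Tset N).filter (fun t => t ∣ N), (1 : ℝ) / t ≤ 1 / 1000 := by
    have h1 : ∀ t ∈ (Tset N).filter (fun t => t ∣ N), (1 : ℝ) / t ≤ 1 / Real.log N ^ 12 := by
      intro t ht
      simp only [Tset, mem_filter, mem_Ioc] at ht
      apply one_div_le_one_div_of_le (by positivity)
      have h2 : (lp N 12 : ℝ) + 1 ≤ t := by exact_mod_cast ht.1.1.1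
      linarith
    have h2 := sum_le_card_nsmul _ _ _ h1
    refine le_trans h2 ?_
    rw [nsmul_eq_mul]
    have h3 : ((Tset N).filter (fun t => t ∣ N)).card ≤ N.primeFactors.card := by
      apply card_le_card
      intro t ht
      simp only [Tset, mem_filter, mem_Ioc] at ht
      rw [Nat.mem_primeFactors]
      exact ⟨ht.1.2, ht.2, by omega⟩
    have h4 : (N.primeFactors.card : ℝ) ≤ Real.log N := by
      have h5 := Real.log_le_log (by positivity) homega
      rw [Real.log_pow, Real.log_rpow hN0] at h5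
      have h6 : (0.69 : ℝ) < Real.log 2 := by
        have := Real.log_two_gt_d9
        linarith
      have h7 : (0 : ℝ) ≤ (N.primeFactors.card : ℝ) := by positivity
      nlinarith
    have h5 : (((Tset N).filter (fun t => t ∣ N)).card : ℝ) ≤ Real.log N :=
      le_trans (by exact_mod_cast h3) h4
    have h6 : (((Tset N).filter (fun t => t ∣ N)).card : ℝ) * (1 / Real.log N ^ 12) ≤
        Real.log N * (1 / Real.log N ^ 12) :=
      mul_le_mul_of_nonneg_right h5 (by positivity)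
    refine le_trans h6 ?_
    have h7 : Real.log N * (1 / Real.log N ^ 12) = 1 / Real.log N ^ 11 := by
      field_simp
    rw [h7]
    apply one_div_le_one_div_of_le (by norm_num)
    have h8 : (2 : ℝ) ^ 11 ≤ Real.log N ^ 11 := pow_le_pow_left₀ (by norm_num) hlog2 11
    norm_num at h8 ⊢
    linarith
  have hsplit : ∑ t ∈ Tset N, (1 : ℝ) / t =
      ∑ t ∈ (Tset N).filter (fun t => t ∣ N), (1 : ℝ) / t + ∑ t ∈ Tcop N, (1 : ℝ) / t := by
    unfold Tcop
    exact (sum_filter_add_sum_filter_not (Tset N) (fun t => t ∣ N) _).symm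
  have hval : (6 : ℝ) / 100 - 1 / 1000 ≤ ((6 * K : ℕ) : ℝ) / (4 * (24 * LL)) := by
    rw [le_div_iff₀ (by positivity)]
    push_cast
    nlinarith
  linarith

theorem dense_point (f l : ℝ) : 2 * l * f - l ^ 2 * f ^ 2 ≤ 1 := by
  nlinarith [sq_nonneg (1 - l * f)]

open Classical in
theorem dense_cs (N : ℕ) (hN : 1 ≤ N) (D : ℝ) (hD : 1 ≤ D)
    (hcop : ∀ x : ℕ,
      |(((range x).filter fun n => n.Coprime N).card : ℝ) - x * (N.totient / N)| ≤ D)
    (T : Finset ℕ) (hT : ∀ t ∈ T, t.Prime ∧ ¬ t ∣ N) (a H : ℕ) (l : ℝ) (hl : 0 ≤ l) :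
    2 * l * (H * (N.totient / N) * (∑ t ∈ T, (1 : ℝ) / t) - 4 * D * T.card) -
      l ^ 2 * (H * (N.totient / N) * ((∑ t ∈ T, (1 : ℝ) / t) + (∑ t ∈ T, (1 : ℝ) / t) ^ 2) +
        4 * D * (T.card + (T.card : ℝ) ^ 2)) ≤
      ((Ico a (a + H)).filter fun m => m.Coprime N ∧ ∃ t ∈ T, t ∣ m).card := by
  set I := (Ico a (a + H)).filter fun m => m.Coprime N with hI
  set h : ℝ := H * ((N.totient : ℝ) / N) with hh
  set S : ℝ := ∑ t ∈ T, (1 : ℝ) / t with hS
  set f : ℕ → ℝ := fun m => ∑ t ∈ T, (if t ∣ m then (1 : ℝ) else 0) with hf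
  have hcount : ∀ q : ℕ, 1 ≤ q → q.Coprime N →
      |(∑ m ∈ I, (if q ∣ m then (1 : ℝ) else 0)) - h / q| ≤ 4 * D := by
    intro q hq hqN
    have h1 := dense_count N hN D hD hcop q hq hqN a H
    have h2 : (((Ico a (a + H)).filter fun m => m.Coprime N ∧ q ∣ m).card : ℝ) =
        ∑ m ∈ I, (if q ∣ m then (1 : ℝ) else 0) := by
      rw [hI, Finset.sum_boole, filter_filter]
    rw [h2] at h1
    exact h1
  have hcopt : ∀ t ∈ T, t.Coprime N := by
    intro t ht
    exact (Nat.Prime.coprime_iff_not_dvd (hT t ht).1).mpr (hT t ht).2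
  have hpos : ∀ t ∈ T, 1 ≤ t := fun t ht => (hT t ht).1.one_lt.le
  -- first moment
  have hfirst : h * S - 4 * D * T.card ≤ ∑ m ∈ I, f m := by
    simp only [hf]
    rw [sum_comm]
    have h1 : ∀ t ∈ T, h * (1 / t) - 4 * D ≤ ∑ m ∈ I, (if t ∣ m then (1 : ℝ) else 0) := by
      intro t ht
      have h2 := (abs_le.mp (hcount t (hpos t ht) (hcopt t ht))).1
      have h3 : h * (1 / (t : ℝ)) = h / t := by ring
      rw [h3]
      linarith
    have h2 := sum_le_sum h1
    rw [sum_sub_distrib, ← mul_sum, sum_const, nsmul_eq_mul] at h2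
    rw [hS]
    linarith
  -- second moment
  have hsecond : ∑ m ∈ I, f m ^ 2 ≤ h * (S + S ^ 2) + 4 * D * (T.card + (T.card : ℝ) ^ 2) := by
    have h1 : ∀ m ∈ I, f m ^ 2 = ∑ t ∈ T, ∑ t' ∈ T, (if t ∣ m ∧ t' ∣ m then (1 : ℝ) else 0) := by
      intro m _
      simp only [hf, sq, sum_mul_sum]
      refine sum_congr rfl fun t _ => sum_congr rfl fun t' _ => ?_
      by_cases h1 : t ∣ m <;> by_cases h2 : t' ∣ m <;> simp [h1, h2]
    rw [sum_congr rfl h1, sum_comm]
    have h2 : ∀ t ∈ T, ∑ m ∈ I, ∑ t' ∈ T, (if t ∣ m ∧ t' ∣ m then (1 : ℝ) else 0) ≤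
        h * (1 / t) * S + 4 * D * T.card + (h * (1 / t) + 4 * D) := by
      intro t ht
      rw [sum_comm]
      have h3 : ∀ t' ∈ T, ∑ m ∈ I, (if t ∣ m ∧ t' ∣ m then (1 : ℝ) else 0) ≤
          h * (1 / t) * (1 / t') + 4 * D + (if t' = t then (h * (1 / t) + 4 * D) else 0) := by
        intro t' ht'
        have hh0 : 0 ≤ h := by
          rw [hh]
          positivity
        by_cases htt : t' = t
        · subst htt
          simp only [and_self, if_true]
          have h4 := (abs_le.mp (hcount t' (hpos t' ht) (hcopt t' ht))).2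
          have h5 : h * (1 / (t' : ℝ)) = h / t' := by ring
          have h6 : 0 ≤ h * (1 / (t' : ℝ)) * (1 / (t' : ℝ)) := by positivity
          rw [h5] at h6 ⊢
          linarith
        · rw [if_neg htt]
          have hc : Nat.Coprime t t' :=
            (Nat.coprime_primes (hT t ht).1 (hT t' ht').1).mpr (fun h => htt h.symm)
          have h4 := (abs_le.mp (hcount (t * t') (Nat.mul_pos (hpos t ht) (hpos t' ht'))
            (Nat.Coprime.mul_left (hcopt t ht) (hcopt t' ht')))).2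
          have h5 : ∑ m ∈ I, (if t ∣ m ∧ t' ∣ m then (1 : ℝ) else 0) =
              ∑ m ∈ I, (if t * t' ∣ m then (1 : ℝ) else 0) := by
            refine sum_congr rfl fun m _ => ?_
            have h6 : (t ∣ m ∧ t' ∣ m) ↔ t * t' ∣ m :=
              ⟨fun h => Nat.Coprime.mul_dvd_of_dvd_of_dvd hc h.1 h.2,
                fun h => ⟨dvd_trans (Dvd.intro _ rfl) h, dvd_trans (Dvd.intro_left _ rfl) h⟩⟩
            simp only [h6]
          rw [h5]
          have h7 : h * (1 / (t : ℝ)) * (1 / (t' : ℝ)) = h / ((t * t' : ℕ) : ℝ) := by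
            push_cast
            rw [div_mul_eq_div_div]
            ring
          rw [h7]
          linarith
      have h4 := sum_le_sum h3
      rw [sum_add_distrib, sum_add_distrib, ← mul_sum, sum_const, nsmul_eq_mul,
        sum_ite_eq' T t, if_pos ht] at h4
      rw [hS]
      linarith
    have h3 := sum_le_sum h2
    refine le_trans h3 (le_of_eq ?_)
    rw [sum_add_distrib, sum_add_distrib, sum_add_distrib, ← sum_mul, ← mul_sum, sum_const,
      sum_const, nsmul_eq_mul, nsmul_eq_mul, ← hS]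
    ring
  -- pointwise
  have hpt : ∀ m ∈ I, 2 * l * f m - l ^ 2 * f m ^ 2 ≤ (if ∃ t ∈ T, t ∣ m then (1 : ℝ) else 0) := by
    intro m _
    by_cases hm : ∃ t ∈ T, t ∣ m
    · rw [if_pos hm]
      exact dense_point _ _
    · rw [if_neg hm]
      have h0 : f m = 0 := by
        apply sum_eq_zero
        intro t ht
        rw [if_neg]
        intro htm
        exact hm ⟨t, ht, htm⟩
      rw [h0]
      norm_num
  have hsum := sum_le_sum hpt
  rw [sum_sub_distrib, ← mul_sum, ← mul_sum] at hsum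
  have hcard : (((Ico a (a + H)).filter fun m => m.Coprime N ∧ ∃ t ∈ T, t ∣ m).card : ℝ) =
      ∑ m ∈ I, (if ∃ t ∈ T, t ∣ m then (1 : ℝ) else 0) := by
    rw [hI, Finset.sum_boole, filter_filter]
  rw [hcard]
  refine le_trans ?_ hsum
  have h1 := mul_le_mul_of_nonneg_left hfirst (show 0 ≤ 2 * l by positivity)
  have h2 := mul_le_mul_of_nonneg_left hsecond (show 0 ≤ l ^ 2 by positivity)
  linarith

open Classical in
theorem dense : ∀ᶠ N : ℕ in atTop, ∀ a H : ℕ, (N : ℝ) ^ (1 / 4 : ℝ) ≤ H →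
    (H : ℝ) * (N.totient / N) / 20 ≤
      ((Ico a (a + H)).filter fun m => m.Coprime N ∧ ∃ t ∈ Tset N, t ∣ m).card := by
  filter_upwards [dense_S, cop_count (1 / 10) (by norm_num), totient_lower, ev_log 1,
    ev_pow (1 / 10) (1 / 4) (by norm_num) 49 (380 * 24), eventually_ge_atTop 3] with N hS hcop
    htot hlog hpow hN3
  intro a H hH
  have hN0 : (0 : ℝ) < N := by exact_mod_cast (by omega : 0 < N)
  have hN1 : (1 : ℝ) ≤ N := by exact_mod_cast (by omega : 1 ≤ N)
  have hl0 : 0 < Real.log N := by linarith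
  set D : ℝ := (N : ℝ) ^ (1 / 10 : ℝ) with hDdef
  have hD : 1 ≤ D := Real.one_le_rpow hN1 (by norm_num)
  set S : ℝ := ∑ t ∈ Tcop N, (1 : ℝ) / t with hSdef
  set h : ℝ := H * ((N.totient : ℝ) / N) with hh
  have hS0 : 0 < 1 + S := by linarith
  have hcs := dense_cs N (by omega) D hD hcop (Tcop N) (by
    intro t ht
    simp only [Tcop, Tset, mem_filter, mem_Ioc] at ht
    exact ⟨ht.1.2, ht.2⟩) a H (1 / (1 + S)) (by positivity)
  rw [← hSdef, ← hh] at hcs
  -- subset
  have hsub : (((Ico a (a + H)).filter fun m => m.Coprime N ∧ ∃ t ∈ Tcop N, t ∣ m).card : ℝ) ≤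
      ((Ico a (a + H)).filter fun m => m.Coprime N ∧ ∃ t ∈ Tset N, t ∣ m).card := by
    have h1 : ((Ico a (a + H)).filter fun m => m.Coprime N ∧ ∃ t ∈ Tcop N, t ∣ m) ⊆
        ((Ico a (a + H)).filter fun m => m.Coprime N ∧ ∃ t ∈ Tset N, t ∣ m) := by
      intro m hm
      simp only [mem_filter] at hm ⊢
      obtain ⟨h1, h2, t, ht, h3⟩ := hm
      exact ⟨h1, h2, t, (mem_filter.mp ht).1, h3⟩
    exact_mod_cast card_le_card h1
  -- size of T
  have hcard : ((Tcop N).card : ℝ) ≤ Real.log N ^ 24 := by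
    have h1 : (Tcop N).card ≤ (Ioc (lp N 12) (lp N 24)).card :=
      card_le_card (fun t ht => by
        simp only [Tcop, Tset, mem_filter] at ht
        exact ht.1.1)
    rw [Nat.card_Ioc] at h1
    have h2 : (Tcop N).card ≤ lp N 24 := by omega
    exact le_trans (by exact_mod_cast h2) (lp_le N 24 hl0.le)
  set c : ℝ := ((Tcop N).card : ℝ) with hc
  have hc0 : 0 ≤ c := by positivity
  -- E
  have hE : 4 * D * (c + c ^ 2) ≤ 8 * D * Real.log N ^ 48 := by
    have h1 : c ≤ Real.log N ^ 48 :=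
      le_trans hcard (pow_le_pow_right₀ hlog (by norm_num))
    have h2 : c ^ 2 ≤ Real.log N ^ 48 := by
      calc c ^ 2 ≤ (Real.log N ^ 24) ^ 2 := pow_le_pow_left₀ hc0 hcard 2
        _ = Real.log N ^ 48 := by ring
    have h3 : c + c ^ 2 ≤ 2 * Real.log N ^ 48 := by linarith
    calc 4 * D * (c + c ^ 2) ≤ 4 * D * (2 * Real.log N ^ 48) :=
          mul_le_mul_of_nonneg_left h3 (by positivity)
      _ = 8 * D * Real.log N ^ 48 := by ring
  -- h is large
  have hφ : 1 / Real.log N ≤ (N.totient : ℝ) / N := by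
    rw [div_le_div_iff₀ hl0 hN0]
    linarith
  have hbig : 380 * 24 * D * Real.log N ^ 48 ≤ h := by
    have h1 : (N : ℝ) ^ (1 / 4 : ℝ) * (1 / Real.log N) ≤ h := by
      rw [hh]
      apply mul_le_mul hH hφ (by positivity) (by positivity)
    refine le_trans ?_ h1
    rw [mul_one_div, le_div_iff₀ hl0]
    calc 380 * 24 * D * Real.log N ^ 48 * Real.log N = 380 * 24 * D * Real.log N ^ 49 := by ring
      _ ≤ _ := hpow
  have hE0 : 0 ≤ 4 * D * (c + c ^ 2) := by positivity
  have hEc : 4 * D * c ≤ 4 * D * (c + c ^ 2) := by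
    apply mul_le_mul_of_nonneg_left _ (by positivity)
    nlinarith [sq_nonneg c]
  have hh0 : 0 ≤ h := by
    rw [hh]
    positivity
  set E : ℝ := 4 * D * (c + c ^ 2) with hEdef
  have hl1 : 1 / (1 + S) ≤ 1 := by
    rw [div_le_one hS0]
    linarith
  have hl2 : 0 ≤ 1 / (1 + S) := by positivity
  have hmain : h * (S / (1 + S)) - 3 * E ≤
      2 * (1 / (1 + S)) * (h * S - 4 * D * c) - (1 / (1 + S)) ^ 2 * (h * (S + S ^ 2) + E) := by
    have h1 : 2 * (1 / (1 + S)) * (h * S - 4 * D * c) -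
        (1 / (1 + S)) ^ 2 * (h * (S + S ^ 2) + E) =
        h * (S / (1 + S)) - 2 * (1 / (1 + S)) * (4 * D * c) - (1 / (1 + S)) ^ 2 * E := by
      field_simp
      ring
    rw [h1]
    have h2 : (1 / (1 + S)) * (4 * D * c) ≤ 1 * E :=
      mul_le_mul hl1 hEc (by positivity) (by norm_num)
    have h3 : (1 / (1 + S)) ^ 2 ≤ 1 := pow_le_one₀ hl2 hl1
    have h4 : (1 / (1 + S)) ^ 2 * E ≤ 1 * E := mul_le_mul_of_nonneg_right h3 hE0
    linarith
  have hratio : (1 : ℝ) / 19 ≤ S / (1 + S) := by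
    rw [div_le_div_iff₀ (by norm_num) hS0]
    linarith
  have hr2 : h * (1 / 19) ≤ h * (S / (1 + S)) := mul_le_mul_of_nonneg_left hratio hh0
  have hfin : h / 20 ≤ h * (1 / 19) - 3 * E := by linarith
  linarith

end Pool.Agent.GLI
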