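import Pool.Agent.GLI.Cheb
import Pool.Agent.GLI.DivB
import Pool.Agent.GLI.Ev

set_option autoImplicit false

/-!
Module Sparse. Split primes are sparse; parity of the character.
-/

open Finset Filter

namespace Pool.Agent.GLI

open Classical in
/-- `m ≤ x` prime to `N` with `lam m = χ m` -/
noncomputable def Mpl {N : ℕ} (χ : DirichletCharacter ℂ N) (x : ℕ) : Finset ℕ :=
  (Icc 1 x).filter fun m => m.Coprime N ∧ (lam m : ℂ) = χ (m : ZMod N)

theorem one_mem_Mpl {N : ℕ} (χ : DirichletCharacter ℂ N) (x : ℕ) (hx : 1 ≤ x) :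
    1 ∈ Mpl χ x := by
  unfold Mpl
  rw [mem_filter, mem_Icc]
  refine ⟨⟨le_rfl, hx⟩, Nat.coprime_one_left N, ?_⟩
  rw [lam_one]
  simp

theorem chi_ne {N : ℕ} (χ : DirichletCharacter ℂ N) (m : ℕ) (hm : m.Coprime N) :
    χ (m : ZMod N) ≠ 0 := by
  have hu : IsUnit (m : ZMod N) := (ZMod.isUnit_iff_coprime m N).mpr hm
  exact (hu.map χ).ne_zero

theorem chi_pm {N : ℕ} (χ : DirichletCharacter ℂ N) (h : RealChar χ) (m : ℕ) (hm : m.Coprime N) :
    χ (m : ZMod N) = 1 ∨ χ (m : ZMod N) = -1 := by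
  rcases h (m : ZMod N) with h0 | h1
  · exact absurd h0 (chi_ne χ m hm)
  · exact h1

theorem two_pow_omega (n : ℕ) (hn : n ≠ 0) : 2 ^ n.primeFactors.card ≤ n := by
  calc 2 ^ n.primeFactors.card ≤ ∏ p ∈ n.primeFactors, p := by
        apply Finset.pow_card_le_prod
        intro p hp
        exact (Nat.prime_of_mem_primeFactors hp).two_le
    _ ≤ n := Nat.le_of_dvd (Nat.pos_of_ne_zero hn) (Nat.prod_primeFactors_dvd n)

theorem omega_le_log (n N : ℕ) (hn : n ≠ 0) (hnN : n ≤ N) :
    (n.primeFactors.card : ℝ) ≤ 2 * Real.log N := by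
  have h1 := two_pow_omega n hn
  have h2 : (2 : ℝ) ^ n.primeFactors.card ≤ N := by
    have : ((2 ^ n.primeFactors.card : ℕ) : ℝ) ≤ N := by exact_mod_cast h1.trans hnN
    simpa using this
  have h3 := Real.log_le_log (by positivity) h2
  rw [Real.log_pow] at h3
  have h4 : (0.5 : ℝ) ≤ Real.log 2 := by
    have := Real.log_two_gt_d9; linarith
  have h5 : (0 : ℝ) ≤ n.primeFactors.card := by positivity
  nlinarith

/-- pairs of primes in the same class give elements of `Mpl` -/
theorem mpl_pairs {N : ℕ} (χ : DirichletCharacter ℂ N) (_h : RealChar χ) (U x : ℕ)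
    (hU : U * U ≤ x) (C : Finset ℕ) (s : ℂ) (hs : s = 1 ∨ s = -1)
    (hC : ∀ p ∈ C, p.Prime ∧ p ≤ U ∧ p.Coprime N ∧ χ (p : ZMod N) = s) :
    C.card * C.card ≤ 2 * (Mpl χ x).card := by
  classical
  have hss : s * s = 1 := by rcases hs with rfl | rfl <;> norm_num
  have himg : (C ×ˢ C).image (fun z : ℕ × ℕ => z.1 * z.2) ⊆ Mpl χ x := by
    intro n hn
    rw [mem_image] at hn
    obtain ⟨⟨u, v⟩, huv, rfl⟩ := hn
    rw [mem_product] at huv
    obtain ⟨hup, huU, huN, hus⟩ := hC u huv.1
    obtain ⟨hvp, hvU, hvN, hvs⟩ := hC v huv.2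
    unfold Mpl
    rw [mem_filter, mem_Icc]
    refine ⟨⟨?_, ?_⟩, Nat.Coprime.mul_left huN hvN, ?_⟩
    · exact Nat.mul_pos hup.pos hvp.pos
    · exact (Nat.mul_le_mul huU hvU).trans hU
    · rw [lam_mul hup.ne_zero hvp.ne_zero, lam_prime hup, lam_prime hvp, Nat.cast_mul, map_mul,
        hus, hvs, hss]
      norm_num
  have h1 := Finset.card_le_mul_card_image (f := fun z : ℕ × ℕ => z.1 * z.2) (C ×ˢ C) 2 (by
    intro n hn
    rw [mem_image] at hn
    obtain ⟨⟨u, v⟩, huv, hn⟩ := hn
    rw [mem_product] at huv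
    obtain ⟨hup, -, -, -⟩ := hC u huv.1
    obtain ⟨hvp, -, -, -⟩ := hC v huv.2
    have hsub : ((C ×ˢ C).filter fun a => a.1 * a.2 = n) ⊆ {(u, v), (v, u)} := by
      rintro ⟨a, b⟩ hab
      rw [mem_filter, mem_product] at hab
      obtain ⟨hap, -, -, -⟩ := hC a hab.1.1
      obtain ⟨hbp, -, -, -⟩ := hC b hab.1.2
      have hab2 : a * b = u * v := by
        have e1 := hab.2
        simp only at e1 hn
        rw [e1, hn]
      have hdvd : a ∣ u * v := ⟨b, hab2.symm⟩
      rw [mem_insert, mem_singleton]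
      rcases (Nat.Prime.dvd_mul hap).mp hdvd with h2 | h2
      · have e : a = u := (Nat.prime_dvd_prime_iff_eq hap hup).mp h2
        left
        subst e
        have : b = v := Nat.eq_of_mul_eq_mul_left hap.pos hab2
        rw [this]
      · have e : a = v := (Nat.prime_dvd_prime_iff_eq hap hvp).mp h2
        right
        subst e
        have : b = u := by
          rw [mul_comm u a] at hab2
          exact Nat.eq_of_mul_eq_mul_left hap.pos hab2
        rw [this]
    exact (Finset.card_le_card hsub).trans Finset.card_le_two)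
  rw [Finset.card_product] at h1
  exact h1.trans (Nat.mul_le_mul_left 2 (Finset.card_le_card himg))

theorem mpl_lower : ∀ᶠ N : ℕ in atTop, ∀ χ : DirichletCharacter ℂ N, RealChar χ →
    ∀ x : ℕ, 1 ≤ x → x ≤ N → (x : ℝ) / Real.log N ^ 5 ≤ (Mpl χ x).card := by
  classical
  filter_upwards [primes_cop, ev_log 20000, eventually_ge_atTop 2] with N hpc hlog hN2
  intro χ h x hx hxN
  have hL0 : 0 < Real.log N := by linarith
  have hL1 : 1 ≤ Real.log N := by linarith
  have hcard1 : (1 : ℝ) ≤ (Mpl χ x).card := by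
    have : 0 < (Mpl χ x).card := Finset.card_pos.mpr ⟨1, one_mem_Mpl χ x hx⟩
    exact_mod_cast this
  rcases le_or_gt (x : ℝ) (Real.log N ^ 5) with hsm | hbig
  · refine le_trans ?_ hcard1
    rw [div_le_one (by positivity)]
    exact hsm
  · set U := Nat.sqrt x with hUdef
    have hUU : U * U ≤ x := Nat.sqrt_le x
    have hUlt : x < (U + 1) * (U + 1) := Nat.lt_succ_sqrt x
    have hUltR : (x : ℝ) < ((U : ℝ) + 1) * ((U : ℝ) + 1) := by exact_mod_cast hUlt
    have hUge : Real.log N ^ 2 ≤ (U : ℝ) := by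
      by_contra hcon
      push Not at hcon
      have h1 : ((U : ℝ) + 1) * ((U : ℝ) + 1) ≤ (Real.log N ^ 2 + 1) * (Real.log N ^ 2 + 1) := by
        have : (0 : ℝ) ≤ U := by positivity
        nlinarith
      have h2 : (Real.log N ^ 2 + 1) * (Real.log N ^ 2 + 1) ≤ Real.log N ^ 5 := by
        have h3 : Real.log N ^ 2 + 1 ≤ 2 * Real.log N ^ 2 := by nlinarith
        have h4 : (Real.log N ^ 2 + 1) * (Real.log N ^ 2 + 1) ≤
            (2 * Real.log N ^ 2) * (2 * Real.log N ^ 2) := by
          apply mul_le_mul h3 h3 (by positivity) (by positivity)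
        have h5 : (2 * Real.log N ^ 2) * (2 * Real.log N ^ 2) = 4 * Real.log N ^ 4 := by ring
        have h6 : 4 * Real.log N ^ 4 ≤ Real.log N * Real.log N ^ 4 := by
          apply mul_le_mul_of_nonneg_right _ (by positivity)
          linarith
        have h7 : Real.log N * Real.log N ^ 4 = Real.log N ^ 5 := by ring
        linarith
      linarith
    have hk := hpc U hUge
    set Q := (Ioc (U / 4) U).filter fun p => p.Prime ∧ ¬ p ∣ N with hQ
    have hU1 : (1 : ℝ) < U := by nlinarith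
    have hU0 : (0 : ℝ) < U := by linarith
    have hUx : (U : ℝ) ≤ x := by
      have h1 : (U : ℝ) * U ≤ x := by exact_mod_cast hUU
      nlinarith
    have hUN : (U : ℝ) ≤ N := hUx.trans (by exact_mod_cast hxN)
    have hlU : Real.log U ≤ Real.log N := Real.log_le_log hU0 hUN
    have hlU0 : 0 < Real.log U := Real.log_pos hU1
    have hk2 : (U : ℝ) / (8 * Real.log N) ≤ Q.card := by
      refine le_trans ?_ hk
      apply div_le_div_of_nonneg_left hU0.le (by positivity)
      linarith
    -- split into two classes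
    have hQc : ∀ p ∈ Q, p.Prime ∧ p ≤ U ∧ p.Coprime N := by
      intro p hp
      rw [hQ, mem_filter, mem_Ioc] at hp
      exact ⟨hp.2.1, hp.1.2, (Nat.Prime.coprime_iff_not_dvd hp.2.1).mpr hp.2.2⟩
    have hsplit : Q.card = (Q.filter fun p : ℕ => χ (p : ZMod N) = 1).card +
        (Q.filter fun p : ℕ => ¬ χ (p : ZMod N) = 1).card :=
      (Finset.card_filter_add_card_filter_not (s := Q) (fun p : ℕ => χ (p : ZMod N) = 1)).symm
    have hmain : (Q.card : ℝ) * Q.card ≤ 8 * (Mpl χ x).card := by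
      rcases le_total (Q.filter fun p : ℕ => ¬ χ (p : ZMod N) = 1).card
        (Q.filter fun p : ℕ => χ (p : ZMod N) = 1).card with hle | hle
      · have h1 := mpl_pairs χ h U x hUU (Q.filter fun p : ℕ => χ (p : ZMod N) = 1) 1 (Or.inl rfl) (by
          intro p hp
          rw [mem_filter] at hp
          obtain ⟨a, b, c⟩ := hQc p hp.1
          exact ⟨a, b, c, hp.2⟩)
        have h2 : Q.card ≤ 2 * (Q.filter fun p : ℕ => χ (p : ZMod N) = 1).card := by omega
        have h3 : Q.card * Q.card ≤ 8 * (Mpl χ x).card := by nlinarith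
        exact_mod_cast h3
      · have h1 := mpl_pairs χ h U x hUU (Q.filter fun p : ℕ => ¬ χ (p : ZMod N) = 1) (-1)
          (Or.inr rfl) (by
          intro p hp
          rw [mem_filter] at hp
          obtain ⟨a, b, c⟩ := hQc p hp.1
          exact ⟨a, b, c, (chi_pm χ h p c).resolve_left hp.2⟩)
        have h2 : Q.card ≤ 2 * (Q.filter fun p : ℕ => ¬ χ (p : ZMod N) = 1).card := by omega
        have h3 : Q.card * Q.card ≤ 8 * (Mpl χ x).card := by nlinarith
        exact_mod_cast h3
    have h4 : (U : ℝ) / (8 * Real.log N) * ((U : ℝ) / (8 * Real.log N)) ≤ 8 * (Mpl χ x).card := by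
      refine le_trans ?_ hmain
      apply mul_le_mul hk2 hk2 (by positivity) (by positivity)
    have h5 : (x : ℝ) ≤ 4 * ((U : ℝ) * U) := by nlinarith
    have h6 : (U : ℝ) / (8 * Real.log N) * ((U : ℝ) / (8 * Real.log N)) =
        ((U : ℝ) * U) / (64 * Real.log N ^ 2) := by
      field_simp
      norm_num
    rw [h6, div_le_iff₀ (by positivity)] at h4
    rw [div_le_iff₀ (by positivity)]
    have h7 : 2048 * Real.log N ^ 2 ≤ Real.log N ^ 5 := by
      have h8 : Real.log N * Real.log N ^ 2 ≤ Real.log N ^ 5 := by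
        have : Real.log N * Real.log N ^ 2 = Real.log N ^ 3 := by ring
        rw [this]
        exact pow_le_pow_right₀ hL1 (by norm_num)
      nlinarith [sq_nonneg (Real.log N)]
    have h9 : (0 : ℝ) ≤ (Mpl χ x).card := by positivity
    nlinarith

theorem split_count {N : ℕ} (hN : 2 ≤ N) (χ : DirichletCharacter ℂ N) :
    ((∑ p ∈ split χ N, (Mpl χ ((N - 1) / p)).card : ℕ) : ℝ) ≤
      2 * Real.log N * (dis N χ).card := by
  classical
  -- the set of pairs
  set T := (split χ N).sigma (fun p => Mpl χ ((N - 1) / p)) with hT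
  have hTc : T.card = ∑ p ∈ split χ N, (Mpl χ ((N - 1) / p)).card := Finset.card_sigma _ _
  have hmem : ∀ z ∈ T, z.1.Prime ∧ χ (z.1 : ZMod N) = 1 ∧ 1 ≤ z.2 ∧ z.1 * z.2 ≤ N - 1 ∧
      z.2.Coprime N ∧ (lam z.2 : ℂ) = χ (z.2 : ZMod N) := by
    rintro ⟨p, m⟩ hz
    rw [hT, Finset.mem_sigma] at hz
    simp only [split, Mpl, mem_filter, mem_Icc] at hz
    obtain ⟨⟨-, hpp, hχ⟩, ⟨h1, h2⟩, h3, h4⟩ := hz
    refine ⟨hpp, hχ, h1, ?_, h3, h4⟩
    calc p * m ≤ p * ((N - 1) / p) := Nat.mul_le_mul_left p h2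
      _ ≤ N - 1 := Nat.mul_div_le _ _
  have hcop : ∀ p : ℕ, χ (p : ZMod N) = 1 → p.Coprime N := by
    intro p hp
    rw [← ZMod.isUnit_iff_coprime]
    by_contra hcon
    rw [MulChar.map_nonunit χ hcon] at hp
    exact zero_ne_one hp
  have himg : T.image (fun z => z.1 * z.2) ⊆ dis N χ := by
    intro n hn
    rw [mem_image] at hn
    obtain ⟨z, hz, rfl⟩ := hn
    obtain ⟨hpp, hχ, h1, h2, h3, h4⟩ := hmem z hz
    have hpN := hcop z.1 hχ
    unfold dis
    rw [mem_filter, mem_range]
    refine ⟨by omega, Nat.Coprime.mul_left hpN h3, ?_⟩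
    rw [lam_mul hpp.ne_zero (by omega), lam_prime hpp, Nat.cast_mul, map_mul, hχ]
    have hne := chi_ne χ z.2 h3
    intro hcon
    rw [← h4] at hcon hne
    push_cast at hcon
    apply hne
    linear_combination (-1 / 2) * hcon
  set K := ⌊2 * Real.log N⌋₊ with hK
  have hL : 0 ≤ Real.log N := Real.log_natCast_nonneg N
  have h1 := Finset.card_le_mul_card_image (f := fun z : (_ : ℕ) × ℕ => z.1 * z.2) T K (by
    intro n hn
    rw [mem_image] at hn
    obtain ⟨z, hz, hzn⟩ := hn
    obtain ⟨hpp, hχ, h1, h2, h3, h4⟩ := hmem z hz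
    have hn0 : n ≠ 0 := by
      rw [← hzn]
      exact Nat.mul_ne_zero hpp.ne_zero (by omega)
    have hnN : n ≤ N := by
      rw [← hzn]; omega
    have hinj : Set.InjOn (fun w : (_ : ℕ) × ℕ => w.1) (T.filter fun w => w.1 * w.2 = n) := by
      rintro ⟨a, b⟩ ha ⟨c, d⟩ hc hac
      simp only [coe_filter, Set.mem_ofPred_eq] at ha hc hac
      subst hac
      have hap := (hmem ⟨a, b⟩ ha.1).1
      simp only at hap
      have : b = d := Nat.eq_of_mul_eq_mul_left hap.pos (ha.2.trans hc.2.symm)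
      rw [this]
    have hsub : (T.filter fun w => w.1 * w.2 = n).image (fun w => w.1) ⊆ n.primeFactors := by
      intro p hp
      rw [mem_image] at hp
      obtain ⟨w, hw, rfl⟩ := hp
      rw [mem_filter] at hw
      rw [Nat.mem_primeFactors]
      exact ⟨(hmem w hw.1).1, ⟨w.2, hw.2.symm⟩, hn0⟩
    have h5 : (T.filter fun w => w.1 * w.2 = n).card ≤ n.primeFactors.card := by
      rw [← Finset.card_image_of_injOn hinj]
      exact Finset.card_le_card hsub
    refine h5.trans ?_
    rw [hK]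
    exact Nat.le_floor (omega_le_log n N hn0 hnN))
  rw [← hTc]
  have h2 : T.card ≤ K * (dis N χ).card :=
    h1.trans (Nat.mul_le_mul_left K (Finset.card_le_card himg))
  have h3 : (T.card : ℝ) ≤ K * (dis N χ).card := by exact_mod_cast h2
  refine h3.trans ?_
  apply mul_le_mul_of_nonneg_right _ (by positivity)
  exact Nat.floor_le (by positivity)

theorem split_sparse (D : ℕ) : ∃ D' : ℕ, ∀ᶠ N : ℕ in atTop, ∀ _ : NeZero N,
    ∀ χ : DirichletCharacter ℂ N, RealChar χ → ((dis N χ).card : ℝ) ≤ N / Real.log N ^ D' →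
    Sp χ N ≤ 1 / Real.log N ^ D := by
  refine ⟨D + 7, ?_⟩
  filter_upwards [mpl_lower, ev_log 4, eventually_ge_atTop 2] with N hm hlog hN2
  intro _ χ h hdis
  have hL0 : 0 < Real.log N := by linarith
  have hN0 : (0 : ℝ) < N := by positivity
  have hsc := split_count hN2 χ
  have hterm : ∀ p ∈ split χ N, (1 : ℝ) / p ≤
      2 * Real.log N ^ 5 / N * ((Mpl χ ((N - 1) / p)).card : ℝ) := by
    intro p hp
    simp only [split, mem_filter, mem_Icc] at hp
    obtain ⟨⟨hp1, hpN⟩, hpp, hχ⟩ := hp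
    have hpne : p ≠ N := by
      rintro rfl
      have hn : ¬ IsUnit ((p : ℕ) : ZMod p) := by
        rw [ZMod.isUnit_iff_coprime, Nat.coprime_self]
        omega
      rw [MulChar.map_nonunit χ hn] at hχ
      exact zero_ne_one hχ
    have hpN1 : p ≤ N - 1 := by omega
    set y := (N - 1) / p with hy
    have hy1 : 1 ≤ y := Nat.div_pos hpN1 (by omega)
    have hyN : y ≤ N := (Nat.div_le_self _ _).trans (by omega)
    have h1 := hm χ h y hy1 hyN
    have h2 : N ≤ p * (y + 1) := by
      have h9 := Nat.lt_mul_div_succ (N - 1) (by omega : 0 < p)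
      rw [← hy] at h9
      omega
    have h3 : (N : ℝ) ≤ p * (2 * y) := by
      have : N ≤ p * (2 * y) := h2.trans (Nat.mul_le_mul_left p (by omega))
      exact_mod_cast this
    have hp0 : (0 : ℝ) < p := by
      have : 0 < p := by omega
      exact_mod_cast this
    rw [div_le_iff₀ (by positivity)] at h1
    rw [div_le_iff₀ hp0]
    have h4 : 2 * Real.log N ^ 5 / N * ((Mpl χ y).card : ℝ) * p =
        ((Mpl χ y).card * Real.log N ^ 5) * (2 * p) / N := by ring
    rw [h4, le_div_iff₀ hN0]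
    nlinarith
  have hsum : Sp χ N ≤ 2 * Real.log N ^ 5 / N *
      ((∑ p ∈ split χ N, (Mpl χ ((N - 1) / p)).card : ℕ) : ℝ) := by
    unfold Sp
    rw [Nat.cast_sum, Finset.mul_sum]
    exact Finset.sum_le_sum hterm
  refine hsum.trans ?_
  have h5 : 2 * Real.log N ^ 5 / N * ((∑ p ∈ split χ N, (Mpl χ ((N - 1) / p)).card : ℕ) : ℝ) ≤
      2 * Real.log N ^ 5 / N * (2 * Real.log N * (N / Real.log N ^ (D + 7))) := by
    apply mul_le_mul_of_nonneg_left _ (by positivity)
    refine hsc.trans ?_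
    apply mul_le_mul_of_nonneg_left hdis (by positivity)
  refine h5.trans ?_
  have h6 : 2 * Real.log N ^ 5 / N * (2 * Real.log N * (N / Real.log N ^ (D + 7))) =
      4 / Real.log N * (1 / Real.log N ^ D) := by
    field_simp
    ring
  rw [h6]
  have h7 : 4 / Real.log N ≤ 1 := by
    rw [div_le_one hL0]; exact hlog
  calc 4 / Real.log N * (1 / Real.log N ^ D) ≤ 1 * (1 / Real.log N ^ D) := by gcongr
    _ = 1 / Real.log N ^ D := one_mul _

theorem parity : ∀ᶠ N : ℕ in atTop, ∀ _ : NeZero N, ∀ κ : ℤ, κ = 1 ∨ κ = -1 →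
    ∀ χ : DirichletCharacter ℂ N, RealChar χ → ((dis N χ).card : ℝ) ≤ N / Real.log N ^ 2 →
    ((W κ N).card : ℝ) ≤ N / Real.log N ^ 2 → χ (-1) = (κ : ℂ) := by
  classical
  filter_upwards [totient_lower, ev_log 4, eventually_ge_atTop 2] with N htot hlog hN2
  intro _ κ hκ χ h hdis hW
  have hL0 : 0 < Real.log N := by linarith
  have hN0 : (0 : ℝ) < N := by positivity
  set S := (range N).filter fun a => a.Coprime N with hS
  have hScard : S.card = N.totient := by
    rw [hS, Nat.totient_eq_card_coprime]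
    congr 1
    apply Finset.filter_congr
    intro a _
    exact Nat.coprime_comm
  set R := (dis N χ).image (fun a => N - a) with hR
  have hRc : R.card ≤ (dis N χ).card := Finset.card_image_le
  have hex : ∃ a ∈ S, a ∉ W κ N ∪ dis N χ ∪ R := by
    by_contra hcon
    push Not at hcon
    have hsub : S ⊆ W κ N ∪ dis N χ ∪ R := hcon
    have h1 := Finset.card_le_card hsub
    have h2 : (W κ N ∪ dis N χ ∪ R).card ≤ (W κ N).card + (dis N χ).card + (dis N χ).card :=
      (Finset.card_union_le _ _).trans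
        (Nat.add_le_add (Finset.card_union_le _ _) hRc)
    have h3 : (N.totient : ℝ) ≤ (W κ N).card + (dis N χ).card + (dis N χ).card := by
      rw [← hScard]
      exact_mod_cast h1.trans h2
    have h4 : (N.totient : ℝ) ≤ 3 * (N / Real.log N ^ 2) := by linarith
    have h5 : (N : ℝ) ≤ 3 * (N / Real.log N ^ 2) * Real.log N :=
      htot.trans (mul_le_mul_of_nonneg_right h4 hL0.le)
    have h6 : 3 * (N / Real.log N ^ 2) * Real.log N = 3 / Real.log N * N := by
      field_simp
    rw [h6] at h5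
    have h7 : 3 / Real.log N < 1 := by
      rw [div_lt_one hL0]; linarith
    nlinarith
  obtain ⟨a, haS, hanot⟩ := hex
  rw [hS, mem_filter, mem_range] at haS
  obtain ⟨haN, hac⟩ := haS
  rw [mem_union, mem_union] at hanot
  push Not at hanot
  obtain ⟨⟨haW, hadis⟩, haR⟩ := hanot
  have ha0 : 0 < a := by
    rcases Nat.eq_zero_or_pos a with h0 | h0
    · exfalso
      rw [h0, Nat.coprime_zero_left] at hac
      omega
    · exact h0
  have hcN : (N - a).Coprime N := (Nat.coprime_self_sub_left haN.le).mpr hac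
  have e1 : lam (N - a) = κ * lam a := by
    by_contra hcon
    apply haW
    unfold W
    rw [mem_filter, mem_Ioo]
    exact ⟨⟨ha0, haN⟩, hcon⟩
  have e2 : (lam a : ℂ) = χ (a : ZMod N) := by
    by_contra hcon
    apply hadis
    unfold dis
    rw [mem_filter, mem_range]
    exact ⟨haN, hac, hcon⟩
  have e3 : (lam (N - a) : ℂ) = χ ((N - a : ℕ) : ZMod N) := by
    by_contra hcon
    apply haR
    rw [hR, mem_image]
    refine ⟨N - a, ?_, by omega⟩
    unfold dis
    rw [mem_filter, mem_range]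
    exact ⟨by omega, hcN, hcon⟩
  have e4 : ((N - a : ℕ) : ZMod N) = -1 * (a : ZMod N) := by
    rw [Nat.cast_sub haN.le]
    simp
  rw [e4, map_mul, e1, ← e2] at e3
  push_cast at e3
  have hne : (lam a : ℂ) ≠ 0 := by
    rcases lam_cases a with h1 | h1 <;> rw [h1] <;> norm_num
  exact (mul_right_cancel₀ hne e3).symm

end Pool.Agent.GLI
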