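import Pool.Agent.GLI.Cheb
import Pool.Agent.GLI.DivB
import Pool.Agent.GLI.Ev

set_option autoImplicit false

/-!
Module DisSmall. `cf N χ = 1 - 2 b/φ(N)`, `b = |dis N χ|` (`χ` real), so `b ≤ φ(N)/(log N)^D` or at least
`b ≥ φ(N) (1 - (log N)^(-D))`. In the second case take the primes in `(U/4, U]`, `U = ⌊√(N-1)⌋`, not dividing `N`
(primes_cop): `k ≥ U/(8 log U)` of them; one of the classes `lam u χ(u) = ±1` has `≥ k/2` elements; the
products `u v`, `u < v` in this class are distinct, `< N`, prime to `N`, with `lam (u v) = χ(u v)`: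
`≥ k²/16 ≥ N/(log N)^3` elements outside `dis`; contradiction with `N/(log N)^D'`, `D' ≥ 4`.
-/

open Finset Filter

namespace Pool.Agent.GLI

theorem ds_unit {N : ℕ} {χ : DirichletCharacter ℂ N} (h : RealChar χ) {a : ℕ} (ha : a.Coprime N) :
    χ (a : ZMod N) = 1 ∨ χ (a : ZMod N) = -1 := by
  rcases h (a : ZMod N) with h0 | h1
  · exfalso
    have hu : IsUnit (a : ZMod N) := (ZMod.isUnit_iff_coprime a N).2 ha
    exact (hu.map χ).ne_zero h0
  · exact h1

open Classical in
theorem ds_cf (N : ℕ) (χ : DirichletCharacter ℂ N) (h : RealChar χ) :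
    cf N χ = (((N.totient : ℝ) - 2 * (dis N χ).card : ℝ) : ℂ) / (N.totient : ℂ) := by
  have key : ∀ a ∈ range N, (starRingEnd ℂ) (χ (a : ZMod N)) * (lam a : ℂ) =
      (if a.Coprime N then (1 : ℂ) else 0) -
        2 * (if a.Coprime N ∧ (lam a : ℂ) ≠ χ (a : ZMod N) then (1 : ℂ) else 0) := by
    intro a _
    by_cases hc : a.Coprime N
    · rw [if_pos hc]
      rcases ds_unit h hc with h1 | h1 <;> rcases lam_cases a with h2 | h2 <;> rw [h1, h2]
      · simp
      · rw [if_pos ⟨hc, by norm_num⟩]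
        norm_num
      · rw [if_pos ⟨hc, by norm_num⟩]
        norm_num
      · simp
    · have h0 : χ (a : ZMod N) = 0 :=
        χ.map_nonunit (fun hu => hc ((ZMod.isUnit_iff_coprime a N).1 hu))
      rw [if_neg hc, if_neg (fun hh => hc hh.1), h0]
      simp
  have h1 : ∑ a ∈ range N, (if a.Coprime N then (1 : ℂ) else 0) = (N.totient : ℂ) := by
    rw [Finset.sum_ite, Finset.sum_const_zero, add_zero, Finset.sum_const, nsmul_eq_mul, mul_one,
      Nat.totient_eq_card_coprime]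
    congr 2
    ext a
    simp only [mem_filter, Nat.coprime_comm]
  have h2 : ∑ a ∈ range N, (if a.Coprime N ∧ (lam a : ℂ) ≠ χ (a : ZMod N) then (1 : ℂ) else 0) =
      ((dis N χ).card : ℂ) := by
    rw [Finset.sum_ite, Finset.sum_const_zero, add_zero, Finset.sum_const, nsmul_eq_mul, mul_one, dis]
  unfold cf
  rw [Finset.sum_congr rfl key, Finset.sum_sub_distrib, ← Finset.mul_sum, h1, h2]
  push_cast
  rfl

open Classical in
/-- the agreement set -/
noncomputable def agr (N : ℕ) (χ : DirichletCharacter ℂ N) : Finset ℕ :=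
  (range N).filter fun a => a.Coprime N ∧ (lam a : ℂ) = χ (a : ZMod N)

theorem ds_card (N : ℕ) (χ : DirichletCharacter ℂ N) :
    (dis N χ).card + (agr N χ).card = N.totient := by
  classical
  have h1 : Disjoint (dis N χ) (agr N χ) := by
    rw [Finset.disjoint_left]
    intro a ha hb
    simp only [dis, agr, mem_filter] at ha hb
    exact ha.2.2 hb.2.2
  rw [← card_union_of_disjoint h1, Nat.totient_eq_card_coprime]
  congr 1
  ext a
  simp only [dis, agr, mem_union, mem_filter, Nat.coprime_comm (n := N)]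
  tauto

/-- products of two primes of one class -/
theorem ds_products (N : ℕ) (χ : DirichletCharacter ℂ N) (U : ℕ) (hU : U * U < N) (T : Finset ℕ)
    (hT : ∀ u ∈ T, u.Prime ∧ ¬ u ∣ N ∧ u ≤ U) (s : ℂ) (hs : s * s = 1)
    (hc : ∀ u ∈ T, (lam u : ℂ) * s = χ (u : ZMod N)) : T.card ^ 2 ≤ 2 * (agr N χ).card := by
  classical
  have h1 : ((T ×ˢ T).filter fun p => p.1 ≤ p.2).card ≤ (agr N χ).card := by
    refine Finset.card_le_card_of_injOn (fun p => p.1 * p.2) ?_ ?_
    · intro p hp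
      rw [mem_coe, mem_filter, mem_product] at hp
      obtain ⟨⟨h1, h2⟩, -⟩ := hp
      obtain ⟨a1, a2, a3⟩ := hT _ h1
      obtain ⟨b1, b2, b3⟩ := hT _ h2
      simp only [agr, coe_filter, mem_range, Set.mem_ofPred_eq]
      refine ⟨lt_of_le_of_lt (Nat.mul_le_mul a3 b3) hU, ?_, ?_⟩
      · exact Nat.Coprime.mul_left ((Nat.Prime.coprime_iff_not_dvd a1).2 a2)
          ((Nat.Prime.coprime_iff_not_dvd b1).2 b2)
      · rw [lam_mul a1.ne_zero b1.ne_zero]
        push_cast
        rw [map_mul, ← hc _ h1, ← hc _ h2]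
        linear_combination -(lam p.1 : ℂ) * (lam p.2 : ℂ) * hs
    · rintro ⟨u, v⟩ hp ⟨u', v'⟩ hp' heq
      rw [mem_coe, mem_filter, mem_product] at hp hp'
      simp only at hp hp' heq
      obtain ⟨⟨h1, h2⟩, h3⟩ := hp
      obtain ⟨⟨h1', h2'⟩, h3'⟩ := hp'
      have a1 := (hT _ h1).1
      have a2 := (hT _ h2).1
      have a3 := (hT _ h1').1
      have a4 := (hT _ h2').1
      have h5 : u ∣ u' * v' := ⟨v, heq.symm⟩
      rcases (Nat.Prime.dvd_mul a1).1 h5 with h6 | h6
      · have h7 := (Nat.prime_dvd_prime_iff_eq a1 a3).1 h6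
        subst h7
        have h8 := Nat.eq_of_mul_eq_mul_left a1.pos heq
        rw [h8]
      · have h7 := (Nat.prime_dvd_prime_iff_eq a1 a4).1 h6
        subst h7
        have h8 : v = u' := by
          rw [mul_comm u' u] at heq
          exact Nat.eq_of_mul_eq_mul_left a1.pos heq
        subst h8
        have h9 : u = v := le_antisymm h3 h3'
        rw [h9]
  have h2 : T ×ˢ T ⊆ ((T ×ˢ T).filter fun p => p.1 ≤ p.2) ∪
      ((T ×ˢ T).filter fun p => p.1 ≤ p.2).image Prod.swap := by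
    rintro ⟨u, v⟩ hp
    rw [mem_product] at hp
    rcases le_total u v with h | h
    · exact mem_union_left _ (mem_filter.2 ⟨mem_product.2 hp, h⟩)
    · exact mem_union_right _ (mem_image.2 ⟨(v, u), mem_filter.2 ⟨mem_product.2 ⟨hp.2, hp.1⟩, h⟩, rfl⟩)
  have h3 := card_le_card h2
  rw [card_product] at h3
  have h4 := card_union_le ((T ×ˢ T).filter fun p => p.1 ≤ p.2)
    (((T ×ˢ T).filter fun p => p.1 ≤ p.2).image Prod.swap)
  have h5 := card_image_le (s := (T ×ˢ T).filter fun p => p.1 ≤ p.2) (f := Prod.swap)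
  rw [pow_two]
  omega

theorem ds_agr_large : ∀ᶠ N : ℕ in atTop, ∀ χ : DirichletCharacter ℂ N, RealChar χ →
    (N : ℝ) / Real.log N ^ 3 ≤ (agr N χ).card := by
  have hsq : ∀ᶠ N : ℕ in atTop, (2 : ℝ) * (N : ℝ) ^ (0 : ℝ) * Real.log N ^ 2 ≤ (N : ℝ) ^ (1 / 2 : ℝ) :=
    ev_pow 0 (1 / 2) (by norm_num) 2 2
  filter_upwards [primes_cop, ev_log 4096, hsq, eventually_ge_atTop 16] with N hN hL hsq hN16 χ h
  classical
  have hL0 : (0 : ℝ) < Real.log N := by linarith
  have hNr : (16 : ℝ) ≤ N := by exact_mod_cast hN16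
  set U := Nat.sqrt (N - 1) with hUdef
  have hU1 : U * U ≤ N - 1 := Nat.sqrt_le (N - 1)
  have hU2 : N - 1 < (U + 1) * (U + 1) := Nat.lt_succ_sqrt (N - 1)
  have hUN : U * U < N := by omega
  have hU3 : (N : ℝ) ≤ ((U : ℝ) + 1) ^ 2 := by
    have : N ≤ (U + 1) * (U + 1) := by omega
    have h2 : (N : ℝ) ≤ ((U + 1) * (U + 1) : ℕ) := by exact_mod_cast this
    push_cast at h2
    linarith [h2, sq ((U : ℝ) + 1)]
  have hUpos : (3 : ℝ) ≤ U := by
    by_contra hcon
    push Not at hcon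
    have h0 : (0 : ℝ) ≤ U := Nat.cast_nonneg U
    nlinarith
  -- `√N ≤ 2 U`
  have hU4 : (N : ℝ) ≤ (2 * (U : ℝ)) ^ 2 := by nlinarith
  have hU5 : Real.log N ^ 2 ≤ (U : ℝ) := by
    rw [Real.rpow_zero, mul_one, ← Real.sqrt_eq_rpow] at hsq
    have h1 : Real.sqrt N ≤ 2 * (U : ℝ) := by
      rw [Real.sqrt_le_left (by linarith)]
      exact hU4
    linarith
  have hprimes := hN U hU5
  set Q := (Ioc (U / 4) U).filter fun p => p.Prime ∧ ¬ p ∣ N with hQ
  have hlogU : Real.log U ≤ Real.log N := by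
    apply Real.log_le_log (by linarith)
    have : (U : ℝ) * U ≤ N := by exact_mod_cast hUN.le
    nlinarith
  have hlogU0 : 0 < Real.log U := Real.log_pos (by linarith)
  have hk : (U : ℝ) / (8 * Real.log N) ≤ Q.card := by
    refine le_trans ?_ hprimes
    apply div_le_div_of_nonneg_left (by linarith) (by linarith) (by linarith)
  -- the two classes
  have hsplit : Q = (Q.filter fun u => (lam u : ℂ) * 1 = χ (u : ZMod N)) ∪
      (Q.filter fun u => (lam u : ℂ) * (-1) = χ (u : ZMod N)) := by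
    ext u
    simp only [mem_union, mem_filter]
    constructor
    · intro hu
      have hu' := hu
      rw [hQ, mem_filter] at hu'
      have hcop : u.Coprime N := (Nat.Prime.coprime_iff_not_dvd hu'.2.1).2 hu'.2.2
      rcases ds_unit h hcop with h1 | h1 <;> rcases lam_cases u with h2 | h2 <;> rw [h1, h2]
      · left; refine ⟨hu, by norm_num⟩
      · right; refine ⟨hu, by norm_num⟩
      · right; refine ⟨hu, by norm_num⟩
      · left; refine ⟨hu, by norm_num⟩
    · rintro (h1 | h1) <;> exact h1.1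
  have hprop : ∀ s : ℂ, ∀ u ∈ (Q.filter fun u => (lam u : ℂ) * s = χ (u : ZMod N)),
      u.Prime ∧ ¬ u ∣ N ∧ u ≤ U := by
    intro s u hu
    rw [mem_filter, hQ, mem_filter, mem_Ioc] at hu
    exact ⟨hu.1.2.1, hu.1.2.2, hu.1.1.2⟩
  have hp1 := ds_products N χ U hUN _ (hprop 1) 1 (by norm_num) (fun u hu => (mem_filter.1 hu).2)
  have hp2 := ds_products N χ U hUN _ (hprop (-1)) (-1) (by norm_num) (fun u hu => (mem_filter.1 hu).2)
  set A := (Q.filter fun u => (lam u : ℂ) * 1 = χ (u : ZMod N)).card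
  set B := (Q.filter fun u => (lam u : ℂ) * (-1) = χ (u : ZMod N)).card
  have hcard : Q.card ≤ A + B := by
    conv_lhs => rw [hsplit]
    exact card_union_le _ _
  have hcr : (Q.card : ℝ) ≤ A + B := by exact_mod_cast hcard
  have hp1r : (A : ℝ) ^ 2 ≤ 2 * (agr N χ).card := by exact_mod_cast hp1
  have hp2r : (B : ℝ) ^ 2 ≤ 2 * (agr N χ).card := by exact_mod_cast hp2
  have hq0 : (0 : ℝ) ≤ Q.card := Nat.cast_nonneg _
  have hq2 : (Q.card : ℝ) ^ 2 ≤ 8 * (agr N χ).card := by nlinarith [sq_nonneg ((A : ℝ) - B)]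
  have hlow : 0 ≤ (U : ℝ) / (8 * Real.log N) := by positivity
  have hk2 : ((U : ℝ) / (8 * Real.log N)) ^ 2 ≤ (Q.card : ℝ) ^ 2 := by
    exact pow_le_pow_left₀ hlow hk 2
  have h9 : (N : ℝ) / Real.log N ^ 3 ≤ ((U : ℝ) / (8 * Real.log N)) ^ 2 / 8 := by
    rw [div_pow, div_div, div_le_div_iff₀ (by positivity) (by positivity)]
    have h10 : (N : ℝ) * 2048 ≤ (U : ℝ) ^ 2 * 8192 := by nlinarith
    have h11 : (N : ℝ) * ((8 * Real.log N) ^ 2 * 8) = ((N : ℝ) * 512) * Real.log N ^ 2 := by ring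
    have h12 : (U : ℝ) ^ 2 * Real.log N ^ 3 = ((U : ℝ) ^ 2 * Real.log N) * Real.log N ^ 2 := by ring
    rw [h11, h12]
    apply mul_le_mul_of_nonneg_right _ (by positivity)
    nlinarith [sq_nonneg (U : ℝ)]
  linarith

theorem dis_small (D : ℕ) : ∃ D' : ℕ, ∀ᶠ N : ℕ in atTop, ∀ _ : NeZero N,
    ∀ χ : DirichletCharacter ℂ N, RealChar χ → 1 - 1 / Real.log N ^ D' ≤ ‖cf N χ‖ ^ 2 →
    ((dis N χ).card : ℝ) ≤ N / Real.log N ^ D := by
  refine ⟨D + 3, ?_⟩
  filter_upwards [ds_agr_large, ev_log 2, eventually_ge_atTop 3] with N hagr hL hN3 _ χ h hcf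
  have hL0 : (0 : ℝ) < Real.log N := by linarith
  have hL1 : (1 : ℝ) ≤ Real.log N := by linarith
  have hN0 : (0 : ℝ) < N := by
    have : 0 < N := by omega
    exact_mod_cast this
  have hphi : (0 : ℝ) < N.totient := by
    exact_mod_cast Nat.totient_pos.2 (by omega)
  have hphiN : (N.totient : ℝ) ≤ N := by exact_mod_cast Nat.totient_le N
  have hcard : ((dis N χ).card : ℝ) + (agr N χ).card = N.totient := by exact_mod_cast ds_card N χ
  set b : ℝ := ((dis N χ).card : ℝ) with hb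
  set g : ℝ := ((agr N χ).card : ℝ) with hg
  have hb0 : 0 ≤ b := Nat.cast_nonneg _
  have hg0 : 0 ≤ g := Nat.cast_nonneg _
  have h1 : ‖cf N χ‖ ^ 2 = ((N.totient - 2 * b) / N.totient) ^ 2 := by
    rw [ds_cf N χ h, ← hb]
    rw [show (((N.totient : ℝ) - 2 * b : ℝ) : ℂ) / (N.totient : ℂ) =
      ((((N.totient : ℝ) - 2 * b) / (N.totient : ℝ) : ℝ) : ℂ) by push_cast; rfl]
    rw [Complex.norm_real, Real.norm_eq_abs, sq_abs]
  rw [h1] at hcf
  set ε : ℝ := 1 / Real.log N ^ (D + 3) with hε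
  have hε0 : 0 < ε := by positivity
  -- `4 b g ≤ ε φ²`
  have h2 : 4 * b * g ≤ ε * (N.totient : ℝ) ^ 2 := by
    have h3 : ((N.totient - 2 * b) / N.totient) ^ 2 * (N.totient : ℝ) ^ 2 = (N.totient - 2 * b) ^ 2 := by
      field_simp
    have h4 := mul_le_mul_of_nonneg_right hcf (sq_nonneg (N.totient : ℝ))
    rw [h3, ← hcard] at h4
    rw [← hcard]
    nlinarith
  rcases le_total b g with hbg | hbg
  · -- `b` small
    have h3 : (N.totient : ℝ) ≤ 2 * g := by linarith
    have h4 : 2 * b * (N.totient : ℝ) ≤ ε * (N.totient : ℝ) * N.totient := by nlinarith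
    have h5 : 2 * b ≤ ε * N.totient := le_of_mul_le_mul_right h4 hphi
    have h6 : ε * N.totient ≤ ε * N := mul_le_mul_of_nonneg_left hphiN hε0.le
    have h7 : ε * N ≤ N / Real.log N ^ D := by
      rw [hε, one_div, mul_comm, ← div_eq_mul_inv]
      exact div_log_anti _ hN0.le hL1 (by omega)
    have h8 : 0 ≤ N / Real.log N ^ D := by positivity
    linarith
  · exfalso
    have h3 : (N.totient : ℝ) ≤ 2 * b := by linarith
    have h4 : 2 * g * (N.totient : ℝ) ≤ ε * (N.totient : ℝ) * N.totient := by nlinarith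
    have h5 : 2 * g ≤ ε * N.totient := le_of_mul_le_mul_right h4 hphi
    have h6 : ε * N.totient ≤ ε * N := mul_le_mul_of_nonneg_left hphiN hε0.le
    have h7 : ε * N ≤ N / Real.log N ^ 3 := by
      rw [hε, one_div, mul_comm, ← div_eq_mul_inv]
      exact div_log_anti _ hN0.le hL1 (by omega)
    have h8 := hagr χ h
    rw [← hg] at h8
    have h9 : 0 < N / Real.log N ^ 3 := by positivity
    linarith

end Pool.Agent.GLI
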