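import Pool.Agent.GLI.Ev

set_option autoImplicit false

/-!
Module Exact. Strong induction on `m`. For `m ≥ 2` Dirichlet (`Real.exists_nat_abs_mul_sub_round_le`
with `n = m - 1`, `ξ = n/N`) gives `1 ≤ t ≤ m - 1` and an integer `s` with `t n = N k + s`,
`|s| m ≤ N`. `s ≠ 0` (Free at `r = t`), `|s| m ≠ N` (else `N ∣ m t n`, Free at `r = m t ≤ m!m ≤ R`).
If `s > 0`: `(t n) % N = s`, `(m t n) % N = m s`, so `lam ((m t n) % N) = lam m lam ((t n) % N)`.
If `s < 0`: `(t n) % N = N - |s|`, `(m t n) % N = N - m |s|`; both are outside `W`, so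
`lam |s| = κ lam ((t n) % N)`, `lam (m |s|) = κ lam ((m t n) % N)`, and again
`lam ((m t n) % N) = lam m lam ((t n) % N)` (`κ² = 1`). Finally `GoodAt N t n` and `GoodAt N t (m n)` by
induction (`Free κ N (t! t) (m n)` because `t! t m ≤ m! m`), and `lam t ^ 2 = 1`.
-/

open Finset Filter

namespace Pool.Agent.GLI

theorem exact_core {κ : ℤ} (hκ : κ = 1 ∨ κ = -1) {N m s : ℕ} (hN : 2 ≤ N) (hm : 1 ≤ m)
    (h0 : ¬ N ∣ s) (h1 : s % N ∉ W κ N) (h2 : (m * s) % N ∉ W κ N)
    (hn : near N m s) : lam ((m * s) % N) = lam m * lam (s % N) := by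
  have hN0 : 0 < N := by omega
  have hs0 : 0 < s % N := Nat.pos_of_ne_zero fun h => h0 (Nat.dvd_of_mod_eq_zero h)
  have hsN : s % N < N := Nat.mod_lt _ hN0
  rcases hn with hn | hn
  · have e : (m * s) % N = m * (s % N) := by
      rw [← Nat.mul_mod_mod]
      exact Nat.mod_eq_of_lt (by rw [Nat.mul_comm]; exact hn)
    rw [e, lam_mul (by omega) (by omega)]
  · set u := N - s % N with hu
    have hu0 : 0 < u := by omega
    have hmu : 0 < m * u := Nat.mul_pos hm hu0
    have hmuN : m * u < N := by rw [Nat.mul_comm]; exact hn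
    have e : (m * s) % N = N - m * u := by
      have h3 : m * s + m * u = N * (m * (s / N + 1)) := by
        have h4 : s + u = N * (s / N + 1) := by
          have := Nat.div_add_mod s N
          rw [Nat.mul_add, Nat.mul_one]
          omega
        rw [← Nat.mul_add, h4]
        ring
      have h5 : m * (s / N + 1) ≠ 0 := by positivity
      obtain ⟨q, hq⟩ := Nat.exists_eq_succ_of_ne_zero h5
      have h6 : m * s = N * q + (N - m * u) := by
        rw [hq, Nat.mul_succ] at h3
        omega
      rw [h6, Nat.mul_add_mod]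
      exact Nat.mod_eq_of_lt (by omega)
    have h7 : lam u = κ * lam (s % N) := by
      by_contra hne
      apply h1
      simp only [W, Finset.mem_filter, Finset.mem_Ioo]
      exact ⟨⟨hs0, hsN⟩, by rw [← hu]; exact hne⟩
    have h8 : lam (m * u) = κ * lam ((m * s) % N) := by
      by_contra hne
      apply h2
      simp only [W, Finset.mem_filter, Finset.mem_Ioo]
      refine ⟨by rw [e]; omega, ?_⟩
      have h9 : N - (m * s) % N = m * u := by rw [e]; omega
      rw [h9]
      exact hne
    rw [lam_mul (by omega) (by omega), h7] at h8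
    rcases hκ with rfl | rfl
    · linarith
    · linarith

theorem good_hit {κ : ℤ} (hκ : κ = 1 ∨ κ = -1) {N m t n R : ℕ} (hN : 2 ≤ N) (hm : 1 ≤ m)
    (ht : 1 ≤ t) (hR : m * t ≤ R) (hF : Free κ N R n) (hn : near N m (t * n))
    (h1 : GoodAt N t n) (h2 : GoodAt N t (m * n)) : GoodAt N m n := by
  unfold GoodAt at *
  have ht' : t ≤ R := le_trans (Nat.le_mul_of_pos_left t hm) hR
  obtain ⟨a1, a2⟩ := hF t ht ht'
  obtain ⟨b1, b2⟩ := hF (m * t) (Nat.mul_pos hm ht) hR
  have h3 : lam ((m * (t * n)) % N) = lam m * lam ((t * n) % N) :=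
    exact_core hκ hN hm a1 a2 (by rw [← Nat.mul_assoc]; exact b2) hn
  have h4 : m * (t * n) = t * (m * n) := by ring
  rw [h4, h2, h1] at h3
  have h5 := lam_sq t
  have h6 : lam t * (lam t * lam (m * n % N)) = lam t * (lam m * (lam t * lam (n % N))) := by
    rw [h3]
  have h7 : lam t * (lam t * lam (m * n % N)) = lam (m * n % N) := by
    rw [← mul_assoc, h5, one_mul]
  have h8 : lam t * (lam m * (lam t * lam (n % N))) = lam m * lam (n % N) := by
    have : lam t * (lam m * (lam t * lam (n % N))) = (lam t * lam t) * (lam m * lam (n % N)) := by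
      ring
    rw [this, h5, one_mul]
  rw [h7, h8] at h6
  exact h6

/-- Dirichlet approximation: for `2 ≤ m` there is `1 ≤ t ≤ m - 1` with `t n` at distance at most
`N/m` from a multiple of `N`. -/
theorem exact_dirichlet {N m : ℕ} (n : ℕ) (hN : 0 < N) (hm : 2 ≤ m) :
    ∃ t : ℕ, 1 ≤ t ∧ t ≤ m - 1 ∧ ∃ k : ℤ, |(t : ℤ) * n - N * k| * m ≤ N := by
  obtain ⟨t, ht0, ht1, ht2⟩ := Real.exists_nat_abs_mul_sub_round_le ((n : ℝ) / N)
    (n := m - 1) (by omega)
  refine ⟨t, ht0, ht1, round ((t : ℝ) * ((n : ℝ) / N)), ?_⟩
  set k := round ((t : ℝ) * ((n : ℝ) / N)) with hk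
  have hN' : (0 : ℝ) < N := by exact_mod_cast hN
  have hm' : (0 : ℝ) < m := by
    have : 0 < m := by omega
    exact_mod_cast this
  have h1 : ((m - 1 : ℕ) : ℝ) + 1 = m := by
    have : (m - 1) + 1 = m := by omega
    exact_mod_cast this
  rw [h1] at ht2
  have h2 : ((|(t : ℤ) * n - N * k| * m : ℤ) : ℝ) ≤ ((N : ℤ) : ℝ) := by
    push_cast
    have h3 : (t : ℝ) * n - N * k = N * ((t : ℝ) * ((n : ℝ) / N) - k) := by
      field_simp
    rw [h3, abs_mul, abs_of_pos hN']
    have h4 : |(t : ℝ) * ((n : ℝ) / N) - k| * m ≤ 1 := by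
      calc |(t : ℝ) * ((n : ℝ) / N) - k| * m ≤ 1 / m * m :=
            mul_le_mul_of_nonneg_right ht2 hm'.le
        _ = 1 := by field_simp
    calc (N : ℝ) * |(t : ℝ) * ((n : ℝ) / N) - k| * m
        = N * (|(t : ℝ) * ((n : ℝ) / N) - k| * m) := by ring
      _ ≤ N * 1 := mul_le_mul_of_nonneg_left h4 hN'.le
      _ = N := by ring
  exact_mod_cast h2

theorem good_exact {κ : ℤ} (hκ : κ = 1 ∨ κ = -1) {N m n R : ℕ} (hN : 2 ≤ N) (hm : 1 ≤ m)
    (hR : Nat.factorial m * m ≤ R) (hF : Free κ N R n) : GoodAt N m n := by
  induction m using Nat.strong_induction_on generalizing n R with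
  | _ m ih =>
    rcases Nat.lt_or_ge m 2 with hm2 | hm2
    · have : m = 1 := by omega
      subst this
      unfold GoodAt
      rw [lam_one, one_mul, one_mul]
    · obtain ⟨t, ht0, ht1, k, hk⟩ := exact_dirichlet n (by omega : 0 < N) hm2
      have htm : t < m := by omega
      have hfac : Nat.factorial t * t * m ≤ Nat.factorial m * m := by
        have h1 : Nat.factorial t * t ≤ Nat.factorial (t + 1) := by
          rw [Nat.factorial_succ]
          nlinarith [Nat.factorial_pos t]
        exact Nat.mul_le_mul_right m (le_trans h1 (Nat.factorial_le (by omega)))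
      have htR : m * t ≤ R := by
        have h1 : t ≤ Nat.factorial m := le_trans (by omega : t ≤ m) (Nat.self_le_factorial m)
        calc m * t = t * m := Nat.mul_comm _ _
          _ ≤ Nat.factorial m * m := Nat.mul_le_mul_right m h1
          _ ≤ R := hR
      have htt : Nat.factorial t * t ≤ Nat.factorial t * t * m :=
        Nat.le_mul_of_pos_right _ (by omega)
      have g1 : GoodAt N t n := ih t htm ht0 (le_trans htt (le_trans hfac hR)) hF
      have g2 : GoodAt N t (m * n) := by
        refine ih t htm ht0 (le_refl (Nat.factorial t * t)) ?_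
        intro r hr1 hr2
        have h1 := hF (r * m) (Nat.mul_pos hr1 (by omega))
          (le_trans (le_trans (Nat.mul_le_mul_right m hr2) hfac) hR)
        rw [← Nat.mul_assoc]
        exact h1
      obtain ⟨b1, -⟩ := hF (m * t) (Nat.mul_pos (by omega) ht0) htR
      -- near
      have hnear : near N m (t * n) := by
        have hdiv := Nat.div_add_mod (t * n) N
        have hlt : (t * n) % N < N := Nat.mod_lt _ (by omega)
        -- strict inequality
        have hstrict : |(t : ℤ) * n - N * k| * m < N := by
          rcases lt_or_eq_of_le hk with h | h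
          · exact h
          · exfalso
            apply b1
            have h1 : (N : ℤ) ∣ (m : ℤ) * ((t : ℤ) * n - N * k) := by
              have h2 : |(m : ℤ) * ((t : ℤ) * n - N * k)| = N := by
                rw [abs_mul, Nat.abs_cast, mul_comm]
                exact h
              rw [← dvd_abs, h2]
            have h3 : (N : ℤ) ∣ (m : ℤ) * t * n := by
              have h4 : (m : ℤ) * t * n = (m : ℤ) * ((t : ℤ) * n - N * k) + N * (m * k) := by ring
              rw [h4]
              exact dvd_add h1 (dvd_mul_right _ _)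
            exact_mod_cast h3
        set s := (t * n) % N with hs
        set q := (t * n) / N with hq
        have hcast : (t : ℤ) * n = N * q + s := by
          have : t * n = N * q + s := hdiv.symm
          exact_mod_cast this
        rw [hcast] at hstrict
        have hm0 : (0 : ℤ) < m := by
          have : 0 < m := by omega
          exact_mod_cast this
        have hN0 : (0 : ℤ) < N := by
          have : 0 < N := by omega
          exact_mod_cast this
        have e1 : (N : ℤ) * q + s - N * k = s - N * (k - q) := by ring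
        rw [e1] at hstrict
        have hs1 : (s : ℤ) < N := by exact_mod_cast hlt
        have hs2 : (0 : ℤ) ≤ s := by positivity
        have hm2' : (2 : ℤ) ≤ m := by exact_mod_cast hm2
        rcases le_or_gt (k - q) 0 with hj | hj
        · left
          have h1 : (s : ℤ) ≤ |(s : ℤ) - N * (k - q)| := by
            have h2 : (N : ℤ) * (k - q) ≤ 0 := by nlinarith
            exact le_trans (by linarith) (le_abs_self _)
          have h3 : (s : ℤ) * m < N := lt_of_le_of_lt (mul_le_mul_of_nonneg_right h1 hm0.le) hstrict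
          exact_mod_cast h3
        · right
          have h1 : (N : ℤ) - s ≤ |(s : ℤ) - N * (k - q)| := by
            have h2 : (N : ℤ) ≤ N * (k - q) := by nlinarith
            have h3 : (N : ℤ) - s ≤ -((s : ℤ) - N * (k - q)) := by linarith
            exact le_trans h3 (neg_le_abs _)
          have h3 : ((N : ℤ) - s) * m < N :=
            lt_of_le_of_lt (mul_le_mul_of_nonneg_right h1 hm0.le) hstrict
          have h4 : ((N - s : ℕ) : ℤ) = (N : ℤ) - s := by
            push_cast [Nat.cast_sub hlt.le]
            ring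
          rw [← h4] at h3
          exact_mod_cast h3
      exact good_hit hκ hN (by omega) ht0 htR hF hnear g1 g2

end Pool.Agent.GLI
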