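import Pool.Agent.GLI.BadSum
import Pool.Agent.GLI.CSCount
import Pool.Agent.GLI.Ev

set_option autoImplicit false

/-!
Module StageTwo. Suppose `|W| + 1 ≤ σ N/(log N)^C0`, `σ = Sp χ N`, `M = lp N 12`. A split prime `p ≤ N` has `1/p ≤ σ`, so
`p ≥ (log N)^40`; in particular every `t ∈ Tset N`, `t ∤ N`, is inert (`χ t = -1`) and `M ≤ p` for `p ∈ Q` =
split primes in `(P/2, P]`. For `p ∈ Q`, `k < M` the `m` with `k N ≤ p m < (k+1) N` form an interval of length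
`≥ N/P - 1 ≥ N/(2P)`: dense + totient_lower: at least `2 τ`, `τ = N/(100 P log N)`, of them in the left set of
class_count. `D` = the pairs `(p, k)` with `τ ≤ #{z ∈ dis : p ∣ z + k N}`; for `(p, k) ∉ D` the two bad counts add up to
`≥ τ`; bad_one, bad_two: `|Dᶜ| τ ≤ |Q| (N/P)(σ (log N)^13 + (log N)^(-5))`, so `|D| ≥ |Q| M/2`. cs_count with
`|dis N χ| ≤ σ N` (dis_le), `N/P² ≥ (log N)^(-26)`: `τ² ≤ σ N (3N/(P |D|) + 5 (log N)^26 N/P²)`, i.e.
`10^(-4) (log N)^(-2) ≤ 3 σ P/|D| + 5 σ (log N)^26 ≤ 7 (log N)^(-2.9) + 5 (log N)^(-14)`. Contradiction.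
-/

open Finset Filter

namespace Pool.Agent.GLI

/-- A split prime is large. -/
theorem split_large {N : ℕ} (χ : DirichletCharacter ℂ N) (hL : 1 ≤ Real.log N)
    (hS : Sp χ N ≤ 1 / Real.log N ^ 40) (p : ℕ) (hp : p.Prime) (hpN : p ≤ N)
    (hχ : χ (p : ZMod N) = 1) : Real.log N ^ 40 ≤ p := by
  have hp0 : (0 : ℝ) < p := by exact_mod_cast hp.pos
  have h1 : (1 : ℝ) / p ≤ Sp χ N := by
    unfold Sp
    refine Finset.single_le_sum (f := fun p : ℕ => (1 : ℝ) / p) (fun q _ => by positivity) ?_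
    simp only [split, mem_filter, mem_Icc]
    exact ⟨⟨hp.one_lt.le, hpN⟩, hp, hχ⟩
  have h2 := h1.trans hS
  have h3 : (0 : ℝ) < Real.log N ^ 40 := by positivity
  rw [div_le_div_iff₀ hp0 h3] at h2
  linarith

/-- The interval of `m` with `k N ≤ p m < (k+1) N`. -/
theorem interval_card (N p k : ℕ) (hp : 1 ≤ p) :
    ∃ a H : ℕ, (N : ℝ) / p - 1 ≤ H ∧ ∀ m : ℕ, m ∈ Ico a (a + H) →
      k * N ≤ p * m ∧ p * m < (k + 1) * N := by
  refine ⟨(k * N + (p - 1)) / p, ((k + 1) * N + (p - 1)) / p - (k * N + (p - 1)) / p, ?_, ?_⟩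
  · have h1 : (k * N + (p - 1)) / p ≤ ((k + 1) * N + (p - 1)) / p := by
      apply Nat.div_le_div_right
      nlinarith
    rw [Nat.cast_sub h1]
    have hp0 : (0 : ℝ) < p := by exact_mod_cast hp
    have h2 : ((k : ℝ) + 1) * N / p ≤ (((k + 1) * N + (p - 1)) / p : ℕ) := by
      rw [div_le_iff₀ hp0]
      have h3 := Nat.div_add_mod ((k + 1) * N + (p - 1)) p
      have h4 := Nat.mod_lt ((k + 1) * N + (p - 1)) (show p > 0 by omega)
      have h5 : (k + 1) * N ≤ (((k + 1) * N + (p - 1)) / p) * p := by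
        rw [mul_comm ((((k + 1) * N + (p - 1)) / p))]
        omega
      exact_mod_cast h5
    have h6 : (((k * N + (p - 1)) / p : ℕ) : ℝ) ≤ (k : ℝ) * N / p + 1 := by
      have h7 : (k * N + (p - 1)) / p * p ≤ k * N + p := by
        have := Nat.div_mul_le_self (k * N + (p - 1)) p
        omega
      have h8 : (((k * N + (p - 1)) / p : ℕ) : ℝ) * p ≤ k * N + p := by exact_mod_cast h7
      rw [div_add_one hp0.ne', le_div_iff₀ hp0]
      exact h8
    have h9 : ((k : ℝ) + 1) * N / p = (k : ℝ) * N / p + N / p := by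
      field_simp
    linarith
  · intro m hm
    rw [mem_Ico] at hm
    have h1 : (k * N + (p - 1)) / p ≤ ((k + 1) * N + (p - 1)) / p := by
      apply Nat.div_le_div_right
      nlinarith
    have h2 : m < ((k + 1) * N + (p - 1)) / p := by omega
    constructor
    · have h3 : (k * N + (p - 1)) / p < m + 1 := by omega
      rw [Nat.div_lt_iff_lt_mul (by omega)] at h3
      have h4 : (m + 1) * p = p * m + p := by ring
      omega
    · have h3 : m + 1 ≤ ((k + 1) * N + (p - 1)) / p := h2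
      rw [Nat.le_div_iff_mul_le (by omega)] at h3
      have h4 : (m + 1) * p = p * m + p := by ring
      omega

open Classical in
/-- The set of pairs `(p, k)` with many elements of `dis` in the class of `-k N` modulo `p`. -/
noncomputable def pairs (N : ℕ) (χ : DirichletCharacter ℂ N) (Q : Finset ℕ) (τ : ℝ) :
    Finset (ℕ × ℕ) :=
  (Q ×ˢ range (lp N 12)).filter fun w =>
    τ ≤ (((dis N χ).filter fun z => w.1 ∣ z + w.2 * N).card : ℝ)

open Classical in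
/-- Most pairs are good. -/
theorem pairs_large {N : ℕ} (χ : DirichletCharacter ℂ N) (Q : Finset ℕ) (τ σ X : ℝ)
    (b1 b2 : ℕ → ℕ → ℝ) (hb1 : ∀ p k, 0 ≤ b1 p k) (hb2 : ∀ p k, 0 ≤ b2 p k)
    (h : ∀ p ∈ Q, ∀ k < lp N 12,
      2 * τ ≤ (((dis N χ).filter fun z => p ∣ z + k * N).card : ℝ) + b1 p k + b2 p k)
    (h1 : ∀ p ∈ Q, ∑ k ∈ range (lp N 12), b1 p k ≤ σ)
    (h2 : ∑ p ∈ Q, ∑ k ∈ range (lp N 12), b2 p k ≤ X) :
    ((Q.card : ℝ) * lp N 12 - (pairs N χ Q τ).card) * τ ≤ Q.card * σ + X := by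
  set A := (Q ×ˢ range (lp N 12)) with hA
  set B := A.filter (fun w => ¬ τ ≤ (((dis N χ).filter fun z => w.1 ∣ z + w.2 * N).card : ℝ))
    with hB
  have hcard : (pairs N χ Q τ).card + B.card = A.card :=
    Finset.card_filter_add_card_filter_not _
  have hAc : A.card = Q.card * lp N 12 := by
    rw [hA, Finset.card_product, Finset.card_range]
  have h3 : ((Q.card : ℝ) * lp N 12 - (pairs N χ Q τ).card) = B.card := by
    have : ((pairs N χ Q τ).card : ℝ) + B.card = (Q.card : ℝ) * lp N 12 := by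
      exact_mod_cast hcard.trans hAc
    linarith
  rw [h3]
  have h4 : (B.card : ℝ) * τ ≤ ∑ w ∈ B, (b1 w.1 w.2 + b2 w.1 w.2) := by
    rw [← nsmul_eq_mul]
    apply Finset.card_nsmul_le_sum
    intro w hw
    rw [hB, mem_filter, hA, mem_product, mem_range, not_le] at hw
    have h5 := h w.1 hw.1.1 w.2 hw.1.2
    linarith [hw.2]
  have h5 : ∑ w ∈ B, (b1 w.1 w.2 + b2 w.1 w.2) ≤ ∑ w ∈ A, (b1 w.1 w.2 + b2 w.1 w.2) := by
    apply Finset.sum_le_sum_of_subset_of_nonneg (Finset.filter_subset _ _)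
    intro w _ _
    exact add_nonneg (hb1 _ _) (hb2 _ _)
  have h6 : ∑ w ∈ A, (b1 w.1 w.2 + b2 w.1 w.2) =
      ∑ p ∈ Q, ∑ k ∈ range (lp N 12), b1 p k + ∑ p ∈ Q, ∑ k ∈ range (lp N 12), b2 p k := by
    rw [hA, Finset.sum_product, ← Finset.sum_add_distrib]
    refine Finset.sum_congr rfl fun p _ => ?_
    rw [← Finset.sum_add_distrib]
  have h7 : ∑ p ∈ Q, ∑ k ∈ range (lp N 12), b1 p k ≤ Q.card * σ := by
    rw [← nsmul_eq_mul]
    exact Finset.sum_le_card_nsmul _ _ _ h1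
  linarith

/-- The numerical end of the argument. -/
theorem numerics (N P L σ q d τ z l : ℝ) (hN : 0 < N) (hP : 0 < P) (hL : 200000 ≤ L)
    (hσ : 0 < σ) (hσL : σ ≤ 1 / L ^ 40) (hq : 0 < q) (hqσ : σ * P / L ^ 9 ≤ q)
    (hPN : P ≤ Real.sqrt N * L ^ 13) (hNP : 4 ≤ N / P)
    (hτ : τ = N / (100 * P * L)) (hl : L ^ 12 < l + 1)
    (hz : z ≤ N * σ)
    (hD : (q * l - d) * τ ≤ q * (σ * L ^ 13 * (N / P)) + q * (N / P) / L ^ 5)
    (hcs : (d * τ) ^ 2 ≤ z * (d * (2 * N / P + 1) + d ^ 2 * (4 * N / P ^ 2 + 1))) : False := by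
  have hL0 : 0 < L := by linarith
  have hL1 : 1 ≤ L := by linarith
  have hτ0 : 0 < τ := by rw [hτ]; positivity
  have h1 : q * (σ * L ^ 13 * (N / P)) + q * (N / P) / L ^ 5 ≤ q * τ := by
    have h2 : σ * L ^ 13 ≤ 1 / L ^ 5 := by
      rw [le_div_iff₀ (by positivity)]
      rw [le_div_iff₀ (by positivity)] at hσL
      have h3 : L ^ 18 ≤ L ^ 40 := pow_le_pow_right₀ hL1 (by norm_num)
      calc σ * L ^ 13 * L ^ 5 = σ * L ^ 18 := by ring
        _ ≤ σ * L ^ 40 := mul_le_mul_of_nonneg_left h3 hσ.le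
        _ ≤ 1 := hσL
    have h3 : 2 / L ^ 5 ≤ 1 / (100 * L) := by
      rw [div_le_div_iff₀ (by positivity) (by positivity)]
      have h4 : L ^ 5 = L * (L * L ^ 3) := by ring
      have h5 : 1 ≤ L ^ 3 := one_le_pow₀ hL1
      have h6 : L ≤ L * L ^ 3 := le_mul_of_one_le_right hL0.le h5
      nlinarith
    have h4 : τ = (N / P) * (1 / (100 * L)) := by
      rw [hτ]
      field_simp
    have h5 : 0 < N / P := by positivity
    have h6 : σ * L ^ 13 * (N / P) ≤ 1 / L ^ 5 * (N / P) := mul_le_mul_of_nonneg_right h2 h5.le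
    have h7 : q * (σ * L ^ 13 * (N / P)) ≤ q * (1 / L ^ 5 * (N / P)) :=
      mul_le_mul_of_nonneg_left h6 hq.le
    have h8 : q * (1 / L ^ 5 * (N / P)) + q * (N / P) / L ^ 5 = q * ((N / P) * (2 / L ^ 5)) := by
      field_simp
      ring
    have h9 : (N / P) * (2 / L ^ 5) ≤ τ := by
      rw [h4]
      exact mul_le_mul_of_nonneg_left h3 h5.le
    have h10 : q * ((N / P) * (2 / L ^ 5)) ≤ q * τ := mul_le_mul_of_nonneg_left h9 hq.le
    linarith
  have h2 : q * l - d ≤ q := by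
    by_contra h3
    push Not at h3
    have h4 := mul_lt_mul_of_pos_right h3 hτ0
    linarith
  have hL12 : 4 ≤ L ^ 12 := by
    have h3 : L ≤ L ^ 12 := le_self_pow₀ hL1 (by norm_num)
    linarith
  have hd : q * L ^ 12 / 2 ≤ d := by
    have h5 : L ^ 12 / 2 ≤ l - 1 := by linarith
    have h6 : q * (L ^ 12 / 2) ≤ q * (l - 1) := mul_le_mul_of_nonneg_left h5 hq.le
    linarith
  have hd0 : 0 < d := lt_of_lt_of_le (by positivity) hd
  -- `σ P L^3/2 ≤ d`
  have hd2 : σ * P * L ^ 3 / 2 ≤ d := by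
    refine le_trans ?_ hd
    have h5 : σ * P / L ^ 9 * L ^ 12 = σ * P * L ^ 3 := by
      field_simp
    have h6 : σ * P / L ^ 9 * L ^ 12 ≤ q * L ^ 12 :=
      mul_le_mul_of_nonneg_right hqσ (by positivity)
    linarith
  have hP2 : P ^ 2 ≤ N * L ^ 26 := by
    have h5 : P ^ 2 ≤ (Real.sqrt N * L ^ 13) ^ 2 := pow_le_pow_left₀ hP.le hPN 2
    have h6 : (Real.sqrt N * L ^ 13) ^ 2 = N * L ^ 26 := by
      rw [mul_pow, Real.sq_sqrt hN.le]
      ring
    linarith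
  have h4P : P * 4 ≤ N := by
    rw [le_div_iff₀ hP] at hNP
    linarith
  -- both parentheses
  have hA : 2 * N / P + 1 ≤ 3 * N / P := by
    rw [div_add_one hP.ne', div_le_div_iff_of_pos_right hP]
    linarith
  have hB : 4 * N / P ^ 2 + 1 ≤ 5 * L ^ 26 * N / P ^ 2 := by
    rw [div_add_one (by positivity), div_le_div_iff_of_pos_right (by positivity)]
    have h5 : 1 ≤ L ^ 26 := one_le_pow₀ hL1
    nlinarith
  have hkey : (d * τ) ^ 2 ≤ N * σ * (d * (3 * N / P) + d ^ 2 * (5 * L ^ 26 * N / P ^ 2)) := by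
    have h5 : d * (2 * N / P + 1) + d ^ 2 * (4 * N / P ^ 2 + 1) ≤
        d * (3 * N / P) + d ^ 2 * (5 * L ^ 26 * N / P ^ 2) :=
      add_le_add (mul_le_mul_of_nonneg_left hA hd0.le)
        (mul_le_mul_of_nonneg_left hB (by positivity))
    calc (d * τ) ^ 2 ≤ z * (d * (2 * N / P + 1) + d ^ 2 * (4 * N / P ^ 2 + 1)) := hcs
      _ ≤ N * σ * (d * (2 * N / P + 1) + d ^ 2 * (4 * N / P ^ 2 + 1)) :=
          mul_le_mul_of_nonneg_right hz (by positivity)
      _ ≤ _ := mul_le_mul_of_nonneg_left h5 (by positivity)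
  -- divide by `d² N²/P²`
  have hk2 : 1 / (10000 * L ^ 2) ≤ 3 * (σ * P) / d + 5 * σ * L ^ 26 := by
    have h5 : (d * τ) ^ 2 = (d ^ 2 * N ^ 2 / P ^ 2) * (1 / (10000 * L ^ 2)) := by
      rw [hτ]
      field_simp
      ring
    have h6 : N * σ * (d * (3 * N / P) + d ^ 2 * (5 * L ^ 26 * N / P ^ 2)) =
        (d ^ 2 * N ^ 2 / P ^ 2) * (3 * (σ * P) / d + 5 * σ * L ^ 26) := by
      field_simp
    rw [h5, h6] at hkey
    exact le_of_mul_le_mul_left hkey (by positivity)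
  have hk3 : 3 * (σ * P) / d ≤ 6 / L ^ 3 := by
    rw [div_le_div_iff₀ hd0 (by positivity)]
    linarith
  have hk4 : 5 * σ * L ^ 26 ≤ 5 / L ^ 3 := by
    rw [le_div_iff₀ (by positivity)] at hσL ⊢
    have h5 : L ^ 29 ≤ L ^ 40 := pow_le_pow_right₀ hL1 (by norm_num)
    have h6 : 5 * σ * L ^ 26 * L ^ 3 = 5 * (σ * L ^ 29) := by ring
    have h7 : σ * L ^ 29 ≤ σ * L ^ 40 := mul_le_mul_of_nonneg_left h5 hσ.le
    linarith
  have hk7 : 11 / L ^ 3 < 1 / (10000 * L ^ 2) := by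
    rw [div_lt_div_iff₀ (by positivity) (by positivity)]
    have h6 : L ^ 3 = L * L ^ 2 := by ring
    have h7 : 0 < L ^ 2 := by positivity
    rw [h6]
    nlinarith
  have hk8 : 6 / L ^ 3 + 5 / L ^ 3 = 11 / L ^ 3 := by ring
  linarith

/-- `N/P` is large. -/
theorem NP_large (N P L : ℝ) (hN : 0 < N) (hP : 0 < P) (hPN : P ≤ Real.sqrt N * L ^ 13)
    (hN4 : 4 * N ^ (1 / 4 : ℝ) * L ^ 13 ≤ Real.sqrt N) : 4 * N ^ (1 / 4 : ℝ) ≤ N / P := by
  rw [le_div_iff₀ hP]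
  have h1 : Real.sqrt N * Real.sqrt N = N := Real.mul_self_sqrt hN.le
  have h2 : 4 * N ^ (1 / 4 : ℝ) * P ≤ 4 * N ^ (1 / 4 : ℝ) * (Real.sqrt N * L ^ 13) :=
    mul_le_mul_of_nonneg_left hPN (by positivity)
  have h3 : 4 * N ^ (1 / 4 : ℝ) * (Real.sqrt N * L ^ 13) =
      (4 * N ^ (1 / 4 : ℝ) * L ^ 13) * Real.sqrt N := by ring
  have h4 : (4 * N ^ (1 / 4 : ℝ) * L ^ 13) * Real.sqrt N ≤ Real.sqrt N * Real.sqrt N :=
    mul_le_mul_of_nonneg_right hN4 (Real.sqrt_nonneg _)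
  linarith

/-- Facts about the split primes in the window. -/
theorem window_facts {N : ℕ} (χ : DirichletCharacter ℂ N) (hr : RealChar χ)
    (hL1 : 1 < Real.log N) (hS : Sp χ N ≤ 1 / Real.log N ^ 40) (hN24 : Real.log N ^ 24 ≤ N) :
    (∀ p : ℕ, p.Prime → p ≤ N → χ (p : ZMod N) = 1 → lp N 12 ≤ p ∧ ¬ p ∣ N) ∧
    ∀ t ∈ Tset N, ¬ t ∣ N → χ (t : ZMod N) = -1 := by
  constructor
  · intro p h1 h4 h2
    constructor
    · have h5 := split_large χ hL1.le hS p h1 h4 h2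
      have h6 : (lp N 12 : ℝ) ≤ p := by
        refine (lp_le N 12 (by linarith)).trans (le_trans ?_ h5)
        exact pow_le_pow_right₀ hL1.le (by norm_num)
      exact_mod_cast h6
    · intro h0
      have h3 : ¬ IsUnit (p : ZMod N) := by
        rw [ZMod.isUnit_iff_coprime]
        intro h4
        exact (Nat.Prime.coprime_iff_not_dvd h1).1 h4 h0
      rw [MulChar.map_nonunit χ h3] at h2
      norm_num at h2
  · intro t ht htN
    rw [Tset, mem_filter, mem_Ioc] at ht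
    rcases hr (t : ZMod N) with h1 | h1 | h1
    · exfalso
      have h2 : IsUnit (t : ZMod N) := by
        rw [ZMod.isUnit_iff_coprime]
        exact (Nat.Prime.coprime_iff_not_dvd ht.2).2 htN
      exact (h2.map χ).ne_zero h1
    · exfalso
      have h2 : (t : ℝ) ≤ Real.log N ^ 24 := by
        have : (t : ℝ) ≤ (lp N 24 : ℝ) := by exact_mod_cast ht.1.2
        exact this.trans (lp_le N 24 (by linarith))
      have h3 : t ≤ N := by
        have : (t : ℝ) ≤ N := h2.trans hN24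
        exact_mod_cast this
      have h4 := split_large χ hL1.le hS t ht.2 h3 h1
      have h5 : Real.log N ^ 24 < Real.log N ^ 40 := pow_lt_pow_right₀ hL1 (by norm_num)
      linarith
    · exact h1

open Classical in
/-- The left side of class_count is large. -/
theorem left_large (N : ℕ) (hN2 : 2 ≤ N) (hL0 : 0 < Real.log N) (P p k : ℕ) (hP2 : 2 ≤ P)
    (hp : p.Prime) (hpP : p ≤ P)
    (hdense : ∀ a H : ℕ, (N : ℝ) ^ (1 / 4 : ℝ) ≤ H → (H : ℝ) * (N.totient / N) / 20 ≤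
      ((Ico a (a + H)).filter fun m => m.Coprime N ∧ ∃ t ∈ Tset N, t ∣ m).card)
    (htot : (N : ℝ) ≤ N.totient * Real.log N) (hNP : 4 * (N : ℝ) ^ (1 / 4 : ℝ) ≤ N / P)
    (hN14 : (1 : ℝ) ≤ (N : ℝ) ^ (1 / 4 : ℝ)) :
    2 * ((N : ℝ) / (100 * P * Real.log N)) ≤
      (((range ((k + 1) * N)).filter fun m => k * N ≤ p * m ∧ p * m < (k + 1) * N ∧
          m.Coprime N ∧ ∃ t ∈ Tset N, t ∣ m).card : ℝ) := by
  obtain ⟨a, H, hH, hint⟩ := interval_card N p k hp.one_lt.le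
  have hN0 : (0 : ℝ) < N := by
    have : 0 < N := by omega
    exact_mod_cast this
  have hP0 : (0 : ℝ) < P := by
    have : 0 < P := by omega
    exact_mod_cast this
  have hp0 : (0 : ℝ) < p := by exact_mod_cast hp.pos
  have hpP : (p : ℝ) ≤ P := by exact_mod_cast hpP
  have hHN : (N : ℝ) / P - 1 ≤ H := by
    have : (N : ℝ) / P ≤ N / p := div_le_div_of_nonneg_left hN0.le hp0 hpP
    linarith
  have hH2 : (N : ℝ) / P / 2 ≤ H := by linarith
  have hH4 : (N : ℝ) ^ (1 / 4 : ℝ) ≤ H := by linarith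
  have hd := hdense a H hH4
  have hsub : ((Ico a (a + H)).filter fun m => m.Coprime N ∧ ∃ t ∈ Tset N, t ∣ m) ⊆
      ((range ((k + 1) * N)).filter fun m => k * N ≤ p * m ∧ p * m < (k + 1) * N ∧
        m.Coprime N ∧ ∃ t ∈ Tset N, t ∣ m) := by
    intro m hm
    rw [mem_filter] at hm
    obtain ⟨h5, h6⟩ := hint m hm.1
    rw [mem_filter, mem_range]
    refine ⟨?_, h5, h6, hm.2⟩
    have h7 : m ≤ p * m := Nat.le_mul_of_pos_left m hp.pos
    omega
  have h5 : ((((Ico a (a + H)).filter fun m => m.Coprime N ∧ ∃ t ∈ Tset N, t ∣ m).card : ℕ) : ℝ) ≤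
      (((range ((k + 1) * N)).filter fun m => k * N ≤ p * m ∧ p * m < (k + 1) * N ∧
        m.Coprime N ∧ ∃ t ∈ Tset N, t ∣ m).card : ℝ) := Nat.cast_le.2 (Finset.card_le_card hsub)
  refine le_trans (le_trans ?_ hd) h5
  have h6 : (1 : ℝ) / Real.log N ≤ N.totient / N := by
    rw [div_le_div_iff₀ hL0 hN0, one_mul]
    exact htot
  have h8 : (N : ℝ) / P / 2 * (1 / Real.log N) ≤ H * (N.totient / N) :=
    mul_le_mul hH2 h6 (by positivity) (by positivity)
  have h9 : 2 * ((N : ℝ) / (100 * P * Real.log N)) * 20 ≤ (N : ℝ) / P / 2 * (1 / Real.log N) := by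
    have : 2 * ((N : ℝ) / (100 * P * Real.log N)) * 20 =
        (N : ℝ) / P / 2 * (1 / Real.log N) * (4 / 5) := by
      field_simp
      ring
    rw [this]
    have : (0 : ℝ) ≤ (N : ℝ) / P / 2 * (1 / Real.log N) := by positivity
    linarith
  linarith

open Classical in
/-- First bad count. -/
noncomputable def bOne (N : ℕ) (χ : DirichletCharacter ℂ N) (p k : ℕ) : ℝ :=
  (((Tset N ×ˢ dis N χ).filter fun w => k * N ≤ w.1 * p * w.2 ∧
      w.1 * p * w.2 < (k + 1) * N).card : ℝ)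

open Classical in
/-- Second bad count. -/
noncomputable def bTwo (N p k : ℕ) : ℝ :=
  (((Tset N ×ˢ range N).filter fun w => 1 ≤ w.2 ∧ p * w.2 < N ∧ k * N ≤ w.1 * p * w.2 ∧
      w.1 * p * w.2 < (k + 1) * N ∧
      ¬ ∀ m : ℕ, 1 ≤ m → m ≤ lp N 24 → GoodAt N m (p * w.2)).card : ℝ)

theorem class_count' (N : ℕ) (hN : 2 ≤ N) (χ : DirichletCharacter ℂ N) (h : RealChar χ)
    (hT : ∀ t ∈ Tset N, ¬ t ∣ N → χ (t : ZMod N) = -1) (p k : ℕ) (hp : p.Prime)
    (hχ : χ (p : ZMod N) = 1) (hk : k < lp N 12) (x : ℝ)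
    (hx : x ≤ (((range ((k + 1) * N)).filter fun m => k * N ≤ p * m ∧ p * m < (k + 1) * N ∧
          m.Coprime N ∧ ∃ t ∈ Tset N, t ∣ m).card : ℝ)) :
    x ≤ (((dis N χ).filter fun z => p ∣ z + k * N).card : ℝ) + bOne N χ p k + bTwo N p k := by
  classical
  have h1 := class_count N hN χ h hT p k hp hχ hk
  have h2 := hx.trans (Nat.cast_le (α := ℝ).2 (by convert h1))
  push_cast at h2
  unfold bOne bTwo
  convert h2

open Classical in
theorem stage_two : ∃ C0 : ℕ, ∀ᶠ N : ℕ in atTop, ∀ κ : ℤ, κ = 1 ∨ κ = -1 →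
    ∀ χ : DirichletCharacter ℂ N, RealChar χ → Sp χ N ≤ 1 / Real.log N ^ 40 → 0 < Sp χ N →
    ∀ P : ℕ, 2 ≤ P → (P : ℝ) ≤ Real.sqrt N * Real.log N ^ 13 →
    Sp χ N * P / Real.log N ^ 9 ≤ ((split χ P).filter fun p => P < 2 * p).card →
    Sp χ N * N / Real.log N ^ C0 < ((W κ N).card : ℝ) + 1 := by
  obtain ⟨C0, hbad2⟩ := bad_two
  refine ⟨C0, ?_⟩
  filter_upwards [hbad2, bad_one, dense, totient_lower, ev_log 200000, eventually_ge_atTop 2,
    ev_pow 0 1 (by norm_num) 24 1, ev_pow (1 / 2) 1 (by norm_num) 13 1,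
    ev_pow (1 / 4) (1 / 2) (by norm_num) 13 4] with N hbad2 hbad1 hdense htot hlog hN2 hN24 hN13
      hN4 κ hκ χ hr hS hS0 P hP2 hP hsP
  by_contra hcon
  rw [not_lt] at hcon
  have hL1 : 1 < Real.log N := by linarith
  have hL0 : 0 < Real.log N := by linarith
  have hN0 : (0 : ℝ) < N := by
    have : 0 < N := by omega
    exact_mod_cast this
  have hP0 : (0 : ℝ) < P := by
    have : 0 < P := by omega
    exact_mod_cast this
  rw [Real.rpow_zero, mul_one, one_mul, Real.rpow_one] at hN24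
  rw [one_mul, Real.rpow_one, ← Real.sqrt_eq_rpow] at hN13
  rw [← Real.sqrt_eq_rpow] at hN4
  have hPN : P ≤ N := by
    have : (P : ℝ) ≤ N := hP.trans hN13
    exact_mod_cast this
  have hN14 : (1 : ℝ) ≤ (N : ℝ) ^ (1 / 4 : ℝ) :=
    Real.one_le_rpow (by exact_mod_cast (by omega : 1 ≤ N)) (by norm_num)
  have hNP := NP_large N P (Real.log N) hN0 hP0 hP hN4
  obtain ⟨hw1, hT⟩ := window_facts χ hr hL1 hS hN24
  obtain ⟨Q, hQ⟩ : ∃ Q : Finset ℕ, Q = (split χ P).filter (fun p => P < 2 * p) := ⟨_, rfl⟩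
  rw [← hQ] at hsP
  have hQm : ∀ p ∈ Q, p.Prime ∧ χ (p : ZMod N) = 1 ∧ P < 2 * p ∧ p ≤ P := by
    intro p hp
    rw [hQ, mem_filter, split, mem_filter, mem_Icc] at hp
    exact ⟨hp.1.2.1, hp.1.2.2, hp.2, hp.1.1.2⟩
  obtain ⟨τ, hτ⟩ : ∃ τ : ℝ, τ = N / (100 * P * Real.log N) := ⟨_, rfl⟩
  have hτ0 : 0 < τ := by
    rw [hτ]
    positivity
  have hmain : ∀ p ∈ Q, ∀ k < lp N 12,
      2 * τ ≤ (((dis N χ).filter fun z => p ∣ z + k * N).card : ℝ) + bOne N χ p k +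
        bTwo N p k := by
    intro p hp k hk
    obtain ⟨h1, h2, h3, h4⟩ := hQm p hp
    apply class_count' N hN2 χ hr hT p k h1 h2 hk
    rw [hτ]
    exact left_large N hN2 hL0 P p k hP2 h1 h4 hdense htot hNP hN14
  have hb1 : ∀ p ∈ Q, ∑ k ∈ range (lp N 12), bOne N χ p k ≤
      Sp χ N * Real.log N ^ 13 * (N / P) := by
    intro p hp
    obtain ⟨h1, h2, h3, h4⟩ := hQm p hp
    exact hbad1 χ hr P hP2 hP p h1 h3 h4 (hw1 p h1 (h4.trans hPN) h2).1
  have hb2 : ∑ p ∈ Q, ∑ k ∈ range (lp N 12), bTwo N p k ≤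
      Q.card * ((N : ℝ) / P) / Real.log N ^ 5 :=
    hbad2 κ hκ χ P hP2 hP Q (fun p hp => ⟨(hQm p hp).1, (hQm p hp).2.2⟩) hsP hcon
  have hD := pairs_large χ Q τ (Sp χ N * Real.log N ^ 13 * (N / P))
    (Q.card * ((N : ℝ) / P) / Real.log N ^ 5) (bOne N χ) (bTwo N)
    (fun _ _ => Nat.cast_nonneg _) (fun _ _ => Nat.cast_nonneg _) hmain hb1 hb2
  have hQ0 : (0 : ℝ) < Q.card := by
    refine lt_of_lt_of_le ?_ hsP
    positivity
  have hcs := cs_count N P (lp N 12) (by omega) (dis N χ) (Finset.filter_subset _ _)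
    (pairs N χ Q τ) (by
    intro w hw
    rw [pairs, mem_filter, mem_product, mem_range] at hw
    obtain ⟨h1, h2, h3, h4⟩ := hQm w.1 hw.1.1
    obtain ⟨h5, h6⟩ := hw1 w.1 h1 (h4.trans hPN) h2
    exact ⟨h1, h6, h3, h4, h5, hw.1.2⟩) τ hτ0.le (by
    intro w hw
    rw [pairs, mem_filter] at hw
    exact hw.2)
  have hZ : ((dis N χ).card : ℝ) ≤ N * Sp χ N := by
    have h1 := dis_le N χ hr N le_rfl
    have h2 : (dis N χ).filter (· < N) = dis N χ := by
      apply Finset.filter_true_of_mem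
      intro a ha
      rw [dis, mem_filter, mem_range] at ha
      exact ha.1
    rw [h2] at h1
    exact h1
  exact numerics N P (Real.log N) (Sp χ N) Q.card (pairs N χ Q τ).card τ (dis N χ).card (lp N 12)
    hN0 hP0 hlog hS0 hS hQ0 hsP hP (by linarith) hτ (lt_lp N 12) hZ hD hcs

end Pool.Agent.GLI
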