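import Pool.Agent.GLI.CmpA
import Pool.Agent.GLI.CmpB

set_option autoImplicit false

/-!
Module WinEx: cmp_a / cmp_b and pigeon: `P ≤ 2 y ≤ √N (log N)^13`, number of split primes in `(P/2, P]`
`≥ Sp χ y P/(2 (log_2 N + 1)) ≥ Sp χ N P/(log N)^8`.
-/

open Finset Filter

namespace Pool.Agent.GLI

theorem Sp_mono_aux {N : ℕ} (χ : DirichletCharacter ℂ N) {x y : ℕ} (h : x ≤ y) : Sp χ x ≤ Sp χ y := by
  unfold Sp
  apply sum_le_sum_of_subset_of_nonneg
  · intro p hp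
    simp only [split, mem_filter, mem_Icc] at hp ⊢
    exact ⟨⟨hp.1.1, hp.1.2.trans h⟩, hp.2⟩
  · intros
    positivity

open Classical in
theorem win_ex (ε : ℝ) (hε : 0 < ε) : ∀ᶠ N : ℕ in atTop, ∀ _ : NeZero N,
    ∀ χ : DirichletCharacter ℂ N, RealChar χ → χ ≠ 1 →
    (N : ℝ) ^ (-ε) ≤ Sp χ N ∧ ∃ P : ℕ, 2 ≤ P ∧ (P : ℝ) ≤ Real.sqrt N * Real.log N ^ 13 ∧
      Sp χ N * P / Real.log N ^ 9 ≤ ((split χ P).filter fun p => P < 2 * p).card := by
  have hpow := ev_pow (1 / 2) 1 (by norm_num) 12 1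
  filter_upwards [cmp_a ε hε, cmp_b ε hε, hpow, ev_log 4, eventually_ge_atTop 2] with
    N hA hB hN hl hN2 hNZ χ hχ hχ1
  have hN0 : (0 : ℝ) < N := by
    have : 0 < N := by omega
    exact_mod_cast this
  obtain ⟨y, hy1, hy2, hy3, hy4⟩ : ∃ y : ℕ, 1 ≤ y ∧ (y : ℝ) ≤ Real.sqrt N * Real.log N ^ 12 ∧
      (N : ℝ) ^ (-ε) ≤ Sp χ y ∧ Sp χ N ≤ Real.log N ^ 6 * Sp χ y := by
    by_cases hc : (χ.conductor : ℝ) ≤ (N : ℝ) ^ (9 / 10 : ℝ)
    · exact hA hNZ χ hχ hχ1 hc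
    · exact hB hNZ χ hχ hχ1 (not_le.1 hc)
  have hyN : y ≤ N := by
    have h1 : (y : ℝ) ≤ N := by
      refine hy2.trans ?_
      rw [Real.sqrt_eq_rpow]
      rw [one_mul, Real.rpow_one] at hN
      exact hN
    exact_mod_cast h1
  refine ⟨hy3.trans (Sp_mono_aux χ hyN), ?_⟩
  obtain ⟨P, hP1, hP2, hP3⟩ := pigeon N hN2 χ y hy1 hyN
  have hl0 : (0 : ℝ) < Real.log N := by linarith
  have hP2' : (P : ℝ) ≤ 2 * y := by exact_mod_cast hP2
  refine ⟨P, hP1, ?_, le_trans ?_ hP3⟩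
  · have h0 : 0 ≤ Real.sqrt N * Real.log N ^ 12 := by positivity
    calc (P : ℝ) ≤ 2 * y := hP2'
      _ ≤ 2 * (Real.sqrt N * Real.log N ^ 12) := by linarith
      _ ≤ Real.log N * (Real.sqrt N * Real.log N ^ 12) :=
          mul_le_mul_of_nonneg_right (by linarith) h0
      _ = _ := by ring
  · have hlog : (2 : ℝ) * (Nat.log 2 N + 1) ≤ Real.log N ^ 3 := by
      have h1 : (Nat.log 2 N : ℝ) * Real.log 2 ≤ Real.log N := by
        have h2 : 2 ^ Nat.log 2 N ≤ N := Nat.pow_log_le_self 2 (by omega)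
        have h3 : (2 : ℝ) ^ Nat.log 2 N ≤ N := by exact_mod_cast h2
        have h4 := Real.log_le_log (by positivity) h3
        rwa [Real.log_pow] at h4
      have h2 := Real.log_two_gt_d9
      have h3 : (0 : ℝ) ≤ Nat.log 2 N := by positivity
      have h4 : (Nat.log 2 N : ℝ) ≤ 2 * Real.log N := by nlinarith
      have h5 : (16 : ℝ) * Real.log N ≤ Real.log N ^ 3 := by nlinarith [mul_pos hl0 hl0]
      linarith
    have hSy : 0 ≤ Sp χ y := by
      unfold Sp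
      apply sum_nonneg
      intros
      positivity
    have hP0 : (0 : ℝ) ≤ P := by positivity
    calc Sp χ N * P / Real.log N ^ 9 ≤ (Real.log N ^ 6 * Sp χ y) * P / Real.log N ^ 9 := by
          rw [div_le_div_iff_of_pos_right (by positivity)]
          exact mul_le_mul_of_nonneg_right hy4 hP0
      _ = Sp χ y * P / Real.log N ^ 3 := by
          field_simp
      _ ≤ Sp χ y * P / (2 * (Nat.log 2 N + 1)) := by
          apply div_le_div_of_nonneg_left (by positivity) (by positivity) hlog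

end Pool.Agent.GLI
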