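import Pool.Agent.GLI.StageOne
import Pool.Agent.GLI.StageTwo
import Pool.Agent.GLI.WinEx
import Pool.Agent.GLI.Balance
import Pool.Agent.GLI.Ev

set_option autoImplicit false

/-!
Assembly: each of the four sign patterns `(lam a, lam (N - a))` occurs at least `N^(1-ε)` times.
-/

open Finset Filter

namespace Pool.Agent.GLI

/-- Number of `a` in `(0, N)` with `lam a = e`, `lam (N - a) = f`. -/
def cnt (N : ℕ) (e f : ℤ) : ℕ := ((Ioo 0 N).filter fun a => lam a = e ∧ lam (N - a) = f).card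

theorem cnt_symm (N : ℕ) (e f : ℤ) : cnt N e f = cnt N f e := by
  unfold cnt
  refine Finset.card_bij (fun a _ => N - a) ?_ ?_ ?_
  · intro a ha
    simp only [mem_filter, mem_Ioo] at ha ⊢
    have : N - (N - a) = a := by omega
    rw [this]
    exact ⟨⟨by omega, by omega⟩, ha.2.2, ha.2.1⟩
  · intro a ha b hb hab
    simp only [mem_filter, mem_Ioo] at ha hb
    have hab' : N - a = N - b := hab
    omega
  · intro b hb
    simp only [mem_filter, mem_Ioo] at hb
    refine ⟨N - b, ?_, ?_⟩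
    · simp only [mem_filter, mem_Ioo]
      have : N - (N - b) = b := by omega
      rw [this]
      exact ⟨⟨by omega, by omega⟩, hb.2.2, hb.2.1⟩
    · show N - (N - b) = b
      omega

theorem W_neg (N : ℕ) : (W (-1) N).card = cnt N 1 1 + cnt N (-1) (-1) := by
  unfold W cnt
  rw [← Finset.card_union_of_disjoint]
  · congr 1
    ext a
    simp only [mem_filter, mem_union, mem_Ioo]
    rcases lam_cases a with h1 | h1 <;> rcases lam_cases (N - a) with h2 | h2 <;>
      rw [h1, h2] <;> norm_num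
  · rw [Finset.disjoint_left]
    intro a ha hb
    simp only [mem_filter] at ha hb
    rw [ha.2.1] at hb
    norm_num at hb

theorem W_pos (N : ℕ) : (W 1 N).card = 2 * cnt N 1 (-1) := by
  have h : (W 1 N).card = cnt N 1 (-1) + cnt N (-1) 1 := by
    unfold W cnt
    rw [← Finset.card_union_of_disjoint]
    · congr 1
      ext a
      simp only [mem_filter, mem_union, mem_Ioo]
      rcases lam_cases a with h1 | h1 <;> rcases lam_cases (N - a) with h2 | h2 <;>
        rw [h1, h2] <;> norm_num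
    · rw [Finset.disjoint_left]
      intro a ha hb
      simp only [mem_filter] at ha hb
      rw [ha.2.1] at hb
      norm_num at hb
  rw [h, cnt_symm N (-1) 1]
  ring

theorem sum_lam (N : ℕ) :
    (∑ a ∈ Ioo 0 N, (lam a : ℝ)) = (cnt N 1 1 : ℝ) - cnt N (-1) (-1) := by
  have h1 : ∑ a ∈ Ioo 0 N, (lam a : ℝ) =
      ∑ a ∈ Ioo 0 N, (((if lam a = 1 ∧ lam (N - a) = 1 then (1 : ℝ) else 0) +
        (if lam a = 1 ∧ lam (N - a) = -1 then (1 : ℝ) else 0)) -
        ((if lam a = -1 ∧ lam (N - a) = 1 then (1 : ℝ) else 0) +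
        (if lam a = -1 ∧ lam (N - a) = -1 then (1 : ℝ) else 0))) := by
    refine Finset.sum_congr rfl fun a _ => ?_
    rcases lam_cases a with h1 | h1 <;> rcases lam_cases (N - a) with h2 | h2 <;>
      rw [h1, h2] <;> norm_num
  rw [h1, Finset.sum_sub_distrib, Finset.sum_add_distrib, Finset.sum_add_distrib]
  have h2 : ∀ e f : ℤ, ∑ a ∈ Ioo 0 N, (if lam a = e ∧ lam (N - a) = f then (1 : ℝ) else 0) =
      cnt N e f := by
    intro e f
    unfold cnt
    rw [Finset.sum_ite, Finset.sum_const_zero, add_zero, Finset.sum_const, nsmul_eq_mul, mul_one]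
  rw [h2, h2, h2, h2, cnt_symm N (-1) 1]
  ring

/-- The dichotomy. -/
theorem dichotomy (ε : ℝ) (hε : 0 < ε) : ∃ C : ℕ, ∀ᶠ N : ℕ in atTop, ∀ κ : ℤ, κ = 1 ∨ κ = -1 →
    (N : ℝ) / Real.log N ^ C < (W κ N).card ∨
    ∃ σ : ℝ, (N : ℝ) ^ (-ε) ≤ σ ∧ σ * N / Real.log N ^ C < (W κ N).card + 1 ∧
      |∑ a ∈ Ioo 0 N, (lam a : ℝ)| ≤
        σ * N / Real.log N ^ (C + 1) + (N : ℝ) ^ (999 / 1000 : ℝ) := by
  obtain ⟨C1, h1⟩ := stage_one 40
  obtain ⟨C0, h2⟩ := stage_two
  refine ⟨max C1 C0, ?_⟩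
  filter_upwards [h1, h2, win_ex ε hε, balance (max C1 C0 + 1), ev_log 2, eventually_ge_atTop 2]
    with N h1 h2 h3 h4 hlog hN κ hκ
  have hNZ : NeZero N := ⟨by omega⟩
  have hlog1 : 1 ≤ Real.log N := by linarith
  have hN0 : (0 : ℝ) ≤ N := Nat.cast_nonneg N
  by_cases hW : (N : ℝ) / Real.log N ^ (max C1 C0) < (W κ N).card
  · exact Or.inl hW
  · right
    push Not at hW
    obtain ⟨χ, hr, hne, -, hS, -⟩ := h1 hNZ κ hκ
      (hW.trans (div_log_anti _ hN0 hlog1 (le_max_left _ _)))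
    obtain ⟨h5, P, hP2, hP, hsP⟩ := h3 hNZ χ hr hne
    have hS0 : 0 < Sp χ N := by
      refine lt_of_lt_of_le ?_ h5
      have : (0 : ℝ) < N := by
        have : 0 < N := by omega
        exact_mod_cast this
      positivity
    refine ⟨Sp χ N, h5, ?_, ?_⟩
    · refine lt_of_le_of_lt ?_ (h2 κ hκ χ hr hS hS0 P hP2 hP hsP)
      exact div_log_anti _ (by positivity) hlog1 (le_max_right _ _)
    · refine h4 hNZ χ hne hr ?_
      refine hS.trans ?_
      have h6 : (2 : ℝ) ^ 40 ≤ Real.log N ^ 40 := pow_le_pow_left₀ (by norm_num) hlog 40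
      rw [div_le_div_iff₀ (by positivity) (by norm_num)]
      nlinarith

/-- The sum of `lam` over `a < N`, prime number theorem. -/
theorem sum_lam_small (C : ℕ) : ∀ᶠ N : ℕ in atTop,
    |∑ a ∈ Ioo 0 N, (lam a : ℝ)| ≤ (N : ℝ) / Real.log N ^ C / 2 := by
  obtain ⟨K, hK, h1⟩ := pnt (C + 1)
  have h2 := (tendsto_sub_atTop_nat 1).eventually (ev_log (2 ^ (C + 3) * K + 1))
  filter_upwards [h2, ev_log (2 ^ (C + 3) * K + 1), eventually_ge_atTop 4] with N h2 h3 hN
  have h4 := h1 (N - 1) (by omega)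
  have h5 : Icc 1 (N - 1) = Ioo 0 N := by
    ext a
    simp only [mem_Icc, mem_Ioo]
    omega
  rw [h5] at h4
  refine h4.trans ?_
  have hN1 : ((N - 1 : ℕ) : ℝ) = (N : ℝ) - 1 := by
    rw [Nat.cast_sub (by omega)]
    simp
  have hNr : (4 : ℝ) ≤ N := by exact_mod_cast hN
  have hl : Real.log N ≤ 2 * Real.log ((N - 1 : ℕ) : ℝ) := by
    rw [hN1]
    have h6 : Real.log (N : ℝ) ≤ Real.log (((N : ℝ) - 1) ^ 2) := by
      apply Real.log_le_log (by linarith)
      nlinarith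
    rw [Real.log_pow] at h6
    exact_mod_cast h6
  have hlN : 0 < Real.log N := by
    have : (0 : ℝ) ≤ 2 ^ (C + 3) * K := by positivity
    linarith
  have hlM : 0 < Real.log ((N - 1 : ℕ) : ℝ) := by linarith
  have h7 : Real.log N ^ (C + 1) ≤ 2 ^ (C + 1) * Real.log ((N - 1 : ℕ) : ℝ) ^ (C + 1) := by
    rw [← mul_pow]
    exact pow_le_pow_left₀ hlN.le hl _
  have h8 : K * ((N - 1 : ℕ) : ℝ) / Real.log ((N - 1 : ℕ) : ℝ) ^ (C + 1) ≤
      K * N * 2 ^ (C + 1) / Real.log N ^ (C + 1) := by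
    rw [div_le_div_iff₀ (by positivity) (by positivity)]
    have h9 : K * ((N - 1 : ℕ) : ℝ) ≤ K * N := by
      rw [hN1]
      nlinarith
    calc K * ((N - 1 : ℕ) : ℝ) * Real.log N ^ (C + 1)
        ≤ K * N * (2 ^ (C + 1) * Real.log ((N - 1 : ℕ) : ℝ) ^ (C + 1)) := by
          apply mul_le_mul h9 h7 (by positivity) (by positivity)
      _ = K * N * 2 ^ (C + 1) * Real.log ((N - 1 : ℕ) : ℝ) ^ (C + 1) := by ring
  refine h8.trans ?_
  rw [div_div, div_le_div_iff₀ (by positivity) (by positivity)]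
  have h10 : K * 2 ^ (C + 2) ≤ Real.log N := by
    have : (2 : ℝ) ^ (C + 3) = 2 * 2 ^ (C + 2) := by ring
    have h11 : (0 : ℝ) ≤ K * 2 ^ (C + 2) := by positivity
    nlinarith
  calc K * N * 2 ^ (C + 1) * (Real.log N ^ C * 2)
      = K * 2 ^ (C + 2) * (N * Real.log N ^ C) := by ring
    _ ≤ Real.log N * (N * Real.log N ^ C) := by
        apply mul_le_mul_of_nonneg_right h10 (by positivity)
    _ = N * Real.log N ^ (C + 1) := by ring

theorem four_aux (ε : ℝ) (hε : 0 < ε) (hε1 : ε ≤ 1 / 1000) : ∀ᶠ N : ℕ in atTop,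
    (N : ℝ) ^ (1 - ε) ≤ cnt N 1 (-1) ∧ (N : ℝ) ^ (1 - ε) ≤ cnt N 1 1 ∧
      (N : ℝ) ^ (1 - ε) ≤ cnt N (-1) (-1) := by
  obtain ⟨C, hC⟩ := dichotomy (ε / 2) (by positivity)
  filter_upwards [hC, ev_log 8, ev_pow (1 - ε) (1 - ε / 2) (by linarith) C 100,
    eventually_ge_atTop 2, ev_pow (999 / 1000) (1 - ε / 2) (by linarith) C 100,
    sum_lam_small C] with N hC hlog h1 hN h2 h3
  have hN0 : (0 : ℝ) < N := by
    have : 0 < N := by omega
    exact_mod_cast this
  have hN1 : (1 : ℝ) ≤ N := by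
    have : 1 ≤ N := by omega
    exact_mod_cast this
  have hL : 0 < Real.log N ^ C := by
    have : 0 < Real.log N := by linarith
    positivity
  set X : ℝ := (N : ℝ) ^ (1 - ε) with hX
  have hX1 : 1 ≤ X := Real.one_le_rpow hN1 (by linarith)
  -- a common form of the two cases
  have key : ∀ κ : ℤ, κ = 1 ∨ κ = -1 → ∃ V : ℝ, 100 * X ≤ V ∧ V - 1 < ((W κ N).card : ℝ) ∧
      |∑ a ∈ Ioo 0 N, (lam a : ℝ)| ≤ V / 2 := by
    intro κ hκ
    rcases hC κ hκ with h | ⟨σ, h4, h5, h6⟩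
    · refine ⟨N / Real.log N ^ C, ?_, by linarith, h3⟩
      rw [le_div_iff₀ hL]
      refine h1.trans ?_
      calc (N : ℝ) ^ (1 - ε / 2) ≤ (N : ℝ) ^ (1 : ℝ) :=
            Real.rpow_le_rpow_of_exponent_le hN1 (by linarith)
        _ = N := Real.rpow_one _
    · have h7 : (N : ℝ) ^ (1 - ε / 2) ≤ σ * N := by
        have h8 : (N : ℝ) ^ (1 - ε / 2) = (N : ℝ) ^ (-(ε / 2)) * N := by
          rw [show (1 - ε / 2 : ℝ) = -(ε / 2) + 1 by ring, Real.rpow_add hN0, Real.rpow_one]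
        rw [h8]
        exact mul_le_mul_of_nonneg_right h4 hN0.le
      refine ⟨σ * N / Real.log N ^ C, ?_, by linarith, h6.trans ?_⟩
      · rw [le_div_iff₀ hL]
        exact h1.trans h7
      · have h9 : 100 * (N : ℝ) ^ (999 / 1000 : ℝ) ≤ σ * N / Real.log N ^ C := by
          rw [le_div_iff₀ hL]
          exact h2.trans h7
        have h10 : σ * N / Real.log N ^ (C + 1) ≤ σ * N / Real.log N ^ C / 8 := by
          have h11 : 0 ≤ σ * N := le_trans (by positivity) h7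
          rw [div_div]
          apply div_le_div_of_nonneg_left h11 (by positivity)
          rw [pow_succ]
          exact mul_le_mul_of_nonneg_left hlog hL.le
        linarith [show (0 : ℝ) ≤ (N : ℝ) ^ (999 / 1000 : ℝ) by positivity]
  obtain ⟨V, hV1, hV2, -⟩ := key 1 (Or.inl rfl)
  obtain ⟨U, hU1, hU2, hU3⟩ := key (-1) (Or.inr rfl)
  rw [W_pos] at hV2
  rw [W_neg] at hU2
  rw [sum_lam] at hU3
  push_cast at hV2 hU2
  rw [abs_le] at hU3
  refine ⟨by linarith, ?_, ?_⟩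
  · linarith [hU3.1]
  · linarith [hU3.2]

/-- **Theorem.** All four sign patterns. -/
theorem four (ε : ℝ) (hε : 0 < ε) : ∀ᶠ N : ℕ in atTop, ∀ e f : ℤ, (e = 1 ∨ e = -1) →
    (f = 1 ∨ f = -1) → (N : ℝ) ^ (1 - ε) ≤ cnt N e f := by
  filter_upwards [four_aux (min ε (1 / 1000)) (by positivity) (min_le_right _ _),
    eventually_ge_atTop 1] with N hN hN1 e f he hf
  have hN1' : (1 : ℝ) ≤ N := by exact_mod_cast hN1
  have h1 : (N : ℝ) ^ (1 - ε) ≤ (N : ℝ) ^ (1 - min ε (1 / 1000)) :=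
    Real.rpow_le_rpow_of_exponent_le hN1' (by linarith [min_le_left ε (1 / 1000)])
  rcases he with rfl | rfl <;> rcases hf with rfl | rfl
  · exact h1.trans hN.2.1
  · exact h1.trans hN.1
  · rw [cnt_symm]
    exact h1.trans hN.1
  · exact h1.trans hN.2.2

end Pool.Agent.GLI
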