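import Pool.Agent.GLI.Defs

set_option autoImplicit false

/-!
Module FreeCount. For `r ≤ R` the map `n ↦ (r n) % N` on `range N` has fibres of size
`gcd (r, N) ≤ r`; so at most `r` of the `n` have `N ∣ r n` and at most `r |W|` have `(r n) % N ∈ W`.
`∑_{r ≤ R} r ≤ R²`. In `free_pairs` a given `n = p d < N` comes from at most
`Nat.log 2 N + 1` primes `p`.
-/

open Finset Filter

namespace Pool.Agent.GLI

theorem fibre_mod_card (N r v : ℕ) (hr : 1 ≤ r) :
    ((range N).filter fun n => (r * n) % N = v).card ≤ r := by
  have h : ((range N).filter fun n => (r * n) % N = v).card ≤ (range r).card := by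
    apply Finset.card_le_card_of_injOn (fun n => (r * n) / N)
    · intro n hn
      simp only [Finset.coe_filter, Finset.mem_range, Set.mem_ofPred_eq] at hn
      simp only [Finset.coe_range, Set.mem_Iio]
      apply Nat.div_lt_of_lt_mul
      rw [Nat.mul_comm N r]
      exact Nat.mul_lt_mul_of_pos_left hn.1 hr
    · intro a ha b hb hab
      simp only [Finset.coe_filter, Finset.mem_range, Set.mem_ofPred_eq] at ha hb
      have h1 := Nat.div_add_mod (r * a) N
      have h2 := Nat.div_add_mod (r * b) N
      simp only at hab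
      rw [ha.2, hab] at h1
      rw [hb.2] at h2
      have h3 : r * a = r * b := h1.symm.trans h2
      exact Nat.eq_of_mul_eq_mul_left hr h3
  rwa [Finset.card_range] at h

open Classical in
theorem free_count (κ : ℤ) (N R : ℕ) (hN : 1 ≤ N) :
    ((range N).filter fun n => ¬ Free κ N R n).card ≤ R ^ 2 * ((W κ N).card + 1) := by
  have hsub : ((range N).filter fun n => ¬ Free κ N R n) ⊆
      (Icc 1 R).biUnion fun r => (range N).filter fun n => (r * n) % N ∈ insert 0 (W κ N) := by
    intro n hn
    simp only [Finset.mem_filter, Finset.mem_range, Free, not_forall] at hn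
    obtain ⟨hnN, r, hr1, hrR, hbad⟩ := hn
    simp only [Finset.mem_biUnion, Finset.mem_Icc, Finset.mem_filter, Finset.mem_range,
      Finset.mem_insert]
    refine ⟨r, ⟨hr1, hrR⟩, hnN, ?_⟩
    by_cases h : N ∣ r * n
    · left
      exact Nat.mod_eq_zero_of_dvd h
    · right
      by_contra hW
      exact hbad ⟨h, hW⟩
  calc ((range N).filter fun n => ¬ Free κ N R n).card
      ≤ ((Icc 1 R).biUnion fun r =>
          (range N).filter fun n => (r * n) % N ∈ insert 0 (W κ N)).card :=
        Finset.card_le_card hsub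
    _ ≤ ∑ r ∈ Icc 1 R, ((range N).filter fun n => (r * n) % N ∈ insert 0 (W κ N)).card :=
        Finset.card_biUnion_le
    _ ≤ ∑ _r ∈ Icc 1 R, R * ((W κ N).card + 1) := by
        apply Finset.sum_le_sum
        intro r hr
        rw [Finset.mem_Icc] at hr
        have h1 : ((range N).filter fun n => (r * n) % N ∈ insert 0 (W κ N)).card ≤
            r * (insert 0 (W κ N)).card := by
          apply Finset.card_le_mul_card_image_of_maps_to (f := fun n => (r * n) % N)
          · intro n hn
            rw [Finset.mem_filter] at hn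
            exact hn.2
          · intro v _
            refine le_trans (Finset.card_le_card ?_) (fibre_mod_card N r v hr.1)
            intro n hn
            simp only [Finset.mem_filter, Finset.mem_range] at hn ⊢
            exact ⟨hn.1.1, hn.2⟩
        exact le_trans h1 (Nat.mul_le_mul hr.2 (Finset.card_insert_le _ _))
    _ = R ^ 2 * ((W κ N).card + 1) := by
        rw [Finset.sum_const, Nat.card_Icc, smul_eq_mul]
        have : R + 1 - 1 = R := by omega
        rw [this]
        ring

theorem card_primeFactors_le_log {n N : ℕ} (hn : n ≠ 0) (hnN : n < N) :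
    n.primeFactors.card ≤ Nat.log 2 N := by
  apply Nat.le_log_of_pow_le (by norm_num)
  calc 2 ^ n.primeFactors.card ≤ ∏ p ∈ n.primeFactors, p := by
        apply Finset.pow_card_le_prod
        intro p hp
        exact (Nat.prime_of_mem_primeFactors hp).two_le
    _ ≤ n := Nat.le_of_dvd (Nat.pos_of_ne_zero hn) (Nat.prod_primeFactors_dvd n)
    _ ≤ N := hnN.le

open Classical in
theorem free_pairs (κ : ℤ) (N R : ℕ) (hN : 1 ≤ N) (Q : Finset ℕ) (hQ : ∀ p ∈ Q, p.Prime) :
    ((Q ×ˢ range N).filter fun w => 1 ≤ w.2 ∧ w.1 * w.2 < N ∧ ¬ Free κ N R (w.1 * w.2)).card ≤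
      (Nat.log 2 N + 1) * (R ^ 2 * ((W κ N).card + 1)) := by
  refine le_trans ?_ (Nat.mul_le_mul_left _ (free_count κ N R hN))
  apply Finset.card_le_mul_card_image_of_maps_to (f := fun w : ℕ × ℕ => w.1 * w.2)
  · intro w hw
    simp only [Finset.mem_filter, Finset.mem_product, Finset.mem_range] at hw ⊢
    exact ⟨hw.2.2.1, hw.2.2.2⟩
  · intro n hn
    simp only [Finset.mem_filter, Finset.mem_range] at hn
    rcases Nat.eq_zero_or_pos n with h0 | h0
    · have : (((Q ×ˢ range N).filter fun w =>
          1 ≤ w.2 ∧ w.1 * w.2 < N ∧ ¬ Free κ N R (w.1 * w.2)).filter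
          fun w => w.1 * w.2 = n) = ∅ := by
        apply Finset.filter_false_of_mem
        intro w hw
        simp only [Finset.mem_filter, Finset.mem_product, Finset.mem_range] at hw
        have := (hQ w.1 hw.1.1).pos
        have h2 : 0 < w.1 * w.2 := Nat.mul_pos this hw.2.1
        omega
      rw [this]
      simp
    · refine le_trans ?_ (le_trans (card_primeFactors_le_log h0.ne' hn.1) (Nat.le_succ _))
      apply Finset.card_le_card_of_injOn (fun w : ℕ × ℕ => w.1)
      · intro w hw
        simp only [Finset.coe_filter, Finset.mem_filter, Finset.mem_product, Finset.mem_range,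
          Set.mem_ofPred_eq] at hw
        simp only [Finset.mem_coe, Nat.mem_primeFactors]
        exact ⟨hQ w.1 hw.1.1.1, by rw [← hw.2]; exact dvd_mul_right _ _, h0.ne'⟩
      · intro w hw w' hw' hww
        simp only [Finset.coe_filter, Finset.mem_filter, Finset.mem_product, Finset.mem_range,
          Set.mem_ofPred_eq] at hw hw'
        simp only at hww
        have hp := (hQ w.1 hw.1.1.1).pos
        have h1 : w.1 * w.2 = w.1 * w'.2 := by
          rw [hw.2, ← hw'.2, hww]
        exact Prod.ext hww (Nat.eq_of_mul_eq_mul_left hp h1)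

/-- `near` and `nr`. -/
theorem near_iff (N m s : ℕ) (hN : 1 ≤ N) : near N m s ↔ nr ((s : ℝ) / N) * m < 1 := by
  have hN' : (0 : ℝ) < N := by exact_mod_cast hN
  have hlt : s % N < N := Nat.mod_lt _ hN
  unfold near nr
  rw [abs_sub_round_eq_min, Int.fract_div_natCast_eq_div_natCast_mod,
    min_mul_of_nonneg _ _ (Nat.cast_nonneg m), min_lt_iff]
  have e1 : ((s % N) * m < N) ↔ ((s % N : ℕ) : ℝ) / N * m < 1 := by
    rw [div_mul_eq_mul_div, div_lt_one hN']
    exact_mod_cast Iff.rfl
  have e2 : ((N - s % N) * m < N) ↔ (1 - ((s % N : ℕ) : ℝ) / N) * m < 1 := by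
    have h1 : (1 - ((s % N : ℕ) : ℝ) / N) * m = (((N - s % N : ℕ) : ℝ) * m) / N := by
      rw [Nat.cast_sub hlt.le]
      field_simp
    rw [h1, div_lt_one hN']
    exact_mod_cast Iff.rfl
  rw [e1, e2]

theorem hit_iff (N y R m n : ℕ) (hN : 1 ≤ N) : Hit N y R m n ↔ RHit y R m ((n : ℝ) / N) := by
  unfold Hit RHit
  apply exists_congr
  intro t
  rw [near_iff N m (t * n) hN]
  have : ((t * n : ℕ) : ℝ) / N = (t : ℝ) * ((n : ℝ) / N) := by
    push_cast
    ring
  rw [this]

end Pool.Agent.GLI
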