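import Pool.Agent.GLI.Defs

set_option autoImplicit false

/-!
Module Supply. `T` = products of `k` distinct primes `≤ y` (`Finset.powersetCard k` of the primes),
distinct by unique factorisation, `|T| = C(π(y), k) ≥ (π(y)/k)^k`, `π(y) ≥ y/(2 log y)` for large
`y` (`Chebyshev.pi_ge`), `t ≤ y^k`, `τ(t) = 2^k`. If `k > π(y)` then `y/(2 k log y) ≤ 1`: take `{1}`.
-/

open Finset Filter

namespace Pool.Agent.GLI

theorem supply_choose : ∀ (k n : ℕ), k ≤ n → ((n : ℝ) / k) ^ k ≤ (n.choose k : ℝ) := by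
  intro k
  induction k with
  | zero => intro n _; simp
  | succ k ih =>
    intro n hn
    obtain ⟨m, rfl⟩ : ∃ m, n = m + 1 := ⟨n - 1, by omega⟩
    have hkm : k ≤ m := by omega
    have h1 := ih m hkm
    have h2 : ((m + 1 : ℕ) : ℝ) * (m.choose k : ℝ) = ((m + 1).choose (k + 1) : ℝ) * ((k + 1 : ℕ) : ℝ) := by
      exact_mod_cast Nat.add_one_mul_choose_eq m k
    have hk1 : (0 : ℝ) < ((k + 1 : ℕ) : ℝ) := by positivity
    have h3 : ((m + 1).choose (k + 1) : ℝ) = ((m + 1 : ℕ) : ℝ) / ((k + 1 : ℕ) : ℝ) * (m.choose k : ℝ) := by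
      field_simp
      linarith
    rw [h3, pow_succ, mul_comm]
    refine mul_le_mul_of_nonneg_left ?_ (by positivity)
    refine le_trans ?_ h1
    rcases Nat.eq_zero_or_pos k with hk | hk
    · subst hk; simp
    · refine pow_le_pow_left₀ (by positivity) ?_ k
      rw [div_le_div_iff₀ hk1 (by exact_mod_cast hk)]
      push_cast
      have : (k : ℝ) ≤ m := by exact_mod_cast hkm
      nlinarith

theorem supply_div (S : Finset ℕ) (hS : ∀ p ∈ S, p.Prime) :
    (∏ p ∈ S, p).divisors.card ≤ 2 ^ S.card := by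
  induction S using Finset.induction_on with
  | empty => simp
  | insert p S hp ih =>
    rw [Finset.prod_insert hp, Finset.card_insert_of_notMem hp, pow_succ, mul_comm (2 ^ S.card) 2,
      Nat.divisors_mul]
    refine (Finset.card_mul_le).trans ?_
    have hpp : p.Prime := hS p (Finset.mem_insert_self _ _)
    have h1 : p.divisors.card = 2 := by
      rw [hpp.divisors, Finset.card_pair hpp.one_lt.ne]
    rw [h1]
    exact Nat.mul_le_mul_left 2 (ih (fun q hq => hS q (Finset.mem_insert_of_mem hq)))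

theorem supply_pi : ∃ y0 : ℕ, ∀ y : ℕ, y0 ≤ y →
    2 ≤ y ∧ (y : ℝ) / (2 * Real.log y) ≤ ((Nat.primesLE y).card : ℝ) := by
  have h := (Real.isLittleO_log_id_atTop).bound (c := 1 / 10) (by norm_num)
  rw [Filter.eventually_atTop] at h
  obtain ⟨a, ha⟩ := h
  refine ⟨max 2 ⌈a⌉₊, fun y hy => ?_⟩
  have hy2 : 2 ≤ y := le_trans (le_max_left _ _) hy
  have hya : a ≤ (y : ℝ) + 1 := by
    have h1 : a ≤ (⌈a⌉₊ : ℝ) := Nat.le_ceil a
    have h2 : (⌈a⌉₊ : ℝ) ≤ y := by exact_mod_cast le_trans (le_max_right _ _) hy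
    linarith
  have h3 := ha ((y : ℝ) + 1) hya
  have hyr : (2 : ℝ) ≤ y := by exact_mod_cast hy2
  have h4 : Real.log ((y : ℝ) + 1) ≤ 1 / 10 * ((y : ℝ) + 1) := by
    have h5 : ‖((y : ℝ) + 1)‖ = (y : ℝ) + 1 := by
      rw [Real.norm_eq_abs, abs_of_nonneg]; linarith
    simp only [id] at h3
    rw [h5] at h3
    exact (le_abs_self _).trans h3
  have hlog : 0 < Real.log y := Real.log_pos (by linarith)
  have h6 := Chebyshev.pi_ge y
  rw [← Nat.primesLE_card_eq_primeCounting] at h6
  refine ⟨hy2, le_trans ?_ h6⟩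
  rw [div_le_div_iff₀ (by positivity) hlog]
  have h7 : (0.6931471803 : ℝ) < Real.log 2 := Real.log_two_gt_d9
  have h8 : (y : ℝ) ≤ (y * Real.log 2 - Real.log (y + 1)) * 2 := by nlinarith
  calc (y : ℝ) * Real.log y ≤ ((y * Real.log 2 - Real.log (y + 1)) * 2) * Real.log y :=
        mul_le_mul_of_nonneg_right h8 hlog.le
    _ = (y * Real.log 2 - Real.log (y + 1)) * (2 * Real.log y) := by ring

theorem supply : ∃ y0 : ℕ, ∀ y : ℕ, y0 ≤ y → ∀ k : ℕ, 1 ≤ k → ∃ T : Finset ℕ, T.Nonempty ∧
    (∀ t ∈ T, 1 ≤ t ∧ t ≤ y ^ k ∧ Sm y t ∧ t.divisors.card ≤ 2 ^ k) ∧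
    ((y : ℝ) / (2 * k * Real.log y)) ^ k ≤ T.card := by
  obtain ⟨y0, hy0⟩ := supply_pi
  refine ⟨y0, fun y hy k hk => ?_⟩
  obtain ⟨hy2, hpi⟩ := hy0 y hy
  have hyr : (2 : ℝ) ≤ y := by exact_mod_cast hy2
  have hlog : 0 < Real.log y := Real.log_pos (by linarith)
  have hkr : (1 : ℝ) ≤ k := by exact_mod_cast hk
  have hk0 : (0 : ℝ) < k := by linarith
  have heq : (y : ℝ) / (2 * k * Real.log y) = (y : ℝ) / (2 * Real.log y) / k := by
    rw [div_div]; congr 1; ring
  by_cases hkp : k ≤ (Nat.primesLE y).card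
  · refine ⟨(Finset.powersetCard k (Nat.primesLE y)).image (fun S => ∏ p ∈ S, p), ?_, ?_, ?_⟩
    · rw [Finset.image_nonempty]
      exact Finset.powersetCard_nonempty.2 hkp
    · intro t ht
      obtain ⟨S, hS, rfl⟩ := Finset.mem_image.1 ht
      obtain ⟨hS1, hS2⟩ := Finset.mem_powersetCard.1 hS
      have hpr : ∀ p ∈ S, p.Prime := fun p hp => Nat.prime_of_mem_primesLE (hS1 hp)
      have hle : ∀ p ∈ S, p ≤ y := fun p hp => by
        have := hS1 hp
        rw [Nat.primesLE_eq_filter_range] at this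
        have := Finset.mem_range.1 (Finset.mem_filter.1 this).1
        omega
      refine ⟨?_, ?_, ?_, ?_⟩
      · exact Finset.prod_pos (fun p hp => (hpr p hp).pos)
      · rw [← hS2]
        exact Finset.prod_le_pow_card S _ y hle
      · intro p hp hpt
        have h1 : p ∈ (∏ q ∈ S, q).primeFactors :=
          Nat.mem_primeFactors.2 ⟨hp, hpt, (Finset.prod_pos (fun q hq => (hpr q hq).pos)).ne'⟩
        rw [Nat.primeFactors_prod hpr] at h1
        exact hle p h1
      · rw [← hS2]
        exact supply_div S hpr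
    · rw [Finset.card_image_of_injOn, Finset.card_powersetCard]
      · refine le_trans ?_ (supply_choose k _ hkp)
        refine pow_le_pow_left₀ (by positivity) ?_ k
        rw [heq]
        exact div_le_div_of_nonneg_right hpi hk0.le
      · intro S hS S' hS' h
        have h1 := (Finset.mem_powersetCard.1 hS).1
        have h2 := (Finset.mem_powersetCard.1 hS').1
        rw [← Nat.primeFactors_prod (fun p hp => Nat.prime_of_mem_primesLE (h1 hp)),
          ← Nat.primeFactors_prod (fun p hp => Nat.prime_of_mem_primesLE (h2 hp))]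
        exact congrArg Nat.primeFactors h
  · refine ⟨{1}, Finset.singleton_nonempty _, ?_, ?_⟩
    · intro t ht
      rw [Finset.mem_singleton] at ht
      subst ht
      refine ⟨le_rfl, Nat.one_le_pow _ _ (by omega), ?_, ?_⟩
      · intro p hp h1
        exact absurd (Nat.dvd_one.1 h1) hp.one_lt.ne'
      · simpa using Nat.one_le_two_pow
    · simp only [Finset.card_singleton, Nat.cast_one]
      refine pow_le_one₀ (by positivity) ?_
      rw [heq, div_le_one hk0]
      push Not at hkp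
      have : ((Nat.primesLE y).card : ℝ) < k := by exact_mod_cast hkp
      linarith

end Pool.Agent.GLI
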