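import Pool.Agent.GLI.Var
import Pool.Agent.GLI.Block
import Pool.Agent.GLI.Supply
import Pool.Agent.GLI.Ev

set_option autoImplicit false

/-!
Module HitOne (level one). `y = yz N ~ √(log log N)`, `m ≤ yo N = ⌊(log log N)^10⌋ ≤ (y+1)^20`.
Supply with `k = 80`: `T ⊂ [1, y^80]`, `|T| ≥ (y/(160 log y))^80 ≥ y^70`, `τ ≤ 2^80`. vol_nohit with
`δ = 1/(2m)`: `ν ≤ 2^80 (2 + 80 log y) m / |T| ≤ y^(-40)`. Block with `q = 2^L`, `2 m y^80 ≤ q ≤ y^102`,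
`K = ⌊log_q (log N)^B⌋`.
-/

open Finset Filter MeasureTheory

namespace Pool.Agent.GLI

namespace HitOne

theorem sm_mul {y a b : ℕ} (ha : Sm y a) (hb : Sm y b) : Sm y (a * b) := by
  intro p hp hd
  rcases (Nat.Prime.dvd_mul hp).1 hd with h | h
  · exact ha p hp h
  · exact hb p hp h

theorem sm_two_pow {y : ℕ} (hy : 2 ≤ y) (n : ℕ) : Sm y (2 ^ n) := by
  intro p hp hd
  have h1 := hp.dvd_of_dvd_pow hd
  have h2 : p ≤ 2 := Nat.le_of_dvd (by norm_num) h1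
  omega

/-- eventual facts in the smoothness parameter -/
theorem ev_y : ∃ Y : ℕ, ∀ y : ℕ, Y ≤ y →
    ((160 : ℝ) * Real.log y) ^ 80 ≤ (y : ℝ) ^ 10 ∧
    (2 : ℝ) ^ 100 * (2 + 80 * Real.log y) ≤ (y : ℝ) ^ 10 := by
  have h1 : ∀ᶠ x : ℝ in atTop, (160 : ℝ) ^ 80 * Real.log x ^ 80 ≤ x ^ (10 : ℝ) :=
    ev_real 10 (by norm_num) 80 _
  have h2 : ∀ᶠ x : ℝ in atTop, ((2 : ℝ) ^ 100 * 82) * Real.log x ^ 1 ≤ x ^ (10 : ℝ) :=
    ev_real 10 (by norm_num) 1 _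
  have h3 : ∀ᶠ x : ℝ in atTop, 1 ≤ Real.log x := Real.tendsto_log_atTop.eventually_ge_atTop 1
  have h4 := (tendsto_natCast_atTop_atTop (R := ℝ)).eventually (h1.and (h2.and h3))
  obtain ⟨Y, hY⟩ := eventually_atTop.1 h4
  refine ⟨Y, fun y hy => ?_⟩
  obtain ⟨a, b, c⟩ := hY y hy
  have e : ((y : ℝ)) ^ (10 : ℝ) = (y : ℝ) ^ 10 := by
    rw [← Real.rpow_natCast]; norm_num
  rw [e] at a b
  constructor
  · rw [mul_pow]; exact a
  · rw [pow_one] at b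
    nlinarith

theorem ev_yz (c : ℕ) : ∀ᶠ N : ℕ in atTop, c ≤ yz N := by
  filter_upwards [ev_loglog ((c : ℝ) ^ 2)] with N hN
  refine Nat.le_floor ?_
  rw [show (c : ℝ) = Real.sqrt ((c : ℝ) ^ 2) from (Real.sqrt_sq (Nat.cast_nonneg c)).symm]
  exact Real.sqrt_le_sqrt hN

end HitOne

open Classical in
theorem hit_one (D E : ℕ) : ∃ B : ℕ, ∀ᶠ N : ℕ in atTop, ∀ α : ℝ, 0 < α →
    α ≤ (N : ℝ) ^ (-(1 / 4 : ℝ)) → ∀ r : ℕ, 1 ≤ r → (r : ℝ) ≤ Real.log N ^ E →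
    ∀ m : ℕ, 1 ≤ m → m ≤ yo N →
    (((range ⌈1 / α⌉₊).filter fun d : ℕ =>
      ¬ RHit (yz N) (lp N B) m (r * (d * α))).card : ℝ) ≤ 1 / α / Real.log N ^ D := by
  obtain ⟨Y1, hY1⟩ := HitOne.ev_y
  obtain ⟨Y2, hsupply⟩ := supply
  set B : ℕ := 102 * (D + 1) with hB
  refine ⟨B, ?_⟩
  have ev1 : ∀ᶠ N : ℕ in atTop, Real.log N ^ (E + B) * (N : ℝ) ^ (-(1 / 4 : ℝ)) ≤ 1 := by
    filter_upwards [ev_pow (-(1 / 4)) 0 (by norm_num) (E + B) 1] with N hN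
    simpa [mul_comm] using hN
  filter_upwards [HitOne.ev_yz Y1, HitOne.ev_yz Y2, HitOne.ev_yz (2 ^ 11), ev1, ev_log 2,
    ev_loglog 1, ev_loglog_pow 1 one_pos 51 1, ev_loglog_pow 1 one_pos 20 2] with
    N hy1 hy2 hy3 ev1 hL2 hl1 hl51 hl20
  intro α hα hαN r hr hrE m hm hmy
  set L : ℝ := Real.log N with hL
  set ℓ : ℝ := Real.log L with hℓ
  rw [Real.rpow_one] at hl51 hl20
  set y : ℕ := yz N with hy
  have hL0 : (0:ℝ) < L := by linarith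
  have hL1 : (1:ℝ) ≤ L := by linarith
  have hℓ0 : (0:ℝ) ≤ ℓ := by linarith
  have hs0 : (0:ℝ) ≤ Real.sqrt ℓ := Real.sqrt_nonneg _
  have hys : (y : ℝ) ≤ Real.sqrt ℓ := Nat.floor_le hs0
  have hys' : Real.sqrt ℓ < y + 1 := Nat.lt_floor_add_one _
  have hyR : (2 ^ 11 : ℝ) ≤ y := by exact_mod_cast hy3
  have hy0 : (0:ℝ) < y := by linarith
  have hy1' : (1:ℝ) ≤ y := by linarith
  have hsq : Real.sqrt ℓ ^ 2 = ℓ := Real.sq_sqrt hℓ0
  have hsqn : ∀ k : ℕ, Real.sqrt ℓ ^ (2 * k) = ℓ ^ k := fun k => by rw [pow_mul, hsq]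
  -- `m ≤ (2 y)^20`
  have hmR : (m : ℝ) ≤ (2 * y) ^ 20 := by
    have h1 : (m : ℝ) ≤ ℓ ^ 10 := by
      have h2 : (yo N : ℝ) ≤ ℓ ^ 10 := Nat.floor_le (by positivity)
      exact le_trans (by exact_mod_cast hmy) h2
    calc (m : ℝ) ≤ ℓ ^ 10 := h1
      _ = Real.sqrt ℓ ^ 20 := (hsqn 10).symm
      _ ≤ (2 * y) ^ 20 := by
          refine pow_le_pow_left₀ hs0 ?_ 20
          linarith
  have hm0 : (0:ℝ) < m := by exact_mod_cast hm
  -- supply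
  obtain ⟨T, hTne, hT, hTc⟩ := hsupply y hy2 80 (by norm_num)
  have hTc' : (y : ℝ) ^ 70 ≤ T.card := by
    refine le_trans ?_ hTc
    have h1 := (hY1 y hy1).1
    have hlog : 0 < Real.log y := Real.log_pos (by linarith)
    have e : (2 * ((80 : ℕ) : ℝ) * Real.log y) = 160 * Real.log y := by norm_num
    rw [e, div_pow, le_div_iff₀ (by positivity)]
    calc (y : ℝ) ^ 70 * (160 * Real.log y) ^ 80 ≤ (y : ℝ) ^ 70 * (y : ℝ) ^ 10 := by gcongr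
      _ = (y : ℝ) ^ 80 := by rw [← pow_add]
  have hTc0 : (0:ℝ) < T.card := by
    have : (0:ℝ) < (y : ℝ) ^ 70 := by positivity
    linarith
  -- volume
  have hvol := vol_nohit T hTne (y ^ 80) (2 ^ 80) (fun t ht => ⟨(hT t ht).1, (hT t ht).2.1,
    (hT t ht).2.2.2⟩) (1 / (2 * m)) (by positivity) (by
      rw [div_le_div_iff₀ (by positivity) (by norm_num)]
      have : (1:ℝ) ≤ m := by exact_mod_cast hm
      linarith)
  have hν : (volume {β : ℝ | β ∈ Set.Ico (0 : ℝ) 1 ∧ ∀ t ∈ T, 1 / (2 * m) ≤ nr (t * β)}).toReal ≤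
      1 / (y : ℝ) ^ 40 := by
    refine hvol.trans ?_
    have e1 : (2 : ℝ) * (1 / (2 * m)) * T.card = T.card / m := by field_simp
    rw [e1]
    have e2 : Real.log ((y ^ 80 : ℕ) : ℝ) = 80 * Real.log y := by
      push_cast
      rw [Real.log_pow]
      norm_num
    rw [e2, div_div_eq_mul_div, div_le_div_iff₀ hTc0 (by positivity), one_mul]
    have h1 := (hY1 y hy1).2
    have hlog : 0 < Real.log y := Real.log_pos (by linarith)
    have e3 : ((2 ^ 80 : ℕ) : ℝ) = (2 : ℝ) ^ 80 := by norm_num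
    rw [e3]
    calc (2 : ℝ) ^ 80 * (2 + 80 * Real.log y) * m * (y : ℝ) ^ 40
        ≤ (2 : ℝ) ^ 80 * (2 + 80 * Real.log y) * (2 * y) ^ 20 * (y : ℝ) ^ 40 := by gcongr
      _ = ((2 : ℝ) ^ 100 * (2 + 80 * Real.log y)) * (y : ℝ) ^ 60 := by ring
      _ ≤ (y : ℝ) ^ 10 * (y : ℝ) ^ 60 := by gcongr
      _ = (y : ℝ) ^ 70 := by rw [← pow_add]
      _ ≤ T.card := hTc'
  -- `q`
  obtain ⟨q, hq1, hq2, n, hqn⟩ : ∃ q : ℕ, 2 * m * y ^ 80 ≤ q ∧ q ≤ 2 * (2 * m * y ^ 80) ∧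
      ∃ n : ℕ, q = 2 ^ n := by
    have hpos : 1 ≤ 2 * m * y ^ 80 := by
      have : 0 < y ^ 80 := by positivity
      have : 0 < 2 * m * y ^ 80 := by positivity
      omega
    refine ⟨2 ^ (Nat.clog 2 (2 * m * y ^ 80)), Nat.le_pow_clog (by norm_num) _, ?_, _, rfl⟩
    rcases Nat.eq_zero_or_pos (Nat.clog 2 (2 * m * y ^ 80)) with h | h
    · rw [h]; omega
    · obtain ⟨j, hj⟩ := Nat.exists_eq_succ_of_ne_zero (by omega : Nat.clog 2 (2 * m * y ^ 80) ≠ 0)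
      rw [hj, pow_succ]
      have h2 : 2 ^ j < 2 * m * y ^ 80 := by
        rw [← Nat.lt_clog_iff_pow_lt (by norm_num)]
        omega
      omega
  have hqy : (q : ℝ) ≤ (y : ℝ) ^ 102 := by
    calc (q : ℝ) ≤ 2 * (2 * m * y ^ 80) := by exact_mod_cast hq2
      _ ≤ 2 * (2 * (2 * y) ^ 20 * y ^ 80) := by gcongr
      _ = 2 ^ 11 * 2 ^ 11 * y ^ 100 := by ring
      _ ≤ y * y * y ^ 100 := by gcongr
      _ = (y : ℝ) ^ 102 := by ring
  have hq3 : 2 ≤ q := by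
    have : 0 < y ^ 80 := by positivity
    have : 1 ≤ m * y ^ 80 := Nat.mul_pos (by omega) this
    calc 2 ≤ 2 * (m * y ^ 80) := by omega
      _ = 2 * m * y ^ 80 := by ring
      _ ≤ q := hq1
  have hy102 : (y : ℝ) ^ 102 ≤ L := by
    calc (y : ℝ) ^ 102 ≤ Real.sqrt ℓ ^ 102 := pow_le_pow_left₀ hy0.le hys _
      _ = ℓ ^ 51 := hsqn 51
      _ ≤ L := by simpa using hl51
  have hqB : q ≤ lp N B := by
    refine Nat.le_floor ?_
    calc (q : ℝ) ≤ L := hqy.trans hy102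
      _ = L ^ 1 := (pow_one _).symm
      _ ≤ L ^ B := pow_le_pow_right₀ hL1 (by omega)
  set K : ℕ := Nat.log q (lp N B) with hK
  have hK1 : 1 ≤ K := Nat.log_pos (by omega) hqB
  have hlp0 : lp N B ≠ 0 := by omega
  have hqK : q ^ K ≤ lp N B := Nat.pow_log_le_self q hlp0
  have hqK' : lp N B < q ^ (K + 1) := Nat.lt_pow_succ_log_self (by omega) _
  have hqKR : (q : ℝ) ^ K ≤ L ^ B := by
    calc (q : ℝ) ^ K ≤ (lp N B : ℝ) := by exact_mod_cast hqK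
      _ ≤ L ^ B := lp_le N B hL0.le
  -- apply block
  have hblock := block T (y ^ 80) m q K r α (1 / (y : ℝ) ^ 40)
    (fun t ht => ⟨(hT t ht).1, (hT t ht).2.1⟩) hm hq1 (by omega) hK1 hr hα (by
      calc (r : ℝ) * α * (q : ℝ) ^ K ≤ L ^ E * (N : ℝ) ^ (-(1 / 4 : ℝ)) * L ^ B := by gcongr
        _ = L ^ (E + B) * (N : ℝ) ^ (-(1 / 4 : ℝ)) := by rw [pow_add]; ring
        _ ≤ 1 := ev1) hν
  have hsub : ((range ⌈1 / α⌉₊).filter fun d : ℕ =>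
      ¬ RHit (yz N) (lp N B) m (r * (d * α))) ⊆
      (range ⌈1 / α⌉₊).filter fun d : ℕ => ∀ j < K, ∀ t ∈ T,
      1 ≤ nr ((q : ℝ) ^ j * t * (r * (d * α))) * m := by
    intro d hd
    simp only [mem_filter] at hd ⊢
    refine ⟨hd.1, fun j hj t ht => ?_⟩
    by_contra hcon
    push Not at hcon
    refine hd.2 ⟨q ^ j * t, ?_, ?_, ?_, ?_⟩
    · have : 0 < q ^ j := by positivity
      exact Nat.mul_pos this (hT t ht).1
    · have h1 : t ≤ q := by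
        refine (hT t ht).2.1.trans (le_trans ?_ hq1)
        exact Nat.le_mul_of_pos_left _ (by omega)
      calc q ^ j * t ≤ q ^ j * q := Nat.mul_le_mul_left _ h1
        _ = q ^ (j + 1) := (pow_succ _ _).symm
        _ ≤ q ^ K := Nat.pow_le_pow_right (by omega) hj
        _ ≤ lp N B := hqK
    · refine HitOne.sm_mul ?_ (hT t ht).2.2.1
      rw [hqn, ← pow_mul]
      exact HitOne.sm_two_pow (by omega) _
    · push_cast
      exact hcon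
  have hcard : (((range ⌈1 / α⌉₊).filter fun d : ℕ =>
      ¬ RHit (yz N) (lp N B) m (r * (d * α))).card : ℝ) ≤ 2 / α * (1 / (y : ℝ) ^ 40) ^ K :=
    le_trans (by exact_mod_cast Finset.card_le_card hsub) hblock
  refine hcard.trans ?_
  -- numerics
  have h1 : L ^ (D + 1) ≤ (y : ℝ) ^ (K + 1) := by
    have h2 : (L ^ (D + 1)) ^ 102 ≤ ((y : ℝ) ^ (K + 1)) ^ 102 := by
      calc (L ^ (D + 1)) ^ 102 = L ^ B := by rw [← pow_mul, hB]; congr 1; ring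
        _ ≤ (lp N B : ℝ) + 1 := (lt_lp N B).le
        _ ≤ (q : ℝ) ^ (K + 1) := by exact_mod_cast hqK'
        _ ≤ ((y : ℝ) ^ 102) ^ (K + 1) := by gcongr
        _ = ((y : ℝ) ^ (K + 1)) ^ 102 := by rw [← pow_mul, ← pow_mul]; congr 1; ring
    exact le_of_pow_le_pow_left₀ (by norm_num) (by positivity) h2
  have hy40 : 2 * (y : ℝ) ^ 40 ≤ L := by
    calc 2 * (y : ℝ) ^ 40 ≤ 2 * Real.sqrt ℓ ^ 40 := by gcongr
      _ = 2 * ℓ ^ 20 := by rw [← hsqn 20]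
      _ ≤ L := hl20
  have h3 : 2 * L ^ D ≤ ((y : ℝ) ^ 40) ^ K := by
    have h4 : (2 * L ^ D) * (y : ℝ) ^ 40 ≤ ((y : ℝ) ^ 40) ^ K * (y : ℝ) ^ 40 := by
      calc (2 * L ^ D) * (y : ℝ) ^ 40 = L ^ D * (2 * (y : ℝ) ^ 40) := by ring
        _ ≤ L ^ D * L := by gcongr
        _ = L ^ (D + 1) := (pow_succ _ _).symm
        _ ≤ (y : ℝ) ^ (K + 1) := h1
        _ ≤ ((y : ℝ) ^ (K + 1)) ^ 40 := le_self_pow₀ (one_le_pow₀ hy1') (by norm_num)
        _ = ((y : ℝ) ^ 40) ^ K * (y : ℝ) ^ 40 := by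
            rw [← pow_succ, ← pow_mul, ← pow_mul]; congr 1; ring
    exact le_of_mul_le_mul_right h4 (by positivity)
  rw [one_div_pow, mul_one_div, div_div, div_div, div_le_div_iff₀ (by positivity) (by positivity)]
  calc 2 * (α * L ^ D) = α * (2 * L ^ D) := by ring
    _ ≤ α * ((y : ℝ) ^ 40) ^ K := by gcongr
    _ = 1 * (α * ((y : ℝ) ^ 40) ^ K) := by ring

end Pool.Agent.GLI
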