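import Pool.Agent.GLI.Var
import Pool.Agent.GLI.Block
import Pool.Agent.GLI.Supply
import Pool.Agent.GLI.Ev

set_option autoImplicit false

/-!
Module HitTwo (level two). `y = yo N ~ (log log N)^10`, `m ≤ (log N)^A`. Supply with
`k = ⌊log_y (log N)^B⌋`: `t ≤ y^k ≤ (log N)^B`, `2 k log y ≤ 2 B log log N`, so
`|T| ≥ (log log N)^(8 k)`, `τ ≤ 2^k ≤ (log N)^(0.1 B)`. vol_nohit with `δ = 1/(2m)`, then
`block` with `K = 1`, `r = 1`, `q = 2 m y^k` (so `α q ≤ 1`).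
-/

open Finset Filter MeasureTheory

namespace Pool.Agent.GLI

namespace HitTwo

theorem ev_yo (c : ℕ) : ∀ᶠ N : ℕ in atTop, c ≤ yo N := by
  filter_upwards [ev_loglog (max (c : ℝ) 1)] with N hN
  refine Nat.le_floor ?_
  have h1 : (1:ℝ) ≤ Real.log (Real.log N) := (le_max_right _ _).trans hN
  exact ((le_max_left _ _).trans hN).trans (le_self_pow₀ h1 (by norm_num))

end HitTwo

open Classical in
theorem hit_two (A D : ℕ) : ∃ B : ℕ, ∀ᶠ N : ℕ in atTop, ∀ α : ℝ, 0 < α →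
    α ≤ (N : ℝ) ^ (-(1 / 4 : ℝ)) → ∀ m : ℕ, 1 ≤ m → m ≤ lp N A →
    (((range ⌈1 / α⌉₊).filter fun d : ℕ =>
      ¬ RHit (yo N) (lp N B) m (d * α)).card : ℝ) ≤ 1 / α / Real.log N ^ D := by
  obtain ⟨Y2, hsupply⟩ := supply
  set B' : ℕ := D + A + 1 with hB'
  set B : ℕ := 10 * B' with hB
  refine ⟨B, ?_⟩
  have ev1 : ∀ᶠ N : ℕ in atTop, 2 * Real.log N ^ (A + B) * (N : ℝ) ^ (-(1 / 4 : ℝ)) ≤ 1 := by
    filter_upwards [ev_pow (-(1 / 4)) 0 (by norm_num) (A + B) 2] with N hN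
    calc 2 * Real.log N ^ (A + B) * (N : ℝ) ^ (-(1 / 4 : ℝ)) =
        2 * (N : ℝ) ^ (-(1 / 4 : ℝ)) * Real.log N ^ (A + B) := by ring
      _ ≤ (N : ℝ) ^ (0 : ℝ) := hN
      _ = 1 := Real.rpow_zero _
  filter_upwards [HitTwo.ev_yo Y2, HitTwo.ev_yo (2 ^ 10), ev1, ev_log 2,
    ev_loglog 2, ev_loglog (4 * B), ev_loglog (2 + B), ev_loglog_pow 1 one_pos 10 2] with
    N hy2 hy3 ev1 hL2 hl2 hlB hlB2 hl10
  intro α hα hαN m hm hmA
  set L : ℝ := Real.log N with hL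
  set ℓ : ℝ := Real.log L with hℓ
  rw [Real.rpow_one] at hl10
  set y : ℕ := yo N with hy
  have hL0 : (0:ℝ) < L := by linarith
  have hL1 : (1:ℝ) ≤ L := by linarith
  have hℓ0 : (0:ℝ) < ℓ := by linarith
  have hℓ1 : (1:ℝ) ≤ ℓ := by linarith
  have hys : (y : ℝ) ≤ ℓ ^ 10 := Nat.floor_le (by positivity)
  have hys' : ℓ ^ 10 < (y : ℝ) + 1 := Nat.lt_floor_add_one _
  have hyR : (2 ^ 10 : ℝ) ≤ y := by exact_mod_cast hy3
  have hy0 : (0:ℝ) < y := by linarith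
  have hy1' : (1:ℝ) ≤ y := by linarith
  have hm0 : (0:ℝ) < m := by exact_mod_cast hm
  have hmR : (m : ℝ) ≤ L ^ A := le_trans (by exact_mod_cast hmA) (lp_le N A hL0.le)
  have hℓ10L : ℓ ^ 10 ≤ L := by nlinarith [pow_pos hℓ0 10]
  -- `k`
  have hyB : y ≤ lp N B := by
    refine Nat.le_floor ?_
    calc (y : ℝ) ≤ L := hys.trans hℓ10L
      _ = L ^ 1 := (pow_one _).symm
      _ ≤ L ^ B := pow_le_pow_right₀ hL1 (by omega)
  set k : ℕ := Nat.log y (lp N B) with hk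
  have hk1 : 1 ≤ k := Nat.log_pos (by omega) hyB
  have hlp0 : lp N B ≠ 0 := by omega
  have hyk : y ^ k ≤ lp N B := Nat.pow_log_le_self y hlp0
  have hyk' : lp N B < y ^ (k + 1) := Nat.lt_pow_succ_log_self (by omega) _
  have hykR : (y : ℝ) ^ k ≤ L ^ B := by
    calc (y : ℝ) ^ k ≤ (lp N B : ℝ) := by exact_mod_cast hyk
      _ ≤ L ^ B := lp_le N B hL0.le
  have hklog : (k : ℝ) * Real.log y ≤ B * ℓ := by
    have h := Real.log_le_log (by positivity) hykR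
    rwa [Real.log_pow, Real.log_pow] at h
  have hlogy : 0 < Real.log y := Real.log_pos (by linarith)
  have hk0 : (0:ℝ) < k := by exact_mod_cast hk1
  -- supply
  obtain ⟨T, hTne, hT, hTc⟩ := hsupply y hy2 k hk1
  have hTc' : (ℓ ^ 8) ^ k ≤ T.card := by
    refine le_trans ?_ hTc
    refine pow_le_pow_left₀ (by positivity) ?_ k
    rw [le_div_iff₀ (by positivity)]
    have h1 : ℓ ^ 8 * (2 * k * Real.log y) ≤ ℓ ^ 8 * (2 * (B * ℓ)) := by
      have : 2 * (k : ℝ) * Real.log y ≤ 2 * (B * ℓ) := by linarith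
      exact mul_le_mul_of_nonneg_left this (by positivity)
    have h2 : ℓ ^ 10 / 2 ≤ y := by
      have : (2:ℝ) ≤ ℓ ^ 10 := by
        calc (2:ℝ) ≤ ℓ := hl2
          _ ≤ ℓ ^ 10 := le_self_pow₀ hℓ1 (by norm_num)
      linarith
    have h3 : ℓ ^ 8 * (2 * (B * ℓ)) ≤ ℓ ^ 10 / 2 := by
      have h4 : ℓ ^ 10 / 2 = ℓ ^ 9 * ℓ / 2 := by ring
      have h5 : ℓ ^ 8 * (2 * (B * ℓ)) = ℓ ^ 9 * (4 * B) / 2 := by ring
      rw [h4, h5]
      gcongr
    linarith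
  have hTc0 : (0:ℝ) < T.card := by
    have : (0:ℝ) < (ℓ ^ 8) ^ k := by positivity
    linarith
  -- volume
  have hvol := vol_nohit T hTne (y ^ k) (2 ^ k) (fun t ht => ⟨(hT t ht).1, (hT t ht).2.1,
    (hT t ht).2.2.2⟩) (1 / (2 * m)) (by positivity) (by
      rw [div_le_div_iff₀ (by positivity) (by norm_num)]
      have : (1:ℝ) ≤ m := by exact_mod_cast hm
      linarith)
  -- `2^k ≤ L^B'`
  have h2k : (2:ℝ) ^ k ≤ L ^ B' := by
    have h : ((2:ℝ) ^ k) ^ 10 ≤ (L ^ B') ^ 10 := by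
      calc ((2:ℝ) ^ k) ^ 10 = (2 ^ 10) ^ k := by rw [← pow_mul, ← pow_mul]; congr 1; ring
        _ ≤ (y : ℝ) ^ k := pow_le_pow_left₀ (by positivity) hyR k
        _ ≤ L ^ B := hykR
        _ = (L ^ B') ^ 10 := by rw [← pow_mul, hB]; congr 1; ring
    exact le_of_pow_le_pow_left₀ (by norm_num) (by positivity) h
  -- `L^B' ≤ ℓ^(k+1)`
  have hLk : L ^ B' ≤ ℓ ^ (k + 1) := by
    have h : (L ^ B') ^ 10 ≤ (ℓ ^ (k + 1)) ^ 10 := by
      calc (L ^ B') ^ 10 = L ^ B := by rw [← pow_mul, hB]; congr 1; ring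
        _ ≤ (lp N B : ℝ) + 1 := (lt_lp N B).le
        _ ≤ (y : ℝ) ^ (k + 1) := by exact_mod_cast hyk'
        _ ≤ (ℓ ^ 10) ^ (k + 1) := by gcongr
        _ = (ℓ ^ (k + 1)) ^ 10 := by rw [← pow_mul, ← pow_mul]; congr 1; ring
    exact le_of_pow_le_pow_left₀ (by norm_num) (by positivity) h
  have hν : (volume {β : ℝ | β ∈ Set.Ico (0 : ℝ) 1 ∧ ∀ t ∈ T, 1 / (2 * m) ≤ nr (t * β)}).toReal ≤
      1 / (2 * L ^ D) := by
    refine hvol.trans ?_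
    have e1 : (2 : ℝ) * (1 / (2 * m)) * T.card = T.card / m := by field_simp
    rw [e1]
    have e2 : Real.log ((y ^ k : ℕ) : ℝ) = k * Real.log y := by
      push_cast
      rw [Real.log_pow]
    have e3 : ((2 ^ k : ℕ) : ℝ) = (2 : ℝ) ^ k := by push_cast; rfl
    rw [e2, e3, div_div_eq_mul_div, div_le_div_iff₀ hTc0 (by positivity), one_mul]
    have h5 : (2 : ℝ) + B * ℓ ≤ ℓ ^ 2 := by nlinarith [Nat.cast_nonneg (α := ℝ) B]
    have h6 : (2 : ℝ) ^ k * (2 + k * Real.log y) * m * (2 * L ^ D) ≤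
        L ^ B' * ℓ ^ 2 * L ^ A * (2 * L ^ D) := by
      have h7 : (2 : ℝ) + k * Real.log y ≤ ℓ ^ 2 := by linarith
      gcongr
    have h8 : (L ^ B' * ℓ ^ 2 * L ^ A * (2 * L ^ D)) * ℓ ^ 8 ≤ (ℓ ^ 8) ^ k * ℓ ^ 8 := by
      calc (L ^ B' * ℓ ^ 2 * L ^ A * (2 * L ^ D)) * ℓ ^ 8 =
          L ^ B' * L ^ A * L ^ D * (2 * ℓ ^ 10) := by ring
        _ ≤ L ^ B' * L ^ A * L ^ D * L := by gcongr
        _ = (L ^ B') ^ 2 := by
            rw [← pow_add, ← pow_add, ← pow_succ, ← pow_mul]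
            congr 1
            omega
        _ ≤ (L ^ B') ^ 8 := pow_le_pow_right₀ (one_le_pow₀ hL1) (by norm_num)
        _ ≤ (ℓ ^ (k + 1)) ^ 8 := by gcongr
        _ = (ℓ ^ 8) ^ k * ℓ ^ 8 := by rw [← pow_succ, ← pow_mul, ← pow_mul]; congr 1; ring
    have h9 : L ^ B' * ℓ ^ 2 * L ^ A * (2 * L ^ D) ≤ (ℓ ^ 8) ^ k :=
      le_of_mul_le_mul_right h8 (by positivity)
    linarith
  -- block
  have hq1 : 1 ≤ 2 * m * y ^ k := by
    have : 0 < y ^ k := by positivity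
    have : 0 < 2 * m * y ^ k := by positivity
    omega
  have hblock := block T (y ^ k) m (2 * m * y ^ k) 1 1 α (1 / (2 * L ^ D))
    (fun t ht => ⟨(hT t ht).1, (hT t ht).2.1⟩) hm le_rfl hq1 le_rfl le_rfl hα (by
      push_cast
      rw [pow_one, one_mul]
      calc α * (2 * m * (y : ℝ) ^ k) ≤ (N : ℝ) ^ (-(1 / 4 : ℝ)) * (2 * L ^ A * L ^ B) := by
            gcongr
        _ = 2 * L ^ (A + B) * (N : ℝ) ^ (-(1 / 4 : ℝ)) := by rw [pow_add]; ring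
        _ ≤ 1 := ev1) hν
  have hsub : ((range ⌈1 / α⌉₊).filter fun d : ℕ =>
      ¬ RHit (yo N) (lp N B) m (d * α)) ⊆
      (range ⌈1 / α⌉₊).filter fun d : ℕ => ∀ j < 1, ∀ t ∈ T,
      1 ≤ nr (((2 * m * y ^ k : ℕ) : ℝ) ^ j * t * ((1 : ℕ) * (d * α))) * m := by
    intro d hd
    simp only [mem_filter] at hd ⊢
    refine ⟨hd.1, fun j hj t ht => ?_⟩
    by_contra hcon
    push Not at hcon
    have hj0 : j = 0 := by omega
    subst hj0
    refine hd.2 ⟨t, (hT t ht).1, (hT t ht).2.1.trans hyk, (hT t ht).2.2.1, ?_⟩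
    simpa using hcon
  have hcard : (((range ⌈1 / α⌉₊).filter fun d : ℕ =>
      ¬ RHit (yo N) (lp N B) m (d * α)).card : ℝ) ≤ 2 / α * (1 / (2 * L ^ D)) ^ 1 :=
    le_trans (by exact_mod_cast Finset.card_le_card hsub) hblock
  refine hcard.trans (le_of_eq ?_)
  field_simp

end Pool.Agent.GLI
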