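import Pool.Agent.GLI.AllGood
import Pool.Agent.GLI.FreeCount
import Pool.Agent.GLI.HitOne
import Pool.Agent.GLI.HitTwo
import Pool.Agent.GLI.Ev

set_option autoImplicit false

/-!
Module HitsA. `all_hit`: B2 from hit_two (A, D + A + 2), B1 from hit_one (D + A + B2 + 3, A + B2); union over
`m ≤ yo N` (≤ log N), `r ≤ (log N)^(A+B2)`, `m ≤ (log N)^A`.
`good_of_allHit`: good_all with `y0 = yz N, y1 = yo N, Y = lp N A, R1 = lp N B1, R2 = lp N B2` (hit_iff);
`yz N ! * yz N ≤ log N` and `yo N ≤ log N` for large `N`, so `R = lp N (A + B1 + B2 + 3)` works.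
-/

open Finset Filter

namespace Pool.Agent.GLI

theorem hitsA_yo_le : ∀ᶠ N : ℕ in atTop, (yo N : ℝ) ≤ Real.log N := by
  filter_upwards [ev_loglog_pow 1 one_pos 10 1, ev_loglog 0] with N h1 h2
  unfold yo
  refine le_trans (Nat.floor_le (by positivity)) ?_
  simpa using h1

theorem hitsA_yz_fact : ∀ᶠ N : ℕ in atTop,
    ((Nat.factorial (yz N) * yz N : ℕ) : ℝ) ≤ Real.log N := by
  filter_upwards [ev_loglog 1, ev_log 1] with N h1 h2
  have h0 : (0 : ℝ) ≤ Real.log (Real.log N) := by linarith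
  have hs : (1 : ℝ) ≤ Real.sqrt (Real.log (Real.log N)) := by
    rw [show (1 : ℝ) = Real.sqrt 1 by simp]
    exact Real.sqrt_le_sqrt h1
  have hy1 : 1 ≤ yz N := by
    unfold yz
    exact Nat.le_floor (by simpa using hs)
  have hyr : (1 : ℝ) ≤ (yz N : ℝ) := by exact_mod_cast hy1
  have hy0 : (0 : ℝ) < (yz N : ℝ) := by linarith
  have hle : (yz N : ℝ) ≤ Real.sqrt (Real.log (Real.log N)) := by
    unfold yz
    exact Nat.floor_le (Real.sqrt_nonneg _)
  have hsq : (yz N : ℝ) ^ 2 ≤ Real.log (Real.log N) := by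
    calc (yz N : ℝ) ^ 2 ≤ Real.sqrt (Real.log (Real.log N)) ^ 2 :=
          pow_le_pow_left₀ hy0.le hle 2
      _ = Real.log (Real.log N) := Real.sq_sqrt h0
  have hf : ((Nat.factorial (yz N) * yz N : ℕ) : ℝ) ≤ (yz N : ℝ) ^ (yz N + 1) := by
    have h3 : Nat.factorial (yz N) * yz N ≤ yz N ^ (yz N + 1) := by
      rw [pow_succ]
      exact Nat.mul_le_mul_right _ (Nat.factorial_le_pow _)
    exact_mod_cast h3
  refine le_trans hf ?_
  have hlogN : (0 : ℝ) < Real.log N := by linarith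
  rw [← Real.log_le_log_iff (by positivity) hlogN, Real.log_pow]
  have hl : Real.log (yz N) ≤ (yz N : ℝ) - 1 := Real.log_le_sub_one_of_pos hy0
  push_cast
  calc ((yz N : ℝ) + 1) * Real.log (yz N) ≤ ((yz N : ℝ) + 1) * ((yz N : ℝ) - 1) :=
        mul_le_mul_of_nonneg_left hl (by linarith)
    _ ≤ (yz N : ℝ) ^ 2 := by nlinarith
    _ ≤ _ := hsq

open Classical in
theorem all_hit (A D : ℕ) : ∃ B2 B1 : ℕ, ∀ᶠ N : ℕ in atTop, ∀ α : ℝ, 0 < α →
    α ≤ (N : ℝ) ^ (-(1 / 4 : ℝ)) →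
    (((range ⌈1 / α⌉₊).filter fun d : ℕ => ¬ AllHit N A B2 B1 (d * α)).card : ℝ) ≤
      1 / α / Real.log N ^ D := by
  obtain ⟨B2, hB2⟩ := hit_two A (D + A + 1)
  obtain ⟨B1, hB1⟩ := hit_one (D + A + B2 + 2) (A + B2)
  refine ⟨B2, B1, ?_⟩
  filter_upwards [hB2, hB1, hitsA_yo_le, ev_log 2] with N h2 h1 hyo hlog α hα hαN
  have hlog0 : (0 : ℝ) < Real.log N := by linarith
  set L := Real.log N with hL
  set M := ⌈1 / α⌉₊ with hM
  set F1 : ℕ → ℕ → Finset ℕ := fun r m =>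
    (range M).filter fun d : ℕ => ¬ RHit (yz N) (lp N B1) m (r * (d * α)) with hF1
  set F2 : ℕ → Finset ℕ := fun m =>
    (range M).filter fun d : ℕ => ¬ RHit (yo N) (lp N B2) m (d * α) with hF2
  have hsub : ((range M).filter fun d : ℕ => ¬ AllHit N A B2 B1 (d * α)) ⊆
      ((Icc 1 (lp N A * lp N B2)) ×ˢ (Icc 1 (yo N))).biUnion (fun w => F1 w.1 w.2) ∪
        (Icc 1 (lp N A)).biUnion F2 := by
    intro d hd
    rw [mem_filter] at hd
    obtain ⟨hdr, hd2⟩ := hd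
    unfold AllHit at hd2
    rw [not_and_or] at hd2
    rw [mem_union]
    rcases hd2 with hd2 | hd2
    · left
      push Not at hd2
      obtain ⟨r, hr1, hr2, m, hm1, hm2, hn⟩ := hd2
      rw [mem_biUnion]
      refine ⟨(r, m), ?_, ?_⟩
      · rw [mem_product, mem_Icc, mem_Icc]
        exact ⟨⟨hr1, hr2⟩, ⟨hm1, hm2⟩⟩
      · rw [hF1, mem_filter]
        exact ⟨hdr, hn⟩
    · right
      push Not at hd2
      obtain ⟨m, hm1, hm2, hn⟩ := hd2
      rw [mem_biUnion]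
      refine ⟨m, ?_, ?_⟩
      · rw [mem_Icc]
        exact ⟨hm1, hm2⟩
      · rw [hF2, mem_filter]
        exact ⟨hdr, hn⟩
  have hlpA : (lp N A : ℝ) ≤ L ^ A := lp_le N A hlog0.le
  have hlpB2 : (lp N B2 : ℝ) ≤ L ^ B2 := lp_le N B2 hlog0.le
  have hα0 : (0 : ℝ) ≤ 1 / α := by positivity
  have hc1 : ((((Icc 1 (lp N A * lp N B2)) ×ˢ (Icc 1 (yo N))).biUnion
      (fun w => F1 w.1 w.2)).card : ℝ) ≤ 1 / α / L ^ D / L := by
    have h3 : ((((Icc 1 (lp N A * lp N B2)) ×ˢ (Icc 1 (yo N))).biUnion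
      (fun w => F1 w.1 w.2)).card : ℝ) ≤
        ∑ w ∈ (Icc 1 (lp N A * lp N B2)) ×ˢ (Icc 1 (yo N)), ((F1 w.1 w.2).card : ℝ) := by
      have := card_biUnion_le (s := (Icc 1 (lp N A * lp N B2)) ×ˢ (Icc 1 (yo N)))
        (t := fun w => F1 w.1 w.2)
      exact_mod_cast this
    have h4 : ∑ w ∈ (Icc 1 (lp N A * lp N B2)) ×ˢ (Icc 1 (yo N)), ((F1 w.1 w.2).card : ℝ) ≤
        ∑ w ∈ (Icc 1 (lp N A * lp N B2)) ×ˢ (Icc 1 (yo N)), 1 / α / L ^ (D + A + B2 + 2) := by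
      refine sum_le_sum fun w hw => ?_
      rw [mem_product, mem_Icc, mem_Icc] at hw
      obtain ⟨⟨hr1, hr2⟩, ⟨hm1, hm2⟩⟩ := hw
      refine h1 α hα hαN w.1 hr1 ?_ w.2 hm1 hm2
      calc (w.1 : ℝ) ≤ ((lp N A * lp N B2 : ℕ) : ℝ) := by exact_mod_cast hr2
        _ = (lp N A : ℝ) * (lp N B2 : ℝ) := by push_cast; ring
        _ ≤ L ^ A * L ^ B2 := mul_le_mul hlpA hlpB2 (Nat.cast_nonneg _) (by positivity)
        _ = L ^ (A + B2) := by rw [pow_add]
    refine le_trans h3 (le_trans h4 ?_)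
    rw [sum_const, nsmul_eq_mul, card_product, Nat.card_Icc, Nat.card_Icc]
    simp only [Nat.add_sub_cancel]
    push_cast
    have h5 : (lp N A : ℝ) * (lp N B2 : ℝ) * (yo N : ℝ) ≤ L ^ A * L ^ B2 * L :=
      mul_le_mul (mul_le_mul hlpA hlpB2 (Nat.cast_nonneg _) (by positivity)) hyo
        (Nat.cast_nonneg _) (by positivity)
    calc (lp N A : ℝ) * (lp N B2 : ℝ) * (yo N : ℝ) * (1 / α / L ^ (D + A + B2 + 2))
        ≤ (L ^ A * L ^ B2 * L) * (1 / α / L ^ (D + A + B2 + 2)) :=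
          mul_le_mul_of_nonneg_right h5 (by positivity)
      _ = 1 / α / L ^ D / L := by
          have : L ^ (D + A + B2 + 2) = L ^ A * L ^ B2 * L * L ^ D * L := by ring
          rw [this]
          field_simp
  have hc2 : (((Icc 1 (lp N A)).biUnion F2).card : ℝ) ≤ 1 / α / L ^ D / L := by
    have h3 : (((Icc 1 (lp N A)).biUnion F2).card : ℝ) ≤
        ∑ m ∈ Icc 1 (lp N A), ((F2 m).card : ℝ) := by
      have := card_biUnion_le (s := Icc 1 (lp N A)) (t := F2)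
      exact_mod_cast this
    have h4 : ∑ m ∈ Icc 1 (lp N A), ((F2 m).card : ℝ) ≤
        ∑ m ∈ Icc 1 (lp N A), 1 / α / L ^ (D + A + 1) := by
      refine sum_le_sum fun m hm => ?_
      rw [mem_Icc] at hm
      exact h2 α hα hαN m hm.1 hm.2
    refine le_trans h3 (le_trans h4 ?_)
    rw [sum_const, nsmul_eq_mul, Nat.card_Icc]
    simp only [Nat.add_sub_cancel]
    calc (lp N A : ℝ) * (1 / α / L ^ (D + A + 1))
        ≤ L ^ A * (1 / α / L ^ (D + A + 1)) :=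
          mul_le_mul_of_nonneg_right hlpA (by positivity)
      _ = 1 / α / L ^ D / L := by
          have : L ^ (D + A + 1) = L ^ A * L ^ D * L := by ring
          rw [this]
          field_simp
  calc (((range M).filter fun d : ℕ => ¬ AllHit N A B2 B1 (d * α)).card : ℝ)
      ≤ ((((Icc 1 (lp N A * lp N B2)) ×ˢ (Icc 1 (yo N))).biUnion (fun w => F1 w.1 w.2) ∪
        (Icc 1 (lp N A)).biUnion F2).card : ℝ) := by exact_mod_cast card_le_card hsub
    _ ≤ ((((Icc 1 (lp N A * lp N B2)) ×ˢ (Icc 1 (yo N))).biUnion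
          (fun w => F1 w.1 w.2)).card : ℝ) + (((Icc 1 (lp N A)).biUnion F2).card : ℝ) := by
        exact_mod_cast card_union_le _ _
    _ ≤ 1 / α / L ^ D / L + 1 / α / L ^ D / L := add_le_add hc1 hc2
    _ = (1 / α / L ^ D) * (2 / L) := by ring
    _ ≤ (1 / α / L ^ D) * 1 := by
        refine mul_le_mul_of_nonneg_left ?_ (by positivity)
        rw [div_le_one hlog0]
        exact hlog
    _ = 1 / α / L ^ D := mul_one _

theorem hitsA_one_le_lp (N A : ℕ) (h : 1 ≤ Real.log N) : 1 ≤ lp N A := by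
  unfold lp
  refine Nat.le_floor ?_
  simpa using one_le_pow₀ (n := A) h

theorem good_of_allHit (A B2 B1 : ℕ) : ∃ C : ℕ, ∀ᶠ N : ℕ in atTop, ∀ κ : ℤ, κ = 1 ∨ κ = -1 →
    ∀ n : ℕ, AllHit N A B2 B1 ((n : ℝ) / N) → Free κ N (lp N C) n →
    ∀ m : ℕ, 1 ≤ m → m ≤ lp N A → GoodAt N m n := by
  refine ⟨A + B2 + B1 + 2, ?_⟩
  filter_upwards [hitsA_yo_le, hitsA_yz_fact, ev_log 1, ev_loglog 1, eventually_ge_atTop 2]
    with N hyo hyz hlog hll hN κ hκ n hA hF
  have hlog0 : (0 : ℝ) < Real.log N := by linarith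
  have hN1 : 1 ≤ N := by omega
  have hN0 : (N : ℝ) ≠ 0 := by
    have : N ≠ 0 := by omega
    exact_mod_cast this
  set L := Real.log N with hL
  have hlpA : (lp N A : ℝ) ≤ L ^ A := lp_le N A hlog0.le
  have hlpB2 : (lp N B2 : ℝ) ≤ L ^ B2 := lp_le N B2 hlog0.le
  have hlpB1 : (lp N B1 : ℝ) ≤ L ^ B1 := lp_le N B1 hlog0.le
  have hyz1 : 1 ≤ yz N := by
    unfold yz
    refine Nat.le_floor ?_
    rw [Nat.cast_one, show (1 : ℝ) = Real.sqrt 1 by simp]
    exact Real.sqrt_le_sqrt hll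
  have hyo1 : 1 ≤ yo N := by
    unfold yo
    refine Nat.le_floor ?_
    simpa using one_le_pow₀ (n := 10) hll
  refine good_all hκ hN hyz1 hyo1 (hitsA_one_le_lp N A hlog) (hitsA_one_le_lp N B1 hlog)
    (hitsA_one_le_lp N B2 hlog) ?_ hF ?_ ?_
  · unfold lp
    refine Nat.le_floor ?_
    change ((lp N A * lp N B2 * yo N * lp N B1 * (Nat.factorial (yz N) * yz N) : ℕ) : ℝ) ≤ _
    have e : ((lp N A * lp N B2 * yo N * lp N B1 * (Nat.factorial (yz N) * yz N) : ℕ) : ℝ) =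
        (lp N A : ℝ) * (lp N B2 : ℝ) * (yo N : ℝ) * (lp N B1 : ℝ) *
          ((Nat.factorial (yz N) * yz N : ℕ) : ℝ) := by
      push_cast
      ring
    rw [e]
    calc (lp N A : ℝ) * (lp N B2 : ℝ) * (yo N : ℝ) * (lp N B1 : ℝ) *
          ((Nat.factorial (yz N) * yz N : ℕ) : ℝ)
        ≤ L ^ A * L ^ B2 * L * L ^ B1 * L := by
          refine mul_le_mul (mul_le_mul (mul_le_mul (mul_le_mul hlpA hlpB2 (Nat.cast_nonneg _)
            (by positivity)) hyo (Nat.cast_nonneg _) (by positivity)) hlpB1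
            (Nat.cast_nonneg _) (by positivity)) hyz (Nat.cast_nonneg _) (by positivity)
      _ = L ^ (A + B2 + B1 + 2) := by ring
  · intro r hr1 hr2 m hm1 hm2
    rw [hit_iff N _ _ _ _ hN1]
    have := hA.1 r hr1 hr2 m hm1 hm2
    have e : ((r * n : ℕ) : ℝ) / N = r * ((n : ℝ) / N) := by
      push_cast
      ring
    rw [e]
    exact this
  · intro m hm1 hm2
    rw [hit_iff N _ _ _ _ hN1]
    exact hA.2 m hm1 hm2

end Pool.Agent.GLI
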