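import Pool.Agent.GLI.LOne
import Pool.Agent.GLI.Ev

set_option autoImplicit false

/-!
Module HpMul. `hp n = 2^ω(n)` if all primes `p ∣ n` have `χ(p) = 1`, else `0` (multiplicative).
`hp_sq`: for `n` prime to `N`, `hp n = ∑_{m² ∣ n} μ(m) rr χ (n/m²)` (multiplicative; check prime powers:
split `(k+1) - (k-1) = 2`, inert `r(p^k) - r(p^(k-2)) = 0` for `k ≥ 1`).
`hp_conv`: `χ(n) = ∑_{e ∣ n} hp(e) lam(n/e) [n/e prime to N]` (both sides multiplicative; split: `1 = (-1)^k + 2 ∑_{j≥1} (-1)^(k-j)`;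
`p ∣ N`: both sides `0`).
-/

open Finset Filter

namespace Pool.Agent.GLI

open Classical in
noncomputable def hp {N : ℕ} (χ : DirichletCharacter ℂ N) (n : ℕ) : ℝ :=
  if n ≠ 0 ∧ ∀ p : ℕ, p.Prime → p ∣ n → χ (p : ZMod N) = 1 then 2 ^ n.primeFactors.card else 0

/-- `χ` as an arithmetic function. -/
noncomputable def chiA {N : ℕ} (χ : DirichletCharacter ℂ N) : ArithmeticFunction ℝ :=
  ⟨fun n => if n = 0 then 0 else (χ (n : ZMod N)).re, by simp⟩

/-- `hp` as an arithmetic function. -/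
noncomputable def hpA {N : ℕ} (χ : DirichletCharacter ℂ N) : ArithmeticFunction ℝ :=
  ⟨fun n => hp χ n, by simp [hp]⟩

/-- `lam`, cut off to the integers prime to `N`. -/
noncomputable def lamA (N : ℕ) : ArithmeticFunction ℝ :=
  ⟨fun n => if n = 0 then 0 else if n.Coprime N then (lam n : ℝ) else 0, by simp⟩

open Classical in
/-- `μ(√n)` on squares. -/
noncomputable def musqA : ArithmeticFunction ℝ :=
  ⟨fun n => if n ≠ 0 ∧ IsSquare n then (ArithmeticFunction.moebius (Nat.sqrt n) : ℝ) else 0, by simp⟩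

/-- `rr` as an arithmetic function. -/
noncomputable def rrA {N : ℕ} [NeZero N] (χ : DirichletCharacter ℂ N) : ArithmeticFunction ℝ :=
  ⟨fun n => rr χ n, by simp [rr]⟩

theorem RealChar.im_eq {N : ℕ} {χ : DirichletCharacter ℂ N} (h : RealChar χ) (a : ZMod N) :
    (χ a).im = 0 := by
  rcases h a with h | h | h <;> rw [h] <;> simp

theorem RealChar.re_mul {N : ℕ} {χ : DirichletCharacter ℂ N} (h : RealChar χ) (a b : ℕ) :
    (χ ((a * b : ℕ) : ZMod N)).re = (χ (a : ZMod N)).re * (χ (b : ZMod N)).re := by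
  rw [Nat.cast_mul, map_mul, Complex.mul_re, h.im_eq, h.im_eq]
  ring

theorem RealChar.re_pow {N : ℕ} {χ : DirichletCharacter ℂ N} (h : RealChar χ) (a k : ℕ) :
    (χ ((a ^ k : ℕ) : ZMod N)).re = (χ (a : ZMod N)).re ^ k := by
  induction k with
  | zero => simp
  | succ k ih => rw [pow_succ, h.re_mul, ih, pow_succ]

theorem chiA_mult {N : ℕ} {χ : DirichletCharacter ℂ N} (h : RealChar χ) :
    (chiA χ).IsMultiplicative := by
  rw [ArithmeticFunction.IsMultiplicative.iff_ne_zero]
  refine ⟨by simp [chiA], ?_⟩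
  intro m n hm hn _
  simp only [chiA, ArithmeticFunction.coe_mk]
  rw [if_neg hm, if_neg hn, if_neg (mul_ne_zero hm hn), h.re_mul]

theorem lamA_mult (N : ℕ) : (lamA N).IsMultiplicative := by
  rw [ArithmeticFunction.IsMultiplicative.iff_ne_zero]
  refine ⟨by simp [lamA, lam_one], ?_⟩
  intro m n hm hn _
  simp only [lamA, ArithmeticFunction.coe_mk]
  rw [if_neg hm, if_neg hn, if_neg (mul_ne_zero hm hn)]
  by_cases h1 : m.Coprime N
  · by_cases h2 : n.Coprime N
    · rw [if_pos (Nat.Coprime.mul_left h1 h2), if_pos h1, if_pos h2, lam_mul hm hn]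
      push_cast
      ring
    · have h3 : ¬ (m * n).Coprime N := fun hh => h2 (Nat.Coprime.coprime_mul_left hh)
      rw [if_neg h3, if_neg h2]
      ring
  · have h3 : ¬ (m * n).Coprime N := fun hh => h1 (Nat.Coprime.coprime_mul_right hh)
    rw [if_neg h3, if_neg h1]
    ring

theorem hpA_mult {N : ℕ} (χ : DirichletCharacter ℂ N) : (hpA χ).IsMultiplicative := by
  classical
  rw [ArithmeticFunction.IsMultiplicative.iff_ne_zero]
  constructor
  · simp only [hpA, ArithmeticFunction.coe_mk, hp]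
    rw [if_pos]
    · simp
    · refine ⟨one_ne_zero, fun p hp h1 => ?_⟩
      exact absurd (Nat.dvd_one.mp h1) hp.one_lt.ne'
  intro m n hm hn hmn
  simp only [hpA, ArithmeticFunction.coe_mk, hp]
  by_cases h1 : ∀ p : ℕ, p.Prime → p ∣ m → χ (p : ZMod N) = 1
  · by_cases h2 : ∀ p : ℕ, p.Prime → p ∣ n → χ (p : ZMod N) = 1
    · have h4 : m * n ≠ 0 ∧ ∀ p : ℕ, p.Prime → p ∣ m * n → χ (p : ZMod N) = 1 := by
        refine ⟨mul_ne_zero hm hn, fun p hp hd => ?_⟩
        rcases (hp.dvd_mul).mp hd with h3 | h3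
        · exact h1 p hp h3
        · exact h2 p hp h3
      rw [if_pos h4, if_pos ⟨hm, h1⟩, if_pos ⟨hn, h2⟩]
      rw [Nat.Coprime.primeFactors_mul hmn, card_union_of_disjoint hmn.disjoint_primeFactors,
          pow_add]
    · have h4 : ¬ (m * n ≠ 0 ∧ ∀ p : ℕ, p.Prime → p ∣ m * n → χ (p : ZMod N) = 1) := by
        rintro ⟨-, hh⟩
        exact h2 fun p hp hd => hh p hp (hd.mul_left m)
      have h5 : ¬ (n ≠ 0 ∧ ∀ p : ℕ, p.Prime → p ∣ n → χ (p : ZMod N) = 1) := fun hh => h2 hh.2
      rw [if_neg h4, if_neg h5, mul_zero]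
  · have h4 : ¬ (m * n ≠ 0 ∧ ∀ p : ℕ, p.Prime → p ∣ m * n → χ (p : ZMod N) = 1) := by
      rintro ⟨-, hh⟩
      exact h1 fun p hp hd => hh p hp (hd.mul_right n)
    have h5 : ¬ (m ≠ 0 ∧ ∀ p : ℕ, p.Prime → p ∣ m → χ (p : ZMod N) = 1) := fun hh => h1 hh.2
    rw [if_neg h4, if_neg h5, zero_mul]

theorem musqA_mult : musqA.IsMultiplicative := by
  classical
  rw [ArithmeticFunction.IsMultiplicative.iff_ne_zero]
  constructor
  · simp [musqA]
  intro m n hm hn hmn
  by_cases h1 : IsSquare m ∧ IsSquare n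
  · obtain ⟨⟨a, rfl⟩, ⟨b, rfl⟩⟩ := h1
    have h2 : a * a * (b * b) = (a * b) * (a * b) := by ring
    have e1 : musqA (a * a) = (ArithmeticFunction.moebius a : ℝ) := by
      simp only [musqA, ArithmeticFunction.coe_mk]
      rw [if_pos ⟨hm, ⟨a, rfl⟩⟩, Nat.sqrt_eq]
    have e2 : musqA (b * b) = (ArithmeticFunction.moebius b : ℝ) := by
      simp only [musqA, ArithmeticFunction.coe_mk]
      rw [if_pos ⟨hn, ⟨b, rfl⟩⟩, Nat.sqrt_eq]
    have e3 : musqA (a * a * (b * b)) = (ArithmeticFunction.moebius (a * b) : ℝ) := by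
      rw [h2]
      simp only [musqA, ArithmeticFunction.coe_mk]
      rw [if_pos ⟨by rw [← h2]; exact mul_ne_zero hm hn, ⟨a * b, rfl⟩⟩, Nat.sqrt_eq]
    rw [e1, e2, e3]
    have h3 : a.Coprime b := (Nat.Coprime.coprime_mul_right hmn).coprime_mul_right_right
    rw [ArithmeticFunction.isMultiplicative_moebius.map_mul_of_coprime h3]
    push_cast
    ring
  · have h2 : ¬ IsSquare (m * n) := by
      rintro ⟨c, hc⟩
      apply h1
      constructor
      · obtain ⟨d, hd⟩ := exists_eq_pow_of_mul_eq_pow (Nat.isUnit_iff.mpr hmn) (show m * n = c ^ 2 by rw [hc]; ring)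
        exact ⟨d, by rw [hd]; ring⟩
      · obtain ⟨d, hd⟩ := exists_eq_pow_of_mul_eq_pow (Nat.isUnit_iff.mpr hmn.symm) (show n * m = c ^ 2 by rw [mul_comm, hc]; ring)
        exact ⟨d, by rw [hd]; ring⟩
    have key : ∀ a : ℕ, ¬ IsSquare a → musqA a = 0 := by
      intro a ha
      simp only [musqA, ArithmeticFunction.coe_mk]
      rw [if_neg (fun hh => ha hh.2)]
    rw [key _ h2]
    by_cases h3 : IsSquare m
    · have h4 : ¬ IsSquare n := fun hh => h1 ⟨h3, hh⟩
      rw [key _ h4, mul_zero]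
    · rw [key _ h3, zero_mul]

theorem rrA_eq {N : ℕ} [NeZero N] (χ : DirichletCharacter ℂ N) :
    rrA χ = chiA χ * (ArithmeticFunction.zeta : ArithmeticFunction ℝ) := by
  ext n
  rw [ArithmeticFunction.coe_mul_zeta_apply]
  simp only [rrA, chiA, ArithmeticFunction.coe_mk, rr]
  refine sum_congr rfl fun d hd => ?_
  rw [if_neg (Nat.pos_of_mem_divisors hd).ne']

theorem rrA_mult {N : ℕ} [NeZero N] {χ : DirichletCharacter ℂ N} (h : RealChar χ) :
    (rrA χ).IsMultiplicative := by
  rw [rrA_eq]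
  exact (chiA_mult h).mul (ArithmeticFunction.isMultiplicative_zeta.natCast)

/-- Convolutions at prime powers. -/
theorem conv_prime_pow (f g : ArithmeticFunction ℝ) {p : ℕ} (hp : p.Prime) (k : ℕ) :
    (f * g) (p ^ k) = ∑ j ∈ range (k + 1), f (p ^ j) * g (p ^ (k - j)) := by
  rw [ArithmeticFunction.mul_apply, Nat.sum_divisorsAntidiagonal (fun a b => f a * g b),
    Nat.sum_divisors_prime_pow hp]
  refine sum_congr rfl fun j hj => ?_
  have hj' : j ≤ k := by
    have := mem_range.mp hj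
    omega
  rw [Nat.pow_div hj' hp.pos]

theorem hpA_prime_pow {N : ℕ} (χ : DirichletCharacter ℂ N) {p : ℕ} (hp : p.Prime) (k : ℕ) :
    hpA χ (p ^ (k + 1)) = open Classical in if χ (p : ZMod N) = 1 then 2 else 0 := by
  classical
  simp only [hpA, ArithmeticFunction.coe_mk, Pool.Agent.GLI.hp]
  by_cases h1 : χ (p : ZMod N) = 1
  · rw [if_pos h1, if_pos]
    · rw [Nat.primeFactors_prime_pow (Nat.succ_ne_zero k) hp]
      simp
    · refine ⟨pow_ne_zero _ hp.ne_zero, fun q hq hd => ?_⟩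
      have : q = p := (Nat.prime_dvd_prime_iff_eq hq hp).mp (hq.dvd_of_dvd_pow hd)
      rw [this]
      exact h1
  · rw [if_neg h1, if_neg]
    rintro ⟨-, hh⟩
    exact h1 (hh p hp (dvd_pow_self p (Nat.succ_ne_zero k)))

theorem lamA_prime_pow {N : ℕ} {p : ℕ} (hp : p.Prime) (hpN : ¬ p ∣ N) (k : ℕ) :
    lamA N (p ^ k) = (-1) ^ k := by
  have h1 : (p ^ k).Coprime N := Nat.Coprime.pow_left k ((Nat.Prime.coprime_iff_not_dvd hp).mpr hpN)
  simp only [lamA, ArithmeticFunction.coe_mk]
  rw [if_neg (pow_ne_zero _ hp.ne_zero), if_pos h1]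
  unfold lam
  rw [ArithmeticFunction.cardFactors_apply_prime_pow hp]
  push_cast
  ring

theorem lamA_prime_pow' {N : ℕ} {p : ℕ} (hp : p.Prime) (hpN : p ∣ N) (k : ℕ) :
    lamA N (p ^ (k + 1)) = 0 := by
  have h1 : ¬ (p ^ (k + 1)).Coprime N := by
    intro hh
    have h2 : p.Coprime N := Nat.Coprime.coprime_dvd_left (dvd_pow_self p (Nat.succ_ne_zero k)) hh
    exact ((Nat.Prime.coprime_iff_not_dvd hp).mp h2) hpN
  simp only [lamA, ArithmeticFunction.coe_mk]
  rw [if_neg (pow_ne_zero _ hp.ne_zero), if_neg h1]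

theorem hp_one {N : ℕ} (χ : DirichletCharacter ℂ N) : hpA χ 1 = 1 := (hpA_mult χ).map_one

theorem chi_unit {N : ℕ} [NeZero N] {χ : DirichletCharacter ℂ N} (h : RealChar χ) {p : ℕ}
    (hp : p.Prime) (hpN : ¬ p ∣ N) : χ (p : ZMod N) = 1 ∨ χ (p : ZMod N) = -1 := by
  have h1 : IsUnit (p : ZMod N) := (ZMod.isUnit_iff_coprime p N).mpr
    ((Nat.Prime.coprime_iff_not_dvd hp).mpr hpN)
  have h2 : χ (p : ZMod N) ≠ 0 := (h1.map χ).ne_zero
  rcases h (p : ZMod N) with h3 | h3 | h3
  · exact absurd h3 h2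
  · exact Or.inl h3
  · exact Or.inr h3

theorem chi_nonunit {N : ℕ} [NeZero N] (χ : DirichletCharacter ℂ N) {p : ℕ}
    (hp : p.Prime) (hpN : p ∣ N) : χ (p : ZMod N) = 0 := by
  apply χ.map_nonunit
  rw [ZMod.isUnit_iff_coprime]
  intro hh
  exact ((Nat.Prime.coprime_iff_not_dvd hp).mp hh) hpN

theorem chiA_prime_pow {N : ℕ} {χ : DirichletCharacter ℂ N} (h : RealChar χ) {p : ℕ}
    (hp : p.Prime) (k : ℕ) : chiA χ (p ^ k) = (χ (p : ZMod N)).re ^ k := by
  simp only [chiA, ArithmeticFunction.coe_mk]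
  rw [if_neg (pow_ne_zero _ hp.ne_zero), h.re_pow]

theorem conv_pp {N : ℕ} [NeZero N] {χ : DirichletCharacter ℂ N} (h : RealChar χ) {p : ℕ}
    (hp : p.Prime) (k : ℕ) : (hpA χ * lamA N) (p ^ k) = chiA χ (p ^ k) := by
  classical
  by_cases hpN : p ∣ N
  · rw [chiA_prime_pow h hp, chi_nonunit χ hp hpN]
    rcases k with - | k
    · rw [conv_prime_pow _ _ hp]
      simp [hp_one, (lamA_mult N).map_one]
    · rw [conv_prime_pow _ _ hp]
      rw [sum_eq_zero]
      · simp
      · intro j hj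
        rcases j with - | j
        · simp only [Nat.sub_zero]
          rw [lamA_prime_pow' hp hpN, mul_zero]
        · rw [hpA_prime_pow χ hp, chi_nonunit χ hp hpN]
          simp
  · have key : ∀ k : ℕ, (hpA χ * lamA N) (p ^ (k + 1)) =
        - (hpA χ * lamA N) (p ^ k) + (if χ (p : ZMod N) = 1 then 2 else 0) := by
      intro k
      rw [conv_prime_pow _ _ hp, conv_prime_pow _ _ hp, sum_range_succ]
      simp only [Nat.sub_self, pow_zero]
      rw [(lamA_mult N).map_one, mul_one, hpA_prime_pow χ hp]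
      congr 1
      rw [← sum_neg_distrib]
      refine sum_congr rfl fun j hj => ?_
      have hj' : j ≤ k := by
        have := mem_range.mp hj
        omega
      rw [lamA_prime_pow hp hpN, lamA_prime_pow hp hpN]
      have h1 : k + 1 - j = (k - j) + 1 := by omega
      rw [h1, pow_succ]
      ring
    rw [chiA_prime_pow h hp]
    induction k with
    | zero =>
      rw [conv_prime_pow _ _ hp]
      simp [hp_one, (lamA_mult N).map_one]
    | succ k ih =>
      rw [key, ih]
      rcases chi_unit h hp hpN with h1 | h1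
      · rw [h1]
        simp
        norm_num
      · rw [h1, if_neg]
        · simp only [Complex.neg_re, Complex.one_re]
          rw [pow_succ]
          ring
        · intro h2
          have := congrArg Complex.re h2
          simp at this
          norm_num at this

open Classical in
theorem hp_conv {N : ℕ} [NeZero N] (χ : DirichletCharacter ℂ N) (h : RealChar χ) (n : ℕ)
    (hn : 1 ≤ n) :
    (χ (n : ZMod N)).re =
      ∑ e ∈ n.divisors, if (n / e).Coprime N then hp χ e * (lam (n / e) : ℝ) else 0 := by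
  have h1 : hpA χ * lamA N = chiA χ := by
    rw [ArithmeticFunction.IsMultiplicative.eq_iff_eq_on_prime_powers _ ((hpA_mult χ).mul (lamA_mult N)) _ (chiA_mult h)]
    intro p i hp
    exact conv_pp h hp i
  have h2 : chiA χ n = (χ (n : ZMod N)).re := by
    simp only [chiA, ArithmeticFunction.coe_mk]
    rw [if_neg (by omega)]
  rw [← h2, ← h1, ArithmeticFunction.mul_apply, Nat.sum_divisorsAntidiagonal (fun a b => hpA χ a * lamA N b)]
  refine sum_congr rfl fun e he => ?_
  have h3 : n / e ≠ 0 := by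
    have h4 := Nat.dvd_of_mem_divisors he
    have h5 := Nat.div_pos (Nat.le_of_dvd hn h4) (Nat.pos_of_mem_divisors he)
    omega
  simp only [hpA, lamA, ArithmeticFunction.coe_mk]
  rw [if_neg h3]
  split_ifs <;> simp

theorem rrA_prime_pow {N : ℕ} [NeZero N] {χ : DirichletCharacter ℂ N} (h : RealChar χ) {p : ℕ}
    (hp : p.Prime) (k : ℕ) : rrA χ (p ^ k) = ∑ j ∈ range (k + 1), (χ (p : ZMod N)).re ^ j := by
  simp only [rrA, ArithmeticFunction.coe_mk, rr]
  rw [Nat.sum_divisors_prime_pow hp]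
  refine sum_congr rfl fun j _ => ?_
  rw [h.re_pow]

theorem musqA_prime {p : ℕ} (hp : p.Prime) : musqA p = 0 := by
  classical
  simp only [musqA, ArithmeticFunction.coe_mk]
  rw [if_neg]
  rintro ⟨-, h⟩
  exact hp.prime.irreducible.not_isSquare h

theorem musqA_prime_sq {p : ℕ} (hp : p.Prime) : musqA (p ^ 2) = -1 := by
  classical
  simp only [musqA, ArithmeticFunction.coe_mk]
  rw [if_pos ⟨pow_ne_zero _ hp.ne_zero, ⟨p, by ring⟩⟩, Nat.sqrt_eq',
    ArithmeticFunction.moebius_apply_prime hp]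
  simp

theorem musqA_prime_pow {p : ℕ} (hp : p.Prime) (k : ℕ) : musqA (p ^ (k + 3)) = 0 := by
  classical
  simp only [musqA, ArithmeticFunction.coe_mk]
  by_cases h1 : IsSquare (p ^ (k + 3))
  · rw [if_pos ⟨pow_ne_zero _ hp.ne_zero, h1⟩]
    obtain ⟨s, hs⟩ := h1
    rw [hs, Nat.sqrt_eq]
    have h2 : s ∣ p ^ (k + 3) := ⟨s, hs⟩
    obtain ⟨i, -, hi⟩ := (Nat.dvd_prime_pow hp).mp h2
    rw [hi, ← pow_add] at hs
    have h3 : k + 3 = i + i := Nat.pow_right_injective hp.two_le hs
    have h4 : ¬ Squarefree s := by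
      intro hh
      have h5 : p * p ∣ s := by
        rw [hi]
        obtain ⟨j, rfl⟩ : ∃ j, i = j + 2 := ⟨i - 2, by omega⟩
        exact ⟨p ^ j, by ring⟩
      exact hp.prime.not_isUnit (hh p h5)
    rw [ArithmeticFunction.moebius_eq_zero_of_not_squarefree h4]
    simp
  · rw [if_neg (fun hh => h1 hh.2)]

theorem sq_pp {N : ℕ} [NeZero N] {χ : DirichletCharacter ℂ N} (h : RealChar χ) {p : ℕ}
    (hp : p.Prime) (hpN : ¬ p ∣ N) (k : ℕ) : (musqA * rrA χ) (p ^ k) = hpA χ (p ^ k) := by
  classical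
  rw [conv_prime_pow _ _ hp]
  rcases k with - | k
  · simp [hp_one, musqA_mult.map_one, (rrA_mult h).map_one]
  rw [hpA_prime_pow χ hp]
  rcases k with - | k
  · rw [sum_range_succ, sum_range_one]
    simp only [pow_zero, Nat.sub_zero, zero_add, pow_one, Nat.sub_self]
    rw [musqA_prime hp, musqA_mult.map_one, zero_mul, add_zero, one_mul]
    have h1 := rrA_prime_pow h hp 1
    rw [pow_one] at h1
    rw [h1, sum_range_succ, sum_range_one]
    rcases chi_unit h hp hpN with h1 | h1
    · rw [h1, if_pos rfl]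
      simp
      norm_num
    · rw [h1, if_neg]
      · simp
      · intro h2
        have := congrArg Complex.re h2
        simp at this
        norm_num at this
  · have h1 : ∑ j ∈ range (k + 1 + 1 + 1), musqA (p ^ j) * rrA χ (p ^ (k + 1 + 1 - j)) =
        ∑ j ∈ range 3, musqA (p ^ j) * rrA χ (p ^ (k + 1 + 1 - j)) := by
      symm
      apply sum_subset
      · intro j hj
        have := mem_range.mp hj
        exact mem_range.mpr (by omega)
      · intro j _ hj2
        have h3 : 3 ≤ j := by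
          by_contra hh
          exact hj2 (mem_range.mpr (by omega))
        obtain ⟨i, rfl⟩ : ∃ i, j = i + 3 := ⟨j - 3, by omega⟩
        rw [musqA_prime_pow hp, zero_mul]
    rw [h1, sum_range_succ, sum_range_succ, sum_range_one]
    simp only [pow_zero, Nat.sub_zero, pow_one]
    rw [musqA_prime hp, musqA_prime_sq hp, musqA_mult.map_one, zero_mul, add_zero, one_mul]
    have h2 : k + 1 + 1 - 2 = k := by omega
    rw [h2, rrA_prime_pow h hp, rrA_prime_pow h hp, sum_range_succ, sum_range_succ]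
    rcases chi_unit h hp hpN with h1 | h1
    · rw [h1, if_pos rfl]
      simp only [Complex.one_re, one_pow]
      ring
    · rw [h1, if_neg]
      · simp only [Complex.neg_re, Complex.one_re]
        rw [pow_succ]
        ring
      · intro h2
        have := congrArg Complex.re h2
        simp at this
        norm_num at this

theorem hp_sq {N : ℕ} [NeZero N] (χ : DirichletCharacter ℂ N) (h : RealChar χ) (n : ℕ)
    (hn : 1 ≤ n) (hc : n.Coprime N) :
    hp χ n = ∑ m ∈ (Icc 1 n).filter (fun m => m ^ 2 ∣ n),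
      (ArithmeticFunction.moebius m : ℝ) * rr χ (n / m ^ 2) := by
  classical
  have h1 : hpA χ n = (musqA * rrA χ) n := by
    rw [ArithmeticFunction.IsMultiplicative.multiplicative_factorization _ (hpA_mult χ) (by omega),
      ArithmeticFunction.IsMultiplicative.multiplicative_factorization _
        (musqA_mult.mul (rrA_mult h)) (by omega)]
    refine Finsupp.prod_congr fun p hp => ?_
    have hp1 : p.Prime := Nat.prime_of_mem_primeFactors hp
    have hp2 : p ∣ n := Nat.dvd_of_mem_primeFactors hp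
    have hp3 : ¬ p ∣ N := by
      intro h3
      have h4 := Nat.dvd_gcd hp2 h3
      rw [hc] at h4
      exact absurd (Nat.dvd_one.mp h4) hp1.one_lt.ne'
    exact (sq_pp h hp1 hp3 _).symm
  have h2 : hpA χ n = hp χ n := rfl
  rw [← h2, h1, ArithmeticFunction.mul_apply,
    Nat.sum_divisorsAntidiagonal (fun a b => musqA a * rrA χ b)]
  have h3 : ∑ e ∈ n.divisors, musqA e * rrA χ (n / e) =
      ∑ e ∈ n.divisors.filter IsSquare, musqA e * rrA χ (n / e) := by
    rw [sum_filter]
    refine sum_congr rfl fun e _ => ?_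
    by_cases h4 : IsSquare e
    · rw [if_pos h4]
    · rw [if_neg h4]
      simp only [musqA, ArithmeticFunction.coe_mk]
      rw [if_neg (fun hh => h4 hh.2), zero_mul]
  rw [h3]
  symm
  refine sum_nbij (fun m => m ^ 2) ?_ ?_ ?_ ?_
  · intro m hm
    rw [mem_filter, mem_Icc] at hm
    rw [mem_filter, Nat.mem_divisors]
    exact ⟨⟨hm.2, by omega⟩, ⟨m, by ring⟩⟩
  · intro a _ b _ hab
    exact Nat.pow_left_injective (n := 2) (by norm_num) hab
  · intro e he
    rw [mem_coe, mem_filter, Nat.mem_divisors] at he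
    obtain ⟨⟨h4, h5⟩, ⟨s, hs⟩⟩ := he
    refine ⟨s, ?_, by simp [hs, sq]⟩
    rw [mem_coe, mem_filter, mem_Icc]
    have h6 : s ≠ 0 := by
      rintro rfl
      rw [hs] at h4
      simp at h4
      omega
    have h7 : s ^ 2 ∣ n := by
      rw [sq, ← hs]
      exact h4
    refine ⟨⟨by omega, ?_⟩, h7⟩
    exact le_trans (Nat.le_self_pow two_ne_zero s) (Nat.le_of_dvd hn h7)
  · intro m hm
    rw [mem_filter, mem_Icc] at hm
    simp only [musqA, rrA, ArithmeticFunction.coe_mk]
    rw [if_pos ⟨pow_ne_zero _ (by omega), ⟨m, by ring⟩⟩, Nat.sqrt_eq']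

end Pool.Agent.GLI
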