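import Pool.Agent.GLI.RAsymp
import Pool.Agent.GLI.HpMul
import Pool.Agent.GLI.Ev

set_option autoImplicit false

/-!
Module HpSum.
`hp_sum`: `∑_{e ≤ x} hp(e)/e ≤ ∏_{p ≤ x split} (1 + 2/(p-1)) ≤ exp(4 Sp) ≤ 1 + 8 Sp`.
`h_asymp`: sum `hp_sq` over `n ≤ t` (only `n` prime to `N` contribute), r_cop for each `m ≤ √t`, `(m, N) = 1`, at
`y = ⌊t/m²⌋` (rounding costs `|L1| ≤ 4 + log N` for each `m ≤ √t`); `Λ = φ(N)/N L(1,χ) ∑_{(m,N)=1} μ(m)/m²`, tail
`≤ 1/√t`; `Λ ≥ 0` since `∑ hp ≥ 0` and `t → ∞`.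
-/

open Finset Filter

namespace Pool.Agent.GLI

theorem hp_nonneg {N : ℕ} (χ : DirichletCharacter ℂ N) (n : ℕ) : 0 ≤ hp χ n := by
  unfold hp
  split_ifs <;> positivity

theorem hp_one_s {N : ℕ} (χ : DirichletCharacter ℂ N) : hp χ 1 = 1 := by
  unfold hp
  rw [if_pos]
  · simp
  · refine ⟨one_ne_zero, fun p hp h => ?_⟩
    exact absurd (Nat.dvd_one.mp h) hp.ne_one

theorem hp_mul_cop {N : ℕ} (χ : DirichletCharacter ℂ N) {m n : ℕ} (h : m.Coprime n) :
    hp χ (m * n) = hp χ m * hp χ n := by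
  unfold hp
  by_cases h1 : m ≠ 0 ∧ ∀ p : ℕ, p.Prime → p ∣ m → χ (p : ZMod N) = 1
  · by_cases h2 : n ≠ 0 ∧ ∀ p : ℕ, p.Prime → p ∣ n → χ (p : ZMod N) = 1
    · rw [if_pos h1, if_pos h2, if_pos, Nat.Coprime.primeFactors_mul h,
        Finset.card_union_of_disjoint h.disjoint_primeFactors, pow_add]
      refine ⟨mul_ne_zero h1.1 h2.1, fun p hp hd => ?_⟩
      rcases hp.dvd_mul.mp hd with h3 | h3
      · exact h1.2 p hp h3
      · exact h2.2 p hp h3
    · rw [if_neg h2, mul_zero, if_neg]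
      rintro ⟨h3, h4⟩
      exact h2 ⟨right_ne_zero_of_mul h3, fun p hp hd => h4 p hp (hd.mul_left _)⟩
  · rw [if_neg h1, zero_mul, if_neg]
    rintro ⟨h3, h4⟩
    exact h1 ⟨left_ne_zero_of_mul h3, fun p hp hd => h4 p hp (hd.mul_right _)⟩

theorem hp_pow_le {N : ℕ} (χ : DirichletCharacter ℂ N) {p : ℕ} (hp' : p.Prime) (k : ℕ) :
    hp χ (p ^ (k + 1)) ≤ 2 := by
  unfold hp
  split_ifs
  · rw [Nat.primeFactors_pow _ (by omega), hp'.primeFactors]
    simp
  · norm_num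

theorem hp_eq_zero {N : ℕ} (χ : DirichletCharacter ℂ N) {n p : ℕ} (hp' : p.Prime) (h1 : p ∣ n)
    (h2 : χ (p : ZMod N) ≠ 1) : hp χ n = 0 := by
  unfold hp
  rw [if_neg]
  rintro ⟨-, h4⟩
  exact h2 (h4 p hp' h1)

theorem mem_split_h {N : ℕ} (χ : DirichletCharacter ℂ N) (x p : ℕ) :
    p ∈ split χ x ↔ (1 ≤ p ∧ p ≤ x) ∧ p.Prime ∧ χ (p : ZMod N) = 1 := by
  unfold split
  simp

theorem hp_geom {N : ℕ} (χ : DirichletCharacter ℂ N) {p : ℕ} (hp' : p.Prime) (k : ℕ) :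
    hp χ (p ^ (k + 1)) / ((p ^ (k + 1) : ℕ) : ℝ) ≤ 2 / p * (1 / (p : ℝ)) ^ k := by
  have hp0 : (0 : ℝ) < p := by exact_mod_cast hp'.pos
  have h1 := hp_pow_le χ hp' k
  have h2 : 2 / (p : ℝ) * (1 / (p : ℝ)) ^ k = 2 / ((p ^ (k + 1) : ℕ) : ℝ) := by
    push_cast
    rw [one_div, inv_pow, pow_succ]
    field_simp
  rw [h2]
  gcongr

theorem hp_summable {N : ℕ} (χ : DirichletCharacter ℂ N) {p : ℕ} (hp' : p.Prime) :
    Summable fun n : ℕ => hp χ (p ^ n) / ((p ^ n : ℕ) : ℝ) := by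
  have hp0 : (1 : ℝ) < p := by exact_mod_cast hp'.one_lt
  rw [← summable_nat_add_iff 1]
  refine Summable.of_nonneg_of_le (fun k => by have := hp_nonneg χ (p ^ (k + 1)); positivity)
    (fun k => hp_geom χ hp' k) ?_
  refine Summable.mul_left _ (summable_geometric_of_lt_one (by positivity) ?_)
  rw [div_lt_one (by linarith)]
  exact hp0

theorem hp_local {N : ℕ} (χ : DirichletCharacter ℂ N) {p : ℕ} (hp' : p.Prime) :
    ∑' n : ℕ, hp χ (p ^ n) / ((p ^ n : ℕ) : ℝ) ≤ 1 + 4 / p := by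
  have hp0 : (2 : ℝ) ≤ p := by exact_mod_cast hp'.two_le
  rw [(hp_summable χ hp').tsum_eq_zero_add]
  have h0 : hp χ (p ^ 0) / ((p ^ 0 : ℕ) : ℝ) = 1 := by
    rw [pow_zero, hp_one_s]
    simp
  rw [h0]
  have hr : (1 / (p : ℝ)) < 1 := by
    rw [div_lt_one (by linarith)]
    linarith
  have hs : Summable fun k : ℕ => 2 / (p : ℝ) * (1 / (p : ℝ)) ^ k :=
    Summable.mul_left _ (summable_geometric_of_lt_one (by positivity) hr)
  have h1 : ∑' k : ℕ, hp χ (p ^ (k + 1)) / ((p ^ (k + 1) : ℕ) : ℝ) ≤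
      ∑' k : ℕ, 2 / (p : ℝ) * (1 / (p : ℝ)) ^ k := by
    refine Summable.tsum_le_tsum (fun k => hp_geom χ hp' k) ?_ hs
    exact (summable_nat_add_iff 1).mpr (hp_summable χ hp')
  rw [tsum_mul_left, tsum_geometric_of_lt_one (by positivity) hr] at h1
  have h2 : 2 / (p : ℝ) * (1 - 1 / (p : ℝ))⁻¹ ≤ 4 / p := by
    have h3 : (1 - 1 / (p : ℝ))⁻¹ ≤ 2 := by
      rw [inv_le_comm₀ (by linarith) (by norm_num)]
      have : 1 / (p : ℝ) ≤ 1 / 2 := by
        apply one_div_le_one_div_of_le <;> linarith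
      norm_num at this ⊢
      linarith
    calc 2 / (p : ℝ) * (1 - 1 / (p : ℝ))⁻¹ ≤ 2 / (p : ℝ) * 2 := by gcongr
      _ = 4 / p := by ring
  linarith

theorem hp_sum {N : ℕ} [NeZero N] (χ : DirichletCharacter ℂ N) (x : ℕ) (hx : Sp χ x ≤ 1 / 8) :
    ∑ e ∈ Icc 2 x, hp χ e / e ≤ 8 * Sp χ x := by
  classical
  have hE := EulerProduct.summable_and_hasSum_factoredNumbers_prod_filter_prime_tsum
    (f := fun n : ℕ => hp χ n / (n : ℝ)) (by simp [hp_one_s])
    (by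
      intro m n hmn
      rw [hp_mul_cop χ hmn]
      push_cast
      rw [mul_div_mul_comm])
    (by
      intro p hp'
      refine (hp_summable χ hp').congr fun n => ?_
      rw [Real.norm_of_nonneg]
      have := hp_nonneg χ (p ^ n)
      positivity) (split χ x)
  have hprime : (split χ x).filter Nat.Prime = split χ x := by
    apply Finset.filter_true_of_mem
    intro p hp'
    exact ((mem_split_h χ x p).mp hp').2.1
  rw [hprime] at hE
  have hSp0 : 0 ≤ Sp χ x := by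
    unfold Sp
    exact Finset.sum_nonneg fun p _ => by positivity
  -- product bound
  have h1 : ∏ p ∈ split χ x, ∑' n : ℕ, hp χ (p ^ n) / ((p ^ n : ℕ) : ℝ) ≤
      Real.exp (4 * Sp χ x) := by
    have h2 : ∏ p ∈ split χ x, ∑' n : ℕ, hp χ (p ^ n) / ((p ^ n : ℕ) : ℝ) ≤
        ∏ p ∈ split χ x, Real.exp (4 / p) := by
      apply Finset.prod_le_prod
      · intro p _
        exact tsum_nonneg fun n => by
          have := hp_nonneg χ (p ^ n)
          positivity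
      · intro p hp'
        have h3 := hp_local χ ((mem_split_h χ x p).mp hp').2.1
        have h4 := Real.add_one_le_exp (4 / (p : ℝ))
        linarith
    rw [← Real.exp_sum] at h2
    refine h2.trans (le_of_eq ?_)
    unfold Sp
    rw [Finset.mul_sum]
    congr 1
    apply Finset.sum_congr rfl
    intro p _
    ring
  have h5 : ∑ e ∈ Icc 1 x, hp χ e / e ≤ Real.exp (4 * Sp χ x) := by
    refine le_trans ?_ h1
    have h6 : ∑ e ∈ Icc 1 x, hp χ e / e =
        ∑ e ∈ (Icc 1 x).filter (· ∈ Nat.factoredNumbers (split χ x)), hp χ e / e := by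
      rw [Finset.sum_filter_of_ne]
      intro e he hne
      rw [Finset.mem_Icc] at he
      refine ⟨by omega, fun p hp' => ?_⟩
      rw [Nat.mem_primeFactorsList (by omega)] at hp'
      rw [mem_split_h]
      refine ⟨⟨hp'.1.pos, (Nat.le_of_dvd (by omega) hp'.2).trans he.2⟩, hp'.1, ?_⟩
      by_contra hcon
      exact hne (by rw [hp_eq_zero χ hp'.1 hp'.2 hcon, zero_div])
    rw [h6, ← Finset.sum_subtype_eq_sum_filter]
    refine sum_le_hasSum _ (fun m _ => ?_) hE.2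
    have := hp_nonneg χ (m : ℕ)
    positivity
  by_cases hx1 : 1 ≤ x
  · have h7 : ∑ e ∈ Icc 1 x, hp χ e / e = 1 + ∑ e ∈ Icc 2 x, hp χ e / e := by
      rw [← Finset.sum_Ioc_add_eq_sum_Icc hx1]
      rw [add_comm, Nat.cast_one, hp_one_s]
      norm_num
      rfl
    have h8 : Real.exp (4 * Sp χ x) ≤ 1 + 8 * Sp χ x := by
      have h9 := Real.exp_bound_div_one_sub_of_interval (x := 4 * Sp χ x) (by linarith) (by linarith)
      refine h9.trans ?_
      rw [div_le_iff₀ (by linarith)]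
      nlinarith
    linarith
  · have : Icc 2 x = ∅ := by
      apply Finset.Icc_eq_empty
      omega
    rw [this, Finset.sum_empty]
    positivity

theorem hp_not_cop {N : ℕ} (χ : DirichletCharacter ℂ N) {n : ℕ} (h : ¬ n.Coprime N) :
    hp χ n = 0 := by
  obtain ⟨p, hp1, hp2, hp3⟩ := Nat.Prime.not_coprime_iff_dvd.mp h
  refine hp_eq_zero χ hp1 hp2 ?_
  rw [MulChar.map_nonunit]
  · exact zero_ne_one
  · rw [ZMod.isUnit_iff_coprime]
    intro hc
    exact Nat.Prime.not_coprime_iff_dvd.mpr ⟨p, hp1, dvd_rfl, hp3⟩ hc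

theorem hp_sum_eq {N : ℕ} [NeZero N] (χ : DirichletCharacter ℂ N) (h : RealChar χ) (t : ℕ) :
    ∑ n ∈ Icc 1 t, hp χ n = ∑ m ∈ (Icc 1 t.sqrt).filter (fun m => m.Coprime N),
      (ArithmeticFunction.moebius m : ℝ) *
        ∑ k ∈ (Icc 1 (t / m ^ 2)).filter (fun k => k.Coprime N), rr χ k := by
  have h1 : ∑ n ∈ Icc 1 t, hp χ n = ∑ n ∈ (Icc 1 t).filter (fun n => n.Coprime N), hp χ n := by
    rw [Finset.sum_filter_of_ne]
    intro n _ hne
    by_contra hcon
    exact hne (hp_not_cop χ hcon)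
  have h2 : ∑ n ∈ (Icc 1 t).filter (fun n => n.Coprime N), hp χ n =
      ∑ n ∈ (Icc 1 t).filter (fun n => n.Coprime N),
        ∑ m ∈ (Icc 1 n).filter (fun m => m ^ 2 ∣ n),
          (ArithmeticFunction.moebius m : ℝ) * rr χ (n / m ^ 2) := by
    apply Finset.sum_congr rfl
    intro n hn
    rw [Finset.mem_filter, Finset.mem_Icc] at hn
    exact hp_sq χ h n hn.1.1 hn.2
  rw [h1, h2]
  simp_rw [Finset.mul_sum]
  rw [Finset.sum_sigma', Finset.sum_sigma']
  refine Finset.sum_bij' (fun a _ => ⟨a.2, a.1 / a.2 ^ 2⟩) (fun b _ => ⟨b.1 ^ 2 * b.2, b.1⟩)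
    ?_ ?_ ?_ ?_ ?_
  · rintro ⟨n, m⟩ hnm
    simp only [Finset.mem_sigma, Finset.mem_filter, Finset.mem_Icc] at hnm ⊢
    obtain ⟨⟨⟨hn1, hn2⟩, hn3⟩, ⟨hm1, hm2⟩, hm3⟩ := hnm
    have hsq : m ^ 2 ≤ n := Nat.le_of_dvd (by omega) hm3
    have hmpos : 0 < m ^ 2 := by positivity
    refine ⟨⟨⟨hm1, ?_⟩, ?_⟩, ⟨?_, ?_⟩, ?_⟩
    · rw [Nat.le_sqrt']
      omega
    · exact Nat.Coprime.coprime_dvd_left ((dvd_pow_self m two_ne_zero).trans hm3) hn3
    · exact Nat.div_pos hsq hmpos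
    · exact Nat.div_le_div_right hn2
    · exact Nat.Coprime.coprime_dvd_left (Nat.div_dvd_of_dvd hm3) hn3
  · rintro ⟨m, k⟩ hmk
    simp only [Finset.mem_sigma, Finset.mem_filter, Finset.mem_Icc] at hmk ⊢
    obtain ⟨⟨⟨hm1, hm2⟩, hm3⟩, ⟨hk1, hk2⟩, hk3⟩ := hmk
    have hmpos : 0 < m ^ 2 := by positivity
    have h4 : m ^ 2 * k ≤ t := by
      rw [Nat.le_div_iff_mul_le hmpos] at hk2
      rw [mul_comm]
      exact hk2
    have h5 : 0 < m ^ 2 * k := by positivity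
    refine ⟨⟨⟨h5, h4⟩, ?_⟩, ⟨hm1, ?_⟩, Dvd.intro _ rfl⟩
    · exact Nat.Coprime.mul_left (Nat.Coprime.pow_left 2 hm3) hk3
    · nlinarith
  · rintro ⟨n, m⟩ hnm
    simp only [Finset.mem_sigma, Finset.mem_filter, Finset.mem_Icc] at hnm
    obtain ⟨⟨⟨hn1, hn2⟩, hn3⟩, ⟨hm1, hm2⟩, hm3⟩ := hnm
    simp only
    rw [Nat.mul_div_cancel' hm3]
  · rintro ⟨m, k⟩ hmk
    simp only [Finset.mem_sigma, Finset.mem_filter, Finset.mem_Icc] at hmk
    obtain ⟨⟨⟨hm1, hm2⟩, hm3⟩, ⟨hk1, hk2⟩, hk3⟩ := hmk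
    have hmpos : 0 < m ^ 2 := by positivity
    simp only
    rw [Nat.mul_div_cancel_left _ hmpos]
  · rintro ⟨n, m⟩ hnm
    rfl

/-- The coefficients of the series of `Λ`. -/
noncomputable def am (N m : ℕ) : ℝ :=
  if m.Coprime N then (ArithmeticFunction.moebius m : ℝ) / (m : ℝ) ^ 2 else 0

theorem am_le (N m : ℕ) : ‖am N m‖ ≤ 1 / (m : ℝ) ^ 2 := by
  unfold am
  split_ifs
  · rw [norm_div]
    have h1 : ‖(ArithmeticFunction.moebius m : ℝ)‖ ≤ 1 := by
      rw [Real.norm_eq_abs]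
      have := ArithmeticFunction.abs_moebius_le_one (n := m)
      exact_mod_cast this
    have h2 : ‖(m : ℝ) ^ 2‖ = (m : ℝ) ^ 2 := by
      rw [Real.norm_of_nonneg (by positivity)]
    rw [h2]
    gcongr
  · rw [norm_zero]
    positivity

theorem am_summable (N : ℕ) : Summable (am N) :=
  Summable.of_norm_bounded (Real.summable_one_div_nat_pow.mpr (by norm_num)) (am_le N)

theorem sq_step (u : ℝ) (hu : 0 < u) : 1 / (u + 1) ^ 2 ≤ 1 / u - 1 / (u + 1) := by
  have h7 : 1 / u - 1 / (u + 1) = 1 / (u * (u + 1)) := by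
    field_simp
    ring
  rw [h7]
  apply one_div_le_one_div_of_le (by positivity)
  nlinarith

theorem sq_sum_le (M : ℕ) (hM : 1 ≤ M) (n : ℕ) :
    ∑ i ∈ range n, 1 / (((i + (M + 1) : ℕ) : ℝ)) ^ 2 ≤ 1 / M - 1 / ((M + n : ℕ) : ℝ) := by
  induction n with
  | zero => simp
  | succ n ih =>
    rw [Finset.sum_range_succ]
    have hMn : (0 : ℝ) < ((M + n : ℕ) : ℝ) := by
      have : 0 < M + n := by omega
      exact_mod_cast this
    have h5 : ((M + (n + 1) : ℕ) : ℝ) = ((M + n : ℕ) : ℝ) + 1 := by push_cast; ring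
    have h6 : ((n + (M + 1) : ℕ) : ℝ) = ((M + n : ℕ) : ℝ) + 1 := by push_cast; ring
    rw [h5, h6]
    have h4 := sq_step _ hMn
    linarith

theorem am_tail (N M : ℕ) (hM : 1 ≤ M) :
    |∑' m, am N m - ∑ m ∈ Icc 1 M, am N m| ≤ 1 / M := by
  have h0 : am N 0 = 0 := by
    unfold am
    simp
  have h1 : ∑ m ∈ Icc 1 M, am N m = ∑ m ∈ range (M + 1), am N m := by
    rw [Finset.range_eq_Ico, Finset.sum_eq_sum_Ico_succ_bot (by omega), h0, zero_add]
    refine Finset.sum_congr ?_ fun _ _ => Eq.refl _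
    ext i
    simp only [Finset.mem_Icc, Finset.mem_Ico]
    omega
  have h2 := (am_summable N).sum_add_tsum_nat_add (M + 1)
  rw [h1, ← h2, add_sub_cancel_left, ← Real.norm_eq_abs]
  have h3 := sq_sum_le M hM
  have hs : Summable fun i : ℕ => 1 / (((i + (M + 1) : ℕ) : ℝ)) ^ 2 :=
    (summable_nat_add_iff (f := fun m : ℕ => 1 / (m : ℝ) ^ 2) (M + 1)).mpr
      (Real.summable_one_div_nat_pow.mpr (by norm_num))
  have h9 : ∀ i : ℕ, ‖am N (i + (M + 1))‖ ≤ 1 / (((i + (M + 1) : ℕ) : ℝ)) ^ 2 :=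
    fun i => am_le N (i + (M + 1))
  have h10 := tsum_of_norm_bounded hs.hasSum h9
  refine h10.trans ?_
  refine Summable.tsum_le_of_sum_range_le hs fun n => (h3 n).trans ?_
  have : (0 : ℝ) ≤ 1 / ((M + n : ℕ) : ℝ) := by positivity
  linarith

/-- The core estimate for one `t`. -/
theorem h_core {N : ℕ} [NeZero N] (χ : DirichletCharacter ℂ N) (h : RealChar χ) (c K L : ℝ)
    (hK : 0 ≤ K) (hc : |c| ≤ L)
    (hr : ∀ y : ℕ, 1 ≤ y →
      |∑ n ∈ (Icc 1 y).filter (fun n => n.Coprime N), rr χ n - y * c| ≤ Real.sqrt y * K)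
    (t : ℕ) (ht : 1 ≤ t) :
    |∑ n ∈ Icc 1 t, hp χ n - c * (∑' m, am N m) * t| ≤
      Real.sqrt t * (1 + Real.log t) * (K + 3 * L) := by
  have hL : 0 ≤ L := (abs_nonneg c).trans hc
  have ht0 : (0 : ℝ) < t := by exact_mod_cast ht
  have ht1 : (1 : ℝ) ≤ t := by exact_mod_cast ht
  have hlog : 0 ≤ Real.log t := Real.log_nonneg ht1
  set M := t.sqrt with hM
  have hM1 : 1 ≤ M := by
    rw [hM, Nat.le_sqrt']
    omega
  have hM1' : (1 : ℝ) ≤ M := by exact_mod_cast hM1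
  have hMs : (M : ℝ) ≤ Real.sqrt t := Real.nat_sqrt_le_real_sqrt
  have hMs2 : Real.sqrt t ≤ M + 1 := by
    have := Real.real_sqrt_lt_nat_sqrt_succ (a := t)
    exact this.le
  have hsq : Real.sqrt t * Real.sqrt t = t := Real.mul_self_sqrt ht0.le
  have hs0 : 0 < Real.sqrt t := Real.sqrt_pos.mpr ht0
  -- each term
  have h1 : ∀ m ∈ (Icc 1 M).filter (fun m => m.Coprime N),
      |(ArithmeticFunction.moebius m : ℝ) *
        ∑ k ∈ (Icc 1 (t / m ^ 2)).filter (fun k => k.Coprime N), rr χ k - c * t * am N m| ≤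
      Real.sqrt t * K * (1 / m) + L := by
    intro m hm
    rw [Finset.mem_filter, Finset.mem_Icc] at hm
    obtain ⟨⟨hm1, hm2⟩, hm3⟩ := hm
    have hm0 : (0 : ℝ) < m := by exact_mod_cast hm1
    have hmt : m ^ 2 ≤ t := by
      rw [hM, Nat.le_sqrt'] at hm2
      exact hm2
    have hy1 : 1 ≤ t / m ^ 2 := Nat.div_pos hmt (by positivity)
    have h2 := hr (t / m ^ 2) hy1
    have ham : am N m = (ArithmeticFunction.moebius m : ℝ) / (m : ℝ) ^ 2 := by
      unfold am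
      rw [if_pos hm3]
    set y := t / m ^ 2 with hy
    have hyle : (y : ℝ) ≤ t / (m : ℝ) ^ 2 := by
      rw [hy]
      refine Nat.cast_div_le.trans (le_of_eq ?_)
      push_cast
      rfl
    have hyge : t / (m : ℝ) ^ 2 ≤ y + 1 := by
      rw [div_le_iff₀ (by positivity)]
      have h3 : t < (y + 1) * m ^ 2 := by
        rw [hy]
        exact (Nat.div_lt_iff_lt_mul (by positivity)).mp (Nat.lt_succ_self _)
      have h4 : (t : ℝ) < (y + 1) * (m : ℝ) ^ 2 := by exact_mod_cast h3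
      linarith
    have h5 : Real.sqrt y ≤ Real.sqrt t * (1 / m) := by
      have h6 : Real.sqrt t * (1 / m) = Real.sqrt (t / (m : ℝ) ^ 2) := by
        rw [Real.sqrt_div ht0.le, Real.sqrt_sq hm0.le]
        ring
      rw [h6]
      exact Real.sqrt_le_sqrt hyle
    have hmu : |(ArithmeticFunction.moebius m : ℝ)| ≤ 1 := by
      have := ArithmeticFunction.abs_moebius_le_one (n := m)
      exact_mod_cast this
    set R := ∑ k ∈ (Icc 1 y).filter (fun k => k.Coprime N), rr χ k with hR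
    have h7 : (ArithmeticFunction.moebius m : ℝ) * R - c * t * am N m =
        (ArithmeticFunction.moebius m : ℝ) * ((R - y * c) + (y - t / (m : ℝ) ^ 2) * c) := by
      rw [ham]
      ring
    rw [h7, abs_mul]
    have h8 : |(R - y * c) + (y - t / (m : ℝ) ^ 2) * c| ≤ Real.sqrt y * K + 1 * L := by
      refine (abs_add_le _ _).trans (add_le_add h2 ?_)
      rw [abs_mul]
      refine mul_le_mul ?_ hc (abs_nonneg _) zero_le_one
      rw [abs_le]
      constructor <;> linarith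
    calc |(ArithmeticFunction.moebius m : ℝ)| * |(R - y * c) + (y - t / (m : ℝ) ^ 2) * c|
        ≤ 1 * (Real.sqrt y * K + 1 * L) := by
          apply mul_le_mul hmu h8 (abs_nonneg _) zero_le_one
      _ ≤ Real.sqrt t * K * (1 / m) + L := by
          have := mul_le_mul_of_nonneg_right h5 hK
          linarith
  -- the sum of the terms
  have h9 : ∑ m ∈ Icc 1 M, am N m = ∑ m ∈ (Icc 1 M).filter (fun m => m.Coprime N), am N m := by
    rw [Finset.sum_filter_of_ne]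
    intro m _ hne
    by_contra hcon
    apply hne
    unfold am
    rw [if_neg hcon]
  have h10 : |∑ n ∈ Icc 1 t, hp χ n - c * t * ∑ m ∈ Icc 1 M, am N m| ≤
      Real.sqrt t * K * (1 + Real.log t) + M * L := by
    rw [hp_sum_eq χ h t, h9, Finset.mul_sum, ← Finset.sum_sub_distrib]
    refine (Finset.abs_sum_le_sum_abs _ _).trans ((Finset.sum_le_sum h1).trans ?_)
    have h11 : ∑ m ∈ (Icc 1 M).filter (fun m => m.Coprime N), (Real.sqrt t * K * (1 / m) + L) ≤
        ∑ m ∈ Icc 1 M, (Real.sqrt t * K * (1 / m) + L) := by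
      apply Finset.sum_le_sum_of_subset_of_nonneg (Finset.filter_subset _ _)
      intro m _ _
      positivity
    refine h11.trans ?_
    rw [Finset.sum_add_distrib, ← Finset.mul_sum]
    have h12 : ∑ m ∈ Icc 1 M, (1 : ℝ) / m ≤ 1 + Real.log t := by
      have h13 := harmonic_le_one_add_log M
      rw [harmonic_eq_sum_Icc] at h13
      push_cast at h13
      have h14 : Real.log M ≤ Real.log t := by
        apply Real.log_le_log (by linarith)
        have : M ≤ t := Nat.sqrt_le_self t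
        exact_mod_cast this
      have h15 : ∑ m ∈ Icc 1 M, (1 : ℝ) / m = ∑ m ∈ Icc 1 M, ((m : ℝ))⁻¹ := by
        apply Finset.sum_congr rfl
        intro m _
        rw [one_div]
      rw [h15]
      linarith
    have h16 : ∑ _m ∈ Icc 1 M, L = M * L := by
      rw [Finset.sum_const, Nat.card_Icc, nsmul_eq_mul]
      simp
    rw [h16]
    have := mul_le_mul_of_nonneg_left h12 (show 0 ≤ Real.sqrt t * K by positivity)
    linarith
  have h17 := am_tail N M hM1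
  have h18 : ∑ n ∈ Icc 1 t, hp χ n - c * (∑' m, am N m) * t =
      (∑ n ∈ Icc 1 t, hp χ n - c * t * ∑ m ∈ Icc 1 M, am N m) -
        c * t * (∑' m, am N m - ∑ m ∈ Icc 1 M, am N m) := by ring
  rw [h18]
  have h19 : |c * t * (∑' m, am N m - ∑ m ∈ Icc 1 M, am N m)| ≤ L * (2 * Real.sqrt t) := by
    rw [abs_mul, abs_mul, abs_of_nonneg ht0.le, mul_assoc]
    refine mul_le_mul hc ?_ (by positivity) hL
    refine (mul_le_mul_of_nonneg_left h17 ht0.le).trans ?_
    rw [mul_one_div, div_le_iff₀ (by linarith)]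
    nlinarith
  refine (abs_sub _ _).trans ((add_le_add h10 h19).trans ?_)
  have h20 : (M : ℝ) * L ≤ Real.sqrt t * L := mul_le_mul_of_nonneg_right hMs hL
  have h21 : 0 ≤ Real.sqrt t * Real.log t * L := by positivity
  nlinarith

theorem h_asymp (δ : ℝ) (hδ : 0 < δ) : ∀ᶠ N : ℕ in atTop, ∀ _ : NeZero N,
    ∀ χ : DirichletCharacter ℂ N, χ ≠ 1 → RealChar χ → ∃ Λ : ℝ, 0 ≤ Λ ∧ ∀ t : ℕ, 1 ≤ t →
    |∑ n ∈ Icc 1 t, hp χ n - Λ * t| ≤ Real.sqrt t * (1 + Real.log t) * (N : ℝ) ^ (1 / 4 + δ) := by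
  filter_upwards [r_cop (δ / 2) (by linarith), ev_log 1,
    ev_pow (1 / 4 + δ / 2) (1 / 4 + δ) (by linarith) 1 16, eventually_ge_atTop 1]
    with N hN hlog hpow hN1 _ χ hχ hreal
  have hN0 : (1 : ℝ) ≤ N := by exact_mod_cast hN1
  set c : ℝ := N.totient / N * L1 χ with hc
  set K : ℝ := (N : ℝ) ^ (1 / 4 + δ / 2) with hK
  have hK1 : 1 ≤ K := Real.one_le_rpow hN0 (by linarith)
  have hcL : |c| ≤ 4 + Real.log N := by
    rw [hc, abs_mul]
    have h1 : |(N.totient : ℝ) / N| ≤ 1 := by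
      rw [abs_of_nonneg (by positivity), div_le_one (by linarith)]
      exact_mod_cast Nat.totient_le N
    have h2 := L1_le N χ hχ
    calc |(N.totient : ℝ) / N| * |L1 χ| ≤ 1 * (4 + Real.log N) :=
          mul_le_mul h1 h2 (abs_nonneg _) zero_le_one
      _ = 4 + Real.log N := one_mul _
  have hmain := h_core χ hreal c K (4 + Real.log N) (by linarith) hcL (hN inferInstance χ hχ hreal)
  have hKK : K + 3 * (4 + Real.log N) ≤ (N : ℝ) ^ (1 / 4 + δ) := by
    refine le_trans ?_ hpow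
    rw [pow_one]
    nlinarith [mul_le_mul_of_nonneg_right hK1 (show (0 : ℝ) ≤ Real.log N by linarith)]
  have hfin : ∀ t : ℕ, 1 ≤ t → |∑ n ∈ Icc 1 t, hp χ n - c * (∑' m, am N m) * t| ≤
      Real.sqrt t * (1 + Real.log t) * (N : ℝ) ^ (1 / 4 + δ) := by
    intro t ht
    refine (hmain t ht).trans ?_
    have ht1 : (1 : ℝ) ≤ t := by exact_mod_cast ht
    have hlogt : 0 ≤ Real.log t := Real.log_nonneg ht1
    exact mul_le_mul_of_nonneg_left hKK (by positivity)
  refine ⟨c * (∑' m, am N m), ?_, hfin⟩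
  by_contra hneg
  push Not at hneg
  set Λ := c * (∑' m, am N m) with hΛ
  set K' : ℝ := (N : ℝ) ^ (1 / 4 + δ) with hK'
  have hK'0 : 0 ≤ K' := by positivity
  have hev := tendsto_natCast_atTop_atTop (R := ℝ) |>.eventually
    (ev_real (1 / 2) (by norm_num) 1 ((2 * K' + 1) / (-Λ)))
  obtain ⟨t, ht1, ht2, ht3⟩ := (hev.and ((ev_log 1).and (eventually_ge_atTop 1))).exists
  have ht0 : (0 : ℝ) < t := by exact_mod_cast ht3
  have h3 := hfin t ht3
  have h4 : 0 ≤ ∑ n ∈ Icc 1 t, hp χ n := Finset.sum_nonneg fun n _ => hp_nonneg χ n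
  have h5 := (abs_le.mp h3).2
  rw [pow_one, ← Real.sqrt_eq_rpow, div_mul_eq_mul_div, div_le_iff₀ (by linarith)] at ht1
  have hs0 : 0 < Real.sqrt t := Real.sqrt_pos.mpr ht0
  have hsq : Real.sqrt t * Real.sqrt t = t := Real.mul_self_sqrt ht0.le
  -- `-Λ √t ≤ (1 + log t) K'`
  have h6 : -Λ * Real.sqrt t ≤ (1 + Real.log t) * K' := by
    have h7 : Real.sqrt t * (-Λ * Real.sqrt t) ≤ Real.sqrt t * ((1 + Real.log t) * K') := by
      have : Real.sqrt t * (-Λ * Real.sqrt t) = -Λ * t := by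
        rw [← hsq]
        ring_nf
        rw [Real.sq_sqrt]
        positivity
      rw [this]
      linarith
    exact le_of_mul_le_mul_left h7 hs0
  nlinarith

end Pool.Agent.GLI
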