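import Pool.Agent.GLI.LOne

set_option autoImplicit false

/-!
Module LBound. `S(t) = ∑_{k ≤ t} χ(k)`, `|S| ≤ q` (periodic, sum over a period `0` as `χ ≠ 1`).
`L(s, χ) = s ∫_1^∞ S(t) t^(-s-1) dt` for `Re s > 1` (Mathlib), and both sides are analytic for `Re s > 0`
(Mellin transform). `L_real`: real integrand. `L_pos`: `Re L(2, χ) > 0`, no zeros on `[1, 2]`.
-/

open Finset Filter

namespace Pool.Agent.GLI

theorem char_period_sum (q : ℕ) [NeZero q] (χ : DirichletCharacter ℂ q) (hχ : χ ≠ 1) :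
    ∑ n ∈ range q, χ (n : ZMod q) = 0 := by
  rw [← MulChar.sum_eq_zero_of_ne_one hχ]
  refine Finset.sum_nbij' (fun n => (n : ZMod q)) (fun a => a.val) ?_ ?_ ?_ ?_ ?_
  · intro a _
    exact Finset.mem_univ _
  · intro a _
    exact Finset.mem_range.mpr (ZMod.val_lt a)
  · intro a ha
    exact ZMod.val_cast_of_lt (Finset.mem_range.mp ha)
  · intro a _
    exact ZMod.natCast_zmod_val a
  · intro a _
    rfl

theorem char_partial (q : ℕ) [NeZero q] (χ : DirichletCharacter ℂ q) (hχ : χ ≠ 1) (x : ℕ) :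
    ‖∑ n ∈ range x, χ (n : ZMod q)‖ ≤ q := by
  have h1 : ∀ a r : ℕ, ∑ n ∈ range (q * a + r), χ (n : ZMod q) =
      ∑ n ∈ range r, χ (n : ZMod q) := by
    intro a r
    induction a with
    | zero => simp
    | succ a ih =>
      have h2 : q * (a + 1) + r = q + (q * a + r) := by ring
      rw [h2, Finset.sum_range_add, char_period_sum q χ hχ, zero_add, ← ih]
      refine Finset.sum_congr rfl fun n _ => ?_
      push_cast
      simp
  have h3 : x = q * (x / q) + x % q := (Nat.div_add_mod x q).symm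
  rw [h3, h1]
  refine (norm_sum_le _ _).trans ?_
  refine (Finset.sum_le_sum fun n _ => DirichletCharacter.norm_le_one χ _).trans ?_
  rw [Finset.sum_const, Finset.card_range, nsmul_eq_mul, mul_one]
  exact_mod_cast (Nat.mod_lt x (NeZero.pos q)).le

/-- The partial sums. -/
noncomputable def Sf {q : ℕ} (χ : DirichletCharacter ℂ q) (t : ℝ) : ℂ :=
  ∑ k ∈ Icc 1 ⌊t⌋₊, χ (k : ZMod q)

theorem Icc_partial (q : ℕ) [NeZero q] (χ : DirichletCharacter ℂ q) (hχ : χ ≠ 1) (n : ℕ) :
    ‖∑ k ∈ Icc 1 n, χ (k : ZMod q)‖ ≤ q := by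
  by_cases hq : q = 1
  · subst hq
    exact absurd (Subsingleton.elim _ _) hχ
  have h0 : χ ((0 : ℕ) : ZMod q) = 0 := by
    have h00 : ((0 : ℕ) : ZMod q) = 0 := Nat.cast_zero
    rw [h00]
    have : Fact (1 < q) := ⟨by
      have := NeZero.pos q
      omega⟩
    exact MulChar.map_zero χ
  have h1 : ∑ k ∈ Icc 1 n, χ (k : ZMod q) = ∑ k ∈ range (n + 1), χ (k : ZMod q) := by
    rw [Finset.range_eq_Ico, Finset.sum_eq_sum_Ico_succ_bot (by omega), h0, zero_add]
    rfl
  rw [h1]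
  exact char_partial q χ hχ (n + 1)

theorem Sf_norm (q : ℕ) [NeZero q] (χ : DirichletCharacter ℂ q) (hχ : χ ≠ 1) (t : ℝ) :
    ‖Sf χ t‖ ≤ q := Icc_partial q χ hχ _

theorem Sf_meas {q : ℕ} (χ : DirichletCharacter ℂ q) : Measurable (Sf χ) :=
  (measurable_from_nat (f := fun n : ℕ => ∑ k ∈ Icc 1 n, χ (k : ZMod q))).comp Nat.measurable_floor

theorem Sf_zero {q : ℕ} (χ : DirichletCharacter ℂ q) {t : ℝ} (ht : t < 1) : Sf χ t = 0 := by
  unfold Sf
  have h : ⌊t⌋₊ = 0 := Nat.floor_eq_zero.mpr ht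
  rw [h]
  simp

theorem Sf_mellin {q : ℕ} (χ : DirichletCharacter ℂ q) (s : ℂ) :
    mellin (Sf χ) (-s) = ∫ t in Set.Ioi (1 : ℝ), Sf χ t * (t : ℂ) ^ (-(s + 1)) := by
  unfold mellin
  rw [← MeasureTheory.integral_Ici_eq_integral_Ioi (x := (1 : ℝ))]
  have hsub : Set.Ici (1 : ℝ) ⊆ Set.Ioi 0 := by
    intro x hx
    have hx1 : (1 : ℝ) ≤ x := hx
    show 0 < x
    linarith
  rw [← MeasureTheory.setIntegral_eq_of_subset_of_forall_sdiff_eq_zero measurableSet_Ioi hsub
    (f := fun t : ℝ => Sf χ t * (t : ℂ) ^ (-(s + 1)))]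
  · refine MeasureTheory.setIntegral_congr_fun measurableSet_Ioi fun t _ => ?_
    show (t : ℂ) ^ (-s - 1) • Sf χ t = Sf χ t * (t : ℂ) ^ (-(s + 1))
    rw [smul_eq_mul, mul_comm]
    congr 2
    ring
  · intro x hx
    have hx1 : x < 1 := by
      have := hx.2
      rw [Set.mem_Ici, not_le] at this
      exact this
    show Sf χ x * (x : ℂ) ^ (-(s + 1)) = 0
    rw [Sf_zero χ hx1, zero_mul]

theorem Sf_diff (q : ℕ) [NeZero q] (χ : DirichletCharacter ℂ q) (hχ : χ ≠ 1) (s : ℂ)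
    (hs : s.re < 0) : DifferentiableAt ℂ (mellin (Sf χ)) s := by
  refine mellin_differentiableAt_of_isBigO_rpow (a := 0) (b := s.re - 1) ?_ ?_ hs ?_ (by linarith)
  · refine MeasureTheory.LocallyIntegrable.locallyIntegrableOn ?_ _
    refine MeasureTheory.LocallyIntegrable.mono (MeasureTheory.locallyIntegrable_const (q : ℝ))
      (Sf_meas χ).aestronglyMeasurable (Eventually.of_forall fun t => ?_)
    rw [Real.norm_of_nonneg (Nat.cast_nonneg q)]
    exact Sf_norm q χ hχ t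
  · refine Asymptotics.IsBigO.of_bound (q : ℝ) (Eventually.of_forall fun t => ?_)
    simp only [neg_zero, Real.rpow_zero, norm_one, mul_one]
    exact Sf_norm q χ hχ t
  · refine Asymptotics.IsBigO.of_bound 1 ?_
    have h1 : ∀ᶠ t : ℝ in nhdsWithin 0 (Set.Ioi 0), t < 1 :=
      mem_nhdsWithin_of_mem_nhds (Iio_mem_nhds one_pos)
    filter_upwards [h1] with t ht
    rw [Sf_zero χ ht, norm_zero]
    positivity

theorem L_eq (q : ℕ) [NeZero q] (χ : DirichletCharacter ℂ q) (hχ : χ ≠ 1) (s : ℂ)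
    (hs : 0 < s.re) : DirichletCharacter.LFunction χ s = s * mellin (Sf χ) (-s) := by
  set U : Set ℂ := {z | 0 < z.re} with hU
  have hUo : IsOpen U := isOpen_lt continuous_const Complex.continuous_re
  have hf : AnalyticOnNhd ℂ (DirichletCharacter.LFunction χ) U :=
    (DirichletCharacter.differentiable_LFunction hχ).differentiableOn.analyticOnNhd hUo
  have hg : AnalyticOnNhd ℂ (fun z => z * mellin (Sf χ) (-z)) U := by
    refine DifferentiableOn.analyticOnNhd (fun z hz => ?_) hUo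
    refine (differentiableAt_id.mul ?_).differentiableWithinAt
    have h1 : DifferentiableAt ℂ (mellin (Sf χ)) (-z) := by
      refine Sf_diff q χ hχ (-z) ?_
      rw [Complex.neg_re]
      have : 0 < z.re := hz
      linarith
    exact DifferentiableAt.comp (g := mellin (Sf χ)) z h1 differentiableAt_id.neg
  have hpre : IsPreconnected U := (convex_halfSpace_re_gt 0).isPreconnected
  have h2 : (2 : ℂ) ∈ U := by
    show 0 < (2 : ℂ).re
    norm_num
  have hev : DirichletCharacter.LFunction χ =ᶠ[nhds (2 : ℂ)] fun z => z * mellin (Sf χ) (-z) := by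
    have h3 : {z : ℂ | 1 < z.re} ∈ nhds (2 : ℂ) := by
      refine (isOpen_lt continuous_const Complex.continuous_re).mem_nhds ?_
      show 1 < (2 : ℂ).re
      norm_num
    filter_upwards [h3] with z hz
    have hz1 : 1 < z.re := hz
    rw [DirichletCharacter.LFunction_eq_LSeries χ hz1, Sf_mellin]
    refine LSeries_eq_mul_integral (fun n : ℕ => χ (n : ZMod q)) (r := 0) le_rfl (by linarith)
      (DirichletCharacter.LSeriesSummable_of_one_lt_re χ hz1) ?_
    refine Asymptotics.IsBigO.of_bound (q : ℝ) (Eventually.of_forall fun n => ?_)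
    rw [Real.rpow_zero, norm_one, mul_one]
    exact Icc_partial q χ hχ n
  exact hf.eqOn_of_preconnected_of_eventuallyEq hg hpre h2 hev hs

theorem L_int_bound (q : ℕ) [NeZero q] (χ : DirichletCharacter ℂ q) (hχ : χ ≠ 1) (s : ℂ)
    (hs : 0 < s.re) : ‖mellin (Sf χ) (-s)‖ ≤ q / s.re := by
  rw [Sf_mellin]
  have h1 : MeasureTheory.IntegrableOn (fun t : ℝ => (q : ℝ) * t ^ (-(s.re + 1))) (Set.Ioi 1) :=
    (integrableOn_Ioi_rpow_of_lt (by linarith) one_pos).const_mul _
  have h2 : ‖∫ t in Set.Ioi (1 : ℝ), Sf χ t * (t : ℂ) ^ (-(s + 1))‖ ≤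
      ∫ t in Set.Ioi (1 : ℝ), (q : ℝ) * t ^ (-(s.re + 1)) := by
    refine MeasureTheory.norm_integral_le_of_norm_le h1 ?_
    refine (MeasureTheory.ae_restrict_iff' measurableSet_Ioi).mpr (Eventually.of_forall ?_)
    intro t ht
    have ht0 : (0 : ℝ) < t := lt_trans one_pos ht
    rw [norm_mul, Complex.norm_cpow_eq_rpow_re_of_pos ht0]
    have h3 : (-(s + 1)).re = -(s.re + 1) := by simp
    rw [h3]
    exact mul_le_mul_of_nonneg_right (Sf_norm q χ hχ t) (Real.rpow_nonneg ht0.le _)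
  refine h2.trans (le_of_eq ?_)
  rw [MeasureTheory.integral_const_mul, integral_Ioi_rpow_of_lt (by linarith) one_pos,
    Real.one_rpow]
  have h4 : -(s.re + 1) + 1 = -s.re := by ring
  rw [h4, neg_div_neg_eq, mul_one_div]

theorem L_bound : ∃ C : ℝ, 0 < C ∧ ∀ q : ℕ, ∀ _ : NeZero q, ∀ χ : DirichletCharacter ℂ q, χ ≠ 1 →
    ∀ s : ℂ, 1 / 2 ≤ s.re → ‖s‖ ≤ 4 → ‖DirichletCharacter.LFunction χ s‖ ≤ C * q := by
  refine ⟨8, by norm_num, fun q _ χ hχ s hs hs4 => ?_⟩
  have h0 : 0 < s.re := by linarith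
  rw [L_eq q χ hχ s h0, norm_mul]
  have h1 := L_int_bound q χ hχ s h0
  have h2 : (q : ℝ) / s.re ≤ 2 * q := by
    rw [div_le_iff₀ h0]
    have : (0 : ℝ) ≤ q := Nat.cast_nonneg q
    nlinarith
  calc ‖s‖ * ‖mellin (Sf χ) (-s)‖ ≤ 4 * (2 * q) := by
        refine mul_le_mul hs4 (h1.trans h2) (norm_nonneg _) (by norm_num)
    _ = 8 * q := by ring

/-- Real characters: real values on the real axis. -/
theorem L_real (q : ℕ) [NeZero q] (χ : DirichletCharacter ℂ q) (hχ : χ ≠ 1) (h : RealChar χ)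
    (s : ℝ) (hs : 0 < s) : (DirichletCharacter.LFunction χ (s : ℂ)).im = 0 := by
  rw [L_eq q χ hχ s (by simpa using hs), Sf_mellin]
  have h1 : ∀ t ∈ Set.Ioi (1 : ℝ), Sf χ t * (t : ℂ) ^ (-((s : ℂ) + 1)) =
      (((Sf χ t).re * t ^ (-(s + 1)) : ℝ) : ℂ) := by
    intro t ht
    have ht0 : (0 : ℝ) < t := lt_trans one_pos ht
    have h2 : (Sf χ t).im = 0 := by
      unfold Sf
      rw [Complex.im_sum]
      refine Finset.sum_eq_zero fun k _ => ?_
      rcases h (k : ZMod q) with h | h | h <;> rw [h] <;> simp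
    have h3 : Sf χ t = (((Sf χ t).re : ℝ) : ℂ) := by
      apply Complex.ext <;> simp [h2]
    have h4 : (t : ℂ) ^ (-((s : ℂ) + 1)) = ((t ^ (-(s + 1)) : ℝ) : ℂ) := by
      rw [Complex.ofReal_cpow ht0.le]
      push_cast
      rfl
    rw [h4]
    nth_rw 1 [h3]
    push_cast
    rfl
  rw [MeasureTheory.setIntegral_congr_fun measurableSet_Ioi h1, integral_complex_ofReal,
    ← Complex.ofReal_mul, Complex.ofReal_im]

theorem L_two_pos (q : ℕ) [NeZero q] (χ : DirichletCharacter ℂ q) :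
    0 < (DirichletCharacter.LFunction χ 2).re := by
  have hre : 1 < (2 : ℂ).re := by norm_num
  have hsum : LSeriesSummable (fun n : ℕ => χ (n : ZMod q)) 2 :=
    DirichletCharacter.LSeriesSummable_of_one_lt_re χ hre
  rw [DirichletCharacter.LFunction_eq_LSeries χ hre]
  have h1 : HasSum (fun n : ℕ => LSeries.term (fun n : ℕ => χ (n : ZMod q)) 2 n)
      (LSeries (fun n : ℕ => χ (n : ZMod q)) 2) := hsum.hasSum
  have h2 : HasSum (fun n : ℕ => if n = 1 then (1 : ℂ) else 0) 1 := hasSum_ite_eq 1 1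
  have h3 := h1.sub h2
  have h4 : HasSum (fun n : ℕ => 1 / (n : ℝ) ^ 2 - if n = 1 then (1 : ℝ) else 0)
      (Real.pi ^ 2 / 6 - 1) := hasSum_zeta_two.sub (hasSum_ite_eq 1 1)
  have h5 : ‖LSeries (fun n : ℕ => χ (n : ZMod q)) 2 - 1‖ ≤ Real.pi ^ 2 / 6 - 1 := by
    rw [← h3.tsum_eq]
    refine tsum_of_norm_bounded h4 fun n => ?_
    by_cases hn0 : n = 0
    · subst hn0
      simp
    by_cases hn : n = 1
    · subst hn
      simp [LSeries.term]
    · rw [if_neg hn, if_neg hn, sub_zero, sub_zero, LSeries.term_of_ne_zero hn0, norm_div]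
      have h6 : ‖(n : ℂ) ^ (2 : ℂ)‖ = (n : ℝ) ^ 2 := by
        have h7 : (n : ℂ) ^ (2 : ℂ) = (n : ℂ) ^ 2 := by
          exact_mod_cast Complex.cpow_natCast (n : ℂ) 2
        rw [h7, norm_pow, Complex.norm_natCast]
      rw [h6]
      exact div_le_div_of_nonneg_right (DirichletCharacter.norm_le_one χ _) (by positivity)
  have h6 : Real.pi ^ 2 / 6 - 1 < 1 := by
    have := Real.pi_lt_d2
    have := Real.pi_pos
    nlinarith
  have h7 := (Complex.abs_re_le_norm (LSeries (fun n : ℕ => χ (n : ZMod q)) 2 - 1)).trans h5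
  rw [Complex.sub_re, Complex.one_re] at h7
  have h8 := neg_le_of_abs_le h7
  linarith

theorem L_pos (q : ℕ) [NeZero q] (χ : DirichletCharacter ℂ q) (hχ : χ ≠ 1) (h : RealChar χ) :
    0 < L1 χ := by
  unfold L1
  by_contra hneg
  push Not at hneg
  have hc : Continuous fun s : ℝ => (DirichletCharacter.LFunction χ (s : ℂ)).re :=
    Complex.continuous_re.comp ((DirichletCharacter.differentiable_LFunction hχ).continuous.comp
      Complex.continuous_ofReal)
  have h2 := L_two_pos q χ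
  have h12 : (1 : ℝ) ≤ 2 := by norm_num
  have hivt := intermediate_value_Icc h12 hc.continuousOn
  have hmem : (0 : ℝ) ∈ Set.Icc ((DirichletCharacter.LFunction χ ((1 : ℝ) : ℂ)).re)
      ((DirichletCharacter.LFunction χ ((2 : ℝ) : ℂ)).re) := by
    constructor
    · push_cast
      exact hneg
    · push_cast
      exact h2.le
  obtain ⟨s, hs, hs0⟩ := hivt hmem
  have hs1 : 1 ≤ s := hs.1
  have him := L_real q χ hχ h s (by linarith)
  have hz : DirichletCharacter.LFunction χ (s : ℂ) = 0 := Complex.ext hs0 him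
  exact DirichletCharacter.LFunction_ne_zero_of_one_le_re χ (Or.inl hχ) (by simpa using hs1) hz

end Pool.Agent.GLI
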