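import Pool.Agent.GLI.PV
import Pool.Agent.MertensAP.Mangoldt

set_option autoImplicit false

/-!
Module LOne. For `χ ≠ 1` and partial sums bounded by `B`: Abel summation, `∑_{d ≤ D} χ(d)/d` converges at
rate `2B/(D+1)`; the limit is `L(1, χ)` (`LFunction` is continuous at 1 and equals the LSeries for `s > 1`;
Abel summation is uniform for `s ≥ 1`). `B = q` always works.
-/

open Finset Filter

namespace Pool.Agent.GLI

/-- `L(1, χ)`, real part. -/
noncomputable def L1 {q : ℕ} [NeZero q] (χ : DirichletCharacter ℂ q) : ℝ := (DirichletCharacter.LFunction χ 1).re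

/-- `∑_{d ∣ n} χ(d)`, real part. -/
noncomputable def rr {q : ℕ} (χ : DirichletCharacter ℂ q) (n : ℕ) : ℝ :=
  ∑ d ∈ n.divisors, (χ (d : ZMod q)).re

theorem lone_parts (q : ℕ) [NeZero q] (χ : DirichletCharacter ℂ q) (B : ℝ)
    (hB : ∀ x : ℕ, ‖∑ n ∈ range x, χ (n : ZMod q)‖ ≤ B) (D M : ℕ) (h : D ≤ M) :
    ‖∑ d ∈ Ioc D M, χ (d : ZMod q) / d -
      (∑ d ∈ range (M + 1), χ (d : ZMod q) - ∑ d ∈ range (D + 1), χ (d : ZMod q)) / ((M : ℂ) + 1)‖ ≤
      2 * B * (1 / ((D : ℝ) + 1) - 1 / ((M : ℝ) + 1)) := by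
  induction M, h using Nat.le_induction with
  | base => simp
  | succ M hM ih =>
    set T : ℕ → ℂ := fun n => ∑ d ∈ range (n + 1), χ (d : ZMod q) -
      ∑ d ∈ range (D + 1), χ (d : ZMod q) with hT
    have hTn : ∀ n, ‖T n‖ ≤ 2 * B := by
      intro n
      refine (norm_sub_le _ _).trans ?_
      linarith [hB (n + 1), hB (D + 1)]
    have hM1 : ((M : ℂ) + 1) ≠ 0 := by exact_mod_cast Nat.succ_ne_zero M
    have hM2 : ((M : ℂ) + 1 + 1) ≠ 0 := by exact_mod_cast Nat.succ_ne_zero (M + 1)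
    have e1 : ∑ d ∈ Ioc D (M + 1), χ (d : ZMod q) / d =
        ∑ d ∈ Ioc D M, χ (d : ZMod q) / d + χ ((M + 1 : ℕ) : ZMod q) / ((M : ℂ) + 1) := by
      rw [← Finset.insert_Ioc_right_eq_Ioc_add_one (by omega), Finset.sum_insert (by simp)]
      push_cast
      ring
    have e2 : T (M + 1) = T M + χ ((M + 1 : ℕ) : ZMod q) := by
      simp only [hT]
      rw [Finset.sum_range_succ _ (M + 1)]
      ring
    have e3 : ∑ d ∈ Ioc D (M + 1), χ (d : ZMod q) / d - T (M + 1) / (((M + 1 : ℕ) : ℂ) + 1) =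
        (∑ d ∈ Ioc D M, χ (d : ZMod q) / d - T M / ((M : ℂ) + 1)) +
          T (M + 1) * (1 / ((M : ℂ) + 1) - 1 / ((M : ℂ) + 1 + 1)) := by
      rw [e1, e2]
      push_cast
      field_simp
      ring
    have e4 : ‖T (M + 1) * (1 / ((M : ℂ) + 1) - 1 / ((M : ℂ) + 1 + 1))‖ ≤
        2 * B * (1 / ((M : ℝ) + 1) - 1 / ((M : ℝ) + 1 + 1)) := by
      rw [norm_mul]
      have h5 : ‖(1 / ((M : ℂ) + 1) - 1 / ((M : ℂ) + 1 + 1))‖ =
          1 / ((M : ℝ) + 1) - 1 / ((M : ℝ) + 1 + 1) := by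
        have h6 : (1 / ((M : ℂ) + 1) - 1 / ((M : ℂ) + 1 + 1)) =
            ((1 / ((M : ℝ) + 1) - 1 / ((M : ℝ) + 1 + 1) : ℝ) : ℂ) := by
          push_cast
          ring
        rw [h6, Complex.norm_real, Real.norm_eq_abs, abs_of_nonneg]
        rw [sub_nonneg]
        apply one_div_le_one_div_of_le (by positivity)
        linarith
      rw [h5]
      apply mul_le_mul_of_nonneg_right (hTn _)
      rw [sub_nonneg]
      apply one_div_le_one_div_of_le (by positivity)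
      linarith
    have e5 := (norm_add_le _ _).trans (add_le_add ih e4)
    rw [← e3] at e5
    refine e5.trans (le_of_eq ?_)
    push_cast
    ring

theorem lone_sum (q : ℕ) [NeZero q] (χ : DirichletCharacter ℂ q) (B : ℝ)
    (hB : ∀ x : ℕ, ‖∑ n ∈ range x, χ (n : ZMod q)‖ ≤ B) (D M : ℕ) (h : D ≤ M) :
    ‖∑ d ∈ Ioc D M, χ (d : ZMod q) / d‖ ≤ 2 * B / ((D : ℝ) + 1) := by
  have h1 := lone_parts q χ B hB D M h
  have h2 : ‖(∑ d ∈ range (M + 1), χ (d : ZMod q) - ∑ d ∈ range (D + 1), χ (d : ZMod q)) /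
      ((M : ℂ) + 1)‖ ≤ 2 * B * (1 / ((M : ℝ) + 1)) := by
    rw [norm_div]
    have h3 : ‖((M : ℂ) + 1)‖ = (M : ℝ) + 1 := by
      have : ((M : ℂ) + 1) = ((M + 1 : ℕ) : ℂ) := by push_cast; ring
      rw [this, Complex.norm_natCast]
      push_cast
      ring
    rw [h3, div_eq_mul_one_div]
    apply mul_le_mul_of_nonneg_right _ (by positivity)
    refine (norm_sub_le _ _).trans ?_
    linarith [hB (M + 1), hB (D + 1)]
  have h3 := norm_add_le (∑ d ∈ Ioc D M, χ (d : ZMod q) / d -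
      (∑ d ∈ range (M + 1), χ (d : ZMod q) - ∑ d ∈ range (D + 1), χ (d : ZMod q)) / ((M : ℂ) + 1))
      ((∑ d ∈ range (M + 1), χ (d : ZMod q) - ∑ d ∈ range (D + 1), χ (d : ZMod q)) / ((M : ℂ) + 1))
  rw [sub_add_cancel] at h3
  refine h3.trans ((add_le_add h1 h2).trans (le_of_eq ?_))
  ring

theorem L1_tail (q : ℕ) [NeZero q] (χ : DirichletCharacter ℂ q) (hχ : χ ≠ 1) (B : ℝ)
    (hB : ∀ x : ℕ, ‖∑ n ∈ range x, χ (n : ZMod q)‖ ≤ B) (D : ℕ) :
    |∑ d ∈ Icc 1 D, (χ (d : ZMod q)).re / d - L1 χ| ≤ 2 * B / (D + 1) := by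
  have e1 : ∑ d ∈ Icc 1 D, (χ (d : ZMod q)).re / d - L1 χ =
      (∑ d ∈ Ioc 0 D, χ (d : ZMod q) / d - χ.LFunction 1).re := by
    rw [Complex.sub_re, Complex.re_sum]
    unfold L1
    congr 1
    apply Finset.sum_congr
    · ext k
      simp only [mem_Icc, mem_Ioc]
      omega
    · intro k _
      rw [Complex.div_natCast_re]
  rw [e1]
  refine (Complex.abs_re_le_norm _).trans ?_
  apply le_of_forall_pos_le_add
  intro ε hε
  obtain ⟨M, hM⟩ := exists_nat_gt (max (D : ℝ) (2 * q / ε))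
  have hDM : D ≤ M := by
    have := lt_of_le_of_lt (le_max_left _ _) hM
    exact_mod_cast this.le
  have hM2 : 2 * (q : ℝ) / ε < M := lt_of_le_of_lt (le_max_right _ _) hM
  have hq : (0 : ℝ) < q := by
    have := Nat.pos_of_neZero q
    exact_mod_cast this
  have hM0 : (0 : ℝ) < M := lt_of_le_of_lt (by positivity) hM2
  have hM1 : 1 ≤ M := by
    have : 0 < M := by exact_mod_cast hM0
    omega
  have h1 := MertensAP.sum_char_div_sub_le χ hχ M hM1
  have h2 := lone_sum q χ B hB D M hDM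
  have e2 : ∑ d ∈ Ioc 0 D, χ (d : ZMod q) / (d : ℂ) - χ.LFunction 1 =
      (∑ d ∈ Ioc 0 M, χ (d : ZMod q) / d - χ.LFunction 1) - ∑ d ∈ Ioc D M, χ (d : ZMod q) / d := by
    rw [← Finset.sum_Ioc_consecutive _ (Nat.zero_le D) hDM]
    ring
  rw [e2]
  refine (norm_sub_le _ _).trans ?_
  have h3 : 2 * (q : ℝ) / M ≤ ε := by
    rw [div_le_iff₀ hM0]
    rw [div_lt_iff₀ hε] at hM2
    linarith
  have h4 : ‖∑ d ∈ Ioc 0 M, χ (d : ZMod q) / (d : ℂ) - χ.LFunction 1‖ ≤ 2 * q / M := h1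
  linarith

theorem lone_partial (q : ℕ) [NeZero q] (χ : DirichletCharacter ℂ q) (hχ : χ ≠ 1) (x : ℕ) :
    ‖∑ n ∈ range x, χ (n : ZMod q)‖ ≤ q := by
  rcases Nat.eq_zero_or_pos x with h | h
  · subst h
    simp
  · have e : ∑ n ∈ range x, χ (n : ZMod q) = ∑ n ∈ Icc 1 (x - 1), χ (n : ZMod q) := by
      have e1 : range x = insert 0 (Icc 1 (x - 1)) := by
        ext k
        simp only [mem_range, mem_insert, mem_Icc]
        omega
      rw [e1, Finset.sum_insert (by simp)]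
      have : χ ((0 : ℕ) : ZMod q) = 0 := by
        rw [Nat.cast_zero]
        exact MertensAP.char_zero χ hχ
      rw [this, zero_add]
    rw [e]
    exact MertensAP.norm_sum_char_le χ hχ _

theorem L1_le (q : ℕ) [NeZero q] (χ : DirichletCharacter ℂ q) (hχ : χ ≠ 1) :
    |L1 χ| ≤ 4 + Real.log q := by
  have hq : (0 : ℝ) < q := by
    have := Nat.pos_of_neZero q
    exact_mod_cast this
  have h1 := L1_tail q χ hχ q (lone_partial q χ hχ) q
  have h2 : 2 * (q : ℝ) / (q + 1) ≤ 2 := by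
    rw [div_le_iff₀ (by positivity)]
    linarith
  have h3 : |∑ d ∈ Icc 1 q, (χ (d : ZMod q)).re / d| ≤ 1 + Real.log q := by
    refine (Finset.abs_sum_le_sum_abs _ _).trans ?_
    have h4 : ∑ d ∈ Icc 1 q, |(χ (d : ZMod q)).re / (d : ℝ)| ≤ ∑ d ∈ Icc 1 q, (d : ℝ)⁻¹ := by
      apply Finset.sum_le_sum
      intro d hd
      rw [abs_div, abs_of_nonneg (Nat.cast_nonneg d : (0 : ℝ) ≤ d), div_eq_mul_inv]
      have h5 : |(χ (d : ZMod q)).re| ≤ 1 :=
        (Complex.abs_re_le_norm _).trans (DirichletCharacter.norm_le_one χ _)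
      have h6 : (0 : ℝ) ≤ (d : ℝ)⁻¹ := by positivity
      nlinarith
    refine h4.trans ?_
    have h7 := harmonic_le_one_add_log q
    rw [harmonic_eq_sum_Icc] at h7
    push_cast at h7
    exact h7
  have h4 := abs_sub_abs_le_abs_sub (L1 χ) (∑ d ∈ Icc 1 q, (χ (d : ZMod q)).re / d)
  rw [abs_sub_comm] at h4
  linarith

theorem lone_sq {q : ℕ} (χ : DirichletCharacter ℂ q) (h : RealChar χ) : χ ^ 2 = 1 := by
  ext a
  rw [MulChar.pow_apply_coe, MulChar.one_apply_coe]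
  have h1 := h (a : ZMod q)
  have h2 : χ (a : ZMod q) ≠ 0 := by
    exact (IsUnit.map χ a.isUnit).ne_zero
  rcases h1 with h1 | h1 | h1
  · exact absurd h1 h2
  · rw [h1]; norm_num
  · rw [h1]; norm_num

theorem rr_nonneg {q : ℕ} (χ : DirichletCharacter ℂ q) (h : RealChar χ) (n : ℕ) :
    0 ≤ rr χ n ∧ rr χ n ≤ n.divisors.card := by
  constructor
  · have h1 := DirichletCharacter.zetaMul_nonneg (lone_sq χ h) n
    have h2 : (DirichletCharacter.zetaMul χ n) = ∑ d ∈ n.divisors, χ (d : ZMod q) := by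
      simp only [DirichletCharacter.zetaMul, ArithmeticFunction.coe_zeta_mul_apply]
      apply Finset.sum_congr rfl
      intro d hd
      have hd0 : d ≠ 0 := (Nat.pos_of_mem_divisors hd).ne'
      simp [toArithmeticFunction, hd0]
    rw [h2] at h1
    have h3 := (Complex.le_def.mp h1).1
    rw [Complex.re_sum] at h3
    exact h3
  · unfold rr
    calc ∑ d ∈ n.divisors, (χ (d : ZMod q)).re ≤ ∑ d ∈ n.divisors, (1 : ℝ) := by
          apply Finset.sum_le_sum
          intro d _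
          exact (Complex.re_le_norm _).trans (DirichletCharacter.norm_le_one χ _)
      _ = n.divisors.card := by simp

end Pool.Agent.GLI
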