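import Pool.Agent.GLI.PVPrim
import Pool.Agent.GLI.DivB

set_option autoImplicit false

/-!
Module PV. General `χ ≠ 1 mod N` with primitive `χ*` mod `q ∣ N` (Mathlib `DirichletCharacter.primitiveCharacter`, `conductor`):
`∑_{n<x} χ(n) = ∑_{d ∣ N} μ(d) χ*(d) ∑_{m < x/d} χ*(m)`, at most `2^ω(N)` nonzero terms (omega_small), pv_prim.
-/

open Finset Filter

namespace Pool.Agent.GLI

namespace PVG

open ArithmeticFunction

theorem sum_moebius_divisors (m : ℕ) :
    ∑ d ∈ m.divisors, (ArithmeticFunction.moebius d : ℂ) = if m = 1 then 1 else 0 := by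
  have h := congrArg (fun f : ArithmeticFunction ℂ => f m)
    (ArithmeticFunction.coe_moebius_mul_coe_zeta (R := ℂ))
  simp only [coe_mul_zeta_apply, intCoe_apply, one_apply] at h
  exact h

theorem sum_dvd_range {d : ℕ} (hd : 0 < d) (x : ℕ) (f : ℕ → ℂ) :
    ∑ n ∈ (range x).filter (fun n => d ∣ n), f n = ∑ m ∈ range ((x + (d - 1)) / d), f (d * m) := by
  symm
  refine Finset.sum_bij (fun m _ => d * m) ?_ ?_ ?_ ?_
  · intro m hm
    rw [Finset.mem_range] at hm
    rw [Finset.mem_filter, Finset.mem_range]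
    refine ⟨?_, dvd_mul_right _ _⟩
    have h1 : (m + 1) * d ≤ x + (d - 1) := by
      have : m + 1 ≤ (x + (d - 1)) / d := hm
      rwa [Nat.le_div_iff_mul_le hd] at this
    have h2 : (m + 1) * d = d * m + d := by ring
    omega
  · intro a _ b _ h
    exact Nat.eq_of_mul_eq_mul_left hd h
  · intro n hn
    rw [Finset.mem_filter, Finset.mem_range] at hn
    obtain ⟨m, rfl⟩ := hn.2
    refine ⟨m, ?_, rfl⟩
    rw [Finset.mem_range]
    have : m + 1 ≤ (x + (d - 1)) / d := by
      rw [Nat.le_div_iff_mul_le hd]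
      have h2 : (m + 1) * d = d * m + d := by ring
      omega
    exact this
  · intro m _
    rfl

theorem char_split {N : ℕ} [NeZero N] (χ : DirichletCharacter ℂ N) (n : ℕ) :
    χ (n : ZMod N) = ∑ d ∈ N.divisors.filter (fun d => d ∣ n),
      (ArithmeticFunction.moebius d : ℂ) * χ.primitiveCharacter (n : ZMod χ.conductor) := by
  have hN : N ≠ 0 := NeZero.ne N
  rw [← Finset.sum_mul]
  have h1 : N.divisors.filter (fun d => d ∣ n) = (Nat.gcd n N).divisors := by
    ext d
    simp only [Finset.mem_filter, Nat.mem_divisors]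
    constructor
    · rintro ⟨⟨h1, h2⟩, h3⟩
      exact ⟨Nat.dvd_gcd h3 h1, Nat.gcd_ne_zero_right h2⟩
    · rintro ⟨h1, h2⟩
      exact ⟨⟨h1.trans (Nat.gcd_dvd_right _ _), hN⟩, h1.trans (Nat.gcd_dvd_left _ _)⟩
  rw [h1, sum_moebius_divisors _]
  by_cases h : n.Coprime N
  · rw [if_pos h, one_mul]
    have h2 : IsCoprime (n : ℤ) (N : ℤ) := Nat.isCoprime_iff_coprime.mpr h
    have := DirichletCharacter.primitiveCharacter_apply_of_isCoprime χ h2
    push_cast at this
    exact this.symm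
  · rw [if_neg h, zero_mul]
    apply MulChar.map_nonunit
    rw [ZMod.isUnit_iff_coprime]
    exact h

theorem sum_abs_moebius {N : ℕ} (hN : N ≠ 0) :
    ∑ d ∈ N.divisors, ‖(ArithmeticFunction.moebius d : ℂ)‖ = (2 : ℝ) ^ N.primeFactors.card := by
  have h1 : ∀ d ∈ N.divisors, ‖(ArithmeticFunction.moebius d : ℂ)‖ =
      if Squarefree d then (1 : ℝ) else 0 := by
    intro d _
    rw [Complex.norm_intCast]
    have := ArithmeticFunction.abs_moebius (n := d)
    have h2 : |((ArithmeticFunction.moebius d : ℤ) : ℝ)| = ((|ArithmeticFunction.moebius d| : ℤ) : ℝ) := by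
      push_cast; rfl
    rw [h2, this]
    split_ifs <;> simp
  rw [Finset.sum_congr rfl h1, ← Finset.sum_filter, Nat.sum_divisors_filter_squarefree hN]
  rw [Finset.sum_const, Finset.card_powerset]
  have : (UniqueFactorizationMonoid.normalizedFactors N).toFinset = N.primeFactors := by
    rw [Nat.factors_eq]
    rfl
  rw [this]
  simp

end PVG

theorem pv (δ : ℝ) (hδ : 0 < δ) : ∀ᶠ N : ℕ in atTop, ∀ χ : DirichletCharacter ℂ N, χ ≠ 1 →
    ∀ x : ℕ, ‖∑ n ∈ range x, χ (n : ZMod N)‖ ≤ (N : ℝ) ^ (1 / 2 + δ) := by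
  obtain ⟨C, hC, hpv⟩ := pv_prim
  have e1 := ev_pow (1 / 2 + δ / 2) (1 / 2 + δ) (by linarith) 1 (2 * C)
  filter_upwards [omega_small (δ / 2) (by linarith), e1, ev_log 1, eventually_ge_atTop 1]
    with N hom he hlog hN1 χ hχ x
  have hN : N ≠ 0 := by omega
  have : NeZero N := ⟨hN⟩
  have hN0 : (0 : ℝ) < N := by exact_mod_cast hN1
  have hc0 : χ.conductor ≠ 0 := DirichletCharacter.conductor_ne_zero χ
  have : NeZero χ.conductor := ⟨hc0⟩
  have hcN : χ.conductor ≤ N := Nat.le_of_dvd (by omega) χ.conductor_dvd_level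
  have hcN' : (χ.conductor : ℝ) ≤ N := by exact_mod_cast hcN
  have hc0' : (0 : ℝ) < χ.conductor := by
    have : 0 < χ.conductor := by omega
    exact_mod_cast this
  have hprim := χ.primitiveCharacter_isPrimitive
  have hne : χ.primitiveCharacter ≠ 1 := by
    intro h
    apply hχ
    rw [← χ.changeLevel_primitiveCharacter, h, map_one]
  set B : ℝ := C * Real.sqrt N * (1 + Real.log N) with hB
  have hbd : ∀ y : ℕ, ‖∑ n ∈ range y, χ.primitiveCharacter (n : ZMod χ.conductor)‖ ≤ B := by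
    intro y
    refine (hpv χ.conductor inferInstance χ.primitiveCharacter hprim hne y).trans ?_
    have h1 : Real.log χ.conductor ≤ Real.log N := Real.log_le_log hc0' hcN'
    have h2 : Real.sqrt χ.conductor ≤ Real.sqrt N := Real.sqrt_le_sqrt hcN'
    have h3 : 0 ≤ Real.log χ.conductor := Real.log_natCast_nonneg _
    rw [hB]
    gcongr
  have hB0 : 0 ≤ B := (norm_nonneg _).trans (hbd 0)
  have key : ∑ n ∈ range x, χ (n : ZMod N) = ∑ d ∈ N.divisors,
      (ArithmeticFunction.moebius d : ℂ) * (χ.primitiveCharacter (d : ZMod χ.conductor) *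
        ∑ m ∈ range ((x + (d - 1)) / d), χ.primitiveCharacter (m : ZMod χ.conductor)) := by
    have h1 : ∀ n ∈ range x, χ (n : ZMod N) = ∑ d ∈ N.divisors,
        if d ∣ n then (ArithmeticFunction.moebius d : ℂ) *
          χ.primitiveCharacter (n : ZMod χ.conductor) else 0 := by
      intro n _
      rw [PVG.char_split χ n, Finset.sum_filter]
    rw [Finset.sum_congr rfl h1, Finset.sum_comm]
    refine Finset.sum_congr rfl fun d hd => ?_
    have hd0 : 0 < d := Nat.pos_of_mem_divisors hd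
    rw [← Finset.sum_filter, PVG.sum_dvd_range hd0, Finset.mul_sum, Finset.mul_sum]
    refine Finset.sum_congr rfl fun m _ => ?_
    rw [Nat.cast_mul, map_mul]
  rw [key]
  refine (norm_sum_le _ _).trans ?_
  have h2 : ∀ d ∈ N.divisors, ‖(ArithmeticFunction.moebius d : ℂ) *
      (χ.primitiveCharacter (d : ZMod χ.conductor) *
        ∑ m ∈ range ((x + (d - 1)) / d), χ.primitiveCharacter (m : ZMod χ.conductor))‖ ≤
      ‖(ArithmeticFunction.moebius d : ℂ)‖ * B := by
    intro d _
    rw [norm_mul, norm_mul]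
    have h3 := DirichletCharacter.norm_le_one χ.primitiveCharacter (d : ZMod χ.conductor)
    have h4 := hbd ((x + (d - 1)) / d)
    have h5 : ‖χ.primitiveCharacter (d : ZMod χ.conductor)‖ *
        ‖∑ m ∈ range ((x + (d - 1)) / d), χ.primitiveCharacter (m : ZMod χ.conductor)‖ ≤ 1 * B :=
      mul_le_mul h3 h4 (norm_nonneg _) zero_le_one
    rw [one_mul] at h5
    gcongr
  refine (Finset.sum_le_sum h2).trans ?_
  rw [← Finset.sum_mul, PVG.sum_abs_moebius hN]
  have h6 : B ≤ 2 * C * (N : ℝ) ^ (1 / 2 : ℝ) * Real.log N := by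
    rw [hB, Real.sqrt_eq_rpow]
    have : (0 : ℝ) ≤ C * (N : ℝ) ^ (1 / 2 : ℝ) := by positivity
    nlinarith
  calc (2 : ℝ) ^ N.primeFactors.card * B
      ≤ (N : ℝ) ^ (δ / 2) * (2 * C * (N : ℝ) ^ (1 / 2 : ℝ) * Real.log N) := by
        gcongr
    _ = 2 * C * (N : ℝ) ^ (1 / 2 + δ / 2) * Real.log N ^ 1 := by
        rw [Real.rpow_add hN0]; ring
    _ ≤ _ := he


end Pool.Agent.GLI
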