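import Pool.Agent.GLI.Ev

set_option autoImplicit false

/-!
Module PVPrim (Polya-Vinogradov for primitive characters). `τ χ(n) = ∑_a χ(a) e(a n/q)`-type formula for primitive
characters (`gaussSum_mulShift_of_isPrimitive`), `|τ|² = q` (Mathlib; or: Parseval on `ZMod q` for the Fourier transform of `χ`),
geometric sums: `|∑_{n < x} χ(n)| ≤ q^{-1/2} ∑_{a=1}^{q-1} 1/(2‖a/q‖) ≤ √q (1 + log q)`.
-/

open Finset Filter

namespace Pool.Agent.GLI

namespace PVP

open ZMod DirichletCharacter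

/-- inverse of a primitive character is primitive -/
theorem prim_inv {q : ℕ} {χ : DirichletCharacter ℂ q} (hχ : χ.IsPrimitive) :
    (χ⁻¹).IsPrimitive := by
  have h : ∀ d : ℕ, χ⁻¹.FactorsThrough d → χ.FactorsThrough d := by
    intro d hd
    obtain ⟨h1, χ₀, h2⟩ := hd
    refine ⟨h1, χ₀⁻¹, ?_⟩
    rw [map_inv, ← h2, inv_inv]
  have h' : ∀ d : ℕ, χ.FactorsThrough d → χ⁻¹.FactorsThrough d := by
    intro d hd
    obtain ⟨h1, χ₀, h2⟩ := hd
    refine ⟨h1, χ₀⁻¹, ?_⟩
    rw [map_inv, ← h2]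
  have : χ⁻¹.conductor = χ.conductor := by
    unfold DirichletCharacter.conductor
    congr 1
    ext d
    exact ⟨fun hd => h d hd, fun hd => h' d hd⟩
  unfold DirichletCharacter.IsPrimitive
  rw [this]
  exact hχ

variable {q : ℕ} [NeZero q]

theorem gauss_mul {χ : DirichletCharacter ℂ q} (hχ : χ.IsPrimitive) :
    (q : ℂ) * χ (-1) = gaussSum χ stdAddChar * gaussSum χ⁻¹ stdAddChar := by
  have h1 := congrFun (dft_dft (fun j : ZMod q => χ j)) 1
  simp only [smul_eq_mul] at h1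
  rw [← h1, dft_apply]
  have h2 : ∀ k : ZMod q, ZMod.dft (fun j : ZMod q => χ j) k = χ⁻¹ (-k) * gaussSum χ stdAddChar :=
    fun k => IsPrimitive.fourierTransform_eq_inv_mul_gaussSum hχ k
  simp only [h2, smul_eq_mul, mul_one]
  have h3 : gaussSum χ⁻¹ (stdAddChar : AddChar (ZMod q) ℂ) =
      ∑ x : ZMod q, stdAddChar (-x) * χ⁻¹ (-x) := by
    rw [gaussSum]
    rw [← Equiv.sum_comp (Equiv.neg (ZMod q))]
    refine Finset.sum_congr rfl fun x _ => ?_
    simp only [Equiv.neg_apply]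
    ring
  rw [h3, Finset.mul_sum]
  refine Finset.sum_congr rfl fun x _ => ?_
  ring

theorem norm_gauss {χ : DirichletCharacter ℂ q} (hχ : χ.IsPrimitive) :
    ‖gaussSum χ (stdAddChar : AddChar (ZMod q) ℂ)‖ = Real.sqrt q := by
  have h1 := gauss_mul hχ
  have h2 : star (gaussSum χ (stdAddChar : AddChar (ZMod q) ℂ)) =
      χ (-1) * gaussSum χ⁻¹ (stdAddChar : AddChar (ZMod q) ℂ) := by
    rw [star_gaussSum_eq, AddChar.inv_mulShift, gaussSum_mulShift_of_isPrimitive _ (prim_inv hχ),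
      inv_inv]
  have h4 : ‖χ (-1)‖ = 1 := by
    have := DirichletCharacter.unit_norm_eq_one χ (-1)
    simpa using this
  have h3 : ‖gaussSum χ⁻¹ (stdAddChar : AddChar (ZMod q) ℂ)‖ =
      ‖gaussSum χ (stdAddChar : AddChar (ZMod q) ℂ)‖ := by
    have := congrArg norm h2
    rw [norm_star, norm_mul] at this
    rw [h4, one_mul] at this
    exact this.symm
  have h5 := congrArg norm h1
  rw [norm_mul, norm_mul, h3] at h5
  rw [h4, mul_one, Complex.norm_natCast] at h5
  rw [eq_comm, Real.sqrt_eq_iff_mul_self_eq (by positivity) (by positivity)]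
  exact h5

theorem char_formula {χ : DirichletCharacter ℂ q} (hχ : χ.IsPrimitive) (n : ℕ) :
    χ (n : ZMod q) = (gaussSum χ stdAddChar / q) *
      ∑ k : ZMod q, χ⁻¹ (-k) * (stdAddChar k : ℂ) ^ n := by
  have h1 := congrFun (dft_dft (fun j : ZMod q => χ j)) (-(n : ZMod q))
  simp only [smul_eq_mul, neg_neg] at h1
  have h2 : ∀ k : ZMod q, ZMod.dft (fun j : ZMod q => χ j) k = χ⁻¹ (-k) * gaussSum χ stdAddChar :=
    fun k => IsPrimitive.fourierTransform_eq_inv_mul_gaussSum hχ k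
  rw [dft_apply] at h1
  simp only [h2, smul_eq_mul] at h1
  have hq : (q : ℂ) ≠ 0 := by exact_mod_cast NeZero.ne q
  have h3 : χ (n : ZMod q) = (∑ x : ZMod q, stdAddChar (-(x * -(n : ZMod q))) *
      (χ⁻¹ (-x) * gaussSum χ stdAddChar)) / q := by
    rw [h1]; field_simp
  rw [h3, Finset.mul_sum, Finset.sum_div]
  refine Finset.sum_congr rfl fun x _ => ?_
  have h4 : (stdAddChar (-(x * -(n : ZMod q))) : ℂ) = (stdAddChar x : ℂ) ^ n := by
    rw [← AddChar.map_nsmul_eq_pow]
    congr 1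
    rw [nsmul_eq_mul]; ring
  rw [h4]; ring

omit [NeZero q] in
theorem sin_lower (hq : 1 ≤ q) (k : ℕ) (hk1 : 1 ≤ k) (hk : k < q) :
    1 / (Real.sin (Real.pi * (k / q))) ≤ (q : ℝ) / 2 * (1 / k + 1 / ((q : ℝ) - k)) := by
  have hq0 : (0 : ℝ) < q := by exact_mod_cast hq
  have hk0 : (0 : ℝ) < k := by exact_mod_cast hk1
  have hkq : (0 : ℝ) < (q : ℝ) - k := by
    have : (k : ℝ) < q := by exact_mod_cast hk
    linarith
  have hpi := Real.pi_pos
  have key : ∀ t : ℝ, 0 < t → t ≤ 1 / 2 → 1 / Real.sin (Real.pi * t) ≤ 1 / (2 * t) := by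
    intro t ht ht2
    apply one_div_le_one_div_of_le (by positivity)
    have := Real.mul_le_sin (x := Real.pi * t) (by positivity) (by nlinarith)
    calc 2 * t = 2 / Real.pi * (Real.pi * t) := by field_simp
      _ ≤ _ := this
  rcases le_or_gt ((k : ℝ) / q) (1 / 2) with h | h
  · refine (key _ (by positivity) h).trans ?_
    have : 1 / (2 * ((k : ℝ) / q)) = q / 2 * (1 / k) := by field_simp
    rw [this]
    have : (0 : ℝ) ≤ 1 / ((q : ℝ) - k) := by positivity
    gcongr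
    linarith
  · have h1 : Real.sin (Real.pi * ((k : ℝ) / q)) = Real.sin (Real.pi * (((q : ℝ) - k) / q)) := by
      rw [← Real.sin_pi_sub]
      congr 1
      field_simp
    rw [h1]
    refine (key _ (by positivity) ?_).trans ?_
    · rw [sub_div, div_self hq0.ne']
      linarith
    have : 1 / (2 * (((q : ℝ) - k) / q)) = q / 2 * (1 / ((q : ℝ) - k)) := by field_simp
    rw [this]
    have : (0 : ℝ) ≤ 1 / (k : ℝ) := by positivity
    gcongr
    linarith

theorem geom_bound (k : ZMod q) (hk : k ≠ 0) (x : ℕ) :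
    ‖∑ n ∈ range x, (stdAddChar k : ℂ) ^ n‖ ≤
      (q : ℝ) / 2 * (1 / (k.val : ℝ) + 1 / ((q : ℝ) - k.val)) := by
  have hq1 : 1 ≤ q := Nat.one_le_iff_ne_zero.mpr (NeZero.ne q)
  have hq0 : (0 : ℝ) < q := by exact_mod_cast hq1
  have hkv : 1 ≤ k.val := by
    rw [Nat.one_le_iff_ne_zero]
    intro h
    exact hk ((ZMod.val_eq_zero k).mp h)
  have hkq : k.val < q := ZMod.val_lt k
  have hk0 : (0 : ℝ) < (k.val : ℝ) := by exact_mod_cast hkv
  have hkq' : (k.val : ℝ) < q := by exact_mod_cast hkq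
  set ω : ℂ := stdAddChar k with hω
  have h1 : ω = Complex.exp (Complex.I * ((2 * Real.pi * ((k.val : ℝ) / q) : ℝ) : ℂ)) := by
    have h0 : ω = stdAddChar ((k.val : ℤ) : ZMod q) := by
      rw [hω]; congr 1; simp
    rw [h0, ZMod.stdAddChar_coe]
    congr 1
    push_cast
    ring
  have hsin : 0 < Real.sin (Real.pi * ((k.val : ℝ) / q)) := by
    apply Real.sin_pos_of_pos_of_lt_pi (by positivity)
    have : (k.val : ℝ) / q < 1 := by rw [div_lt_one hq0]; exact hkq'
    nlinarith [Real.pi_pos]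
  have h2 : ‖ω - 1‖ = 2 * Real.sin (Real.pi * ((k.val : ℝ) / q)) := by
    rw [h1, Complex.norm_exp_I_mul_ofReal_sub_one]
    rw [show 2 * Real.pi * ((k.val : ℝ) / q) / 2 = Real.pi * ((k.val : ℝ) / q) by ring]
    rw [Real.norm_eq_abs, abs_of_pos (by positivity)]
  have hne : ω ≠ 1 := by
    intro h
    rw [h, sub_self, norm_zero] at h2
    linarith
  rw [geom_sum_eq hne, norm_div, h2]
  have h3 : ‖ω‖ = 1 := by
    rw [h1, mul_comm]
    exact Complex.norm_exp_ofReal_mul_I _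
  have h4 : ‖ω ^ x - 1‖ ≤ 2 := by
    refine (norm_sub_le _ _).trans ?_
    rw [norm_pow, h3]
    norm_num
  calc ‖ω ^ x - 1‖ / (2 * Real.sin (Real.pi * ((k.val : ℝ) / q)))
      ≤ 2 / (2 * Real.sin (Real.pi * ((k.val : ℝ) / q))) := by gcongr
    _ = 1 / Real.sin (Real.pi * ((k.val : ℝ) / q)) := by field_simp
    _ ≤ _ := sin_lower hq1 _ hkv hkq

theorem harm_bound (hq : 2 ≤ q) :
    ∑ k : ZMod q, (if k = 0 then (0 : ℝ) else
      (q : ℝ) / 2 * (1 / (k.val : ℝ) + 1 / ((q : ℝ) - k.val))) ≤ q * (1 + Real.log q) := by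
  have h1 : ∑ k : ZMod q, (if k = 0 then (0 : ℝ) else
      (q : ℝ) / 2 * (1 / (k.val : ℝ) + 1 / ((q : ℝ) - k.val))) =
      ∑ j ∈ Finset.Ico 1 q, (q : ℝ) / 2 * (1 / (j : ℝ) + 1 / ((q : ℝ) - j)) := by
    rw [← Finset.sum_filter_add_sum_filter_not Finset.univ (fun k : ZMod q => k = 0)]
    rw [Finset.sum_eq_zero (s := Finset.filter (fun k : ZMod q => k = 0) Finset.univ)
      (by intro x hx; simp at hx; simp [hx]), zero_add]
    refine Finset.sum_bij (fun k _ => k.val) ?_ ?_ ?_ ?_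
    · intro k hk
      simp only [Finset.mem_filter, Finset.mem_univ, true_and] at hk
      rw [Finset.mem_Ico]
      refine ⟨?_, ZMod.val_lt k⟩
      rw [Nat.one_le_iff_ne_zero]
      intro h
      exact hk ((ZMod.val_eq_zero k).mp h)
    · intro a _ b _ h
      exact ZMod.val_injective q h
    · intro j hj
      rw [Finset.mem_Ico] at hj
      refine ⟨(j : ZMod q), ?_, ?_⟩
      · simp only [Finset.mem_filter, Finset.mem_univ, true_and]
        rw [ZMod.natCast_eq_zero_iff]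
        intro h
        have := Nat.le_of_dvd (by omega) h
        omega
      · exact ZMod.val_cast_of_lt hj.2
    · intro k hk
      simp only [Finset.mem_filter, Finset.mem_univ, true_and] at hk
      rw [if_neg hk]
  rw [h1, ← Finset.mul_sum, Finset.sum_add_distrib]
  have h2 : ∑ j ∈ Finset.Ico 1 q, (1 : ℝ) / (j : ℝ) ≤ 1 + Real.log q := by
    have h := harmonic_le_one_add_log (q - 1)
    have h3 : (harmonic (q - 1) : ℝ) = ∑ j ∈ Finset.Ico 1 q, (1 : ℝ) / (j : ℝ) := by
      rw [harmonic_eq_sum_Icc]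
      push_cast
      have : Finset.Icc 1 (q - 1) = Finset.Ico 1 q := by
        ext a; simp only [Finset.mem_Icc, Finset.mem_Ico]; omega
      rw [this]
      refine Finset.sum_congr rfl fun _ _ => by rw [one_div]
    rw [h3] at h
    refine h.trans ?_
    have : Real.log ((q - 1 : ℕ) : ℝ) ≤ Real.log q := by
      apply Real.log_le_log
      · have : 1 ≤ q - 1 := by omega
        exact_mod_cast this
      · have : q - 1 ≤ q := by omega
        exact_mod_cast this
    linarith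
  have h3 : ∑ j ∈ Finset.Ico 1 q, (1 : ℝ) / ((q : ℝ) - j) =
      ∑ j ∈ Finset.Ico 1 q, (1 : ℝ) / (j : ℝ) := by
    refine Finset.sum_bij (fun j _ => q - j) ?_ ?_ ?_ ?_
    · intro j hj; rw [Finset.mem_Ico] at hj ⊢; omega
    · intro a ha b hb h
      rw [Finset.mem_Ico] at ha hb
      have h' : q - a = q - b := h
      omega
    · intro j hj
      rw [Finset.mem_Ico] at hj
      exact ⟨q - j, by rw [Finset.mem_Ico]; omega, Nat.sub_sub_self (by omega)⟩
    · intro j hj
      rw [Finset.mem_Ico] at hj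
      rw [Nat.cast_sub (by omega)]
  rw [h3]
  have : (0 : ℝ) ≤ q := by positivity
  nlinarith

end PVP

open ZMod in
theorem pv_prim : ∃ C : ℝ, 0 < C ∧ ∀ q : ℕ, ∀ _ : NeZero q, ∀ χ : DirichletCharacter ℂ q,
    χ.IsPrimitive → χ ≠ 1 → ∀ x : ℕ,
    ‖∑ n ∈ range x, χ (n : ZMod q)‖ ≤ C * Real.sqrt q * (1 + Real.log q) := by
  refine ⟨1, one_pos, ?_⟩
  intro q _ χ hχ hne x
  have hq2 : 2 ≤ q := by
    have h0 : q ≠ 0 := NeZero.ne q
    have h1 : q ≠ 1 := by
      intro h
      apply hne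
      subst h
      exact Subsingleton.elim _ _
    omega
  have hq0 : (0 : ℝ) < q := by
    have : 0 < q := by omega
    exact_mod_cast this
  have h1 : ∑ n ∈ range x, χ (n : ZMod q) = (gaussSum χ (stdAddChar : AddChar (ZMod q) ℂ) / q) *
      ∑ k : ZMod q, χ⁻¹ (-k) * ∑ n ∈ range x, (stdAddChar k : ℂ) ^ n := by
    simp_rw [PVP.char_formula hχ]
    rw [← Finset.mul_sum, Finset.sum_comm]
    simp_rw [Finset.mul_sum]
  rw [h1, norm_mul, norm_div, PVP.norm_gauss hχ, Complex.norm_natCast]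
  have h2 : ‖∑ k : ZMod q, χ⁻¹ (-k) * ∑ n ∈ range x, (stdAddChar k : ℂ) ^ n‖ ≤
      q * (1 + Real.log q) := by
    refine (norm_sum_le _ _).trans (le_trans (Finset.sum_le_sum fun k _ => ?_)
      (PVP.harm_bound (q := q) hq2))
    by_cases hk : k = 0
    · subst hk
      rw [if_pos rfl, neg_zero]
      have : χ⁻¹ (0 : ZMod q) = 0 := by
        have : Fact (1 < q) := ⟨by omega⟩
        exact MulChar.map_zero χ⁻¹
      rw [this]
      simp
    · rw [if_neg hk, norm_mul]
      refine le_trans ?_ (PVP.geom_bound k hk x)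
      have := DirichletCharacter.norm_le_one χ⁻¹ (-k)
      exact mul_le_of_le_one_left (norm_nonneg _) this
  calc Real.sqrt q / q * ‖∑ k : ZMod q, χ⁻¹ (-k) * ∑ n ∈ range x, (stdAddChar k : ℂ) ^ n‖
      ≤ Real.sqrt q / q * (q * (1 + Real.log q)) := by gcongr
    _ = 1 * Real.sqrt q * (1 + Real.log q) := by field_simp


end Pool.Agent.GLI
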