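import Pool.Agent.GLI.ZPerron

set_option autoImplicit false

/-!
Module Pnt (prime number theorem for `lam`, saving any power of the logarithm). `J(y) = ∑_{n ≤ y} lam n log(y/n)`.
perron with `c = 1 + 1/log y` (`y ≥ 3`): `J(y) = (y^c/2π) ∫ F(t) e^{it log y} dt`, `F(t) = G(c+it)/(c+it)²`. All derivatives
`F^{(k)}` are `≤ C_k (log(|t|+3))^B/(1+t²)` (GG_bound, Leibniz), so integrable with integral `≤ C'_k`; Fourier transform of the
`k`-th derivative: `|J(y)| ≤ C'_k e y (log y)^(-k)`.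
Unsmoothing, `0 < Δ ≤ 1`: `J(x e^Δ) - J(x) = Δ M(x) + ∑_{x < n ≤ x e^Δ} lam n log(x e^Δ/n)`, the last sum is `≤ Δ (2 Δ x)`:
`|M(x)| ≤ (|J(x e^Δ)| + |J(x)|)/Δ + 2 Δ x`; `Δ = (log x)^(-A)`, `k = 2A`. `x = 2`: trivial bound.
-/

open Finset Filter MeasureTheory
open scoped FourierTransform

namespace Pool.Agent.GLI

theorem isOpen_half : IsOpen {s : ℂ | 1 < s.re} := isOpen_lt continuous_const Complex.continuous_re

theorem GG_analyticAt {s : ℂ} (hs : 1 < s.re) : AnalyticAt ℂ GG s := by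
  have h : DifferentiableOn ℂ GG {s : ℂ | 1 < s.re} := by
    intro z hz
    have hz1 : 1 < z.re := hz
    have h1 : z ≠ 1 := by rintro rfl; simp at hz1
    have h2 : 2 * z ≠ 1 := by
      intro h
      have := congrArg Complex.re h
      simp at this
      linarith
    refine DifferentiableAt.differentiableWithinAt ?_
    unfold GG
    refine DifferentiableAt.fun_div ?_ (differentiableAt_riemannZeta h1)
      (riemannZeta_ne_zero_of_one_le_re hz1.le)
    exact (differentiableAt_riemannZeta h2).comp z (by fun_prop)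
  exact h.analyticAt (isOpen_half.mem_nhds hs)

/-- The integrand. -/
noncomputable def HH (s : ℂ) : ℂ := GG s * s ^ (-2 : ℤ)

theorem zp_analyticAt {s : ℂ} (hs : 1 < s.re) : AnalyticAt ℂ (fun z : ℂ => z ^ (-2 : ℤ)) s := by
  have h0 : s ≠ 0 := by rintro rfl; norm_num at hs
  exact AnalyticAt.fun_zpow analyticAt_id h0

theorem HH_analyticAt {s : ℂ} (hs : 1 < s.re) : AnalyticAt ℂ HH s :=
  (GG_analyticAt hs).fun_mul (zp_analyticAt hs)

theorem norm_sq_ge {σ t : ℝ} (hσ : 1 < σ) : 1 + t ^ 2 ≤ ‖(σ + t * Complex.I : ℂ)‖ ^ 2 := by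
  rw [← Complex.normSq_eq_norm_sq, Complex.normSq_apply]
  simp
  nlinarith

theorem zp_bound (m : ℕ) : ∃ C : ℝ, 0 < C ∧ ∀ σ t : ℝ, 1 < σ →
    ‖iteratedDeriv m (fun z : ℂ => z ^ (-2 : ℤ)) (σ + t * Complex.I)‖ ≤ C / (1 + t ^ 2) := by
  refine ⟨‖∏ i ∈ Finset.range m, (((-2 : ℤ) : ℂ) - i)‖ + 1, by positivity, fun σ t hσ => ?_⟩
  rw [iteratedDeriv_eq_iterate, iter_deriv_zpow, norm_mul]
  have h1 := norm_sq_ge (t := t) hσ
  have h0 : (0 : ℝ) < 1 + t ^ 2 := by positivity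
  have h2 : 1 ≤ ‖(σ + t * Complex.I : ℂ)‖ := by
    nlinarith [norm_nonneg (σ + t * Complex.I : ℂ), sq_nonneg t]
  have h3 : ‖(σ + t * Complex.I : ℂ) ^ ((-2 : ℤ) - m)‖ ≤ 1 / (1 + t ^ 2) := by
    rw [norm_zpow, show (-2 : ℤ) - m = -((m + 2 : ℕ) : ℤ) by push_cast; ring, zpow_neg,
      zpow_natCast, ← one_div]
    refine one_div_le_one_div_of_le h0 (h1.trans ?_)
    exact pow_le_pow_right₀ h2 (by omega)
  calc _ ≤ ‖∏ i ∈ Finset.range m, (((-2 : ℤ) : ℂ) - i)‖ * (1 / (1 + t ^ 2)) := by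
        gcongr
    _ = ‖∏ i ∈ Finset.range m, (((-2 : ℤ) : ℂ) - i)‖ / (1 + t ^ 2) := by ring
    _ ≤ _ := by gcongr; linarith

theorem HH_bound (k : ℕ) : ∃ C : ℝ, ∃ B : ℕ, 0 < C ∧ ∀ σ t : ℝ, 1 < σ → σ ≤ 2 →
    ‖iteratedDeriv k HH (σ + t * Complex.I)‖ ≤ C * Real.log (|t| + 3) ^ B / (1 + t ^ 2) := by
  choose C B hC hCB using GG_bound
  choose D hD hDB using zp_bound
  refine ⟨∑ i ∈ range (k + 1), (k.choose i : ℝ) * C i * D (k - i) + 1,
    ∑ i ∈ range (k + 1), B i, ?_, fun σ t hσ hσ2 => ?_⟩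
  · have : 0 ≤ ∑ i ∈ range (k + 1), (k.choose i : ℝ) * C i * D (k - i) :=
      Finset.sum_nonneg fun i _ => by have := hC i; have := hD (k - i); positivity
    linarith
  · have hs : 1 < (σ + t * Complex.I : ℂ).re := by simpa using hσ
    have h0 : (0 : ℝ) < 1 + t ^ 2 := by positivity
    have hl : 1 ≤ Real.log (|t| + 3) := by
      rw [Real.le_log_iff_exp_le (by positivity)]
      have := Real.exp_one_lt_d9
      have := abs_nonneg t
      linarith
    have e : HH = GG * fun z : ℂ => z ^ (-2 : ℤ) := rfl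
    rw [e, iteratedDeriv_mul (GG_analyticAt hs).contDiffAt (zp_analyticAt hs).contDiffAt]
    refine (norm_sum_le _ _).trans ?_
    calc _ ≤ ∑ i ∈ range (k + 1), ((k.choose i : ℝ) * C i * D (k - i)) *
          (Real.log (|t| + 3) ^ (∑ i ∈ range (k + 1), B i) / (1 + t ^ 2)) := by
          refine Finset.sum_le_sum fun i hi => ?_
          rw [norm_mul, norm_mul, Complex.norm_natCast]
          have h1 := hCB i σ t hσ hσ2
          have h2 := hDB (k - i) σ t hσ
          have h3 : Real.log (|t| + 3) ^ B i ≤ Real.log (|t| + 3) ^ (∑ i ∈ range (k + 1), B i) :=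
            pow_le_pow_right₀ hl (Finset.single_le_sum (f := B) (fun _ _ => Nat.zero_le _) hi)
          have h4 := hC i
          have h5 := hD (k - i)
          have h6 : 0 ≤ Real.log (|t| + 3) := by linarith
          calc _ ≤ (k.choose i : ℝ) * (C i * Real.log (|t| + 3) ^ B i) * (D (k - i) / (1 + t ^ 2)) := by
                gcongr
            _ ≤ (k.choose i : ℝ) * (C i * Real.log (|t| + 3) ^ (∑ i ∈ range (k + 1), B i)) *
                (D (k - i) / (1 + t ^ 2)) := by gcongr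
            _ = _ := by ring
      _ = (∑ i ∈ range (k + 1), (k.choose i : ℝ) * C i * D (k - i)) *
          (Real.log (|t| + 3) ^ (∑ i ∈ range (k + 1), B i) / (1 + t ^ 2)) := by
          rw [Finset.sum_mul]
      _ ≤ (∑ i ∈ range (k + 1), (k.choose i : ℝ) * C i * D (k - i) + 1) *
          (Real.log (|t| + 3) ^ (∑ i ∈ range (k + 1), B i) / (1 + t ^ 2)) := by
          gcongr
          linarith
      _ = _ := by ring

/-- `log(|t|+3)^B/(1+t²) ≤ C (1+|t|)^(-3/2)`. -/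
theorem log_bound (B : ℕ) : ∃ C : ℝ, 0 < C ∧ ∀ t : ℝ,
    Real.log (|t| + 3) ^ B / (1 + t ^ 2) ≤ C * (1 + ‖t‖) ^ (-(3 / 2) : ℝ) := by
  have hB : (0 : ℝ) < 2 * (B + 1) := by positivity
  refine ⟨4 * (2 * ((B : ℝ) + 1)) ^ B, by positivity, fun t => ?_⟩
  have ht := abs_nonneg t
  have hx : (1 : ℝ) ≤ |t| + 3 := by linarith
  have h1 : Real.log (|t| + 3) ≤ (|t| + 3) ^ (1 / (2 * ((B : ℝ) + 1))) * (2 * ((B : ℝ) + 1)) := by
    have := Real.log_le_rpow_div (x := |t| + 3) (ε := 1 / (2 * ((B : ℝ) + 1))) (by linarith)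
      (by positivity)
    rwa [div_div_eq_mul_div, div_one] at this
  have hl : 0 ≤ Real.log (|t| + 3) := Real.log_nonneg hx
  have h2 : Real.log (|t| + 3) ^ B ≤ (|t| + 3) ^ (1 / 2 : ℝ) * (2 * ((B : ℝ) + 1)) ^ B := by
    calc Real.log (|t| + 3) ^ B
        ≤ ((|t| + 3) ^ (1 / (2 * ((B : ℝ) + 1))) * (2 * ((B : ℝ) + 1))) ^ B :=
          pow_le_pow_left₀ hl h1 B
      _ = (|t| + 3) ^ (1 / (2 * ((B : ℝ) + 1)) * B) * (2 * ((B : ℝ) + 1)) ^ B := by
          rw [mul_pow, ← Real.rpow_natCast ((|t| + 3) ^ _) B, ← Real.rpow_mul (by linarith)]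
      _ ≤ _ := by
          refine mul_le_mul_of_nonneg_right ?_ (by positivity)
          refine Real.rpow_le_rpow_of_exponent_le hx ?_
          rw [one_div_mul_eq_div, div_le_div_iff₀ hB (by norm_num)]
          nlinarith
  have h3 : (|t| + 3) ^ (1 / 2 : ℝ) ≤ 2 * (1 + |t|) ^ (1 / 2 : ℝ) := by
    have h4 : (4 : ℝ) ^ (1 / 2 : ℝ) = 2 := by
      rw [show (4 : ℝ) = 2 ^ (2 : ℝ) by norm_num, ← Real.rpow_mul (by norm_num)]
      norm_num
    calc (|t| + 3) ^ (1 / 2 : ℝ) ≤ (4 * (1 + |t|)) ^ (1 / 2 : ℝ) :=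
          Real.rpow_le_rpow (by linarith) (by linarith) (by norm_num)
      _ = _ := by rw [Real.mul_rpow (by norm_num) (by linarith), h4]
  have h4 : (1 + |t|) ^ 2 ≤ 2 * (1 + t ^ 2) := by
    rw [← sq_abs t]
    nlinarith [sq_nonneg (1 - |t|)]
  have h5 : (0 : ℝ) < 1 + |t| := by linarith
  have h6 : (1 + ‖t‖) ^ (-(3 / 2) : ℝ) = (1 + |t|) ^ (1 / 2 : ℝ) / (1 + |t|) ^ 2 := by
    rw [Real.norm_eq_abs, ← Real.rpow_natCast (1 + |t|) 2, ← Real.rpow_sub h5]
    norm_num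
  rw [h6, div_le_iff₀ (by positivity)]
  have h7 : (0 : ℝ) < (2 * ((B : ℝ) + 1)) ^ B := by positivity
  calc Real.log (|t| + 3) ^ B ≤ (|t| + 3) ^ (1 / 2 : ℝ) * (2 * ((B : ℝ) + 1)) ^ B := h2
    _ ≤ 2 * (1 + |t|) ^ (1 / 2 : ℝ) * (2 * ((B : ℝ) + 1)) ^ B := by gcongr
    _ = 4 * (2 * ((B : ℝ) + 1)) ^ B * (1 + |t|) ^ (1 / 2 : ℝ) / 2 := by ring
    _ ≤ 4 * (2 * ((B : ℝ) + 1)) ^ B * (1 + |t|) ^ (1 / 2 : ℝ) * ((1 + t ^ 2) / (1 + |t|) ^ 2) := by
        rw [div_eq_mul_inv]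
        gcongr
        rw [inv_eq_one_div, div_le_div_iff₀ (by norm_num) (by positivity)]
        linarith
    _ = _ := by ring

/-- The function of the real variable. -/
noncomputable def FF (c : ℝ) (t : ℝ) : ℂ := HH (c + t * Complex.I)

theorem hasDeriv_iter {c : ℝ} (hc : 1 < c) (k : ℕ) (t : ℝ) :
    HasDerivAt (fun t : ℝ => Complex.I ^ k * iteratedDeriv k HH (c + t * Complex.I))
      (Complex.I ^ (k + 1) * iteratedDeriv (k + 1) HH (c + t * Complex.I)) t := by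
  have hs : 1 < (c + t * Complex.I : ℂ).re := by simpa using hc
  have h1 : HasDerivAt (iteratedDeriv k HH) (iteratedDeriv (k + 1) HH (c + t * Complex.I))
      (c + t * Complex.I) := by
    rw [iteratedDeriv_succ]
    have h := (HH_analyticAt hs).iterated_deriv k
    rw [← iteratedDeriv_eq_iterate] at h
    exact h.differentiableAt.hasDerivAt
  have h2 : HasDerivAt (fun t : ℝ => (c + t * Complex.I : ℂ)) Complex.I t := by
    have h3 : HasDerivAt (fun t : ℝ => (t : ℂ) * Complex.I) (1 * Complex.I) t :=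
      (Complex.ofRealCLM.hasDerivAt (x := t)).mul_const Complex.I
    simpa using h3.const_add (c : ℂ)
  have h4 := (h1.scomp t h2).const_mul (Complex.I ^ k)
  have e : Complex.I ^ (k + 1) * iteratedDeriv (k + 1) HH (c + t * Complex.I) =
      Complex.I ^ k * Complex.I • iteratedDeriv (k + 1) HH (c + t * Complex.I) := by
    rw [smul_eq_mul, pow_succ]
    ring
  rw [e]
  exact h4

theorem FF_iter {c : ℝ} (hc : 1 < c) (k : ℕ) : iteratedDeriv k (FF c) =
    fun t : ℝ => Complex.I ^ k * iteratedDeriv k HH (c + t * Complex.I) := by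
  induction k with
  | zero => funext t; simp [FF]
  | succ k ih =>
    rw [iteratedDeriv_succ, ih]
    funext t
    exact (hasDeriv_iter hc k t).deriv

theorem FF_diff {c : ℝ} (hc : 1 < c) (k : ℕ) : Differentiable ℝ (iteratedDeriv k (FF c)) := by
  rw [FF_iter hc]
  exact fun t => (hasDeriv_iter hc k t).differentiableAt

theorem FF_bound (k : ℕ) : ∃ C : ℝ, 0 < C ∧ ∀ c t : ℝ, 1 < c → c ≤ 2 →
    ‖iteratedDeriv k (FF c) t‖ ≤ C * (1 + ‖t‖) ^ (-(3 / 2) : ℝ) := by
  obtain ⟨C, B, hC, h⟩ := HH_bound k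
  obtain ⟨D, hD, h'⟩ := log_bound B
  refine ⟨C * D, by positivity, fun c t hc hc2 => ?_⟩
  rw [FF_iter hc]
  beta_reduce
  rw [norm_mul, norm_pow, Complex.norm_I, one_pow, one_mul]
  calc _ ≤ C * Real.log (|t| + 3) ^ B / (1 + t ^ 2) := h c t hc hc2
    _ = C * (Real.log (|t| + 3) ^ B / (1 + t ^ 2)) := by ring
    _ ≤ C * (D * (1 + ‖t‖) ^ (-(3 / 2) : ℝ)) := by gcongr; exact h' t
    _ = _ := by ring

theorem int_base : Integrable (fun t : ℝ => (1 + ‖t‖) ^ (-(3 / 2) : ℝ)) :=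
  integrable_one_add_norm (by simp; norm_num)

theorem FF_int {c : ℝ} (hc : 1 < c) (hc2 : c ≤ 2) (k : ℕ) :
    Integrable (iteratedDeriv k (FF c)) := by
  obtain ⟨C, hC, h⟩ := FF_bound k
  refine (int_base.const_mul C).mono' (FF_diff hc k).continuous.aestronglyMeasurable ?_
  exact Eventually.of_forall fun t => h c t hc hc2

theorem FF_four (k : ℕ) : ∃ C : ℝ, 0 < C ∧ ∀ c w : ℝ, 1 < c → c ≤ 2 → w ≠ 0 →
    ‖𝓕 (FF c) w‖ ≤ C / (2 * Real.pi * |w|) ^ k := by
  obtain ⟨C, hC, h⟩ := FF_bound k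
  refine ⟨C * (∫ t : ℝ, (1 + ‖t‖) ^ (-(3 / 2) : ℝ)) + 1, ?_, fun c w hc hc2 hw => ?_⟩
  · have : 0 ≤ ∫ t : ℝ, (1 + ‖t‖) ^ (-(3 / 2) : ℝ) := integral_nonneg fun t => by positivity
    positivity
  · have h1 : ContDiff ℝ ((k : ℕ∞) : WithTop ℕ∞) (FF c) :=
      contDiff_of_differentiable_iteratedDeriv fun m _ => FF_diff hc m
    have h2 := congrFun (Real.fourier_iteratedDeriv h1 (fun m _ => FF_int hc hc2 m) le_rfl) w
    have h3 : ‖𝓕 (iteratedDeriv k (FF c)) w‖ ≤ C * ∫ t : ℝ, (1 + ‖t‖) ^ (-(3 / 2) : ℝ) := by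
      calc _ ≤ ∫ t, ‖iteratedDeriv k (FF c) t‖ := by
            rw [Real.fourier_eq]
            refine (norm_integral_le_integral_norm _).trans (le_of_eq ?_)
            congr 1
            funext t
            rw [Circle.norm_smul]
        _ ≤ ∫ t : ℝ, C * (1 + ‖t‖) ^ (-(3 / 2) : ℝ) :=
            integral_mono (FF_int hc hc2 k).norm (int_base.const_mul C) fun t => h c t hc hc2
        _ = _ := integral_const_mul _ _
    rw [h2, norm_smul, norm_pow] at h3
    have h4 : ‖(2 * Real.pi * Complex.I * w : ℂ)‖ = 2 * Real.pi * |w| := by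
      simp [abs_of_pos Real.pi_pos]
    rw [h4] at h3
    have h5 : 0 < (2 * Real.pi * |w|) ^ k := by
      have := abs_pos.2 hw
      have := Real.pi_pos
      positivity
    rw [le_div_iff₀ h5]
    linarith

/-- The smoothed sum. -/
noncomputable def JJ (y : ℝ) : ℝ := ∑ n ∈ Icc 1 ⌊y⌋₊, (lam n : ℝ) * Real.log (y / n)

theorem one_le_log {y : ℝ} (hy : 3 ≤ y) : 1 ≤ Real.log y := by
  rw [Real.le_log_iff_exp_le (by linarith)]
  have := Real.exp_one_lt_d9
  linarith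

theorem JJ_bound (k : ℕ) : ∃ C : ℝ, 0 < C ∧ ∀ y : ℝ, 3 ≤ y → |JJ y| ≤ C * y / Real.log y ^ k := by
  obtain ⟨C, hC, h⟩ := FF_four k
  refine ⟨1 / (2 * Real.pi) * Real.exp 1 * C, by have := Real.pi_pos; positivity, fun y hy => ?_⟩
  have hly := one_le_log hy
  have hl0 : Real.log y ≠ 0 := by linarith
  have hy0 : (0 : ℝ) < y := by linarith
  have hpi := Real.pi_pos
  set c : ℝ := 1 + 1 / Real.log y with hcdef
  have hc : 1 < c := by
    rw [hcdef]
    have : 0 < 1 / Real.log y := by positivity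
    linarith
  have hc2 : c ≤ 2 := by
    rw [hcdef]
    have : 1 / Real.log y ≤ 1 := by
      rw [div_le_one (by linarith)]
      exact hly
    linarith
  have hcl : c * Real.log y = Real.log y + 1 := by
    rw [hcdef]
    field_simp
  set w : ℝ := -(Real.log y) / (2 * Real.pi) with hw
  have hw0 : w ≠ 0 := by
    rw [hw]
    exact div_ne_zero (neg_ne_zero.2 hl0) (by positivity)
  have hwa : 2 * Real.pi * |w| = Real.log y := by
    rw [hw, abs_div, abs_neg, abs_of_pos (by linarith : 0 < Real.log y),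
      abs_of_pos (by positivity : 0 < 2 * Real.pi)]
    field_simp
  have hp := perron c y hc (by linarith)
  have hint : (∫ t : ℝ, GG (c + t * Complex.I) *
        ((y : ℂ) ^ (c + t * Complex.I : ℂ)) / (c + t * Complex.I) ^ 2) =
      (Real.exp (Real.log y + 1) : ℂ) * 𝓕 (FF c) w := by
    rw [Real.fourier_real_eq_integral_exp_smul, ← integral_const_mul]
    congr 1
    funext t
    have hne : (y : ℂ) ≠ 0 := by exact_mod_cast hy0.ne'
    rw [Complex.cpow_def_of_ne_zero hne, ← Complex.ofReal_log hy0.le, smul_eq_mul]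
    have e1 : (Real.log y : ℂ) * (c + t * Complex.I) =
        ((Real.log y + 1 : ℝ) : ℂ) + ((-2 * Real.pi * t * w : ℝ) : ℂ) * Complex.I := by
      rw [← hcl]
      have : -2 * Real.pi * t * w = t * Real.log y := by
        rw [hw]
        field_simp
      rw [this]
      push_cast
      ring
    rw [e1, Complex.exp_add]
    unfold FF HH
    rw [Complex.ofReal_exp, zpow_neg]
    have e2 : (c + t * Complex.I : ℂ) ^ (2 : ℤ) = (c + t * Complex.I : ℂ) ^ 2 := by
      exact_mod_cast rfl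
    rw [e2, div_eq_mul_inv]
    ring
  rw [hint] at hp
  have h1 : |JJ y| = ‖((JJ y : ℝ) : ℂ)‖ := by rw [Complex.norm_real, Real.norm_eq_abs]
  have h2 : ((JJ y : ℝ) : ℂ) =
      1 / (2 * Real.pi) * ((Real.exp (Real.log y + 1) : ℂ) * 𝓕 (FF c) w) := hp
  rw [h1, h2, norm_mul, norm_mul]
  have h3 : ‖(1 / (2 * Real.pi) : ℂ)‖ = 1 / (2 * Real.pi) := by
    rw [norm_div, norm_one, norm_mul, Complex.norm_real, Real.norm_of_nonneg hpi.le]
    simp
  have h4 : ‖(Real.exp (Real.log y + 1) : ℂ)‖ = y * Real.exp 1 := by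
    rw [Complex.norm_real, Real.norm_of_nonneg (Real.exp_nonneg _), Real.exp_add,
      Real.exp_log hy0]
  rw [h3, h4]
  have h5 := h c w hc hc2 hw0
  rw [hwa] at h5
  calc 1 / (2 * Real.pi) * (y * Real.exp 1 * ‖𝓕 (FF c) w‖)
      ≤ 1 / (2 * Real.pi) * (y * Real.exp 1 * (C / Real.log y ^ k)) := by gcongr
    _ = _ := by ring

theorem unsmooth (x : ℕ) (hx : 1 ≤ x) (Δ : ℝ) (h0 : 0 < Δ) (h1 : Δ ≤ 1) :
    Δ * |∑ n ∈ Icc 1 x, (lam n : ℝ)| ≤ |JJ (x * Real.exp Δ)| + |JJ x| + 2 * Δ ^ 2 * x := by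
  set y : ℝ := x * Real.exp Δ with hy
  have hx0 : (0 : ℝ) < x := by exact_mod_cast hx
  have he1 : 1 ≤ Real.exp Δ := Real.one_le_exp h0.le
  have hxy : (x : ℝ) ≤ y := by
    rw [hy]
    nlinarith
  have hy0 : 0 < y := by linarith
  have hf : x ≤ ⌊y⌋₊ := Nat.le_floor hxy
  have hfl : (⌊y⌋₊ : ℝ) ≤ y := Nat.floor_le hy0.le
  have hex : Real.exp Δ - 1 ≤ 2 * Δ := by
    have := Real.abs_exp_sub_one_le (x := Δ) (by rw [abs_of_pos h0]; exact h1)
    rw [abs_of_pos h0] at this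
    exact (le_abs_self _).trans this
  have hlogy : Real.log y = Real.log x + Δ := by
    rw [hy, Real.log_mul hx0.ne' (Real.exp_pos Δ).ne', Real.log_exp]
  have hsplit : JJ y = ∑ n ∈ Icc 1 x, (lam n : ℝ) * Real.log (y / n) +
      ∑ n ∈ Ioc x ⌊y⌋₊, (lam n : ℝ) * Real.log (y / n) := by
    unfold JJ
    rw [← Finset.sum_union]
    · congr 1
      ext n
      simp only [Finset.mem_union, Finset.mem_Icc, Finset.mem_Ioc]
      omega
    · rw [Finset.disjoint_left]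
      intro n hn hn'
      simp only [Finset.mem_Icc, Finset.mem_Ioc] at hn hn'
      omega
  have hJx : JJ x = ∑ n ∈ Icc 1 x, (lam n : ℝ) * Real.log (x / n) := by
    unfold JJ
    rw [Nat.floor_natCast]
  have hmain : ∑ n ∈ Icc 1 x, (lam n : ℝ) * Real.log (y / n) - JJ x =
      Δ * ∑ n ∈ Icc 1 x, (lam n : ℝ) := by
    rw [hJx, ← Finset.sum_sub_distrib, Finset.mul_sum]
    refine Finset.sum_congr rfl fun n hn => ?_
    rw [Finset.mem_Icc] at hn
    have hn0 : (n : ℝ) ≠ 0 := by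
      have : n ≠ 0 := by omega
      exact_mod_cast this
    rw [Real.log_div hy0.ne' hn0, Real.log_div hx0.ne' hn0, hlogy]
    ring
  have htail : |∑ n ∈ Ioc x ⌊y⌋₊, (lam n : ℝ) * Real.log (y / n)| ≤ 2 * Δ ^ 2 * x := by
    calc _ ≤ ∑ n ∈ Ioc x ⌊y⌋₊, |(lam n : ℝ) * Real.log (y / n)| := Finset.abs_sum_le_sum_abs _ _
      _ ≤ ∑ n ∈ Ioc x ⌊y⌋₊, Δ := by
          refine Finset.sum_le_sum fun n hn => ?_
          rw [Finset.mem_Ioc] at hn
          have hn0 : (0 : ℝ) < n := by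
            have : 0 < n := by omega
            exact_mod_cast this
          have hn1 : (x : ℝ) ≤ n := by exact_mod_cast hn.1.le
          have hn2 : (n : ℝ) ≤ y := (by exact_mod_cast hn.2 : (n : ℝ) ≤ ⌊y⌋₊).trans hfl
          have hlam : |(lam n : ℝ)| = 1 := by
            rcases lam_cases n with h | h <;> rw [h] <;> norm_num
          rw [abs_mul, hlam, one_mul, Real.log_div hy0.ne' hn0.ne', hlogy]
          have h5 := Real.log_le_log hx0 hn1
          have h6 := Real.log_le_log hn0 hn2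
          rw [hlogy] at h6
          rw [abs_le]
          constructor <;> linarith
      _ = ((⌊y⌋₊ - x : ℕ) : ℝ) * Δ := by rw [Finset.sum_const, Nat.card_Ioc, nsmul_eq_mul]
      _ ≤ (2 * Δ * x) * Δ := by
          rw [Nat.cast_sub hf]
          refine mul_le_mul_of_nonneg_right ?_ h0.le
          have : y - x ≤ 2 * Δ * x := by
            rw [hy]
            nlinarith
          linarith
      _ = _ := by ring
  have h7 : Δ * ∑ n ∈ Icc 1 x, (lam n : ℝ) =
      JJ y - JJ x - ∑ n ∈ Ioc x ⌊y⌋₊, (lam n : ℝ) * Real.log (y / n) := by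
    rw [← hmain, hsplit]
    ring
  have h8 : Δ * |∑ n ∈ Icc 1 x, (lam n : ℝ)| = |Δ * ∑ n ∈ Icc 1 x, (lam n : ℝ)| := by
    rw [abs_mul, abs_of_pos h0]
  rw [h8, h7]
  calc _ ≤ |JJ y - JJ x| + |∑ n ∈ Ioc x ⌊y⌋₊, (lam n : ℝ) * Real.log (y / n)| := abs_sub _ _
    _ ≤ |JJ y| + |JJ x| + 2 * Δ ^ 2 * x := add_le_add (abs_sub _ _) htail

theorem pnt (A : ℕ) : ∃ C : ℝ, 0 < C ∧ ∀ x : ℕ, 2 ≤ x →
    |∑ n ∈ Icc 1 x, (lam n : ℝ)| ≤ C * x / Real.log x ^ A := by
  obtain ⟨C, hC, h⟩ := JJ_bound (2 * A)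
  refine ⟨C * Real.exp 1 + C + 2, by positivity, fun x hx => ?_⟩
  have hx0 : (0 : ℝ) < x := by
    have : 0 < x := by omega
    exact_mod_cast this
  rcases Nat.lt_or_ge x 3 with hx3 | hx3
  · have hx2 : x = 2 := by omega
    subst hx2
    have hlog : 0 < Real.log ((2 : ℕ) : ℝ) := Real.log_pos (by norm_num)
    have hlog1 : Real.log ((2 : ℕ) : ℝ) ≤ 1 := by
      have := Real.log_two_lt_d9
      push_cast
      linarith
    have h1 : |∑ n ∈ Icc 1 2, (lam n : ℝ)| ≤ 2 := by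
      calc _ ≤ ∑ n ∈ Icc 1 2, |(lam n : ℝ)| := Finset.abs_sum_le_sum_abs _ _
        _ ≤ ∑ n ∈ Icc 1 2, (1 : ℝ) := by
            refine Finset.sum_le_sum fun n _ => ?_
            rcases lam_cases n with h | h <;> rw [h] <;> norm_num
        _ = 2 := by simp
    refine h1.trans ?_
    rw [le_div_iff₀ (by positivity)]
    have h2 : Real.log ((2 : ℕ) : ℝ) ^ A ≤ 1 := pow_le_one₀ hlog.le hlog1
    have h3 : 0 < Real.exp 1 := Real.exp_pos 1
    push_cast at h2 ⊢
    nlinarith [mul_pos hC h3]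
  · have hx3' : (3 : ℝ) ≤ x := by exact_mod_cast hx3
    have hl := one_le_log hx3'
    have hl0 : 0 < Real.log x := by linarith
    have hp1 : 1 ≤ Real.log x ^ A := one_le_pow₀ hl
    set Δ : ℝ := 1 / Real.log x ^ A with hΔ
    have h0 : 0 < Δ := by positivity
    have h1 : Δ ≤ 1 := by
      rw [hΔ, div_le_one (by positivity)]
      exact hp1
    have hu := unsmooth x (by omega) Δ h0 h1
    have he1 : 1 ≤ Real.exp Δ := Real.one_le_exp h0.le
    have he2 : Real.exp Δ ≤ Real.exp 1 := Real.exp_le_exp.2 h1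
    have hb1 := h x hx3'
    have hb2 := h (x * Real.exp Δ) (by nlinarith)
    have hb3 : C * (x * Real.exp Δ) / Real.log (x * Real.exp Δ) ^ (2 * A) ≤
        C * (x * Real.exp 1) / Real.log x ^ (2 * A) := by
      gcongr
      nlinarith
    have hpw : Real.log x ^ (2 * A) = Real.log x ^ A * Real.log x ^ A := by
      rw [two_mul, pow_add]
    have key : Δ * |∑ n ∈ Icc 1 x, (lam n : ℝ)| ≤
        Δ * ((C * Real.exp 1 + C + 2) * x / Real.log x ^ A) := by
      calc _ ≤ C * (x * Real.exp 1) / Real.log x ^ (2 * A) + C * x / Real.log x ^ (2 * A) +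
            2 * Δ ^ 2 * x := by linarith
        _ = _ := by
            rw [hpw, hΔ]
            field_simp
    exact le_of_mul_le_mul_left key h0

end Pool.Agent.GLI
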