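import Pool.Agent.GLI.Final

set_option autoImplicit false

/-!
Unordered patterns in the range `√N < a ≤ N/2`.
-/

open Finset Filter

namespace Pool.Agent.GLI

theorem range_all (ε : ℝ) (hε : 0 < ε) : ∀ᶠ N : ℕ in atTop, ∀ e f : ℤ, (e = 1 ∨ e = -1) →
    (f = 1 ∨ f = -1) →
    (N : ℝ) ^ (1 - ε) ≤ (((Ioo 0 N).filter fun a => N < a ^ 2 ∧ 2 * a ≤ N ∧
      ((lam a = e ∧ lam (N - a) = f) ∨ (lam a = f ∧ lam (N - a) = e))).card : ℝ) := by
  set δ : ℝ := min (ε / 2) (1 / 4) with hδ
  have hδ0 : 0 < δ := by positivity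
  have hδ1 : δ ≤ 1 / 4 := min_le_right _ _
  have hδ2 : δ ≤ ε / 2 := min_le_left _ _
  filter_upwards [four δ hδ0, ev_pow (1 - ε) (1 - δ) (by linarith) 0 8,
    ev_pow (1 / 2) (1 - δ) (by linarith) 0 8, eventually_ge_atTop 4] with N hN h1 h2 hN4 e f he hf
  simp only [pow_zero, mul_one] at h1 h2
  have h3 := hN e f he hf
  set S := (Ioo 0 N).filter fun a => N < a ^ 2 ∧ 2 * a ≤ N ∧
      ((lam a = e ∧ lam (N - a) = f) ∨ (lam a = f ∧ lam (N - a) = e)) with hS
  -- all of them: `a ∈ S`, or `N - a ∈ S`, or `a² ≤ N`, or `(N-a)² ≤ N`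
  have hcov : ((Ioo 0 N).filter fun a => lam a = e ∧ lam (N - a) = f) ⊆
      (S ∪ S.image (fun a => N - a)) ∪
        ((range (Nat.sqrt N + 1)) ∪ (range (Nat.sqrt N + 1)).image (fun a => N - a)) := by
    intro a ha
    simp only [mem_filter, mem_Ioo] at ha
    simp only [mem_union, mem_image, mem_range]
    have h5 : N - (N - a) = a := by omega
    rcases le_total (2 * a) N with h6 | h6
    · by_cases h7 : N < a ^ 2
      · left; left
        simp only [hS, mem_filter, mem_Ioo]
        exact ⟨ha.1, h7, h6, Or.inl ha.2⟩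
      · right; left
        have : a ≤ Nat.sqrt N := by
          rw [Nat.le_sqrt']
          omega
        omega
    · by_cases h7 : N < (N - a) ^ 2
      · left; right
        refine ⟨N - a, ?_, h5⟩
        simp only [hS, mem_filter, mem_Ioo]
        rw [h5]
        exact ⟨⟨by omega, by omega⟩, h7, by omega, Or.inr ⟨ha.2.2, ha.2.1⟩⟩
      · right; right
        refine ⟨N - a, ?_, h5⟩
        have : N - a ≤ Nat.sqrt N := by
          rw [Nat.le_sqrt']
          omega
        omega
  have h4 : cnt N e f ≤ 2 * S.card + 2 * (Nat.sqrt N + 1) := by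
    unfold cnt
    refine (Finset.card_le_card hcov).trans ?_
    refine (Finset.card_union_le _ _).trans ?_
    have h5 := Finset.card_union_le S (S.image (fun a => N - a))
    have h6 := Finset.card_union_le (range (Nat.sqrt N + 1))
      ((range (Nat.sqrt N + 1)).image (fun a => N - a))
    have h7 := Finset.card_image_le (s := S) (f := fun a => N - a)
    have h8 := Finset.card_image_le (s := range (Nat.sqrt N + 1)) (f := fun a => N - a)
    rw [Finset.card_range] at h6 h8
    omega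
  have h5 : ((Nat.sqrt N : ℕ) : ℝ) ≤ (N : ℝ) ^ (1 / 2 : ℝ) := by
    rw [← Real.sqrt_eq_rpow]
    exact Real.nat_sqrt_le_real_sqrt
  have h6 : (cnt N e f : ℝ) ≤ 2 * S.card + 2 * (Nat.sqrt N + 1) := by exact_mod_cast h4
  have hN1' : (1 : ℝ) ≤ N := by
    have : 1 ≤ N := by omega
    exact_mod_cast this
  have h7 : (1 : ℝ) ≤ (N : ℝ) ^ (1 / 2 : ℝ) := Real.one_le_rpow hN1' (by norm_num)
  linarith [show (0 : ℝ) ≤ (N : ℝ) ^ (1 - ε) by positivity]

end Pool.Agent.GLI
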