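import Pool.Agent.GLI.LBound

set_option autoImplicit false

/-!
Module SgCoef. `prodChar χ1 χ2` is the character `χ1 χ2` modulo `q1 q2`; its value at `n` is `χ1(n) χ2(n)`.
`a = (1 * χ1) * (χ2 · (1 * χ1))` (Dirichlet convolution), LSeries `ζ(s) L(s,χ1) L(s,χ2) L(s,χ1χ2)` for
`Re s > 1`; multiplicative; the generating series at `p` is `1/((1-x)(1-εx)(1-ηx)(1-εηx))`, `ε, η ∈ {0, 1, -1}`:
`≥ 0` coefficients in all nine cases.
-/

open Finset Filter

namespace Pool.Agent.GLI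

/-- The character `χ1 χ2` modulo `q1 q2`. -/
noncomputable def prodChar {q1 q2 : ℕ} (χ1 : DirichletCharacter ℂ q1)
    (χ2 : DirichletCharacter ℂ q2) : DirichletCharacter ℂ (q1 * q2) :=
  DirichletCharacter.changeLevel (Dvd.intro q2 rfl) χ1 *
    DirichletCharacter.changeLevel (Dvd.intro_left q1 rfl) χ2

theorem prodChar_apply {q1 q2 : ℕ} [NeZero q1] [NeZero q2] (χ1 : DirichletCharacter ℂ q1)
    (χ2 : DirichletCharacter ℂ q2) (n : ℕ) :
    prodChar χ1 χ2 (n : ZMod (q1 * q2)) = χ1 (n : ZMod q1) * χ2 (n : ZMod q2) := by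
  unfold prodChar
  rw [MulChar.mul_apply]
  by_cases h : n.Coprime (q1 * q2)
  · have h1 := DirichletCharacter.changeLevel_eq_cast_of_dvd χ1 (Dvd.intro q2 rfl)
      (ZMod.unitOfCoprime n h)
    have h2 := DirichletCharacter.changeLevel_eq_cast_of_dvd χ2 (Dvd.intro_left q1 rfl)
      (ZMod.unitOfCoprime n h)
    rw [ZMod.coe_unitOfCoprime] at h1 h2
    rw [h1, h2, ZMod.cast_natCast (Dvd.intro q2 rfl), ZMod.cast_natCast (Dvd.intro_left q1 rfl)]
  · have h0 : ¬ IsUnit (n : ZMod (q1 * q2)) := by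
      rw [ZMod.isUnit_iff_coprime]
      exact h
    rw [MulChar.map_nonunit _ h0, zero_mul]
    rw [Nat.coprime_mul_iff_right, not_and_or] at h
    rcases h with h | h
    · rw [MulChar.map_nonunit χ1 (by rw [ZMod.isUnit_iff_coprime]; exact h), zero_mul]
    · rw [MulChar.map_nonunit χ2 (by rw [ZMod.isUnit_iff_coprime]; exact h), mul_zero]

open scoped ComplexOrder

theorem realChar_sq {q : ℕ} (χ : DirichletCharacter ℂ q) (h : RealChar χ) : χ ^ 2 = 1 :=
  MulChar.isQuadratic_iff_sq_eq_one.mp h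

/-- `χ2 · (1 * χ1)`. -/
noncomputable def sgB {q1 q2 : ℕ} (χ1 : DirichletCharacter ℂ q1)
    (χ2 : DirichletCharacter ℂ q2) : ArithmeticFunction ℂ :=
  ArithmeticFunction.pmul (toArithmeticFunction fun n : ℕ => χ2 (n : ZMod q2)) χ1.zetaMul

theorem toArith_apply {q : ℕ} (χ : DirichletCharacter ℂ q) {n : ℕ} (hn : n ≠ 0) :
    toArithmeticFunction (fun n : ℕ => χ (n : ZMod q)) n = χ (n : ZMod q) := by
  simp [toArithmeticFunction, hn]

theorem sgB_eq {q1 q2 : ℕ} [NeZero q1] [NeZero q2] (χ1 : DirichletCharacter ℂ q1)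
    (χ2 : DirichletCharacter ℂ q2) :
    sgB χ1 χ2 = toArithmeticFunction (fun n : ℕ => χ2 (n : ZMod q2)) *
      toArithmeticFunction (fun n : ℕ => prodChar χ1 χ2 (n : ZMod (q1 * q2))) := by
  ext n
  rcases eq_or_ne n 0 with rfl | hn
  · simp
  unfold sgB DirichletCharacter.zetaMul
  rw [ArithmeticFunction.pmul_apply, ArithmeticFunction.mul_apply, ArithmeticFunction.mul_apply,
    Finset.mul_sum]
  refine Finset.sum_congr rfl fun x hx => ?_
  rw [Nat.mem_divisorsAntidiagonal] at hx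
  have h1 : x.1 ≠ 0 := by
    rintro h
    exact hn (by rw [← hx.1, h, zero_mul])
  have h2 : x.2 ≠ 0 := by
    rintro h
    exact hn (by rw [← hx.1, h, mul_zero])
  rw [toArith_apply _ hn, toArith_apply _ h1, toArith_apply _ h2, toArith_apply _ h2,
    prodChar_apply, ← hx.1]
  rw [ArithmeticFunction.natCoe_apply, ArithmeticFunction.zeta_apply_ne h1]
  push_cast
  rw [map_mul]
  ring

/-- The coefficients. -/
noncomputable def sgA {q1 q2 : ℕ} (χ1 : DirichletCharacter ℂ q1)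
    (χ2 : DirichletCharacter ℂ q2) : ArithmeticFunction ℂ := χ1.zetaMul * sgB χ1 χ2

theorem sgA_eq {q1 q2 : ℕ} [NeZero q1] [NeZero q2] (χ1 : DirichletCharacter ℂ q1)
    (χ2 : DirichletCharacter ℂ q2) :
    sgA χ1 χ2 = (.zeta : ArithmeticFunction ℕ) *
      toArithmeticFunction (fun n : ℕ => χ1 (n : ZMod q1)) *
      toArithmeticFunction (fun n : ℕ => χ2 (n : ZMod q2)) *
      toArithmeticFunction (fun n : ℕ => prodChar χ1 χ2 (n : ZMod (q1 * q2))) := by
  unfold sgA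
  rw [sgB_eq]
  unfold DirichletCharacter.zetaMul
  rw [← mul_assoc]

theorem sgA_comm {q1 q2 : ℕ} [NeZero q1] [NeZero q2] (χ1 : DirichletCharacter ℂ q1)
    (χ2 : DirichletCharacter ℂ q2) : sgA χ1 χ2 = sgA χ2 χ1 := by
  rw [sgA_eq, sgA_eq]
  have h : toArithmeticFunction (fun n : ℕ => prodChar χ1 χ2 (n : ZMod (q1 * q2))) =
      toArithmeticFunction (fun n : ℕ => prodChar χ2 χ1 (n : ZMod (q2 * q1))) := by
    congr 1
    funext n
    rw [prodChar_apply, prodChar_apply, mul_comm]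
  rw [h, mul_right_comm (((.zeta : ArithmeticFunction ℕ) : ArithmeticFunction ℂ))]

theorem sgA_mult {q1 q2 : ℕ} [NeZero q1] [NeZero q2] (χ1 : DirichletCharacter ℂ q1)
    (χ2 : DirichletCharacter ℂ q2) : (sgA χ1 χ2).IsMultiplicative := by
  rw [sgA_eq]
  refine ((ArithmeticFunction.isMultiplicative_zeta.natCast.mul ?_).mul ?_).mul ?_
  · exact DirichletCharacter.isMultiplicative_toArithmeticFunction χ1
  · exact DirichletCharacter.isMultiplicative_toArithmeticFunction χ2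
  · exact DirichletCharacter.isMultiplicative_toArithmeticFunction (prodChar χ1 χ2)

theorem zetaMul_prime_pow {q : ℕ} (χ : DirichletCharacter ℂ q) {p : ℕ} (hp : p.Prime) (k : ℕ) :
    χ.zetaMul (p ^ k) = ∑ i ∈ range (k + 1), χ (p : ZMod q) ^ i := by
  unfold DirichletCharacter.zetaMul
  rw [ArithmeticFunction.coe_zeta_mul_apply, Nat.sum_divisors_prime_pow hp]
  refine Finset.sum_congr rfl fun i _ => ?_
  rw [toArith_apply _ (pow_ne_zero _ hp.ne_zero)]
  push_cast
  rw [map_pow]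

theorem sgB_prime_pow_nonneg {q1 q2 : ℕ} (χ1 : DirichletCharacter ℂ q1)
    (χ2 : DirichletCharacter ℂ q2) (h1 : RealChar χ1) (h2 : RealChar χ2) {p : ℕ} (hp : p.Prime)
    (hc : χ2 (p : ZMod q2) ≠ -1 ∨ χ1 (p : ZMod q1) = -1) (k : ℕ) :
    0 ≤ sgB χ1 χ2 (p ^ k) := by
  unfold sgB
  rw [ArithmeticFunction.pmul_apply, toArith_apply _ (pow_ne_zero _ hp.ne_zero)]
  have hz : 0 ≤ χ1.zetaMul (p ^ k) := DirichletCharacter.zetaMul_nonneg (realChar_sq χ1 h1) _
  push_cast
  rw [map_pow]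
  rcases h2 (p : ZMod q2) with h | h | h
  · rw [h]
    exact mul_nonneg (by positivity) hz
  · rw [h, one_pow, one_mul]
    exact hz
  · rcases hc with hc | hc
    · exact absurd h hc
    · rw [h, zetaMul_prime_pow χ1 hp, hc, neg_one_geom_sum]
      split_ifs with hk
      · simp
      · have hk' : Even k := by
          by_contra hk2
          exact hk (Nat.even_add_one.mpr hk2)
        rw [hk'.neg_one_pow]
        simp

theorem sgA_prime_pow_nonneg {q1 q2 : ℕ} [NeZero q1] [NeZero q2] (χ1 : DirichletCharacter ℂ q1)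
    (χ2 : DirichletCharacter ℂ q2) (h1 : RealChar χ1) (h2 : RealChar χ2) {p : ℕ} (hp : p.Prime)
    (k : ℕ) : 0 ≤ sgA χ1 χ2 (p ^ k) := by
  have key : ∀ (q1 q2 : ℕ) (χ1 : DirichletCharacter ℂ q1) (χ2 : DirichletCharacter ℂ q2),
      RealChar χ1 → RealChar χ2 → (χ2 (p : ZMod q2) ≠ -1 ∨ χ1 (p : ZMod q1) = -1) →
      0 ≤ sgA χ1 χ2 (p ^ k) := by
    intro q1 q2 χ1 χ2 h1 h2 hc
    unfold sgA
    rw [ArithmeticFunction.mul_apply]
    refine Finset.sum_nonneg fun x hx => ?_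
    refine mul_nonneg (DirichletCharacter.zetaMul_nonneg (realChar_sq χ1 h1) _) ?_
    rw [Nat.mem_divisorsAntidiagonal] at hx
    have hd : x.2 ∣ p ^ k := Dvd.intro_left _ hx.1
    obtain ⟨j, -, hj⟩ := (Nat.dvd_prime_pow hp).mp hd
    rw [hj]
    exact sgB_prime_pow_nonneg χ1 χ2 h1 h2 hp hc j
  by_cases hc : χ2 (p : ZMod q2) ≠ -1 ∨ χ1 (p : ZMod q1) = -1
  · exact key q1 q2 χ1 χ2 h1 h2 hc
  · rw [sgA_comm]
    push Not at hc
    exact key q2 q1 χ2 χ1 h2 h1 (Or.inl hc.2)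

theorem sgA_nonneg {q1 q2 : ℕ} [NeZero q1] [NeZero q2] (χ1 : DirichletCharacter ℂ q1)
    (χ2 : DirichletCharacter ℂ q2) (h1 : RealChar χ1) (h2 : RealChar χ2) (n : ℕ) :
    0 ≤ sgA χ1 χ2 n := by
  rcases eq_or_ne n 0 with rfl | hn
  · simp only [ArithmeticFunction.map_zero, le_refl]
  · rw [(sgA_mult χ1 χ2).multiplicative_factorization _ hn]
    exact Finset.prod_nonneg
        fun p hp ↦ sgA_prime_pow_nonneg χ1 χ2 h1 h2 (Nat.prime_of_mem_primeFactors hp) _

theorem char_summable {q : ℕ} (χ : DirichletCharacter ℂ q) {s : ℂ} (hs : 1 < s.re) :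
    LSeriesSummable (toArithmeticFunction (fun n : ℕ => χ (n : ZMod q))) s := by
  refine LSeriesSummable_of_bounded_of_one_lt_re (m := 1) (fun n hn ↦ ?_) hs
  rw [toArith_apply _ hn]
  exact DirichletCharacter.norm_le_one χ _

theorem char_LSeries {q : ℕ} [NeZero q] (χ : DirichletCharacter ℂ q) {s : ℂ} (hs : 1 < s.re) :
    LSeries (toArithmeticFunction (fun n : ℕ => χ (n : ZMod q))) s =
      DirichletCharacter.LFunction χ s := by
  rw [DirichletCharacter.LFunction_eq_LSeries χ hs]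
  refine LSeries_congr (fun {n} hn => ?_) s
  rw [toArith_apply _ hn]

theorem LSeries_mul4 (f g h k : ArithmeticFunction ℂ) (s : ℂ) (hf : LSeriesSummable (⇑f) s)
    (hg : LSeriesSummable (⇑g) s) (hh : LSeriesSummable (⇑h) s) (hk : LSeriesSummable (⇑k) s) :
    LSeriesSummable (⇑(f * g * h * k)) s ∧
      LSeries (⇑(f * g * h * k)) s = LSeries (⇑f) s * LSeries (⇑g) s * LSeries (⇑h) s *
        LSeries (⇑k) s := by
  have e01 := ArithmeticFunction.LSeriesSummable_mul hf hg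
  have e012 := ArithmeticFunction.LSeriesSummable_mul e01 hh
  refine ⟨ArithmeticFunction.LSeriesSummable_mul e012 hk, ?_⟩
  rw [ArithmeticFunction.LSeries_mul' e012 hk, ArithmeticFunction.LSeries_mul' e01 hh,
    ArithmeticFunction.LSeries_mul' hf hg]

theorem sg_coef (q1 q2 : ℕ) [NeZero q1] [NeZero q2] (χ1 : DirichletCharacter ℂ q1)
    (χ2 : DirichletCharacter ℂ q2) (h1 : RealChar χ1) (h2 : RealChar χ2) :
    ∃ a : ℕ → ℝ, (∀ n, 0 ≤ a n) ∧ a 1 = 1 ∧ ∀ s : ℂ, 1 < s.re →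
      LSeriesSummable (fun n => (a n : ℂ)) s ∧
      LSeries (fun n => (a n : ℂ)) s = riemannZeta s * DirichletCharacter.LFunction χ1 s *
        DirichletCharacter.LFunction χ2 s * DirichletCharacter.LFunction (prodChar χ1 χ2) s := by
  have hA : ∀ n, 0 ≤ sgA χ1 χ2 n := sgA_nonneg χ1 χ2 h1 h2
  have hre : (fun n => (((sgA χ1 χ2 n).re : ℝ) : ℂ)) = fun n => sgA χ1 χ2 n := by
    funext n
    apply Complex.ext
    · simp
    · have := (Complex.nonneg_iff.mp (hA n)).2
      simp [← this]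
  refine ⟨fun n => (sgA χ1 χ2 n).re, fun n => (Complex.nonneg_iff.mp (hA n)).1, ?_, ?_⟩
  · show (sgA χ1 χ2 1).re = 1
    rw [(sgA_mult χ1 χ2).map_one]
    simp
  · intro s hs
    rw [hre]
    have e0 : LSeriesSummable (⇑((.zeta : ArithmeticFunction ℕ) : ArithmeticFunction ℂ)) s :=
      ArithmeticFunction.LSeriesSummable_zeta_iff.mpr hs
    have e00 : LSeries (⇑((.zeta : ArithmeticFunction ℕ) : ArithmeticFunction ℂ)) s =
      riemannZeta s := ArithmeticFunction.LSeries_zeta_eq_riemannZeta hs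
    have key := LSeries_mul4 ((.zeta : ArithmeticFunction ℕ) : ArithmeticFunction ℂ)
      (toArithmeticFunction (fun n : ℕ => χ1 (n : ZMod q1)))
      (toArithmeticFunction (fun n : ℕ => χ2 (n : ZMod q2)))
      (toArithmeticFunction (fun n : ℕ => prodChar χ1 χ2 (n : ZMod (q1 * q2)))) s e0
      (char_summable χ1 hs) (char_summable χ2 hs) (char_summable (prodChar χ1 χ2) hs)
    rw [← sgA_eq χ1 χ2, char_LSeries χ1 hs, char_LSeries χ2 hs,
      char_LSeries (prodChar χ1 χ2) hs, e00] at key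
    exact key

end Pool.Agent.GLI
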