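import Pool.Agent.GLI.SgCoef

set_option autoImplicit false

/-!
Module SgEst (Estermann's inequality). `F(s) = ζ(s) L(s,χ1) L(s,χ2) L(s,χ1χ2)`, `λ = L(1,χ1) L(1,χ2) L(1,χ1χ2)`.
`F(s) = ∑ b_m (2-s)^m` for `|s-2| < 1`, `b_m ≥ 0`, `b_0 ≥ 1` (sg_coef; alternating derivatives of an LSeries with
coefficients `≥ 0`, see Mathlib `NumberTheory/LSeries/Positivity`). `F(s) - λ/(s-1)` is entire, `= ∑ (b_m - λ)(2-s)^m`; on the
circle `|s-2| = 3/2`: `|ζ| ≤ C` (compactness), L_bound for the three characters, `|λ| ≤ C (q1q2)^2` (L1_le): Cauchy: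
`|b_m - λ| ≤ C (q1 q2)^2 (2/3)^m`. For `7/8 ≤ s < 1`, `(2/3)(2-s) ≤ 3/4`:
`F(s) - λ/(s-1) ≥ 1 - λ ∑_{m<M} (2-s)^m - 4 C (q1q2)^2 (3/4)^M`, i.e. `F(s) ≥ 1 - λ (2-s)^M/(1-s) - 4 C (q1q2)^2 (3/4)^M`;
`M` minimal with the last term `≤ 1/2`; `(2-s)^M ≤ exp(M (1-s)) ≤ C' (q1q2)^(8(1-s))`.
-/

open Finset Filter
open scoped ComplexOrder

namespace Pool.Agent.GLI

/-- Estermann's lemma, abstract form. -/
theorem est_abs (H : ℂ → ℂ) (hH : Differentiable ℂ H) (lamb K : ℝ) (_hl : 0 ≤ lamb) (hK : 0 ≤ K)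
    (hb : ∀ z ∈ Metric.sphere (2 : ℂ) (3 / 2), ‖H z‖ ≤ K)
    (hpos : ∀ m : ℕ, 0 ≤ lamb + ((-1) ^ m * iteratedDeriv m H 2).re / (m.factorial : ℝ))
    (h0 : 1 ≤ lamb + (H 2).re) (s : ℝ) (hs : 7 / 8 ≤ s) (hs1 : s < 1) (M : ℕ) (hM : 1 ≤ M) :
    1 - lamb * (2 - s) ^ M / (1 - s) - 4 * K * (3 / 4) ^ M ≤ (H s).re - lamb / (1 - s) := by
  set c : ℕ → ℝ := fun m => ((-1) ^ m * iteratedDeriv m H 2).re / (m.factorial : ℝ) with hc
  have hc0 : c 0 = (H 2).re := by simp [hc]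
  have hcb : ∀ m, |c m| ≤ K * (2 / 3) ^ m := by
    intro m
    have h1 : ‖iteratedDeriv m H 2‖ ≤ m.factorial * K / (3 / 2 : ℝ) ^ m :=
      Complex.norm_iteratedDeriv_le_of_forall_mem_sphere_norm_le m (by norm_num) hH.diffContOnCl hb
    have hf : (0 : ℝ) < m.factorial := by exact_mod_cast m.factorial_pos
    rw [hc]
    beta_reduce
    rw [abs_div, abs_of_pos hf, div_le_iff₀ hf]
    calc |((-1) ^ m * iteratedDeriv m H 2).re| ≤ ‖(-1) ^ m * iteratedDeriv m H 2‖ :=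
          Complex.abs_re_le_norm _
      _ = ‖iteratedDeriv m H 2‖ := by simp
      _ ≤ m.factorial * K / (3 / 2 : ℝ) ^ m := h1
      _ = K * (2 / 3) ^ m * m.factorial := by
          rw [div_eq_mul_inv, ← inv_pow]
          norm_num
          ring
  have hsum : HasSum (fun m => c m * (2 - s) ^ m) (H s).re := by
    have h1 := Complex.hasSum_re (Complex.hasSum_taylorSeries_of_entire hH (2 : ℂ) (s : ℂ))
    convert h1 using 1
    funext m
    rw [hc]
    beta_reduce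
    have h2 : ((s : ℂ) - 2) ^ m = (((2 - s) ^ m : ℝ) : ℂ) * (-1) ^ m := by
      push_cast
      rw [← mul_pow]
      ring
    rw [h2, smul_eq_mul, smul_eq_mul]
    have h3 : ((m.factorial : ℂ))⁻¹ * ((((2 - s) ^ m : ℝ) : ℂ) * (-1) ^ m * iteratedDeriv m H 2) =
        (((m.factorial : ℝ)⁻¹ * (2 - s) ^ m : ℝ) : ℂ) * ((-1) ^ m * iteratedDeriv m H 2) := by
      push_cast
      ring
    rw [h3, Complex.re_ofReal_mul]
    ring
  have hr : ∀ m, ‖c m * (2 - s) ^ m‖ ≤ K * (3 / 4) ^ m := by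
    intro m
    have h2s : 0 ≤ 2 - s := by linarith
    rw [Real.norm_eq_abs, abs_mul, abs_of_nonneg (pow_nonneg h2s m)]
    calc |c m| * (2 - s) ^ m ≤ K * (2 / 3) ^ m * (9 / 8) ^ m := by
          apply mul_le_mul (hcb m) (pow_le_pow_left₀ h2s (by linarith) m) (pow_nonneg h2s m)
            (by positivity)
      _ = K * (3 / 4) ^ m := by
          rw [mul_assoc, ← mul_pow]
          norm_num
  have hsplit := hsum.summable.sum_add_tsum_nat_add M
  rw [hsum.tsum_eq] at hsplit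
  have htail : ‖∑' i, c (i + M) * (2 - s) ^ (i + M)‖ ≤ 4 * K * (3 / 4) ^ M := by
    have hg : HasSum (fun i : ℕ => K * (3 / 4 : ℝ) ^ M * (3 / 4) ^ i) (K * (3 / 4 : ℝ) ^ M * 4) := by
      have := (hasSum_geometric_of_lt_one (r := (3 / 4 : ℝ)) (by norm_num) (by norm_num)).mul_left
        (K * (3 / 4 : ℝ) ^ M)
      norm_num at this ⊢
      exact this
    have := tsum_of_norm_bounded hg (f := fun i => c (i + M) * (2 - s) ^ (i + M)) (fun i => by
      refine (hr (i + M)).trans (le_of_eq ?_)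
      rw [pow_add]
      ring)
    linarith
  have hmain : 1 - lamb * ∑ m ∈ range M, (2 - s) ^ m ≤ ∑ m ∈ range M, c m * (2 - s) ^ m := by
    obtain ⟨M', rfl⟩ : ∃ M', M = M' + 1 := ⟨M - 1, by omega⟩
    rw [Finset.sum_range_succ', Finset.sum_range_succ', pow_zero, mul_one, hc0]
    have : ∀ m ∈ range M', -(lamb * (2 - s) ^ (m + 1)) ≤ c (m + 1) * (2 - s) ^ (m + 1) := by
      intro m _
      have h1 := hpos (m + 1)
      have h2 : 0 ≤ (2 - s) ^ (m + 1) := pow_nonneg (by linarith) _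
      have h3 : 0 ≤ (lamb + c (m + 1)) * (2 - s) ^ (m + 1) := mul_nonneg h1 h2
      nlinarith
    have h4 := Finset.sum_le_sum this
    rw [Finset.sum_neg_distrib, ← Finset.mul_sum] at h4
    linarith
  have hgeo : ∑ m ∈ range M, (2 - s) ^ m = ((2 - s) ^ M - 1) / (1 - s) := by
    rw [geom_sum_eq (by linarith)]
    congr 1
    ring
  rw [hgeo] at hmain
  have h5 := abs_le.1 ((Real.norm_eq_abs _).symm.le.trans htail)
  have h1s : 0 < 1 - s := by linarith
  have h6 : lamb * (((2 - s) ^ M - 1) / (1 - s)) =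
      lamb * (2 - s) ^ M / (1 - s) - lamb / (1 - s) := by
    field_simp
  rw [h6] at hmain
  linarith [h5.1, hmain, hsplit]

theorem iteratedDeriv_inv_sub_one (m : ℕ) :
    iteratedDeriv m (fun s : ℂ => (s - 1)⁻¹) 2 = (-1) ^ m * (m.factorial : ℂ) := by
  have h := congrFun (iteratedDeriv_comp_sub_const m (Inv.inv : ℂ → ℂ) 1) 2
  have e : (fun z : ℂ => (Inv.inv : ℂ → ℂ) (z - 1)) = fun s : ℂ => (s - 1)⁻¹ := rfl
  rw [e] at h
  rw [h, iteratedDeriv_eq_iterate, iter_deriv_inv]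
  norm_num

/-- `(s - 1) ζ(s)` -/
noncomputable def zetaOne : ℂ → ℂ := DirichletCharacter.LFunctionTrivChar₁ 1

theorem zetaOne_diff : Differentiable ℂ zetaOne :=
  DirichletCharacter.differentiable_LFunctionTrivChar₁ 1

theorem zetaOne_one : zetaOne 1 = 1 := by
  simp [zetaOne, DirichletCharacter.LFunctionTrivChar₁]

theorem zetaOne_of_ne {s : ℂ} (hs : s ≠ 1) : zetaOne s = (s - 1) * riemannZeta s := by
  simp [zetaOne, DirichletCharacter.LFunctionTrivChar₁, Function.update_of_ne hs,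
    DirichletCharacter.LFunctionTrivChar, DirichletCharacter.LFunction_modOne_eq]

theorem zeta_bound_sphere : ∃ C : ℝ, 0 < C ∧ ∀ z ∈ Metric.sphere (2 : ℂ) (3 / 2),
    ‖riemannZeta z‖ ≤ C := by
  have hc : ContinuousOn riemannZeta (Metric.sphere (2 : ℂ) (3 / 2)) := by
    intro z hz
    have hz1 : z ≠ 1 := by
      rintro rfl
      rw [Metric.mem_sphere, dist_eq_norm] at hz
      norm_num at hz
    exact (differentiableAt_riemannZeta hz1).continuousAt.continuousWithinAt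
  obtain ⟨C, hC⟩ := (isCompact_sphere (2 : ℂ) (3 / 2)).exists_bound_of_continuousOn hc
  exact ⟨max C 1, by positivity, fun z hz => (hC z hz).trans (le_max_left _ _)⟩

theorem realChar_prod {q1 q2 : ℕ} [NeZero q1] [NeZero q2] (χ1 : DirichletCharacter ℂ q1)
    (χ2 : DirichletCharacter ℂ q2) (h1 : RealChar χ1) (h2 : RealChar χ2) :
    RealChar (prodChar χ1 χ2) := by
  intro a
  obtain ⟨n, rfl⟩ : ∃ n : ℕ, (n : ZMod (q1 * q2)) = a := ⟨a.val, ZMod.natCast_zmod_val a⟩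
  rw [prodChar_apply]
  rcases h1 (n : ZMod q1) with h | h | h <;> rcases h2 (n : ZMod q2) with h' | h' | h' <;>
    rw [h, h'] <;> norm_num


/-- The entire function `(E(s) - E(1))/(s-1)` attached to `ζ(s) G(s)`. -/
theorem sg_core (G : ℂ → ℂ) (hG : Differentiable ℂ G) (a : ℕ → ℝ) (ha : ∀ n, 0 ≤ a n) (ha1 : a 1 = 1)
    (hs : ∀ s : ℂ, 1 < s.re → LSeriesSummable (fun n => (a n : ℂ)) s ∧
      LSeries (fun n => (a n : ℂ)) s = riemannZeta s * G s)
    (lamb : ℝ) (hl : 0 ≤ lamb) (hl1 : G 1 = (lamb : ℂ)) (Z K : ℝ)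
    (hZ : ∀ z ∈ Metric.sphere (2 : ℂ) (3 / 2), ‖riemannZeta z‖ ≤ Z)
    (hK : ∀ z ∈ Metric.sphere (2 : ℂ) (3 / 2), ‖G z‖ ≤ K) (hlK : lamb ≤ K) (hK0 : 0 ≤ K) (hZ0 : 0 ≤ Z)
    (s : ℝ) (hs0 : 7 / 8 ≤ s) (hs1 : s < 1) (M : ℕ) (hM : 1 ≤ M) :
    1 - lamb * (2 - s) ^ M / (1 - s) - 4 * ((Z + 2) * K) * (3 / 4) ^ M ≤
      (riemannZeta s * G s).re := by
  set E : ℂ → ℂ := fun z => zetaOne z * G z with hE
  have hEd : Differentiable ℂ E := zetaOne_diff.mul hG
  have hE1 : E 1 = (lamb : ℂ) := by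
    rw [hE]
    beta_reduce
    rw [zetaOne_one, one_mul, hl1]
  set H : ℂ → ℂ := dslope E 1 with hH
  have hHd : Differentiable ℂ H := by
    rw [← differentiableOn_univ]
    exact (Complex.differentiableOn_dslope Filter.univ_mem).2 hEd.differentiableOn
  have hHv : ∀ z : ℂ, z ≠ 1 → H z = riemannZeta z * G z - (lamb : ℂ) * (z - 1)⁻¹ := by
    intro z hz
    rw [hH, dslope_of_ne _ hz, slope_def_field, hE1, hE]
    beta_reduce
    rw [zetaOne_of_ne hz]
    have : z - 1 ≠ 0 := sub_ne_zero.2 hz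
    field_simp
  have hb : ∀ z ∈ Metric.sphere (2 : ℂ) (3 / 2), ‖H z‖ ≤ (Z + 2) * K := by
    intro z hz
    have hz2 : ‖z - 2‖ = 3 / 2 := by rwa [Metric.mem_sphere, dist_eq_norm] at hz
    have hz1 : 1 / 2 ≤ ‖z - 1‖ := by
      have h1 : ‖z - 2‖ ≤ ‖z - 1‖ + ‖(1 : ℂ)‖ := by
        have : z - 2 = (z - 1) - 1 := by ring
        rw [this]
        exact norm_sub_le _ _
      rw [hz2, norm_one] at h1
      linarith
    have hzne : z ≠ 1 := by
      rintro rfl
      norm_num at hz1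
    rw [hHv z hzne]
    refine (norm_sub_le _ _).trans ?_
    rw [norm_mul, norm_mul, norm_inv, Complex.norm_real, Real.norm_of_nonneg hl]
    have h1 : ‖riemannZeta z‖ * ‖G z‖ ≤ Z * K :=
      mul_le_mul (hZ z hz) (hK z hz) (norm_nonneg _) hZ0
    have h2 : lamb * ‖z - 1‖⁻¹ ≤ K * 2 := by
      apply mul_le_mul hlK _ (by positivity) hK0
      rw [inv_le_comm₀ (by linarith) (by norm_num)]
      linarith
    linarith
  have hopen : IsOpen {z : ℂ | 1 < z.re} := Complex.continuous_re.isOpen_preimage _ isOpen_Ioi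
  have h2mem : (2 : ℂ) ∈ {z : ℂ | 1 < z.re} := by
    show 1 < (2 : ℂ).re
    norm_num
  have habs : LSeries.abscissaOfAbsConv (fun n => (a n : ℂ)) < ((2 : ℝ) : EReal) := by
    have h1 : LSeries.abscissaOfAbsConv (fun n => (a n : ℂ)) ≤ ((3 / 2 : ℝ) : EReal) := by
      have := (hs ((3 / 2 : ℝ) : ℂ) (by norm_num)).1.abscissaOfAbsConv_le
      simpa using this
    refine lt_of_le_of_lt h1 ?_
    exact_mod_cast (by norm_num : (3 / 2 : ℝ) < 2)
  have hanal : ∀ z ∈ {z : ℂ | 1 < z.re}, z ≠ 1 := by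
    rintro z hz rfl
    have : (1 : ℝ) < (1 : ℂ).re := hz
    norm_num at this
  have hder : ∀ m, (-1 : ℂ) ^ m * iteratedDeriv m H 2 =
      (-1) ^ m * iteratedDeriv m (LSeries (fun n => (a n : ℂ))) 2 - (lamb : ℂ) * m.factorial := by
    intro m
    have e1 : H =ᶠ[nhds 2] (LSeries (fun n => (a n : ℂ))) - fun z => (lamb : ℂ) * (z - 1)⁻¹ := by
      filter_upwards [hopen.mem_nhds h2mem] with z hz
      rw [hHv z (hanal z hz), Pi.sub_apply, (hs z hz).2]
    have h1 : ContDiffAt ℂ m (LSeries (fun n => (a n : ℂ))) 2 := by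
      have : AnalyticAt ℂ (LSeries (fun n => (a n : ℂ))) 2 := by
        apply LSeries_analyticOnNhd
        show LSeries.abscissaOfAbsConv (fun n => (a n : ℂ)) < ((2 : ℂ).re : EReal)
        simpa using habs
      exact this.contDiffAt
    have h2 : ContDiffAt ℂ m (fun z : ℂ => (lamb : ℂ) * (z - 1)⁻¹) 2 := by
      have : AnalyticAt ℂ (fun z : ℂ => (lamb : ℂ) * (z - 1)⁻¹) 2 := by
        apply AnalyticAt.mul analyticAt_const
        apply AnalyticAt.inv
        · exact analyticAt_id.sub analyticAt_const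
        · norm_num
      exact this.contDiffAt
    rw [e1.iteratedDeriv_eq, iteratedDeriv_sub h1 h2, iteratedDeriv_const_mul_field,
      iteratedDeriv_inv_sub_one, mul_sub]
    congr 1
    have : ((-1 : ℂ) ^ m) * ((-1) ^ m) = 1 := by
      rw [← mul_pow]
      norm_num
    linear_combination (lamb : ℂ) * m.factorial * this
  have hnn : (0 : ℕ → ℂ) ≤ fun n => (a n : ℂ) := by
    intro n
    show (0 : ℂ) ≤ (a n : ℂ)
    exact Complex.zero_le_real.2 (ha n)
  have hpos : ∀ m : ℕ, 0 ≤ lamb + ((-1) ^ m * iteratedDeriv m H 2).re / (m.factorial : ℝ) := by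
    intro m
    have h1 := LSeries.iteratedDeriv_alternating hnn habs m
    have h2 := (Complex.le_def.1 h1).1
    have hf : (0 : ℝ) < m.factorial := by exact_mod_cast m.factorial_pos
    rw [hder m, Complex.sub_re]
    have h3 : ((lamb : ℂ) * (m.factorial : ℂ)).re = lamb * m.factorial := by
      rw [← Complex.ofReal_natCast, ← Complex.ofReal_mul, Complex.ofReal_re]
    rw [h3, sub_div, mul_div_assoc, div_self hf.ne', mul_one]
    have h4 : 0 ≤ ((-1 : ℂ) ^ m * iteratedDeriv m (LSeries (fun n => (a n : ℂ))) 2).re := by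
      simpa using h2
    have := div_nonneg h4 hf.le
    linarith
  have h0 : 1 ≤ lamb + (H 2).re := by
    have h1 := hHv 2 (by norm_num)
    have h2 := (hs 2 (by norm_num)).2
    rw [← h2] at h1
    rw [h1, Complex.sub_re]
    have h3 : ((lamb : ℂ) * ((2 : ℂ) - 1)⁻¹).re = lamb := by
      norm_num
    rw [h3]
    have hsm := (hs 2 (by norm_num)).1
    have h4 : (LSeries.term (fun n => (a n : ℂ)) 2 1).re ≤
        (LSeries (fun n => (a n : ℂ)) 2).re := by
      rw [LSeries, Complex.re_tsum hsm]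
      apply (Complex.hasSum_re hsm.hasSum).summable.le_tsum 1
      intro n _
      have := LSeries.term_nonneg (a := fun n => (a n : ℂ)) (n := n)
        (by exact_mod_cast Complex.zero_le_real.2 (ha n)) (2 : ℝ)
      exact (Complex.le_def.1 (by exact_mod_cast this)).1
    rw [LSeries.term_of_ne_zero one_ne_zero, ha1] at h4
    norm_num at h4
    linarith
  have hmain := est_abs H hHd lamb ((Z + 2) * K) hl (by positivity) hb hpos h0 s hs0 hs1 M hM
  have hsne : (s : ℂ) ≠ 1 := by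
    intro h
    have : s = 1 := by exact_mod_cast h
    linarith
  have h5 := hHv (s : ℂ) hsne
  have h6 : (H s).re = (riemannZeta s * G s).re + lamb / (1 - s) := by
    rw [h5, Complex.sub_re]
    have : (lamb : ℂ) * ((s : ℂ) - 1)⁻¹ = ((lamb * (s - 1)⁻¹ : ℝ) : ℂ) := by
      push_cast
      ring
    rw [this, Complex.ofReal_re]
    have h7 : s - 1 ≠ 0 := by linarith
    have h8 : 1 - s ≠ 0 := by linarith
    have : lamb * (s - 1)⁻¹ = - (lamb / (1 - s)) := by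
      rw [← div_eq_mul_inv, ← neg_sub 1 s, div_neg]
    rw [this]
    ring
  rw [h6] at hmain
  linarith


theorem log_four_thirds : 1 / 4 ≤ Real.log (4 / 3) := by
  rw [Real.le_log_iff_exp_le (by norm_num)]
  have h1 : Real.exp (1 / 4) ^ 4 = Real.exp 1 := by
    rw [← Real.exp_nat_mul]
    norm_num
  have h2 : Real.exp 1 ≤ (4 / 3 : ℝ) ^ 4 := by
    have := Real.exp_one_lt_d9
    norm_num
    linarith
  rw [← h1] at h2
  exact le_of_pow_le_pow_left₀ (by norm_num) (by norm_num) h2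

theorem sg_num (K X s : ℝ) (hK : 1 ≤ K) (hX : 1 ≤ X) (hs : 7 / 8 ≤ s) (hs1 : s < 1) :
    ∃ M : ℕ, 1 ≤ M ∧ K * X ^ 2 * (3 / 4 : ℝ) ^ M ≤ 1 / 2 ∧
      (2 - s) ^ M ≤ Real.exp (Real.log (2 * K) / Real.log (4 / 3) + 2) * X ^ (8 * (1 - s)) := by
  have hl := log_four_thirds
  have hl0 : 0 < Real.log (4 / 3) := by linarith
  have hX0 : 0 < X := by linarith
  have hK0 : 0 < K := by linarith
  have hlK : 0 ≤ Real.log (2 * K) := Real.log_nonneg (by linarith)
  have hlX : 0 ≤ Real.log X := Real.log_nonneg hX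
  set T : ℝ := Real.log (2 * K * X ^ 2) / Real.log (4 / 3) with hT
  have hTe : Real.log (2 * K * X ^ 2) = Real.log (2 * K) + 2 * Real.log X := by
    rw [Real.log_mul (by positivity) (by positivity), Real.log_pow]
    norm_num
  have hT0 : 0 ≤ T := by
    rw [hT, hTe]
    positivity
  refine ⟨⌈T⌉₊ + 1, by omega, ?_, ?_⟩
  · have h1 : T ≤ ((⌈T⌉₊ + 1 : ℕ) : ℝ) := by
      push_cast
      have := Nat.le_ceil T
      linarith
    have h2 : Real.log (2 * K * X ^ 2) ≤ ((⌈T⌉₊ + 1 : ℕ) : ℝ) * Real.log (4 / 3) := by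
      rw [hT, div_le_iff₀ hl0] at h1
      exact h1
    rw [← Real.log_pow, Real.log_le_log_iff (by positivity) (by positivity)] at h2
    have h3 : (3 / 4 : ℝ) ^ (⌈T⌉₊ + 1) = ((4 / 3 : ℝ) ^ (⌈T⌉₊ + 1))⁻¹ := by
      rw [← inv_pow]
      norm_num
    rw [h3, ← div_eq_mul_inv, div_le_iff₀ (by positivity)]
    linarith
  · have h1 : 2 - s ≤ Real.exp (1 - s) := by
      have := Real.add_one_le_exp (1 - s)
      linarith
    have h2 : (2 - s) ^ (⌈T⌉₊ + 1) ≤ Real.exp (1 - s) ^ (⌈T⌉₊ + 1) :=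
      pow_le_pow_left₀ (by linarith) h1 _
    refine h2.trans ?_
    rw [← Real.exp_nat_mul, Real.rpow_def_of_pos hX0, ← Real.exp_add, Real.exp_le_exp]
    have h3 : ((⌈T⌉₊ + 1 : ℕ) : ℝ) ≤ T + 2 := by
      push_cast
      have := (Nat.ceil_lt_add_one hT0).le
      linarith
    have h4 : T ≤ Real.log (2 * K) / Real.log (4 / 3) + 8 * Real.log X := by
      rw [hT, hTe, add_div]
      have : 2 * Real.log X / Real.log (4 / 3) ≤ 8 * Real.log X := by
        rw [div_le_iff₀ hl0]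
        nlinarith
      linarith
    have h5 : 0 ≤ Real.log (2 * K) / Real.log (4 / 3) := by positivity
    have h6 : ((⌈T⌉₊ + 1 : ℕ) : ℝ) * (1 - s) ≤
        (Real.log (2 * K) / Real.log (4 / 3) + 8 * Real.log X + 2) * (1 - s) := by
      apply mul_le_mul_of_nonneg_right _ (by linarith)
      linarith
    nlinarith

theorem sg_est : ∃ C : ℝ, 0 < C ∧ ∀ q1 q2 : ℕ, ∀ _ : NeZero q1, ∀ _ : NeZero q2,
    ∀ χ1 : DirichletCharacter ℂ q1, ∀ χ2 : DirichletCharacter ℂ q2, RealChar χ1 → RealChar χ2 →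
    χ1 ≠ 1 → χ2 ≠ 1 → prodChar χ1 χ2 ≠ 1 → ∀ s : ℝ, 7 / 8 ≤ s → s < 1 →
    1 / 2 - C * (L1 χ1 * L1 χ2 * L1 (prodChar χ1 χ2)) / (1 - s) *
        ((q1 : ℝ) * q2) ^ (8 * (1 - s)) ≤
      (riemannZeta s * DirichletCharacter.LFunction χ1 s * DirichletCharacter.LFunction χ2 s *
        DirichletCharacter.LFunction (prodChar χ1 χ2) s).re := by
  obtain ⟨C₁, hC₁, hLb⟩ := L_bound
  obtain ⟨Z, hZ0, hZ⟩ := zeta_bound_sphere
  set K : ℝ := max (4 * (Z + 2) * C₁ ^ 3) 1 with hKdef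
  have hK1 : 1 ≤ K := le_max_right _ _
  refine ⟨Real.exp (Real.log (2 * K) / Real.log (4 / 3) + 2), Real.exp_pos _, ?_⟩
  intro q1 q2 hq1 hq2 χ1 χ2 hr1 hr2 hn1 hn2 hn3 s hs hs1
  have hq3 : NeZero (q1 * q2) := ⟨mul_ne_zero hq1.out hq2.out⟩
  have hq1' : (1 : ℝ) ≤ q1 := by exact_mod_cast Nat.one_le_iff_ne_zero.2 hq1.out
  have hq2' : (1 : ℝ) ≤ q2 := by exact_mod_cast Nat.one_le_iff_ne_zero.2 hq2.out
  have hr3 := realChar_prod χ1 χ2 hr1 hr2
  set X : ℝ := (q1 : ℝ) * q2 with hX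
  have hX1 : 1 ≤ X := by
    rw [hX]
    nlinarith
  obtain ⟨M, hM, hM1, hM2⟩ := sg_num K X s hK1 hX1 hs hs1
  obtain ⟨a, ha0, ha1, ha⟩ := sg_coef q1 q2 χ1 χ2 hr1 hr2
  set G : ℂ → ℂ := fun z => DirichletCharacter.LFunction χ1 z * DirichletCharacter.LFunction χ2 z *
        DirichletCharacter.LFunction (prodChar χ1 χ2) z with hG
  have hGd : Differentiable ℂ G :=
    ((DirichletCharacter.differentiable_LFunction hn1).mul
      (DirichletCharacter.differentiable_LFunction hn2)).mul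
      (DirichletCharacter.differentiable_LFunction hn3)
  have hLre : ∀ (q : ℕ) [NeZero q] (χ : DirichletCharacter ℂ q), χ ≠ 1 → RealChar χ →
      DirichletCharacter.LFunction χ 1 = ((L1 χ : ℝ) : ℂ) := by
    intro q _ χ h1 h2
    have := L_real q χ h1 h2 1 (by norm_num)
    apply Complex.ext
    · simp [L1]
    · simpa using this
  set lamb : ℝ := L1 χ1 * L1 χ2 * L1 (prodChar χ1 χ2) with hlamb
  have hl0 : 0 < lamb := by
    have e1 := L_pos q1 χ1 hn1 hr1
    have e2 := L_pos q2 χ2 hn2 hr2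
    have e3 := L_pos (q1 * q2) (prodChar χ1 χ2) hn3 hr3
    positivity
  have hl1 : G 1 = (lamb : ℂ) := by
    rw [hG]
    beta_reduce
    rw [hLre q1 χ1 hn1 hr1, hLre q2 χ2 hn2 hr2, hLre (q1 * q2) (prodChar χ1 χ2) hn3 hr3, hlamb]
    push_cast
    ring
  have hGb : ∀ z : ℂ, 1 / 2 ≤ z.re → ‖z‖ ≤ 4 → ‖G z‖ ≤ C₁ ^ 3 * X ^ 2 := by
    intro z hz1 hz2
    rw [hG]
    beta_reduce
    rw [norm_mul, norm_mul]
    have e1 := hLb q1 hq1 χ1 hn1 z hz1 hz2
    have e2 := hLb q2 hq2 χ2 hn2 z hz1 hz2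
    have e3 := hLb (q1 * q2) hq3 (prodChar χ1 χ2) hn3 z hz1 hz2
    calc ‖DirichletCharacter.LFunction χ1 z‖ * ‖DirichletCharacter.LFunction χ2 z‖ *
          ‖DirichletCharacter.LFunction (prodChar χ1 χ2) z‖
        ≤ (C₁ * q1) * (C₁ * q2) * (C₁ * ((q1 * q2 : ℕ) : ℝ)) := by gcongr
      _ = C₁ ^ 3 * X ^ 2 := by
        rw [hX]
        push_cast
        ring
  have hsph : ∀ z ∈ Metric.sphere (2 : ℂ) (3 / 2), 1 / 2 ≤ z.re ∧ ‖z‖ ≤ 4 := by
    intro z hz
    have hz2 : ‖z - 2‖ = 3 / 2 := by rwa [Metric.mem_sphere, dist_eq_norm] at hz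
    constructor
    · have h1 := (abs_le.1 (Complex.abs_re_le_norm (z - 2))).1
      rw [hz2, Complex.sub_re] at h1
      norm_num at h1
      linarith
    · have h1 : ‖z‖ ≤ ‖z - 2‖ + ‖(2 : ℂ)‖ := by
        have := norm_add_le (z - 2) 2
        rwa [sub_add_cancel] at this
      rw [hz2] at h1
      norm_num at h1
      linarith
  have hmain := sg_core G hGd a ha0 ha1 (fun z hz => ⟨(ha z hz).1, by
      rw [(ha z hz).2, hG]
      ring⟩) lamb hl0.le hl1 Z (C₁ ^ 3 * X ^ 2) hZ (fun z hz => hGb z (hsph z hz).1 (hsph z hz).2)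
      (by
        have := hGb 1 (by norm_num) (by norm_num)
        rw [hl1, Complex.norm_real, Real.norm_of_nonneg hl0.le] at this
        exact this) (by positivity) hZ0.le s hs hs1 M hM
  have e1 : (riemannZeta s * G s).re = (riemannZeta s * DirichletCharacter.LFunction χ1 s *
      DirichletCharacter.LFunction χ2 s * DirichletCharacter.LFunction (prodChar χ1 χ2) s).re := by
    rw [hG]
    congr 1
    ring
  rw [e1] at hmain
  refine le_trans ?_ hmain
  have h1s : 0 < 1 - s := by linarith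
  have h2 : 4 * ((Z + 2) * (C₁ ^ 3 * X ^ 2)) * (3 / 4) ^ M ≤ 1 / 2 := by
    refine le_trans ?_ hM1
    have h3 : 4 * ((Z + 2) * (C₁ ^ 3 * X ^ 2)) = (4 * (Z + 2) * C₁ ^ 3) * X ^ 2 := by ring
    rw [h3]
    apply mul_le_mul_of_nonneg_right _ (by positivity)
    exact mul_le_mul_of_nonneg_right (le_max_left _ _) (by positivity)
  have h4 : lamb * (2 - s) ^ M / (1 - s) ≤
      Real.exp (Real.log (2 * K) / Real.log (4 / 3) + 2) * lamb / (1 - s) * X ^ (8 * (1 - s)) := by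
    rw [div_le_iff₀ h1s]
    have : Real.exp (Real.log (2 * K) / Real.log (4 / 3) + 2) * lamb / (1 - s) *
        X ^ (8 * (1 - s)) * (1 - s) = lamb * (Real.exp (Real.log (2 * K) / Real.log (4 / 3) + 2) *
          X ^ (8 * (1 - s))) := by
      field_simp
    rw [this]
    exact mul_le_mul_of_nonneg_left hM2 hl0.le
  linarith

end Pool.Agent.GLI
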