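import Pool.Agent.GLI.Core
import Pool.Agent.GLI.Dis
import Pool.Agent.GLI.Ev

set_option autoImplicit false

/-!
Stage one: the inverse theorem. If `lam (N - a) = κ lam a` for almost all `a < N`, then `lam` agrees almost
everywhere with a real nonprincipal character modulo `N`, of parity `κ`, with very few split primes.
-/

open Finset Filter

namespace Pool.Agent.GLI

theorem stage_one (D : ℕ) : ∃ C : ℕ, ∀ᶠ N : ℕ in atTop, ∀ _ : NeZero N, ∀ κ : ℤ, κ = 1 ∨ κ = -1 →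
    ((W κ N).card : ℝ) ≤ N / Real.log N ^ C →
    ∃ χ : DirichletCharacter ℂ N, RealChar χ ∧ χ ≠ 1 ∧ χ (-1) = (κ : ℂ) ∧
      Sp χ N ≤ 1 / Real.log N ^ D ∧ ((dis N χ).card : ℝ) ≤ N / Real.log N ^ D := by
  obtain ⟨D1, h1⟩ := split_sparse D
  obtain ⟨D2, h2⟩ := dis_small (max (max D D1) 2)
  obtain ⟨C1, h3⟩ := core D2
  refine ⟨max C1 2, ?_⟩
  filter_upwards [h1, h2, h3, parity, win_facts, ev_log 2] with N h1 h2 h3 h4 h5 hlog
  intro hNZ κ hκ hW
  have hlog1 : 1 ≤ Real.log N := by linarith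
  have hN0 : (0 : ℝ) ≤ N := Nat.cast_nonneg N
  obtain ⟨χ, hr, hin, hc⟩ := h3 hNZ κ hκ (hW.trans (div_log_anti _ hN0 hlog1 (le_max_left _ _)))
  have hd := h2 hNZ χ hr hc
  have hd1 : ((dis N χ).card : ℝ) ≤ N / Real.log N ^ D1 :=
    hd.trans (div_log_anti _ hN0 hlog1 ((le_max_right _ _).trans (le_max_left _ _)))
  have hd2 : ((dis N χ).card : ℝ) ≤ N / Real.log N ^ 2 :=
    hd.trans (div_log_anti _ hN0 hlog1 (le_max_right _ _))
  have hdD : ((dis N χ).card : ℝ) ≤ N / Real.log N ^ D :=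
    hd.trans (div_log_anti _ hN0 hlog1 ((le_max_left _ _).trans (le_max_left _ _)))
  refine ⟨χ, hr, ?_, ?_, h1 hNZ χ hr hd1, hdD⟩
  · -- some prime `p ≤ (log N)^3` does not divide `N`
    have hfl : Real.log N ^ 2 ≤ (lp N 3 : ℝ) := by
      have h6 : Real.log N ^ 3 < (lp N 3 : ℝ) + 1 := Nat.lt_floor_add_one _
      have h7 : Real.log N ^ 3 = Real.log N ^ 2 * Real.log N := by ring
      have h8 : (4 : ℝ) ≤ Real.log N ^ 2 := by nlinarith
      nlinarith
    obtain ⟨h6, -, -⟩ := h5 (lp N 3) hfl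
    have h7 : (1 : ℝ) < (lp N 3 : ℝ) := by nlinarith
    have h8 : (0 : ℝ) < (win N (lp N 3)).card := by
      refine lt_of_lt_of_le ?_ h6
      have := Real.log_pos h7
      positivity
    have h9 : (win N (lp N 3)).Nonempty := by
      rw [← Finset.card_pos]
      exact_mod_cast h8
    obtain ⟨p, hp⟩ := h9
    simp only [win, mem_filter, mem_Ioc] at hp
    intro h10
    have h11 := hin p hp.2.1 hp.1.2 hp.2.2
    rw [h10] at h11
    have h12 : IsUnit (p : ZMod N) := by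
      rw [ZMod.isUnit_iff_coprime]
      exact (Nat.Prime.coprime_iff_not_dvd hp.2.1).2 hp.2.2
    rw [MulChar.one_apply h12] at h11
    norm_num at h11
  · exact h4 hNZ κ hκ χ hr hd2 (hW.trans (div_log_anti _ hN0 hlog1 (le_max_right _ _)))

end Pool.Agent.GLI
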