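import Pool.Agent.GLI.LOne
import Pool.Agent.GLI.DivB

set_option autoImplicit false

/-!
Module TB. `r = rr χ`, `q ∣ N`. If a prime `p ∤ N` with `χ(p) = 1` divides `n = p m`, then `r(p m) ≤ τ(p m) ≤ 2 τ(m)`,
so these `n` contribute `≤ ∑_p ∑_{m ≤ x/p} 2 τ(m) ≤ ∑_p 2 (x/p)(1 + log x)`. Other `n`
with `r(n) ≠ 0`: `n = u s²`, `u ∣ N^∞`, `s` prime to `N`, `r(n) = r(u) ≤ τ(u)`:
`≤ ∑_{u ∣ N^∞} τ(u) √(x/u) = √x ∏_{p ∣ N} (1 - p^(-1/2))^(-2) ≤ √x 16^ω(N)`.
-/

open Finset Filter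

namespace Pool.Agent.GLI

namespace TBAux

theorem re_mul {q : ℕ} (χ : DirichletCharacter ℂ q) (h : RealChar χ) (a b : ZMod q) :
    (χ (a * b)).re = (χ a).re * (χ b).re := by
  rw [map_mul]
  rcases h a with ha | ha | ha <;> rcases h b with hb | hb | hb <;> rw [ha, hb] <;> simp

theorem re_pow {q : ℕ} (χ : DirichletCharacter ℂ q) (h : RealChar χ) (a : ZMod q) (k : ℕ) :
    (χ (a ^ k)).re = (χ a).re ^ k := by
  induction k with
  | zero => simp
  | succ k ih => rw [pow_succ, re_mul χ h, ih, pow_succ]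

/-- Real part of the character as an arithmetic function. -/
noncomputable def gA {q : ℕ} (χ : DirichletCharacter ℂ q) : ArithmeticFunction ℝ :=
  ⟨fun n => if n = 0 then 0 else (χ (n : ZMod q)).re, by simp⟩

theorem gA_apply {q : ℕ} (χ : DirichletCharacter ℂ q) (n : ℕ) (hn : n ≠ 0) :
    gA χ n = (χ (n : ZMod q)).re := by
  simp [gA, hn]

theorem gA_mult {q : ℕ} (χ : DirichletCharacter ℂ q) (h : RealChar χ) :
    (gA χ).IsMultiplicative := by
  rw [ArithmeticFunction.IsMultiplicative.iff_ne_zero]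
  refine ⟨by rw [gA_apply χ 1 one_ne_zero]; simp, fun {m n} hm hn _ => ?_⟩
  rw [gA_apply χ _ (mul_ne_zero hm hn), gA_apply χ _ hm, gA_apply χ _ hn, Nat.cast_mul,
    re_mul χ h]

/-- `rr` as an arithmetic function. -/
noncomputable def rA {q : ℕ} (χ : DirichletCharacter ℂ q) : ArithmeticFunction ℝ :=
  (ArithmeticFunction.zeta : ArithmeticFunction ℝ) * gA χ

theorem rA_apply {q : ℕ} (χ : DirichletCharacter ℂ q) (n : ℕ) : rA χ n = rr χ n := by
  rw [rA, ArithmeticFunction.coe_zeta_mul_apply, rr]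
  refine Finset.sum_congr rfl fun d hd => gA_apply χ d (Nat.pos_of_mem_divisors hd).ne'

theorem rA_mult {q : ℕ} (χ : DirichletCharacter ℂ q) (h : RealChar χ) :
    (rA χ).IsMultiplicative :=
  ArithmeticFunction.isMultiplicative_zeta.natCast.mul (gA_mult χ h)

theorem rA_pow {q : ℕ} (χ : DirichletCharacter ℂ q) (h : RealChar χ) (p k : ℕ)
    (hp : p.Prime) (hχ : (χ (p : ZMod q)).re = -1) :
    rA χ (p ^ k) = if Even k then 1 else 0 := by
  rw [rA_apply, rr, Nat.sum_divisors_prime_pow hp]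
  have h1 : ∀ i ∈ range (k + 1), (χ ((p ^ i : ℕ) : ZMod q)).re = (-1 : ℝ) ^ i := by
    intro i _
    rw [Nat.cast_pow, re_pow χ h, hχ]
  rw [Finset.sum_congr rfl h1, neg_one_geom_sum]
  by_cases hk : Even k
  · rw [if_pos hk, if_neg]
    rw [Nat.even_add_one]
    simpa using hk
  · rw [if_neg hk, if_pos]
    rw [Nat.even_add_one]
    exact hk

/-- `v` all of whose primes are inert. -/
theorem rA_inert {q : ℕ} (χ : DirichletCharacter ℂ q) (h : RealChar χ) (v : ℕ) (hv : v ≠ 0)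
    (hI : ∀ p, p.Prime → p ∣ v → (χ (p : ZMod q)).re = -1) :
    rA χ v = 0 ∨ (rA χ v = 1 ∧ ∃ s : ℕ, v = s ^ 2) := by
  have h1 : rA χ v = v.factorization.prod fun p k => rA χ (p ^ k) :=
    (rA_mult χ h).multiplicative_factorization _ hv
  have h2 : rA χ v = ∏ p ∈ v.primeFactors, if Even (v.factorization p) then (1 : ℝ) else 0 := by
    rw [h1, Finsupp.prod, Nat.support_factorization]
    refine Finset.prod_congr rfl fun p hp => ?_
    exact rA_pow χ h p _ (Nat.prime_of_mem_primeFactors hp)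
      (hI p (Nat.prime_of_mem_primeFactors hp) (Nat.dvd_of_mem_primeFactors hp))
  by_cases hall : ∀ p ∈ v.primeFactors, Even (v.factorization p)
  · right
    refine ⟨?_, ?_⟩
    · rw [h2]
      refine Finset.prod_eq_one fun p hp => ?_
      rw [if_pos (hall p hp)]
    · have h3 : IsSquare (∏ p ∈ v.primeFactors, p ^ v.factorization p) := by
        refine Finset.isSquare_prod _ fun p hp => ?_
        exact (hall p hp).isSquare_pow p
      have h4 : ∏ p ∈ v.primeFactors, p ^ v.factorization p = v := by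
        have := Nat.prod_factorization_pow_eq_self hv
        rwa [Finsupp.prod, Nat.support_factorization] at this
      rw [h4] at h3
      obtain ⟨s, hs⟩ := h3
      exact ⟨s, by rw [hs]; ring⟩
  · left
    push Not at hall
    obtain ⟨p, hp, hp2⟩ := hall
    rw [h2]
    refine Finset.prod_eq_zero hp ?_
    rw [if_neg hp2]

/-- The part of `n` made of primes dividing `N`. -/
theorem split_part (N n : ℕ) (hN : N ≠ 0) (hn : n ≠ 0) : ∃ u v : ℕ, n = u * v ∧ u ≠ 0 ∧ v ≠ 0 ∧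
    u.Coprime v ∧ u ∈ Nat.factoredNumbers N.primeFactors ∧ v.Coprime N := by
  have h4 : ∏ p ∈ n.primeFactors, p ^ n.factorization p = n := by
    have := Nat.prod_factorization_pow_eq_self hn
    rwa [Finsupp.prod, Nat.support_factorization] at this
  refine ⟨∏ p ∈ n.primeFactors.filter (· ∣ N), p ^ n.factorization p,
    ∏ p ∈ n.primeFactors.filter (fun p => ¬ p ∣ N), p ^ n.factorization p, ?_, ?_, ?_, ?_, ?_, ?_⟩
  · rw [Finset.prod_filter_mul_prod_filter_not, h4]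
  · refine Finset.prod_ne_zero_iff.mpr fun p hp => pow_ne_zero _ ?_
    exact (Nat.prime_of_mem_primeFactors (Finset.mem_filter.mp hp).1).ne_zero
  · refine Finset.prod_ne_zero_iff.mpr fun p hp => pow_ne_zero _ ?_
    exact (Nat.prime_of_mem_primeFactors (Finset.mem_filter.mp hp).1).ne_zero
  · refine Nat.Coprime.prod_left fun p hp => Nat.Coprime.prod_right fun l hl => ?_
    rw [Finset.mem_filter] at hp hl
    refine Nat.Coprime.pow _ _ ?_
    rw [Nat.coprime_primes (Nat.prime_of_mem_primeFactors hp.1)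
      (Nat.prime_of_mem_primeFactors hl.1)]
    rintro rfl
    exact hl.2 hp.2
  · rw [Nat.mem_factoredNumbers']
    intro l hl hdvd
    obtain ⟨p, hp, hlp⟩ := (Prime.dvd_finsetProd_iff hl.prime _).mp hdvd
    rw [Finset.mem_filter] at hp
    have h5 := hl.dvd_of_dvd_pow hlp
    have h6 := (Nat.prime_dvd_prime_iff_eq hl (Nat.prime_of_mem_primeFactors hp.1)).mp h5
    rw [Nat.mem_primeFactors]
    exact ⟨hl, h6 ▸ hp.2, hN⟩
  · refine Nat.Coprime.prod_left fun p hp => ?_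
    rw [Finset.mem_filter] at hp
    refine Nat.Coprime.pow_left _ ?_
    exact (Nat.Prime.coprime_iff_not_dvd (Nat.prime_of_mem_primeFactors hp.1)).mpr hp.2

/-- Case B: no split prime prime to `N` divides `n`. -/
theorem rr_caseB {q : ℕ} [NeZero q] (χ : DirichletCharacter ℂ q) (h : RealChar χ) (N : ℕ)
    (hN : N ≠ 0) (hq : q ∣ N) (n : ℕ) (hn : n ≠ 0)
    (hB : ∀ p, p.Prime → p ∣ n → ¬ p ∣ N → χ (p : ZMod q) ≠ 1) (hr : rr χ n ≠ 0) :
    ∃ u s : ℕ, n = u * s ^ 2 ∧ u ∈ Nat.factoredNumbers N.primeFactors ∧ s ≠ 0 ∧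
      rr χ n ≤ (u.divisors.card : ℝ) := by
  obtain ⟨u, v, hnuv, hu0, hv0, huv, hu, hv⟩ := split_part N n hN hn
  have h1 : rA χ n = rA χ u * rA χ v := by
    rw [hnuv]
    exact (rA_mult χ h).map_mul_of_coprime huv
  have hI : ∀ p, p.Prime → p ∣ v → (χ (p : ZMod q)).re = -1 := by
    intro p hp hpv
    have hpN : ¬ p ∣ N := by
      intro hpN
      exact hp.one_lt.ne' (Nat.eq_one_of_dvd_coprimes hv hpv hpN)
    have hne : χ (p : ZMod q) ≠ 1 := hB p hp (hnuv ▸ hpv.mul_left u) hpN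
    have hunit : IsUnit ((p : ℕ) : ZMod q) := by
      rw [ZMod.isUnit_iff_coprime]
      exact ((Nat.Prime.coprime_iff_not_dvd hp).mpr fun hpq => hpN (hpq.trans hq))
    have hne0 : χ (p : ZMod q) ≠ 0 := (hunit.map χ).ne_zero
    rcases h (p : ZMod q) with h0 | h0 | h0
    · exact absurd h0 hne0
    · exact absurd h0 hne
    · rw [h0]; simp
  rcases rA_inert χ h v hv0 hI with h2 | ⟨h2, s, hs⟩
  · rw [h2, mul_zero, rA_apply] at h1
    exact absurd h1 hr
  · refine ⟨u, s, by rw [hnuv, hs], hu, ?_, ?_⟩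
    · rintro rfl
      exact hv0 (by rw [hs]; norm_num)
    · rw [← rA_apply, h1, h2, mul_one, rA_apply]
      exact (rr_nonneg χ h u).2

/-- `m ↦ m^(-1/2)`. -/
noncomputable def fh : ℕ →* ℝ where
  toFun n := (Real.sqrt n)⁻¹
  map_one' := by simp
  map_mul' a b := by
    rw [Nat.cast_mul, Real.sqrt_mul (Nat.cast_nonneg a), mul_inv]

theorem fh_apply (n : ℕ) : fh n = (Real.sqrt n)⁻¹ := rfl

theorem fh_prime (p : ℕ) (hp : p.Prime) : fh p ≤ 3 / 4 := by
  rw [fh_apply]
  have h1 : (2 : ℝ) ≤ p := by exact_mod_cast hp.two_le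
  have h2 : (4 / 3 : ℝ) ≤ Real.sqrt p := by
    rw [show (4 / 3 : ℝ) = Real.sqrt ((4 / 3) ^ 2) by rw [Real.sqrt_sq (by norm_num)]]
    exact Real.sqrt_le_sqrt (by linarith)
  rw [inv_le_comm₀ (by linarith) (by norm_num)]
  linarith

theorem fh_nonneg (n : ℕ) : 0 ≤ fh n := by
  rw [fh_apply]; positivity

theorem sum_fh (N : ℕ) (U : Finset ℕ) (hU : ∀ u ∈ U, u ∈ Nat.factoredNumbers N.primeFactors) :
    ∑ u ∈ U, fh u ≤ (4 : ℝ) ^ N.primeFactors.card := by
  have hlt : ∀ {p : ℕ}, p.Prime → ‖fh p‖ < 1 := by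
    intro p hp
    rw [Real.norm_of_nonneg (fh_nonneg p)]
    linarith [fh_prime p hp]
  obtain ⟨_, hsum⟩ := EulerProduct.summable_and_hasSum_factoredNumbers_prod_filter_prime_geometric
    hlt N.primeFactors
  have h1 : ∑ u ∈ U, fh u ≤ ∏ p ∈ N.primeFactors with p.Prime, (1 - fh p)⁻¹ := by
    let e : {u // u ∈ U} ↪ Nat.factoredNumbers N.primeFactors :=
      ⟨fun u => ⟨u.1, hU u.1 u.2⟩, fun a b hab => Subtype.ext (congrArg
        (fun z : Nat.factoredNumbers N.primeFactors => (z : ℕ)) hab)⟩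
    have h2 : ∑ u ∈ U.attach.map e, fh (u : ℕ) = ∑ u ∈ U, fh u := by
      rw [Finset.sum_map]
      exact Finset.sum_attach U fun u => fh u
    rw [← h2]
    exact sum_le_hasSum _ (fun i _ => fh_nonneg _) hsum
  refine h1.trans ?_
  have h3 : ∏ p ∈ N.primeFactors with p.Prime, (1 - fh p)⁻¹ ≤
      ∏ _p ∈ N.primeFactors.filter Nat.Prime, (4 : ℝ) := by
    refine Finset.prod_le_prod (fun p hp => ?_) fun p hp => ?_
    · have := fh_prime p (Finset.mem_filter.mp hp).2
      exact inv_nonneg.mpr (by linarith)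
    · have := fh_prime p (Finset.mem_filter.mp hp).2
      rw [inv_le_comm₀ (by linarith) (by norm_num)]
      linarith
  refine h3.trans ?_
  rw [Finset.prod_const]
  exact pow_le_pow_right₀ (by norm_num) (Finset.card_filter_le _ _)

/-- `∑_{m ≤ y} τ(m) ≤ y (1 + log x)` for `y ≤ x`. -/
theorem sum_tau (y x : ℕ) (hyx : y ≤ x) :
    ∑ m ∈ Icc 1 y, (m.divisors.card : ℝ) ≤ y * (1 + Real.log x) := by
  have h1 : ∀ m ∈ Icc 1 y, (m.divisors.card : ℝ) = ∑ d ∈ Icc 1 y, if d ∣ m then (1 : ℝ) else 0 := by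
    intro m hm
    rw [Finset.mem_Icc] at hm
    rw [Finset.sum_boole]
    congr 2
    ext d
    rw [Nat.mem_divisors, Finset.mem_filter, Finset.mem_Icc]
    constructor
    · rintro ⟨hd, _⟩
      have := Nat.le_of_dvd (by omega) hd
      exact ⟨⟨Nat.pos_of_dvd_of_pos hd (by omega), by omega⟩, hd⟩
    · rintro ⟨_, hd⟩
      exact ⟨hd, by omega⟩
  rw [Finset.sum_congr rfl h1, Finset.sum_comm]
  have h2 : ∀ d ∈ Icc 1 y, (∑ m ∈ Icc 1 y, if d ∣ m then (1 : ℝ) else 0) ≤ y * (1 / d) := by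
    intro d hd
    rw [Finset.mem_Icc] at hd
    rw [Finset.sum_boole]
    have h3 : ((Icc 1 y).filter (d ∣ ·)).card = y / d := by
      rw [← Nat.Ioc_filter_dvd_card_eq_div y d]
      rfl
    rw [h3]
    have := @Nat.cast_div_le ℝ _ _ _ y d
    rw [mul_one_div]
    exact this
  refine (Finset.sum_le_sum h2).trans ?_
  rw [← Finset.mul_sum]
  refine mul_le_mul_of_nonneg_left ?_ (Nat.cast_nonneg y)
  have h5 : ∑ d ∈ Icc 1 y, (1 : ℝ) / d ≤ ∑ d ∈ Icc 1 x, (1 : ℝ) / d :=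
    Finset.sum_le_sum_of_subset_of_nonneg (Finset.Icc_subset_Icc_right hyx)
      fun i _ _ => by positivity
  refine h5.trans ?_
  have h4 := harmonic_le_one_add_log x
  have h6 : ((harmonic x : ℚ) : ℝ) = ∑ d ∈ Icc 1 x, (1 : ℝ) / d := by
    rw [harmonic_eq_sum_Icc]
    push_cast
    simp
  rw [← h6]
  exact h4

end TBAux

open TBAux

open Classical in
theorem r_noSplit (δ : ℝ) (hδ : 0 < δ) : ∀ᶠ N : ℕ in atTop, ∀ q : ℕ, ∀ _ : NeZero q, q ∣ N →
    ∀ χ : DirichletCharacter ℂ q, RealChar χ → ∀ x : ℕ, 1 ≤ x →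
    ∑ n ∈ Icc 1 x, rr χ n ≤ (N : ℝ) ^ δ * Real.sqrt x + 4 * x * (1 + Real.log x) *
      ∑ p ∈ (Icc 1 x).filter (fun p => p.Prime ∧ ¬ p ∣ N ∧ χ (p : ZMod q) = 1), (1 : ℝ) / p := by
  filter_upwards [omega_small (δ / 4) (by linarith), eventually_ge_atTop 1] with N hom hN1 q hq0 hq χ h x hx
  have hN0 : N ≠ 0 := by omega
  have hlx : 0 ≤ Real.log x := Real.log_nonneg (by exact_mod_cast hx)
  set Sset := (Icc 1 x).filter (fun p => p.Prime ∧ ¬ p ∣ N ∧ χ (p : ZMod q) = 1) with hSset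
  -- the bad integers
  set A := (Icc 1 x).filter (fun n => ∃ p, p.Prime ∧ p ∣ n ∧ ¬ p ∣ N ∧ χ (p : ZMod q) = 1) with hA
  have hsplit : ∑ n ∈ Icc 1 x, rr χ n = ∑ n ∈ A, rr χ n +
      ∑ n ∈ (Icc 1 x).filter (fun n => ¬ ∃ p, p.Prime ∧ p ∣ n ∧ ¬ p ∣ N ∧ χ (p : ZMod q) = 1),
        rr χ n := by
    rw [hA, Finset.sum_filter_add_sum_filter_not]
  -- case A
  have hcaseA : ∑ n ∈ A, rr χ n ≤ 4 * x * (1 + Real.log x) * ∑ p ∈ Sset, (1 : ℝ) / p := by
    have h1 : ∀ n ∈ A, rr χ n ≤ ∑ p ∈ Sset, if p ∣ n then 2 * ((n / p).divisors.card : ℝ) else 0 := by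
      intro n hn
      rw [hA, Finset.mem_filter, Finset.mem_Icc] at hn
      obtain ⟨⟨hn1, hnx⟩, p, hp, hpn, hpN, hχ⟩ := hn
      have hpS : p ∈ Sset := by
        rw [hSset, Finset.mem_filter, Finset.mem_Icc]
        exact ⟨⟨hp.one_le, (Nat.le_of_dvd (by omega) hpn).trans hnx⟩, hp, hpN, hχ⟩
      have h2 : (if p ∣ n then 2 * ((n / p).divisors.card : ℝ) else 0) ≤
          ∑ p ∈ Sset, if p ∣ n then 2 * ((n / p).divisors.card : ℝ) else 0 :=
        Finset.single_le_sum (f := fun p : ℕ => if p ∣ n then 2 * ((n / p).divisors.card : ℝ) else 0)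
          (fun i _ => by
            show (0 : ℝ) ≤ if i ∣ n then 2 * ((n / i).divisors.card : ℝ) else 0
            split_ifs
            · positivity
            · exact le_refl _) hpS
      rw [if_pos hpn] at h2
      refine le_trans ?_ h2
      refine (rr_nonneg χ h n).2.trans ?_
      obtain ⟨m, rfl⟩ := hpn
      rw [Nat.mul_div_cancel_left _ hp.pos]
      have h3 : (p * m).divisors.card ≤ 2 * m.divisors.card := by
        rw [Nat.divisors_mul]
        refine Finset.card_mul_le.trans ?_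
        rw [hp.divisors, Finset.card_pair hp.one_lt.ne]
      exact_mod_cast h3
    refine (Finset.sum_le_sum h1).trans ?_
    rw [Finset.sum_comm, Finset.mul_sum]
    refine Finset.sum_le_sum fun p hp => ?_
    rw [hSset, Finset.mem_filter, Finset.mem_Icc] at hp
    obtain ⟨⟨hp1, hpx⟩, hpp, _, _⟩ := hp
    have h2 : ∑ n ∈ A, (if p ∣ n then 2 * ((n / p).divisors.card : ℝ) else 0) ≤
        ∑ m ∈ Icc 1 (x / p), 2 * (m.divisors.card : ℝ) := by
      rw [← Finset.sum_filter]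
      have h3 : ∑ n ∈ A.filter (p ∣ ·), 2 * ((n / p).divisors.card : ℝ) =
          ∑ m ∈ (A.filter (p ∣ ·)).image (· / p), 2 * (m.divisors.card : ℝ) := by
        rw [Finset.sum_image]
        intro a ha b hb hab
        have ha' := (Finset.mem_filter.mp ha).2
        have hb' := (Finset.mem_filter.mp hb).2
        calc a = p * (a / p) := (Nat.mul_div_cancel' ha').symm
          _ = p * (b / p) := by rw [show a / p = b / p from hab]
          _ = b := Nat.mul_div_cancel' hb'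
      rw [h3]
      refine Finset.sum_le_sum_of_subset_of_nonneg ?_ fun i _ _ => by positivity
      intro m hm
      obtain ⟨n, hn, rfl⟩ := Finset.mem_image.mp hm
      rw [Finset.mem_filter, hA, Finset.mem_filter, Finset.mem_Icc] at hn
      rw [Finset.mem_Icc]
      refine ⟨?_, Nat.div_le_div_right hn.1.1.2⟩
      exact Nat.div_pos (Nat.le_of_dvd (by omega) hn.2) hpp.pos
    refine h2.trans ?_
    rw [← Finset.mul_sum]
    have h4 := sum_tau (x / p) x (Nat.div_le_self x p)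
    have h5 : ((x / p : ℕ) : ℝ) ≤ x / p := Nat.cast_div_le
    have h6 : (0 : ℝ) ≤ x / p := by positivity
    calc 2 * ∑ m ∈ Icc 1 (x / p), (m.divisors.card : ℝ) ≤ 2 * ((x / p : ℕ) * (1 + Real.log x)) := by
          linarith
      _ ≤ 2 * ((x / p : ℝ) * (1 + Real.log x)) := by
          have : ((x / p : ℕ) : ℝ) * (1 + Real.log x) ≤ (x / p : ℝ) * (1 + Real.log x) :=
            mul_le_mul_of_nonneg_right h5 (by linarith)
          linarith
      _ ≤ 4 * x * (1 + Real.log x) * (1 / p) := by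
          have e : 4 * (x : ℝ) * (1 + Real.log x) * (1 / p) = 4 * ((x / p : ℝ) * (1 + Real.log x)) := by
            ring
          rw [e]
          have : 0 ≤ (x / p : ℝ) * (1 + Real.log x) := mul_nonneg h6 (by linarith)
          linarith
  -- case B
  have hcaseB : ∑ n ∈ (Icc 1 x).filter
      (fun n => ¬ ∃ p, p.Prime ∧ p ∣ n ∧ ¬ p ∣ N ∧ χ (p : ZMod q) = 1), rr χ n ≤
      (N : ℝ) ^ δ * Real.sqrt x := by
    set U := (Icc 1 x).filter (fun u => u ∈ Nat.factoredNumbers N.primeFactors) with hU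
    -- pairs (d, e) and s
    set T : Finset ((ℕ × ℕ) × ℕ) := ((U ×ˢ U) ×ˢ Icc 1 x).filter
      (fun t => t.1.1 * t.1.2 * t.2 ^ 2 ≤ x) with hT
    have h1 : ∀ n ∈ (Icc 1 x).filter
        (fun n => ¬ ∃ p, p.Prime ∧ p ∣ n ∧ ¬ p ∣ N ∧ χ (p : ZMod q) = 1),
        rr χ n ≤ ((T.filter fun t => t.1.1 * t.1.2 * t.2 ^ 2 = n).card : ℝ) := by
      intro n hn
      rw [Finset.mem_filter, Finset.mem_Icc] at hn
      obtain ⟨⟨hn1, hnx⟩, hno⟩ := hn
      by_cases hr : rr χ n = 0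
      · rw [hr]; positivity
      have hB : ∀ p, p.Prime → p ∣ n → ¬ p ∣ N → χ (p : ZMod q) ≠ 1 := by
        intro p hp hpn hpN hχ
        exact hno ⟨p, hp, hpn, hpN, hχ⟩
      obtain ⟨u, s, hnus, hu, hs0, hle⟩ := rr_caseB χ h N hN0 hq n (by omega) hB hr
      refine hle.trans ?_
      have hu0 : u ≠ 0 := Nat.ne_zero_of_mem_factoredNumbers hu
      have hspos : 1 ≤ s ^ 2 := Nat.one_le_pow _ _ (Nat.pos_of_ne_zero hs0)
      have hux : u ≤ x := by
        calc u = u * 1 := (mul_one u).symm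
          _ ≤ u * s ^ 2 := Nat.mul_le_mul_left u hspos
          _ = n := hnus.symm
          _ ≤ x := hnx
      have hsx : s ≤ x := by
        calc s ≤ s ^ 2 := Nat.le_self_pow (by norm_num) s
          _ = 1 * s ^ 2 := (one_mul _).symm
          _ ≤ u * s ^ 2 := Nat.mul_le_mul_right _ (Nat.pos_of_ne_zero hu0)
          _ = n := hnus.symm
          _ ≤ x := hnx
      have h2 : u.divisors.card ≤ (T.filter fun t => t.1.1 * t.1.2 * t.2 ^ 2 = n).card := by
        refine Finset.card_le_card_of_injOn (fun d => ((d, u / d), s)) ?_ ?_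
        · intro d hd
          have hd' : d ∣ u := Nat.dvd_of_mem_divisors (by simpa using hd)
          have hmul : d * (u / d) = u := Nat.mul_div_cancel' hd'
          have hdpos : 0 < d := Nat.pos_of_dvd_of_pos hd' (Nat.pos_of_ne_zero hu0)
          have hdu : d ≤ u := Nat.le_of_dvd (Nat.pos_of_ne_zero hu0) hd'
          have hq2 : u / d ∣ u := ⟨d, by rw [mul_comm]; exact hmul.symm⟩
          have hqpos : 0 < u / d := Nat.div_pos hdu hdpos
          have hqu : u / d ≤ u := Nat.div_le_self u d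
          simp only [Finset.coe_filter, Set.mem_ofPred_eq, hT, Finset.mem_filter,
            Finset.mem_product, hU, Finset.mem_Icc]
          refine ⟨⟨⟨⟨⟨⟨hdpos, by omega⟩, Nat.mem_factoredNumbers_of_dvd hu hd'⟩,
            ⟨hqpos, by omega⟩, Nat.mem_factoredNumbers_of_dvd hu hq2⟩,
            Nat.pos_of_ne_zero hs0, hsx⟩, ?_⟩, ?_⟩
          · rw [hmul, ← hnus]; exact hnx
          · rw [hmul, ← hnus]
        · intro d _ d' _ hdd
          exact congrArg (fun z => z.1.1) hdd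
      exact_mod_cast h2
    refine (Finset.sum_le_sum h1).trans ?_
    have h2 : ∑ n ∈ (Icc 1 x).filter
        (fun n => ¬ ∃ p, p.Prime ∧ p ∣ n ∧ ¬ p ∣ N ∧ χ (p : ZMod q) = 1),
        ((T.filter fun t => t.1.1 * t.1.2 * t.2 ^ 2 = n).card : ℝ) ≤ (T.card : ℝ) := by
      rw [← Nat.cast_sum]
      refine Nat.cast_le.mpr ?_
      rw [← Finset.card_biUnion]
      · refine Finset.card_le_card ?_
        intro t ht
        obtain ⟨n, _, hn⟩ := Finset.mem_biUnion.mp ht
        exact (Finset.mem_filter.mp hn).1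
      · intro a _ b _ hab
        refine Finset.disjoint_left.mpr fun t ht ht' => hab ?_
        rw [← (Finset.mem_filter.mp ht).2, ← (Finset.mem_filter.mp ht').2]
    refine h2.trans ?_
    -- count T
    have h3 : (T.card : ℝ) ≤ ∑ de ∈ U ×ˢ U, Real.sqrt x * (fh de.1 * fh de.2) := by
      have h4 : (T.card : ℝ) = ∑ de ∈ U ×ˢ U,
          (((Icc 1 x).filter fun s => de.1 * de.2 * s ^ 2 ≤ x).card : ℝ) := by
        have h5 : T.card = ∑ de ∈ U ×ˢ U,
            ((Icc 1 x).filter fun s => de.1 * de.2 * s ^ 2 ≤ x).card := by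
          rw [hT, Finset.card_filter, Finset.sum_product]
          refine Finset.sum_congr rfl fun de _ => ?_
          rw [Finset.card_filter]
        rw [h5, Nat.cast_sum]
      rw [h4]
      refine Finset.sum_le_sum fun de hde => ?_
      rw [Finset.mem_product, hU, Finset.mem_filter, Finset.mem_filter, Finset.mem_Icc,
        Finset.mem_Icc] at hde
      obtain ⟨⟨⟨hd1, _⟩, _⟩, ⟨he1, _⟩, _⟩ := hde
      have hd0 : (0 : ℝ) < (de.1 : ℝ) := by exact_mod_cast hd1
      have he0 : (0 : ℝ) < (de.2 : ℝ) := by exact_mod_cast he1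
      set B := Real.sqrt x * (fh de.1 * fh de.2) with hBdef
      have hB0 : 0 ≤ B := mul_nonneg (Real.sqrt_nonneg _) (mul_nonneg (fh_nonneg _) (fh_nonneg _))
      have h6 : ((Icc 1 x).filter fun s => de.1 * de.2 * s ^ 2 ≤ x) ⊆ Icc 1 ⌊B⌋₊ := by
        intro s hs
        rw [Finset.mem_filter, Finset.mem_Icc] at hs
        obtain ⟨⟨hs1, _⟩, hs2⟩ := hs
        rw [Finset.mem_Icc]
        refine ⟨hs1, Nat.le_floor ?_⟩
        have hs3 : ((de.1 : ℝ) * de.2) * (s : ℝ) ^ 2 ≤ x := by exact_mod_cast hs2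
        have h7 : (s : ℝ) * (Real.sqrt de.1 * Real.sqrt de.2) ≤ Real.sqrt x := by
          rw [← Real.sqrt_mul (Nat.cast_nonneg _)]
          refine Real.le_sqrt_of_sq_le ?_
          rw [mul_pow, Real.sq_sqrt (by positivity)]
          linarith
        rw [hBdef, fh_apply, fh_apply, ← mul_inv, ← div_eq_mul_inv, le_div_iff₀]
        · exact h7
        · exact mul_pos (Real.sqrt_pos.mpr hd0) (Real.sqrt_pos.mpr he0)
      calc (((Icc 1 x).filter fun s => de.1 * de.2 * s ^ 2 ≤ x).card : ℝ)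
          ≤ ((Icc 1 ⌊B⌋₊).card : ℝ) := by exact_mod_cast Finset.card_le_card h6
        _ = (⌊B⌋₊ : ℝ) := by rw [Nat.card_Icc]; simp
        _ ≤ B := Nat.floor_le hB0
    refine h3.trans ?_
    rw [← Finset.mul_sum, Finset.sum_product]
    have h4 : ∑ a ∈ U, ∑ b ∈ U, fh a * fh b = (∑ a ∈ U, fh a) * ∑ b ∈ U, fh b := by
      rw [Finset.sum_mul_sum]
    have h4' : ∑ a ∈ U, ∑ b ∈ U, fh ((a, b) : ℕ × ℕ).1 * fh ((a, b) : ℕ × ℕ).2 =
        (∑ a ∈ U, fh a) * ∑ b ∈ U, fh b := h4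
    rw [h4']
    have h5 : ∑ a ∈ U, fh a ≤ (4 : ℝ) ^ N.primeFactors.card :=
      sum_fh N U fun u hu => (Finset.mem_filter.mp hu).2
    have h6 : 0 ≤ ∑ a ∈ U, fh a := Finset.sum_nonneg fun i _ => fh_nonneg i
    have h7 : (∑ a ∈ U, fh a) * ∑ b ∈ U, fh b ≤ (N : ℝ) ^ δ := by
      have hN0' : (0 : ℝ) ≤ (N : ℝ) := Nat.cast_nonneg N
      calc (∑ a ∈ U, fh a) * ∑ b ∈ U, fh b
          ≤ (4 : ℝ) ^ N.primeFactors.card * (4 : ℝ) ^ N.primeFactors.card :=
            mul_le_mul h5 h5 h6 (by positivity)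
        _ = ((2 : ℝ) ^ N.primeFactors.card) ^ 4 := by
            rw [← pow_mul, ← mul_pow, show (4 : ℝ) * 4 = 2 ^ 4 by norm_num, ← pow_mul, mul_comm]
        _ ≤ ((N : ℝ) ^ (δ / 4)) ^ 4 := pow_le_pow_left₀ (by positivity) hom 4
        _ = (N : ℝ) ^ δ := by
            rw [← Real.rpow_natCast ((N : ℝ) ^ (δ / 4)) 4, ← Real.rpow_mul hN0']
            norm_num
    rw [mul_comm]
    exact mul_le_mul_of_nonneg_right h7 (Real.sqrt_nonneg _)
  rw [hsplit]
  linarith

end Pool.Agent.GLI
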