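import Pool.Agent.GLI.LBound

set_option autoImplicit false

/-!
# Squad GLI: theta functions of `χ` and of `r = 1 * χ` (definitions)
-/

open Finset Filter MeasureTheory

namespace Pool.Agent.GLI

/-- `∑_{d ≥ 1} χ(d) exp(-π d² t/q)`. -/
noncomputable def thE {q : ℕ} (χ : DirichletCharacter ℂ q) (t : ℝ) : ℝ :=
  ∑' d : ℕ, (χ (d : ZMod q)).re * Real.exp (-Real.pi * d ^ 2 * t / q)

/-- `∑_{d ≥ 1} d χ(d) exp(-π d² t/q)`. -/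
noncomputable def thO {q : ℕ} (χ : DirichletCharacter ℂ q) (t : ℝ) : ℝ :=
  ∑' d : ℕ, (d : ℝ) * (χ (d : ZMod q)).re * Real.exp (-Real.pi * d ^ 2 * t / q)

/-- `∑_{m ≥ 1} exp(-π m² t)`. -/
noncomputable def om (t : ℝ) : ℝ := ∑' m : ℕ, Real.exp (-Real.pi * (m + 1) ^ 2 * t)

/-- The Bessel kernel `∫_0^∞ exp(-π (v² + x²/v²)) dv/v`. -/
noncomputable def KE (x : ℝ) : ℝ :=
  ∫ v in Set.Ioi (0 : ℝ), Real.exp (-Real.pi * (v ^ 2 + x ^ 2 / v ^ 2)) / v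

/-- `∑ r(n) K(n u/√q)` for even `χ`. -/
noncomputable def EE {q : ℕ} (χ : DirichletCharacter ℂ q) (u : ℝ) : ℝ :=
  ∑' n : ℕ, rr χ n * KE (n * u / Real.sqrt q)

/-- `∑ r(n) exp(-2π n u/√q)` for odd `χ`. -/
noncomputable def EO {q : ℕ} (χ : DirichletCharacter ℂ q) (u : ℝ) : ℝ :=
  ∑' n : ℕ, rr χ n * Real.exp (-2 * Real.pi * (n * u / Real.sqrt q))

end Pool.Agent.GLI
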