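import Pool.Agent.GLI.ThDefs

set_option autoImplicit false

/-!
Auxiliary lemmas for ThE and ThO: change of variables `v → u/v`, integrability of series, rearrangement of
divisor sums.
-/

open Finset Filter MeasureTheory

namespace Pool.Agent.GLI

/-- a series of integrable functions with summable norms is integrable -/
theorem th_integrable_tsum {α ι : Type*} [MeasurableSpace α] {μ : Measure α} [Countable ι] {F : ι → α → ℝ}
    (hF_int : ∀ i, Integrable (F i) μ) (hF_sum : Summable fun i => ∫ a, ‖F i a‖ ∂μ) :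
    Integrable (fun a => ∑' i, F i a) μ := by
  have hf'' : ∀ i, AEMeasurable (fun a => ‖F i a‖ₑ) μ := fun i => (hF_int i).1.enorm
  have h0 : ∀ i, ∫⁻ a, ‖F i a‖ₑ ∂μ = ‖∫ a, ‖F i a‖ ∂μ‖ₑ := by
    intro i
    rw [← ofReal_integral_norm_eq_lintegral_enorm (hF_int i), Real.enorm_eq_ofReal_abs,
      abs_of_nonneg (integral_nonneg fun a => norm_nonneg _)]
  have h1 : ∑' i, ∫⁻ a, ‖F i a‖ₑ ∂μ ≠ ⊤ := by
    rw [funext h0]
    exact ENNReal.tsum_coe_ne_top_iff_summable.2 <| NNReal.summable_coe.1 hF_sum.abs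
  have h2 : ∫⁻ a, ∑' i, ‖F i a‖ₑ ∂μ ≠ ⊤ := by rwa [lintegral_tsum hf'']
  have hhh : ∀ᵐ a : α ∂μ, Summable fun n => ‖F n a‖ := by
    refine (ae_lt_top' (AEMeasurable.tsum hf'') h2).mono ?_
    intro x hx
    have : Summable fun n => (‖F n x‖₊ : ℝ) := by
      rw [← ENNReal.tsum_coe_ne_top_iff_summable_coe]
      exact hx.ne
    exact this
  refine ⟨?_, ?_⟩
  · refine aestronglyMeasurable_of_tendsto_ae (u := (atTop : Filter (Finset ι)))
      (f := fun s a => ∑ i ∈ s, F i a) (fun s => ?_) ?_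
    · exact s.aestronglyMeasurable_fun_sum fun n _ => (hF_int n).1
    · filter_upwards [hhh] with a ha
      exact ha.of_norm.hasSum
  · refine lt_of_le_of_lt (lintegral_mono_ae ?_) (lt_top_iff_ne_top.2 h2)
    filter_upwards [hhh] with a ha
    exact enorm_tsum_le_tsum_enorm

/-- `v ↦ u/v` -/
theorem th_integral_comp_div (g : ℝ → ℝ) {u : ℝ} (hu : 0 < u) :
    ∫ v in Set.Ioi (0 : ℝ), g (u / v) / v ^ 2 = u⁻¹ * ∫ s in Set.Ioi (0 : ℝ), g s := by
  have h1 := integral_comp_rpow_Ioi (fun y => g (u * y)) (p := -1) (by norm_num)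
  have h2 := integral_comp_mul_left_Ioi g 0 hu
  rw [mul_zero] at h2
  rw [smul_eq_mul] at h2
  rw [← h2, ← h1]
  refine setIntegral_congr_fun measurableSet_Ioi fun v (hv : 0 < v) => ?_
  simp only [abs_neg, abs_one, one_mul, smul_eq_mul]
  rw [Real.rpow_neg_one, show ((-1 : ℝ) - 1) = ((-2 : ℤ) : ℝ) by norm_num, Real.rpow_intCast]
  rw [div_eq_mul_inv u v, div_eq_mul_inv (g _), mul_comm]
  congr 1

theorem th_integrable_comp_div (g : ℝ → ℝ) {u : ℝ} (hu : 0 < u) :
    IntegrableOn (fun v => g (u / v) / v ^ 2) (Set.Ioi 0) ↔ IntegrableOn g (Set.Ioi 0) := by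
  have h1 := integrableOn_Ioi_comp_rpow_iff (fun y => g (u * y)) (p := -1) (by norm_num)
  have h2 := integrableOn_Ioi_comp_mul_left_iff g 0 hu
  rw [mul_zero] at h2
  rw [← h2, ← h1]
  refine integrableOn_congr_fun (fun v (hv : 0 < v) => ?_) measurableSet_Ioi
  simp only [abs_neg, abs_one, one_mul, smul_eq_mul]
  rw [Real.rpow_neg_one, show ((-1 : ℝ) - 1) = ((-2 : ℤ) : ℝ) by norm_num, Real.rpow_intCast]
  rw [div_eq_mul_inv u v, div_eq_mul_inv (g _), mul_comm]
  congr 1

/-- rearrangement of a divisor sum -/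
theorem th_tsum_divisors (a K : ℕ → ℝ) (ha : a 0 = 0)
    (hs : Summable fun p : ℕ × ℕ => a p.2 * K ((p.1 + 1) * p.2)) :
    Summable (fun n : ℕ => (∑ d ∈ n.divisors, a d) * K n) ∧
    ∑' n : ℕ, (∑ d ∈ n.divisors, a d) * K n = ∑' p : ℕ × ℕ, a p.2 * K ((p.1 + 1) * p.2) := by
  classical
  have h1 := hs.hasSum.tsum_fiberwise (fun p : ℕ × ℕ => (p.1 + 1) * p.2)
  have h2 : ∀ n : ℕ, ∑' b : ((fun p : ℕ × ℕ => (p.1 + 1) * p.2) ⁻¹' {n} : Set (ℕ × ℕ)),
      a b.1.2 * K ((b.1.1 + 1) * b.1.2) = (∑ d ∈ n.divisors, a d) * K n := by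
    intro n
    rcases Nat.eq_zero_or_pos n with rfl | hn
    · simp only [Nat.divisors_zero, sum_empty, zero_mul]
      rw [← tsum_zero (α := ℝ) (β := ((fun p : ℕ × ℕ => (p.1 + 1) * p.2) ⁻¹' {0} : Set (ℕ × ℕ)))]
      refine tsum_congr fun b => ?_
      have hb : (b.1.1 + 1) * b.1.2 = 0 := b.2
      have : b.1.2 = 0 := by
        rcases Nat.mul_eq_zero.1 hb with h | h
        · omega
        · exact h
      rw [this, ha, zero_mul]
    · have h3 : ((fun p : ℕ × ℕ => (p.1 + 1) * p.2) ⁻¹' {n} : Set (ℕ × ℕ)) =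
          ((n.divisors.image fun d => (n / d - 1, d) : Finset (ℕ × ℕ)) : Set (ℕ × ℕ)) := by
        ext ⟨m, d⟩
        simp only [Set.mem_preimage, Set.mem_singleton_iff, coe_image, Set.mem_image, mem_coe,
          Nat.mem_divisors, Prod.mk.injEq]
        constructor
        · intro h
          have hd : 0 < d := by
            rcases Nat.eq_zero_or_pos d with rfl | h'
            · omega
            · exact h'
          refine ⟨d, ⟨⟨m + 1, by rw [← h, mul_comm]⟩, by omega⟩, ?_, rfl⟩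
          rw [← h, Nat.mul_div_cancel _ hd]
          omega
        · rintro ⟨d', ⟨h, -⟩, h5, rfl⟩
          have hd : 0 < d' := Nat.pos_of_dvd_of_pos h hn
          have h6 : 0 < n / d' := Nat.div_pos (Nat.le_of_dvd hn h) hd
          have : m + 1 = n / d' := by omega
          rw [this, Nat.div_mul_cancel h]
      rw [h3, Finset.tsum_subtype' (n.divisors.image fun d => (n / d - 1, d))
        (fun b : ℕ × ℕ => a b.2 * K ((b.1 + 1) * b.2)), Finset.sum_image, Finset.sum_mul]
      · refine Finset.sum_congr rfl fun d hd => ?_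
        have h := Nat.dvd_of_mem_divisors hd
        have hd : 0 < d := Nat.pos_of_dvd_of_pos h hn
        have h6 : 0 < n / d := Nat.div_pos (Nat.le_of_dvd hn h) hd
        have : n / d - 1 + 1 = n / d := by omega
        simp only [this, Nat.div_mul_cancel h]
      · intro x _ y _ h
        exact (Prod.mk.inj h).2
  rw [funext h2] at h1
  exact ⟨h1.summable, h1.tsum_eq⟩

/-- the double geometric series -/
theorem th_summable_exp (c : ℝ) (hc : 0 < c) :
    Summable fun p : ℕ × ℕ => if p.2 = 0 then (0 : ℝ) else Real.exp (-c * ((p.1 + 1) * p.2 : ℕ)) := by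
  have hg : Summable fun n : ℕ => Real.exp (-c * n) := by
    have := Real.summable_exp_nat_mul_iff.2 (show -c < 0 by linarith)
    refine this.congr fun n => ?_
    rw [mul_comm]
  have h1 : Summable fun p : ℕ × ℕ => Real.exp (-c * p.1) * Real.exp (-c * p.2) :=
    hg.mul_of_nonneg hg (fun n => (Real.exp_pos _).le) (fun n => (Real.exp_pos _).le)
  refine Summable.of_nonneg_of_le (fun p => ?_) (fun p => ?_) h1
  · split_ifs
    · exact le_rfl
    · exact (Real.exp_pos _).le
  · split_ifs with h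
    · positivity
    · rw [← Real.exp_add]
      apply Real.exp_le_exp.2
      have h2 : (1 : ℝ) ≤ p.2 := by exact_mod_cast Nat.pos_of_ne_zero h
      have h3 : (0 : ℝ) ≤ p.1 := Nat.cast_nonneg _
      push_cast
      nlinarith [mul_nonneg h3 (sub_nonneg.2 h2), mul_nonneg hc.le (mul_nonneg h3 (sub_nonneg.2 h2))]

end Pool.Agent.GLI
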