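import Pool.Agent.GLI.ThInt
import Pool.Agent.GLI.ThKer
import Pool.Agent.GLI.ThEAux

set_option autoImplicit false

/-!
Module ThE. `EE χ u = ∑_{m,d ≥ 1} χ(d) KE(m d u/√q) = ∫_0^∞ om(v²) thE χ (u²/v²) dv/v` (KE_scale with `a = d u/√q`;
Fubini: `∑_{m,d} KE(m d u/√q) < ∞` by KE_le). `EE χ (1/u) = ∫ om(v²) thE χ (1/(u v)²) dv/v
= w u ∫ om(v²) v thE χ (u² v²) dv/v = [v → 1/v] w u ∫ om(1/v²) v^{-1} thE χ (u²/v²) dv/v`, om_fe:
`= w u EE χ u + (w u/2) ∫ (1 - 1/v) thE χ (u²/v²) dv/v`; `s = u/v`: `∫ thE χ (u²/v²) dv/v = ∫ thE χ (s²) ds/s = w √q L1/2`,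
`∫ thE χ (u²/v²) dv/v² = (1/u) ∫ thE χ (s²) ds = √q L1/(2u)`. So `EE χ (1/u) = w u EE χ u + (√q L1/4)(u - w)`; replace `u` by `1/u`.
-/

open Finset Filter MeasureTheory

namespace Pool.Agent.GLI

theorem KE_scale_integrable (m a : ℝ) (hm : 0 < m) (ha : 0 < a) :
    IntegrableOn (fun v : ℝ =>
      Real.exp (-Real.pi * m ^ 2 * v ^ 2) * Real.exp (-Real.pi * a ^ 2 / v ^ 2) / v) (Set.Ioi 0) := by
  have h1 := KE_integrable (m * a) (mul_pos hm ha)
  have h2 := integrableOn_Ioi_comp_mul_left_iff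
    (fun v : ℝ => Real.exp (-Real.pi * (v ^ 2 + (m * a) ^ 2 / v ^ 2)) / v) 0 hm
  rw [mul_zero] at h2
  have h3 : IntegrableOn (fun v : ℝ => m * (Real.exp (-Real.pi * ((m * v) ^ 2 + (m * a) ^ 2 / (m * v) ^ 2)) / (m * v)))
      (Set.Ioi 0) := (h2.2 h1).const_mul m
  refine h3.congr_fun (fun v (hv : 0 < v) => ?_) measurableSet_Ioi
  simp only
  rw [← Real.exp_add]
  have : -Real.pi * ((m * v) ^ 2 + (m * a) ^ 2 / (m * v) ^ 2) =
      -Real.pi * m ^ 2 * v ^ 2 + -Real.pi * a ^ 2 / v ^ 2 := by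
    field_simp
    ring
  rw [this]
  field_simp

theorem th_char_zero {q : ℕ} (χ : DirichletCharacter ℂ q) (hχ : χ ≠ 1) : χ 0 = 0 := by
  apply χ.map_nonunit
  intro h
  apply hχ
  have h01 : (0 : ZMod q) = 1 := isUnit_zero_iff.1 h
  have := subsingleton_of_zero_eq_one h01
  refine MulChar.ext fun a => ?_
  rw [Subsingleton.elim a 1]
  simp

theorem th_char_re_le {q : ℕ} (χ : DirichletCharacter ℂ q) (a : ZMod q) : |(χ a).re| ≤ 1 :=
  (Complex.abs_re_le_norm _).trans (χ.norm_le_one a)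

theorem KE_le_exp (c : ℝ) (hc : 0 < c) (x : ℝ) (hx : c ≤ x) : KE x ≤ (3 + 1 / c) * Real.exp (-x) := by
  have hx0 : 0 < x := lt_of_lt_of_le hc hx
  have h1 := KE_le x hx0
  have h2 : |Real.log x| ≤ x + 1 / c := by
    rw [abs_le]
    constructor
    · have h3 := Real.one_sub_inv_le_log_of_pos hx0
      have h4 : x⁻¹ ≤ 1 / c := by
        rw [one_div]
        exact inv_anti₀ hc hx
      linarith
    · have h3 := Real.log_le_sub_one_of_pos hx0
      have : 0 < 1 / c := by positivity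
      linarith
  have h3 : Real.exp (-Real.pi * x) ≤ Real.exp (-x) * Real.exp (-x) := by
    rw [← Real.exp_add]
    apply Real.exp_le_exp.2
    nlinarith [Real.pi_gt_three]
  have h4 : Real.exp (-x) * x ≤ 1 := by
    have h5 : x ≤ Real.exp x := by linarith [Real.add_one_le_exp x]
    have h6 : Real.exp (-x) * Real.exp x = 1 := by rw [← Real.exp_add]; simp
    rw [← h6]
    exact mul_le_mul_of_nonneg_left h5 (Real.exp_pos _).le
  have h5 : Real.exp (-x) ≤ 1 := Real.exp_le_one_iff.2 (by linarith)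
  have h6 : 0 < 1 / c := by positivity
  calc KE x ≤ Real.exp (-Real.pi * x) * (2 + |Real.log x|) := h1
    _ ≤ (Real.exp (-x) * Real.exp (-x)) * (2 + (x + 1 / c)) := by
        apply mul_le_mul h3 (by linarith) (by positivity) (by positivity)
    _ = (Real.exp (-x) * (2 + 1 / c) + Real.exp (-x) * x) * Real.exp (-x) := by ring
    _ ≤ (1 * (2 + 1 / c) + 1) * Real.exp (-x) := by
        apply mul_le_mul_of_nonneg_right _ (Real.exp_pos _).le
        have := mul_le_mul_of_nonneg_right h5 (show (0 : ℝ) ≤ 2 + 1 / c by positivity)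
        linarith
    _ = (3 + 1 / c) * Real.exp (-x) := by ring

/-- the terms of the double series -/
noncomputable def thF {q : ℕ} (χ : DirichletCharacter ℂ q) (c : ℝ) (p : ℕ × ℕ) (v : ℝ) : ℝ :=
  (χ (p.2 : ZMod q)).re * (Real.exp (-Real.pi * ((p.1 : ℝ) + 1) ^ 2 * v ^ 2) *
    Real.exp (-Real.pi * (p.2 * c) ^ 2 / v ^ 2) / v)

theorem thF_zero {q : ℕ} (χ : DirichletCharacter ℂ q) (hχ : χ ≠ 1) (c : ℝ) (m : ℕ) (v : ℝ) :
    thF χ c (m, 0) v = 0 := by
  simp [thF, th_char_zero χ hχ]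

theorem thF_integrable {q : ℕ} (χ : DirichletCharacter ℂ q) (hχ : χ ≠ 1) (c : ℝ) (hc : 0 < c) (p : ℕ × ℕ) :
    IntegrableOn (thF χ c p) (Set.Ioi 0) := by
  rcases Nat.eq_zero_or_pos p.2 with h | h
  · have : thF χ c p = fun _ => 0 := by
      funext v
      rw [← thF_zero χ hχ c p.1 v, ← h]
    rw [this]
    exact integrableOn_zero
  · have h1 : (0 : ℝ) < p.2 := by exact_mod_cast h
    exact (KE_scale_integrable ((p.1 : ℝ) + 1) (p.2 * c) (by positivity) (by positivity)).const_mul _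

theorem thF_integral {q : ℕ} (χ : DirichletCharacter ℂ q) (hχ : χ ≠ 1) (c : ℝ) (hc : 0 < c) (p : ℕ × ℕ) :
    ∫ v in Set.Ioi (0 : ℝ), thF χ c p v = (χ (p.2 : ZMod q)).re * KE (((p.1 + 1) * p.2 : ℕ) * c) := by
  rcases Nat.eq_zero_or_pos p.2 with h | h
  · have h1 : (χ (p.2 : ZMod q)).re = 0 := by rw [h]; simp [th_char_zero χ hχ]
    rw [h1, zero_mul]
    refine integral_eq_zero_of_ae (Eventually.of_forall fun v => ?_)
    simp only [thF, h1, zero_mul, Pi.zero_apply]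
  · have h1 : (0 : ℝ) < p.2 := by exact_mod_cast h
    have h2 := KE_scale ((p.1 : ℝ) + 1) (p.2 * c) (by positivity) (by positivity)
    have h3 : (((p.1 + 1) * p.2 : ℕ) : ℝ) * c = ((p.1 : ℝ) + 1) * (p.2 * c) := by push_cast; ring
    rw [h3, h2, ← integral_const_mul]
    rfl

theorem thF_integral_norm {q : ℕ} (χ : DirichletCharacter ℂ q) (hχ : χ ≠ 1) (c : ℝ) (hc : 0 < c) (p : ℕ × ℕ) :
    ∫ v in Set.Ioi (0 : ℝ), ‖thF χ c p v‖ = |(χ (p.2 : ZMod q)).re| * KE (((p.1 + 1) * p.2 : ℕ) * c) := by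
  rcases Nat.eq_zero_or_pos p.2 with h | h
  · have h1 : (χ (p.2 : ZMod q)).re = 0 := by rw [h]; simp [th_char_zero χ hχ]
    rw [h1, abs_zero, zero_mul]
    refine integral_eq_zero_of_ae (Eventually.of_forall fun v => ?_)
    simp only [thF, h1, zero_mul, norm_zero, Pi.zero_apply]
  · have h1 : (0 : ℝ) < p.2 := by exact_mod_cast h
    have h2 := KE_scale ((p.1 : ℝ) + 1) (p.2 * c) (by positivity) (by positivity)
    have h3 : (((p.1 + 1) * p.2 : ℕ) : ℝ) * c = ((p.1 : ℝ) + 1) * (p.2 * c) := by push_cast; ring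
    rw [h3, h2, ← integral_const_mul]
    refine setIntegral_congr_fun measurableSet_Ioi fun v (hv : 0 < v) => ?_
    simp only [thF, Real.norm_eq_abs]
    rw [abs_mul, abs_of_nonneg (a := Real.exp _ * _ / v) (by positivity)]

theorem thF_summable {q : ℕ} (χ : DirichletCharacter ℂ q) (hχ : χ ≠ 1) (c : ℝ) (hc : 0 < c) :
    Summable fun p : ℕ × ℕ => |(χ (p.2 : ZMod q)).re| * KE (((p.1 + 1) * p.2 : ℕ) * c) := by
  refine Summable.of_nonneg_of_le (fun p => mul_nonneg (abs_nonneg _) (KE_nonneg _)) (fun p => ?_)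
    ((th_summable_exp c hc).mul_left (3 + 1 / c))
  rcases Nat.eq_zero_or_pos p.2 with h | h
  · have h1 : (χ (p.2 : ZMod q)).re = 0 := by rw [h]; simp [th_char_zero χ hχ]
    rw [h1, abs_zero, zero_mul, if_pos h, mul_zero]
  · rw [if_neg (by omega)]
    have h1 : (1 : ℝ) ≤ (((p.1 + 1) * p.2 : ℕ) : ℝ) := by
      exact_mod_cast Nat.succ_le_of_lt (Nat.mul_pos (Nat.succ_pos _) h)
    have h2 := KE_le_exp c hc ((((p.1 + 1) * p.2 : ℕ) : ℝ) * c) (by nlinarith)
    have h3 : -((((p.1 + 1) * p.2 : ℕ) : ℝ) * c) = -c * (((p.1 + 1) * p.2 : ℕ) : ℝ) := by ring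
    rw [h3] at h2
    calc _ ≤ 1 * KE ((((p.1 + 1) * p.2 : ℕ) : ℝ) * c) :=
          mul_le_mul_of_nonneg_right (th_char_re_le χ _) (KE_nonneg _)
      _ ≤ _ := by rw [one_mul]; exact h2

theorem om_summable (t : ℝ) (ht : 0 < t) : Summable fun m : ℕ => Real.exp (-Real.pi * (m + 1) ^ 2 * t) := by
  have hg : Summable fun n : ℕ => Real.exp (n * (-t)) := Real.summable_exp_nat_mul_iff.2 (by linarith)
  refine Summable.of_nonneg_of_le (fun m => (Real.exp_pos _).le) (fun m => ?_) hg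
  apply Real.exp_le_exp.2
  have h1 : (0 : ℝ) ≤ m := Nat.cast_nonneg m
  have h2 : (m : ℝ) ≤ Real.pi * (m + 1) ^ 2 := by nlinarith [Real.pi_gt_three]
  nlinarith

theorem thE_summable {q : ℕ} [NeZero q] (χ : DirichletCharacter ℂ q) (t : ℝ) (ht : 0 < t) :
    Summable fun d : ℕ => ‖(χ (d : ZMod q)).re * Real.exp (-Real.pi * d ^ 2 * t / q)‖ := by
  have hq : (0 : ℝ) < q := by exact_mod_cast Nat.pos_of_ne_zero (NeZero.ne q)
  have hg : Summable fun n : ℕ => Real.exp (n * (-(t / q))) :=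
    Real.summable_exp_nat_mul_iff.2 (by have : 0 < t / q := by positivity
                                        linarith)
  refine Summable.of_nonneg_of_le (fun m => norm_nonneg _) (fun d => ?_) hg
  rw [Real.norm_eq_abs, abs_mul, abs_of_pos (Real.exp_pos _)]
  calc _ ≤ 1 * Real.exp (-Real.pi * d ^ 2 * t / q) :=
        mul_le_mul_of_nonneg_right (th_char_re_le χ _) (Real.exp_pos _).le
    _ ≤ _ := by
        rw [one_mul]
        apply Real.exp_le_exp.2
        have h1 : (d : ℝ) ≤ Real.pi * (d : ℝ) ^ 2 := by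
          rcases Nat.eq_zero_or_pos d with rfl | h
          · simp
          · have h2 : (1 : ℝ) ≤ d := by exact_mod_cast h
            nlinarith [Real.pi_gt_three]
        have h3 : 0 < t / q := by positivity
        have h4 : -Real.pi * (d : ℝ) ^ 2 * t / q = -(Real.pi * (d : ℝ) ^ 2) * (t / q) := by ring
        rw [h4]
        nlinarith

/-- the integral formula for `EE` -/
theorem EE_integral (q : ℕ) [NeZero q] (χ : DirichletCharacter ℂ q) (hχ : χ ≠ 1) (u : ℝ) (hu : 0 < u) :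
    IntegrableOn (fun v : ℝ => om (v ^ 2) * thE χ (u ^ 2 / v ^ 2) / v) (Set.Ioi 0) ∧
    EE χ u = ∫ v in Set.Ioi (0 : ℝ), om (v ^ 2) * thE χ (u ^ 2 / v ^ 2) / v := by
  have hq : (0 : ℝ) < q := by exact_mod_cast Nat.pos_of_ne_zero (NeZero.ne q)
  have hc : 0 < u / Real.sqrt q := div_pos hu (Real.sqrt_pos.2 hq)
  set c := u / Real.sqrt q with hcdef
  have hc2 : c ^ 2 = u ^ 2 / q := by rw [hcdef, div_pow, Real.sq_sqrt hq.le]
  have hs := thF_summable χ hχ c hc
  have hpt : ∀ v : ℝ, 0 < v → ∑' p : ℕ × ℕ, thF χ c p v = om (v ^ 2) * thE χ (u ^ 2 / v ^ 2) / v := by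
    intro v hv
    have hv2 : 0 < v ^ 2 := by positivity
    have h1 := (om_summable (v ^ 2) hv2)
    have h2 := thE_summable χ (u ^ 2 / v ^ 2) (by positivity)
    have h3 := tsum_mul_tsum_of_summable_norm (f := fun m : ℕ => Real.exp (-Real.pi * (m + 1) ^ 2 * v ^ 2))
      (g := fun d : ℕ => (χ (d : ZMod q)).re * Real.exp (-Real.pi * d ^ 2 * (u ^ 2 / v ^ 2) / q))
      h1.norm h2
    rw [om, thE, h3, ← tsum_div_const]
    refine tsum_congr fun p => ?_
    rw [thF]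
    have h4 : -Real.pi * (p.2 * c) ^ 2 / v ^ 2 = -Real.pi * p.2 ^ 2 * (u ^ 2 / v ^ 2) / q := by
      rw [mul_pow, hc2]
      field_simp
    rw [h4]
    ring
  have hint : ∀ p, IntegrableOn (thF χ c p) (Set.Ioi 0) := thF_integrable χ hχ c hc
  have hsn : Summable fun p => ∫ v in Set.Ioi (0 : ℝ), ‖thF χ c p v‖ := by
    refine hs.congr fun p => ?_
    rw [thF_integral_norm χ hχ c hc]
  refine ⟨?_, ?_⟩
  · have := th_integrable_tsum hint hsn
    exact IntegrableOn.congr_fun this (fun v hv => hpt v hv) measurableSet_Ioi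
  · have h1 := (th_tsum_divisors (fun d => (χ (d : ZMod q)).re) (fun n => KE (n * c))
      (by simp [th_char_zero χ hχ]) (by
        refine Summable.of_norm (hs.congr fun p => ?_)
        rw [norm_mul, Real.norm_eq_abs, Real.norm_eq_abs, abs_of_nonneg (KE_nonneg _)])).2
    have h2 : EE χ u = ∑' n : ℕ, (∑ d ∈ n.divisors, (χ (d : ZMod q)).re) * KE (n * c) := by
      rw [EE]
      refine tsum_congr fun n => ?_
      rw [rr, hcdef, mul_div_assoc]
    rw [h2, h1, ← setIntegral_congr_fun measurableSet_Ioi (fun v hv => hpt v hv),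
      ← integral_tsum_of_summable_integral_norm hint hsn]
    exact tsum_congr fun p => (thF_integral χ hχ c hc p).symm

theorem EE_fe_aux (q : ℕ) [NeZero q] (χ : DirichletCharacter ℂ q) (hχ : χ ≠ 1)
    (h : RealChar χ) (w : ℝ) (hw : w = 1 ∨ w = -1)
    (hfe : ∀ t : ℝ, 0 < t → thE χ (1 / t) = w * Real.sqrt t * thE χ t) (u : ℝ) (hu : 0 < u) :
    EE χ (1 / u) = w * u * EE χ u + Real.sqrt q * L1 χ / 4 * (u - w) := by
  obtain ⟨I1, I2, J1, J2⟩ := thE_int q χ hχ h w hw hfe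
  obtain ⟨hA, hEu⟩ := EE_integral q χ hχ u hu
  obtain ⟨-, hEu'⟩ := EE_integral q χ hχ (1 / u) (by positivity)
  have hw2 : w * w = 1 := by rcases hw with rfl | rfl <;> norm_num
  -- step 1
  have e1 : EE χ (1 / u) = w * u * ∫ v in Set.Ioi (0 : ℝ), om (v ^ 2) * thE χ ((u * v) ^ 2) := by
    rw [hEu', ← integral_const_mul]
    refine setIntegral_congr_fun measurableSet_Ioi fun v (hv : 0 < v) => ?_
    have h1 : (1 / u) ^ 2 / v ^ 2 = 1 / (u * v) ^ 2 := by field_simp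
    have huv : 0 < u * v := mul_pos hu hv
    rw [h1, hfe _ (by positivity), Real.sqrt_sq huv.le]
    field_simp
  -- step 2
  have e2 : ∫ v in Set.Ioi (0 : ℝ), om (v ^ 2) * thE χ ((u * v) ^ 2) =
      ∫ v in Set.Ioi (0 : ℝ), (om (v ^ 2) * thE χ (u ^ 2 / v ^ 2) / v +
        (u / 2 * (thE χ ((u / v) ^ 2) / (u / v) / v ^ 2) - 1 / 2 * (thE χ ((u / v) ^ 2) / v ^ 2))) := by
    have h1 := th_integral_comp_div (fun v => om (v ^ 2) * thE χ ((u * v) ^ 2)) (u := 1) one_pos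
    rw [inv_one, one_mul] at h1
    rw [← h1]
    refine setIntegral_congr_fun measurableSet_Ioi fun v (hv : 0 < v) => ?_
    have h2 := om_fe (v ^ 2) (by positivity)
    rw [Real.sqrt_sq hv.le] at h2
    have h3 : (1 / v) ^ 2 = 1 / v ^ 2 := by rw [div_pow, one_pow]
    have h4 : (u * (1 / v)) ^ 2 = u ^ 2 / v ^ 2 := by rw [mul_one_div, div_pow]
    rw [h3, h4, h2, div_pow]
    field_simp
  have B1 : IntegrableOn (fun v : ℝ => thE χ ((u / v) ^ 2) / (u / v) / v ^ 2) (Set.Ioi 0) :=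
    (th_integrable_comp_div (fun s => thE χ (s ^ 2) / s) hu).2 I2
  have B2 : IntegrableOn (fun v : ℝ => thE χ ((u / v) ^ 2) / v ^ 2) (Set.Ioi 0) :=
    (th_integrable_comp_div (fun s => thE χ (s ^ 2)) hu).2 I1
  have K1 : ∫ v in Set.Ioi (0 : ℝ), thE χ ((u / v) ^ 2) / (u / v) / v ^ 2 = u⁻¹ * (w * (Real.sqrt q * L1 χ / 2)) := by
    rw [← J2]
    exact th_integral_comp_div (fun s => thE χ (s ^ 2) / s) hu
  have K2 : ∫ v in Set.Ioi (0 : ℝ), thE χ ((u / v) ^ 2) / v ^ 2 = u⁻¹ * (Real.sqrt q * L1 χ / 2) := by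
    rw [← J1]
    exact th_integral_comp_div (fun s => thE χ (s ^ 2)) hu
  have B3 : IntegrableOn (fun v : ℝ => u / 2 * (thE χ ((u / v) ^ 2) / (u / v) / v ^ 2) -
      1 / 2 * (thE χ ((u / v) ^ 2) / v ^ 2)) (Set.Ioi 0) := (B1.const_mul _).sub (B2.const_mul _)
  rw [e1, e2, integral_add hA B3, integral_sub (B1.const_mul _) (B2.const_mul _), integral_const_mul,
    integral_const_mul, K1, K2, ← hEu]
  field_simp
  linear_combination (4 * Real.sqrt q * L1 χ * u) * hw2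

theorem EE_fe (q : ℕ) [NeZero q] (χ : DirichletCharacter ℂ q) (hp : χ.IsPrimitive) (hχ : χ ≠ 1)
    (h : RealChar χ) (he : χ (-1) = 1) : ∃ w : ℝ, (w = 1 ∨ w = -1) ∧ ∀ u : ℝ, 0 < u →
    EE χ u = w / u * EE χ (1 / u) + Real.sqrt q * L1 χ / 4 * (1 / u - w) := by
  obtain ⟨w, hw, hfe⟩ := thE_fe q χ hp hχ h he
  refine ⟨w, hw, fun u hu => ?_⟩
  have h1 := EE_fe_aux q χ hχ h w hw hfe (1 / u) (by positivity)
  rw [one_div_one_div] at h1
  rw [h1]
  ring

end Pool.Agent.GLI
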