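import Pool.Agent.GLI.ThDefs

set_option autoImplicit false

/-!
# Squad GLI: common lemmas for the functional equations of the theta functions of `χ`
-/

open Finset Filter Complex

namespace Pool.Agent.GLI

/-- Splitting a sum over `ℤ` into residue classes. -/
theorem hasSum_residue {q : ℕ} [NeZero q] (χ : DirichletCharacter ℂ q) (F : ℤ → ℂ) (G : ZMod q → ℂ)
    (h : ∀ a : ZMod q, HasSum (fun m : ℤ => F (m * q + a.val)) (G a)) :
    HasSum (fun n : ℤ => χ (n : ZMod q) * F n) (∑ a : ZMod q, χ a * G a) := by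
  classical
  have h1 : ∀ a : ZMod q, HasSum (fun n : ℤ => if (n : ZMod q) = a then χ a * F n else 0)
      (χ a * G a) := by
    intro a
    have hinj : Function.Injective (fun m : ℤ => m * (q : ℤ) + (a.val : ℤ)) := by
      intro m m' hm
      have hq : (q : ℤ) ≠ 0 := by exact_mod_cast NeZero.ne q
      have : m * (q : ℤ) = m' * (q : ℤ) := by simpa using hm
      exact mul_right_cancel₀ hq this
    rw [← hinj.hasSum_iff]
    · refine ((h a).mul_left (χ a)).congr_fun ?_
      intro m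
      have : ((m * (q : ℤ) + (a.val : ℤ) : ℤ) : ZMod q) = a := by
        push_cast
        rw [ZMod.natCast_self, mul_zero, zero_add, ZMod.natCast_val, ZMod.cast_id', id]
      simp only [Function.comp_apply]
      rw [if_pos this]
    · intro n hn
      rw [if_neg]
      intro hna
      apply hn
      have h2 : ((n : ℤ) : ZMod q) = ((a.val : ℤ) : ZMod q) := by
        rw [hna]; simp
      rw [ZMod.intCast_eq_intCast_iff_dvd_sub] at h2
      obtain ⟨k, hk⟩ := h2
      refine ⟨-k, ?_⟩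
      show -k * (q : ℤ) + (a.val : ℤ) = n
      linarith
  have h2 := hasSum_sum (s := Finset.univ) fun a (_ : a ∈ Finset.univ) => h1 a
  refine h2.congr_fun ?_
  intro n
  rw [Finset.sum_ite_eq]
  simp

/-- Gauss sums in a series. -/
theorem hasSum_gauss {q : ℕ} [NeZero q] (χ : DirichletCharacter ℂ q) (hp : χ.IsPrimitive)
    (H : ℤ → ℂ) (K : ZMod q → ℂ)
    (h : ∀ a : ZMod q, HasSum (fun n : ℤ => cexp (2 * Real.pi * I * ((a.val : ℝ) / (q : ℝ) : ℝ) * n) * H n) (K a)) :
    HasSum (fun n : ℤ => χ⁻¹ (n : ZMod q) * gaussSum χ ZMod.stdAddChar * H n) (∑ a : ZMod q, χ a * K a) := by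
  have h2 := hasSum_sum (s := Finset.univ) fun a (_ : a ∈ Finset.univ) => (h a).mul_left (χ a)
  refine h2.congr_fun ?_
  intro n
  rw [← gaussSum_mulShift_of_isPrimitive _ hp, gaussSum, Finset.sum_mul]
  refine Finset.sum_congr rfl fun a _ => ?_
  rw [AddChar.mulShift_apply, ← mul_assoc]
  congr 2
  have h3 : (n : ZMod q) * a = ((n * (a.val : ℤ) : ℤ) : ZMod q) := by
    push_cast
    rw [ZMod.natCast_val, ZMod.cast_id', id]
  rw [h3, ZMod.stdAddChar_coe]
  congr 1
  push_cast
  ring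

theorem realChar_inv {q : ℕ} {χ : DirichletCharacter ℂ q} (h : RealChar χ) (a : ZMod q) :
    χ⁻¹ a = χ a := by
  rw [MulChar.inv_apply_eq_inv']
  rcases h a with h | h | h <;> rw [h] <;> norm_num

theorem realChar_re {q : ℕ} {χ : DirichletCharacter ℂ q} (h : RealChar χ) (a : ZMod q) :
    (((χ a).re : ℝ) : ℂ) = χ a := by
  rcases h a with h | h | h <;> rw [h] <;> simp

theorem realChar_abs {q : ℕ} {χ : DirichletCharacter ℂ q} (h : RealChar χ) (a : ZMod q) :
    |(χ a).re| ≤ 1 := by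
  rcases h a with h | h | h <;> rw [h] <;> simp

theorem char_zero' {q : ℕ} [NeZero q] {χ : DirichletCharacter ℂ q} (hχ : χ ≠ 1) :
    χ (0 : ZMod q) = 0 := by
  apply MulChar.map_nonunit
  intro h0
  apply hχ
  have hs : Subsingleton (ZMod q) := by
    have h1 : (0 : ZMod q) = 1 := by
      rw [isUnit_zero_iff] at h0
      exact h0
    exact subsingleton_of_zero_eq_one h1
  ext a
  have : (a : ZMod q) = 1 := Subsingleton.elim _ _
  rw [this]
  simp

/-- real and complex: solving `x = c y` twice -/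
theorem sign_of_fe (f : ℝ → ℝ) (g : ℝ → ℝ) (c : ℂ) (hg : ∀ t, 0 < t → 0 < g t)
    (hgg : ∀ t, 0 < t → g t * g (1 / t) = 1)
    (hfe : ∀ t, 0 < t → ((f (1 / t) : ℝ) : ℂ) = c * (g t : ℝ) * (f t : ℝ))
    (hne : ∃ t, 0 < t ∧ f t ≠ 0) :
    ∃ w : ℝ, (w = 1 ∨ w = -1) ∧ ∀ t, 0 < t → f (1 / t) = w * g t * f t := by
  obtain ⟨t, ht, hft⟩ := hne
  have h1 := hfe t ht
  have hgt : (g t : ℂ) ≠ 0 := by exact_mod_cast (hg t ht).ne'
  have hftc : (f t : ℂ) ≠ 0 := by exact_mod_cast hft
  have hc : c = ((f (1 / t) / (g t * f t) : ℝ) : ℂ) := by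
    push_cast
    rw [h1]
    field_simp
  set w : ℝ := f (1 / t) / (g t * f t) with hw
  have hfe' : ∀ s, 0 < s → f (1 / s) = w * g s * f s := by
    intro s hs
    have := hfe s hs
    rw [hc] at this
    exact_mod_cast this
  refine ⟨w, ?_, hfe'⟩
  have h2 := hfe' t ht
  have h3 := hfe' (1 / t) (one_div_pos.2 ht)
  rw [one_div_one_div, h2] at h3
  have h4 : f t = w ^ 2 * (g t * g (1 / t)) * f t := by
    calc f t = w * g (1 / t) * (w * g t * f t) := h3
      _ = w ^ 2 * (g t * g (1 / t)) * f t := by ring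
  rw [hgg t ht, mul_one] at h4
  have h5 : (w ^ 2 - 1) * f t = 0 := by linarith
  rcases mul_eq_zero.1 h5 with h6 | h6
  · have h7 : (w - 1) * (w + 1) = 0 := by linarith [h6, (by ring : (w - 1) * (w + 1) = w ^ 2 - 1)]
    rcases mul_eq_zero.1 h7 with h8 | h8
    · left; linarith
    · right; linarith
  · exact absurd h6 hft

end Pool.Agent.GLI
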