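import Pool.Agent.GLI.ThDefs
import Pool.Agent.GLI.ThFEAux

set_option autoImplicit false

/-!
Module ThFEO. `2 thO χ t = q ∑_{a mod q} χ(a) oddKernel (a/q) (q t)` (split `d ∈ ℤ` by residue classes; `χ` odd), Mathlib
`HurwitzZeta.oddKernel_functional_equation`: `oddKernel a x = x^(-3/2) sinKernel a (1/x)`, `sinKernel a x = ∑ -i n e(a n) exp(-π n² x)`,
and for primitive `χ` `∑_a χ(a) e(a n/q) = τ χ̄(n)` (`gaussSum_mulShift_of_isPrimitive`). So
`thO χ t = (-i τ/√q) t^(-3/2) thO χ (1/t)`; apply the relation twice: `(-i τ/√q)² = 1` as soon as `thO χ t ≠ 0` for some `t`: for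
large `t` the term `d = 1` dominates. So no evaluation of Gauss sums is needed.
-/

open Finset Filter

namespace Pool.Agent.GLI

/-- the sum over `ℤ` -/
theorem hasSum_thO {q : ℕ} [NeZero q] (χ : DirichletCharacter ℂ q)
    (h : RealChar χ) (he : χ (-1) = -1) (t : ℝ) {S : ℂ}
    (hS : HasSum (fun n : ℤ => χ (n : ZMod q) * ((n * Real.exp (-Real.pi * n ^ 2 * t / q) : ℝ) : ℂ)) S) :
    S = ((2 * thO χ t : ℝ) : ℂ) := by
  have h1 := hS.nat_add_neg
  simp only [Int.cast_zero, zero_mul, Complex.ofReal_zero, mul_zero, add_zero] at h1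
  have h2 : HasSum (fun n : ℕ => (((2 * ((n : ℝ) * (χ (n : ZMod q)).re * Real.exp (-Real.pi * n ^ 2 * t / q)) : ℝ)) : ℂ)) S := by
    refine h1.congr_fun ?_
    intro n
    have h3 : χ ((-(n : ℤ) : ℤ) : ZMod q) = - χ (n : ZMod q) := by
      have : ((-(n : ℤ) : ℤ) : ZMod q) = -1 * (n : ZMod q) := by push_cast; ring
      rw [this, map_mul, he, neg_one_mul]
    rw [h3]
    have h4 := realChar_re h (n : ZMod q)
    push_cast
    rw [h4]
    ring_nf
  have h5 : HasSum (fun n : ℕ => 2 * ((n : ℝ) * (χ (n : ZMod q)).re * Real.exp (-Real.pi * n ^ 2 * t / q))) S.re := by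
    have h50 := Complex.hasSum_re h2
    simp only [Complex.ofReal_re] at h50
    exact h50
  have h6 : S.re = 2 * thO χ t := by
    rw [← h5.tsum_eq, tsum_mul_left]
    rfl
  have h7 := Complex.hasSum_ofReal.2 h5
  rw [← h6]
  exact h2.unique h7

theorem hasSum_odd_side {q : ℕ} [NeZero q] (χ : DirichletCharacter ℂ q) (t : ℝ) (ht : 0 < t) :
    HasSum (fun n : ℤ => χ (n : ZMod q) * ((n * Real.exp (-Real.pi * n ^ 2 * t / q) : ℝ) : ℂ))
      (∑ a : ZMod q, χ a * ((q * HurwitzZeta.oddKernel ((a.val : ℝ) / q : ℝ) (q * t) : ℝ) : ℂ)) := by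
  have hq : (0 : ℝ) < q := by exact_mod_cast Nat.pos_of_ne_zero (NeZero.ne q)
  have hqt : 0 < (q : ℝ) * t := mul_pos hq ht
  refine hasSum_residue χ (fun n : ℤ => ((n * Real.exp (-Real.pi * n ^ 2 * t / q) : ℝ) : ℂ)) _ ?_
  intro a
  have h1 := (HurwitzZeta.hasSum_int_oddKernel ((a.val : ℝ) / q) hqt).mul_left (q : ℝ)
  rw [← Complex.hasSum_ofReal] at h1
  refine h1.congr_fun ?_
  intro m
  congr 1
  have e1 : ((m * (q : ℤ) + (a.val : ℤ) : ℤ) : ℝ) = q * ((m : ℝ) + (a.val : ℝ) / q) := by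
    push_cast
    field_simp
  rw [e1]
  have e2 : -Real.pi * ((q : ℝ) * ((m : ℝ) + (a.val : ℝ) / q)) ^ 2 * t / q =
      -Real.pi * ((m : ℝ) + (a.val : ℝ) / q) ^ 2 * (q * t) := by
    field_simp
  rw [e2]
  ring

theorem thO_complex {q : ℕ} [NeZero q] (χ : DirichletCharacter ℂ q) (hp : χ.IsPrimitive)
    (h : RealChar χ) (he : χ (-1) = -1) (t : ℝ) (ht : 0 < t) :
    ((thO χ t : ℝ) : ℂ) = (((q / (q * t) ^ (3 / 2 : ℝ) : ℝ) : ℂ) *
      (-Complex.I * gaussSum χ ZMod.stdAddChar)) * (thO χ (1 / t) : ℝ) := by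
  have hq : (0 : ℝ) < q := by exact_mod_cast Nat.pos_of_ne_zero (NeZero.ne q)
  have hqt : 0 < (q : ℝ) * t := mul_pos hq ht
  have e1 := hasSum_thO χ h he t (hasSum_odd_side χ t ht)
  have hB : HasSum (fun n : ℤ => χ⁻¹ (n : ZMod q) * gaussSum χ ZMod.stdAddChar *
      (-Complex.I * n * (Real.exp (-Real.pi * n ^ 2 * (1 / (q * t))) : ℂ)))
      (∑ a : ZMod q, χ a * ((HurwitzZeta.sinKernel ((a.val : ℝ) / q : ℝ) (1 / (q * t)) : ℝ) : ℂ)) := by
    refine hasSum_gauss χ hp _ _ ?_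
    intro a
    have h1 := HurwitzZeta.hasSum_int_sinKernel ((a.val : ℝ) / q) (one_div_pos.2 hqt)
    refine h1.congr_fun ?_
    intro n
    ring
  have hC : HasSum (fun n : ℤ => χ (n : ZMod q) * ((n * Real.exp (-Real.pi * n ^ 2 * (1 / t) / q) : ℝ) : ℂ))
      ((2 * thO χ (1 / t) : ℝ) : ℂ) := by
    have hA' := hasSum_odd_side χ (1 / t) (one_div_pos.2 ht)
    rw [← hasSum_thO χ h he (1 / t) hA']
    exact hA'
  have hD := hC.mul_left (-Complex.I * gaussSum χ ZMod.stdAddChar)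
  have e2 : (∑ a : ZMod q, χ a * ((HurwitzZeta.sinKernel ((a.val : ℝ) / q : ℝ) (1 / (q * t)) : ℝ) : ℂ)) =
      -Complex.I * gaussSum χ ZMod.stdAddChar * ((2 * thO χ (1 / t) : ℝ) : ℂ) := by
    refine hB.unique (hD.congr_fun ?_)
    intro n
    rw [realChar_inv h]
    have : -Real.pi * (n : ℝ) ^ 2 * (1 / (q * t)) = -Real.pi * (n : ℝ) ^ 2 * (1 / t) / q := by
      field_simp
    rw [this]
    push_cast
    ring
  have e3 : (∑ a : ZMod q, χ a * ((q * HurwitzZeta.oddKernel ((a.val : ℝ) / q : ℝ) (q * t) : ℝ) : ℂ)) =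
      ((q / (q * t) ^ (3 / 2 : ℝ) : ℝ) : ℂ) *
      (∑ a : ZMod q, χ a * ((HurwitzZeta.sinKernel ((a.val : ℝ) / q : ℝ) (1 / (q * t)) : ℝ) : ℂ)) := by
    rw [Finset.mul_sum]
    refine Finset.sum_congr rfl fun a _ => ?_
    rw [HurwitzZeta.oddKernel_functional_equation]
    have : (q * (1 / (q * t) ^ (3 / 2 : ℝ) * HurwitzZeta.sinKernel ((a.val : ℝ) / q : ℝ) (1 / (q * t))) : ℝ) =
        (q / (q * t) ^ (3 / 2 : ℝ)) * HurwitzZeta.sinKernel ((a.val : ℝ) / q : ℝ) (1 / (q * t)) := by ring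
    rw [this]
    rw [Complex.ofReal_mul]
    ring
  rw [e3, e2] at e1
  rw [Complex.ofReal_mul 2, Complex.ofReal_mul 2] at e1
  have h2 : ((2 : ℝ) : ℂ) ≠ 0 := by norm_num
  apply mul_left_cancel₀ h2
  rw [← e1]
  ring

theorem thO_ne_zero {q : ℕ} [NeZero q] (χ : DirichletCharacter ℂ q)
    (h : RealChar χ) : ∃ t, 0 < t ∧ thO χ t ≠ 0 := by
  have hq : (0 : ℝ) < q := by exact_mod_cast Nat.pos_of_ne_zero (NeZero.ne q)
  refine ⟨q * Real.log 2 / Real.pi, by positivity, ?_⟩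
  set f : ℕ → ℝ := fun d => (d : ℝ) * (χ (d : ZMod q)).re * Real.exp (-Real.pi * d ^ 2 * (q * Real.log 2 / Real.pi) / q) with hf
  have hx : ∀ d : ℕ, Real.exp (-Real.pi * d ^ 2 * (q * Real.log 2 / Real.pi) / q) = (1 / 2 : ℝ) ^ (d ^ 2) := by
    intro d
    have : -Real.pi * (d : ℝ) ^ 2 * (q * Real.log 2 / Real.pi) / q = ((d ^ 2 : ℕ) : ℝ) * (-Real.log 2) := by
      push_cast
      field_simp
    rw [this, Real.exp_nat_mul, Real.exp_neg, Real.exp_log (by norm_num)]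
    norm_num
  have hf' : ∀ d, f d = (d : ℝ) * (χ (d : ZMod q)).re * (1 / 2 : ℝ) ^ (d ^ 2) := fun d => by
    rw [hf]; simp only [hx]
  have hb : ∀ d : ℕ, ‖f (d + 2)‖ ≤ ((d : ℝ) * (1 / 4 : ℝ) ^ d) * (1 / 16) + (1 / 8 : ℝ) * (1 / 4 : ℝ) ^ d := by
    intro d
    rw [hf', Real.norm_eq_abs, abs_mul, abs_mul]
    have h1 : |(1 / 2 : ℝ) ^ ((d + 2) ^ 2)| = (1 / 2 : ℝ) ^ ((d + 2) ^ 2) := abs_of_pos (by positivity)
    have h0 : |((d + 2 : ℕ) : ℝ)| = (d : ℝ) + 2 := by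
      rw [abs_of_nonneg (Nat.cast_nonneg _)]; push_cast; ring
    rw [h1, h0]
    have h2 : (1 / 2 : ℝ) ^ ((d + 2) ^ 2) ≤ (1 / 2 : ℝ) ^ (2 * (d + 2)) :=
      pow_le_pow_of_le_one (by norm_num) (by norm_num) (by nlinarith)
    have h3 : (1 / 2 : ℝ) ^ (2 * (d + 2)) = (1 / 16 : ℝ) * (1 / 4 : ℝ) ^ d := by
      rw [pow_mul, pow_add]; norm_num; ring
    have hd : (0 : ℝ) ≤ (d : ℝ) + 2 := by positivity
    calc ((d : ℝ) + 2) * |(χ ((d + 2 : ℕ) : ZMod q)).re| * (1 / 2 : ℝ) ^ ((d + 2) ^ 2)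
        ≤ ((d : ℝ) + 2) * 1 * ((1 / 16 : ℝ) * (1 / 4 : ℝ) ^ d) := by
          apply mul_le_mul _ (h2.trans h3.le) (by positivity) (by positivity)
          exact mul_le_mul_of_nonneg_left (realChar_abs h _) hd
      _ = _ := by ring
  have hn : ‖(1 / 4 : ℝ)‖ < 1 := by norm_num
  have hg : HasSum (fun d : ℕ => ((d : ℝ) * (1 / 4 : ℝ) ^ d) * (1 / 16) + (1 / 8 : ℝ) * (1 / 4 : ℝ) ^ d)
      ((1 / 4 / (1 - 1 / 4) ^ 2) * (1 / 16) + (1 / 8) * (1 - 1 / 4)⁻¹) :=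
    ((hasSum_coe_mul_geometric_of_norm_lt_one hn).mul_right _).add
      ((hasSum_geometric_of_lt_one (by norm_num) (by norm_num)).mul_left _)
  have hs2 : Summable (fun d => f (d + 2)) := Summable.of_norm_bounded hg.summable hb
  have hs : Summable f := (summable_nat_add_iff 2).1 hs2
  have h4 := hs.sum_add_tsum_nat_add 2
  have h5 := tsum_of_norm_bounded hg hb
  have h6 : thO χ (q * Real.log 2 / Real.pi) = ∑' d, f d := rfl
  rw [h6, ← h4]
  have h7 : ∑ i ∈ range 2, f i = 1 / 2 := by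
    rw [Finset.sum_range_succ, Finset.sum_range_one, hf', hf']
    simp
  rw [h7]
  rw [Real.norm_eq_abs] at h5
  have h8 := (abs_le.1 h5).1
  norm_num at h8
  intro h9
  linarith

theorem thO_fe (q : ℕ) [NeZero q] (χ : DirichletCharacter ℂ q) (hp : χ.IsPrimitive) (hχ : χ ≠ 1)
    (h : RealChar χ) (he : χ (-1) = -1) : ∃ w : ℝ, (w = 1 ∨ w = -1) ∧ ∀ t : ℝ, 0 < t →
    thO χ (1 / t) = w * t * Real.sqrt t * thO χ t := by
  have hq : (0 : ℝ) < q := by exact_mod_cast Nat.pos_of_ne_zero (NeZero.ne q)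
  have hpow : ∀ x : ℝ, 0 < x → x ^ (3 / 2 : ℝ) = x * Real.sqrt x := by
    intro x hx
    rw [Real.sqrt_eq_rpow]
    nth_rw 2 [← Real.rpow_one x]
    rw [← Real.rpow_add hx]
    norm_num
  obtain ⟨w, hw, hfe⟩ := sign_of_fe (thO χ) (fun t => t * Real.sqrt t)
    (((q / (q * Real.sqrt q) : ℝ) : ℂ) * (-Complex.I * gaussSum χ ZMod.stdAddChar))
    (fun t ht => mul_pos ht (Real.sqrt_pos.2 ht)) (by
      intro t ht
      have h1 : Real.sqrt t * Real.sqrt (1 / t) = 1 := by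
        rw [← Real.sqrt_mul ht.le, mul_one_div_cancel ht.ne', Real.sqrt_one]
      calc t * Real.sqrt t * (1 / t * Real.sqrt (1 / t)) = (t * (1 / t)) * (Real.sqrt t * Real.sqrt (1 / t)) := by ring
        _ = 1 := by rw [h1, mul_one_div_cancel ht.ne', one_mul]) (by
      intro t ht
      have h1 := thO_complex χ hp h he (1 / t) (one_div_pos.2 ht)
      rw [one_div_one_div] at h1
      rw [h1]
      have h2 : ((q : ℝ) / (q * (1 / t)) ^ (3 / 2 : ℝ)) = q / (q * Real.sqrt q) * (t * Real.sqrt t) := by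
        rw [hpow _ (by positivity), Real.sqrt_mul hq.le, Real.sqrt_div zero_le_one, Real.sqrt_one]
        have := (Real.sqrt_pos.2 ht).ne'
        have := (Real.sqrt_pos.2 hq).ne'
        field_simp
      rw [h2, Complex.ofReal_mul]
      ring) (thO_ne_zero χ h)
  refine ⟨w, hw, fun t ht => ?_⟩
  rw [hfe t ht]
  ring

end Pool.Agent.GLI
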