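import Pool.Agent.GLI.ThDefs
import Pool.Agent.GLI.ThFEAux

set_option autoImplicit false

/-!
Module ThFEE. `2 thE χ t = ∑_{a mod q} χ(a) evenKernel (a/q) (q t)` (split `d ∈ ℤ` by residue classes; `χ` even), Mathlib
`HurwitzZeta.evenKernel_functional_equation`: `evenKernel a x = x^(-1/2) cosKernel a (1/x)`,
`cosKernel a x = ∑_{n ∈ ℤ} e(a n) exp(-π n² x)`, and for primitive `χ` `∑_a χ(a) e(a n/q) = τ χ̄(n)` (Mathlib: Gauss sums of
primitive characters, `gaussSum_mulShift_of_isPrimitive`). So `thE χ t = (τ/√q) t^(-1/2) thE χ (1/t)`. Apply the relation twice: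
`(τ/√q)² = 1` as soon as `thE χ t ≠ 0` for some `t`: for large `t` the term `d = 1` dominates. So no evaluation of
Gauss sums is needed: `w = τ/√q`, `w² = 1`.
`om_fe`: Mathlib `Real.tsum_exp_neg_mul_int_sq`: `1 + 2 om(1/t) = √t (1 + 2 om t)`.
-/

open Finset Filter

namespace Pool.Agent.GLI

/-- the sum over `ℤ` -/
theorem hasSum_thE {q : ℕ} [NeZero q] (χ : DirichletCharacter ℂ q) (hχ : χ ≠ 1)
    (h : RealChar χ) (he : χ (-1) = 1) (t : ℝ) {S : ℂ}
    (hS : HasSum (fun n : ℤ => χ (n : ZMod q) * (Real.exp (-Real.pi * n ^ 2 * t / q) : ℂ)) S) :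
    S = ((2 * thE χ t : ℝ) : ℂ) := by
  have h1 := hS.nat_add_neg
  simp only [Int.cast_zero, char_zero' hχ, zero_mul, add_zero] at h1
  have h2 : HasSum (fun n : ℕ => (((2 * ((χ (n : ZMod q)).re * Real.exp (-Real.pi * n ^ 2 * t / q)) : ℝ)) : ℂ)) S := by
    refine h1.congr_fun ?_
    intro n
    have h3 : χ ((-(n : ℤ) : ℤ) : ZMod q) = χ (n : ZMod q) := by
      have : ((-(n : ℤ) : ℤ) : ZMod q) = -1 * (n : ZMod q) := by push_cast; ring
      rw [this, map_mul, he, one_mul]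
    rw [h3]
    have h4 := realChar_re h (n : ZMod q)
    push_cast
    rw [h4]
    ring_nf
  have h5 : HasSum (fun n : ℕ => 2 * ((χ (n : ZMod q)).re * Real.exp (-Real.pi * n ^ 2 * t / q))) S.re := by
    have h50 := Complex.hasSum_re h2
    simp only [Complex.ofReal_re] at h50
    exact h50
  have h6 : S.re = 2 * thE χ t := by
    rw [← h5.tsum_eq, tsum_mul_left]
    rfl
  have h7 := Complex.hasSum_ofReal.2 h5
  rw [← h6]
  exact h2.unique h7

theorem thE_complex {q : ℕ} [NeZero q] (χ : DirichletCharacter ℂ q) (hp : χ.IsPrimitive) (hχ : χ ≠ 1)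
    (h : RealChar χ) (he : χ (-1) = 1) (t : ℝ) (ht : 0 < t) :
    ((thE χ t : ℝ) : ℂ) = (((1 / Real.sqrt (q * t) : ℝ) : ℂ) * gaussSum χ ZMod.stdAddChar) * (thE χ (1 / t) : ℝ) := by
  have hq : (0 : ℝ) < q := by exact_mod_cast Nat.pos_of_ne_zero (NeZero.ne q)
  have hqt : 0 < (q : ℝ) * t := mul_pos hq ht
  -- even kernel side
  have hA : HasSum (fun n : ℤ => χ (n : ZMod q) * (Real.exp (-Real.pi * n ^ 2 * t / q) : ℂ))
      (∑ a : ZMod q, χ a * ((HurwitzZeta.evenKernel ((a.val : ℝ) / q : ℝ) (q * t) : ℝ) : ℂ)) := by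
    refine hasSum_residue χ (fun n : ℤ => (Real.exp (-Real.pi * n ^ 2 * t / q) : ℂ)) _ ?_
    intro a
    have h1 := HurwitzZeta.hasSum_int_evenKernel ((a.val : ℝ) / q) hqt
    rw [← Complex.hasSum_ofReal] at h1
    refine h1.congr_fun ?_
    intro m
    congr 2
    push_cast
    field_simp
  -- cosine kernel side
  have hB : HasSum (fun n : ℤ => χ⁻¹ (n : ZMod q) * gaussSum χ ZMod.stdAddChar *
      (Real.exp (-Real.pi * n ^ 2 * (1 / (q * t))) : ℂ))
      (∑ a : ZMod q, χ a * ((HurwitzZeta.cosKernel ((a.val : ℝ) / q : ℝ) (1 / (q * t)) : ℝ) : ℂ)) := by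
    refine hasSum_gauss χ hp _ _ ?_
    intro a
    have h1 := HurwitzZeta.hasSum_int_cosKernel ((a.val : ℝ) / q) (one_div_pos.2 hqt)
    exact h1
  have e1 := hasSum_thE χ hχ h he t hA
  have hC : HasSum (fun n : ℤ => χ (n : ZMod q) * (Real.exp (-Real.pi * n ^ 2 * (1 / t) / q) : ℂ))
      ((2 * thE χ (1 / t) : ℝ) : ℂ) := by
    -- summability from the residue side at 1/t
    have ht' : 0 < 1 / t := one_div_pos.2 ht
    have hqt' : 0 < (q : ℝ) * (1 / t) := mul_pos hq ht'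
    have hA' : HasSum (fun n : ℤ => χ (n : ZMod q) * (Real.exp (-Real.pi * n ^ 2 * (1 / t) / q) : ℂ))
        (∑ a : ZMod q, χ a * ((HurwitzZeta.evenKernel ((a.val : ℝ) / q : ℝ) (q * (1 / t)) : ℝ) : ℂ)) := by
      refine hasSum_residue χ (fun n : ℤ => (Real.exp (-Real.pi * n ^ 2 * (1 / t) / q) : ℂ)) _ ?_
      intro a
      have h1 := HurwitzZeta.hasSum_int_evenKernel ((a.val : ℝ) / q) hqt'
      rw [← Complex.hasSum_ofReal] at h1
      refine h1.congr_fun ?_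
      intro m
      congr 2
      push_cast
      field_simp
    rw [← hasSum_thE χ hχ h he (1 / t) hA']
    exact hA'
  have hD := hC.mul_left (gaussSum χ ZMod.stdAddChar)
  have e2 : (∑ a : ZMod q, χ a * ((HurwitzZeta.cosKernel ((a.val : ℝ) / q : ℝ) (1 / (q * t)) : ℝ) : ℂ)) =
      gaussSum χ ZMod.stdAddChar * ((2 * thE χ (1 / t) : ℝ) : ℂ) := by
    refine hB.unique (hD.congr_fun ?_)
    intro n
    rw [realChar_inv h]
    have : -Real.pi * (n : ℝ) ^ 2 * (1 / (q * t)) = -Real.pi * (n : ℝ) ^ 2 * (1 / t) / q := by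
      field_simp
    rw [this]
    ring
  have e3 : (∑ a : ZMod q, χ a * ((HurwitzZeta.evenKernel ((a.val : ℝ) / q : ℝ) (q * t) : ℝ) : ℂ)) =
      ((1 / Real.sqrt (q * t) : ℝ) : ℂ) *
      (∑ a : ZMod q, χ a * ((HurwitzZeta.cosKernel ((a.val : ℝ) / q : ℝ) (1 / (q * t)) : ℝ) : ℂ)) := by
    rw [Finset.mul_sum]
    refine Finset.sum_congr rfl fun a _ => ?_
    rw [HurwitzZeta.evenKernel_functional_equation, ← Real.sqrt_eq_rpow]
    push_cast
    ring
  rw [e3, e2] at e1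
  push_cast at e1 ⊢
  have h2 : (2 : ℂ) ≠ 0 := two_ne_zero
  apply mul_left_cancel₀ h2
  rw [← e1]
  ring

/-- a geometric series bound -/
theorem thE_ne_zero {q : ℕ} [NeZero q] (χ : DirichletCharacter ℂ q) (hχ : χ ≠ 1)
    (h : RealChar χ) : ∃ t, 0 < t ∧ thE χ t ≠ 0 := by
  have hq : (0 : ℝ) < q := by exact_mod_cast Nat.pos_of_ne_zero (NeZero.ne q)
  refine ⟨q * Real.log 2 / Real.pi, by positivity, ?_⟩
  set f : ℕ → ℝ := fun d => (χ (d : ZMod q)).re * Real.exp (-Real.pi * d ^ 2 * (q * Real.log 2 / Real.pi) / q) with hf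
  have hx : ∀ d : ℕ, Real.exp (-Real.pi * d ^ 2 * (q * Real.log 2 / Real.pi) / q) = (1 / 2 : ℝ) ^ (d ^ 2) := by
    intro d
    have : -Real.pi * (d : ℝ) ^ 2 * (q * Real.log 2 / Real.pi) / q = ((d ^ 2 : ℕ) : ℝ) * (-Real.log 2) := by
      push_cast
      field_simp
    rw [this, Real.exp_nat_mul, Real.exp_neg, Real.exp_log (by norm_num)]
    norm_num
  have hf' : ∀ d, f d = (χ (d : ZMod q)).re * (1 / 2 : ℝ) ^ (d ^ 2) := fun d => by
    rw [hf]; simp only [hx]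
  have hb : ∀ d : ℕ, ‖f (d + 2)‖ ≤ (1 / 16 : ℝ) * (1 / 4 : ℝ) ^ d := by
    intro d
    rw [hf', Real.norm_eq_abs, abs_mul]
    have h1 : |(1 / 2 : ℝ) ^ ((d + 2) ^ 2)| = (1 / 2 : ℝ) ^ ((d + 2) ^ 2) := abs_of_pos (by positivity)
    rw [h1]
    have h2 : (1 / 2 : ℝ) ^ ((d + 2) ^ 2) ≤ (1 / 2 : ℝ) ^ (2 * (d + 2)) :=
      pow_le_pow_of_le_one (by norm_num) (by norm_num) (by nlinarith)
    have h3 : (1 / 2 : ℝ) ^ (2 * (d + 2)) = (1 / 16 : ℝ) * (1 / 4 : ℝ) ^ d := by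
      rw [pow_mul, pow_add]; norm_num; ring
    calc |(χ ((d + 2 : ℕ) : ZMod q)).re| * (1 / 2 : ℝ) ^ ((d + 2) ^ 2)
        ≤ 1 * (1 / 2 : ℝ) ^ ((d + 2) ^ 2) := by
          apply mul_le_mul_of_nonneg_right (realChar_abs h _) (by positivity)
      _ ≤ _ := by rw [one_mul, ← h3]; exact h2
  have hg : HasSum (fun d : ℕ => (1 / 16 : ℝ) * (1 / 4 : ℝ) ^ d) ((1 / 16) * (1 - 1 / 4)⁻¹) :=
    (hasSum_geometric_of_lt_one (by norm_num) (by norm_num)).mul_left _
  have hs2 : Summable (fun d => f (d + 2)) := Summable.of_norm_bounded hg.summable hb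
  have hs : Summable f := (summable_nat_add_iff 2).1 hs2
  have h4 := hs.sum_add_tsum_nat_add 2
  have h5 := tsum_of_norm_bounded hg hb
  have h6 : thE χ (q * Real.log 2 / Real.pi) = ∑' d, f d := rfl
  rw [h6, ← h4]
  have h7 : ∑ i ∈ range 2, f i = 1 / 2 := by
    rw [Finset.sum_range_succ, Finset.sum_range_one, hf', hf']
    simp [char_zero' hχ]
  rw [h7]
  rw [Real.norm_eq_abs] at h5
  have h8 := (abs_le.1 h5).1
  norm_num at h8
  intro h9
  linarith

theorem thE_fe (q : ℕ) [NeZero q] (χ : DirichletCharacter ℂ q) (hp : χ.IsPrimitive) (hχ : χ ≠ 1)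
    (h : RealChar χ) (he : χ (-1) = 1) : ∃ w : ℝ, (w = 1 ∨ w = -1) ∧ ∀ t : ℝ, 0 < t →
    thE χ (1 / t) = w * Real.sqrt t * thE χ t := by
  refine sign_of_fe (thE χ) Real.sqrt (((1 / Real.sqrt q : ℝ) : ℂ) * gaussSum χ ZMod.stdAddChar)
    (fun t ht => Real.sqrt_pos.2 ht) ?_ ?_ (thE_ne_zero χ hχ h)
  · intro t ht
    rw [← Real.sqrt_mul ht.le, mul_one_div_cancel ht.ne', Real.sqrt_one]
  · intro t ht
    have h1 := thE_complex χ hp hχ h he (1 / t) (one_div_pos.2 ht)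
    rw [one_div_one_div] at h1
    rw [h1]
    have h2 : (1 / Real.sqrt (q * (1 / t)) : ℝ) = 1 / Real.sqrt q * Real.sqrt t := by
      rw [Real.sqrt_mul (Nat.cast_nonneg q), Real.sqrt_div zero_le_one, Real.sqrt_one]
      have := (Real.sqrt_pos.2 ht).ne'
      field_simp
    rw [h2]
    push_cast
    ring

theorem om_fe (t : ℝ) (ht : 0 < t) : om (1 / t) = Real.sqrt t * om t + (Real.sqrt t - 1) / 2 := by
  have key : ∀ s : ℝ, 0 < s → HurwitzZeta.cosKernel (0 : ℝ) s = 1 + 2 * om s := by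
    intro s hs
    have h1 := HurwitzZeta.hasSum_int_cosKernel (0 : ℝ) hs
    simp only [Complex.ofReal_zero, mul_zero, zero_mul, Complex.exp_zero, one_mul] at h1
    have h2 := HurwitzZeta.hasSum_nat_cosKernel₀ (0 : ℝ) hs
    simp only [mul_zero, zero_mul, Real.cos_zero, mul_one] at h2
    have h3 := h2.tsum_eq
    rw [tsum_mul_left] at h3
    have h4 : om s = ∑' m : ℕ, Real.exp (-Real.pi * (m + 1) ^ 2 * s) := rfl
    rw [← h4] at h3
    linarith
  have key2 : ∀ s : ℝ, 0 < s → HurwitzZeta.evenKernel (0 : ℝ) s = 1 + 2 * om s := by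
    intro s hs
    rw [← key s hs]
    have h1 := HurwitzZeta.hasSum_int_cosKernel (0 : ℝ) hs
    simp only [Complex.ofReal_zero, mul_zero, zero_mul, Complex.exp_zero, one_mul] at h1
    have h2 := HurwitzZeta.hasSum_int_evenKernel (0 : ℝ) hs
    simp only [add_zero] at h2
    exact h2.unique (Complex.hasSum_ofReal.1 h1)
  have h1 := HurwitzZeta.evenKernel_functional_equation ((0 : ℝ) : UnitAddCircle) (1 / t)
  rw [key2 _ (one_div_pos.2 ht), one_div_one_div, key t ht, ← Real.sqrt_eq_rpow,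
    Real.sqrt_div zero_le_one, Real.sqrt_one, one_div_one_div] at h1
  linarith

end Pool.Agent.GLI
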