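import Pool.Agent.GLI.ThIntAux

set_option autoImplicit false

/-!
Module ThIntE. Mellin transform of `thE`: see ThIntAux.
-/

open Finset Filter MeasureTheory

namespace Pool.Agent.GLI

theorem thE_eq_thK {q : ℕ} (χ : DirichletCharacter ℂ q) (t : ℝ) : thE χ t = thK 0 χ t := by
  simp [thE, thK]

theorem thE_int (q : ℕ) [NeZero q] (χ : DirichletCharacter ℂ q) (hχ : χ ≠ 1)
    (h : RealChar χ) (w : ℝ) (hw : w = 1 ∨ w = -1)
    (hfe : ∀ t : ℝ, 0 < t → thE χ (1 / t) = w * Real.sqrt t * thE χ t) :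
    IntegrableOn (fun s : ℝ => thE χ (s ^ 2)) (Set.Ioi 0) ∧
    IntegrableOn (fun s : ℝ => thE χ (s ^ 2) / s) (Set.Ioi 0) ∧
    ∫ s in Set.Ioi (0 : ℝ), thE χ (s ^ 2) = Real.sqrt q * L1 χ / 2 ∧
    ∫ s in Set.Ioi (0 : ℝ), thE χ (s ^ 2) / s = w * (Real.sqrt q * L1 χ / 2) := by
  have hq : (0 : ℝ) ≤ q := Nat.cast_nonneg q
  have hfe' : ∀ t : ℝ, 0 < t →
      thK 0 χ (1 / t) = w * t ^ (((0 : ℕ) : ℝ) + 1 / 2) * thK 0 χ t := by
    intro t ht
    rw [← thE_eq_thK, ← thE_eq_thK, hfe t ht, Real.sqrt_eq_rpow]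
    norm_num
  obtain ⟨i0, v0⟩ := thK_sq 0 χ hχ w hfe' 0
  obtain ⟨i1, v1⟩ := thK_sq 0 χ hχ w hfe' (-1)
  have hedge := thK_mellin_edge 0 χ hχ h w hfe'
  have hm := thK_mellin_fe 0 χ w hfe' 0
  have e0 : ∀ s ∈ Set.Ioi (0 : ℝ), thK 0 χ (s ^ 2) * s ^ (0 : ℝ) = thE χ (s ^ 2) := by
    intro s _
    rw [Real.rpow_zero, mul_one, thE_eq_thK]
  have e1 : ∀ s ∈ Set.Ioi (0 : ℝ), thK 0 χ (s ^ 2) * s ^ (-1 : ℝ) = thE χ (s ^ 2) / s := by
    intro s _
    rw [Real.rpow_neg_one, thE_eq_thK, div_eq_mul_inv]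
  rw [setIntegral_congr_fun measurableSet_Ioi e0] at v0
  rw [setIntegral_congr_fun measurableSet_Ioi e1] at v1
  have hM : mellin (fun t => (thK 0 χ t : ℂ)) (1 / 2) =
      (Real.sqrt q : ℂ) * DirichletCharacter.LFunction χ 1 := by
    have : (Real.sqrt q : ℂ) = (q : ℂ) ^ ((1 : ℂ) / 2) := by
      rw [Real.sqrt_eq_rpow, Complex.ofReal_cpow hq]
      push_cast
      rfl
    rw [this]
    simpa using hedge
  have hM0 : mellin (fun t => (thK 0 χ t : ℂ)) 0 =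
      w * ((Real.sqrt q : ℂ) * DirichletCharacter.LFunction χ 1) := by
    rw [← hM]
    simpa using hm
  refine ⟨(integrableOn_congr_fun e0 measurableSet_Ioi).mp i0,
    (integrableOn_congr_fun e1 measurableSet_Ioi).mp i1, ?_, ?_⟩
  · have h2 : ((∫ s in Set.Ioi (0 : ℝ), thE χ (s ^ 2) : ℝ) : ℂ) =
        1 / 2 * ((Real.sqrt q : ℂ) * DirichletCharacter.LFunction χ 1) := by
      rw [v0, ← hM]
      norm_num
    have h3 := congrArg Complex.re h2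
    rw [Complex.ofReal_re] at h3
    rw [h3, L1, show (1 / 2 : ℂ) = ((1 / 2 : ℝ) : ℂ) by push_cast; rfl, Complex.re_ofReal_mul,
      Complex.re_ofReal_mul]
    ring
  · have h2 : ((∫ s in Set.Ioi (0 : ℝ), thE χ (s ^ 2) / s : ℝ) : ℂ) =
        1 / 2 * (w * ((Real.sqrt q : ℂ) * DirichletCharacter.LFunction χ 1)) := by
      rw [v1, ← hM0]
      norm_num
    have h3 := congrArg Complex.re h2
    rw [Complex.ofReal_re] at h3
    rw [h3, L1, show (1 / 2 : ℂ) = ((1 / 2 : ℝ) : ℂ) by push_cast; rfl, Complex.re_ofReal_mul,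
      Complex.re_ofReal_mul, Complex.re_ofReal_mul]
    ring

end Pool.Agent.GLI
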