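import Pool.Agent.GLI.ThIntAux

set_option autoImplicit false

/-!
Module ThIntO. Mellin transform of `thO`: see ThIntAux.
-/

open Finset Filter MeasureTheory

namespace Pool.Agent.GLI

theorem thO_eq_thK {q : ℕ} (χ : DirichletCharacter ℂ q) (t : ℝ) : thO χ t = thK 1 χ t := by
  simp [thO, thK]

theorem thO_int (q : ℕ) [NeZero q] (χ : DirichletCharacter ℂ q) (hχ : χ ≠ 1)
    (h : RealChar χ) (w : ℝ) (hw : w = 1 ∨ w = -1)
    (hfe : ∀ t : ℝ, 0 < t → thO χ (1 / t) = w * t * Real.sqrt t * thO χ t) :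
    IntegrableOn (fun s : ℝ => thO χ (s ^ 2)) (Set.Ioi 0) ∧
    IntegrableOn (fun s : ℝ => thO χ (s ^ 2) * s) (Set.Ioi 0) ∧
    ∫ s in Set.Ioi (0 : ℝ), thO χ (s ^ 2) * s = q * L1 χ / (2 * Real.pi) ∧
    ∫ s in Set.Ioi (0 : ℝ), thO χ (s ^ 2) = w * (q * L1 χ / (2 * Real.pi)) := by
  have hq : (0 : ℝ) ≤ q := Nat.cast_nonneg q
  have hfe' : ∀ t : ℝ, 0 < t →
      thK 1 χ (1 / t) = w * t ^ (((1 : ℕ) : ℝ) + 1 / 2) * thK 1 χ t := by
    intro t ht
    rw [← thO_eq_thK, ← thO_eq_thK, hfe t ht, Real.sqrt_eq_rpow, Nat.cast_one,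
      Real.rpow_add ht, Real.rpow_one]
    ring
  obtain ⟨i0, v0⟩ := thK_sq 1 χ hχ w hfe' 0
  obtain ⟨i1, v1⟩ := thK_sq 1 χ hχ w hfe' 1
  have hedge := thK_mellin_edge 1 χ hχ h w hfe'
  have hm := thK_mellin_fe 1 χ w hfe' (-(1 / 2))
  have e0 : ∀ s ∈ Set.Ioi (0 : ℝ), thK 1 χ (s ^ 2) * s ^ (0 : ℝ) = thO χ (s ^ 2) := by
    intro s _
    rw [Real.rpow_zero, mul_one, thO_eq_thK]
  have e1 : ∀ s ∈ Set.Ioi (0 : ℝ), thK 1 χ (s ^ 2) * s ^ (1 : ℝ) = thO χ (s ^ 2) * s := by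
    intro s _
    rw [Real.rpow_one, thO_eq_thK]
  rw [setIntegral_congr_fun measurableSet_Ioi e0] at v0
  rw [setIntegral_congr_fun measurableSet_Ioi e1] at v1
  have hG : Complex.Gammaℝ 2 = ((1 / Real.pi : ℝ) : ℂ) := by
    rw [Complex.Gammaℝ_def]
    norm_num [Complex.cpow_neg_one]
  have hM : mellin (fun t => (thK 1 χ t : ℂ)) 1 =
      ((q / Real.pi : ℝ) : ℂ) * DirichletCharacter.LFunction χ 1 := by
    rw [show ((1 : ℂ) + ((1 : ℕ) : ℂ)) = 2 by norm_num, hG] at hedge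
    norm_num at hedge
    rw [hedge]
    push_cast
    ring
  have hM0 : mellin (fun t => (thK 1 χ t : ℂ)) (1 / 2) =
      w * (((q / Real.pi : ℝ) : ℂ) * DirichletCharacter.LFunction χ 1) := by
    rw [← hM]
    rw [neg_neg] at hm
    rw [hm]
    norm_num
  refine ⟨(integrableOn_congr_fun e0 measurableSet_Ioi).mp i0,
    (integrableOn_congr_fun e1 measurableSet_Ioi).mp i1, ?_, ?_⟩
  · have h2 : ((∫ s in Set.Ioi (0 : ℝ), thO χ (s ^ 2) * s : ℝ) : ℂ) =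
        1 / 2 * (((q / Real.pi : ℝ) : ℂ) * DirichletCharacter.LFunction χ 1) := by
      rw [v1, ← hM]
      norm_num
    have h3 := congrArg Complex.re h2
    rw [Complex.ofReal_re] at h3
    rw [h3, L1, show (1 / 2 : ℂ) = ((1 / 2 : ℝ) : ℂ) by push_cast; rfl, Complex.re_ofReal_mul,
      Complex.re_ofReal_mul]
    field_simp
  · have h2 : ((∫ s in Set.Ioi (0 : ℝ), thO χ (s ^ 2) : ℝ) : ℂ) =
        1 / 2 * (w * (((q / Real.pi : ℝ) : ℂ) * DirichletCharacter.LFunction χ 1)) := by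
      rw [v0, ← hM0]
      norm_num
    have h3 := congrArg Complex.re h2
    rw [Complex.ofReal_re] at h3
    rw [h3, L1, show (1 / 2 : ℂ) = ((1 / 2 : ℝ) : ℂ) by push_cast; rfl, Complex.re_ofReal_mul,
      Complex.re_ofReal_mul, Complex.re_ofReal_mul]
    field_simp

end Pool.Agent.GLI
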