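import Pool.Agent.GLI.ThDefs

set_option autoImplicit false

/-!
Module ThIntAux: Mellin transform of `∑ d^k χ(d) exp(-π d² t/q)` (both parities at once).
-/

open Finset Filter MeasureTheory Asymptotics Topology

namespace Pool.Agent.GLI

/-- `∑ d^k χ(d) exp(-π d² t/q)`. -/
noncomputable def thK {q : ℕ} (k : ℕ) (χ : DirichletCharacter ℂ q) (t : ℝ) : ℝ :=
  ∑' d : ℕ, (d : ℝ) ^ k * (χ (d : ZMod q)).re * Real.exp (-Real.pi * d ^ 2 * t / q)

theorem thK_chi_zero {q : ℕ} (χ : DirichletCharacter ℂ q) (hχ : χ ≠ 1) :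
    χ ((0 : ℕ) : ZMod q) = 0 := by
  rw [Nat.cast_zero]
  apply DirichletCharacter.map_zero'
  rintro rfl
  exact hχ (DirichletCharacter.level_one χ)

theorem thK_re_le {q : ℕ} (χ : DirichletCharacter ℂ q) (a : ZMod q) : |(χ a).re| ≤ 1 :=
  le_trans (Complex.abs_re_le_norm _) (χ.norm_le_one a)

/-- The majorant. -/
theorem thK_summable_maj {q : ℕ} [NeZero q] (k : ℕ) {t : ℝ} (ht : 0 < t) :
    Summable fun d : ℕ => (d : ℝ) ^ k * Real.exp (-Real.pi * d ^ 2 * t / q) := by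
  have hq : (0 : ℝ) < q := by
    have := Nat.pos_of_ne_zero (NeZero.ne q)
    exact_mod_cast this
  have hr : 0 < Real.pi * t / q := by positivity
  refine Summable.of_nonneg_of_le (fun d => by positivity) (fun d => ?_)
    (Real.summable_pow_mul_exp_neg_nat_mul k hr)
  refine mul_le_mul_of_nonneg_left (Real.exp_le_exp.mpr ?_) (by positivity)
  have h1 : (d : ℝ) ≤ (d : ℝ) ^ 2 := by
    have : d ≤ d ^ 2 := by nlinarith [Nat.zero_le d, sq_nonneg (d - 1 : ℤ), Nat.le_self_pow (n := 2) (by norm_num) d]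
    exact_mod_cast this
  have h2 : -Real.pi * d ^ 2 * t / q = -(Real.pi * t / q) * (d : ℝ) ^ 2 := by ring
  rw [h2]
  have h3 := mul_le_mul_of_nonneg_left h1 hr.le
  linarith

theorem thK_term_le {q : ℕ} (k : ℕ) (χ : DirichletCharacter ℂ q) (t : ℝ) (d : ℕ) :
    ‖(d : ℝ) ^ k * (χ (d : ZMod q)).re * Real.exp (-Real.pi * d ^ 2 * t / q)‖ ≤
      (d : ℝ) ^ k * Real.exp (-Real.pi * d ^ 2 * t / q) := by
  rw [norm_mul, norm_mul, Real.norm_of_nonneg (by positivity : (0 : ℝ) ≤ (d : ℝ) ^ k),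
    Real.norm_of_nonneg (Real.exp_pos _).le, Real.norm_eq_abs]
  have h1 := thK_re_le χ (d : ZMod q)
  have h2 : (0 : ℝ) ≤ (d : ℝ) ^ k := by positivity
  have h3 := (Real.exp_pos (-Real.pi * d ^ 2 * t / q)).le
  calc (d : ℝ) ^ k * |(χ (d : ZMod q)).re| * Real.exp (-Real.pi * d ^ 2 * t / q)
      ≤ (d : ℝ) ^ k * 1 * Real.exp (-Real.pi * d ^ 2 * t / q) := by gcongr
    _ = _ := by ring

theorem thK_summable {q : ℕ} [NeZero q] (k : ℕ) (χ : DirichletCharacter ℂ q) {t : ℝ} (ht : 0 < t) :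
    Summable fun d : ℕ => (d : ℝ) ^ k * (χ (d : ZMod q)).re *
      Real.exp (-Real.pi * d ^ 2 * t / q) :=
  Summable.of_norm_bounded (thK_summable_maj k ht) (thK_term_le k χ t)

theorem thK_cont {q : ℕ} [NeZero q] (k : ℕ) (χ : DirichletCharacter ℂ q) :
    ContinuousOn (thK k χ) (Set.Ioi 0) := by
  have hq : (0 : ℝ) < q := by
    have := Nat.pos_of_ne_zero (NeZero.ne q)
    exact_mod_cast this
  intro x hx
  have hx0 : (0 : ℝ) < x := hx
  have h1 : ContinuousOn (thK k χ) (Set.Ici (x / 2)) := by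
    refine continuousOn_tsum (u := fun d : ℕ => (d : ℝ) ^ k *
      Real.exp (-Real.pi * d ^ 2 * (x / 2) / q)) (fun d => by fun_prop)
      (thK_summable_maj k (by linarith)) ?_
    intro d y hy
    refine le_trans (thK_term_le k χ y d) ?_
    refine mul_le_mul_of_nonneg_left (Real.exp_le_exp.mpr ?_) (by positivity)
    have hy' : x / 2 ≤ y := hy
    have h3 : (0 : ℝ) ≤ Real.pi * d ^ 2 / q := by positivity
    have h4 := mul_le_mul_of_nonneg_left hy' h3
    have e1 : -Real.pi * d ^ 2 * y / q = -(Real.pi * d ^ 2 / q * y) := by ring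
    have e2 : -Real.pi * d ^ 2 * (x / 2) / q = -(Real.pi * d ^ 2 / q * (x / 2)) := by ring
    rw [e1, e2]
    linarith
  exact (h1.continuousAt (Ici_mem_nhds (by linarith))).continuousWithinAt

/-- Exponential decay. -/
theorem thK_decay {q : ℕ} [NeZero q] (k : ℕ) (χ : DirichletCharacter ℂ q) (hχ : χ ≠ 1) :
    ∃ C : ℝ, 0 ≤ C ∧ ∀ t : ℝ, 1 ≤ t → |thK k χ t| ≤ C * Real.exp (-(Real.pi / q) * t) := by
  have hq : (0 : ℝ) < q := by
    have := Nat.pos_of_ne_zero (NeZero.ne q)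
    exact_mod_cast this
  refine ⟨Real.exp (Real.pi / q) * ∑' d : ℕ, (d : ℝ) ^ k * Real.exp (-Real.pi * d ^ 2 * 1 / q),
    mul_nonneg (Real.exp_pos _).le (tsum_nonneg fun d => by positivity), fun t ht => ?_⟩
  have hs := thK_summable_maj (q := q) k (t := 1) one_pos
  have h1 : ∀ d : ℕ, ‖(d : ℝ) ^ k * (χ (d : ZMod q)).re * Real.exp (-Real.pi * d ^ 2 * t / q)‖ ≤
      Real.exp (Real.pi / q) * Real.exp (-(Real.pi / q) * t) *
        ((d : ℝ) ^ k * Real.exp (-Real.pi * d ^ 2 * 1 / q)) := by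
    intro d
    rcases Nat.eq_zero_or_pos d with rfl | hd
    · rw [thK_chi_zero χ hχ]
      simp only [Complex.zero_re, mul_zero, zero_mul, norm_zero]
      positivity
    · refine le_trans (thK_term_le k χ t d) ?_
      have e : Real.exp (Real.pi / q) * Real.exp (-(Real.pi / q) * t) *
        ((d : ℝ) ^ k * Real.exp (-Real.pi * d ^ 2 * 1 / q)) = (d : ℝ) ^ k *
          Real.exp (Real.pi / q + -(Real.pi / q) * t + -Real.pi * d ^ 2 * 1 / q) := by
        rw [Real.exp_add, Real.exp_add]; ring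
      rw [e]
      refine mul_le_mul_of_nonneg_left (Real.exp_le_exp.mpr ?_) (by positivity)
      have hd1 : (1 : ℝ) ≤ (d : ℝ) ^ 2 := by
        have : (1 : ℝ) ≤ d := by exact_mod_cast hd
        nlinarith
      have h5 : 0 ≤ Real.pi / q * (((d : ℝ) ^ 2 - 1) * (t - 1)) :=
        mul_nonneg (by positivity) (mul_nonneg (by linarith) (by linarith))
      have e2 : Real.pi / q + -(Real.pi / q) * t + -Real.pi * d ^ 2 * 1 / q -
        -Real.pi * d ^ 2 * t / q = Real.pi / q * (((d : ℝ) ^ 2 - 1) * (t - 1)) := by ring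
      linarith
  have h2 := tsum_of_norm_bounded (hs.mul_left (Real.exp (Real.pi / q) *
    Real.exp (-(Real.pi / q) * t))).hasSum h1
  rw [tsum_mul_left] at h2
  rw [← Real.norm_eq_abs]
  refine le_trans h2 (le_of_eq (by ring))

theorem thK_top {q : ℕ} [NeZero q] (k : ℕ) (χ : DirichletCharacter ℂ q) (hχ : χ ≠ 1) :
    (fun t => (thK k χ t : ℂ)) =O[atTop] fun t : ℝ => Real.exp (-(Real.pi / q) * t) := by
  obtain ⟨C, hC, h⟩ := thK_decay k χ hχ
  refine IsBigO.of_bound C ?_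
  filter_upwards [eventually_ge_atTop 1] with t ht
  rw [Complex.norm_real, Real.norm_eq_abs, Real.norm_of_nonneg (Real.exp_pos _).le]
  exact h t ht

theorem thK_top' {q : ℕ} [NeZero q] (k : ℕ) (χ : DirichletCharacter ℂ q) (hχ : χ ≠ 1) (b : ℝ) :
    (fun t => (thK k χ t : ℂ)) =O[atTop] fun t : ℝ => t ^ b := by
  have hq : (0 : ℝ) < q := by
    have := Nat.pos_of_ne_zero (NeZero.ne q)
    exact_mod_cast this
  exact (thK_top k χ hχ).trans (isLittleO_exp_neg_mul_rpow_atTop (by positivity) b).isBigO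

theorem thK_bot {q : ℕ} [NeZero q] (k : ℕ) (χ : DirichletCharacter ℂ q) (hχ : χ ≠ 1)
    (w : ℝ) (hfe : ∀ t : ℝ, 0 < t → thK k χ (1 / t) = w * t ^ ((k : ℝ) + 1 / 2) * thK k χ t)
    (b : ℝ) : (fun t => (thK k χ t : ℂ)) =O[𝓝[>] 0] fun t : ℝ => t ^ (-b) := by
  have h1 := (thK_top' k χ hχ (b - ((k : ℝ) + 1 / 2))).comp_tendsto
    (tendsto_inv_nhdsGT_zero (𝕜 := ℝ))
  obtain ⟨C, hC⟩ := h1.bound
  refine IsBigO.of_bound (|w| * C) ?_
  filter_upwards [hC, self_mem_nhdsWithin] with t ht ht0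
  have ht0' : (0 : ℝ) < t := ht0
  have hi : 0 < t⁻¹ := inv_pos.mpr ht0'
  have h2 := hfe t⁻¹ hi
  rw [one_div, inv_inv] at h2
  simp only [Function.comp_apply, Complex.norm_real] at ht
  rw [Complex.norm_real, h2, norm_mul, norm_mul, Real.norm_eq_abs w]
  have h3 : ‖t⁻¹ ^ ((k : ℝ) + 1 / 2)‖ = t⁻¹ ^ ((k : ℝ) + 1 / 2) :=
    Real.norm_of_nonneg (by positivity)
  have h4 : ‖t⁻¹ ^ (b - ((k : ℝ) + 1 / 2))‖ = t⁻¹ ^ (b - ((k : ℝ) + 1 / 2)) :=
    Real.norm_of_nonneg (by positivity)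
  have h5 : ‖t ^ (-b)‖ = t⁻¹ ^ b := by
    rw [Real.norm_of_nonneg (by positivity), Real.rpow_neg ht0'.le, Real.inv_rpow ht0'.le]
  rw [h4] at ht
  rw [h3, h5]
  calc |w| * t⁻¹ ^ ((k : ℝ) + 1 / 2) * ‖thK k χ t⁻¹‖
      ≤ |w| * t⁻¹ ^ ((k : ℝ) + 1 / 2) * (C * t⁻¹ ^ (b - ((k : ℝ) + 1 / 2))) := by gcongr
    _ = |w| * C * (t⁻¹ ^ ((k : ℝ) + 1 / 2) * t⁻¹ ^ (b - ((k : ℝ) + 1 / 2))) := by ring
    _ = |w| * C * t⁻¹ ^ b := by
        rw [← Real.rpow_add hi]; congr 2; ring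

theorem thK_loc {q : ℕ} [NeZero q] (k : ℕ) (χ : DirichletCharacter ℂ q) :
    LocallyIntegrableOn (fun t => (thK k χ t : ℂ)) (Set.Ioi 0) := by
  refine ContinuousOn.locallyIntegrableOn ?_ measurableSet_Ioi
  exact Complex.continuous_ofReal.comp_continuousOn (thK_cont k χ)

theorem thK_conv {q : ℕ} [NeZero q] (k : ℕ) (χ : DirichletCharacter ℂ q) (hχ : χ ≠ 1)
    (w : ℝ) (hfe : ∀ t : ℝ, 0 < t → thK k χ (1 / t) = w * t ^ ((k : ℝ) + 1 / 2) * thK k χ t)
    (s : ℂ) : MellinConvergent (fun t => (thK k χ t : ℂ)) s :=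
  mellinConvergent_of_isBigO_rpow (a := s.re + 1) (b := s.re - 1) (thK_loc k χ)
    (thK_top' k χ hχ _) (by linarith) (thK_bot k χ hχ w hfe _) (by linarith)

theorem thK_diff {q : ℕ} [NeZero q] (k : ℕ) (χ : DirichletCharacter ℂ q) (hχ : χ ≠ 1)
    (w : ℝ) (hfe : ∀ t : ℝ, 0 < t → thK k χ (1 / t) = w * t ^ ((k : ℝ) + 1 / 2) * thK k χ t)
    (s : ℂ) : DifferentiableAt ℂ (mellin (fun t => (thK k χ t : ℂ))) s :=
  mellin_differentiableAt_of_isBigO_rpow (a := s.re + 1) (b := s.re - 1) (thK_loc k χ)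
    (thK_top' k χ hχ _) (by linarith) (thK_bot k χ hχ w hfe _) (by linarith)

/-- Mellin side of the functional equation. -/
theorem thK_mellin_fe {q : ℕ} [NeZero q] (k : ℕ) (χ : DirichletCharacter ℂ q)
    (w : ℝ) (hfe : ∀ t : ℝ, 0 < t → thK k χ (1 / t) = w * t ^ ((k : ℝ) + 1 / 2) * thK k χ t)
    (s : ℂ) : mellin (fun t => (thK k χ t : ℂ)) (-s) =
      w * mellin (fun t => (thK k χ t : ℂ)) (s + ((k : ℂ) + 1 / 2)) := by
  rw [← mellin_comp_inv, ← mellin_cpow_smul]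
  have h := mellin_const_smul (fun t : ℝ => (t : ℂ) ^ ((k : ℂ) + 1 / 2) • (thK k χ t : ℂ)) s (w : ℂ)
  rw [smul_eq_mul] at h
  rw [← h]
  refine setIntegral_congr_fun measurableSet_Ioi fun t ht => ?_
  have ht0 : (0 : ℝ) < t := ht
  have h2 := hfe t ht0
  rw [one_div] at h2
  simp only [smul_eq_mul]
  rw [h2]
  push_cast
  rw [Complex.ofReal_cpow ht0.le]
  push_cast
  ring

theorem thK_real {q : ℕ} (χ : DirichletCharacter ℂ q) (h : RealChar χ) (a : ZMod q) :
    (((χ a).re : ℝ) : ℂ) = χ a := by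
  rcases h a with h | h | h <;> rw [h] <;> simp

theorem thK_hs_congr {ι : Type*} {f g : ι → ℂ} {a : ℂ} (hf : HasSum f a)
    (h : ∀ i, g i = f i) : HasSum g a := by
  have : g = f := funext h
  rw [this]
  exact hf

/-- The Mellin transform to the right of the line of absolute convergence. -/
theorem thK_mellin_one {q : ℕ} [NeZero q] (k : ℕ) (χ : DirichletCharacter ℂ q) (hχ : χ ≠ 1)
    (h : RealChar χ) (s : ℂ) (hs : 1 < s.re) :
    mellin (fun t => (thK k χ t : ℂ)) ((s + k) / 2) =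
      Complex.Gammaℝ (s + k) * (q : ℂ) ^ ((s + k) / 2) * DirichletCharacter.LFunction χ s := by
  have hq : (0 : ℝ) < q := by
    have := Nat.pos_of_ne_zero (NeZero.ne q)
    exact_mod_cast this
  have hsq : (0 : ℝ) < Real.sqrt q := Real.sqrt_pos.mpr hq
  have hre : (s + (k : ℂ)).re = s.re + k := by simp
  have h0 : ∀ d : ℕ, (d : ℝ) / Real.sqrt q = 0 ↔ d = 0 := by
    intro d
    rw [div_eq_zero_iff]
    constructor
    · rintro (h | h)
      · exact_mod_cast h
      · exact absurd h hsq.ne'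
    · rintro rfl
      left; simp
  have key := hasSum_mellin_pi_mul_sq (ι := ℕ)
    (a := fun d : ℕ => (d : ℂ) ^ k * χ (d : ZMod q)) (r := fun d : ℕ => (d : ℝ) / Real.sqrt q)
    (F := fun t => (thK k χ t : ℂ)) (s := s + k) (by rw [hre]; positivity) ?_ ?_
  · -- evaluation
    have hL : HasSum (LSeries.term (fun n : ℕ => χ (n : ZMod q)) s)
        (LSeries (fun n : ℕ => χ (n : ZMod q)) s) :=
      (DirichletCharacter.LSeriesSummable_of_one_lt_re χ hs).LSeriesHasSum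
    have hL2 := hL.mul_left (Complex.Gammaℝ (s + k) * (q : ℂ) ^ ((s + k) / 2))
    rw [DirichletCharacter.LFunction_eq_LSeries χ hs]
    refine key.unique ?_
    refine thK_hs_congr hL2 fun d => ?_
    rcases Nat.eq_zero_or_pos d with rfl | hd
    · rw [thK_chi_zero χ hχ]
      simp
    · have hd0 : (0 : ℝ) < d := by exact_mod_cast hd
      have hdc : (d : ℂ) ≠ 0 := by exact_mod_cast hd.ne'
      rw [LSeries.term_of_ne_zero hd.ne']
      have e1 : |(d : ℝ) / Real.sqrt q| = (d : ℝ) / Real.sqrt q :=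
        abs_of_pos (by positivity)
      rw [e1]
      push_cast
      rw [← Complex.ofReal_natCast d, Complex.div_cpow_ofReal_nonneg hd0.le hsq.le]
      have e2 : ((Real.sqrt q : ℝ) : ℂ) ^ (s + (k : ℂ)) = (q : ℂ) ^ ((s + (k : ℂ)) / 2) := by
        rw [Real.sqrt_eq_rpow, ← Complex.cpow_mul_ofReal_nonneg hq.le]
        congr 1
        push_cast
        ring
      rw [e2]
      have e3 : ((d : ℝ) : ℂ) ^ (s + (k : ℂ)) = ((d : ℝ) : ℂ) ^ s * ((d : ℝ) : ℂ) ^ k := by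
        rw [Complex.cpow_add _ _ (by simpa using hdc), Complex.cpow_natCast]
      rw [e3]
      have n1 : ((d : ℝ) : ℂ) ^ k ≠ 0 := pow_ne_zero _ (by simpa using hdc)
      have n2 : ((d : ℝ) : ℂ) ^ s ≠ 0 := by
        rw [Complex.cpow_ne_zero_iff]; left; simpa using hdc
      have n3 : (q : ℂ) ^ ((s + (k : ℂ)) / 2) ≠ 0 := by
        rw [Complex.cpow_ne_zero_iff]; left; exact_mod_cast hq.ne'
      field_simp
  · intro t ht
    have ht0 : (0 : ℝ) < t := ht
    have h1 := (thK_summable k χ ht0).hasSum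
    have h2 := Complex.hasSum_ofReal.mpr h1
    refine thK_hs_congr h2 fun d => ?_
    simp only [h0]
    split_ifs with hd
    · subst hd
      rw [thK_chi_zero χ hχ]
      simp
    · push_cast
      rw [thK_real χ h]
      congr 2
      rw [div_pow]
      have : ((Real.sqrt q : ℝ) : ℂ) ^ 2 = (q : ℂ) := by
        rw [← Complex.ofReal_pow, Real.sq_sqrt hq.le]; simp
      rw [this]
      ring
  · rw [hre]
    have h1 : Summable fun d : ℕ => Real.sqrt q ^ (s.re + k) * ((d : ℝ) ^ s.re)⁻¹ :=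
      (Real.summable_nat_rpow_inv.mpr hs).mul_left _
    refine Summable.of_nonneg_of_le (fun d => by positivity) (fun d => ?_) h1
    rcases Nat.eq_zero_or_pos d with rfl | hd
    · rw [thK_chi_zero χ hχ]
      simp only [mul_zero, norm_zero, zero_div]
      positivity
    · have hd0 : (0 : ℝ) < d := by exact_mod_cast hd
      have e1 : |(d : ℝ) / Real.sqrt q| = (d : ℝ) / Real.sqrt q :=
        abs_of_pos (by positivity)
      rw [e1, Real.div_rpow hd0.le hsq.le, Real.rpow_add hd0, Real.rpow_natCast, norm_mul, norm_pow,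
        Complex.norm_natCast]
      have e2 := χ.norm_le_one (d : ZMod q)
      rw [div_div_eq_mul_div, div_le_iff₀ (by positivity)]
      have e3 : Real.sqrt q ^ (s.re + (k : ℝ)) * ((d : ℝ) ^ s.re)⁻¹ * ((d : ℝ) ^ s.re * (d : ℝ) ^ k) =
        (d : ℝ) ^ k * 1 * Real.sqrt q ^ (s.re + (k : ℝ)) := by
        have : (d : ℝ) ^ s.re ≠ 0 := (Real.rpow_pos_of_pos hd0 _).ne'
        field_simp
      rw [e3]
      gcongr

/-- The Mellin transform at the edge. -/
theorem thK_mellin_edge {q : ℕ} [NeZero q] (k : ℕ) (χ : DirichletCharacter ℂ q) (hχ : χ ≠ 1)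
    (h : RealChar χ) (w : ℝ)
    (hfe : ∀ t : ℝ, 0 < t → thK k χ (1 / t) = w * t ^ ((k : ℝ) + 1 / 2) * thK k χ t) :
    mellin (fun t => (thK k χ t : ℂ)) ((1 + k) / 2) =
      Complex.Gammaℝ (1 + k) * (q : ℂ) ^ ((1 + (k : ℂ)) / 2) *
        DirichletCharacter.LFunction χ 1 := by
  have hq : (q : ℂ) ≠ 0 := by exact_mod_cast NeZero.ne q
  have hG : Complex.Gammaℝ (1 + k) ≠ 0 := Complex.Gammaℝ_ne_zero_of_re_pos (by
    simp only [Complex.add_re, Complex.one_re, Complex.natCast_re]; positivity)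
  have hc : Tendsto (fun x : ℝ => (x : ℂ)) (𝓝[>] (1 : ℝ)) (𝓝 (1 : ℂ)) := by
    have : Continuous (fun x : ℝ => (x : ℂ)) := Complex.continuous_ofReal
    have h2 := this.tendsto (1 : ℝ)
    simp only [Complex.ofReal_one] at h2
    exact h2.mono_left nhdsWithin_le_nhds
  have hl : ContinuousAt (fun s : ℂ => (Complex.Gammaℝ (s + k))⁻¹ *
      mellin (fun t => (thK k χ t : ℂ)) ((s + k) / 2)) 1 := by
    refine ContinuousAt.mul ?_ ?_
    · exact (Complex.differentiable_Gammaℝ_inv.continuous.comp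
        (continuous_id.add continuous_const)).continuousAt
    · have h1 : ContinuousAt (mellin (fun t => (thK k χ t : ℂ))) ((1 + (k : ℂ)) / 2) :=
        (thK_diff k χ hχ w hfe _).continuousAt
      have h2 : ContinuousAt (fun s : ℂ => (s + (k : ℂ)) / 2) 1 := by fun_prop
      exact ContinuousAt.comp (f := fun s : ℂ => (s + (k : ℂ)) / 2) (x := 1) h1 h2
  have hr : ContinuousAt (fun s : ℂ => (q : ℂ) ^ ((s + (k : ℂ)) / 2) *
      DirichletCharacter.LFunction χ s) 1 := by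
    refine ContinuousAt.mul ?_
      (DirichletCharacter.differentiable_LFunction hχ).continuous.continuousAt
    have h2 : ContinuousAt (fun s : ℂ => (s + (k : ℂ)) / 2) 1 := by fun_prop
    exact h2.const_cpow (Or.inl hq)
  have e1 := hl.tendsto.comp hc
  have e2 := hr.tendsto.comp hc
  have e3 := tendsto_nhds_unique_of_eventuallyEq e1 e2 ?_
  · have e4 : mellin (fun t => (thK k χ t : ℂ)) ((1 + k) / 2) = Complex.Gammaℝ (1 + k) *
      ((Complex.Gammaℝ (1 + k))⁻¹ * mellin (fun t => (thK k χ t : ℂ)) ((1 + k) / 2)) := by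
      field_simp
    rw [e4, e3]
    ring
  · filter_upwards [self_mem_nhdsWithin] with x hx
    have hx1 : (1 : ℝ) < x := hx
    have hG : Complex.Gammaℝ ((x : ℂ) + k) ≠ 0 := Complex.Gammaℝ_ne_zero_of_re_pos (by
      simp only [Complex.add_re, Complex.ofReal_re, Complex.natCast_re]; positivity)
    simp only [Function.comp_apply]
    rw [thK_mellin_one k χ hχ h (x : ℂ) (by simpa using hx1)]
    field_simp

/-- Real integrals of `thK (s²) s^c`. -/
theorem thK_sq {q : ℕ} [NeZero q] (k : ℕ) (χ : DirichletCharacter ℂ q) (hχ : χ ≠ 1)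
    (w : ℝ) (hfe : ∀ t : ℝ, 0 < t → thK k χ (1 / t) = w * t ^ ((k : ℝ) + 1 / 2) * thK k χ t)
    (c : ℝ) : IntegrableOn (fun s : ℝ => thK k χ (s ^ 2) * s ^ c) (Set.Ioi 0) ∧
      ((∫ s in Set.Ioi (0 : ℝ), thK k χ (s ^ 2) * s ^ c : ℝ) : ℂ) =
        1 / 2 * mellin (fun t => (thK k χ t : ℂ)) (((c : ℂ) + 1) / 2) := by
  have e : ∀ t ∈ Set.Ioi (0 : ℝ), ((t : ℂ) ^ ((c : ℂ) + 1 - 1) •
      ((thK k χ (t ^ (2 : ℝ)) : ℝ) : ℂ)) = ((thK k χ (t ^ 2) * t ^ c : ℝ) : ℂ) := by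
    intro t ht
    have ht0 : (0 : ℝ) < t := ht
    rw [add_sub_cancel_right, smul_eq_mul, Real.rpow_two, Complex.ofReal_mul,
      Complex.ofReal_cpow ht0.le, mul_comm]
  have h1 := (MellinConvergent.comp_rpow (f := fun t => (thK k χ t : ℂ)) (s := (c : ℂ) + 1)
    (a := 2) (by norm_num)).mpr (by
      have := thK_conv k χ hχ w hfe (((c : ℂ) + 1) / 2)
      simpa using this)
  have h2 : IntegrableOn (fun t : ℝ => ((thK k χ (t ^ 2) * t ^ c : ℝ) : ℂ)) (Set.Ioi 0) :=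
    (integrableOn_congr_fun e measurableSet_Ioi).mp h1
  refine ⟨?_, ?_⟩
  · have h3 := h2.re
    simpa [IntegrableOn] using h3
  · have h3 := mellin_comp_rpow (fun t => (thK k χ t : ℂ)) ((c : ℂ) + 1) 2
    rw [mellin, setIntegral_congr_fun measurableSet_Ioi e, integral_complex_ofReal] at h3
    rw [h3]
    simp only [abs_of_pos (by norm_num : (0 : ℝ) < 2), Complex.real_smul]
    push_cast
    ring

end Pool.Agent.GLI
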