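import Pool.Agent.GLI.Defs

set_option autoImplicit false

/-!
Module Var (second moment). `φ = 1_{‖·‖ < δ}` (1-periodic). `∫_0^1 φ(t β) = 2 δ` for `t ≥ 1`.
For `t, t' ≥ 1`, `g = gcd`, `a = t/g`, `b = t'/g` coprime: `∫ φ(t β) φ(t' β) = ∫ φ(a β) φ(b β)`
and, averaging over the shifts `β + i/b`, this is at most `(1/b) (2 δ b + 1) 2 δ`. The variance of
`X = ∑_{t ∈ T} φ(t β)` is at most `2 δ |T| Tau (2 + log H)`, the mean is `2 δ |T|`, and Chebyshev
for `X = 0`.
-/

open Finset Filter MeasureTheory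

namespace Pool.Agent.GLI

section aux

open intervalIntegral

/-- The indicator function of `‖x‖ < δ`. -/
noncomputable def vph (δ x : ℝ) : ℝ := if nr x < δ then 1 else 0

theorem nr_eq_min (x : ℝ) : nr x = min (Int.fract x) (1 - Int.fract x) := by
  unfold nr
  exact abs_sub_round_eq_min x

theorem vph_nonneg (δ x : ℝ) : 0 ≤ vph δ x := by
  unfold vph
  split_ifs <;> norm_num

theorem vph_le_one (δ x : ℝ) : vph δ x ≤ 1 := by
  unfold vph
  split_ifs <;> norm_num

theorem vph_periodic (δ : ℝ) : Function.Periodic (vph δ) 1 := by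
  intro x
  unfold vph
  rw [nr_eq_min, nr_eq_min, Int.fract_add_one]

theorem nr_measurable : Measurable nr := by
  have : nr = fun x => min (Int.fract x) (1 - Int.fract x) := funext nr_eq_min
  rw [this]
  exact measurable_fract.min (measurable_const.sub measurable_fract)

theorem vph_measurable (δ : ℝ) : Measurable (vph δ) := by
  unfold vph
  exact Measurable.ite (measurableSet_lt nr_measurable measurable_const) measurable_const
    measurable_const

theorem intervalIntegrable_of_bdd {f : ℝ → ℝ} (hf : Measurable f) (C : ℝ) (hC : ∀ x, |f x| ≤ C)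
    (a b : ℝ) : IntervalIntegrable f volume a b := by
  have h1 : IntervalIntegrable (fun _ : ℝ => C) volume a b := intervalIntegrable_const
  refine h1.mono_fun hf.aestronglyMeasurable (Filter.Eventually.of_forall fun x => ?_)
  show ‖f x‖ ≤ ‖C‖
  rw [Real.norm_eq_abs, Real.norm_eq_abs]
  exact (hC x).trans (le_abs_self C)

theorem integral_comp_nat_mul {f : ℝ → ℝ} (hf : Measurable f) (C : ℝ) (hC : ∀ x, |f x| ≤ C)
    (hper : Function.Periodic f 1) {g : ℕ} (hg : 0 < g) :
    ∫ x in (0 : ℝ)..1, f (g * x) = ∫ x in (0 : ℝ)..1, f x := by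
  have hg' : (g : ℝ) ≠ 0 := by exact_mod_cast hg.ne'
  rw [intervalIntegral.integral_comp_mul_left (fun x => f x) hg']
  have h := hper.intervalIntegral_add_zsmul_eq (g : ℤ) 0
    (fun a b => intervalIntegrable_of_bdd hf C hC a b)
  rw [zero_add, zero_add] at h
  have h2 : ((g : ℤ) • (1 : ℝ)) = g * 1 := by simp
  rw [h2] at h
  rw [mul_zero, h]
  simp only [smul_eq_mul, zsmul_eq_mul, Int.cast_natCast]
  rw [← mul_assoc, inv_mul_cancel₀ hg', one_mul]

theorem integral_shift {f : ℝ → ℝ} (hper : Function.Periodic f 1) (c : ℝ) :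
    ∫ x in (0 : ℝ)..1, f (x + c) = ∫ x in (0 : ℝ)..1, f x := by
  rw [intervalIntegral.integral_comp_add_right (fun x => f x)]
  have := hper.intervalIntegral_add_eq (0 + c) 0
  rw [zero_add] at this
  rw [zero_add, add_comm 1 c, this, zero_add]

theorem integral_vph {δ : ℝ} (hδ : 0 < δ) (hδ2 : δ ≤ 1 / 2) :
    ∫ x in (0 : ℝ)..1, vph δ x = 2 * δ := by
  have h1 : ∫ x in (0 : ℝ)..1, vph δ x =
      (∫ x in (0 : ℝ)..δ, vph δ x) + ((∫ x in δ..(1 - δ), vph δ x) +
        ∫ x in (1 - δ)..1, vph δ x) := by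
    rw [intervalIntegral.integral_add_adjacent_intervals,
      intervalIntegral.integral_add_adjacent_intervals] <;>
    exact intervalIntegrable_of_bdd (vph_measurable δ) 1
      (fun x => by rw [abs_of_nonneg (vph_nonneg δ x)]; exact vph_le_one δ x) _ _
  have hfr : ∀ x : ℝ, 0 < x → x < 1 → Int.fract x = x := fun x hx hx1 =>
    Int.fract_eq_self.2 ⟨hx.le, hx1⟩
  have h2 : ∫ x in (0 : ℝ)..δ, vph δ x = ∫ x in (0 : ℝ)..δ, (1 : ℝ) := by
    refine intervalIntegral.integral_congr_Ioo_of_le hδ.le fun x hx => ?_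
    show vph δ x = 1
    unfold vph
    rw [if_pos]
    rw [nr_eq_min, hfr x hx.1 (by linarith [hx.2])]
    exact (min_le_left _ _).trans_lt hx.2
  have h3 : ∫ x in δ..(1 - δ), vph δ x = ∫ x in δ..(1 - δ), (0 : ℝ) := by
    refine intervalIntegral.integral_congr_Ioo_of_le (by linarith) fun x hx => ?_
    show vph δ x = 0
    unfold vph
    rw [if_neg]
    rw [nr_eq_min, hfr x (by linarith [hx.1]) (by linarith [hx.2]), not_lt]
    exact le_min hx.1.le (by linarith [hx.2])
  have h4 : ∫ x in (1 - δ)..1, vph δ x = ∫ x in (1 - δ)..1, (1 : ℝ) := by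
    refine intervalIntegral.integral_congr_Ioo_of_le (by linarith) fun x hx => ?_
    show vph δ x = 1
    unfold vph
    rw [if_pos]
    rw [nr_eq_min, hfr x (by linarith [hx.1]) hx.2]
    exact (min_le_right _ _).trans_lt (by linarith [hx.1])
  rw [h1, h2, h3, h4]
  simp
  ring


/-- At most `2 δ b + 1` of the points `j / b + x` are within `δ` of an integer. -/
theorem card_near_le {δ : ℝ} {b : ℕ} (hb : 0 < b) (x : ℝ) :
    ∑ j ∈ range b, vph δ ((j : ℝ) / b + x) ≤ max (2 * δ * b + 1) 0 := by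
  classical
  have hb' : (0 : ℝ) < b := by exact_mod_cast hb
  have h1 : ∑ j ∈ range b, vph δ ((j : ℝ) / b + x) =
      (((range b).filter fun j : ℕ => nr ((j : ℝ) / b + x) < δ).card : ℝ) := by
    unfold vph
    rw [Finset.sum_ite, Finset.sum_const_zero, add_zero, Finset.sum_const, nsmul_eq_mul, mul_one]
  rw [h1]
  let u : ℝ := -(x * b) - δ * b
  let v : ℝ := -(x * b) + δ * b
  let F : ℕ → ℤ := fun j => (j : ℤ) - round ((j : ℝ) / b + x) * b
  have hmaps : ∀ j ∈ (range b).filter fun j : ℕ => nr ((j : ℝ) / b + x) < δ,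
      F j ∈ Finset.Icc (⌊u⌋ + 1) (⌈v⌉ - 1) := by
    intro j hj
    have hj2 := (mem_filter.1 hj).2
    unfold nr at hj2
    rw [abs_lt] at hj2
    obtain ⟨ha, hc⟩ := hj2
    have key : (F j : ℝ) = ((j : ℝ) / b + x - round ((j : ℝ) / b + x)) * b - x * b := by
      simp only [F]
      push_cast
      field_simp
      ring
    rw [mem_Icc]
    constructor
    · have : ⌊u⌋ < F j := by
        rw [Int.floor_lt, key]
        simp only [u]
        nlinarith
      omega
    · have : F j < ⌈v⌉ := by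
        rw [Int.lt_ceil, key]
        simp only [v]
        nlinarith
      omega
  have hinj : Set.InjOn F ((range b).filter fun j : ℕ => nr ((j : ℝ) / b + x) < δ) := by
    intro i hi j hj hij
    have hi1 := mem_range.1 (mem_filter.1 (Finset.mem_coe.1 hi)).1
    have hj1 := mem_range.1 (mem_filter.1 (Finset.mem_coe.1 hj)).1
    simp only [F] at hij
    have h2 : (i : ℤ) % b = (j : ℤ) % b := by
      have h3 : (i : ℤ) = j + (round ((i : ℝ) / b + x) - round ((j : ℝ) / b + x)) * b := by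
        linear_combination hij
      rw [h3, Int.add_mul_emod_self_right]
    rw [Int.emod_eq_of_lt (by positivity) (by exact_mod_cast hi1),
      Int.emod_eq_of_lt (by positivity) (by exact_mod_cast hj1)] at h2
    exact_mod_cast h2
  have hcard := Finset.card_le_card_of_injOn F hmaps hinj
  have h3 : ((Finset.Icc (⌊u⌋ + 1) (⌈v⌉ - 1)).card : ℝ) ≤ max (2 * δ * b + 1) 0 := by
    rw [Int.card_Icc]
    rcases le_total 0 (⌈v⌉ - 1 + 1 - (⌊u⌋ + 1)) with h | h
    · refine le_max_of_le_left ?_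
      have h4 : (((⌈v⌉ - 1 + 1 - (⌊u⌋ + 1)).toNat : ℕ) : ℝ) =
          ((⌈v⌉ - 1 + 1 - (⌊u⌋ + 1) : ℤ) : ℝ) := by
        exact_mod_cast Int.toNat_of_nonneg h
      rw [h4]
      push_cast
      have h5 := Int.ceil_lt_add_one v
      have h6 := Int.lt_floor_add_one u
      have h7 : v - u = 2 * δ * b := by
        simp only [u, v]
        ring
      linarith
    · refine le_max_of_le_right ?_
      rw [Int.toNat_of_nonpos h]
      simp
  exact (by exact_mod_cast hcard : (((range b).filter fun j : ℕ =>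
    nr ((j : ℝ) / b + x) < δ).card : ℝ) ≤ ((Finset.Icc (⌊u⌋ + 1) (⌈v⌉ - 1)).card : ℝ)).trans h3

theorem vph_add_int (δ x : ℝ) (k : ℤ) : vph δ (x + k) = vph δ x := by
  have := (vph_periodic δ).int_mul k x
  rw [mul_one] at this
  exact this

theorem sum_shift_le {δ : ℝ} (hδ : 0 < δ) {a b : ℕ} (hb : 0 < b) (hab : a.Coprime b) (x : ℝ) :
    ∑ i ∈ range b, vph δ (a * (x + (i : ℝ) / b)) ≤ 2 * δ * b + 1 := by
  have hb' : (b : ℝ) ≠ 0 := by exact_mod_cast hb.ne'
  have h1 : ∑ i ∈ range b, vph δ (a * (x + (i : ℝ) / b)) =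
      ∑ j ∈ range b, vph δ ((j : ℝ) / b + a * x) := by
    refine Finset.sum_nbij (fun i => (a * i) % b) ?_ ?_ ?_ ?_
    · intro i _
      exact mem_range.2 (Nat.mod_lt _ hb)
    · intro i hi j hj hij
      have hi1 := mem_range.1 (Finset.mem_coe.1 hi)
      have hj1 := mem_range.1 (Finset.mem_coe.1 hj)
      have h2 : a * i ≡ a * j [MOD b] := hij
      have h3 : i ≡ j [MOD b] := Nat.ModEq.cancel_left_of_coprime hab.symm h2
      have h4 : i % b = j % b := h3
      rwa [Nat.mod_eq_of_lt hi1, Nat.mod_eq_of_lt hj1] at h4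
    · have hinj : Set.InjOn (fun i => (a * i) % b) (range b) := by
        intro i hi j hj hij
        have hi1 := mem_range.1 (Finset.mem_coe.1 hi)
        have hj1 := mem_range.1 (Finset.mem_coe.1 hj)
        have h2 : a * i ≡ a * j [MOD b] := hij
        have h3 : i ≡ j [MOD b] := Nat.ModEq.cancel_left_of_coprime hab.symm h2
        have h4 : i % b = j % b := h3
        rwa [Nat.mod_eq_of_lt hi1, Nat.mod_eq_of_lt hj1] at h4
      have hmaps : Set.MapsTo (fun i => (a * i) % b) (range b) (range b) := by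
        intro i _
        exact Finset.mem_coe.2 (mem_range.2 (Nat.mod_lt _ hb))
      exact Finset.surjOn_of_injOn_of_card_le _ hmaps hinj le_rfl
    · intro i _
      have h2 : (a : ℝ) * (x + (i : ℝ) / b) =
          (((a * i) % b : ℕ) : ℝ) / b + a * x + (((a * i) / b : ℕ) : ℤ) := by
        have h3 : ((a * i : ℕ) : ℝ) = (((a * i) % b : ℕ) : ℝ) + b * (((a * i) / b : ℕ) : ℝ) := by
          exact_mod_cast (Nat.mod_add_div (a * i) b).symm
        rw [Nat.cast_mul] at h3
        generalize (a * i) % b = c at h3 ⊢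
        generalize (a * i) / b = d at h3 ⊢
        push_cast
        field_simp
        linarith
      rw [h2, vph_add_int]
  rw [h1]
  refine (card_near_le hb _).trans ?_
  rw [max_eq_left (by positivity)]

theorem pair_coprime {δ : ℝ} (hδ : 0 < δ) (hδ2 : δ ≤ 1 / 2) {a b : ℕ} (hb : 0 < b)
    (hab : a.Coprime b) :
    ∫ x in (0 : ℝ)..1, vph δ (a * x) * vph δ (b * x) ≤ 4 * δ ^ 2 + 2 * δ / b := by
  have hb' : (0 : ℝ) < b := by exact_mod_cast hb
  have hmeas : ∀ c : ℝ, Measurable fun x : ℝ => vph δ (c * x) := fun c =>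
    (vph_measurable δ).comp (measurable_const.mul measurable_id)
  have hG : ∀ c : ℝ, Measurable fun x : ℝ => vph δ (a * (x + c)) * vph δ (b * (x + c)) := by
    intro c
    exact ((hmeas a).comp (measurable_id.add_const c)).mul
      ((hmeas b).comp (measurable_id.add_const c))
  have hGb : ∀ c : ℝ, ∀ x : ℝ, |vph δ (a * (x + c)) * vph δ (b * (x + c))| ≤ 1 := by
    intro c x
    rw [abs_of_nonneg (mul_nonneg (vph_nonneg _ _) (vph_nonneg _ _))]
    exact mul_le_one₀ (vph_le_one _ _) (vph_nonneg _ _) (vph_le_one _ _)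
  have hper : Function.Periodic (fun x : ℝ => vph δ (a * x) * vph δ (b * x)) 1 := by
    intro x
    show vph δ (a * (x + 1)) * vph δ (b * (x + 1)) = _
    have e1 : (a : ℝ) * (x + 1) = a * x + ((a : ℤ) : ℝ) := by push_cast; ring
    have e2 : (b : ℝ) * (x + 1) = b * x + ((b : ℤ) : ℝ) := by push_cast; ring
    rw [e1, e2, vph_add_int, vph_add_int]
  have h1 : (b : ℝ) * ∫ x in (0 : ℝ)..1, vph δ (a * x) * vph δ (b * x) =
      ∫ x in (0 : ℝ)..1, vph δ (b * x) * ∑ i ∈ range b, vph δ (a * (x + (i : ℝ) / b)) := by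
    have h2 : ∀ i ∈ range b, ∫ x in (0 : ℝ)..1, vph δ (a * x) * vph δ (b * x) =
        ∫ x in (0 : ℝ)..1, vph δ (a * (x + (i : ℝ) / b)) * vph δ (b * (x + (i : ℝ) / b)) := by
      intro i _
      exact (integral_shift hper ((i : ℝ) / b)).symm
    have h3 : (b : ℝ) * ∫ x in (0 : ℝ)..1, vph δ (a * x) * vph δ (b * x) =
        ∑ i ∈ range b, ∫ x in (0 : ℝ)..1,
          vph δ (a * (x + (i : ℝ) / b)) * vph δ (b * (x + (i : ℝ) / b)) := by
      rw [← Finset.sum_congr rfl h2, Finset.sum_const, card_range, nsmul_eq_mul]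
    rw [h3, ← intervalIntegral.integral_finsetSum]
    · refine intervalIntegral.integral_congr fun x _ => ?_
      show ∑ i ∈ range b, vph δ (a * (x + (i : ℝ) / b)) * vph δ (b * (x + (i : ℝ) / b)) = _
      rw [Finset.mul_sum]
      refine Finset.sum_congr rfl fun i _ => ?_
      have e : (b : ℝ) * (x + (i : ℝ) / b) = b * x + ((i : ℤ) : ℝ) := by
        push_cast
        field_simp
      rw [e, vph_add_int, mul_comm]
    · intro i _
      exact intervalIntegrable_of_bdd (hG _) 1 (hGb _) _ _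
  have hmS : Measurable fun x : ℝ => ∑ i ∈ range b, vph δ (a * (x + (i : ℝ) / b)) :=
    Finset.measurable_fun_sum _ fun i _ => (hmeas a).comp (measurable_id.add_const _)
  have h4 : ∫ x in (0 : ℝ)..1, vph δ (b * x) * ∑ i ∈ range b, vph δ (a * (x + (i : ℝ) / b)) ≤
      ∫ x in (0 : ℝ)..1, vph δ (b * x) * (2 * δ * b + 1) := by
    refine intervalIntegral.integral_mono_on (by norm_num) ?_ ?_ fun x _ => ?_
    · refine intervalIntegrable_of_bdd ((hmeas b).mul hmS) (2 * δ * b + 1) (fun x => ?_) _ _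
      show |vph δ (b * x) * ∑ i ∈ range b, vph δ (a * (x + (i : ℝ) / b))| ≤ _
      rw [abs_of_nonneg (mul_nonneg (vph_nonneg _ _)
        (Finset.sum_nonneg fun i _ => vph_nonneg _ _))]
      calc vph δ (b * x) * ∑ i ∈ range b, vph δ (a * (x + (i : ℝ) / b))
          ≤ 1 * (2 * δ * b + 1) :=
            mul_le_mul (vph_le_one _ _) (sum_shift_le hδ hb hab x)
              (Finset.sum_nonneg fun i _ => vph_nonneg _ _) zero_le_one
        _ = 2 * δ * b + 1 := one_mul _
    · refine intervalIntegrable_of_bdd ((hmeas b).mul measurable_const) (2 * δ * b + 1)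
        (fun x => ?_) _ _
      show |vph δ (b * x) * (2 * δ * b + 1)| ≤ _
      rw [abs_of_nonneg (mul_nonneg (vph_nonneg _ _) (by positivity))]
      calc vph δ (b * x) * (2 * δ * b + 1) ≤ 1 * (2 * δ * b + 1) :=
            mul_le_mul_of_nonneg_right (vph_le_one _ _) (by positivity)
        _ = 2 * δ * b + 1 := one_mul _
    · exact mul_le_mul_of_nonneg_left (sum_shift_le hδ hb hab x) (vph_nonneg _ _)
  have h5 : ∫ x in (0 : ℝ)..1, vph δ (b * x) * (2 * δ * b + 1) = 2 * δ * (2 * δ * b + 1) := by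
    rw [intervalIntegral.integral_mul_const,
      integral_comp_nat_mul (vph_measurable δ) 1 (fun x => by
        rw [abs_of_nonneg (vph_nonneg δ x)]; exact vph_le_one δ x) (vph_periodic δ) hb,
      integral_vph hδ hδ2]
  have h6 : (b : ℝ) * ∫ x in (0 : ℝ)..1, vph δ (a * x) * vph δ (b * x) ≤
      2 * δ * (2 * δ * b + 1) := by
    rw [h1]
    exact h4.trans_eq h5
  have h7 : 4 * δ ^ 2 + 2 * δ / b = (2 * δ * (2 * δ * b + 1)) / b := by
    field_simp
    ring
  rw [h7, le_div_iff₀ hb', mul_comm]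
  exact h6

theorem pair_int {δ : ℝ} (hδ : 0 < δ) (hδ2 : δ ≤ 1 / 2) {s t : ℕ} (hs : 0 < s) (ht : 0 < t) :
    ∫ x in (0 : ℝ)..1, vph δ (s * x) * vph δ (t * x) ≤
      4 * δ ^ 2 + 2 * δ * ((Nat.gcd s t : ℝ) / (max s t : ℕ)) := by
  wlog hst : s ≤ t generalizing s t with H
  · have := H ht hs (le_of_not_ge hst)
    rw [Nat.gcd_comm, max_comm]
    refine le_trans (le_of_eq ?_) this
    refine intervalIntegral.integral_congr fun x _ => ?_
    exact mul_comm _ _
  rw [max_eq_right hst]
  have hg : 0 < Nat.gcd s t := Nat.gcd_pos_of_pos_left _ hs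
  obtain ⟨a, ha⟩ := Nat.gcd_dvd_left s t
  obtain ⟨b, hb⟩ := Nat.gcd_dvd_right s t
  set g := Nat.gcd s t with hgdef
  have hb0 : 0 < b := by
    rcases Nat.eq_zero_or_pos b with h | h
    · rw [h, mul_zero] at hb; omega
    · exact h
  have hcop : a.Coprime b := by
    have h1 : g * Nat.gcd a b = g * 1 := by
      rw [← Nat.gcd_mul_left, ← ha, ← hb, mul_one]
    exact Nat.eq_of_mul_eq_mul_left hg h1
  have hmeas : Measurable fun x : ℝ => vph δ (a * x) * vph δ (b * x) :=
    ((vph_measurable δ).comp (measurable_const.mul measurable_id)).mul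
      ((vph_measurable δ).comp (measurable_const.mul measurable_id))
  have hper : Function.Periodic (fun x : ℝ => vph δ (a * x) * vph δ (b * x)) 1 := by
    intro x
    show vph δ (a * (x + 1)) * vph δ (b * (x + 1)) = _
    have e1 : (a : ℝ) * (x + 1) = a * x + ((a : ℤ) : ℝ) := by push_cast; ring
    have e2 : (b : ℝ) * (x + 1) = b * x + ((b : ℤ) : ℝ) := by push_cast; ring
    rw [e1, e2, vph_add_int, vph_add_int]
  have h1 := integral_comp_nat_mul hmeas 1 (fun x => by
    rw [abs_of_nonneg (mul_nonneg (vph_nonneg _ _) (vph_nonneg _ _))]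
    exact mul_le_one₀ (vph_le_one _ _) (vph_nonneg _ _) (vph_le_one _ _)) hper hg
  have h2 : ∫ x in (0 : ℝ)..1, vph δ (s * x) * vph δ (t * x) =
      ∫ x in (0 : ℝ)..1, vph δ (a * x) * vph δ (b * x) := by
    rw [← h1]
    refine intervalIntegral.integral_congr fun x _ => ?_
    show vph δ (s * x) * vph δ (t * x) = vph δ (a * (g * x)) * vph δ (b * (g * x))
    have e1 : (s : ℝ) = g * a := by exact_mod_cast ha
    have e2 : (t : ℝ) = g * b := by exact_mod_cast hb
    have e3 : (s : ℝ) * x = a * (g * x) := by rw [e1]; ring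
    have e4 : (t : ℝ) * x = b * (g * x) := by rw [e2]; ring
    rw [e3, e4]
  rw [h2]
  refine (pair_coprime hδ hδ2 hb0 hcop).trans (le_of_eq ?_)
  have e2 : (t : ℝ) = g * b := by exact_mod_cast hb
  have hg' : (g : ℝ) ≠ 0 := by exact_mod_cast hg.ne'
  have hb' : (b : ℝ) ≠ 0 := by exact_mod_cast hb0.ne'
  rw [e2]
  field_simp


/-- The sum over `t'` of `gcd(t, t') / max(t, t')`. -/
theorem gcd_sum_le {t H : ℕ} (ht : 1 ≤ t) (T : Finset ℕ) (hT : ∀ s ∈ T, 1 ≤ s ∧ s ≤ H) :
    ∑ s ∈ T, (Nat.gcd s t : ℝ) / (max s t : ℕ) ≤ t.divisors.card * (2 + Real.log H) := by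
  classical
  have hpos : ∀ s : ℕ, (0 : ℝ) < (max s t : ℕ) := fun s => by
    exact_mod_cast (by omega : 0 < max s t)
  have h1 : ∑ s ∈ T, (Nat.gcd s t : ℝ) / (max s t : ℕ) ≤
      ∑ s ∈ Icc 1 H, ∑ g ∈ t.divisors, if g ∣ s then (g : ℝ) / (max s t : ℕ) else 0 := by
    calc ∑ s ∈ T, (Nat.gcd s t : ℝ) / (max s t : ℕ)
        ≤ ∑ s ∈ Icc 1 H, (Nat.gcd s t : ℝ) / (max s t : ℕ) := by
          refine Finset.sum_le_sum_of_subset_of_nonneg (fun s hs => mem_Icc.2 (hT s hs)) ?_
          intro s _ _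
          exact div_nonneg (Nat.cast_nonneg _) (hpos s).le
      _ ≤ _ := by
          refine Finset.sum_le_sum fun s _ => ?_
          have hmem : Nat.gcd s t ∈ t.divisors :=
            Nat.mem_divisors.2 ⟨Nat.gcd_dvd_right s t, by omega⟩
          refine le_trans (le_of_eq ?_) (Finset.single_le_sum (f := fun g : ℕ =>
            if g ∣ s then (g : ℝ) / (max s t : ℕ) else 0) (fun g _ => ?_) hmem)
          · show _ = if Nat.gcd s t ∣ s then ((Nat.gcd s t : ℕ) : ℝ) / (max s t : ℕ) else 0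
            rw [if_pos (Nat.gcd_dvd_left s t)]
          · show 0 ≤ if g ∣ s then (g : ℝ) / (max s t : ℕ) else 0
            split_ifs
            · exact div_nonneg (Nat.cast_nonneg _) (hpos s).le
            · exact le_rfl
  refine h1.trans ?_
  rw [Finset.sum_comm]
  rw [← nsmul_eq_mul, ← Finset.sum_const]
  refine Finset.sum_le_sum fun g hg => ?_
  obtain ⟨J, hJ⟩ := Nat.dvd_of_mem_divisors hg
  have hg0 : 0 < g := Nat.pos_of_mem_divisors hg
  have hg' : (0 : ℝ) < g := by exact_mod_cast hg0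
  have hJ0 : 0 < J := by
    rcases Nat.eq_zero_or_pos J with h | h
    · rw [h, mul_zero] at hJ; omega
    · exact h
  have hJ' : (0 : ℝ) < J := by exact_mod_cast hJ0
  -- reindex by `s = g * j`
  have h2 : ∑ s ∈ Icc 1 H, (if g ∣ s then (g : ℝ) / (max s t : ℕ) else 0) ≤
      ∑ j ∈ Icc 1 H, (1 : ℝ) / (max j J : ℕ) := by
    rw [← Finset.sum_filter]
    have h3 : ∑ s ∈ (Icc 1 H).filter (fun s => g ∣ s), (g : ℝ) / (max s t : ℕ) =
        ∑ j ∈ ((Icc 1 H).filter fun s => g ∣ s).image (fun s => s / g),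
          (1 : ℝ) / (max j J : ℕ) := by
      rw [Finset.sum_image]
      · refine Finset.sum_congr rfl fun s hs => ?_
        obtain ⟨j, hj⟩ := (mem_filter.1 hs).2
        rw [hj, Nat.mul_div_cancel_left j hg0, hJ, Nat.mul_max_mul_left]
        push_cast
        field_simp
      · intro s hs s' hs' hss
        have e1 := (mem_filter.1 (Finset.mem_coe.1 hs)).2
        have e2 := (mem_filter.1 (Finset.mem_coe.1 hs')).2
        rw [← Nat.div_mul_cancel e1, ← Nat.div_mul_cancel e2]
        exact congrArg (· * g) hss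
    rw [h3]
    refine Finset.sum_le_sum_of_subset_of_nonneg ?_ fun j _ _ => by positivity
    intro j hj
    obtain ⟨s, hs, rfl⟩ := Finset.mem_image.1 hj
    obtain ⟨hs1, hs2⟩ := mem_filter.1 hs
    rw [mem_Icc] at hs1 ⊢
    exact ⟨Nat.div_pos (Nat.le_of_dvd (by omega) hs2) hg0, (Nat.div_le_self _ _).trans hs1.2⟩
  refine h2.trans ?_
  have h4 : ∀ j ∈ Icc 1 H, (1 : ℝ) / (max j J : ℕ) ≤
      (if j ≤ J then (1 : ℝ) / J else 0) + 1 / j := by
    intro j hj
    have hj0 : 0 < j := (mem_Icc.1 hj).1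
    split_ifs with h
    · rw [max_eq_right h]
      have : (0 : ℝ) ≤ 1 / j := by positivity
      linarith
    · rw [max_eq_left (by omega)]
      linarith
  refine (Finset.sum_le_sum h4).trans ?_
  rw [Finset.sum_add_distrib]
  have h5 : ∑ j ∈ Icc 1 H, (if j ≤ J then (1 : ℝ) / J else 0) ≤ 1 := by
    rw [← Finset.sum_filter, Finset.sum_const, nsmul_eq_mul, mul_one_div, div_le_one hJ']
    have : ((Icc 1 H).filter fun j => j ≤ J).card ≤ (Icc 1 J).card := by
      refine Finset.card_le_card fun j hj => ?_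
      obtain ⟨h6, h7⟩ := mem_filter.1 hj
      exact mem_Icc.2 ⟨(mem_Icc.1 h6).1, h7⟩
    rw [Nat.card_Icc, Nat.add_sub_cancel] at this
    exact_mod_cast this
  have h6 : ∑ j ∈ Icc 1 H, (1 : ℝ) / j ≤ 1 + Real.log H := by
    have h7 := harmonic_le_one_add_log H
    rw [harmonic_eq_sum_Icc] at h7
    push_cast at h7
    simp only [one_div]
    exact h7
  linarith

end aux

theorem vol_nohit (T : Finset ℕ) (hT0 : T.Nonempty) (H Tau : ℕ)
    (hT : ∀ t ∈ T, 1 ≤ t ∧ t ≤ H ∧ t.divisors.card ≤ Tau) (δ : ℝ) (hδ : 0 < δ)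
    (hδ2 : δ ≤ 1 / 2) :
    (volume {β : ℝ | β ∈ Set.Ico (0 : ℝ) 1 ∧ ∀ t ∈ T, δ ≤ nr (t * β)}).toReal ≤
      Tau * (2 + Real.log H) / (2 * δ * T.card) := by
  classical
  have hcard : (0 : ℝ) < T.card := by exact_mod_cast hT0.card_pos
  have hH : 1 ≤ H := by
    obtain ⟨t, ht⟩ := hT0
    exact (hT t ht).1.trans (hT t ht).2.1
  have hlog : 0 ≤ Real.log H := Real.log_nonneg (by exact_mod_cast hH)
  set M : ℝ := 2 * δ * T.card with hM
  have hM0 : 0 < M := by positivity
  set E : Set ℝ := {β : ℝ | β ∈ Set.Ico (0 : ℝ) 1 ∧ ∀ t ∈ T, δ ≤ nr (t * β)} with hE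
  set Xf : ℝ → ℝ := fun β => ∑ t ∈ T, vph δ (t * β) with hXf
  have hmeas : ∀ c : ℝ, Measurable fun x : ℝ => vph δ (c * x) := fun c =>
    (vph_measurable δ).comp (measurable_const.mul measurable_id)
  have hXm : Measurable Xf := Finset.measurable_fun_sum _ fun t _ => hmeas t
  have hX0 : ∀ x, 0 ≤ Xf x := fun x => Finset.sum_nonneg fun t _ => vph_nonneg _ _
  have hXb : ∀ x, Xf x ≤ T.card := by
    intro x
    calc Xf x ≤ ∑ t ∈ T, (1 : ℝ) := Finset.sum_le_sum fun t _ => vph_le_one _ _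
      _ = T.card := by simp
  -- first moment
  have hI1 : ∫ x in (0 : ℝ)..1, Xf x = M := by
    rw [hXf, intervalIntegral.integral_finsetSum]
    · have : ∀ t ∈ T, ∫ x in (0 : ℝ)..1, vph δ (t * x) = 2 * δ := by
        intro t ht
        rw [integral_comp_nat_mul (vph_measurable δ) 1 (fun x => by
          rw [abs_of_nonneg (vph_nonneg δ x)]; exact vph_le_one δ x) (vph_periodic δ)
          (hT t ht).1, integral_vph hδ hδ2]
      rw [Finset.sum_congr rfl this, Finset.sum_const, nsmul_eq_mul, hM]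
      ring
    · intro t _
      exact intervalIntegrable_of_bdd (hmeas t) 1 (fun x => by
        rw [abs_of_nonneg (vph_nonneg δ _)]; exact vph_le_one δ _) _ _
  -- second moment
  have hI2 : ∫ x in (0 : ℝ)..1, Xf x ^ 2 ≤
      M ^ 2 + 2 * δ * (T.card * (Tau * (2 + Real.log H))) := by
    have h1 : ∫ x in (0 : ℝ)..1, Xf x ^ 2 =
        ∑ t ∈ T, ∑ s ∈ T, ∫ x in (0 : ℝ)..1, vph δ (s * x) * vph δ (t * x) := by
      have h2 : ∀ x : ℝ, Xf x ^ 2 = ∑ t ∈ T, ∑ s ∈ T, vph δ (s * x) * vph δ (t * x) := by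
        intro x
        rw [sq, hXf]
        simp only
        rw [Finset.mul_sum]
        refine Finset.sum_congr rfl fun t _ => ?_
        rw [Finset.sum_mul]
      have hint : ∀ s t : ℕ, IntervalIntegrable (fun x : ℝ => vph δ (s * x) * vph δ (t * x))
          volume 0 1 := fun s t =>
        intervalIntegrable_of_bdd ((hmeas s).mul (hmeas t)) 1 (fun x => by
          show |vph δ (s * x) * vph δ (t * x)| ≤ 1
          rw [abs_of_nonneg (mul_nonneg (vph_nonneg _ _) (vph_nonneg _ _))]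
          exact mul_le_one₀ (vph_le_one _ _) (vph_nonneg _ _) (vph_le_one _ _)) _ _
      rw [intervalIntegral.integral_congr (fun x _ => h2 x),
        intervalIntegral.integral_finsetSum]
      · refine Finset.sum_congr rfl fun t _ => ?_
        rw [intervalIntegral.integral_finsetSum]
        intro s _
        exact hint s t
      · intro t _
        have h9 := IntervalIntegrable.sum T
          (f := fun (s : ℕ) (x : ℝ) => vph δ (s * x) * vph δ (t * x)) fun s _ => hint s t
        have h10 : (∑ s ∈ T, fun x : ℝ => vph δ (s * x) * vph δ (t * x)) =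
            fun x => ∑ s ∈ T, vph δ (s * x) * vph δ (t * x) := by
          ext x
          simp
        rwa [h10] at h9
    rw [h1]
    have h3 : ∀ t ∈ T, ∑ s ∈ T, ∫ x in (0 : ℝ)..1, vph δ (s * x) * vph δ (t * x) ≤
        T.card * (4 * δ ^ 2) + 2 * δ * (Tau * (2 + Real.log H)) := by
      intro t ht
      calc ∑ s ∈ T, ∫ x in (0 : ℝ)..1, vph δ (s * x) * vph δ (t * x)
          ≤ ∑ s ∈ T, (4 * δ ^ 2 + 2 * δ * ((Nat.gcd s t : ℝ) / (max s t : ℕ))) :=
            Finset.sum_le_sum fun s hs => pair_int hδ hδ2 (hT s hs).1 (hT t ht).1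
        _ = T.card * (4 * δ ^ 2) +
            2 * δ * ∑ s ∈ T, (Nat.gcd s t : ℝ) / (max s t : ℕ) := by
            rw [Finset.sum_add_distrib, Finset.sum_const, nsmul_eq_mul, Finset.mul_sum]
        _ ≤ T.card * (4 * δ ^ 2) + 2 * δ * (Tau * (2 + Real.log H)) := by
            have h4 := gcd_sum_le (hT t ht).1 T (fun s hs => ⟨(hT s hs).1, (hT s hs).2.1⟩)
            have h5 : (t.divisors.card : ℝ) * (2 + Real.log H) ≤ Tau * (2 + Real.log H) :=
              mul_le_mul_of_nonneg_right (by exact_mod_cast (hT t ht).2.2) (by linarith)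
            have h6 := mul_le_mul_of_nonneg_left (h4.trans h5) (by positivity : (0:ℝ) ≤ 2 * δ)
            linarith
    refine (Finset.sum_le_sum h3).trans (le_of_eq ?_)
    rw [Finset.sum_const, nsmul_eq_mul, hM]
    ring
  -- variance
  have hv : ∫ x in (0 : ℝ)..1, (Xf x - M) ^ 2 ≤
      2 * δ * (T.card * (Tau * (2 + Real.log H))) := by
    have hi1 : IntervalIntegrable Xf volume 0 1 :=
      intervalIntegrable_of_bdd hXm T.card (fun x => by rw [abs_of_nonneg (hX0 x)]; exact hXb x) _ _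
    have hi2 : IntervalIntegrable (fun x => Xf x ^ 2) volume 0 1 :=
      intervalIntegrable_of_bdd (hXm.pow_const 2) ((T.card : ℝ) ^ 2) (fun x => by
        rw [abs_of_nonneg (sq_nonneg _)]
        exact pow_le_pow_left₀ (hX0 x) (hXb x) 2) _ _
    have h1 : ∫ x in (0 : ℝ)..1, (Xf x - M) ^ 2 =
        (∫ x in (0 : ℝ)..1, Xf x ^ 2) - 2 * M * (∫ x in (0 : ℝ)..1, Xf x) + M ^ 2 := by
      have h2 : ∀ x : ℝ, (Xf x - M) ^ 2 = (Xf x ^ 2 - 2 * M * Xf x) + M ^ 2 := fun x => by ring
      rw [intervalIntegral.integral_congr (fun x _ => h2 x),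
        intervalIntegral.integral_add (hi2.sub (hi1.const_mul _)) intervalIntegrable_const,
        intervalIntegral.integral_sub hi2 (hi1.const_mul _),
        intervalIntegral.integral_const_mul, intervalIntegral.integral_const]
      simp
    rw [h1, hI1]
    nlinarith [hI2]
  -- Chebyshev
  have hEm : MeasurableSet E := by
    have : E = Set.Ico (0 : ℝ) 1 ∩ ⋂ t ∈ T, {β : ℝ | δ ≤ nr (t * β)} := by
      ext β
      simp only [hE, Set.mem_ofPred_eq, Set.mem_inter_iff, Set.mem_iInter]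
    rw [this]
    refine measurableSet_Ico.inter (Finset.measurableSet_biInter _ fun t _ => ?_)
    exact measurableSet_le measurable_const
      (nr_measurable.comp (measurable_const.mul measurable_id))
  have hEsub : E ⊆ Set.Ico (0 : ℝ) 1 := fun β hβ => hβ.1
  have hEfin : volume E ≠ ⊤ := by
    refine ne_top_of_le_ne_top ?_ (measure_mono hEsub)
    simp
  have hc : (volume E).toReal * M ^ 2 ≤ ∫ x in (0 : ℝ)..1, (Xf x - M) ^ 2 := by
    rw [intervalIntegral.integral_of_le (by norm_num : (0 : ℝ) ≤ 1),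
      MeasureTheory.integral_Ioc_eq_integral_Ioo, ← MeasureTheory.integral_Ico_eq_integral_Ioo]
    have h1 : (volume E).toReal * M ^ 2 = ∫ x in E, M ^ 2 := by
      rw [MeasureTheory.setIntegral_const, smul_eq_mul]
      rfl
    have h2 : ∫ x in E, M ^ 2 = ∫ x in E, (Xf x - M) ^ 2 := by
      refine MeasureTheory.setIntegral_congr_fun hEm fun x hx => ?_
      have h3 : Xf x = 0 := by
        refine Finset.sum_eq_zero fun t ht => ?_
        unfold vph
        rw [if_neg (not_lt.2 (hx.2 t ht))]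
      show M ^ 2 = (Xf x - M) ^ 2
      rw [h3]
      ring
    rw [h1, h2]
    refine MeasureTheory.setIntegral_mono_set ?_ ?_ ?_
    · have h4 : IntervalIntegrable (fun x => (Xf x - M) ^ 2) volume 0 1 := by
        refine intervalIntegrable_of_bdd ((hXm.sub_const M).pow_const 2)
          (((T.card : ℝ) + M) ^ 2) (fun x => ?_) _ _
        rw [abs_of_nonneg (sq_nonneg _), ← sq_abs (Xf x - M)]
        refine pow_le_pow_left₀ (abs_nonneg _) ?_ 2
        rw [abs_le]
        constructor <;> linarith [hX0 x, hXb x]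
      rw [intervalIntegrable_iff_integrableOn_Ico_of_le (by norm_num)] at h4
      exact h4
    · exact Filter.Eventually.of_forall fun x => sq_nonneg _
    · exact (hEsub.eventuallyLE : E ≤ᵐ[volume] Set.Ico (0 : ℝ) 1)
  have hfin : (volume E).toReal * M ^ 2 ≤ 2 * δ * (T.card * (Tau * (2 + Real.log H))) :=
    hc.trans hv
  rw [le_div_iff₀ hM0]
  have h8 : 2 * δ * (T.card * (Tau * (2 + Real.log H))) = Tau * (2 + Real.log H) * M := by
    rw [hM]
    ring
  rw [h8] at hfin
  have h9 : (volume E).toReal * M * M ≤ Tau * (2 + Real.log H) * M := by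
    calc (volume E).toReal * M * M = (volume E).toReal * M ^ 2 := by ring
      _ ≤ _ := hfin
  exact le_of_mul_le_mul_right h9 hM0

end Pool.Agent.GLI
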