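import Pool.Agent.GLI.ZLow

set_option autoImplicit false

/-!
Module ZG. `G = ζ(2s)/ζ(s)`. `|t| ≥ 1`: on the disc of radius `κ (log T)^(-9)` around `σ + it` the truncated formula `HN` is at
least `(c/2) (log T)^(-7)` in absolute value, so Cauchy's estimate applies to `ζ(2z)/HN(z)`. `|t| ≤ 1`: `Z(s) = (s-1) ζ(s)`,
`Z(1) = 1` is entire and nonzero for `Re s ≥ 1`; `ζ(2s)(s-1)/Z(s)` is analytic near the compact set `[1,2] × [-1,1]`.
-/

open Finset Filter

namespace Pool.Agent.GLI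

/-- `ζ(2s)/ζ(s)`. -/
noncomputable def GG (s : ℂ) : ℂ := riemannZeta (2 * s) / riemannZeta s

theorem zeta_three_half : ∃ K : ℝ, 0 < K ∧ ∀ w : ℂ, 3 / 2 ≤ w.re → ‖riemannZeta w‖ ≤ K := by
  have hsum : Summable fun n : ℕ => 1 / (n : ℝ) ^ (3 / 2 : ℝ) :=
    Real.summable_one_div_nat_rpow.mpr (by norm_num)
  refine ⟨1 + ∑' n : ℕ, 1 / (n : ℝ) ^ (3 / 2 : ℝ), ?_, ?_⟩
  · have : 0 ≤ ∑' n : ℕ, 1 / (n : ℝ) ^ (3 / 2 : ℝ) := tsum_nonneg fun n => by positivity
    linarith
  · intro w hw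
    rw [zeta_eq_tsum_one_div_nat_cpow (by linarith)]
    have h1 : ∀ n : ℕ, ‖1 / (n : ℂ) ^ w‖ ≤ 1 / (n : ℝ) ^ (3 / 2 : ℝ) := by
      intro n
      rcases Nat.eq_zero_or_pos n with rfl | hn
      · have hw0 : w ≠ 0 := by
          intro h
          rw [h] at hw
          norm_num at hw
        simp [Complex.zero_cpow hw0]
      · have hn1 : (1 : ℝ) ≤ n := by exact_mod_cast hn
        have hn0 : (0 : ℝ) < n := by linarith
        rw [norm_div, norm_one, ← Complex.ofReal_natCast,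
          Complex.norm_cpow_eq_rpow_re_of_pos hn0]
        exact one_div_le_one_div_of_le (by positivity)
          (Real.rpow_le_rpow_of_exponent_le hn1 hw)
    have h2 : ‖∑' n : ℕ, 1 / (n : ℂ) ^ w‖ ≤ ∑' n : ℕ, 1 / (n : ℝ) ^ (3 / 2 : ℝ) :=
      tsum_of_norm_bounded hsum.hasSum h1
    linarith

theorem GG_far (j : ℕ) : ∃ C : ℝ, ∃ B : ℕ, 0 < C ∧ ∀ σ t : ℝ, 1 < σ → σ ≤ 2 → 1 ≤ |t| →
    ‖iteratedDeriv j GG (σ + t * Complex.I)‖ ≤ C * Real.log (|t| + 3) ^ B := by
  obtain ⟨c, hc, hlow⟩ := zeta_low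
  obtain ⟨K, hK, hKb⟩ := zeta_three_half
  set κ : ℝ := min (1 / 4) (c / 128) with hκ
  have hκ0 : 0 < κ := lt_min (by norm_num) (by positivity)
  have hκ1 : κ ≤ 1 / 4 := min_le_left _ _
  have hκ2 : κ ≤ c / 128 := min_le_right _ _
  refine ⟨j.factorial * (2 * K / c) / κ ^ j, 7 + 9 * j, by positivity, ?_⟩
  intro σ t hσ hσ2 ht
  set L : ℝ := Real.log (|t| + 3) with hL
  have hL1 : 1.38 ≤ L := by
    rcases log_T t with h | h
    · exact h
    · linarith
  have hL0 : 0 < L := by linarith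
  have hL9 : 1 ≤ L ^ 9 := one_le_pow₀ (by linarith)
  have hLL9 : L ≤ L ^ 9 := by
    calc L = L ^ 1 := (pow_one L).symm
      _ ≤ L ^ 9 := pow_le_pow_right₀ (by linarith) (by norm_num)
  have hN1 : 1 ≤ ⌊|t| + 3⌋₊ := by
    apply Nat.le_floor
    push_cast
    linarith
  set N : ℕ := ⌊|t| + 3⌋₊ with hN
  set s : ℂ := σ + t * Complex.I with hs
  have hsre : s.re = σ := by simp [hs]
  set ρ : ℝ := κ / L ^ 9 with hρ
  have hρ0 : 0 < ρ := by positivity
  have hρ1 : ρ ≤ 1 / (4 * L) := by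
    rw [hρ, div_le_div_iff₀ (by positivity) (by positivity)]
    nlinarith
  have hρ2 : ρ ≤ c / (128 * L ^ 9) := by
    rw [hρ, ← div_div]
    exact div_le_div_of_nonneg_right hκ2 (by positivity)
  have hρ3 : ρ ≤ 1 / 4 := by
    rw [hρ, div_le_iff₀ (by positivity)]
    nlinarith
  -- lower bound on the disc
  have hlow' : ∀ z : ℂ, ‖z - s‖ ≤ ρ → c / (2 * L ^ 7) ≤ ‖HN N z‖ := by
    intro z hz
    have h1 := HN_lip σ t hσ.le hσ2 ht z (hz.trans hρ1)
    have h2 := hlow σ t hσ hσ2 ht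
    rw [HN_eq N hN1 _ (by simp; exact hσ)] at h2
    have h3 : 64 * L ^ 2 * ‖z - s‖ ≤ c / (2 * L ^ 7) := by
      calc 64 * L ^ 2 * ‖z - s‖ ≤ 64 * L ^ 2 * (c / (128 * L ^ 9)) :=
            mul_le_mul_of_nonneg_left (hz.trans hρ2) (by positivity)
        _ = c / (2 * L ^ 7) := by
            field_simp
            norm_num
    have h4 : ‖HN N s‖ ≤ ‖HN N z‖ + ‖HN N z - HN N s‖ := by
      have h5 : HN N s = HN N z - (HN N z - HN N s) := by ring
      conv_lhs => rw [h5]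
      exact norm_sub_le _ _
    have h5 : c / L ^ 7 = c / (2 * L ^ 7) + c / (2 * L ^ 7) := by
      field_simp
      norm_num
    have h6 : ‖HN N z - HN N s‖ ≤ c / (2 * L ^ 7) := le_trans h1 h3
    linarith
  have hre : ∀ z : ℂ, ‖z - s‖ ≤ ρ → 3 / 2 ≤ (2 * z).re := by
    intro z hz
    have h1 := Complex.abs_re_le_norm (z - s)
    have h2 := (abs_le.mp (h1.trans hz)).1
    rw [Complex.sub_re, hsre] at h2
    have h3 : (2 * z).re = 2 * z.re := by simp
    rw [h3]
    linarith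
  have hEq : GG =ᶠ[nhds s] fun z => riemannZeta (2 * z) / HN N z := by
    filter_upwards [zeta_eventuallyEq N hN1 s (by rw [hsre]; exact hσ)] with z hz
    unfold GG
    rw [hz]
  rw [hEq.iteratedDeriv_eq]
  have h2 := Complex.norm_iteratedDeriv_le_of_forall_mem_sphere_norm_le (c := s)
    (R := ρ) (C := 2 * K / c * L ^ 7) (f := fun z => riemannZeta (2 * z) / HN N z) j
    hρ0 ?_ ?_
  · refine h2.trans (le_of_eq ?_)
    rw [hρ, div_pow, pow_add, pow_mul]
    field_simp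
  · refine DifferentiableOn.diffContOnCl ?_
    intro z hz
    have hz' : ‖z - s‖ ≤ ρ := by
      have := Metric.closure_ball_subset_closedBall hz
      rwa [Metric.mem_closedBall, dist_eq_norm] at this
    obtain ⟨h3, h4, -⟩ := HN_bound σ t hσ.le hσ2 ht z (by
      refine hz'.trans (hρ1.trans ?_)
      exact one_div_le_one_div_of_le (by positivity) (by linarith))
    have h5 := hlow' z hz'
    have h6 : HN N z ≠ 0 := by
      intro h
      rw [h, norm_zero] at h5
      have : 0 < c / (2 * L ^ 7) := by positivity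
      linarith
    have h7 : 2 * z ≠ 1 := by
      intro h
      have := hre z hz'
      rw [h] at this
      norm_num at this
    have h8 : DifferentiableAt ℂ (fun z : ℂ => riemannZeta (2 * z)) z :=
      DifferentiableAt.comp z (differentiableAt_riemannZeta h7) (by fun_prop)
    exact (h8.div (HN_diff _ hN1 z (by linarith) h4) h6).differentiableWithinAt
  · intro z hz
    rw [mem_sphere_iff_norm] at hz
    have h5 := hlow' z hz.le
    have h6 := hKb (2 * z) (hre z hz.le)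
    have h7 : 0 < c / (2 * L ^ 7) := by positivity
    rw [norm_div]
    calc ‖riemannZeta (2 * z)‖ / ‖HN N z‖ ≤ K / (c / (2 * L ^ 7)) :=
          div_le_div₀ hK.le h6 h7 h5
      _ = 2 * K / c * L ^ 7 := by
          field_simp

/-- `(s - 1) ζ(s)`, with the value `1` at `1`. -/
noncomputable def ZZ : ℂ → ℂ := DirichletCharacter.LFunctionTrivChar₁ 1

theorem ZZ_diff : Differentiable ℂ ZZ := DirichletCharacter.differentiable_LFunctionTrivChar₁ 1

theorem ZZ_eq {s : ℂ} (hs : s ≠ 1) : ZZ s = (s - 1) * riemannZeta s := by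
  unfold ZZ DirichletCharacter.LFunctionTrivChar₁
  rw [Function.update_of_ne hs, DirichletCharacter.LFunctionTrivChar,
    DirichletCharacter.LFunction_modOne_eq]

theorem ZZ_ne {s : ℂ} (hs : 1 ≤ s.re) : ZZ s ≠ 0 := by
  by_cases h : s = 1
  · rw [h]
    exact DirichletCharacter.LFunctionTrivChar₁_apply_one_ne_zero 1
  · rw [ZZ_eq h]
    exact mul_ne_zero (sub_ne_zero.mpr h) (riemannZeta_ne_zero_of_one_le_re hs)

/-- The analytic continuation of `GG` to a neighbourhood of `Re s ≥ 1`. -/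
noncomputable def hh (z : ℂ) : ℂ := riemannZeta (2 * z) * (z - 1) / ZZ z

theorem hh_eq {s : ℂ} (hs : 1 < s.re) : GG s = hh s := by
  have h1 : s ≠ 1 := by
    intro h
    rw [h] at hs
    simp at hs
  unfold GG hh
  rw [ZZ_eq h1]
  have h2 : s - 1 ≠ 0 := sub_ne_zero.mpr h1
  have h3 := riemannZeta_ne_zero_of_one_le_re hs.le
  field_simp

theorem GG_near (j : ℕ) : ∃ C : ℝ, 0 < C ∧ ∀ σ t : ℝ, 1 < σ → σ ≤ 2 → |t| ≤ 1 →
    ‖iteratedDeriv j GG (σ + t * Complex.I)‖ ≤ C := by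
  set U : Set ℂ := {z : ℂ | 1 / 2 < z.re} ∩ {z : ℂ | ZZ z ≠ 0} with hU
  have hUo : IsOpen U := by
    refine IsOpen.inter ?_ ?_
    · exact isOpen_lt continuous_const Complex.continuous_re
    · exact isOpen_ne_fun ZZ_diff.continuous continuous_const
  have hd : DifferentiableOn ℂ hh U := by
    intro z hz
    have h7 : 2 * z ≠ 1 := by
      intro h
      have h8 : (2 * z).re = 2 * z.re := by simp
      rw [h] at h8
      have h9 : 1 / 2 < z.re := hz.1
      rw [Complex.one_re] at h8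
      linarith
    have h8 : DifferentiableAt ℂ (fun z : ℂ => riemannZeta (2 * z)) z :=
      DifferentiableAt.comp z (differentiableAt_riemannZeta h7) (by fun_prop)
    have h9 : DifferentiableAt ℂ (fun z : ℂ => riemannZeta (2 * z) * (z - 1) / ZZ z) z :=
      (h8.mul (by fun_prop)).div (ZZ_diff z) hz.2
    exact h9.differentiableWithinAt
  have ha : AnalyticOnNhd ℂ hh U := hd.analyticOnNhd hUo
  have hj : AnalyticOnNhd ℂ (iteratedDeriv j hh) U := by
    rw [iteratedDeriv_eq_iterate]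
    exact ha.iterated_deriv j
  set S : Set ℂ := Set.Icc (1 : ℝ) 2 ×ℂ Set.Icc (-1 : ℝ) 1 with hS
  have hSc : IsCompact S := isCompact_Icc.reProdIm isCompact_Icc
  have hSU : S ⊆ U := by
    intro z hz
    rw [hS, Complex.mem_reProdIm] at hz
    refine ⟨?_, ZZ_ne hz.1.1⟩
    have := hz.1.1
    show 1 / 2 < z.re
    linarith
  obtain ⟨C, hC⟩ := hSc.exists_bound_of_continuousOn (hj.continuousOn.mono hSU)
  refine ⟨|C| + 1, by positivity, ?_⟩
  intro σ t hσ hσ2 ht
  have hEq : GG =ᶠ[nhds (σ + t * Complex.I : ℂ)] hh := by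
    have h1 : ∀ᶠ z : ℂ in nhds (σ + t * Complex.I : ℂ), 1 < z.re :=
      (Complex.continuous_re.tendsto _).eventually (lt_mem_nhds (by simp; exact hσ))
    filter_upwards [h1] with z hz
    exact hh_eq hz
  rw [hEq.iteratedDeriv_eq]
  have hm : (σ + t * Complex.I : ℂ) ∈ S := by
    rw [hS, Complex.mem_reProdIm]
    have h1 := abs_le.mp ht
    constructor
    · simp
      exact ⟨hσ.le, hσ2⟩
    · simp
      exact ⟨by linarith [h1.1], h1.2⟩
  have := hC _ hm
  have h2 := le_abs_self C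
  linarith

theorem GG_bound (j : ℕ) : ∃ C : ℝ, ∃ B : ℕ, 0 < C ∧ ∀ σ t : ℝ, 1 < σ → σ ≤ 2 →
    ‖iteratedDeriv j GG (σ + t * Complex.I)‖ ≤ C * Real.log (|t| + 3) ^ B := by
  obtain ⟨C₁, B, hC₁, h1⟩ := GG_far j
  obtain ⟨C₂, hC₂, h2⟩ := GG_near j
  refine ⟨C₁ + C₂, B, by positivity, ?_⟩
  intro σ t hσ hσ2
  have hL : 1 ≤ Real.log (|t| + 3) := by
    have h3 : Real.log 3 ≤ Real.log (|t| + 3) :=
      Real.log_le_log (by norm_num) (by have := abs_nonneg t; linarith)
    have h4 : 1 ≤ Real.log 3 := by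
      rw [Real.le_log_iff_exp_le (by norm_num)]
      have := Real.exp_one_lt_d9
      linarith
    linarith
  have hLB : 1 ≤ Real.log (|t| + 3) ^ B := one_le_pow₀ hL
  by_cases ht : 1 ≤ |t|
  · have h3 := h1 σ t hσ hσ2 ht
    have h4 : 0 ≤ C₂ * Real.log (|t| + 3) ^ B := by positivity
    nlinarith
  · have h3 := h2 σ t hσ hσ2 (not_le.mp ht).le
    have h4 : 0 ≤ C₁ * Real.log (|t| + 3) ^ B := by positivity
    nlinarith

end Pool.Agent.GLI
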