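import Pool.Agent.GLI.ZUp

set_option autoImplicit false

/-!
Module ZLow. 3-4-1: `|ζ(σ)^3 ζ(σ+it)^4 ζ(σ+2it)| ≥ 1` for `σ > 1`; `ζ(σ) ≤ 3/(σ-1)` on `(1, 2]`, `|ζ(σ+2it)| ≤ 32 log T`
(`T = |t| + 3`): `|ζ(σ+it)|^4 ≥ (σ-1)^3/(864 log T)`. `σ' = 1 + η`, `η = δ^4 (log T)^(-9)`, `δ = 1/768`; for `1 < σ < σ'` the
mean value inequality for the truncated formula `HN`.
-/

open Finset Filter

namespace Pool.Agent.GLI

/-- `HN` is Lipschitz near `σ + it`. -/
theorem HN_lip (σ t : ℝ) (hσ : 1 ≤ σ) (hσ2 : σ ≤ 2) (ht : 1 ≤ |t|) (z : ℂ)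
    (hz : ‖z - (σ + t * Complex.I)‖ ≤ 1 / (4 * Real.log (|t| + 3))) :
    ‖HN ⌊|t| + 3⌋₊ z - HN ⌊|t| + 3⌋₊ (σ + t * Complex.I)‖ ≤
      64 * Real.log (|t| + 3) ^ 2 * ‖z - (σ + t * Complex.I)‖ := by
  set L : ℝ := Real.log (|t| + 3) with hL
  set s : ℂ := σ + t * Complex.I with hs
  set N : ℕ := ⌊|t| + 3⌋₊ with hN
  have hL1 : 1.38 ≤ L := by
    rcases log_T t with h | h
    · exact h
    · linarith
  have hL0 : 0 < L := by linarith
  have hN1 : 1 ≤ N := by
    apply Nat.le_floor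
    push_cast
    linarith
  have hhalf : 1 / (4 * L) + 1 / (4 * L) = 1 / (2 * L) := by
    field_simp
    norm_num
  have hr0 : 0 < 1 / (4 * L) := by positivity
  -- points of the closed ball
  have hin : ∀ w : ℂ, ‖w - s‖ ≤ 1 / (4 * L) → ∀ v : ℂ, ‖v - w‖ ≤ 1 / (4 * L) →
      ‖v - s‖ ≤ 1 / (2 * L) := by
    intro w hw v hv
    have : v - s = (v - w) + (w - s) := by ring
    rw [this]
    refine (norm_add_le _ _).trans ?_
    linarith
  have hdiff : ∀ v : ℂ, ‖v - s‖ ≤ 1 / (2 * L) → DifferentiableAt ℂ (HN N) v := by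
    intro v hv
    obtain ⟨h3, h4, -⟩ := HN_bound σ t hσ hσ2 ht v hv
    exact HN_diff _ hN1 v (by linarith) h4
  have hder : ∀ w ∈ Metric.closedBall s (1 / (4 * L)), ‖deriv (HN N) w‖ ≤ 64 * L ^ 2 := by
    intro w hw
    rw [Metric.mem_closedBall, dist_eq_norm] at hw
    have h2 := Complex.norm_deriv_le_of_forall_mem_sphere_norm_le (c := w)
      (R := 1 / (4 * L)) (C := 16 * L) (f := HN N) hr0 ?_ ?_
    · refine h2.trans (le_of_eq ?_)
      field_simp
      norm_num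
    · refine DifferentiableOn.diffContOnCl ?_
      intro v hv
      have hv' : ‖v - w‖ ≤ 1 / (4 * L) := by
        have := Metric.closure_ball_subset_closedBall hv
        rwa [Metric.mem_closedBall, dist_eq_norm] at this
      exact (hdiff v (hin w hw v hv')).differentiableWithinAt
    · intro v hv
      rw [mem_sphere_iff_norm] at hv
      exact (HN_bound σ t hσ hσ2 ht v (hin w hw v hv.le)).2.2
  have hzm : z ∈ Metric.closedBall s (1 / (4 * L)) := by
    rw [Metric.mem_closedBall, dist_eq_norm]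
    exact hz
  have hsm : s ∈ Metric.closedBall s (1 / (4 * L)) := Metric.mem_closedBall_self hr0.le
  refine Convex.norm_image_sub_le_of_norm_deriv_le ?_ hder (convex_closedBall s _) hsm hzm
  intro w hw
  rw [Metric.mem_closedBall, dist_eq_norm] at hw
  refine hdiff w (hw.trans ?_)
  linarith

theorem zeta_real_bound (σ : ℝ) (h1 : 1 < σ) (h2 : σ ≤ 2) :
    ‖riemannZeta (σ : ℂ)‖ ≤ 3 / (σ - 1) := by
  have hre : (σ : ℂ).re = σ := Complex.ofReal_re σ
  rw [HN_eq 1 le_rfl (σ : ℂ) (by rw [hre]; exact h1)]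
  unfold HN
  rw [Finset.Icc_self, Finset.sum_singleton, Nat.cast_one, Complex.one_cpow, Complex.one_cpow]
  have h3 := EN_bound 1 le_rfl (σ : ℂ) (by rw [hre]; linarith)
  rw [hre, Nat.cast_one, Real.one_rpow] at h3
  have h4 : ‖(1 : ℂ) / ((σ : ℂ) - 1)‖ = 1 / (σ - 1) := by
    rw [norm_div, norm_one, ← Complex.ofReal_one, ← Complex.ofReal_sub, Complex.norm_real,
      Real.norm_eq_abs, abs_of_pos (by linarith)]
  have h5 : ‖(σ : ℂ) * EN 1 σ‖ ≤ 1 := by
    rw [norm_mul, Complex.norm_real, Real.norm_eq_abs, abs_of_pos (by linarith)]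
    calc σ * ‖EN 1 σ‖ ≤ σ * (1 / σ) := mul_le_mul_of_nonneg_left h3 (by linarith)
      _ = 1 := by
        field_simp
  have h6 : ‖1 + 1 / ((σ : ℂ) - 1) - σ * EN 1 σ‖ ≤
      ‖(1 : ℂ)‖ + ‖1 / ((σ : ℂ) - 1)‖ + ‖(σ : ℂ) * EN 1 σ‖ :=
    (norm_sub_le _ _).trans (add_le_add_left (norm_add_le _ _) _)
  refine h6.trans ?_
  rw [norm_one, h4]
  have h7 : (1 : ℝ) ≤ 1 / (σ - 1) := by
    rw [le_div_iff₀ (by linarith)]
    linarith
  have h8 : 3 / (σ - 1) = 3 * (1 / (σ - 1)) := by ring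
  rw [h8]
  linarith

theorem zeta_341 (σ t : ℝ) (hσ : 1 < σ) :
    1 ≤ ‖riemannZeta σ‖ ^ 3 * ‖riemannZeta (σ + t * Complex.I)‖ ^ 4 *
      ‖riemannZeta (σ + (2 * t : ℝ) * Complex.I)‖ := by
  have h1 := DirichletCharacter.norm_LFunction_product_ge_one (N := 1) (1 : DirichletCharacter ℂ 1)
    (x := σ - 1) (by linarith) t
  rw [DirichletCharacter.LFunctionTrivChar, DirichletCharacter.LFunction_modOne_eq,
    DirichletCharacter.LFunction_modOne_eq] at h1
  have e1 : (1 : ℂ) + ((σ - 1 : ℝ) : ℂ) = σ := by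
    push_cast
    ring
  have e2 : (σ : ℂ) + Complex.I * t = σ + t * Complex.I := by ring
  have e3 : (σ : ℂ) + 2 * Complex.I * t = σ + ((2 * t : ℝ) : ℂ) * Complex.I := by
    push_cast
    ring
  rw [e1, e2, e3, norm_mul, norm_mul, norm_pow, norm_pow] at h1
  exact h1

theorem zeta_low : ∃ c : ℝ, 0 < c ∧ ∀ σ t : ℝ, 1 < σ → σ ≤ 2 → 1 ≤ |t| →
    c / Real.log (|t| + 3) ^ 7 ≤ ‖riemannZeta (σ + t * Complex.I)‖ := by
  refine ⟨(1 / 768) ^ 3 / 12, by norm_num, ?_⟩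
  intro σ t hσ hσ2 ht
  set L : ℝ := Real.log (|t| + 3) with hL
  have hL1 : 1.38 ≤ L := by
    rcases log_T t with h | h
    · exact h
    · linarith
  have hL0 : 0 < L := by linarith
  have hT0 : 0 < |t| + 3 := by positivity
  set δ : ℝ := 1 / 768 with hδ
  have hN1 : 1 ≤ ⌊|t| + 3⌋₊ := by
    apply Nat.le_floor
    push_cast
    linarith
  -- the bound away from 1
  have hfar : ∀ σ' : ℝ, 1 + δ ^ 4 / L ^ 9 ≤ σ' → σ' ≤ 2 →
      δ ^ 3 / (6 * L ^ 7) ≤ ‖riemannZeta (σ' + t * Complex.I)‖ := by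
    intro σ' h1 h2
    have hη : 0 < δ ^ 4 / L ^ 9 := by positivity
    have hσ' : 1 < σ' := by linarith
    have h3 := zeta_341 σ' t hσ'
    have h4 := zeta_real_bound σ' hσ' h2
    have h5 : ‖riemannZeta (σ' + (2 * t : ℝ) * Complex.I)‖ ≤ 32 * L := by
      have ht2 : 1 ≤ |2 * t| := by
        rw [abs_mul, abs_two]
        linarith
      have hN2 : 1 ≤ ⌊|2 * t| + 3⌋₊ := by
        apply Nat.le_floor
        push_cast
        linarith
      have h6 := (HN_bound σ' (2 * t) hσ'.le h2 ht2 (σ' + (2 * t : ℝ) * Complex.I) (by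
        rw [sub_self, norm_zero]
        have : 0 ≤ Real.log (|2 * t| + 3) := Real.log_nonneg (by linarith)
        positivity)).2.2
      rw [HN_eq _ hN2 _ (by simp; exact hσ')]
      refine h6.trans ?_
      have h7 : Real.log (|2 * t| + 3) ≤ 2 * L := by
        rw [hL, show (2 : ℝ) * Real.log (|t| + 3) = Real.log ((|t| + 3) ^ 2) by
          rw [Real.log_pow]; norm_num]
        apply Real.log_le_log (by linarith)
        rw [abs_mul, abs_two]
        nlinarith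
      linarith
    have h8 : 0 < σ' - 1 := by linarith
    set Z : ℝ := ‖riemannZeta (σ' + t * Complex.I)‖ with hZ
    have hZ0 : 0 ≤ Z := norm_nonneg _
    -- 1 ≤ (3/(σ'-1))^3 Z^4 32 L
    have h9 : 1 ≤ (3 / (σ' - 1)) ^ 3 * Z ^ 4 * (32 * L) := by
      refine h3.trans ?_
      have h10 : ‖riemannZeta (σ' : ℂ)‖ ^ 3 ≤ (3 / (σ' - 1)) ^ 3 :=
        pow_le_pow_left₀ (norm_nonneg _) h4 3
      refine mul_le_mul ?_ h5 (norm_nonneg _) (by positivity)
      exact mul_le_mul_of_nonneg_right h10 (by positivity)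
    have h11 : (δ ^ 4 / L ^ 9) ^ 3 ≤ (σ' - 1) ^ 3 := pow_le_pow_left₀ hη.le (by linarith) 3
    have h12 : (σ' - 1) ^ 3 ≤ 864 * L * Z ^ 4 := by
      have h13 : (3 / (σ' - 1)) ^ 3 * Z ^ 4 * (32 * L) = 864 * L * Z ^ 4 / (σ' - 1) ^ 3 := by
        field_simp
        ring
      rw [h13, le_div_iff₀ (by positivity), one_mul] at h9
      exact h9
    have h14 : (δ ^ 3 / (6 * L ^ 7)) ^ 4 ≤ Z ^ 4 := by
      have h15 : (δ ^ 3 / (6 * L ^ 7)) ^ 4 = (δ ^ 4 / L ^ 9) ^ 3 / (1296 * L) := by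
        field_simp
        norm_num
      rw [h15, div_le_iff₀ (by positivity)]
      have h16 : 0 ≤ Z ^ 4 := by positivity
      nlinarith
    exact (pow_le_pow_iff_left₀ (by positivity) hZ0 (by norm_num)).mp h14
  have hη : 0 < δ ^ 4 / L ^ 9 := by positivity
  have hL9 : 1 ≤ L ^ 9 := one_le_pow₀ (by linarith)
  by_cases hc : 1 + δ ^ 4 / L ^ 9 ≤ σ
  · refine le_trans ?_ (hfar σ hc hσ2)
    rw [div_div, div_le_div_iff₀ (by positivity) (by positivity)]
    have : 0 < δ ^ 3 * L ^ 7 := by positivity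
    nlinarith
  · have hσ' : 1 + δ ^ 4 / L ^ 9 ≤ 2 := by
      have : δ ^ 4 / L ^ 9 ≤ 1 := by
        rw [div_le_one (by positivity)]
        refine le_trans ?_ hL9
        rw [hδ]
        norm_num
      linarith
    have h1 := hfar _ le_rfl hσ'
    set σ' : ℝ := 1 + δ ^ 4 / L ^ 9 with hσ'def
    have hσσ' : σ < σ' := not_le.mp hc
    have h2 : ‖((σ : ℂ) + t * Complex.I) - (σ' + t * Complex.I)‖ = σ' - σ := by
      rw [show ((σ : ℂ) + t * Complex.I) - (σ' + t * Complex.I) = ((σ - σ' : ℝ) : ℂ) by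
        push_cast; ring]
      rw [Complex.norm_real, Real.norm_eq_abs, abs_of_neg (by linarith)]
      ring
    have h3 : σ' - σ ≤ δ ^ 4 / L ^ 9 := by
      rw [hσ'def]
      linarith
    have h4 : δ ^ 4 / L ^ 9 ≤ 1 / (4 * L) := by
      rw [div_le_div_iff₀ (by positivity) (by positivity)]
      have h5 : L ≤ L ^ 9 := by
        calc L = L ^ 1 := (pow_one L).symm
          _ ≤ L ^ 9 := pow_le_pow_right₀ (by linarith) (by norm_num)
      have h6 : δ ^ 4 * (4 * L) ≤ 1 * L := by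
        rw [hδ]
        nlinarith
      linarith
    have h5 := HN_lip σ' t (by linarith) hσ' ht (σ + t * Complex.I) (by rw [h2]; linarith)
    rw [h2] at h5
    rw [← HN_eq _ hN1 (σ + t * Complex.I) (by simp; exact hσ),
      ← HN_eq _ hN1 (σ' + t * Complex.I) (by simp; linarith), ← hL] at h5
    have h6 : 64 * L ^ 2 * (σ' - σ) ≤ 64 * δ ^ 4 / L ^ 7 := by
      calc 64 * L ^ 2 * (σ' - σ) ≤ 64 * L ^ 2 * (δ ^ 4 / L ^ 9) :=
            mul_le_mul_of_nonneg_left h3 (by positivity)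
        _ = 64 * δ ^ 4 / L ^ 7 := by
            field_simp
    have h7 : ‖riemannZeta (σ' + t * Complex.I)‖ ≤ ‖riemannZeta (σ + t * Complex.I)‖ +
        ‖riemannZeta (σ + t * Complex.I) - riemannZeta (σ' + t * Complex.I)‖ := by
      have h8 : riemannZeta (σ' + t * Complex.I) = riemannZeta (σ + t * Complex.I) -
        (riemannZeta (σ + t * Complex.I) - riemannZeta (σ' + t * Complex.I)) := by ring
      conv_lhs => rw [h8]
      exact norm_sub_le _ _
    have h8 : δ ^ 3 / 12 / L ^ 7 = δ ^ 3 / (6 * L ^ 7) - 64 * δ ^ 4 / L ^ 7 := by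
      rw [hδ]
      field_simp
      norm_num
    rw [h8]
    linarith

end Pool.Agent.GLI
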