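import Pool.Agent.GLI.ZG
import Pool.Agent.GLI.Ev

set_option autoImplicit false

/-!
Module ZPerron. (1) Euler products of the Liouville function and of `ζ`; so `ζ(s) ∑ lam(n) n^{-s} = ζ(2s)`, `Re s > 1`.
(2) Mellin inversion for `f(x) = -log x` on `(0,1]`, Mellin transform `1/s²`. (3) `x = n/y`, sum with weights `lam n`.
-/

open Finset Filter MeasureTheory

namespace Pool.Agent.GLI

/-- `n ↦ lam n n^{-s}` as a monoid-with-zero hom. -/
noncomputable def zpHom (s : ℂ) (hs : s ≠ 0) : ℕ →*₀ ℂ where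
  toFun n := (lam n : ℂ) * (n : ℂ) ^ (-s)
  map_zero' := by
    simp [Complex.zero_cpow (neg_ne_zero.mpr hs)]
  map_one' := by simp [lam_one]
  map_mul' a b := by
    rcases Nat.eq_zero_or_pos a with ha | ha
    · subst ha
      simp [Complex.zero_cpow (neg_ne_zero.mpr hs)]
    rcases Nat.eq_zero_or_pos b with hb | hb
    · subst hb
      simp [Complex.zero_cpow (neg_ne_zero.mpr hs)]
    rw [lam_mul ha.ne' hb.ne', Nat.cast_mul, Complex.natCast_mul_natCast_cpow]
    push_cast
    ring

theorem zp_norm (n : ℕ) : ‖(lam n : ℂ)‖ = 1 := by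
  rcases lam_cases n with h | h <;> rw [h] <;> simp

theorem lam_lseries (s : ℂ) (hs : 1 < s.re) :
    LSeriesSummable (fun n => (lam n : ℂ)) s ∧ LSeries (fun n => (lam n : ℂ)) s = GG s := by
  have hs0 : s ≠ 0 := by
    intro h
    rw [h] at hs
    simp at hs
    linarith
  have hS : LSeriesSummable (fun n => (lam n : ℂ)) s :=
    LSeriesSummable_of_bounded_of_one_lt_re (m := 1) (fun n _ => (zp_norm n).le) hs
  refine ⟨hS, ?_⟩
  have hterm : ∀ n, LSeries.term (fun n => (lam n : ℂ)) s n = zpHom s hs0 n := by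
    intro n
    rcases Nat.eq_zero_or_pos n with h | h
    · subst h
      rw [LSeries.term_zero, map_zero]
    · rw [LSeries.term_of_ne_zero h.ne']
      change _ = (lam n : ℂ) * (n : ℂ) ^ (-s)
      rw [Complex.cpow_neg, div_eq_mul_inv]
  have hsum : Summable (fun n => ‖zpHom s hs0 n‖) := by
    have h1 : Summable (LSeries.term (fun n => (lam n : ℂ)) s) := hS
    have h2 := h1.norm
    refine h2.congr (fun n => ?_)
    rw [hterm]
  have hP := EulerProduct.eulerProduct_completely_multiplicative_hasProd hsum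
  have hL : LSeries (fun n => (lam n : ℂ)) s = ∑' n, zpHom s hs0 n := by
    unfold LSeries
    exact tsum_congr hterm
  rw [← hL] at hP
  have hZ := riemannZeta_eulerProduct_hasProd hs
  have h2s : 1 < (2 * s).re := by
    simp
    linarith
  have hZ2 := riemannZeta_eulerProduct_hasProd h2s
  have hM := hP.mul hZ
  have e : (fun p : Nat.Primes => (1 - zpHom s hs0 (p : ℕ))⁻¹ * (1 - ((p : ℕ) : ℂ) ^ (-s))⁻¹) =
      fun p : Nat.Primes => (1 - ((p : ℕ) : ℂ) ^ (-(2 * s)))⁻¹ := by
    funext p
    rw [← mul_inv]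
    congr 1
    have h1 : zpHom s hs0 (p : ℕ) = -((p : ℕ) : ℂ) ^ (-s) := by
      change (lam (p : ℕ) : ℂ) * ((p : ℕ) : ℂ) ^ (-s) = _
      rw [lam_prime p.2]
      push_cast
      ring
    have h2 : ((p : ℕ) : ℂ) ^ (-(2 * s)) = ((p : ℕ) : ℂ) ^ (-s) * ((p : ℕ) : ℂ) ^ (-s) := by
      rw [← Complex.cpow_add _ _ (by exact_mod_cast p.2.ne_zero)]
      congr 1
      ring
    rw [h1, h2]
    ring
  rw [e] at hM
  have h3 := hM.unique hZ2
  unfold GG
  rw [← h3, mul_div_assoc, div_self (riemannZeta_ne_zero_of_one_lt_re hs), mul_one]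

/-- `-log x` on `(0, 1]`, `0` elsewhere. -/
noncomputable def zpF (x : ℝ) : ℂ := -(Real.log x • Set.indicator (Set.Ioc (0 : ℝ) 1) (fun _ => (1 : ℂ)) x)

theorem zp_mellin (s : ℂ) (hs : 0 < s.re) : MellinConvergent zpF s ∧ mellin zpF s = 1 / s ^ 2 := by
  have hs0 : s ≠ 0 := by
    intro h
    rw [h] at hs
    simp at hs
  have h1 := mellin_hasDerivAt_of_isBigO_rpow (E := ℂ) (a := s.re + 1) (b := 0)
    (f := Set.indicator (Set.Ioc (0 : ℝ) 1) (fun _ => (1 : ℂ))) (s := s) ?_ ?_ (by linarith) ?_ hs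
  · obtain ⟨h1, h2⟩ := h1
    have h3 : HasDerivAt (mellin (Set.indicator (Set.Ioc (0 : ℝ) 1) (fun _ => (1 : ℂ)))) (-(s ^ 2)⁻¹) s := by
      have h4 : (mellin (Set.indicator (Set.Ioc (0 : ℝ) 1) (fun _ => (1 : ℂ)))) =ᶠ[nhds s]
          fun z => z⁻¹ := by
        have h5 : {z : ℂ | 0 < z.re} ∈ nhds s :=
          (isOpen_lt continuous_const Complex.continuous_re).mem_nhds (by simpa using hs)
        filter_upwards [h5] with z hz
        rw [(hasMellin_one_Ioc hz).2, one_div]
      exact (hasDerivAt_inv hs0).congr_of_eventuallyEq h4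
    have h4 := h2.unique h3
    constructor
    · unfold MellinConvergent at h1 ⊢
      have h5 := h1.neg
      refine h5.congr_fun ?_ measurableSet_Ioi
      intro t _
      simp only [zpF, smul_neg, Pi.neg_apply]
    · have h5 : mellin zpF s = -mellin (fun t => Real.log t •
          Set.indicator (Set.Ioc (0 : ℝ) 1) (fun _ => (1 : ℂ)) t) s := by
        unfold mellin zpF
        rw [← integral_neg]
        congr 1
        funext t
        rw [smul_neg]
      rw [h5, h4]
      simp
  · have h2 : Integrable (Set.indicator (Set.Ioc (0 : ℝ) 1) (fun _ => (1 : ℂ))) := by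
      rw [integrable_indicator_iff measurableSet_Ioc]
      exact integrableOn_const (by simp)
    exact h2.locallyIntegrable.locallyIntegrableOn _
  · refine Asymptotics.IsBigO.of_bound 1 ?_
    filter_upwards [eventually_gt_atTop (1 : ℝ)] with x hx
    rw [Set.indicator_of_notMem (by simp [hx])]
    rw [norm_zero]
    positivity
  · refine Asymptotics.IsBigO.of_bound 1 ?_
    filter_upwards with x
    rw [neg_zero, Real.rpow_zero, norm_one, mul_one]
    refine (norm_indicator_le_norm_self _ _).trans ?_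
    simp

theorem zp_cont (x : ℝ) (hx : 0 < x) : ContinuousAt zpF x := by
  have h1 : zpF =ᶠ[nhds x] fun y => ((max (-Real.log y) 0 : ℝ) : ℂ) := by
    filter_upwards [lt_mem_nhds hx] with y hy
    unfold zpF
    rcases le_or_gt y 1 with h | h
    · rw [Set.indicator_of_mem (by exact ⟨hy, h⟩), max_eq_left]
      · simp
      · linarith [Real.log_nonpos hy.le h]
    · rw [Set.indicator_of_notMem (by simp [h]), max_eq_right]
      · simp
      · linarith [Real.log_nonneg h.le]
  refine ContinuousAt.congr ?_ h1.symm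
  apply Complex.continuous_ofReal.continuousAt.comp
  exact ((Real.continuousAt_log hx.ne').neg).max continuousAt_const

theorem zp_int (c : ℝ) (hc : 1 < c) : Integrable (fun t : ℝ => 1 / ((c : ℂ) + t * Complex.I) ^ 2) := by
  refine Integrable.mono' (integrable_inv_one_add_sq) ?_ ?_
  · apply Continuous.aestronglyMeasurable
    apply Continuous.div continuous_const (by fun_prop)
    intro t
    apply pow_ne_zero
    intro h
    have := congrArg Complex.re h
    simp at this
    linarith
  · filter_upwards with t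
    rw [norm_div, norm_one, norm_pow, one_div]
    apply inv_anti₀ (by positivity)
    rw [← Complex.normSq_eq_norm_sq, Complex.normSq_apply]
    simp
    nlinarith

theorem zp_kernel (c : ℝ) (hc : 1 < c) (x : ℝ) (hx : 0 < x) :
    zpF x = 1 / (2 * Real.pi) * ∫ t : ℝ, (x : ℂ) ^ (-((c : ℂ) + t * Complex.I)) *
      (1 / ((c : ℂ) + t * Complex.I) ^ 2) := by
  have h0 : ∀ t : ℝ, 0 < ((c : ℂ) + t * Complex.I).re := by
    intro t
    simp
    linarith
  have h1 := mellinInv_mellin_eq c zpF hx (zp_mellin c (by simp; linarith)).1 ?_ (zp_cont x hx)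
  · rw [← h1]
    unfold mellinInv
    rw [Complex.real_smul]
    push_cast
    congr 1
    apply integral_congr_ae
    filter_upwards with t
    rw [(zp_mellin _ (h0 t)).2, smul_eq_mul]
  · unfold Complex.VerticalIntegrable
    refine (zp_int c hc).congr ?_
    filter_upwards with t
    rw [(zp_mellin _ (h0 t)).2]

theorem zp_cpow (c : ℝ) (hc : 1 < c) (y : ℝ) (hy : 1 ≤ y) (n : ℕ) (hn : n ≠ 0) (t : ℝ) :
    (((n : ℝ) / y : ℝ) : ℂ) ^ (-((c : ℂ) + t * Complex.I)) =
      (y : ℂ) ^ ((c : ℂ) + t * Complex.I) / (n : ℂ) ^ ((c : ℂ) + t * Complex.I) := by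
  have hy0 : 0 < y := by linarith
  have hn0 : (0 : ℝ) < n := by
    have := Nat.pos_of_ne_zero hn
    exact_mod_cast this
  have h1 : ((n : ℝ) / y) = (n : ℝ) * y⁻¹ := rfl
  rw [h1, Complex.ofReal_mul, Complex.mul_cpow_ofReal_nonneg hn0.le (by positivity), Complex.cpow_neg,
    Complex.ofReal_inv, Complex.inv_cpow, Complex.cpow_neg, inv_inv]
  · push_cast
    ring
  · rw [Complex.arg_ofReal_of_nonneg hy0.le]
    exact Real.pi_pos.ne

theorem perron (c y : ℝ) (hc : 1 < c) (hy : 1 ≤ y) :
    ((∑ n ∈ Icc 1 ⌊y⌋₊, (lam n : ℝ) * Real.log (y / n) : ℝ) : ℂ) =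
      1 / (2 * Real.pi) * ∫ t : ℝ, GG (c + t * Complex.I) *
        ((y : ℂ) ^ (c + t * Complex.I : ℂ)) / (c + t * Complex.I) ^ 2 := by
  have hy0 : 0 < y := by linarith
  have hyC : (y : ℂ) ≠ 0 := by exact_mod_cast hy0.ne'
  set F : ℕ → ℝ → ℂ := fun n t => LSeries.term (fun n => (lam n : ℂ)) ((c : ℂ) + t * Complex.I) n *
    ((y : ℂ) ^ (c + t * Complex.I : ℂ)) / (c + t * Complex.I) ^ 2 with hF
  have hre : ∀ t : ℝ, ((c : ℂ) + t * Complex.I).re = c := by
    intro t
    simp
  have hnormT : ∀ (n : ℕ) (t : ℝ), ‖LSeries.term (fun n => (lam n : ℂ)) ((c : ℂ) + t * Complex.I) n‖ ≤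
      ‖LSeries.term (fun n => (lam n : ℂ)) (c : ℂ) n‖ := by
    intro n t
    rw [LSeries.norm_term_eq, LSeries.norm_term_eq, hre]
    simp
  have hnormY : ∀ t : ℝ, ‖((y : ℂ) ^ ((c : ℂ) + t * Complex.I))‖ = y ^ c := by
    intro t
    rw [Complex.norm_cpow_eq_rpow_re_of_pos hy0, hre]
  have hcontY : Continuous (fun t : ℝ => (y : ℂ) ^ ((c : ℂ) + t * Complex.I)) := by
    apply Continuous.const_cpow (by fun_prop)
    left
    exact hyC
  have hmeasT : ∀ n, Continuous (fun t : ℝ => LSeries.term (fun n => (lam n : ℂ)) ((c : ℂ) + t * Complex.I) n) := by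
    intro n
    rcases Nat.eq_zero_or_pos n with h | h
    · subst h
      simp only [LSeries.term_zero]
      exact continuous_const
    · have hn : n ≠ 0 := h.ne'
      simp only [LSeries.term_of_ne_zero hn]
      apply Continuous.div continuous_const
      · apply Continuous.const_cpow (by fun_prop)
        left
        exact_mod_cast hn
      · intro t
        rw [Complex.cpow_ne_zero_iff]
        left
        exact_mod_cast hn
  have hbound : ∀ n t, ‖F n t‖ ≤ ‖LSeries.term (fun n => (lam n : ℂ)) (c : ℂ) n‖ * y ^ c *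
      ‖1 / ((c : ℂ) + t * Complex.I) ^ 2‖ := by
    intro n t
    simp only [hF]
    rw [norm_div, norm_mul, hnormY, norm_div, norm_one, div_eq_mul_one_div]
    apply mul_le_mul_of_nonneg_right _ (by positivity)
    exact mul_le_mul_of_nonneg_right (hnormT n t) (by positivity)
  have hden : Continuous (fun t : ℝ => ((c : ℂ) + t * Complex.I) ^ 2) := by fun_prop
  have hden0 : ∀ t : ℝ, ((c : ℂ) + t * Complex.I) ^ 2 ≠ 0 := by
    intro t
    apply pow_ne_zero
    intro h
    have := congrArg Complex.re h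
    rw [hre] at this
    simp at this
    linarith
  have hFint : ∀ n, Integrable (F n) := by
    intro n
    refine Integrable.mono' (((zp_int c hc).norm).const_mul
      (‖LSeries.term (fun n => (lam n : ℂ)) (c : ℂ) n‖ * y ^ c)) ?_ ?_
    · apply Continuous.aestronglyMeasurable
      exact ((hmeasT n).mul hcontY).div hden hden0
    · filter_upwards with t
      exact hbound n t
  have hsumN : Summable (fun n => ‖LSeries.term (fun n => (lam n : ℂ)) (c : ℂ) n‖) := by
    have h1 := (lam_lseries (c : ℂ) (by simpa using hc)).1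
    exact Summable.norm h1
  have hFsum : Summable (fun n => ∫ t, ‖F n t‖) := by
    refine Summable.of_nonneg_of_le (fun n => integral_nonneg (fun t => norm_nonneg _)) (fun n => ?_)
      (hsumN.mul_right (y ^ c * ∫ t : ℝ, ‖1 / ((c : ℂ) + t * Complex.I) ^ 2‖))
    have h1 : ∫ t, ‖F n t‖ ≤ ∫ t : ℝ, ‖LSeries.term (fun n => (lam n : ℂ)) (c : ℂ) n‖ * y ^ c *
      ‖1 / ((c : ℂ) + t * Complex.I) ^ 2‖ := by
      apply integral_mono (hFint n).norm (((zp_int c hc).norm).const_mul _)
      intro t
      exact hbound n t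
    rw [integral_const_mul] at h1
    refine h1.trans (le_of_eq ?_)
    ring
  have hmain := hasSum_integral_of_summable_integral_norm hFint hFsum
  have hR : ∫ t : ℝ, ∑' n, F n t = ∫ t : ℝ, GG (c + t * Complex.I) *
        ((y : ℂ) ^ (c + t * Complex.I : ℂ)) / (c + t * Complex.I) ^ 2 := by
    apply integral_congr_ae
    filter_upwards with t
    have h1 := (lam_lseries ((c : ℂ) + t * Complex.I) (by rw [hre]; exact hc)).2
    rw [← h1]
    simp only [hF]
    rw [tsum_div_const, tsum_mul_right]
    rfl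
  rw [hR] at hmain
  have hterm : ∀ n, (1 / (2 * Real.pi) : ℂ) * ∫ t : ℝ, F n t =
      if n ∈ Icc 1 ⌊y⌋₊ then (((lam n : ℝ) * Real.log (y / n) : ℝ) : ℂ) else 0 := by
    intro n
    rcases Nat.eq_zero_or_pos n with h | h
    · subst h
      have : ∀ t, F 0 t = 0 := by
        intro t
        simp only [hF, LSeries.term_zero]
        simp
      simp [this]
    · have hn : n ≠ 0 := h.ne'
      have hn0 : (0 : ℝ) < n := by exact_mod_cast h
      have h1 := zp_kernel c hc (n / y) (by positivity)
      have h2 : ∫ t : ℝ, F n t = (lam n : ℂ) * ∫ t : ℝ, (((n : ℝ) / y : ℝ) : ℂ) ^ (-((c : ℂ) + t * Complex.I)) *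
          (1 / ((c : ℂ) + t * Complex.I) ^ 2) := by
        rw [← integral_const_mul]
        apply integral_congr_ae
        filter_upwards with t
        rw [zp_cpow c hc y hy n hn t]
        simp only [hF, LSeries.term_of_ne_zero hn]
        ring
      have h3 : (1 / (2 * Real.pi) : ℂ) * ∫ t : ℝ, F n t = (lam n : ℂ) * zpF (n / y) := by
        rw [h2, h1]
        ring
      rw [h3]
      unfold zpF
      by_cases hle : n ≤ ⌊y⌋₊
      · have hle' : (n : ℝ) ≤ y := (Nat.le_floor_iff hy0.le).mp hle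
        rw [if_pos (mem_Icc.mpr ⟨h, hle⟩), Set.indicator_of_mem]
        · rw [Real.log_div hn0.ne' hy0.ne', Real.log_div hy0.ne' hn0.ne', Complex.real_smul]
          push_cast
          ring
        · constructor
          · positivity
          · rw [div_le_one hy0]
            exact hle'
      · have hlt : y < n := by
          by_contra hcon
          exact hle ((Nat.le_floor_iff hy0.le).mpr (not_lt.mp hcon))
        rw [if_neg (by simp [mem_Icc, hle]), Set.indicator_of_notMem]
        · simp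
        · simp only [Set.mem_Ioc, not_and, not_le]
          intro _
          rw [one_lt_div hy0]
          exact hlt
  have hmain2 := hmain.mul_left (1 / (2 * Real.pi) : ℂ)
  simp only [hterm] at hmain2
  have hfin : HasSum (fun n => if n ∈ Icc 1 ⌊y⌋₊ then (((lam n : ℝ) * Real.log (y / n) : ℝ) : ℂ) else 0)
      (∑ n ∈ Icc 1 ⌊y⌋₊, if n ∈ Icc 1 ⌊y⌋₊ then (((lam n : ℝ) * Real.log (y / n) : ℝ) : ℂ) else 0) :=
    hasSum_sum_of_ne_finset_zero (fun n hn => if_neg hn)
  have h5 := hfin.unique hmain2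
  rw [← h5]
  rw [Complex.ofReal_sum]
  apply Finset.sum_congr rfl
  intro n hn
  rw [if_pos hn]

end Pool.Agent.GLI
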