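import Pool.Agent.GLI.Ev

set_option autoImplicit false

/-!
Module ZUp. For `N ≥ 1`, `Re s > 1`: `ζ(s) = ∑_{n ≤ N} n^{-s} + N^{1-s}/(s-1) - s ∫_N^∞ {x} x^{-s-1} dx`; the right side is
holomorphic on `Re s > 0`, `s ≠ 1`, and with `N = ⌊|t| + 3⌋` it is `O(log T)` on the closed disc of radius `1/(2 log T)`
around `σ + it`; Cauchy's estimate gives all the derivatives.
-/

open Finset Filter MeasureTheory

namespace Pool.Agent.GLI

/-- The fractional part on `(N, ∞)`. -/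
noncomputable def frN (N : ℕ) (t : ℝ) : ℂ :=
  (Set.Ioi (N : ℝ)).indicator (fun u : ℝ => ((u - ⌊u⌋₊ : ℝ) : ℂ)) t

/-- `∫_N^∞ {x} x^{-s-1} dx`. -/
noncomputable def EN (N : ℕ) (s : ℂ) : ℂ := mellin (frN N) (-s)

/-- The truncated formula for `ζ`. -/
noncomputable def HN (N : ℕ) (s : ℂ) : ℂ :=
  ∑ n ∈ Icc 1 N, (n : ℂ) ^ (-s) + (N : ℂ) ^ (1 - s) / (s - 1) - s * EN N s

theorem frN_norm (N : ℕ) (t : ℝ) : ‖frN N t‖ ≤ 1 := by
  unfold frN
  by_cases ht : t ∈ Set.Ioi (N : ℝ)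
  · rw [Set.indicator_of_mem ht]
    have h0 : (0 : ℝ) ≤ t := le_trans (Nat.cast_nonneg N) (le_of_lt ht)
    have h1 := Nat.floor_le h0
    have h2 := Nat.lt_floor_add_one t
    rw [Complex.norm_real, Real.norm_eq_abs, abs_of_nonneg (by linarith)]
    linarith
  · rw [Set.indicator_of_notMem ht]
    simp

theorem frN_meas (N : ℕ) : Measurable (frN N) := by
  unfold frN
  refine Measurable.indicator ?_ measurableSet_Ioi
  refine Complex.measurable_ofReal.comp ?_
  exact measurable_id.sub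
    ((measurable_from_nat (f := fun n : ℕ => (n : ℝ))).comp Nat.measurable_floor)

theorem frN_locint (N : ℕ) : LocallyIntegrableOn (frN N) (Set.Ioi 0) := by
  apply LocallyIntegrable.locallyIntegrableOn
  refine (locallyIntegrable_const (1 : ℝ)).mono (frN_meas N).aestronglyMeasurable ?_
  refine Eventually.of_forall fun t => ?_
  rw [norm_one]
  exact frN_norm N t

theorem frN_top (N : ℕ) : frN N =O[atTop] (fun x : ℝ => x ^ (-(0 : ℝ))) := by
  refine Asymptotics.IsBigO.of_bound 1 (Eventually.of_forall fun t => ?_)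
  simp only [neg_zero, Real.rpow_zero, norm_one, mul_one]
  exact frN_norm N t

theorem frN_bot (N : ℕ) (hN : 1 ≤ N) (b : ℝ) :
    frN N =O[nhdsWithin 0 (Set.Ioi 0)] (fun x : ℝ => x ^ (-b)) := by
  refine Asymptotics.IsBigO.of_bound 1 ?_
  have h1 : ∀ᶠ x : ℝ in nhdsWithin 0 (Set.Ioi 0), x < 1 :=
    nhdsWithin_le_nhds (gt_mem_nhds one_pos)
  filter_upwards [h1] with x hx
  have h2 : frN N x = 0 := by
    unfold frN
    apply Set.indicator_of_notMem
    intro h3
    have h4 : (N : ℝ) < x := h3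
    have h5 : (1 : ℝ) ≤ N := by exact_mod_cast hN
    linarith
  rw [h2, norm_zero, one_mul]
  exact norm_nonneg _

theorem EN_diff (N : ℕ) (hN : 1 ≤ N) (s : ℂ) (hs : 0 < s.re) : DifferentiableAt ℂ (EN N) s := by
  have h0 : EN N = mellin (frN N) ∘ (fun s : ℂ => -s) := rfl
  have h1 : DifferentiableAt ℂ (mellin (frN N)) (-s) := by
    refine mellin_differentiableAt_of_isBigO_rpow (a := 0) (b := (-s).re - 1) (frN_locint N)
      (frN_top N) ?_ (frN_bot N hN _) ?_
    · rw [Complex.neg_re]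
      linarith
    · linarith
  rw [h0]
  exact DifferentiableAt.comp s h1 (by fun_prop)

theorem EN_eq (N : ℕ) (s : ℂ) :
    EN N s = ∫ t in Set.Ioi (N : ℝ), (t : ℂ) ^ (-s - 1) * ((t - ⌊t⌋₊ : ℝ) : ℂ) := by
  unfold EN mellin
  have h1 : ∀ t : ℝ, (t : ℂ) ^ (-s - 1) • frN N t =
      (Set.Ioi (N : ℝ)).indicator (fun t : ℝ => (t : ℂ) ^ (-s - 1) * ((t - ⌊t⌋₊ : ℝ) : ℂ)) t := by
    intro t
    unfold frN
    by_cases ht : t ∈ Set.Ioi (N : ℝ)
    · rw [Set.indicator_of_mem ht, Set.indicator_of_mem ht, smul_eq_mul]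
    · rw [Set.indicator_of_notMem ht, Set.indicator_of_notMem ht, smul_zero]
  simp_rw [h1]
  rw [setIntegral_indicator measurableSet_Ioi]
  congr 2
  rw [Set.Ioi_inter_Ioi]
  congr 1
  exact max_eq_right (Nat.cast_nonneg N)

theorem EN_bound (N : ℕ) (hN : 1 ≤ N) (s : ℂ) (hs : 0 < s.re) :
    ‖EN N s‖ ≤ (N : ℝ) ^ (-s.re) / s.re := by
  have hN0 : (0 : ℝ) < N := by
    have : (1 : ℝ) ≤ N := by exact_mod_cast hN
    linarith
  rw [EN_eq N s]
  have h1 : ∫ t in Set.Ioi (N : ℝ), t ^ (-s.re - 1) = (N : ℝ) ^ (-s.re) / s.re := by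
    rw [integral_Ioi_rpow_of_lt (by linarith) hN0]
    rw [show -s.re - 1 + 1 = -s.re by ring]
    rw [neg_div_neg_eq]
  rw [← h1]
  refine norm_integral_le_of_norm_le
    ((integrableOn_Ioi_rpow_of_lt (by linarith : -s.re - 1 < -1) hN0)) ?_
  refine (ae_restrict_iff' measurableSet_Ioi).mpr (Eventually.of_forall fun t ht => ?_)
  have ht' : (N : ℝ) < t := ht
  have ht0 : 0 < t := by linarith
  have h3 : ‖((t - ⌊t⌋₊ : ℝ) : ℂ)‖ ≤ 1 := by
    have h1 := Nat.floor_le ht0.le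
    have h2 := Nat.lt_floor_add_one t
    rw [Complex.norm_real, Real.norm_eq_abs, abs_of_nonneg (by linarith)]
    linarith
  rw [norm_mul, Complex.norm_cpow_eq_rpow_re_of_pos ht0]
  have h4 : (-s - 1).re = -s.re - 1 := by simp
  rw [h4]
  have h5 : (0 : ℝ) ≤ t ^ (-s.re - 1) := Real.rpow_nonneg ht0.le _
  nlinarith

theorem HN_diff (N : ℕ) (hN : 1 ≤ N) (s : ℂ) (hs : 0 < s.re) (hs1 : s ≠ 1) :
    DifferentiableAt ℂ (HN N) s := by
  have hN0 : (N : ℂ) ≠ 0 := by
    have : N ≠ 0 := by omega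
    exact_mod_cast this
  unfold HN
  refine DifferentiableAt.sub (DifferentiableAt.add ?_ ?_) ?_
  · refine DifferentiableAt.fun_sum fun n hn => ?_
    have hn0 : (n : ℂ) ≠ 0 := by
      have : n ≠ 0 := by
        have := (Finset.mem_Icc.mp hn).1
        omega
      exact_mod_cast this
    exact (differentiable_neg.differentiableAt).const_cpow (Or.inl hn0)
  · refine DifferentiableAt.div ?_ ?_ (sub_ne_zero.mpr hs1)
    · exact (DifferentiableAt.const_cpow (by fun_prop) (Or.inl hN0))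
    · fun_prop
  · exact differentiableAt_id.mul (EN_diff N hN s hs)

theorem sum_one_count (n : ℕ) : ∑ k ∈ Icc 0 n, (if k = 0 then (0 : ℂ) else 1) = n := by
  have h1 : Icc 0 n = insert 0 (Icc 1 n) := by
    ext a
    simp only [Finset.mem_Icc, Finset.mem_insert]
    omega
  rw [h1, Finset.sum_insert (by simp)]
  simp only [if_true, zero_add]
  rw [Finset.sum_congr rfl (g := fun _ => (1 : ℂ))]
  · simp
  · intro k hk
    have := (Finset.mem_Icc.mp hk).1
    rw [if_neg (by omega)]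

theorem zeta_floor (s : ℂ) (hs : 1 < s.re) :
    riemannZeta s = s * ∫ t in Set.Ioi (1 : ℝ), (⌊t⌋₊ : ℂ) * (t : ℂ) ^ (-(s + 1)) := by
  have h1 := LSeries_eq_mul_integral' (fun _ : ℕ => (1 : ℂ)) (r := 1) zero_le_one hs ?_
  · rw [← LSeries_one_eq_riemannZeta hs]
    rw [show (1 : ℕ → ℂ) = fun _ : ℕ => (1 : ℂ) from rfl, h1]
    congr 1
    refine setIntegral_congr_fun measurableSet_Ioi fun t _ => ?_
    simp
  · simp only [norm_one, Finset.sum_const, Nat.card_Icc, Nat.add_sub_cancel, nsmul_eq_mul, mul_one,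
      Real.rpow_one]
    exact Asymptotics.isBigO_refl _ _

theorem sum_abel (N : ℕ) (s : ℂ) (hs0 : 0 < s.re) :
    ∑ n ∈ Icc 1 N, (n : ℂ) ^ (-s) = (N : ℂ) ^ (-s) * N +
      s * ∫ t in Set.Ioc (1 : ℝ) N, (⌊t⌋₊ : ℂ) * (t : ℂ) ^ (-(s + 1)) := by
  have hs : s ≠ 0 := by
    intro h
    rw [h] at hs0
    simp at hs0
  have h1 := sum_mul_eq_sub_integral_mul₀' (f := fun x : ℝ => (x : ℂ) ^ (-s))
    (fun k : ℕ => if k = 0 then (0 : ℂ) else 1) (by simp) N ?_ ?_
  · simp_rw [sum_one_count] at h1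
    have h2 : ∑ k ∈ Icc 0 N, ((k : ℝ) : ℂ) ^ (-s) * (if k = 0 then (0 : ℂ) else 1) =
        ∑ n ∈ Icc 1 N, (n : ℂ) ^ (-s) := by
      have h1 : Icc 0 N = insert 0 (Icc 1 N) := by
        ext a
        simp only [Finset.mem_Icc, Finset.mem_insert]
        omega
      rw [h1, Finset.sum_insert (by simp)]
      simp only [if_true, mul_zero, zero_add]
      refine Finset.sum_congr rfl fun k hk => ?_
      have := (Finset.mem_Icc.mp hk).1
      rw [if_neg (by omega), mul_one]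
      simp
    rw [h2] at h1
    rw [h1, ← integral_const_mul, sub_eq_add_neg, ← integral_neg]
    congr 1
    refine setIntegral_congr_fun measurableSet_Ioc fun t ht => ?_
    have ht0 : t ≠ 0 := (zero_lt_one.trans ht.1).ne'
    rw [Complex.deriv_ofReal_cpow_const ht0 (neg_ne_zero.mpr hs)]
    ring_nf
  · intro t ht
    exact differentiableAt_id.ofReal_cpow_const (zero_lt_one.trans_le ht.1).ne'
      (neg_ne_zero.mpr hs)
  · have h3 : IntegrableOn (deriv fun x : ℝ => (x : ℂ) ^ (-s)) (Set.Ici 1) :=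
      (integrableOn_Ici_iff_integrableOn_Ioi (by finiteness)).mpr
        (integrableOn_Ioi_deriv_ofReal_cpow one_pos (by simpa using hs0))
    exact h3.mono_set Set.Icc_subset_Ici_self

theorem fl_int (s : ℂ) (hs : 1 < s.re) (a : ℝ) (ha : 1 ≤ a) :
    IntegrableOn (fun t : ℝ => (⌊t⌋₊ : ℂ) * (t : ℂ) ^ (-(s + 1))) (Set.Ioi a) := by
  have ha0 : 0 < a := by linarith
  refine Integrable.mono' (integrableOn_Ioi_rpow_of_lt (by linarith : -s.re < -1) ha0) ?_ ?_
  · refine AEStronglyMeasurable.mul ?_ ?_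
    · exact ((measurable_from_nat (f := fun n : ℕ => (n : ℂ))).comp
        Nat.measurable_floor).aestronglyMeasurable
    · refine ContinuousOn.aestronglyMeasurable ?_ measurableSet_Ioi
      intro t ht
      have ht0 : (0 : ℝ) < t := lt_trans ha0 ht
      refine ContinuousAt.continuousWithinAt ?_
      exact Complex.continuousAt_ofReal_cpow_const _ _ (Or.inr ht0.ne')
  · refine (ae_restrict_iff' measurableSet_Ioi).mpr (Eventually.of_forall fun t ht => ?_)
    have ht0 : (0 : ℝ) < t := lt_trans ha0 ht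
    rw [norm_mul, Complex.norm_cpow_eq_rpow_re_of_pos ht0, Complex.norm_natCast]
    have h4 : (-(s + 1)).re = -s.re - 1 := by
      simp
      ring
    rw [h4, Real.rpow_sub_one ht0.ne']
    have h5 : (0 : ℝ) ≤ t ^ (-s.re) := Real.rpow_nonneg ht0.le _
    have h6 := Nat.floor_le ht0.le
    calc (⌊t⌋₊ : ℝ) * (t ^ (-s.re) / t) ≤ t * (t ^ (-s.re) / t) :=
          mul_le_mul_of_nonneg_right h6 (by positivity)
      _ = t ^ (-s.re) := by field_simp

theorem HN_eq (N : ℕ) (hN : 1 ≤ N) (s : ℂ) (hs : 1 < s.re) : riemannZeta s = HN N s := by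
  have hN1 : (1 : ℝ) ≤ N := by exact_mod_cast hN
  have hN0 : (0 : ℝ) < N := by linarith
  have hN0' : (N : ℂ) ≠ 0 := by
    have : N ≠ 0 := by omega
    exact_mod_cast this
  have hs1 : s - 1 ≠ 0 := by
    intro h
    have : s = 1 := by linear_combination h
    rw [this] at hs
    simp at hs
  have hU : Set.Ioi (1 : ℝ) = Set.Ioc 1 (N : ℝ) ∪ Set.Ioi (N : ℝ) :=
    (Set.Ioc_union_Ioi_eq_Ioi hN1).symm
  have h1 := zeta_floor s hs
  have h2 : ∫ t in Set.Ioi (1 : ℝ), (⌊t⌋₊ : ℂ) * (t : ℂ) ^ (-(s + 1)) =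
      (∫ t in Set.Ioc (1 : ℝ) N, (⌊t⌋₊ : ℂ) * (t : ℂ) ^ (-(s + 1))) +
      ∫ t in Set.Ioi (N : ℝ), (⌊t⌋₊ : ℂ) * (t : ℂ) ^ (-(s + 1)) := by
    conv_lhs => rw [hU]
    refine setIntegral_union ?_ measurableSet_Ioi ?_ (fl_int s hs N hN1)
    · exact Set.Ioc_disjoint_Ioi le_rfl
    · exact (fl_int s hs 1 le_rfl).mono_set Set.Ioc_subset_Ioi_self
  have h3 := sum_abel N s (by linarith)
  have hi1 : IntegrableOn (fun t : ℝ => (t : ℂ) ^ (-s)) (Set.Ioi (N : ℝ)) :=
    integrableOn_Ioi_cpow_of_lt (by simpa using hs) hN0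
  have hi2 : IntegrableOn (fun t : ℝ => (⌊t⌋₊ : ℂ) * (t : ℂ) ^ (-(s + 1))) (Set.Ioi (N : ℝ)) :=
    fl_int s hs N hN1
  have h4 : EN N s = (∫ t in Set.Ioi (N : ℝ), (t : ℂ) ^ (-s)) -
      ∫ t in Set.Ioi (N : ℝ), (⌊t⌋₊ : ℂ) * (t : ℂ) ^ (-(s + 1)) := by
    rw [EN_eq N s, ← integral_sub hi1 hi2]
    refine setIntegral_congr_fun measurableSet_Ioi fun t ht => ?_
    have ht0 : (0 : ℝ) < t := lt_trans hN0 ht
    have ht0' : (t : ℂ) ≠ 0 := by exact_mod_cast ht0.ne'
    have h5 : (t : ℂ) ^ (-s) = (t : ℂ) ^ (-s - 1) * t := by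
      rw [Complex.cpow_sub _ _ ht0', Complex.cpow_one, div_mul_cancel₀ _ ht0']
    rw [h5, show -(s + 1) = -s - 1 by ring]
    push_cast
    ring
  have h5 : ∫ t in Set.Ioi (N : ℝ), (t : ℂ) ^ (-s) = (N : ℂ) ^ (1 - s) / (s - 1) := by
    rw [integral_Ioi_cpow_of_lt (by simpa using hs) hN0]
    rw [show -s + 1 = 1 - s by ring, Complex.ofReal_natCast]
    rw [show (1 : ℂ) - s = -(s - 1) by ring, neg_div_neg_eq]
  have h6 : (N : ℂ) ^ (-s) * N = (N : ℂ) ^ (1 - s) := by
    rw [show (1 : ℂ) - s = -s + 1 by ring, Complex.cpow_add _ _ hN0', Complex.cpow_one]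
  unfold HN
  rw [h3, h1, h2, h4, h5, h6]
  field_simp
  ring

theorem log_T (t : ℝ) : 1.38 ≤ Real.log (|t| + 3) ∨ |t| < 1 := by
  by_cases h : 1 ≤ |t|
  · left
    have h1 : Real.log 4 ≤ Real.log (|t| + 3) := Real.log_le_log (by norm_num) (by linarith)
    have h2 : Real.log 4 = 2 * Real.log 2 := by
      rw [show (4 : ℝ) = 2 ^ 2 by norm_num, Real.log_pow]
      norm_num
    have h3 := Real.log_two_gt_d9
    linarith
  · right
    linarith

theorem HN_bound (σ t : ℝ) (hσ : 1 ≤ σ) (hσ2 : σ ≤ 2) (ht : 1 ≤ |t|) (z : ℂ)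
    (hz : ‖z - (σ + t * Complex.I)‖ ≤ 1 / (2 * Real.log (|t| + 3))) :
    1 / 2 ≤ z.re ∧ z ≠ 1 ∧ ‖HN ⌊|t| + 3⌋₊ z‖ ≤ 16 * Real.log (|t| + 3) := by
  set T : ℝ := |t| + 3 with hT
  set L : ℝ := Real.log T with hL
  set r : ℝ := 1 / (2 * L) with hr
  set N : ℕ := ⌊T⌋₊ with hN
  have hL1 : 1.38 ≤ L := by
    rcases log_T t with h | h
    · exact h
    · linarith
  have hL0 : 0 < L := by linarith
  have hT4 : 4 ≤ T := by linarith
  have hT0 : 0 < T := by linarith
  have hr0 : 0 < r := by positivity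
  have hr2 : r ≤ 1 / 2 := by
    rw [hr, div_le_div_iff₀ (by positivity) (by norm_num)]
    linarith
  have hNle : (N : ℝ) ≤ T := Nat.floor_le hT0.le
  have hNgt : T < N + 1 := Nat.lt_floor_add_one T
  have hN3 : 3 < (N : ℝ) := by linarith
  have hN0 : (0 : ℝ) < N := by linarith
  have hN1 : 1 ≤ N := by
    have : (0 : ℝ) < N := hN0
    exact_mod_cast Nat.succ_le_of_lt (by exact_mod_cast this)
  have hTr : T ^ r ≤ 2 := by
    have h1 : T ^ r = Real.exp (1 / 2) := by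
      rw [Real.rpow_def_of_pos hT0]
      congr 1
      rw [hr, ← hL]
      field_simp
    have h2 : Real.exp (1 / 2) * Real.exp (1 / 2) = Real.exp 1 := by
      rw [← Real.exp_add]
      norm_num
    have h3 := Real.exp_one_lt_d9
    have h4 := Real.exp_pos (1 / 2)
    rw [h1]
    nlinarith
  have hre : |z.re - σ| ≤ r := by
    have h1 := Complex.abs_re_le_norm (z - (σ + t * Complex.I))
    simp only [Complex.sub_re, Complex.add_re, Complex.ofReal_re, Complex.mul_re, Complex.I_re,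
      mul_zero, Complex.ofReal_im, Complex.I_im, mul_one, sub_self, add_zero] at h1
    linarith
  have him : |z.im - t| ≤ r := by
    have h1 := Complex.abs_im_le_norm (z - (σ + t * Complex.I))
    simp only [Complex.sub_im, Complex.add_im, Complex.ofReal_im, Complex.mul_im, Complex.I_re,
      mul_zero, Complex.ofReal_re, Complex.I_im, mul_one, zero_add, add_zero] at h1
    linarith
  have hre1 : 1 - r ≤ z.re := by
    have := (abs_le.mp hre).1
    linarith
  have hre2 : 1 / 2 ≤ z.re := by linarith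
  have him1 : 1 / 2 ≤ |z.im| := by
    have h1 : |t| ≤ |z.im - t| + |z.im| := by
      have h2 : t = -(z.im - t) + z.im := by ring
      calc |t| = |-(z.im - t) + z.im| := by rw [← h2]
        _ ≤ |-(z.im - t)| + |z.im| := abs_add_le _ _
        _ = |z.im - t| + |z.im| := by rw [abs_neg]
    linarith
  have hz1 : 1 / 2 ≤ ‖z - 1‖ := by
    have h1 := Complex.abs_im_le_norm (z - 1)
    simp only [Complex.sub_im, Complex.one_im, sub_zero] at h1
    linarith
  have hzn : ‖z‖ ≤ T := by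
    have h1 : ‖z‖ ≤ ‖z - (σ + t * Complex.I)‖ + ‖(σ : ℂ)‖ + ‖(t : ℂ) * Complex.I‖ := by
      have h2 : z = (z - (σ + t * Complex.I)) + σ + t * Complex.I := by ring
      calc ‖z‖ = ‖(z - (σ + t * Complex.I)) + σ + t * Complex.I‖ := by rw [← h2]
        _ ≤ _ := norm_add₃_le
    have h3 : ‖(σ : ℂ)‖ = σ := by
      rw [Complex.norm_real, Real.norm_eq_abs, abs_of_nonneg (by linarith)]
    have h4 : ‖(t : ℂ) * Complex.I‖ = |t| := by
      rw [norm_mul, Complex.norm_I, mul_one, Complex.norm_real, Real.norm_eq_abs]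
    rw [h3, h4] at h1
    linarith
  -- powers
  have hpow : ∀ x : ℝ, 1 ≤ x → x ≤ T → x ^ (-z.re) ≤ 2 / x := by
    intro x hx1 hxT
    have hx0 : 0 < x := by linarith
    have h1 : x ^ (-z.re) ≤ x ^ (r - 1) := Real.rpow_le_rpow_of_exponent_le hx1 (by linarith)
    have h2 : x ^ (r - 1) = x ^ r / x := Real.rpow_sub_one hx0.ne' r
    have h3 : x ^ r ≤ T ^ r := Real.rpow_le_rpow hx0.le hxT hr0.le
    calc x ^ (-z.re) ≤ x ^ r / x := by rw [← h2]; exact h1
      _ ≤ 2 / x := div_le_div_of_nonneg_right (h3.trans hTr) hx0.le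
  refine ⟨hre2, ?_, ?_⟩
  · intro h
    rw [h] at hz1
    norm_num at hz1
  · have hS : ‖∑ n ∈ Icc 1 N, (n : ℂ) ^ (-z)‖ ≤ 2 * (1 + L) := by
      calc ‖∑ n ∈ Icc 1 N, (n : ℂ) ^ (-z)‖ ≤ ∑ n ∈ Icc 1 N, ‖(n : ℂ) ^ (-z)‖ := norm_sum_le _ _
        _ ≤ ∑ n ∈ Icc 1 N, 2 * ((n : ℝ)⁻¹) := by
            refine Finset.sum_le_sum fun n hn => ?_
            have h1 := (Finset.mem_Icc.mp hn).1
            have h2 := (Finset.mem_Icc.mp hn).2
            have h3 : (1 : ℝ) ≤ n := by exact_mod_cast h1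
            have h4 : (n : ℝ) ≤ N := by exact_mod_cast h2
            have h5 : ‖(n : ℂ) ^ (-z)‖ = (n : ℝ) ^ (-z.re) := by
              rw [← Complex.ofReal_natCast, Complex.norm_cpow_eq_rpow_re_of_pos (by linarith)]
              simp
            rw [h5, ← div_eq_mul_inv]
            exact hpow n h3 (h4.trans hNle)
        _ = 2 * ∑ n ∈ Icc 1 N, ((n : ℝ)⁻¹) := by rw [Finset.mul_sum]
        _ ≤ 2 * (1 + L) := by
            have h1 := harmonic_le_one_add_log N
            rw [harmonic_eq_sum_Icc] at h1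
            push_cast at h1
            have h2 : Real.log N ≤ L := Real.log_le_log hN0 hNle
            linarith
    have hM : ‖(N : ℂ) ^ (1 - z) / (z - 1)‖ ≤ 4 := by
      rw [norm_div]
      have h5 : ‖(N : ℂ) ^ (1 - z)‖ = (N : ℝ) ^ (-z.re) * N := by
        rw [← Complex.ofReal_natCast, Complex.norm_cpow_eq_rpow_re_of_pos hN0]
        rw [show ((1 : ℂ) - z).re = -z.re + 1 by simp; ring, Real.rpow_add_one hN0.ne']
      have h6 := hpow N (by linarith) hNle
      have h7 : (N : ℝ) ^ (-z.re) * N ≤ 2 := by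
        calc (N : ℝ) ^ (-z.re) * N ≤ 2 / N * N := mul_le_mul_of_nonneg_right h6 hN0.le
          _ = 2 := by field_simp
      rw [h5, div_le_iff₀ (by linarith)]
      linarith
    have hE : ‖z * EN N z‖ ≤ 16 / 3 := by
      rw [norm_mul]
      have h1 := EN_bound N hN1 z (by linarith)
      have h6 := hpow N (by linarith) hNle
      have h8 : (N : ℝ) ^ (-z.re) / z.re ≤ (2 / N) / (1 / 2) :=
        div_le_div₀ (by positivity) h6 (by norm_num) hre2
      have h9 : ‖EN N z‖ ≤ 4 / N := by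
        refine h1.trans (h8.trans (le_of_eq ?_))
        ring
      calc ‖z‖ * ‖EN N z‖ ≤ T * (4 / N) := mul_le_mul hzn h9 (norm_nonneg _) hT0.le
        _ ≤ 16 / 3 := by
          rw [mul_div_assoc', div_le_div_iff₀ hN0 (by norm_num)]
          nlinarith
    have h10 : ‖HN N z‖ ≤ ‖∑ n ∈ Icc 1 N, (n : ℂ) ^ (-z)‖ + ‖(N : ℂ) ^ (1 - z) / (z - 1)‖ +
        ‖z * EN N z‖ := by
      unfold HN
      exact (norm_sub_le _ _).trans (add_le_add_left (norm_add_le _ _) _)
    linarith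

theorem zeta_eventuallyEq (N : ℕ) (hN : 1 ≤ N) (s : ℂ) (hs : 1 < s.re) :
    riemannZeta =ᶠ[nhds s] HN N := by
  have h1 : ∀ᶠ z : ℂ in nhds s, 1 < z.re :=
    (Complex.continuous_re.tendsto s).eventually (lt_mem_nhds hs)
  filter_upwards [h1] with z hz
  exact HN_eq N hN z hz

theorem zeta_up (j : ℕ) : ∃ C : ℝ, 0 < C ∧ ∀ σ t : ℝ, 1 < σ → σ ≤ 2 → 1 ≤ |t| →
    ‖iteratedDeriv j riemannZeta (σ + t * Complex.I)‖ ≤ C * Real.log (|t| + 3) ^ (j + 1) := by
  refine ⟨j.factorial * 16 * 2 ^ j, by positivity, ?_⟩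
  intro σ t hσ hσ2 ht
  have hL1 : 1.38 ≤ Real.log (|t| + 3) := by
    rcases log_T t with h | h
    · exact h
    · linarith
  have hL0 : 0 < Real.log (|t| + 3) := by linarith
  set s : ℂ := σ + t * Complex.I with hs
  have hsre : s.re = σ := by simp [hs]
  have hN1 : 1 ≤ ⌊|t| + 3⌋₊ := by
    apply Nat.le_floor
    push_cast
    linarith
  have h1 := zeta_eventuallyEq _ hN1 s (by rw [hsre]; exact hσ)
  rw [h1.iteratedDeriv_eq]
  have hr0 : 0 < 1 / (2 * Real.log (|t| + 3)) := by positivity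
  have h2 := Complex.norm_iteratedDeriv_le_of_forall_mem_sphere_norm_le (c := s)
    (R := 1 / (2 * Real.log (|t| + 3))) (C := 16 * Real.log (|t| + 3)) (f := HN ⌊|t| + 3⌋₊) j
    hr0 ?_ ?_
  · refine h2.trans (le_of_eq ?_)
    rw [one_div, inv_pow, div_inv_eq_mul, mul_pow]
    ring
  · refine DifferentiableOn.diffContOnCl ?_
    intro z hz
    have hz' : ‖z - s‖ ≤ 1 / (2 * Real.log (|t| + 3)) := by
      have := Metric.closure_ball_subset_closedBall hz
      rwa [Metric.mem_closedBall, dist_eq_norm] at this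
    obtain ⟨h3, h4, -⟩ := HN_bound σ t hσ.le hσ2 ht z hz'
    exact (HN_diff _ hN1 z (by linarith) h4).differentiableWithinAt
  · intro z hz
    have hz' : ‖z - s‖ ≤ 1 / (2 * Real.log (|t| + 3)) := by
      rw [mem_sphere_iff_norm] at hz
      exact hz.le
    exact (HN_bound σ t hσ.le hσ2 ht z hz').2.2

end Pool.Agent.GLI
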